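import Mathlib

/-!
# MP_6205a3_nt : real polynomials with alternating signs
-/

open Finset Polynomial

set_option autoImplicit false

namespace IntCheb

/-- A real polynomial of degree at most `n` with `n` sign changes at the increasing points
`x 0 < x 1 < ... < x n` has `n` real roots, one in each gap. -/
theorem exists_roots_of_alternating {n : ℕ} (F : ℝ[X]) (hn : F.natDegree ≤ n)
    (x : Fin (n + 1) → ℝ) (hx : StrictMono x)
    (hs : ∀ i : Fin n, F.eval (x i.castSucc) * F.eval (x i.succ) < 0) :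
    ∃ y : Fin n → ℝ, (∀ i, x i.castSucc < y i ∧ y i < x i.succ) ∧
      F = C (F.coeff n) * ∏ i, (X - C (y i)) := by
  classical
  have hroot : ∀ i : Fin n, ∃ y : ℝ, x i.castSucc < y ∧ y < x i.succ ∧ F.eval y = 0 := by
    intro i
    have hlt : x i.castSucc < x i.succ := hx (Fin.castSucc_lt_succ)
    have hc : ContinuousOn (fun t => F.eval t) (Set.Icc (x i.castSucc) (x i.succ)) :=
      F.continuous.continuousOn
    have h := hs i
    rcases mul_neg_iff.1 h with ⟨h1, h2⟩ | ⟨h1, h2⟩
    · obtain ⟨y, hy, hy0⟩ := intermediate_value_Icc' hlt.le hc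
        (show (0 : ℝ) ∈ Set.Icc _ _ from ⟨h2.le, h1.le⟩)
      refine ⟨y, lt_of_le_of_ne hy.1 ?_, lt_of_le_of_ne hy.2 ?_, hy0⟩
      · rintro rfl; simp only at hy0; linarith
      · rintro rfl; simp only at hy0; linarith
    · obtain ⟨y, hy, hy0⟩ := intermediate_value_Icc hlt.le hc
        (show (0 : ℝ) ∈ Set.Icc _ _ from ⟨h1.le, h2.le⟩)
      refine ⟨y, lt_of_le_of_ne hy.1 ?_, lt_of_le_of_ne hy.2 ?_, hy0⟩
      · rintro rfl; simp only at hy0; linarith
      · rintro rfl; simp only at hy0; linarith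
  choose y hy1 hy2 hy0 using hroot
  have hmono : StrictMono y := by
    intro i j hij
    have h1 : x i.succ ≤ x j.castSucc := hx.monotone (by
      rw [Fin.le_def]; simp only [Fin.val_succ, Fin.val_castSucc]; exact hij)
    linarith [hy2 i, hy1 j]
  refine ⟨y, fun i => ⟨hy1 i, hy2 i⟩, ?_⟩
  have hdvd : (∏ i, (X - C (y i))) ∣ F := by
    apply Finset.prod_dvd_of_coprime
    · intro i _ j _ hij
      exact isCoprime_X_sub_C_of_isUnit_sub (sub_ne_zero.2 (hmono.injective.ne hij)).isUnit
    · intro i _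
      exact dvd_iff_isRoot.2 (hy0 i)
  obtain ⟨S, hS⟩ := hdvd
  have hmonic : (∏ i, (X - C (y i))).Monic := monic_prod_of_monic _ _ fun i _ => monic_X_sub_C _
  have hdeg : (∏ i, (X - C (y i))).natDegree = n := by
    rw [natDegree_prod_of_monic _ _ fun i _ => monic_X_sub_C _]
    simp
  have hSdeg : S.natDegree = 0 := by
    by_cases hS0 : S = 0
    · rw [hS0, natDegree_zero]
    · have h1 : F.natDegree = n + S.natDegree := by
        rw [hS, hmonic.natDegree_mul' hS0, hdeg]
      omega
  obtain ⟨c, hc⟩ := natDegree_eq_zero.1 hSdeg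
  have hcoeff : F.coeff n = c := by
    rw [hS, ← hc, coeff_mul_C]
    have : (∏ i, (X - C (y i))).coeff n = 1 := by
      have := hmonic.coeff_natDegree
      rwa [hdeg] at this
    rw [this, one_mul]
  rw [hcoeff, hc, mul_comm]
  exact hS

end IntCheb
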