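import Pool.Agent.Lib.MP_6205a3_nt.B66.LowInt

/-!
# MP_6205a3_nt : lower bounds on `[0, 1/4]` from a finite certificate
-/

open Finset Polynomial

set_option autoImplicit false

namespace IntCheb

namespace Cert

/-- The integer polynomial with the given list of coefficients (constant term first). -/
noncomputable def pl : List ℤ → ℤ[X]
  | [] => 0
  | c :: l => C c + X * pl l

/-- `D ^ (length - 1)` times the value of `pl l` at `x / D`. -/
def hv (x D : ℤ) : List ℤ → ℤ
  | [] => 0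
  | c :: l => c * D ^ l.length + x * hv x D l

/-- The value of `pl l` at an integer. -/
def ev (r : ℤ) : List ℤ → ℤ
  | [] => 0
  | c :: l => c + r * ev r l

lemma eval_pl (r : ℤ) (l : List ℤ) : (pl l).eval r = ev r l := by
  induction l with
  | nil => simp [pl, ev]
  | cons c l ih => simp [pl, ev, ih]

lemma hv_eq {x D : ℤ} (hD : D ≠ 0) (l : List ℤ) :
    (D : ℝ) * (hv x D l : ℝ) = (D : ℝ) ^ l.length * aeval ((x : ℝ) / D) (pl l) := by
  have hD' : (D : ℝ) ≠ 0 := by exact_mod_cast hD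
  induction l with
  | nil => simp [pl, hv]
  | cons c l ih =>
    simp only [pl, hv, List.length_cons, map_add, map_mul, aeval_X, aeval_C]
    push_cast
    have : (D : ℝ) * (c * D ^ l.length + x * hv x D l) =
        c * D ^ (l.length + 1) + x * (D * hv x D l) := by ring
    rw [this, ih]
    simp only [algebraMap_int_eq, eq_intCast]
    field_simp
    ring

lemma hv_abs {x D : ℤ} (hD : 0 < D) {l : List ℤ} (hl : l ≠ []) :
    ((hv x D l).natAbs : ℝ) = (D : ℝ) ^ (l.length - 1) * |aeval ((x : ℝ) / D) (pl l)| := by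
  have hD' : (0 : ℝ) < D := by exact_mod_cast hD
  have h := congrArg abs (hv_eq (x := x) hD.ne' l)
  rw [abs_mul, abs_mul, abs_of_pos hD', abs_of_pos (pow_pos hD' _)] at h
  obtain ⟨m, hm⟩ : ∃ m, l.length = m + 1 :=
    ⟨l.length - 1, (Nat.succ_pred_eq_of_pos (List.length_pos_iff.2 hl)).symm⟩
  rw [hm, pow_succ] at h
  have h2 : ((hv x D l).natAbs : ℝ) = |(hv x D l : ℝ)| := by
    rw [Nat.cast_natAbs, Int.cast_abs]
  rw [h2, hm, Nat.add_sub_cancel]
  have h3 : (D : ℝ) * |(hv x D l : ℝ)| = D * (D ^ m * |aeval ((x : ℝ) / D) (pl l)|) := by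
    rw [h]; ring
  exact mul_left_cancel₀ hD'.ne' h3

lemma natDegree_pl_le (l : List ℤ) : (pl l).natDegree ≤ l.length - 1 := by
  induction l with
  | nil => simp [pl]
  | cons c l ih =>
    simp only [pl, List.length_cons, Nat.add_sub_cancel]
    refine (natDegree_add_le _ _).trans (max_le (by simp) ?_)
    rcases l with _ | ⟨c', l'⟩
    · simp [pl]
    · refine natDegree_mul_le.trans ?_
      rw [natDegree_X]
      simp only [List.length_cons, Nat.add_sub_cancel] at ih ⊢
      omega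

lemma coeff_pl (l : List ℤ) (k : ℕ) : (pl l).coeff k = l.getD k 0 := by
  induction l generalizing k with
  | nil => simp [pl]
  | cons c l ih =>
    cases k with
    | zero => simp [pl]
    | succ k =>
      rw [pl, coeff_add, coeff_C_succ, coeff_X_mul, ih, zero_add]
      simp

/-- The leading coefficient of the list. -/
def lst (l : List ℤ) : ℤ := l.getD (l.length - 1) 0

lemma natDegree_pl {l : List ℤ} (h : 0 < lst l) : (pl l).natDegree = l.length - 1 := by
  refine le_antisymm (natDegree_pl_le l) (le_natDegree_of_ne_zero ?_)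
  rw [coeff_pl]; exact h.ne'

lemma leadingCoeff_pl {l : List ℤ} (h : 0 < lst l) : (pl l).leadingCoeff = lst l := by
  rw [leadingCoeff, natDegree_pl h, coeff_pl, lst]

lemma pl_ne_zero {l : List ℤ} (h : 0 < lst l) : pl l ≠ 0 := by
  intro h0
  have := leadingCoeff_pl h
  rw [h0, leadingCoeff_zero] at this
  omega

lemma ne_nil {l : List ℤ} (h : 0 < lst l) : l ≠ [] := by
  rintro rfl
  simp [lst] at h

/-- The integer polynomial `Q` of the certificate. -/
noncomputable def Qz (qs : List (List ℤ × ℕ)) : ℤ[X] := (qs.map fun e => pl e.1 ^ e.2).prod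

/-- Degree of `Q`. -/
def dgQ (qs : List (List ℤ × ℕ)) : ℕ := (qs.map fun e => e.2 * (e.1.length - 1)).sum

/-- Leading coefficient of `Q`. -/
def ldQ (qs : List (List ℤ × ℕ)) : ℤ := (qs.map fun e => lst e.1 ^ e.2).prod

lemma Qz_spec {qs : List (List ℤ × ℕ)} (h : ∀ e ∈ qs, 0 < lst e.1) :
    Qz qs ≠ 0 ∧ (Qz qs).natDegree = dgQ qs ∧ (Qz qs).leadingCoeff = ldQ qs ∧ 0 < ldQ qs := by
  induction qs with
  | nil => simp [Qz, dgQ, ldQ]
  | cons e qs ih =>
    have h1 := h e (by simp)
    obtain ⟨i1, i2, i3, i4⟩ := ih fun e' he' => h e' (by simp [he'])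
    have hp : pl e.1 ^ e.2 ≠ 0 := pow_ne_zero _ (pl_ne_zero h1)
    have hQ : Qz (e :: qs) = pl e.1 ^ e.2 * Qz qs := by simp [Qz]
    refine ⟨?_, ?_, ?_, ?_⟩
    · rw [hQ]; exact mul_ne_zero hp i1
    · rw [hQ, natDegree_mul hp i1, i2, natDegree_pow, natDegree_pl h1]
      simp [dgQ]
    · rw [hQ, leadingCoeff_mul, leadingCoeff_pow, leadingCoeff_pl h1, i3]
      simp [ldQ]
    · have : ldQ (e :: qs) = lst e.1 ^ e.2 * ldQ qs := by simp [ldQ]
      rw [this]; positivity

/-- `D ^ n |Q (x / D)|`. -/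
def absQ (x D : ℤ) (qs : List (List ℤ × ℕ)) : ℕ := (qs.map fun e => (hv x D e.1).natAbs ^ e.2).prod

lemma absQ_eq {x D : ℤ} (hD : 0 < D) {qs : List (List ℤ × ℕ)} (h : ∀ e ∈ qs, 0 < lst e.1) :
    (absQ x D qs : ℝ) = (D : ℝ) ^ dgQ qs * |aeval ((x : ℝ) / D) (Qz qs)| := by
  induction qs with
  | nil => simp [absQ, Qz, dgQ]
  | cons e qs ih =>
    have h1 := h e (by simp)
    have ih' := ih fun e' he' => h e' (by simp [he'])
    have e1 : absQ x D (e :: qs) = (hv x D e.1).natAbs ^ e.2 * absQ x D qs := by simp [absQ]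
    have e2 : dgQ (e :: qs) = e.2 * (e.1.length - 1) + dgQ qs := by simp [dgQ]
    have e3 : Qz (e :: qs) = pl e.1 ^ e.2 * Qz qs := by simp [Qz]
    rw [e1, e2, e3, Nat.cast_mul, Nat.cast_pow, hv_abs hD (ne_nil h1), ih', map_mul, map_pow,
      abs_mul, abs_pow, pow_add, mul_pow, ← pow_mul, mul_comm (e.1.length - 1) e.2]
    ring

/-- Product of the distances of `x` to the list `zs`. -/
def absZ (x : ℤ) (zs : List ℤ) : ℕ := (zs.map fun z => (x - z).natAbs).prod

/-- Product of `D ^ d |f (z / D)|` over the list. -/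
def absH (D : ℤ) (l zs : List ℤ) : ℕ := (zs.map fun z => (hv z D l).natAbs).prod

/-- Interlacing. -/
def inter : List ℤ → List ℤ → Bool
  | x :: x' :: xs, z :: zs => decide (x < z) && decide (z < x') && inter (x' :: xs) zs
  | [_], [] => true
  | _, _ => false

lemma inter_spec : ∀ (zs xs : List ℤ), inter xs zs = true →
    xs.length = zs.length + 1 ∧ ∀ i < zs.length, xs.getD i 0 < zs.getD i 0 ∧
      zs.getD i 0 < xs.getD (i + 1) 0
  | [], xs, h => by
    rcases xs with _ | ⟨x, _ | ⟨x', xs⟩⟩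
    · simp [inter] at h
    · simp
    · simp [inter] at h
  | z :: zs, xs, h => by
    rcases xs with _ | ⟨x, _ | ⟨x', xs⟩⟩
    · simp [inter] at h
    · simp [inter] at h
    · rw [inter, Bool.and_eq_true, Bool.and_eq_true, decide_eq_true_iff, decide_eq_true_iff] at h
      obtain ⟨⟨h1, h2⟩, h3⟩ := h
      obtain ⟨i1, i2⟩ := inter_spec zs (x' :: xs) h3
      refine ⟨by simpa using i1, ?_⟩
      intro i hi
      cases i with
      | zero => exact ⟨by simpa using h1, by simpa using h2⟩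
      | succ i => simpa using i2 i (by simpa using hi)

lemma prod_list_eq {n : ℕ} (zs : List ℤ) (hn : zs.length = n) (φ : ℤ → ℝ) :
    (zs.map φ).prod = ∏ j : Fin n, φ (zs.getD j 0) := by
  subst hn
  rw [← List.prod_ofFn]
  congr 1
  apply List.ext_get
  · simp
  · intro i h1 h2
    simp [List.getD_eq_getElem?_getD]

/-- **Finite certificate for a lower bound on `[0, 1/4]`.** -/
theorem low_cert (D p : ℕ) (zs xs : List ℤ) (qs : List (List ℤ × ℕ)) (hD : 0 < D)
    (hn : zs.length = dgQ qs) (hn0 : 0 < dgQ qs) (hint : inter xs zs = true)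
    (hx0 : 0 ≤ xs.getD 0 0) (hx1 : 4 * xs.getD (dgQ qs) 0 ≤ D)
    (hl : ∀ e ∈ qs, 0 < lst e.1 ∧ 0 < e.2) (hld : ldQ qs < p)
    (hirr : ∀ e ∈ qs, Irreducible (pl e.1))
    (hxs : ∀ x ∈ xs, absQ x D qs < p * absZ x zs)
    (hres : ∀ e ∈ qs, D ^ ((e.1.length - 1) * dgQ qs) ≤ (2 * p) ^ (e.1.length - 1) * absH D e.1 zs)
    {κ : ℝ} (hκ : 0 < κ) (hpκ : (2 * p : ℝ) * κ ^ dgQ qs ≤ 1)
    (R : ℤ[X]) (hR : R ≠ 0) (B : ℝ) (hB : ∀ y ∈ Set.Icc (0 : ℝ) (1 / 4), |aeval y R| ≤ B) :
    κ ^ R.natDegree ≤ B := by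
  classical
  set n : ℕ := dgQ qs with hndef
  have hD' : (0 : ℝ) < D := by exact_mod_cast hD
  have hDz : (0 : ℤ) < D := by exact_mod_cast hD
  have hl1 : ∀ e ∈ qs, 0 < lst e.1 := fun e he => (hl e he).1
  obtain ⟨q1, q2, q3, q4⟩ := Qz_spec hl1
  obtain ⟨hlen, hint'⟩ := inter_spec zs xs hint
  rw [hn] at hlen hint'
  set ζ : Fin n → ℝ := fun j => ((zs.getD j 0 : ℤ) : ℝ) / D with hζ
  set x : Fin (n + 1) → ℝ := fun i => ((xs.getD i 0 : ℤ) : ℝ) / D with hxdef
  have hxz : ∀ j : Fin n, x j.castSucc < ζ j ∧ ζ j < x j.succ := by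
    intro j
    obtain ⟨h1, h2⟩ := hint' j j.2
    constructor
    · simp only [hxdef, hζ, Fin.val_castSucc]
      exact (div_lt_div_iff_of_pos_right hD').2 (by exact_mod_cast h1)
    · simp only [hxdef, hζ, Fin.val_succ]
      exact (div_lt_div_iff_of_pos_right hD').2 (by exact_mod_cast h2)
  have hxmono : StrictMono x := Fin.strictMono_iff_lt_succ.2 fun j => (hxz j).1.trans (hxz j).2
  have hxE : ∀ i, x i ∈ Set.Icc (0 : ℝ) (1 / 4) := by
    intro i
    constructor
    · refine le_trans ?_ (hxmono.monotone (Fin.zero_le i))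
      simp only [hxdef, Fin.val_zero]
      have : (0 : ℝ) ≤ ((xs.getD 0 0 : ℤ) : ℝ) := by exact_mod_cast hx0
      positivity
    · refine (hxmono.monotone (Fin.le_last i)).trans ?_
      simp only [hxdef, Fin.val_last]
      rw [div_le_iff₀ hD']
      have : (4 : ℝ) * ((xs.getD n 0 : ℤ) : ℝ) ≤ D := by exact_mod_cast hx1
      linarith
  have hp0 : (0 : ℝ) < p := by
    have : (0 : ℤ) < p := lt_trans q4 hld
    exact_mod_cast this
  set P : ℝ[X] := C (p : ℝ) * ∏ j, (X - C (ζ j)) with hP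
  have hPmonic : (∏ j, (X - C (ζ j))).Monic := monic_prod_of_monic _ _ fun i _ => monic_X_sub_C _
  have hPdeg' : (∏ j, (X - C (ζ j))).natDegree = n := by
    rw [natDegree_prod_of_monic _ _ fun i _ => monic_X_sub_C _]; simp
  have hPdeg : P.natDegree ≤ n := by
    rw [hP]; exact (natDegree_C_mul_le _ _).trans hPdeg'.le
  have hPn : P.coeff n = p := by
    rw [hP, coeff_C_mul]
    have := hPmonic.coeff_natDegree
    rw [hPdeg'] at this
    rw [this, mul_one]
  have hPe : ∀ t : ℝ, P.eval t = p * ∏ j, (t - ζ j) := by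
    intro t; rw [hP, eval_mul, eval_C, eval_prod]; simp
  have hQn : (Qz qs).coeff n = ldQ qs := by
    rw [← q3, leadingCoeff, q2]
  -- values at the points `x`
  have hPabs : ∀ i : Fin (n + 1), (D : ℝ) ^ n * |P.eval (x i)| = p * absZ (xs.getD i 0) zs := by
    intro i
    rw [hPe, abs_mul, Finset.abs_prod, abs_of_pos hp0]
    have h1 : (absZ (xs.getD i 0) zs : ℝ) = ∏ j : Fin n, (D * |x i - ζ j|) := by
      unfold absZ
      rw [Nat.cast_list_prod, List.map_map]
      rw [show ((Nat.cast : ℕ → ℝ) ∘ fun z : ℤ => (xs.getD i 0 - z).natAbs) =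
        (fun z : ℤ => D * |x i - (z : ℝ) / D|) from ?_]
      · exact prod_list_eq zs hn _
      · funext z
        simp only [Function.comp, hxdef]
        rw [Nat.cast_natAbs, Int.cast_abs]
        push_cast
        rw [← sub_div, abs_div, abs_of_pos hD']
        field_simp
    rw [h1, Finset.prod_mul_distrib]
    simp only [Finset.prod_const, Finset.card_univ, Fintype.card_fin]
    ring
  have hPQ : ∀ i, |aeval (x i) (Qz qs)| < |P.eval (x i)| := by
    intro i
    have hmem : xs.getD i 0 ∈ xs := by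
      rw [List.getD_eq_getElem (hn := by rw [hlen]; exact i.2)]
      exact List.getElem_mem _
    have h1 := hxs _ hmem
    have h2 : (absQ (xs.getD i 0) D qs : ℝ) < p * absZ (xs.getD i 0) zs := by exact_mod_cast h1
    rw [← hPabs i, absQ_eq hDz hl1] at h2
    have h3 : (0 : ℝ) < (D : ℝ) ^ n := by positivity
    have h4 : (((D : ℤ) : ℝ)) = (D : ℝ) := by simp
    rw [h4] at h2
    exact lt_of_mul_lt_mul_left h2 h3.le
  have hs : ∀ i : Fin n, P.eval (x i.castSucc) * P.eval (x i.succ) < 0 := by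
    intro i
    rw [hPe, hPe]
    have h1 : ((p : ℝ) * ∏ j, (x i.castSucc - ζ j)) * (p * ∏ j, (x i.succ - ζ j)) =
        p ^ 2 * ∏ j, ((x i.castSucc - ζ j) * (x i.succ - ζ j)) := by
      rw [Finset.prod_mul_distrib]; ring
    rw [h1]
    apply mul_neg_of_pos_of_neg (by positivity)
    rw [← Finset.mul_prod_erase Finset.univ _ (Finset.mem_univ i)]
    apply mul_neg_of_neg_of_pos
    · exact mul_neg_of_neg_of_pos (sub_neg.2 (hxz i).1) (sub_pos.2 (hxz i).2)
    · apply Finset.prod_pos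
      intro j hj
      have hji : j ≠ i := (Finset.mem_erase.1 hj).1
      rcases lt_or_gt_of_ne hji with h | h
      · have e1 : x j.succ ≤ x i.castSucc := hxmono.monotone (by
          rw [Fin.le_def]; simp only [Fin.val_succ, Fin.val_castSucc]; exact h)
        have e2 : x i.castSucc < x i.succ := hxmono Fin.castSucc_lt_succ
        have e3 := (hxz j).2
        exact mul_pos (by linarith) (by linarith)
      · have e1 : x i.succ ≤ x j.castSucc := hxmono.monotone (by
          rw [Fin.le_def]; simp only [Fin.val_succ, Fin.val_castSucc]; exact h)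
        have e2 : x i.castSucc < x i.succ := hxmono Fin.castSucc_lt_succ
        have e3 := (hxz j).1
        exact mul_pos_of_neg_of_neg (by linarith) (by linarith)
  have hmain := low_int (a := 0) (b := 1 / 4) P (Qz qs) {g | ∃ e ∈ qs, g = pl e.1} hPdeg
    (le_of_eq q2)
    (by
      intro S hSp hSd
      unfold Qz at hSd
      obtain ⟨g, hg, hg'⟩ := (hSp.dvd_prod_iff).1 hSd
      obtain ⟨e, he, rfl⟩ := List.mem_map.1 hg
      exact ⟨pl e.1, ⟨e, he, rfl⟩, hSp.dvd_of_dvd_pow hg'⟩)
    (by rintro g ⟨e, he, rfl⟩; exact hirr e he)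
    (by rw [hQn]; exact q4.le)
    (by rw [hQn, hPn]; exact_mod_cast hld)
    x hxmono hxE hs hPQ
    (by
      rintro g ⟨e, he, rfl⟩
      constructor
      · intro z hz
        have h1 : pl e.1 ∣ Qz qs := by
          refine (dvd_pow_self (pl e.1) (hl e he).2.ne').trans ?_
          unfold Qz
          exact List.dvd_prod (List.mem_map.2 ⟨e, he, rfl⟩)
        have h2 := (Polynomial.mem_roots'.1 hz).2
        obtain ⟨T, hT⟩ := h1
        rw [hT, Polynomial.map_mul, eval_mul]
        rw [IsRoot.def] at h2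
        rw [h2, zero_mul]
      · have h1 := hres e he
        rw [hP, lam_eq (p : ℝ) hp0.le ζ (pl e.1) (pl_ne_zero (hl1 e he)), natDegree_pl (hl1 e he)]
        have h2 : (absH D e.1 zs : ℝ) = ∏ j : Fin n, ((D : ℝ) ^ (e.1.length - 1) *
            |aeval (ζ j) (pl e.1)|) := by
          unfold absH
          rw [Nat.cast_list_prod, List.map_map]
          rw [show ((Nat.cast : ℕ → ℝ) ∘ fun z : ℤ => (hv z D e.1).natAbs) =
            (fun z : ℤ => (D : ℝ) ^ (e.1.length - 1) * |aeval ((z : ℝ) / D) (pl e.1)|) from ?_]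
          · exact prod_list_eq zs hn _
          · funext z
            simp only [Function.comp]
            rw [hv_abs hDz (ne_nil (hl1 e he))]
            simp
        have h3 : ((D : ℝ)) ^ ((e.1.length - 1) * n) ≤ (2 * p) ^ (e.1.length - 1) *
            (absH D e.1 zs : ℝ) := by exact_mod_cast h1
        rw [h2, Finset.prod_mul_distrib] at h3
        simp only [Finset.prod_const, Finset.card_univ, Fintype.card_fin] at h3
        rw [← pow_mul] at h3
        have h4 : (0 : ℝ) < (D : ℝ) ^ ((e.1.length - 1) * n) := by positivity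
        have h5 : (D : ℝ) ^ ((e.1.length - 1) * n) * 1 ≤ (D : ℝ) ^ ((e.1.length - 1) * n) *
            ((2 * p) ^ (e.1.length - 1) * ∏ j, |aeval (ζ j) (pl e.1)|) := by
          rw [mul_one]; refine h3.trans (le_of_eq ?_); ring
        exact le_of_mul_le_mul_left h5 h4)
    R hR hB
  have hB0 : 0 ≤ B := (abs_nonneg _).trans (hB 0 ⟨le_rfl, by norm_num⟩)
  rw [hPn] at hmain
  have hρ : (p : ℝ) + √((p : ℝ) ^ 2 - ((Qz qs).coeff n : ℝ) ^ 2) ≤ 2 * p := by
    have : √((p : ℝ) ^ 2 - ((Qz qs).coeff n : ℝ) ^ 2) ≤ p := by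
      rw [Real.sqrt_le_left hp0.le]
      nlinarith [sq_nonneg ((Qz qs).coeff n : ℝ)]
    linarith
  have h1 : 1 ≤ B ^ n * (2 * (p : ℝ)) ^ R.natDegree := by
    refine hmain.trans ?_
    gcongr
  have h2 : (κ ^ R.natDegree) ^ n ≤ B ^ n := by
    calc (κ ^ R.natDegree) ^ n = (κ ^ n) ^ R.natDegree * 1 := by
          rw [mul_one, ← pow_mul, ← pow_mul, mul_comm]
      _ ≤ (κ ^ n) ^ R.natDegree * (B ^ n * (2 * (p : ℝ)) ^ R.natDegree) := by gcongr
      _ = B ^ n * (2 * (p : ℝ) * κ ^ n) ^ R.natDegree := by rw [mul_pow]; ring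
      _ ≤ B ^ n * 1 := by
          gcongr
          exact pow_le_one₀ (by positivity) hpκ
      _ = B ^ n := mul_one _
  exact (pow_le_pow_iff_left₀ (by positivity) hB0 hn0.ne').1 h2

end Cert

end IntCheb
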