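import Pool.Agent.Lib.MP_6205a3_nt.B66.Alt
import Pool.Agent.Lib.MP_6205a3_nt.Res

/-!
# MP_6205a3_nt : irreducibility from one prime value
-/

open Finset Polynomial

set_option autoImplicit false

namespace IntCheb

/-- If all complex roots of `A` are real and in `(0, 1/2)` and `|A(0)| = 1`, then `|A(r)| > 1` for
every integer `r ≠ 0`, unless `A` is constant. -/
lemma one_lt_eval {A : ℤ[X]} (hA0 : A ≠ 0) (hA : A.natDegree ≠ 0) (h0 : |A.eval 0| = 1)
    (hroot : ∀ z : ℂ, (A.map (Int.castRingHom ℂ)).eval z = 0 → ∃ y : ℝ, 0 < y ∧ y < 1 / 2 ∧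
      z = (y : ℂ)) {r : ℤ} (hr : r ≠ 0) : 1 < (A.eval r).natAbs := by
  obtain ⟨α, hα⟩ := exists_roots A
  have hαr : ∀ t, ∃ y : ℝ, 0 < y ∧ y < 1 / 2 ∧ α t = (y : ℂ) := by
    intro t
    apply hroot
    rw [hα, eval_mul, eval_prod, Finset.prod_eq_zero (Finset.mem_univ t) (by simp), mul_zero]
  have hev : ∀ s : ℤ, |((A.eval s : ℤ) : ℝ)| = |(A.leadingCoeff : ℝ)| * ∏ t, ‖(s : ℂ) - α t‖ := by
    intro s
    have h1 : ((A.eval s : ℤ) : ℂ) = (A.map (Int.castRingHom ℂ)).eval (s : ℂ) := by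
      rw [eval_intCast_map]; simp
    have h2 : |((A.eval s : ℤ) : ℝ)| = ‖((A.eval s : ℤ) : ℂ)‖ := by rw [Complex.norm_intCast]
    rw [h2, h1, hα, eval_mul, eval_C, eval_prod, norm_mul, Complex.norm_intCast, norm_prod]
    simp
  have e0 := hev 0
  have er := hev r
  have h1 : |((A.eval 0 : ℤ) : ℝ)| = 1 := by exact_mod_cast h0
  rw [h1] at e0
  have hl : 0 < |(A.leadingCoeff : ℝ)| := by
    rw [abs_pos]; exact_mod_cast leadingCoeff_ne_zero.2 hA0
  have hlt : ∏ t, ‖((0 : ℤ) : ℂ) - α t‖ < ∏ t, ‖(r : ℂ) - α t‖ := by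
    have : Nonempty (Fin A.natDegree) := ⟨⟨0, Nat.pos_of_ne_zero hA⟩⟩
    refine Finset.prod_lt_prod_of_nonempty ?_ ?_ Finset.univ_nonempty
    · intro t _
      obtain ⟨y, hy0, _, hy⟩ := hαr t
      rw [hy]
      simp [hy0.ne']
    · intro t _
      obtain ⟨y, hy0, hy1, hy⟩ := hαr t
      rw [hy]
      have e1 : ‖((0 : ℤ) : ℂ) - (y : ℂ)‖ = y := by
        simp [abs_of_pos hy0]
      have e2 : ‖(r : ℂ) - (y : ℂ)‖ = |(r : ℝ) - y| := by
        have : (r : ℂ) - (y : ℂ) = (((r : ℝ) - y : ℝ) : ℂ) := by push_cast; ring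
        rw [this, Complex.norm_real, Real.norm_eq_abs]
      rw [e1, e2]
      rcases lt_or_gt_of_ne hr with h | h
      · have h3 : (r : ℝ) ≤ -1 := by exact_mod_cast (by omega : r ≤ -1)
        rw [abs_of_neg (by linarith)]; linarith
      · have h3 : (1 : ℝ) ≤ r := by exact_mod_cast (by omega : 1 ≤ r)
        rw [abs_of_pos (by linarith)]; linarith
  have hfin : (1 : ℝ) < |((A.eval r : ℤ) : ℝ)| := by
    rw [er, e0]
    exact mul_lt_mul_of_pos_left hlt hl
  have h2 : (1 : ℤ) < |A.eval r| := by exact_mod_cast hfin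
  rw [← Int.natCast_natAbs] at h2
  exact_mod_cast h2

/-- **Irreducibility criterion.** -/
theorem irreducible_of_prime_value (g : ℤ[X]) {d : ℕ} (hd : g.natDegree ≤ d)
    (x : Fin (d + 1) → ℝ) (hx : StrictMono x) (hx0 : ∀ i, 0 ≤ x i) (hx1 : ∀ i, x i ≤ 1 / 2)
    (hs : ∀ i : Fin d, aeval (x i.castSucc) g * aeval (x i.succ) g < 0)
    (h0 : |g.eval 0| = 1) {r : ℤ} (hr : r ≠ 0) (hp : Nat.Prime (g.eval r).natAbs) :
    Irreducible g := by
  have hg0 : g ≠ 0 := by rintro rfl; simp at h0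
  have hae : ∀ y : ℝ, aeval y g = (g.map (Int.castRingHom ℝ)).eval y := by
    intro y; rw [eval_map, ← algebraMap_int_eq, aeval_def]
  obtain ⟨y, hy, hgy⟩ := exists_roots_of_alternating (g.map (Int.castRingHom ℝ))
    (natDegree_map_le.trans hd) x hx (fun i => by rw [← hae, ← hae]; exact hs i)
  have hgR0 : g.map (Int.castRingHom ℝ) ≠ 0 := by
    intro h
    exact hg0 (Polynomial.map_injective _ (RingHom.injective_int (Int.castRingHom ℝ))
      (by simpa using h))
  have hcomp : (algebraMap ℝ ℂ).comp (Int.castRingHom ℝ) = Int.castRingHom ℂ := RingHom.ext_int _ _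
  have hroot : ∀ z : ℂ, (g.map (Int.castRingHom ℂ)).eval z = 0 → ∃ y : ℝ, 0 < y ∧ y < 1 / 2 ∧
      z = (y : ℂ) := by
    intro z hz
    rw [← hcomp, ← Polynomial.map_map, hgy, Polynomial.map_mul, Polynomial.map_C,
      Polynomial.map_prod, eval_mul, eval_C, eval_prod] at hz
    rcases mul_eq_zero.1 hz with h | h
    · exfalso
      apply hgR0
      have h1 : (g.map (Int.castRingHom ℝ)).coeff d = 0 := by
        have : (algebraMap ℝ ℂ) ((g.map (Int.castRingHom ℝ)).coeff d) = 0 := h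
        exact (map_eq_zero _).1 this
      rw [hgy, h1, C_0, zero_mul]
    · obtain ⟨i, _, hi⟩ := Finset.prod_eq_zero_iff.1 h
      refine ⟨y i, lt_of_le_of_lt (hx0 _) (hy i).1, lt_of_lt_of_le (hy i).2 (hx1 _), ?_⟩
      rw [Polynomial.map_sub, Polynomial.map_X, Polynomial.map_C, eval_sub, eval_X, eval_C,
        sub_eq_zero] at hi
      exact hi
  have key : ∀ A B : ℤ[X], g = A * B → (A.eval r).natAbs = 1 → IsUnit A := by
    intro A B hAB h1
    have hA0 : A ≠ 0 := by rintro rfl; exact hg0 (by rw [hAB, zero_mul])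
    have hA00 : |A.eval 0| = 1 := by
      have h2 : |A.eval 0| * |B.eval 0| = 1 := by
        rw [← abs_mul, ← eval_mul, ← hAB]; exact h0
      exact Int.eq_one_or_neg_one_of_mul_eq_one h2 |>.resolve_right (by
        intro h3; have := abs_nonneg (A.eval 0); omega)
    by_cases hdA : A.natDegree = 0
    · obtain ⟨c, rfl⟩ := natDegree_eq_zero.1 hdA
      rw [eval_C] at hA00
      apply IsUnit.map
      exact Int.isUnit_iff.2 (by rcases abs_eq (zero_le_one) |>.1 hA00 with h | h <;> simp [h])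
    · exfalso
      have h2 := one_lt_eval hA0 hdA hA00 (fun z hz => hroot z (by
        rw [hAB, Polynomial.map_mul, eval_mul, hz, zero_mul])) hr
      omega
  constructor
  · intro hu
    obtain ⟨c, hc, rfl⟩ := Polynomial.isUnit_iff.1 hu
    rw [eval_C] at hp
    rcases Int.isUnit_iff.1 hc with rfl | rfl
    · exact Nat.not_prime_one hp
    · exact Nat.not_prime_one hp
  · intro A B hAB
    have h2 : (A.eval r).natAbs * (B.eval r).natAbs = (g.eval r).natAbs := by
      rw [← Int.natAbs_mul, ← eval_mul, ← hAB]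
    rcases hp.eq_one_or_self_of_dvd (A.eval r).natAbs ⟨_, h2.symm⟩ with h | h
    · exact Or.inl (key A B hAB h)
    · right
      refine key B A (by rw [hAB, mul_comm]) ?_
      have h3 : 0 < (g.eval r).natAbs := hp.pos
      rw [h] at h2
      exact Nat.eq_of_mul_eq_mul_left h3 (by rw [h2, mul_one])

end IntCheb
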