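import Pool.Agent.Lib.MP_6205a3_nt.B66.Cert
import Pool.Agent.Lib.MP_6205a3_nt.B66.Irr

/-!
# MP_6205a3_nt : irreducibility certificates
-/

open Finset Polynomial

set_option autoImplicit false

namespace IntCheb

namespace Cert

/-- Increasing sample points with sign changes. -/
def altc (D : ℤ) (l : List ℤ) : List ℤ → Bool
  | x :: x' :: xs => decide (x < x') && decide (hv x D l * hv x' D l < 0) && altc D l (x' :: xs)
  | _ => true

lemma altc_spec (D : ℤ) (l : List ℤ) : ∀ xs : List ℤ, altc D l xs = true →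
    ∀ i, i + 1 < xs.length → xs.getD i 0 < xs.getD (i + 1) 0 ∧
      hv (xs.getD i 0) D l * hv (xs.getD (i + 1) 0) D l < 0
  | [], _, i, hi => by simp at hi
  | [x], _, i, hi => by simp at hi
  | x :: x' :: xs, h, i, hi => by
    rw [altc, Bool.and_eq_true, Bool.and_eq_true, decide_eq_true_iff, decide_eq_true_iff] at h
    obtain ⟨⟨h1, h2⟩, h3⟩ := h
    cases i with
    | zero => exact ⟨by simpa using h1, by simpa using h2⟩
    | succ i =>
      have := altc_spec D l (x' :: xs) h3 i (by simpa using hi)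
      simpa using this

lemma irr_X : Irreducible (pl [0, 1]) := by
  have : pl [0, 1] = X := by simp [pl]
  rw [this]; exact irreducible_X

theorem irr_cert (l : List ℤ) (D : ℕ) (ys : List ℤ) (r : ℤ) (hD : 0 < D) (hl : l ≠ [])
    (hlen : ys.length = l.length) (halt : altc D l ys = true)
    (h0 : 0 ≤ ys.getD 0 0) (h1 : 2 * ys.getD (l.length - 1) 0 ≤ D)
    (hc : (ev 0 l).natAbs = 1) (hr : r ≠ 0) (hp : Nat.Prime (ev r l).natAbs) :
    Irreducible (pl l) := by
  have hD' : (0 : ℝ) < D := by exact_mod_cast hD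
  have hDz : (D : ℤ) ≠ 0 := by exact_mod_cast hD.ne'
  obtain ⟨d, hd⟩ : ∃ d, l.length = d + 1 :=
    ⟨l.length - 1, (Nat.succ_pred_eq_of_pos (List.length_pos_iff.2 hl)).symm⟩
  have hspec := altc_spec D l ys halt
  rw [hlen, hd] at hspec
  rw [hd, Nat.add_sub_cancel] at h1
  set x : Fin (d + 1) → ℝ := fun i => ((ys.getD i 0 : ℤ) : ℝ) / D with hx
  have hstep : ∀ i : Fin d, x i.castSucc < x i.succ ∧
      aeval (x i.castSucc) (pl l) * aeval (x i.succ) (pl l) < 0 := by
    intro i
    obtain ⟨h2, h3⟩ := hspec i (by have := i.2; omega)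
    constructor
    · simp only [hx, Fin.val_castSucc, Fin.val_succ]
      exact (div_lt_div_iff_of_pos_right hD').2 (by exact_mod_cast h2)
    · have e1 := hv_eq (x := ys.getD i 0) hDz l
      have e2 := hv_eq (x := ys.getD (i + 1) 0) hDz l
      simp only [hx, Fin.val_castSucc, Fin.val_succ]
      have e3 : ((D : ℤ) : ℝ) = (D : ℝ) := by simp
      rw [e3] at e1 e2
      have h4 : ((hv (ys.getD i 0) D l : ℤ) : ℝ) * ((hv (ys.getD (i + 1) 0) D l : ℤ) : ℝ) < 0 := by
        exact_mod_cast h3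
      have h5 : (D : ℝ) ^ l.length * (D : ℝ) ^ l.length *
          (aeval (((ys.getD i 0 : ℤ) : ℝ) / D) (pl l) *
            aeval (((ys.getD (i + 1) 0 : ℤ) : ℝ) / D) (pl l)) < 0 := by
        have : (D : ℝ) ^ l.length * (D : ℝ) ^ l.length *
          (aeval (((ys.getD i 0 : ℤ) : ℝ) / D) (pl l) *
            aeval (((ys.getD (i + 1) 0 : ℤ) : ℝ) / D) (pl l)) =
            (D * ((hv (ys.getD i 0) D l : ℤ) : ℝ)) *
            (D * ((hv (ys.getD (i + 1) 0) D l : ℤ) : ℝ)) := by
          rw [e1, e2]; ring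
        rw [this]
        have : (D * ((hv (ys.getD i 0) D l : ℤ) : ℝ)) *
            (D * ((hv (ys.getD (i + 1) 0) D l : ℤ) : ℝ)) =
            (D * D) * (((hv (ys.getD i 0) D l : ℤ) : ℝ) *
              ((hv (ys.getD (i + 1) 0) D l : ℤ) : ℝ)) := by ring
        rw [this]
        exact mul_neg_of_pos_of_neg (by positivity) h4
      by_contra hcon
      push Not at hcon
      have : 0 ≤ (D : ℝ) ^ l.length * (D : ℝ) ^ l.length *
          (aeval (((ys.getD i 0 : ℤ) : ℝ) / D) (pl l) *
            aeval (((ys.getD (i + 1) 0 : ℤ) : ℝ) / D) (pl l)) := by positivity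
      linarith
  have hmono : StrictMono x := Fin.strictMono_iff_lt_succ.2 fun i => (hstep i).1
  refine irreducible_of_prime_value (pl l) (d := d) ?_ x hmono ?_ ?_ (fun i => (hstep i).2) ?_ hr ?_
  · have := natDegree_pl_le l
    rwa [hd, Nat.add_sub_cancel] at this
  · intro i
    refine le_trans ?_ (hmono.monotone (Fin.zero_le i))
    simp only [hx, Fin.val_zero]
    have : (0 : ℝ) ≤ ((ys.getD 0 0 : ℤ) : ℝ) := by exact_mod_cast h0
    positivity
  · intro i
    refine (hmono.monotone (Fin.le_last i)).trans ?_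
    simp only [hx, Fin.val_last]
    rw [div_le_iff₀ hD']
    have : (2 : ℝ) * ((ys.getD d 0 : ℤ) : ℝ) ≤ D := by exact_mod_cast h1
    linarith
  · rw [eval_pl, ← Int.natCast_natAbs, hc]; rfl
  · rw [eval_pl]; exact hp

end Cert

end IntCheb
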