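import Pool.Agent.Lib.MP_6205a3_nt.B66.Alt

/-!
# MP_6205a3_nt : lower bounds for the norm of polynomials from a pair `(P, Q)`

If `P` and `Q` are real polynomials such that `P - c Q` has all its roots in `[a, b]` for every
`c ∈ [-1, 1]`, then every polynomial `R = r ∏ (X - α t)` of degree `d` satisfies
`‖r‖ ^ n * ∏ ‖a t‖ ≤ ‖R‖ ^ n * ρ ^ d`, where `a t` is `Q (α t)`, or `2 P (α t)` if `Q (α t) = 0`,
and `ρ = p + √(p² - q²)`.
-/

open Finset Polynomial Complex

set_option autoImplicit false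

namespace IntCheb

lemma unit_add_inv {u : ℂ} (hu : ‖u‖ = 1) : u * (2 * (u.re : ℂ)) = u ^ 2 + 1 := by
  have h1 : u * (starRingEnd ℂ) u = 1 := by
    rw [Complex.mul_conj, Complex.normSq_eq_norm_sq, hu]; simp
  have h2 : u + (starRingEnd ℂ) u = 2 * (u.re : ℂ) := by
    rw [Complex.add_conj]; push_cast; ring
  rw [← h2]
  linear_combination h1

/-- Step 1: the bound at a fixed `c`. -/
theorem low_fixed {a b : ℝ} {n : ℕ} (G : ℝ[X]) (hG : G.natDegree ≤ n) (x : Fin (n + 1) → ℝ)
    (hx : StrictMono x) (hxE : ∀ i, x i ∈ Set.Icc a b)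
    (hs : ∀ i : Fin n, G.eval (x i.castSucc) * G.eval (x i.succ) < 0)
    (hg : 0 < G.coeff n) {d : ℕ} (α : Fin d → ℂ) (r : ℂ) {B : ℝ}
    (hB : ∀ y ∈ Set.Icc a b, ‖r * ∏ t, ((y : ℂ) - α t)‖ ≤ B) :
    ‖r‖ ^ n * ∏ t, ‖(G.map (algebraMap ℝ ℂ)).eval (α t)‖ ≤ B ^ n * G.coeff n ^ d := by
  obtain ⟨y, hy, hGy⟩ := exists_roots_of_alternating G hG x hx hs
  have hyE : ∀ i, y i ∈ Set.Icc a b := fun i =>
    ⟨(hxE _).1.trans (hy i).1.le, (hy i).2.le.trans (hxE _).2⟩
  have h1 : ∀ t, ‖(G.map (algebraMap ℝ ℂ)).eval (α t)‖ = G.coeff n * ∏ j, ‖α t - (y j : ℂ)‖ := by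
    intro t
    conv_lhs => rw [hGy]
    rw [Polynomial.map_mul, Polynomial.map_C, Polynomial.map_prod, eval_mul, eval_C, eval_prod,
      norm_mul, norm_prod]
    congr 1
    · simp [abs_of_pos hg]
    · refine Finset.prod_congr rfl fun j _ => ?_
      simp
  have h2 : ∏ j, ‖r * ∏ t, ((y j : ℂ) - α t)‖ ≤ B ^ n := by
    calc ∏ j, ‖r * ∏ t, ((y j : ℂ) - α t)‖ ≤ ∏ _j : Fin n, B :=
          Finset.prod_le_prod (fun _ _ => norm_nonneg _) fun j _ => hB _ (hyE j)
      _ = B ^ n := by simp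
  have h3 : ∏ j, ‖r * ∏ t, ((y j : ℂ) - α t)‖ = ‖r‖ ^ n * ∏ t, ∏ j, ‖α t - (y j : ℂ)‖ := by
    simp only [norm_mul, norm_prod, Finset.prod_mul_distrib, Finset.prod_const, Finset.card_univ,
      Fintype.card_fin]
    rw [Finset.prod_comm]
    congr 1
    refine Finset.prod_congr rfl fun t _ => Finset.prod_congr rfl fun j _ => norm_sub_rev _ _
  rw [Finset.prod_congr rfl fun t _ => h1 t, Finset.prod_mul_distrib, Finset.prod_const,
    Finset.card_univ, Fintype.card_fin]
  rw [h3] at h2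
  calc ‖r‖ ^ n * (G.coeff n ^ d * ∏ t, ∏ j, ‖α t - (y j : ℂ)‖)
      = (‖r‖ ^ n * ∏ t, ∏ j, ‖α t - (y j : ℂ)‖) * G.coeff n ^ d := by ring
    _ ≤ B ^ n * G.coeff n ^ d := mul_le_mul_of_nonneg_right h2 (by positivity)

/-- **Lower bound from a pair of polynomials.** -/
theorem low_key {a b : ℝ} {n : ℕ} (P Q : ℝ[X]) (hP : P.natDegree ≤ n) (hQ : Q.natDegree ≤ n)
    (hq0 : 0 ≤ Q.coeff n) (hqp : Q.coeff n < P.coeff n) (x : Fin (n + 1) → ℝ)
    (hx : StrictMono x) (hxE : ∀ i, x i ∈ Set.Icc a b)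
    (hs : ∀ i : Fin n, P.eval (x i.castSucc) * P.eval (x i.succ) < 0)
    (hPQ : ∀ i, |Q.eval (x i)| < |P.eval (x i)|)
    {d : ℕ} (α : Fin d → ℂ) (r : ℂ) {B : ℝ}
    (hB : ∀ y ∈ Set.Icc a b, ‖r * ∏ t, ((y : ℂ) - α t)‖ ≤ B) :
    ‖r‖ ^ n * ∏ t, ‖if (Q.map (algebraMap ℝ ℂ)).eval (α t) = 0 then
      2 * (P.map (algebraMap ℝ ℂ)).eval (α t) else (Q.map (algebraMap ℝ ℂ)).eval (α t)‖
      ≤ B ^ n * (P.coeff n + √(P.coeff n ^ 2 - Q.coeff n ^ 2)) ^ d := by
  classical
  set p : ℝ := P.coeff n with hp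
  set q : ℝ := Q.coeff n with hq
  set ρ : ℝ := p + √(p ^ 2 - q ^ 2) with hρ
  have hp0 : 0 < p := lt_of_le_of_lt hq0 hqp
  have hsq : 0 ≤ p ^ 2 - q ^ 2 := by nlinarith
  have hρp : p ≤ ρ := by rw [hρ]; linarith [Real.sqrt_nonneg (p ^ 2 - q ^ 2)]
  have hρ0 : 0 < ρ := lt_of_lt_of_le hp0 hρp
  have hρq : ρ ^ 2 + q ^ 2 = 2 * p * ρ := by
    have h1 := Real.sq_sqrt hsq
    rw [hρ]; nlinarith
  set s : ℝ := q / ρ with hs'
  have hs0 : 0 ≤ s := by positivity
  have hs1 : s < 1 := by rw [hs', div_lt_one hρ0]; linarith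
  set PC := P.map (algebraMap ℝ ℂ) with hPC
  set QC := Q.map (algebraMap ℝ ℂ) with hQC
  -- the bound for real `c`
  have hfix : ∀ c : ℝ, |c| ≤ 1 → ‖r‖ ^ n * ∏ t, ‖PC.eval (α t) - c * QC.eval (α t)‖ ≤
      B ^ n * (p - c * q) ^ d := by
    intro c hc
    set G : ℝ[X] := P - C c * Q with hG
    have hGe : ∀ y : ℝ, G.eval y = P.eval y - c * Q.eval y := by
      intro y; rw [hG]; simp
    have hsmall : ∀ i, |c * Q.eval (x i)| < |P.eval (x i)| := by
      intro i
      rw [abs_mul]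
      calc |c| * |Q.eval (x i)| ≤ 1 * |Q.eval (x i)| := by gcongr
        _ < |P.eval (x i)| := by rw [one_mul]; exact hPQ i
    have hsign : ∀ i, 0 < P.eval (x i) * G.eval (x i) := by
      intro i
      have h1 := hsmall i
      rw [hGe]
      have h2 : P.eval (x i) * (c * Q.eval (x i)) < P.eval (x i) * P.eval (x i) := by
        calc P.eval (x i) * (c * Q.eval (x i)) ≤ |P.eval (x i) * (c * Q.eval (x i))| := le_abs_self _
          _ = |P.eval (x i)| * |c * Q.eval (x i)| := abs_mul _ _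
          _ < |P.eval (x i)| * |P.eval (x i)| := by
              have : 0 < |P.eval (x i)| := lt_of_le_of_lt (abs_nonneg _) h1
              gcongr
          _ = P.eval (x i) * P.eval (x i) := abs_mul_abs_self _
      nlinarith
    have hGdeg : G.natDegree ≤ n := by
      rw [hG]
      refine (natDegree_sub_le _ _).trans (max_le hP ?_)
      exact (natDegree_C_mul_le _ _).trans hQ
    have hGn : G.coeff n = p - c * q := by rw [hG]; simp [hp, hq]
    have hgpos : 0 < G.coeff n := by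
      rw [hGn]
      have : c * q ≤ q := by
        calc c * q ≤ 1 * q := by gcongr; exact (le_abs_self c).trans hc
          _ = q := one_mul q
      linarith
    have h := low_fixed (a := a) (b := b) G hGdeg x hx hxE (fun i => by
      have h1 := hsign i.castSucc
      have h2 := hsign i.succ
      have h3 := hs i
      by_contra hcon
      push Not at hcon
      have h4 : 0 < (P.eval (x i.castSucc) * G.eval (x i.castSucc)) *
        (P.eval (x i.succ) * G.eval (x i.succ)) := mul_pos h1 h2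
      nlinarith) hgpos α r hB
    rw [hGn] at h
    refine le_trans (le_of_eq ?_) h
    congr 1
    refine Finset.prod_congr rfl fun t _ => ?_
    rw [hG, Polynomial.map_sub, Polynomial.map_mul, Polynomial.map_C, eval_sub, eval_mul, eval_C]
    simp [hPC, hQC]
  -- the analytic function
  set k : Fin d → ℂ → ℂ := fun t u => if QC.eval (α t) = 0 then PC.eval (α t) else
    PC.eval (α t) * u - QC.eval (α t) / 2 * (u ^ 2 + 1) with hk
  set f : ℂ → ℂ := fun u => r ^ n * ∏ t, (k t u / (1 - s * u) ^ 2) with hf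
  have hden : ∀ u : ℂ, ‖u‖ ≤ 1 → (1 - (s : ℂ) * u) ≠ 0 := by
    intro u hu h0
    have h1 : (s : ℂ) * u = 1 := by linear_combination -h0
    have h2 : ‖(s : ℂ) * u‖ = 1 := by rw [h1]; simp
    rw [norm_mul, Complex.norm_real, Real.norm_eq_abs, abs_of_nonneg hs0] at h2
    nlinarith [norm_nonneg u]
  have hkd : ∀ t, Differentiable ℂ (k t) := by
    intro t
    simp only [hk]
    split_ifs <;> fun_prop
  have hfd : DifferentiableOn ℂ f (closure (Metric.ball (0 : ℂ) 1)) := by
    rw [closure_ball (0 : ℂ) one_ne_zero]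
    intro u hu
    have hu1 : ‖u‖ ≤ 1 := by simpa using hu
    refine DifferentiableAt.differentiableWithinAt ?_
    refine (differentiableAt_const _).mul ?_
    refine DifferentiableAt.fun_finsetProd fun t _ => ?_
    refine ((hkd t) u).div ?_ (pow_ne_zero 2 (hden u hu1))
    fun_prop
  have hcirc : ∀ u : ℂ, ‖u‖ = 1 → ‖f u‖ ≤ B ^ n * (ρ / 2) ^ d := by
    intro u hu
    have hre : |u.re| ≤ 1 := by rw [← hu]; exact Complex.abs_re_le_norm u
    have hk1 : ∀ t, ‖k t u‖ = ‖PC.eval (α t) - u.re * QC.eval (α t)‖ := by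
      intro t
      simp only [hk]
      split_ifs with h0
      · rw [h0]; simp
      · have : PC.eval (α t) * u - QC.eval (α t) / 2 * (u ^ 2 + 1) =
            u * (PC.eval (α t) - u.re * QC.eval (α t)) := by
          rw [← unit_add_inv hu]; ring
        rw [this, norm_mul, hu, one_mul]
    have hd1 : ‖(1 - (s : ℂ) * u) ^ 2‖ = 2 / ρ * (p - u.re * q) := by
      have h1 : Complex.normSq (1 - (s : ℂ) * u) = 1 + s ^ 2 - 2 * s * u.re := by
        have h2 : u.re ^ 2 + u.im ^ 2 = 1 := by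
          have := Complex.normSq_apply u
          rw [Complex.normSq_eq_norm_sq, hu] at this
          nlinarith
        rw [Complex.normSq_apply]
        simp only [Complex.sub_re, Complex.one_re, Complex.mul_re, Complex.ofReal_re,
          Complex.ofReal_im, Complex.sub_im, Complex.one_im, Complex.mul_im, zero_mul, sub_zero,
          add_zero, zero_sub]
        linear_combination (s ^ 2) * h2
      rw [norm_pow, ← Complex.normSq_eq_norm_sq, h1, hs']
      field_simp
      linear_combination hρq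
    have hpos : 0 < p - u.re * q := by
      have : u.re * q ≤ q := by
        calc u.re * q ≤ 1 * q := by gcongr; exact (le_abs_self _).trans hre
          _ = q := one_mul q
      linarith
    simp only [hf, norm_mul, norm_pow, norm_prod, norm_div]
    have h5 : ∀ t, ‖k t u‖ / ‖(1 - (s : ℂ) * u)‖ ^ 2 =
        ‖PC.eval (α t) - u.re * QC.eval (α t)‖ * (ρ / 2 / (p - u.re * q)) := by
      intro t
      rw [hk1 t, ← norm_pow, hd1]
      field_simp
    rw [Finset.prod_congr rfl fun t _ => h5 t, Finset.prod_mul_distrib, Finset.prod_const,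
      Finset.card_univ, Fintype.card_fin, ← mul_assoc]
    calc (‖r‖ ^ n * ∏ t, ‖PC.eval (α t) - u.re * QC.eval (α t)‖) *
          (ρ / 2 / (p - u.re * q)) ^ d
        ≤ (B ^ n * (p - u.re * q) ^ d) * (ρ / 2 / (p - u.re * q)) ^ d :=
          mul_le_mul_of_nonneg_right (hfix _ hre) (by positivity)
      _ = B ^ n * (ρ / 2) ^ d := by
          rw [div_pow (ρ / 2)]
          field_simp
  have h0 : ‖f 0‖ ≤ B ^ n * (ρ / 2) ^ d := by
    refine Complex.norm_le_of_forall_mem_frontier_norm_le (U := Metric.ball (0 : ℂ) 1)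
      Metric.isBounded_ball hfd.diffContOnCl ?_ ?_
    · intro u hu
      rw [frontier_ball (0 : ℂ) one_ne_zero] at hu
      exact hcirc u (by simpa using hu)
    · rw [closure_ball (0 : ℂ) one_ne_zero]; simp
  have h1 : ∀ t, ‖k t 0‖ = ‖if QC.eval (α t) = 0 then 2 * PC.eval (α t) else QC.eval (α t)‖ / 2 := by
    intro t
    simp only [hk]
    split_ifs with h
    · rw [norm_mul]; simp
    · simp
  have h2 : ‖f 0‖ = ‖r‖ ^ n * (∏ t, ‖if QC.eval (α t) = 0 then 2 * PC.eval (α t) else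
      QC.eval (α t)‖) / 2 ^ d := by
    simp only [hf, mul_zero, sub_zero, one_pow, div_one, norm_mul, norm_pow, norm_prod]
    rw [Finset.prod_congr rfl fun t _ => h1 t, Finset.prod_div_distrib, Finset.prod_const,
      Finset.card_univ, Fintype.card_fin]
    ring
  rw [h2, div_pow, ← mul_div_assoc] at h0
  exact (div_le_div_iff_of_pos_right (by positivity)).1 h0

end IntCheb
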