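import Pool.Agent.Lib.MP_6205a3_nt.B66.Low
import Pool.Agent.Lib.MP_6205a3_nt.Res

/-!
# MP_6205a3_nt : lower bounds for integer polynomials from a pair `(P, Q)`
-/

open Finset Polynomial

set_option autoImplicit false

namespace IntCheb

/-- The weight `|lead R| ^ n * ∏ ‖w z‖` over the complex roots of an integer polynomial. -/
noncomputable def lam (n : ℕ) (w : ℂ → ℂ) (R : ℤ[X]) : ℝ :=
  |(R.leadingCoeff : ℝ)| ^ n * ((R.map (Int.castRingHom ℂ)).roots.map fun z => ‖w z‖).prod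

lemma lam_nonneg (n : ℕ) (w : ℂ → ℂ) (R : ℤ[X]) : 0 ≤ lam n w R := by
  unfold lam
  refine mul_nonneg (by positivity) (Multiset.prod_nonneg ?_)
  intro x hx
  obtain ⟨z, _, rfl⟩ := Multiset.mem_map.1 hx
  exact norm_nonneg _

lemma map_ne_zero_C {R : ℤ[X]} (hR : R ≠ 0) : R.map (Int.castRingHom ℂ) ≠ 0 := by
  intro h
  exact hR (Polynomial.map_injective _ (RingHom.injective_int (Int.castRingHom ℂ)) (by simpa using h))

lemma lam_mul (n : ℕ) (w : ℂ → ℂ) {R S : ℤ[X]} (hR : R ≠ 0) (hS : S ≠ 0) :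
    lam n w (R * S) = lam n w R * lam n w S := by
  unfold lam
  rw [leadingCoeff_mul, Polynomial.map_mul,
    roots_mul (mul_ne_zero (map_ne_zero_C hR) (map_ne_zero_C hS)), Multiset.map_add,
    Multiset.prod_add, Int.cast_mul, abs_mul, mul_pow]
  ring

lemma lam_C (n : ℕ) (w : ℂ → ℂ) (c : ℤ) : lam n w (C c) = |(c : ℝ)| ^ n := by
  unfold lam
  rw [leadingCoeff_C, Polynomial.map_C, roots_C, Multiset.map_zero, Multiset.prod_zero, mul_one]

lemma one_le_lam_unit (n : ℕ) (w : ℂ → ℂ) {R : ℤ[X]} (hR : IsUnit R) : 1 ≤ lam n w R := by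
  obtain ⟨c, hc, rfl⟩ := Polynomial.isUnit_iff.1 hR
  rw [lam_C]
  apply one_le_pow₀
  have : |c| = 1 := by rcases Int.isUnit_iff.1 hc with rfl | rfl <;> simp
  rw [← Int.cast_abs, this]; simp

/-- The norm of the resultant is at least one. -/
lemma one_le_of_not_dvd {n : ℕ} {R g : ℤ[X]} (hR : Irreducible R) (hR1 : R.natDegree ≠ 0)
    (hg : g.natDegree ≤ n) (hd : ¬ R ∣ g) :
    (∀ z ∈ (R.map (Int.castRingHom ℂ)).roots, (g.map (Int.castRingHom ℂ)).eval z ≠ 0) ∧
    1 ≤ |(R.leadingCoeff : ℝ)| ^ n *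
      ((R.map (Int.castRingHom ℂ)).roots.map fun z => ‖(g.map (Int.castRingHom ℂ)).eval z‖).prod := by
  have hinj : Function.Injective (Int.castRingHom ℂ) := RingHom.injective_int _
  have hres : resultant R g ≠ 0 := by
    apply resultant_ne_zero_of_rat
    have hfp := hR.isPrimitive hR1
    have hf' := (IsPrimitive.Int.irreducible_iff_irreducible_map_cast hfp).1 hR
    rw [hf'.coprime_iff_not_dvd]
    intro hd'
    exact hd ((IsPrimitive.Int.dvd_iff_map_cast_dvd_map_cast R g hfp).2 hd')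
  have hlead : (R.map (Int.castRingHom ℂ)).leadingCoeff = (R.leadingCoeff : ℂ) := by
    rw [leadingCoeff_map_of_injective hinj]; simp
  have h := resultant_eq_prod_eval (R.map (Int.castRingHom ℂ)) (g.map (Int.castRingHom ℂ))
    g.natDegree natDegree_map_le (IsAlgClosed.splits _)
  rw [natDegree_map_eq_of_injective hinj R, resultant_map_map, hlead] at h
  have hne : ((resultant R g : ℤ) : ℂ) ≠ 0 := by exact_mod_cast hres
  have hprod : ((R.map (Int.castRingHom ℂ)).roots.map (g.map (Int.castRingHom ℂ)).eval).prod ≠ 0 := by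
    intro h0
    rw [h0, mul_zero] at h
    exact hne h
  have hroots : ∀ z ∈ (R.map (Int.castRingHom ℂ)).roots,
      (g.map (Int.castRingHom ℂ)).eval z ≠ 0 := by
    intro z hz h0
    exact hprod (Multiset.prod_eq_zero (Multiset.mem_map.2 ⟨z, hz, h0⟩))
  refine ⟨hroots, ?_⟩
  have h1 : (1 : ℝ) ≤ ‖((resultant R g : ℤ) : ℂ)‖ := by
    rw [Complex.norm_intCast]
    exact_mod_cast Int.one_le_abs hres
  have h2 : ‖((resultant R g : ℤ) : ℂ)‖ = |(R.leadingCoeff : ℝ)| ^ g.natDegree *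
      ((R.map (Int.castRingHom ℂ)).roots.map fun z =>
        ‖(g.map (Int.castRingHom ℂ)).eval z‖).prod := by
    have h3 : ((resultant R g : ℤ) : ℂ) = (Int.castRingHom ℂ) (resultant R g) := by simp
    rw [h3, h, norm_mul, norm_pow, Complex.norm_intCast]
    congr 1
    have h4 := map_multiset_prod (normHom : ℂ →*₀ ℝ)
      ((R.map (Int.castRingHom ℂ)).roots.map fun x => (g.map (Int.castRingHom ℂ)).eval x)
    rw [Multiset.map_map] at h4
    exact h4
  rw [h2] at h1
  refine h1.trans ?_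
  refine mul_le_mul_of_nonneg_right ?_ ?_
  · exact pow_le_pow_right₀ (one_le_abs_leadingCoeff hR.ne_zero) hg
  · refine Multiset.prod_nonneg ?_
    intro x hx
    obtain ⟨z, _, rfl⟩ := Multiset.mem_map.1 hx
    exact norm_nonneg _

lemma lam_congr (n : ℕ) {w w' : ℂ → ℂ} {R : ℤ[X]}
    (h : ∀ z ∈ (R.map (Int.castRingHom ℂ)).roots, ‖w z‖ = ‖w' z‖) : lam n w R = lam n w' R := by
  unfold lam
  congr 2
  exact Multiset.map_congr rfl h

/-- All integer polynomials have weight at least one. -/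
theorem one_le_lam {n : ℕ} {w : ℂ → ℂ} (Qz : ℤ[X]) (S : Set ℤ[X])
    (hdeg : Qz.natDegree ≤ n) (hS : ∀ R : ℤ[X], Prime R → R ∣ Qz → ∃ g ∈ S, R ∣ g)
    (hirr : ∀ g ∈ S, Irreducible g) (hf : ∀ g ∈ S, 1 ≤ lam n w g)
    (hw : ∀ z : ℂ, (Qz.map (Int.castRingHom ℂ)).eval z ≠ 0 →
      w z = (Qz.map (Int.castRingHom ℂ)).eval z)
    (R : ℤ[X]) (hR : R ≠ 0) : 1 ≤ lam n w R := by
  induction R using WfDvdMonoid.induction_on_irreducible with
  | zero => exact absurd rfl hR
  | unit u hu => exact one_le_lam_unit n w hu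
  | mul g i hg hi ih =>
    rw [lam_mul n w hi.ne_zero hg]
    have h1 := ih hg
    have h2 : 1 ≤ lam n w i := by
      by_cases h0 : i.natDegree = 0
      · obtain ⟨c, rfl⟩ := natDegree_eq_zero.1 h0
        have hc : c ≠ 0 := by rintro rfl; exact hi.ne_zero (by simp)
        rw [lam_C]
        apply one_le_pow₀
        exact_mod_cast Int.one_le_abs hc
      · by_cases hd : i ∣ Qz
        · obtain ⟨f, hj, h3⟩ := hS i hi.prime hd
          obtain ⟨u, hu⟩ := hi.associated_of_dvd (hirr f hj) h3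
          have h4 : lam n w f = lam n w i * lam n w (u : ℤ[X]) := by
            rw [← hu, lam_mul n w hi.ne_zero u.ne_zero]
          have h5 : lam n w (u : ℤ[X]) = 1 := by
            obtain ⟨c, hc, hcu⟩ := Polynomial.isUnit_iff.1 u.isUnit
            rw [← hcu, lam_C]
            have : |c| = 1 := by rcases Int.isUnit_iff.1 hc with rfl | rfl <;> simp
            rw [← Int.cast_abs, this]; simp
          rw [h5, mul_one] at h4
          rw [← h4]; exact hf f hj
        · obtain ⟨h3, h4⟩ := one_le_of_not_dvd hi h0 hdeg hd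
          refine h4.trans (le_of_eq ?_)
          unfold lam
          congr 2
          refine Multiset.map_congr rfl fun z hz => ?_
          rw [hw z (h3 z hz)]
    nlinarith

/-- Lower bound for the norm of an integer polynomial. -/
theorem low_int {a b : ℝ} {n : ℕ} (P : ℝ[X]) (Qz : ℤ[X]) (S : Set ℤ[X])
    (hP : P.natDegree ≤ n) (hdeg : Qz.natDegree ≤ n)
    (hS : ∀ R : ℤ[X], Prime R → R ∣ Qz → ∃ g ∈ S, R ∣ g)
    (hirr : ∀ g ∈ S, Irreducible g)
    (hq0 : 0 ≤ Qz.coeff n) (hqp : (Qz.coeff n : ℝ) < P.coeff n) (x : Fin (n + 1) → ℝ)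
    (hx : StrictMono x) (hxE : ∀ i, x i ∈ Set.Icc a b)
    (hs : ∀ i : Fin n, P.eval (x i.castSucc) * P.eval (x i.succ) < 0)
    (hPQ : ∀ i, |aeval (x i) Qz| < |P.eval (x i)|)
    (hf : ∀ g ∈ S, (∀ z ∈ (g.map (Int.castRingHom ℂ)).roots,
      (Qz.map (Int.castRingHom ℂ)).eval z = 0) ∧
      1 ≤ lam n (fun z => 2 * (P.map (algebraMap ℝ ℂ)).eval z) g)
    (R : ℤ[X]) (hR : R ≠ 0) {B : ℝ} (hB : ∀ y ∈ Set.Icc a b, |aeval y R| ≤ B) :
    1 ≤ B ^ n * (P.coeff n + √(P.coeff n ^ 2 - (Qz.coeff n : ℝ) ^ 2)) ^ R.natDegree := by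
  classical
  set w : ℂ → ℂ := fun z => if (Qz.map (Int.castRingHom ℂ)).eval z = 0 then
    2 * (P.map (algebraMap ℝ ℂ)).eval z else (Qz.map (Int.castRingHom ℂ)).eval z with hw
  have h1 : 1 ≤ lam n w R := by
    refine one_le_lam Qz S hdeg hS hirr ?_ ?_ R hR
    · intro g hg
      refine (hf g hg).2.trans (le_of_eq ?_)
      refine lam_congr n fun z hz => ?_
      simp only [hw]
      rw [if_pos ((hf g hg).1 z hz)]
    · intro z hz
      simp only [hw]
      rw [if_neg hz]
  obtain ⟨α, hα⟩ := exists_roots R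
  have hinj : Function.Injective (Int.castRingHom ℂ) := RingHom.injective_int _
  have hl0 : (R.leadingCoeff : ℂ) ≠ 0 := by exact_mod_cast leadingCoeff_ne_zero.2 hR
  have hroots : (R.map (Int.castRingHom ℂ)).roots = (Finset.univ.val.map α) := by
    rw [hα, roots_C_mul _ hl0]
    have : ∏ t, (X - C (α t)) = (((Finset.univ.val.map α)).map fun a => X - C a).prod := by
      rw [Multiset.map_map]; rfl
    rw [this, roots_multiset_prod_X_sub_C]
  have hcomp : (algebraMap ℝ ℂ).comp (Int.castRingHom ℝ) = Int.castRingHom ℂ := RingHom.ext_int _ _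
  have h2 := low_key (a := a) (b := b) P (Qz.map (Int.castRingHom ℝ)) hP
    (natDegree_map_le.trans hdeg) (by rw [coeff_map]; simpa using hq0)
    (by rw [coeff_map]; simpa using hqp) x hx hxE hs
    (by
      intro i
      have := hPQ i
      rwa [aeval_def, ← eval_map, algebraMap_int_eq] at this) α (R.leadingCoeff : ℂ) (B := B)
    (by
      intro y hy
      have h3 := hB y hy
      have h4 : ((aeval y R : ℝ) : ℂ) = (R.leadingCoeff : ℂ) * ∏ t, ((y : ℂ) - α t) := by
        have h5 : ((aeval y R : ℝ) : ℂ) = (R.map (Int.castRingHom ℂ)).eval (y : ℂ) := by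
          rw [eval_map, ← algebraMap_int_eq, ← aeval_def]
          exact (aeval_algebraMap_apply ℂ y R).symm
        rw [h5, hα, eval_mul, eval_C, eval_prod]
        simp
      rw [← h4, Complex.norm_real, Real.norm_eq_abs]
      exact h3)
  rw [Polynomial.map_map, hcomp, coeff_map, Complex.norm_intCast] at h2
  refine h1.trans (le_trans (le_of_eq ?_) h2)
  unfold lam
  rw [hroots, Multiset.map_map]
  rfl

/-- The weight of a polynomial all of whose roots are roots of `Q`, through the values at the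
roots of `P`. -/
lemma lam_eq {n : ℕ} (p : ℝ) (hp : 0 ≤ p) (ζ : Fin n → ℝ) (g : ℤ[X]) (hg : g ≠ 0) :
    lam n (fun z => 2 * ((C p * ∏ j, (X - C (ζ j))).map (algebraMap ℝ ℂ)).eval z) g =
      (2 * p) ^ g.natDegree * ∏ j, |aeval (ζ j) g| := by
  obtain ⟨α, hα⟩ := exists_roots g
  have hl0 : (g.leadingCoeff : ℂ) ≠ 0 := by exact_mod_cast leadingCoeff_ne_zero.2 hg
  have hroots : (g.map (Int.castRingHom ℂ)).roots = (Finset.univ.val.map α) := by
    rw [hα, roots_C_mul _ hl0]
    have : ∏ t, (X - C (α t)) = (((Finset.univ.val.map α)).map fun a => X - C a).prod := by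
      rw [Multiset.map_map]; rfl
    rw [this, roots_multiset_prod_X_sub_C]
  have h1 : ∀ t, ‖2 * ((C p * ∏ j, (X - C (ζ j))).map (algebraMap ℝ ℂ)).eval (α t)‖ =
      2 * p * ∏ j, ‖α t - (ζ j : ℂ)‖ := by
    intro t
    rw [Polynomial.map_mul, Polynomial.map_C, Polynomial.map_prod, eval_mul, eval_C, eval_prod,
      norm_mul, norm_mul, norm_prod, ← mul_assoc]
    congr 1
    · simp [abs_of_nonneg hp]
    · refine Finset.prod_congr rfl fun j _ => ?_
      simp
  have h2 : ∀ j, |aeval (ζ j) g| = |(g.leadingCoeff : ℝ)| * ∏ t, ‖α t - (ζ j : ℂ)‖ := by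
    intro j
    have h5 : ((aeval (ζ j) g : ℝ) : ℂ) = (g.map (Int.castRingHom ℂ)).eval (ζ j : ℂ) := by
      rw [eval_map, ← algebraMap_int_eq, ← aeval_def]
      exact (aeval_algebraMap_apply ℂ (ζ j) g).symm
    rw [← Real.norm_eq_abs, ← Complex.norm_real, h5, hα, eval_mul, eval_C, eval_prod, norm_mul,
      Complex.norm_intCast, norm_prod]
    congr 1
    refine Finset.prod_congr rfl fun t _ => ?_
    rw [eval_sub, eval_X, eval_C, norm_sub_rev]
  unfold lam
  rw [hroots, Multiset.map_map]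
  have h3 : (Multiset.map ((fun z => ‖2 * ((C p * ∏ j, (X - C (ζ j))).map (algebraMap ℝ ℂ)).eval
      z‖) ∘ α) Finset.univ.val).prod = ∏ t, (2 * p * ∏ j, ‖α t - (ζ j : ℂ)‖) := by
    have : ∀ t, ((fun z => ‖2 * ((C p * ∏ j, (X - C (ζ j))).map (algebraMap ℝ ℂ)).eval
      z‖) ∘ α) t = 2 * p * ∏ j, ‖α t - (ζ j : ℂ)‖ := h1
    exact Finset.prod_congr rfl fun t _ => this t
  rw [h3, Finset.prod_congr rfl fun j _ => h2 j]
  simp only [Finset.prod_mul_distrib, Finset.prod_const, Finset.card_univ, Fintype.card_fin]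
  rw [Finset.prod_comm]
  ring

end IntCheb
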