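import Pool.Agent.Lib.MP_6205a3_nt.Cheb

/-!
# MP_6205a3_nt : passing from the interval `[0, 1/4]` to `[0, 1]`
-/

open Finset Polynomial

set_option autoImplicit false

namespace IntCheb

lemma symm_comp (n : ℕ) : ∀ F : ℤ[X], F.natDegree ≤ n → F.comp (1 - X) = F →
    ∃ R : ℤ[X], F = R.comp (X - X ^ 2) := by
  induction n using Nat.strong_induction_on with
  | _ n ih =>
    intro F hF hs
    by_cases h0 : F.natDegree = 0
    · obtain ⟨c, rfl⟩ := natDegree_eq_zero.1 h0
      exact ⟨C c, by simp⟩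
    set c : ℤ := F.eval 0 with hc
    have h1 : F.eval 1 = c := by
      conv_lhs => rw [← hs]
      rw [eval_comp]; simp [hc]
    have hroot0 : (F - C c).eval 0 = 0 := by simp [hc]
    have hroot1 : (F - C c).eval 1 = 0 := by simp [h1]
    obtain ⟨G, hG⟩ : (X : ℤ[X]) ∣ F - C c := by
      rw [X_dvd_iff, coeff_zero_eq_eval_zero]; exact hroot0
    have hG1 : G.eval 1 = 0 := by
      have := hroot1
      rw [hG] at this
      simpa using this
    obtain ⟨H, hH⟩ : (X - C 1 : ℤ[X]) ∣ G := dvd_iff_isRoot.2 hG1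
    have hFe : F = C c + (X - X ^ 2) * (-H) := by
      have : F = C c + X * G := by rw [← hG]; ring
      rw [this, hH]
      simp only [map_one]
      ring
    have hne : (X - X ^ 2 : ℤ[X]) ≠ 0 := by
      intro h
      have := congrArg (fun p => p.coeff 1) h
      simp [coeff_X, coeff_X_pow] at this
    have hHs : (-H).comp (1 - X) = -H := by
      have h2 : ((X - X ^ 2 : ℤ[X])).comp (1 - X) = X - X ^ 2 := by
        simp only [sub_comp, X_comp, pow_comp]; ring
      have h3 : (C c + (X - X ^ 2) * (-H) : ℤ[X]).comp (1 - X) = C c + (X - X ^ 2) * (-H) := by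
        rw [← hFe]; exact hs
      rw [add_comp, C_comp, mul_comp, h2] at h3
      exact mul_left_cancel₀ hne (add_left_cancel h3)
    have hHdeg : (-H).natDegree < n ∨ -H = 0 := by
      by_cases hH0 : -H = 0
      · exact Or.inr hH0
      · left
        have hq : (X - X ^ 2 : ℤ[X]).natDegree = 2 := by
          have : (X - X ^ 2 : ℤ[X]) = -(X ^ 2 - X) := by ring
          rw [this, natDegree_neg]
          compute_degree!
        have h4 : ((X - X ^ 2) * (-H) : ℤ[X]).natDegree = 2 + (-H).natDegree := by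
          rw [natDegree_mul hne hH0, hq]
        have h5 : ((X - X ^ 2) * (-H) : ℤ[X]).natDegree ≤ n := by
          have : ((X - X ^ 2) * (-H) : ℤ[X]) = F - C c := by rw [hFe]; ring
          rw [this]
          exact (natDegree_sub_C).le.trans hF
        omega
    rcases hHdeg with hlt | hz
    · obtain ⟨R', hR'⟩ := ih _ hlt (-H) le_rfl hHs
      refine ⟨C c + X * R', ?_⟩
      rw [add_comp, C_comp, mul_comp, X_comp, ← hR']
      exact hFe
    · refine ⟨C c, ?_⟩
      rw [C_comp, hFe, hz, mul_zero, add_zero]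

/-- A lower bound on `[0, 1/4]` gives one on `[0, 1]`. -/
theorem of_quarter {κ : ℝ} (hκ : 0 < κ) (hκ1 : κ ≤ 1)
    (h : ∀ R : ℤ[X], R ≠ 0 → ∀ B : ℝ, (∀ y ∈ Set.Icc (0 : ℝ) (1 / 4), |aeval y R| ≤ B) →
      κ ^ (2 * R.natDegree) ≤ B) (n : ℕ) : κ ^ n ≤ chebMin 0 1 n := by
  apply le_chebMin
  intro S hS hSn
  have h01 : (0 : ℝ) < 1 := one_pos
  set F : ℤ[X] := S * S.comp (1 - X) with hF
  have hcc : ∀ T : ℤ[X], (T.comp (1 - X)).comp (1 - X) = T := by
    intro T
    rw [comp_assoc]
    have : ((1 : ℤ[X]) - X).comp (1 - X) = X := by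
      simp only [sub_comp, one_comp, X_comp]; ring
    rw [this, comp_X]
  have hFs : F.comp (1 - X) = F := by
    rw [hF, mul_comp, hcc, mul_comm]
  obtain ⟨R, hR⟩ := symm_comp F.natDegree F le_rfl hFs
  have hq1 : (1 - X : ℤ[X]).natDegree = 1 := by
    have : (1 - X : ℤ[X]) = -(X - 1) := by ring
    rw [this, natDegree_neg]
    compute_degree!
  have hq2 : (X - X ^ 2 : ℤ[X]).natDegree = 2 := by
    have : (X - X ^ 2 : ℤ[X]) = -(X ^ 2 - X) := by ring
    rw [this, natDegree_neg]
    compute_degree!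
  have hSc : S.comp (1 - X) ≠ 0 := by
    intro h0
    apply hS
    rw [← hcc S, h0, zero_comp]
  have hF0 : F ≠ 0 := mul_ne_zero hS hSc
  have hR0 : R ≠ 0 := by
    rintro rfl
    rw [zero_comp] at hR
    exact hF0 hR
  have hdeg : R.natDegree = S.natDegree := by
    have h1 : F.natDegree = S.natDegree + S.natDegree := by
      rw [hF, natDegree_mul hS hSc, natDegree_comp, hq1, mul_one]
    have h2 : F.natDegree = R.natDegree * 2 := by
      rw [hR, natDegree_comp, hq2]
    omega
  have hs0 : 0 ≤ supNorm 0 1 S := supNorm_nonneg h01 S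
  have hB : ∀ y ∈ Set.Icc (0 : ℝ) (1 / 4), |aeval y R| ≤ supNorm 0 1 S ^ 2 := by
    intro y hy
    set x : ℝ := (1 - √(1 - 4 * y)) / 2 with hx
    have h4 : 0 ≤ 1 - 4 * y := by linarith [hy.2]
    have hsq := Real.sq_sqrt h4
    have hs1 : √(1 - 4 * y) ≤ 1 := by
      rw [Real.sqrt_le_one]; linarith [hy.1]
    have hx0 : 0 ≤ x := by rw [hx]; linarith
    have hx1 : x ≤ 1 := by rw [hx]; linarith [Real.sqrt_nonneg (1 - 4 * y)]
    have hxy : x - x ^ 2 = y := by rw [hx]; nlinarith
    have h5 : aeval y R = aeval x S * aeval (1 - x) S := by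
      have h6 : aeval x F = aeval y R := by
        rw [hR, aeval_comp]
        congr 1
        simp [hxy]
      rw [← h6, hF, map_mul, aeval_comp]
      congr 1
      simp
    rw [h5, abs_mul, pow_two]
    have e1 := le_supNorm (a := 0) (b := 1) S (x := x) ⟨hx0, hx1⟩
    have e2 := le_supNorm (a := 0) (b := 1) S (x := 1 - x) ⟨by linarith, by linarith⟩
    exact mul_le_mul e1 e2 (abs_nonneg _) hs0
  have h7 := h R hR0 _ hB
  rw [hdeg, mul_comm, pow_mul] at h7
  have h8 : κ ^ S.natDegree ≤ supNorm 0 1 S := by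
    have h9 : (κ ^ S.natDegree) ^ 2 ≤ supNorm 0 1 S ^ 2 := h7
    exact (pow_le_pow_iff_left₀ (by positivity) hs0 two_ne_zero).1 h9
  exact (pow_le_pow_of_le_one hκ.le hκ1 hSn).trans h8

end IntCheb
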