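import Pool.Agent.Lib.MP_6205a3_nt.B66.UpTan
import Pool.Agent.Lib.MP_6205a3_nt.B66.Cert

/-!
# MP_6205a3_nt : sup norm certificates for `B w` on `[0, 1/4]`, `B` real monic, `w` integer
-/

open Finset Polynomial

set_option autoImplicit false

namespace IntCheb

namespace Up

open Cert

/-- Evaluation of the argument before substitution (used to speed up the kernel). -/
noncomputable def force {α : Type} (n : ℕ) (f : ℕ → α) : α :=
  @Nat.rec (fun _ => α) (f (nat_lit 0)) (fun m _ => f (Nat.succ m)) n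

lemma force_eq {α : Type} (n : ℕ) (f : ℕ → α) : force n f = f n := by
  cases n <;> rfl

/-- `∏ |C - y|`. -/
noncomputable def prodA (C : ℕ) (ys : List ℕ) : ℕ :=
  @List.rec ℕ (fun _ => ℕ) (nat_lit 1)
    (fun y _ ih => Nat.mul (Nat.add (Nat.sub C y) (Nat.sub y C)) ih) ys

/-- `T + ∑ ± ⌊K / |C - y|⌋`. -/
noncomputable def sumS (T K C : ℕ) (ys : List ℕ) : ℕ :=
  @List.rec ℕ (fun _ => ℕ) T
    (fun y _ ih => Nat.sub (Nat.add (Nat.div K (Nat.sub C y)) ih)
      (Nat.div K (Nat.sub y C))) ys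

/-- Horner's rule. -/
noncomputable def evN (x : ℕ) (l : List ℕ) : ℕ :=
  @List.rec ℕ (fun _ => ℕ) (nat_lit 0) (fun a _ ih => Nat.add a (Nat.mul x ih)) l

/-- An integer polynomial with its multiplicity and the scaled lists used for its evaluation. -/
structure Fac where
  /-- multiplicity -/
  g : ℕ
  /-- coefficients -/
  l : List ℤ
  /-- positive part of the scaled coefficients -/
  lp : List ℕ
  /-- negative part of the scaled coefficients -/
  ln : List ℕ
  /-- positive part of the scaled coefficients of the derivative -/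
  dp : List ℕ
  /-- negative part of the scaled coefficients of the derivative -/
  dn : List ℕ

/-- `∏ |q (C)| ^ g`. -/
noncomputable def qAbs (C : ℕ) (fs : List Fac) : ℕ :=
  @List.rec Fac (fun _ => ℕ) (nat_lit 1)
    (fun f _ ih => force (evN C f.lp) fun a => force (evN C f.ln) fun b =>
      Nat.mul (Nat.pow (Nat.add (Nat.sub a b) (Nat.sub b a)) f.g) ih) fs

/-- Positive part of `K ∑ g q' / q`. -/
noncomputable def qL (K C : ℕ) (fs : List Fac) : ℕ :=
  @List.rec Fac (fun _ => ℕ) (nat_lit 0)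
    (fun f _ ih => force (evN C f.lp) fun a => force (evN C f.ln) fun b =>
      force (evN C f.dp) fun a' => force (evN C f.dn) fun b' =>
      Nat.add (Nat.add (Nat.div (Nat.mul (Nat.mul K f.g) (Nat.sub a' b')) (Nat.sub a b))
        (Nat.div (Nat.mul (Nat.mul K f.g) (Nat.sub b' a')) (Nat.sub b a))) ih) fs

/-- Negative part of `K ∑ g q' / q`. -/
noncomputable def qR (K C : ℕ) (fs : List Fac) : ℕ :=
  @List.rec Fac (fun _ => ℕ) (nat_lit 0)
    (fun f _ ih => force (evN C f.lp) fun a => force (evN C f.ln) fun b =>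
      force (evN C f.dp) fun a' => force (evN C f.dn) fun b' =>
      Nat.add (Nat.add (Nat.div (Nat.mul (Nat.mul K f.g) (Nat.sub b' a')) (Nat.sub a b))
        (Nat.div (Nat.mul (Nat.mul K f.g) (Nat.sub a' b')) (Nat.sub b a))) ih) fs

/-- Number of negative values `q (C)`. -/
noncomputable def qNeg (C : ℕ) (fs : List Fac) : ℕ :=
  @List.rec Fac (fun _ => ℕ) (nat_lit 0)
    (fun f _ ih => Nat.add (Nat.sub (nat_lit 1) (Nat.sub (nat_lit 1)
      (Nat.sub (evN C f.ln) (evN C f.lp)))) ih) fs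

/-- The local check at a test point `(C, h, pe, b)`. -/
noncomputable def loc (D K T cnt Cn g0 g1 : ℕ) (fs : List Fac) (ys : List ℕ)
    (e : ℕ × ℕ × ℕ × ℕ) : Bool :=
  force e.1 fun C => force (Nat.div e.2.2.1 (nat_lit 2)) fun E =>
    cond (force (Nat.mul (Nat.mul (Nat.pow C g0) (Nat.pow (Nat.sub D (Nat.mul (nat_lit 4) C)) g1))
        (Nat.mul (qAbs C fs) (prodA C ys))) fun a =>
      cond (Nat.ble (nat_lit 1) a) (Nat.ble (Nat.mul a (Nat.pow (nat_lit 100) E))
        (Nat.mul (Nat.pow (nat_lit 99) E) Cn)) false)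
    (cond (force (Nat.add (Nat.add (sumS T K C ys) (qL K C fs)) (Nat.div (Nat.mul K g0) C))
      fun sl => force (Nat.add (Nat.add T (qR K C fs))
        (Nat.div (Nat.mul (Nat.mul (nat_lit 4) K) g1) (Nat.sub D (Nat.mul (nat_lit 4) C)))) fun sr =>
      cond (Nat.ble (Nat.mul (Nat.mul e.2.1 (nat_lit 100)) (Nat.sub (Nat.add sl cnt) sr))
          (Nat.mul K E))
        (Nat.ble (Nat.mul (Nat.mul e.2.1 (nat_lit 100)) (Nat.sub (Nat.add sr cnt) sl))
          (Nat.mul K E)) false)
    (Nat.beq (Nat.mod (qNeg C fs) (nat_lit 2)) (Nat.mod e.2.2.1 (nat_lit 2))) false) false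

/-- All elements of the list pass the check. -/
noncomputable def allB {α : Type} (p : α → Bool) (l : List α) : Bool :=
  @List.rec α (fun _ => Bool) true (fun c _ ih => cond (p c) ih false) l

lemma allB_spec {α : Type} {p : α → Bool} {l : List α} (h : allB p l = true) : ∀ a ∈ l, p a = true := by
  induction l with
  | nil => simp
  | cons a l ih =>
    have h1 : cond (p a) (allB p l) false = true := h
    have h2 : p a = true := by
      cases hp : p a
      · rw [hp] at h1; simp at h1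
      · rfl
    rw [h2] at h1
    intro b hb
    rcases List.mem_cons.1 hb with rfl | hb
    · exact h2
    · exact ih h1 b hb

/-- Interlacing of the test points with the zeros `ys` and the other zeros. -/
def chn : List (ℕ × ℕ × ℕ × ℕ) → List ℕ → Bool
  | e :: e' :: cs, ys => Nat.blt e.1 e'.1 && Nat.ble (e'.1 - e.1) e.2.1 &&
      Nat.ble (e'.1 - e.1) e'.2.1 && Nat.beq ((e.2.2.1 + e'.2.2.1 + e.2.2.2) % 2) 1 &&
      cond (Nat.beq e.2.2.2 0) (chn (e' :: cs) ys) (Nat.beq e.2.2.2 1 &&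
        (match ys with
        | [] => false
        | y :: ys => Nat.blt e.1 y && Nat.blt y e'.1 && chn (e' :: cs) ys))
  | [_], [] => true
  | _, _ => false

/-- Difference of two lists. -/
def zsub : List ℕ → List ℕ → List ℤ
  | [], l' => l'.map fun b : ℕ => -(b : ℤ)
  | a :: l, [] => (a : ℤ) :: zsub l []
  | a :: l, b :: l' => ((a : ℤ) - b) :: zsub l l'

/-- Scaled coefficients. -/
def scl (D : ℕ) : List ℤ → List ℤ
  | [] => []
  | a :: l => (a * (D : ℤ) ^ l.length) :: scl D l

/-- Coefficients of the derivative. -/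
def derc (k : ℤ) : List ℤ → List ℤ
  | [] => []
  | a :: l => (k * a) :: derc (k + 1) l

/-- The check of a factor. -/
def facOK (D : ℕ) (f : Fac) : Bool :=
  decide (0 < f.g) && decide (f.l ≠ []) && decide (zsub f.lp f.ln = scl D f.l) &&
    decide (zsub f.dp f.dn = scl D (derc 1 f.l.tail))

lemma prodA_cons (C y : ℕ) (ys : List ℕ) :
    prodA C (y :: ys) = ((C - y) + (y - C)) * prodA C ys := rfl

lemma cast_absdiff (a b : ℕ) : (((a - b) + (b - a) : ℕ) : ℝ) = |(a : ℝ) - b| := by
  rcases le_total a b with h | h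
  · rw [Nat.sub_eq_zero_of_le h, zero_add, Nat.cast_sub h, abs_sub_comm, abs_of_nonneg]
    exact sub_nonneg.2 (by exact_mod_cast h)
  · rw [Nat.sub_eq_zero_of_le h, add_zero, Nat.cast_sub h, abs_of_nonneg]
    exact sub_nonneg.2 (by exact_mod_cast h)

lemma prodA_eq {D : ℕ} (hD : 0 < D) (C : ℕ) (ys : List ℕ) :
    (prodA C ys : ℝ) = (D : ℝ) ^ ys.length *
      |(ys.map fun y : ℕ => ((C : ℝ) / D - (y : ℝ) / D)).prod| := by
  have hD' : (0 : ℝ) < D := by exact_mod_cast hD
  induction ys with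
  | nil => simp [prodA]
  | cons y ys ih =>
    rw [prodA_cons, Nat.cast_mul, ih, cast_absdiff, List.map_cons, List.prod_cons, abs_mul,
      List.length_cons, pow_succ, ← sub_div, abs_div, abs_of_pos hD']
    field_simp

lemma evN_cons (x a : ℕ) (l : List ℕ) : evN x (a :: l) = a + x * evN x l := rfl

lemma evN_nil (x : ℕ) : evN x [] = 0 := rfl

lemma evN_sub (x : ℕ) : ∀ l l' : List ℕ, ((evN x l : ℤ)) - evN x l' = ev x (zsub l l')
  | [], l' => by
    rw [zsub, evN_nil]
    induction l' with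
    | nil => simp [evN_nil, ev]
    | cons b l' ih =>
      rw [List.map_cons, ev, ← ih, evN_cons]; push_cast; ring
  | a :: l, [] => by
    rw [zsub, ev, ← evN_sub x l [], evN_cons, evN_nil]; push_cast; ring
  | a :: l, b :: l' => by
    rw [zsub, ev, ← evN_sub x l l', evN_cons, evN_cons]; push_cast; ring

lemma ev_scl (D : ℕ) (x : ℤ) : ∀ l : List ℤ, ev x (scl D l) = hv x D l
  | [] => rfl
  | a :: l => by rw [scl, ev, hv, ev_scl D x l]

lemma getD_derc : ∀ (l : List ℤ) (k : ℤ) (n : ℕ), (derc k l).getD n 0 = (k + n) * l.getD n 0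
  | [], k, n => by simp [derc]
  | a :: l, k, n => by
    cases n with
    | zero => simp [derc]
    | succ n =>
      rw [derc, List.getD_cons_succ, List.getD_cons_succ, getD_derc l (k + 1) n]
      push_cast
      ring

lemma pl_derc (l : List ℤ) : pl (derc 1 l.tail) = derivative (pl l) := by
  ext n
  rw [coeff_pl, coeff_derivative, coeff_pl, getD_derc]
  rcases l with _ | ⟨a, l⟩
  · simp
  · rw [List.tail_cons, List.getD_cons_succ]
    ring

lemma length_derc : ∀ (l : List ℤ) (k : ℤ), (derc k l).length = l.length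
  | [], k => rfl
  | a :: l, k => by simp [derc, length_derc l (k + 1)]

/-- The properties of a factor that passes the check. -/
lemma fac_spec {D : ℕ} (hD : 0 < D) {f : Fac} (hf : facOK D f = true) (C : ℕ) :
    0 < f.g ∧ ((evN C f.lp : ℝ) - evN C f.ln =
      (D : ℝ) ^ (f.l.length - 1) * aeval ((C : ℝ) / D) (pl f.l)) ∧
    ((D : ℝ) * ((evN C f.dp : ℝ) - evN C f.dn) =
      (D : ℝ) ^ (f.l.length - 1) * aeval ((C : ℝ) / D) (derivative (pl f.l))) := by
  have hD' : (D : ℝ) ≠ 0 := by exact_mod_cast hD.ne'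
  have hDz : (D : ℤ) ≠ 0 := by exact_mod_cast hD.ne'
  unfold facOK at hf
  simp only [Bool.and_eq_true, decide_eq_true_eq] at hf
  obtain ⟨⟨⟨h1, h2⟩, h3⟩, h4⟩ := hf
  obtain ⟨m, hm⟩ : ∃ m, f.l.length = m + 1 :=
    ⟨f.l.length - 1, (Nat.succ_pred_eq_of_pos (List.length_pos_iff.2 h2)).symm⟩
  refine ⟨h1, ?_, ?_⟩
  · have e1 := evN_sub C f.lp f.ln
    rw [h3, ev_scl] at e1
    have e2 := hv_eq (x := (C : ℤ)) hDz f.l
    rw [← e1, hm] at e2
    push_cast at e2
    rw [hm, Nat.add_sub_cancel]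
    have e3 : (D : ℝ) * ((evN C f.lp : ℝ) - evN C f.ln) =
        D * ((D : ℝ) ^ m * aeval ((C : ℝ) / D) (pl f.l)) := by
      rw [e2]; ring
    exact mul_left_cancel₀ hD' e3
  · have e1 := evN_sub C f.dp f.dn
    rw [h4, ev_scl] at e1
    have e2 := hv_eq (x := (C : ℤ)) hDz (derc 1 f.l.tail)
    rw [← e1, length_derc, List.length_tail, pl_derc] at e2
    push_cast at e2
    exact e2

lemma qAbs_cons (C : ℕ) (f : Fac) (fs : List Fac) :
    qAbs C (f :: fs) = ((evN C f.lp - evN C f.ln) + (evN C f.ln - evN C f.lp)) ^ f.g *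
      qAbs C fs := by
  have h : qAbs C (f :: fs) = force (evN C f.lp) fun a => force (evN C f.ln) fun b =>
      Nat.mul (Nat.pow (Nat.add (Nat.sub a b) (Nat.sub b a)) f.g) (qAbs C fs) := rfl
  rw [h, force_eq, force_eq]
  rfl

/-- Degree of the product of the factors. -/
def dgF (fs : List Fac) : ℕ := (fs.map fun f => f.g * (f.l.length - 1)).sum

lemma qAbs_eq {D : ℕ} (hD : 0 < D) {fs : List Fac} (hfs : ∀ f ∈ fs, facOK D f = true) (C : ℕ) :
    (qAbs C fs : ℝ) = (D : ℝ) ^ dgF fs *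
      |(fs.map fun f => (aeval ((C : ℝ) / D) (pl f.l)) ^ f.g).prod| := by
  have hD' : (0 : ℝ) < D := by exact_mod_cast hD
  induction fs with
  | nil => simp [qAbs, dgF]
  | cons f fs ih =>
    have h1 := fac_spec hD (hfs f (by simp)) C
    have e2 : dgF (f :: fs) = f.g * (f.l.length - 1) + dgF fs := by simp [dgF]
    rw [qAbs_cons, Nat.cast_mul, Nat.cast_pow, cast_absdiff, h1.2.1,
      ih fun f' hf' => hfs f' (by simp [hf']), List.map_cons, List.prod_cons, abs_mul, abs_mul,
      mul_pow, e2, pow_add, abs_pow, abs_of_pos hD', abs_pow, ← pow_mul,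
      Nat.mul_comm (f.l.length - 1)]
    ring

lemma div_err (a b : ℕ) : ((a / b : ℕ) : ℝ) ≤ (a : ℝ) / b ∧ (a : ℝ) / b < ((a / b : ℕ) : ℝ) + 1 := by
  rw [← Nat.floor_div_eq_div (K := ℝ) a b]
  exact ⟨Nat.floor_le (by positivity), Nat.lt_floor_add_one _⟩

lemma sumS_cons (T K C y : ℕ) (ys : List ℕ) : sumS T K C (y :: ys) =
    (K / (C - y) + sumS T K C ys) - K / (y - C) := rfl

lemma sumS_spec {T K C : ℕ} {ys : List ℕ} (hT : ys.length * K ≤ T) (h : ∀ y ∈ ys, y ≠ C) :
    T ≤ sumS T K C ys + ys.length * K ∧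
      |(sumS T K C ys : ℝ) - T - K * (ys.map fun y : ℕ => 1 / ((C : ℝ) - y)).sum| ≤ ys.length := by
  induction ys with
  | nil => simp [sumS]
  | cons y ys ih =>
    have hy : y ≠ C := h y (by simp)
    rw [List.length_cons, Nat.add_mul, one_mul] at hT
    obtain ⟨i1, i2⟩ := ih (by omega) fun y' hy' => h y' (by simp [hy'])
    rw [List.length_cons, List.map_cons, List.sum_cons, sumS_cons, Nat.add_mul, one_mul]
    rw [abs_le] at i2
    rcases Nat.lt_or_ge C y with hlt | hge
    · have hb : C - y = 0 := by omega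
      have h1 : K / (y - C) ≤ K := Nat.div_le_self _ _
      have h2 : K / (y - C) ≤ sumS T K C ys := by omega
      rw [hb, Nat.div_zero, zero_add]
      refine ⟨by omega, ?_⟩
      have h3 := div_err K (y - C)
      have h4 : (K : ℝ) / ((y - C : ℕ) : ℝ) = - (K * (1 / ((C : ℝ) - y))) := by
        rw [Nat.cast_sub hlt.le]
        have : (y : ℝ) - C ≠ 0 := sub_ne_zero.2 (by exact_mod_cast hy)
        have h5 : (C : ℝ) - y ≠ 0 := sub_ne_zero.2 (by exact_mod_cast hy.symm)
        field_simp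
        ring
      rw [h4] at h3
      rw [Nat.cast_sub h2, abs_le, mul_add]
      push_cast
      constructor <;> linarith [h3.1, h3.2, i2.1, i2.2]
    · have hlt : y < C := lt_of_le_of_ne hge hy
      have hb : y - C = 0 := by omega
      rw [hb, Nat.div_zero, Nat.sub_zero]
      refine ⟨by
        obtain ⟨g, hg⟩ : ∃ g, K / (C - y) = g := ⟨_, rfl⟩
        rw [hg]
        omega, ?_⟩
      have h3 := div_err K (C - y)
      have h4 : (K : ℝ) / ((C - y : ℕ) : ℝ) = K * (1 / ((C : ℝ) - y)) := by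
        rw [Nat.cast_sub hge]
        ring
      rw [h4] at h3
      rw [Nat.cast_add, abs_le, mul_add]
      push_cast
      constructor <;> linarith [h3.1, h3.2, i2.1, i2.2]

lemma quad (c a b a' b' : ℕ) (h : a ≠ b) :
    |(((c * (a' - b')) / (a - b) + (c * (b' - a')) / (b - a) : ℕ) : ℝ) -
      (((c * (b' - a')) / (a - b) + (c * (a' - b')) / (b - a) : ℕ) : ℝ) -
      c * (((a' : ℝ) - b') / ((a : ℝ) - b))| ≤ 2 := by
  have e1 := div_err (c * (a' - b')) (a - b)
  have e2 := div_err (c * (b' - a')) (b - a)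
  have e3 := div_err (c * (b' - a')) (a - b)
  have e4 := div_err (c * (a' - b')) (b - a)
  have key : ((c * (a' - b') : ℕ) : ℝ) / ((a - b : ℕ) : ℝ) + ((c * (b' - a') : ℕ) : ℝ) /
      ((b - a : ℕ) : ℝ) - ((c * (b' - a') : ℕ) : ℝ) / ((a - b : ℕ) : ℝ) -
      ((c * (a' - b') : ℕ) : ℝ) / ((b - a : ℕ) : ℝ) = c * (((a' : ℝ) - b') / ((a : ℝ) - b)) := by
    have hd : ((a' - b' : ℕ) : ℝ) - ((b' - a' : ℕ) : ℝ) = (a' : ℝ) - b' := by
      rcases le_total a' b' with h' | h'
      · rw [Nat.sub_eq_zero_of_le h', Nat.cast_sub h']; simp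
      · rw [Nat.sub_eq_zero_of_le h', Nat.cast_sub h']; simp
    rcases lt_or_gt_of_ne h with hlt | hlt
    · have h1 : a - b = 0 := by omega
      rw [h1, Nat.cast_sub hlt.le, ← hd]
      have h2 : (b : ℝ) - a ≠ 0 := sub_ne_zero.2 (by exact_mod_cast h.symm)
      have h3 : (a : ℝ) - b ≠ 0 := sub_ne_zero.2 (by exact_mod_cast h)
      push_cast
      simp only [div_zero, zero_add, sub_zero]
      field_simp
      ring
    · have h1 : b - a = 0 := by omega
      rw [h1, Nat.cast_sub hlt.le, ← hd]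
      push_cast
      simp only [div_zero, add_zero, sub_zero]
      ring
  rw [← key, abs_le]
  push_cast at e1 e2 e3 e4 ⊢
  constructor <;> linarith [e1.1, e1.2, e2.1, e2.2, e3.1, e3.2, e4.1, e4.2]

lemma qL_cons (K C : ℕ) (f : Fac) (fs : List Fac) : qL K C (f :: fs) =
    (K * f.g * (evN C f.dp - evN C f.dn)) / (evN C f.lp - evN C f.ln) +
    (K * f.g * (evN C f.dn - evN C f.dp)) / (evN C f.ln - evN C f.lp) + qL K C fs := by
  have h : qL K C (f :: fs) = force (evN C f.lp) fun a => force (evN C f.ln) fun b =>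
      force (evN C f.dp) fun a' => force (evN C f.dn) fun b' =>
      Nat.add (Nat.add (Nat.div (Nat.mul (Nat.mul K f.g) (Nat.sub a' b')) (Nat.sub a b))
        (Nat.div (Nat.mul (Nat.mul K f.g) (Nat.sub b' a')) (Nat.sub b a))) (qL K C fs) := rfl
  rw [h, force_eq, force_eq, force_eq, force_eq]
  rfl

lemma qR_cons (K C : ℕ) (f : Fac) (fs : List Fac) : qR K C (f :: fs) =
    (K * f.g * (evN C f.dn - evN C f.dp)) / (evN C f.lp - evN C f.ln) +
    (K * f.g * (evN C f.dp - evN C f.dn)) / (evN C f.ln - evN C f.lp) + qR K C fs := by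
  have h : qR K C (f :: fs) = force (evN C f.lp) fun a => force (evN C f.ln) fun b =>
      force (evN C f.dp) fun a' => force (evN C f.dn) fun b' =>
      Nat.add (Nat.add (Nat.div (Nat.mul (Nat.mul K f.g) (Nat.sub b' a')) (Nat.sub a b))
        (Nat.div (Nat.mul (Nat.mul K f.g) (Nat.sub a' b')) (Nat.sub b a))) (qR K C fs) := rfl
  rw [h, force_eq, force_eq, force_eq, force_eq]
  rfl

lemma qLR_spec {D : ℕ} (hD : 0 < D) {K C : ℕ} {fs : List Fac} (hfs : ∀ f ∈ fs, facOK D f = true)
    (h : ∀ f ∈ fs, aeval ((C : ℝ) / D) (pl f.l) ≠ 0) :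
    |(qL K C fs : ℝ) - qR K C fs - K / D * (fs.map fun f => (f.g : ℝ) *
      (aeval ((C : ℝ) / D) (derivative (pl f.l)) / aeval ((C : ℝ) / D) (pl f.l))).sum| ≤
      2 * fs.length := by
  have hD' : (D : ℝ) ≠ 0 := by exact_mod_cast hD.ne'
  induction fs with
  | nil => simp [qL, qR]
  | cons f fs ih =>
    have i2 := ih (fun f' hf' => hfs f' (by simp [hf'])) fun f' hf' => h f' (by simp [hf'])
    obtain ⟨-, h2, h3⟩ := fac_spec hD (hfs f (by simp)) C
    have h4 := h f (by simp)
    have h5 : (evN C f.lp : ℝ) - evN C f.ln ≠ 0 := by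
      rw [h2]; exact mul_ne_zero (pow_ne_zero _ hD') h4
    have h6 : evN C f.lp ≠ evN C f.ln := by
      intro h7; rw [h7] at h5; simp at h5
    have h8 := quad (K * f.g) (evN C f.lp) (evN C f.ln) (evN C f.dp) (evN C f.dn) h6
    have h9 : ((evN C f.dp : ℝ) - evN C f.dn) / ((evN C f.lp : ℝ) - evN C f.ln) =
        1 / D * (aeval ((C : ℝ) / D) (derivative (pl f.l)) / aeval ((C : ℝ) / D) (pl f.l)) := by
      have h10 : ((evN C f.dp : ℝ) - evN C f.dn) = 1 / D * ((D : ℝ) ^ (f.l.length - 1) *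
          aeval ((C : ℝ) / D) (derivative (pl f.l))) := by
        rw [← h3]; field_simp
      rw [h10, h2]
      have h11 : (D : ℝ) ^ (f.l.length - 1) ≠ 0 := pow_ne_zero _ hD'
      field_simp
    rw [h9] at h8
    rw [qL_cons, qR_cons, List.map_cons, List.sum_cons, List.length_cons]
    rw [abs_le] at i2 h8 ⊢
    push_cast at h8 i2 ⊢
    have h12 : (K : ℝ) / D * (f.g * (aeval ((C : ℝ) / D) (derivative (pl f.l)) /
        aeval ((C : ℝ) / D) (pl f.l)) + (fs.map fun f => (f.g : ℝ) *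
        (aeval ((C : ℝ) / D) (derivative (pl f.l)) / aeval ((C : ℝ) / D) (pl f.l))).sum) =
        K * f.g * (1 / D * (aeval ((C : ℝ) / D) (derivative (pl f.l)) /
        aeval ((C : ℝ) / D) (pl f.l))) + K / D * (fs.map fun f => (f.g : ℝ) *
        (aeval ((C : ℝ) / D) (derivative (pl f.l)) / aeval ((C : ℝ) / D) (pl f.l))).sum := by ring
    rw [h12]
    constructor <;> linarith [i2.1, i2.2, h8.1, h8.2]

lemma qNeg_cons (C : ℕ) (f : Fac) (fs : List Fac) : qNeg C (f :: fs) =
    (1 - (1 - (evN C f.ln - evN C f.lp))) + qNeg C fs := rfl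

lemma qNeg_spec {D : ℕ} (hD : 0 < D) {C : ℕ} {fs : List Fac} (hfs : ∀ f ∈ fs, facOK D f = true)
    (h : ∀ f ∈ fs, aeval ((C : ℝ) / D) (pl f.l) ≠ 0) :
    0 < (-1 : ℝ) ^ qNeg C fs * (fs.map fun f => aeval ((C : ℝ) / D) (pl f.l)).prod := by
  have hD' : (0 : ℝ) < D := by exact_mod_cast hD
  induction fs with
  | nil => simp [qNeg]
  | cons f fs ih =>
    have i2 := ih (fun f' hf' => hfs f' (by simp [hf'])) fun f' hf' => h f' (by simp [hf'])
    obtain ⟨-, h2, -⟩ := fac_spec hD (hfs f (by simp)) C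
    have h4 := h f (by simp)
    have h5 : (0 : ℝ) < (D : ℝ) ^ (f.l.length - 1) := pow_pos hD' _
    rw [qNeg_cons, List.map_cons, List.prod_cons, pow_add]
    have h6 : 0 < (-1 : ℝ) ^ (1 - (1 - (evN C f.ln - evN C f.lp))) *
        aeval ((C : ℝ) / D) (pl f.l) := by
      rcases lt_trichotomy (evN C f.ln) (evN C f.lp) with h7 | h7 | h7
      · have h8 : 1 - (1 - (evN C f.ln - evN C f.lp)) = 0 := by omega
        rw [h8, pow_zero, one_mul]
        have h9 : (0 : ℝ) < (evN C f.lp : ℝ) - evN C f.ln := sub_pos.2 (by exact_mod_cast h7)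
        rw [h2] at h9
        exact pos_of_mul_pos_right (by linarith) h5.le
      · exfalso
        rw [h7, sub_self] at h2
        exact (mul_ne_zero h5.ne' h4) h2.symm
      · have h8 : 1 - (1 - (evN C f.ln - evN C f.lp)) = 1 := by omega
        rw [h8, pow_one]
        have h9 : (evN C f.lp : ℝ) - evN C f.ln < 0 := sub_neg.2 (by exact_mod_cast h7)
        rw [h2] at h9
        have h10 : aeval ((C : ℝ) / D) (pl f.l) < 0 := by
          by_contra hcon
          push Not at hcon
          have := mul_nonneg h5.le hcon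
          linarith
        linarith
    have h7 := mul_pos h6 i2
    refine lt_of_lt_of_eq h7 ?_
    ring

end Up

end IntCheb
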