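import Pool.Agent.Lib.MP_6205a3_nt.B66.UpLevel

/-!
# MP_6205a3_nt : common data of the upper bound certificate
-/

open Finset Polynomial

set_option autoImplicit false
set_option maxRecDepth 100000

namespace IntCheb

namespace Up

open Cert

/-- Common denominator. -/
def upD : ℕ := nat_lit 100000000

/-- Precision of the slopes. -/
def upK : ℕ := nat_lit 18446744073709551616

/-- Offset of the slopes. -/
def upT : ℕ := nat_lit 75557863725914323419136

/-- Multiplicity of `X`. -/
def upG0 : ℕ := nat_lit 5734

/-- Multiplicity of `1 - 4 X`. -/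
def upG1 : ℕ := nat_lit 979

/-- Factor 1. -/
def upF1 : Fac where
  g := nat_lit 626
  l := [-1, 5]
  lp := [nat_lit 0, nat_lit 5]
  ln := [nat_lit 100000000, nat_lit 0]
  dp := [nat_lit 5]
  dn := [nat_lit 0]

/-- Factor 2. -/
def upF2 : Fac where
  g := nat_lit 200
  l := [1, -11, 29]
  lp := [
    nat_lit 10000000000000000, nat_lit 0, nat_lit 29]
  ln := [
    nat_lit 0, nat_lit 1100000000, nat_lit 0]
  dp := [nat_lit 0, nat_lit 58]
  dn := [nat_lit 1100000000, nat_lit 0]

/-- Factor 3. -/
def upF3 : Fac where
  g := nat_lit 49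
  l := [-1, 17, -94, 169]
  lp := [
    nat_lit 0, nat_lit 170000000000000000, nat_lit 0, nat_lit 169]
  ln := [
    nat_lit 1000000000000000000000000, nat_lit 0, nat_lit 9400000000, nat_lit 0]
  dp := [
    nat_lit 170000000000000000, nat_lit 0, nat_lit 507]
  dn := [
    nat_lit 0, nat_lit 18800000000, nat_lit 0]

/-- Factor 4. -/
def upF4 : Fac where
  g := nat_lit 45
  l := [1, -23, 193, -703, 941]
  lp := [
    nat_lit 100000000000000000000000000000000, nat_lit 0, nat_lit 1930000000000000000, nat_lit 0,
    nat_lit 941]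
  ln := [
    nat_lit 0, nat_lit 23000000000000000000000000, nat_lit 0, nat_lit 70300000000, nat_lit 0]
  dp := [
    nat_lit 0, nat_lit 3860000000000000000, nat_lit 0, nat_lit 3764]
  dn := [
    nat_lit 23000000000000000000000000, nat_lit 0, nat_lit 210900000000, nat_lit 0]

/-- Factor 5. -/
def upF5 : Fac where
  g := nat_lit 19
  l := [1, -23, 194, -712, 961]
  lp := [
    nat_lit 100000000000000000000000000000000, nat_lit 0, nat_lit 1940000000000000000, nat_lit 0,
    nat_lit 961]
  ln := [
    nat_lit 0, nat_lit 23000000000000000000000000, nat_lit 0, nat_lit 71200000000, nat_lit 0]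
  dp := [
    nat_lit 0, nat_lit 3880000000000000000, nat_lit 0, nat_lit 3844]
  dn := [
    nat_lit 23000000000000000000000000, nat_lit 0, nat_lit 213600000000, nat_lit 0]

/-- Factor 6. -/
def upF6 : Fac where
  g := nat_lit 4
  l := [-1, 29, -330, 1845, -5075, 5501]
  lp := [
    nat_lit 0, nat_lit 2900000000000000000000000000000000, nat_lit 0,
    nat_lit 18450000000000000000, nat_lit 0, nat_lit 5501]
  ln := [
    nat_lit 10000000000000000000000000000000000000000, nat_lit 0,
    nat_lit 330000000000000000000000000, nat_lit 0, nat_lit 507500000000, nat_lit 0]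
  dp := [
    nat_lit 2900000000000000000000000000000000, nat_lit 0, nat_lit 55350000000000000000,
    nat_lit 0, nat_lit 27505]
  dn := [
    nat_lit 0, nat_lit 660000000000000000000000000, nat_lit 0, nat_lit 2030000000000, nat_lit 0]

/-- Factor 7. -/
def upF7 : Fac where
  g := nat_lit 11
  l := [-1, 6]
  lp := [nat_lit 0, nat_lit 6]
  ln := [nat_lit 100000000, nat_lit 0]
  dp := [nat_lit 6]
  dn := [nat_lit 0]

/-- The factors other than `X` and `1 - 4 X`. -/
def upF : List Fac := [upF1, upF2, upF3, upF4, upF5, upF6, upF7]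

lemma upF_ok : ∀ f ∈ upF, facOK upD f = true :=
  allB_spec (by decide +kernel : allB (facOK upD) upF = true)

lemma upF_lst : ∀ f ∈ upF, 0 < lst f.l := fun f hf =>
  of_decide_eq_true (allB_spec
    (by decide +kernel : allB (fun f => decide (0 < lst f.l)) upF = true) f hf)

end Up

end IntCheb
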