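import Pool.Agent.Lib.MP_6205a3_nt.B66.UpY13

/-!
# MP_6205a3_nt : checks of level 13 of the upper bound certificate
-/

open Finset Polynomial

set_option autoImplicit false
set_option maxRecDepth 100000

namespace IntCheb

namespace Up

open Cert

lemma upL13_0 : allB (loc upD upK upT (nat_lit 713) upC13 upG0 upG1 upF upY13)
    upS13_0 = true := by
  decide +kernel

lemma upL13_1 : allB (loc upD upK upT (nat_lit 713) upC13 upG0 upG1 upF upY13)
    upS13_1 = true := by
  decide +kernel

lemma upL13_2 : allB (loc upD upK upT (nat_lit 713) upC13 upG0 upG1 upF upY13)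
    upS13_2 = true := by
  decide +kernel

lemma upL13_3 : allB (loc upD upK upT (nat_lit 713) upC13 upG0 upG1 upF upY13)
    upS13_3 = true := by
  decide +kernel

lemma upL13_4 : allB (loc upD upK upT (nat_lit 713) upC13 upG0 upG1 upF upY13)
    upS13_4 = true := by
  decide +kernel

lemma upL13_5 : allB (loc upD upK upT (nat_lit 713) upC13 upG0 upG1 upF upY13)
    upS13_5 = true := by
  decide +kernel

lemma upL13_6 : allB (loc upD upK upT (nat_lit 713) upC13 upG0 upG1 upF upY13)
    upS13_6 = true := by
  decide +kernel

lemma upL13_7 : allB (loc upD upK upT (nat_lit 713) upC13 upG0 upG1 upF upY13)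
    upS13_7 = true := by
  decide +kernel

lemma upL13_8 : allB (loc upD upK upT (nat_lit 713) upC13 upG0 upG1 upF upY13)
    upS13_8 = true := by
  decide +kernel

lemma upL13_9 : allB (loc upD upK upT (nat_lit 713) upC13 upG0 upG1 upF upY13)
    upS13_9 = true := by
  decide +kernel

end Up

end IntCheb
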