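import Pool.Agent.Lib.MP_6205a3_nt.B66.UpData
import Pool.Agent.Lib.MP_6205a3_nt.B66.UpP13_0

/-!
# MP_6205a3_nt : level 11 of the upper bound certificate
-/

open Finset Polynomial

set_option autoImplicit false
set_option maxRecDepth 100000

namespace IntCheb

namespace Up

open Cert

/-- Zeros (times `upD`). -/
def upY11 : List ℕ := [
  nat_lit 12372077, nat_lit 12634589, nat_lit 12726268, nat_lit 12753173, nat_lit 12776469,
  nat_lit 12798028, nat_lit 12818515, nat_lit 12838257, nat_lit 12857441, nat_lit 12876186,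
  nat_lit 12894575, nat_lit 12912665, nat_lit 12930502, nat_lit 12948120, nat_lit 12965546,
  nat_lit 12982804, nat_lit 12999912, nat_lit 13016887, nat_lit 13033742, nat_lit 13050491,
  nat_lit 13067144, nat_lit 13083713, nat_lit 13100206, nat_lit 13116633, nat_lit 13133002,
  nat_lit 13149323, nat_lit 13165603, nat_lit 13181851, nat_lit 13198076, nat_lit 13214287,
  nat_lit 13230493, nat_lit 13246704, nat_lit 13262932, nat_lit 13279189, nat_lit 13295487,
  nat_lit 13311843, nat_lit 13328276, nat_lit 13344805, nat_lit 13361456, nat_lit 13378262,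
  nat_lit 13395259, nat_lit 13412501, nat_lit 13430052, nat_lit 13448006, nat_lit 13466498,
  nat_lit 13485739, nat_lit 13506089, nat_lit 13528281, nat_lit 13554344, nat_lit 14025539,
  nat_lit 14067495, nat_lit 14093157, nat_lit 14115978, nat_lit 14137461, nat_lit 14158209,
  nat_lit 14178549, nat_lit 14198703, nat_lit 14218840, nat_lit 14239112, nat_lit 14259673,
  nat_lit 14280696, nat_lit 14302405, nat_lit 14325122, nat_lit 14349366, nat_lit 14376154,
  nat_lit 14408232, nat_lit 15694101, nat_lit 15770250, nat_lit 15796197, nat_lit 15817932,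
  nat_lit 15837607, nat_lit 15856040, nat_lit 15873684, nat_lit 15890872, nat_lit 15907974,
  nat_lit 15925748, nat_lit 15980151, nat_lit 16010585, nat_lit 16155841, nat_lit 16197651,
  nat_lit 16213623, nat_lit 16227617, nat_lit 16240677, nat_lit 16253173, nat_lit 16265284,
  nat_lit 16277111, nat_lit 16288721, nat_lit 16300156, nat_lit 16311448, nat_lit 16322620,
  nat_lit 16333689, nat_lit 16344670, nat_lit 16355574, nat_lit 16366410, nat_lit 16377187,
  nat_lit 16387911, nat_lit 16398588, nat_lit 16409224, nat_lit 16419824, nat_lit 16430393,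
  nat_lit 16440936, nat_lit 16451456, nat_lit 16461959, nat_lit 16472449, nat_lit 16482933,
  nat_lit 16493417, nat_lit 16503907, nat_lit 16514412, nat_lit 16524943, nat_lit 16535515,
  nat_lit 16546145, nat_lit 16556863, nat_lit 16567709, nat_lit 16578749, nat_lit 16590107,
  nat_lit 16602040, nat_lit 16615309, nat_lit 16658971, nat_lit 16716805, nat_lit 16730128,
  nat_lit 16742124, nat_lit 16753557, nat_lit 16764691, nat_lit 16775650, nat_lit 16786504,
  nat_lit 16797301, nat_lit 16808074, nat_lit 16818848, nat_lit 16829646, nat_lit 16840491,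
  nat_lit 16851404, nat_lit 16862409, nat_lit 16873534, nat_lit 16884815, nat_lit 16896295,
  nat_lit 16908037, nat_lit 16920126, nat_lit 16932701, nat_lit 16945994, nat_lit 16960479,
  nat_lit 16977467, nat_lit 17167380, nat_lit 17282653, nat_lit 17299453, nat_lit 17313760,
  nat_lit 17326875, nat_lit 17339267, nat_lit 17351167, nat_lit 17362709, nat_lit 17373978,
  nat_lit 17385033, nat_lit 17395917, nat_lit 17406661, nat_lit 17417289, nat_lit 17427821,
  nat_lit 17438273, nat_lit 17448656, nat_lit 17458983, nat_lit 17469263, nat_lit 17479502,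
  nat_lit 17489710, nat_lit 17499891, nat_lit 17510053, nat_lit 17520199, nat_lit 17530335,
  nat_lit 17540467, nat_lit 17550598, nat_lit 17560733, nat_lit 17570876, nat_lit 17581033,
  nat_lit 17591207, nat_lit 17601404, nat_lit 17611629, nat_lit 17621888, nat_lit 17632186,
  nat_lit 17642531, nat_lit 17652929, nat_lit 17663391, nat_lit 17673925, nat_lit 17684543,
  nat_lit 17695260, nat_lit 17706092, nat_lit 17717060, nat_lit 17728190, nat_lit 17739516,
  nat_lit 17751084, nat_lit 17762956, nat_lit 17775225, nat_lit 17788034, nat_lit 17801629,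
  nat_lit 17816509, nat_lit 17834055, nat_lit 18187560, nat_lit 18246776, nat_lit 18262179,
  nat_lit 18276393, nat_lit 18290073, nat_lit 18303450, nat_lit 18316641, nat_lit 18329718,
  nat_lit 18342731, nat_lit 18355718, nat_lit 18368709, nat_lit 18381731, nat_lit 18394808,
  nat_lit 18407964, nat_lit 18421219, nat_lit 18434597, nat_lit 18448123, nat_lit 18461821,
  nat_lit 18475722, nat_lit 18489857, nat_lit 18504266, nat_lit 18518995, nat_lit 18534100,
  nat_lit 18549652, nat_lit 18565746, nat_lit 18582507, nat_lit 18600117, nat_lit 18618853,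
  nat_lit 18639183, nat_lit 18662034, nat_lit 18689927, nat_lit 20701203, nat_lit 21169474,
  nat_lit 21191594, nat_lit 21209670, nat_lit 21225726, nat_lit 21240509, nat_lit 21254403,
  nat_lit 21267639, nat_lit 21280373, nat_lit 21292723, nat_lit 21304782, nat_lit 21316640,
  nat_lit 21328387, nat_lit 21340132, nat_lit 21352040, nat_lit 21364410, nat_lit 21378052,
  nat_lit 21406979, nat_lit 21513437, nat_lit 21525083, nat_lit 21535220, nat_lit 21544642,
  nat_lit 21553631, nat_lit 21562322, nat_lit 21570793, nat_lit 21579091, nat_lit 21587251,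
  nat_lit 21595296, nat_lit 21603242, nat_lit 21611104, nat_lit 21618892, nat_lit 21626615,
  nat_lit 21634280, nat_lit 21641893, nat_lit 21649459, nat_lit 21656982, nat_lit 21664468,
  nat_lit 21671919, nat_lit 21679338, nat_lit 21686730, nat_lit 21694097, nat_lit 21701441,
  nat_lit 21708766, nat_lit 21716075, nat_lit 21723370, nat_lit 21730654, nat_lit 21737930,
  nat_lit 21745201, nat_lit 21752471, nat_lit 21759742, nat_lit 21767020, nat_lit 21774307,
  nat_lit 21781609, nat_lit 21788932, nat_lit 21796281, nat_lit 21803664, nat_lit 21811089,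
  nat_lit 21818568, nat_lit 21826113, nat_lit 21833741, nat_lit 21841474, nat_lit 21849339,
  nat_lit 21857377, nat_lit 21865646, nat_lit 21874238, nat_lit 21883309, nat_lit 21893177,
  nat_lit 21904731, nat_lit 22103747, nat_lit 22116646, nat_lit 22126506, nat_lit 22135398,
  nat_lit 22143749, nat_lit 22151745, nat_lit 22159490, nat_lit 22167048, nat_lit 22174461,
  nat_lit 22181761, nat_lit 22188971, nat_lit 22196111, nat_lit 22203194, nat_lit 22210235,
  nat_lit 22217247, nat_lit 22224242, nat_lit 22231236, nat_lit 22238249, nat_lit 22245314,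
  nat_lit 22252501, nat_lit 22260010, nat_lit 22269869, nat_lit 22296071, nat_lit 22303776,
  nat_lit 22311090, nat_lit 22318274, nat_lit 22325412, nat_lit 22332543, nat_lit 22339688,
  nat_lit 22346863, nat_lit 22354081, nat_lit 22361352, nat_lit 22368689, nat_lit 22376102,
  nat_lit 22383605, nat_lit 22391213, nat_lit 22398942, nat_lit 22406814, nat_lit 22414855,
  nat_lit 22423097, nat_lit 22431584, nat_lit 22440376, nat_lit 22449558, nat_lit 22459261,
  nat_lit 22469709, nat_lit 22481347, nat_lit 22495391, nat_lit 22601225, nat_lit 23122870,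
  nat_lit 23135199, nat_lit 23145351, nat_lit 23154416, nat_lit 23162794, nat_lit 23170685,
  nat_lit 23178209, nat_lit 23185441, nat_lit 23192435, nat_lit 23199230, nat_lit 23205855,
  nat_lit 23212334, nat_lit 23218684, nat_lit 23224920, nat_lit 23231055, nat_lit 23237098,
  nat_lit 23243059, nat_lit 23248945, nat_lit 23254762, nat_lit 23260516, nat_lit 23266212,
  nat_lit 23271855, nat_lit 23277448, nat_lit 23282994, nat_lit 23288498, nat_lit 23293962,
  nat_lit 23299388, nat_lit 23304779, nat_lit 23310137, nat_lit 23315464, nat_lit 23320762,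
  nat_lit 23326033, nat_lit 23331279, nat_lit 23336501, nat_lit 23341700, nat_lit 23346877,
  nat_lit 23352035, nat_lit 23357175, nat_lit 23362297, nat_lit 23367403, nat_lit 23372494,
  nat_lit 23377570, nat_lit 23382634, nat_lit 23387686, nat_lit 23392728, nat_lit 23397759,
  nat_lit 23402782, nat_lit 23407798, nat_lit 23412807, nat_lit 23417810, nat_lit 23422810,
  nat_lit 23427806, nat_lit 23432800, nat_lit 23437794, nat_lit 23442789, nat_lit 23447786,
  nat_lit 23452787, nat_lit 23457794, nat_lit 23462808, nat_lit 23467832, nat_lit 23472868,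
  nat_lit 23477918, nat_lit 23482986, nat_lit 23488074, nat_lit 23493187, nat_lit 23498329,
  nat_lit 23503506, nat_lit 23508724, nat_lit 23513991, nat_lit 23519316, nat_lit 23524712,
  nat_lit 23530194, nat_lit 23535785, nat_lit 23541513, nat_lit 23547423, nat_lit 23553580,
  nat_lit 23560103, nat_lit 23567226, nat_lit 23575604, nat_lit 23643822, nat_lit 23903307,
  nat_lit 23913095, nat_lit 23922522, nat_lit 23964828, nat_lit 23997996, nat_lit 24006853,
  nat_lit 24013177, nat_lit 24018915, nat_lit 24024352, nat_lit 24029600, nat_lit 24034719,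
  nat_lit 24039744, nat_lit 24044697, nat_lit 24049594, nat_lit 24054448, nat_lit 24059266,
  nat_lit 24064056, nat_lit 24068823, nat_lit 24073572, nat_lit 24078306, nat_lit 24083029,
  nat_lit 24087743, nat_lit 24092452, nat_lit 24097157, nat_lit 24101860, nat_lit 24106564,
  nat_lit 24111270, nat_lit 24115980, nat_lit 24120695, nat_lit 24125418, nat_lit 24130150,
  nat_lit 24134892, nat_lit 24139648, nat_lit 24144418, nat_lit 24149205, nat_lit 24154013,
  nat_lit 24158844, nat_lit 24163703, nat_lit 24168595, nat_lit 24173531, nat_lit 24178524,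
  nat_lit 24183603, nat_lit 24188829, nat_lit 24194404, nat_lit 24211898, nat_lit 24220622,
  nat_lit 24226414, nat_lit 24231954, nat_lit 24237430, nat_lit 24242904, nat_lit 24248404,
  nat_lit 24253949, nat_lit 24259554, nat_lit 24265230, nat_lit 24270988, nat_lit 24276842,
  nat_lit 24282805, nat_lit 24288893, nat_lit 24295126, nat_lit 24301526, nat_lit 24308125,
  nat_lit 24314961, nat_lit 24322088, nat_lit 24329582, nat_lit 24337563, nat_lit 24346229,
  nat_lit 24355977, nat_lit 24367882]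

/-- Numerator of the bound. -/
def upC11 : ℕ := Nat.mul (nat_lit 1777251614622942847) (Nat.pow (nat_lit 2) (nat_lit 207292))

/-- Test points. -/
def upS11_0 : List (ℕ × ℕ × ℕ × ℕ) := [
  (nat_lit 11440082, nat_lit 11440082, nat_lit 2, nat_lit 0),
  (nat_lit 11647244, nat_lit 692081, nat_lit 3, nat_lit 0),
  (nat_lit 12339325, nat_lit 692081, nat_lit 2, nat_lit 1),
  (nat_lit 12403208, nat_lit 227791, nat_lit 2, nat_lit 0),
  (nat_lit 12630999, nat_lit 227791, nat_lit 3, nat_lit 1),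
  (nat_lit 12709157, nat_lit 78158, nat_lit 3, nat_lit 1),
  (nat_lit 12740409, nat_lit 31252, nat_lit 3, nat_lit 1),
  (nat_lit 12765106, nat_lit 24697, nat_lit 3, nat_lit 1),
  (nat_lit 12787412, nat_lit 22306, nat_lit 3, nat_lit 1),
  (nat_lit 12808380, nat_lit 20968, nat_lit 3, nat_lit 1),
  (nat_lit 12828465, nat_lit 20085, nat_lit 3, nat_lit 1),
  (nat_lit 12847910, nat_lit 19445, nat_lit 3, nat_lit 1),
  (nat_lit 12866863, nat_lit 18953, nat_lit 3, nat_lit 1),
  (nat_lit 12885421, nat_lit 18558, nat_lit 3, nat_lit 1),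
  (nat_lit 12903654, nat_lit 18233, nat_lit 3, nat_lit 1),
  (nat_lit 12921613, nat_lit 17959, nat_lit 3, nat_lit 1),
  (nat_lit 12939336, nat_lit 17723, nat_lit 3, nat_lit 1),
  (nat_lit 12956855, nat_lit 17519, nat_lit 3, nat_lit 1),
  (nat_lit 12974195, nat_lit 17340, nat_lit 3, nat_lit 1),
  (nat_lit 12991376, nat_lit 17181, nat_lit 3, nat_lit 1),
  (nat_lit 13008415, nat_lit 17039, nat_lit 3, nat_lit 1),
  (nat_lit 13025329, nat_lit 16914, nat_lit 3, nat_lit 1),
  (nat_lit 13042129, nat_lit 16800, nat_lit 3, nat_lit 1),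
  (nat_lit 13058829, nat_lit 16700, nat_lit 3, nat_lit 1),
  (nat_lit 13075439, nat_lit 16610, nat_lit 3, nat_lit 1),
  (nat_lit 13091968, nat_lit 16529, nat_lit 3, nat_lit 1),
  (nat_lit 13108427, nat_lit 16459, nat_lit 3, nat_lit 1),
  (nat_lit 13124824, nat_lit 16397, nat_lit 3, nat_lit 1),
  (nat_lit 13141168, nat_lit 16344, nat_lit 3, nat_lit 1),
  (nat_lit 13157468, nat_lit 16300, nat_lit 3, nat_lit 1),
  (nat_lit 13173730, nat_lit 16262, nat_lit 3, nat_lit 1),
  (nat_lit 13189966, nat_lit 16236, nat_lit 3, nat_lit 1),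
  (nat_lit 13206183, nat_lit 16217, nat_lit 3, nat_lit 1),
  (nat_lit 13222390, nat_lit 16207, nat_lit 3, nat_lit 1),
  (nat_lit 13238597, nat_lit 16218, nat_lit 3, nat_lit 1),
  (nat_lit 13254815, nat_lit 16241, nat_lit 3, nat_lit 1),
  (nat_lit 13271056, nat_lit 16276, nat_lit 3, nat_lit 1),
  (nat_lit 13287332, nat_lit 16325, nat_lit 3, nat_lit 1),
  (nat_lit 13303657, nat_lit 16392, nat_lit 3, nat_lit 1),
  (nat_lit 13320049, nat_lit 16478, nat_lit 3, nat_lit 1),
  (nat_lit 13336527, nat_lit 16586, nat_lit 3, nat_lit 1),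
  (nat_lit 13353113, nat_lit 16725, nat_lit 3, nat_lit 1),
  (nat_lit 13369838, nat_lit 16896, nat_lit 3, nat_lit 1),
  (nat_lit 13386734, nat_lit 17112, nat_lit 3, nat_lit 1),
  (nat_lit 13403846, nat_lit 17387, nat_lit 3, nat_lit 1),
  (nat_lit 13421233, nat_lit 17738, nat_lit 3, nat_lit 1),
  (nat_lit 13438971, nat_lit 18203, nat_lit 3, nat_lit 1),
  (nat_lit 13457174, nat_lit 18833, nat_lit 3, nat_lit 1),
  (nat_lit 13476007, nat_lit 19736, nat_lit 3, nat_lit 1),
  (nat_lit 13495743, nat_lit 21138, nat_lit 3, nat_lit 1),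
  (nat_lit 13516881, nat_lit 23692, nat_lit 3, nat_lit 1),
  (nat_lit 13540573, nat_lit 30722, nat_lit 3, nat_lit 1),
  (nat_lit 13571295, nat_lit 442841, nat_lit 3, nat_lit 0),
  (nat_lit 14014136, nat_lit 442841, nat_lit 2, nat_lit 1)]

lemma upL11_0 : allB (loc upD upK upT (nat_lit 503) upC11 upG0 upG1 upF upY11)
    upS11_0 = true := by
  decide +kernel

/-- Test points. -/
def upS11_1 : List (ℕ × ℕ × ℕ × ℕ) := [
  (nat_lit 14051968, nat_lit 37832, nat_lit 2, nat_lit 1),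
  (nat_lit 14080862, nat_lit 28894, nat_lit 2, nat_lit 1),
  (nat_lit 14104792, nat_lit 23930, nat_lit 2, nat_lit 1),
  (nat_lit 14126840, nat_lit 22048, nat_lit 2, nat_lit 1),
  (nat_lit 14147903, nat_lit 21063, nat_lit 2, nat_lit 1),
  (nat_lit 14168414, nat_lit 20511, nat_lit 2, nat_lit 1),
  (nat_lit 14188638, nat_lit 20224, nat_lit 2, nat_lit 1),
  (nat_lit 14208764, nat_lit 20186, nat_lit 2, nat_lit 1),
  (nat_lit 14228950, nat_lit 20396, nat_lit 2, nat_lit 1),
  (nat_lit 14249346, nat_lit 20768, nat_lit 2, nat_lit 1),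
  (nat_lit 14270114, nat_lit 21334, nat_lit 2, nat_lit 1),
  (nat_lit 14291448, nat_lit 22164, nat_lit 2, nat_lit 1),
  (nat_lit 14313612, nat_lit 23395, nat_lit 2, nat_lit 1),
  (nat_lit 14337007, nat_lit 25334, nat_lit 2, nat_lit 1),
  (nat_lit 14362341, nat_lit 28847, nat_lit 2, nat_lit 1),
  (nat_lit 14391188, nat_lit 38365, nat_lit 2, nat_lit 1),
  (nat_lit 14429553, nat_lit 1257374, nat_lit 2, nat_lit 0),
  (nat_lit 15686927, nat_lit 1257374, nat_lit 5, nat_lit 1),
  (nat_lit 15753164, nat_lit 66237, nat_lit 3, nat_lit 1),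
  (nat_lit 15784016, nat_lit 30852, nat_lit 3, nat_lit 1),
  (nat_lit 15807402, nat_lit 23386, nat_lit 3, nat_lit 1),
  (nat_lit 15827963, nat_lit 20561, nat_lit 3, nat_lit 1),
  (nat_lit 15846946, nat_lit 18983, nat_lit 3, nat_lit 1),
  (nat_lit 15864939, nat_lit 17993, nat_lit 3, nat_lit 1),
  (nat_lit 15882315, nat_lit 17376, nat_lit 3, nat_lit 1),
  (nat_lit 15899404, nat_lit 17281, nat_lit 3, nat_lit 1),
  (nat_lit 15916685, nat_lit 19097, nat_lit 3, nat_lit 1),
  (nat_lit 15935782, nat_lit 40415, nat_lit 3, nat_lit 0),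
  (nat_lit 15976197, nat_lit 40415, nat_lit 2, nat_lit 1),
  (nat_lit 15998740, nat_lit 24602, nat_lit 2, nat_lit 1),
  (nat_lit 16023342, nat_lit 129362, nat_lit 2, nat_lit 0),
  (nat_lit 16152704, nat_lit 129362, nat_lit 3, nat_lit 1),
  (nat_lit 16187638, nat_lit 34934, nat_lit 3, nat_lit 1),
  (nat_lit 16206017, nat_lit 18379, nat_lit 3, nat_lit 1),
  (nat_lit 16220774, nat_lit 14757, nat_lit 3, nat_lit 1),
  (nat_lit 16234234, nat_lit 13460, nat_lit 3, nat_lit 1),
  (nat_lit 16246982, nat_lit 12748, nat_lit 3, nat_lit 1),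
  (nat_lit 16259269, nat_lit 12287, nat_lit 3, nat_lit 1),
  (nat_lit 16271228, nat_lit 11959, nat_lit 3, nat_lit 1),
  (nat_lit 16282940, nat_lit 11712, nat_lit 3, nat_lit 1),
  (nat_lit 16294458, nat_lit 11518, nat_lit 3, nat_lit 1),
  (nat_lit 16305818, nat_lit 11360, nat_lit 3, nat_lit 1),
  (nat_lit 16317048, nat_lit 11230, nat_lit 3, nat_lit 1),
  (nat_lit 16328166, nat_lit 11118, nat_lit 3, nat_lit 1),
  (nat_lit 16339190, nat_lit 11024, nat_lit 3, nat_lit 1),
  (nat_lit 16350131, nat_lit 10941, nat_lit 3, nat_lit 1),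
  (nat_lit 16361000, nat_lit 10869, nat_lit 3, nat_lit 1),
  (nat_lit 16371806, nat_lit 10806, nat_lit 3, nat_lit 1),
  (nat_lit 16382555, nat_lit 10749, nat_lit 3, nat_lit 1),
  (nat_lit 16393255, nat_lit 10700, nat_lit 3, nat_lit 1),
  (nat_lit 16403911, nat_lit 10656, nat_lit 3, nat_lit 1),
  (nat_lit 16414528, nat_lit 10617, nat_lit 3, nat_lit 1),
  (nat_lit 16425112, nat_lit 10584, nat_lit 3, nat_lit 1),
  (nat_lit 16435668, nat_lit 10556, nat_lit 3, nat_lit 1)]

lemma upL11_1 : allB (loc upD upK upT (nat_lit 503) upC11 upG0 upG1 upF upY11)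
    upS11_1 = true := by
  decide +kernel

/-- Test points. -/
def upS11_2 : List (ℕ × ℕ × ℕ × ℕ) := [
  (nat_lit 16446198, nat_lit 10530, nat_lit 3, nat_lit 1),
  (nat_lit 16456709, nat_lit 10511, nat_lit 3, nat_lit 1),
  (nat_lit 16467205, nat_lit 10496, nat_lit 3, nat_lit 1),
  (nat_lit 16477692, nat_lit 10487, nat_lit 3, nat_lit 1),
  (nat_lit 16488175, nat_lit 10486, nat_lit 3, nat_lit 1),
  (nat_lit 16498661, nat_lit 10496, nat_lit 3, nat_lit 1),
  (nat_lit 16509157, nat_lit 10516, nat_lit 3, nat_lit 1),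
  (nat_lit 16519673, nat_lit 10550, nat_lit 3, nat_lit 1),
  (nat_lit 16530223, nat_lit 10598, nat_lit 3, nat_lit 1),
  (nat_lit 16540821, nat_lit 10670, nat_lit 3, nat_lit 1),
  (nat_lit 16551491, nat_lit 10776, nat_lit 3, nat_lit 1),
  (nat_lit 16562267, nat_lit 10932, nat_lit 3, nat_lit 1),
  (nat_lit 16573199, nat_lit 11178, nat_lit 3, nat_lit 1),
  (nat_lit 16584377, nat_lit 11598, nat_lit 3, nat_lit 1),
  (nat_lit 16595975, nat_lit 12434, nat_lit 3, nat_lit 1),
  (nat_lit 16608409, nat_lit 15001, nat_lit 3, nat_lit 1),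
  (nat_lit 16623410, nat_lit 36212, nat_lit 3, nat_lit 1),
  (nat_lit 16659622, nat_lit 49055, nat_lit 3, nat_lit 0),
  (nat_lit 16708677, nat_lit 49055, nat_lit 2, nat_lit 1),
  (nat_lit 16723731, nat_lit 15054, nat_lit 2, nat_lit 1),
  (nat_lit 16736223, nat_lit 12492, nat_lit 2, nat_lit 1),
  (nat_lit 16747889, nat_lit 11666, nat_lit 2, nat_lit 1),
  (nat_lit 16759152, nat_lit 11263, nat_lit 2, nat_lit 1),
  (nat_lit 16770187, nat_lit 11035, nat_lit 2, nat_lit 1),
  (nat_lit 16781087, nat_lit 10900, nat_lit 2, nat_lit 1),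
  (nat_lit 16791908, nat_lit 10821, nat_lit 2, nat_lit 1),
  (nat_lit 16802689, nat_lit 10781, nat_lit 2, nat_lit 1),
  (nat_lit 16813459, nat_lit 10784, nat_lit 2, nat_lit 1),
  (nat_lit 16824243, nat_lit 10818, nat_lit 2, nat_lit 1),
  (nat_lit 16835061, nat_lit 10877, nat_lit 2, nat_lit 1),
  (nat_lit 16845938, nat_lit 10955, nat_lit 2, nat_lit 1),
  (nat_lit 16856893, nat_lit 11061, nat_lit 2, nat_lit 1),
  (nat_lit 16867954, nat_lit 11199, nat_lit 2, nat_lit 1),
  (nat_lit 16879153, nat_lit 11374, nat_lit 2, nat_lit 1),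
  (nat_lit 16890527, nat_lit 11602, nat_lit 2, nat_lit 1),
  (nat_lit 16902129, nat_lit 11902, nat_lit 2, nat_lit 1),
  (nat_lit 16914031, nat_lit 12311, nat_lit 2, nat_lit 1),
  (nat_lit 16926342, nat_lit 12895, nat_lit 2, nat_lit 1),
  (nat_lit 16939237, nat_lit 13803, nat_lit 2, nat_lit 1),
  (nat_lit 16953040, nat_lit 15454, nat_lit 2, nat_lit 1),
  (nat_lit 16968494, nat_lit 20006, nat_lit 2, nat_lit 1),
  (nat_lit 16988500, nat_lit 178027, nat_lit 2, nat_lit 0),
  (nat_lit 17166527, nat_lit 178027, nat_lit 13, nat_lit 1),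
  (nat_lit 17271733, nat_lit 105206, nat_lit 3, nat_lit 1),
  (nat_lit 17291529, nat_lit 19796, nat_lit 3, nat_lit 1),
  (nat_lit 17306803, nat_lit 15274, nat_lit 3, nat_lit 1),
  (nat_lit 17320429, nat_lit 13626, nat_lit 3, nat_lit 1),
  (nat_lit 17333144, nat_lit 12715, nat_lit 3, nat_lit 1),
  (nat_lit 17345269, nat_lit 12125, nat_lit 3, nat_lit 1),
  (nat_lit 17356977, nat_lit 11708, nat_lit 3, nat_lit 1),
  (nat_lit 17368373, nat_lit 11396, nat_lit 3, nat_lit 1),
  (nat_lit 17379529, nat_lit 11156, nat_lit 3, nat_lit 1),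
  (nat_lit 17390494, nat_lit 10965, nat_lit 3, nat_lit 1),
  (nat_lit 17401305, nat_lit 10811, nat_lit 3, nat_lit 1)]

lemma upL11_2 : allB (loc upD upK upT (nat_lit 503) upC11 upG0 upG1 upF upY11)
    upS11_2 = true := by
  decide +kernel

/-- Test points. -/
def upS11_3 : List (ℕ × ℕ × ℕ × ℕ) := [
  (nat_lit 17411988, nat_lit 10683, nat_lit 3, nat_lit 1),
  (nat_lit 17422566, nat_lit 10578, nat_lit 3, nat_lit 1),
  (nat_lit 17433056, nat_lit 10490, nat_lit 3, nat_lit 1),
  (nat_lit 17443472, nat_lit 10416, nat_lit 3, nat_lit 1),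
  (nat_lit 17453826, nat_lit 10354, nat_lit 3, nat_lit 1),
  (nat_lit 17464128, nat_lit 10302, nat_lit 3, nat_lit 1),
  (nat_lit 17474387, nat_lit 10259, nat_lit 3, nat_lit 1),
  (nat_lit 17484610, nat_lit 10223, nat_lit 3, nat_lit 1),
  (nat_lit 17494803, nat_lit 10193, nat_lit 3, nat_lit 1),
  (nat_lit 17504974, nat_lit 10171, nat_lit 3, nat_lit 1),
  (nat_lit 17515127, nat_lit 10153, nat_lit 3, nat_lit 1),
  (nat_lit 17525268, nat_lit 10141, nat_lit 3, nat_lit 1),
  (nat_lit 17535401, nat_lit 10133, nat_lit 3, nat_lit 1),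
  (nat_lit 17545532, nat_lit 10133, nat_lit 3, nat_lit 1),
  (nat_lit 17555665, nat_lit 10138, nat_lit 3, nat_lit 1),
  (nat_lit 17565803, nat_lit 10150, nat_lit 3, nat_lit 1),
  (nat_lit 17575953, nat_lit 10164, nat_lit 3, nat_lit 1),
  (nat_lit 17586117, nat_lit 10185, nat_lit 3, nat_lit 1),
  (nat_lit 17596302, nat_lit 10211, nat_lit 3, nat_lit 1),
  (nat_lit 17606513, nat_lit 10241, nat_lit 3, nat_lit 1),
  (nat_lit 17616754, nat_lit 10278, nat_lit 3, nat_lit 1),
  (nat_lit 17627032, nat_lit 10320, nat_lit 3, nat_lit 1),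
  (nat_lit 17637352, nat_lit 10371, nat_lit 3, nat_lit 1),
  (nat_lit 17647723, nat_lit 10429, nat_lit 3, nat_lit 1),
  (nat_lit 17658152, nat_lit 10496, nat_lit 3, nat_lit 1),
  (nat_lit 17668648, nat_lit 10575, nat_lit 3, nat_lit 1),
  (nat_lit 17679223, nat_lit 10665, nat_lit 3, nat_lit 1),
  (nat_lit 17689888, nat_lit 10772, nat_lit 3, nat_lit 1),
  (nat_lit 17700660, nat_lit 10897, nat_lit 3, nat_lit 1),
  (nat_lit 17711557, nat_lit 11046, nat_lit 3, nat_lit 1),
  (nat_lit 17722603, nat_lit 11223, nat_lit 3, nat_lit 1),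
  (nat_lit 17733826, nat_lit 11440, nat_lit 3, nat_lit 1),
  (nat_lit 17745266, nat_lit 11711, nat_lit 3, nat_lit 1),
  (nat_lit 17756977, nat_lit 12057, nat_lit 3, nat_lit 1),
  (nat_lit 17769034, nat_lit 12516, nat_lit 3, nat_lit 1),
  (nat_lit 17781550, nat_lit 13161, nat_lit 3, nat_lit 1),
  (nat_lit 17794711, nat_lit 14147, nat_lit 3, nat_lit 1),
  (nat_lit 17808858, nat_lit 15916, nat_lit 3, nat_lit 1),
  (nat_lit 17824774, nat_lit 20733, nat_lit 3, nat_lit 1),
  (nat_lit 17845507, nat_lit 323118, nat_lit 3, nat_lit 0),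
  (nat_lit 18168625, nat_lit 323118, nat_lit 2, nat_lit 1),
  (nat_lit 18194233, nat_lit 43565, nat_lit 2, nat_lit 0),
  (nat_lit 18237798, nat_lit 43565, nat_lit 3, nat_lit 1),
  (nat_lit 18254710, nat_lit 16912, nat_lit 3, nat_lit 1),
  (nat_lit 18269376, nat_lit 14666, nat_lit 3, nat_lit 1),
  (nat_lit 18283281, nat_lit 13905, nat_lit 3, nat_lit 1),
  (nat_lit 18296791, nat_lit 13510, nat_lit 3, nat_lit 1),
  (nat_lit 18310064, nat_lit 13273, nat_lit 3, nat_lit 1),
  (nat_lit 18323190, nat_lit 13126, nat_lit 3, nat_lit 1),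
  (nat_lit 18336230, nat_lit 13040, nat_lit 3, nat_lit 1),
  (nat_lit 18349226, nat_lit 12996, nat_lit 3, nat_lit 1),
  (nat_lit 18362211, nat_lit 13004, nat_lit 3, nat_lit 1),
  (nat_lit 18375215, nat_lit 13046, nat_lit 3, nat_lit 1),
  (nat_lit 18388261, nat_lit 13114, nat_lit 3, nat_lit 1)]

lemma upL11_3 : allB (loc upD upK upT (nat_lit 503) upC11 upG0 upG1 upF upY11)
    upS11_3 = true := by
  decide +kernel

/-- Test points. -/
def upS11_4 : List (ℕ × ℕ × ℕ × ℕ) := [
  (nat_lit 18401375, nat_lit 13202, nat_lit 3, nat_lit 1),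
  (nat_lit 18414577, nat_lit 13314, nat_lit 3, nat_lit 1),
  (nat_lit 18427891, nat_lit 13449, nat_lit 3, nat_lit 1),
  (nat_lit 18441340, nat_lit 13609, nat_lit 3, nat_lit 1),
  (nat_lit 18454949, nat_lit 13795, nat_lit 3, nat_lit 1),
  (nat_lit 18468744, nat_lit 14014, nat_lit 3, nat_lit 1),
  (nat_lit 18482758, nat_lit 14267, nat_lit 3, nat_lit 1),
  (nat_lit 18497025, nat_lit 14562, nat_lit 3, nat_lit 1),
  (nat_lit 18511587, nat_lit 14909, nat_lit 3, nat_lit 1),
  (nat_lit 18526496, nat_lit 15319, nat_lit 3, nat_lit 1),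
  (nat_lit 18541815, nat_lit 15809, nat_lit 3, nat_lit 1),
  (nat_lit 18557624, nat_lit 16409, nat_lit 3, nat_lit 1),
  (nat_lit 18574033, nat_lit 17159, nat_lit 3, nat_lit 1),
  (nat_lit 18591192, nat_lit 18129, nat_lit 3, nat_lit 1),
  (nat_lit 18609321, nat_lit 19456, nat_lit 3, nat_lit 1),
  (nat_lit 18628777, nat_lit 21424, nat_lit 3, nat_lit 1),
  (nat_lit 18650201, nat_lit 24834, nat_lit 3, nat_lit 1),
  (nat_lit 18675035, nat_lit 33748, nat_lit 3, nat_lit 1),
  (nat_lit 18708783, nat_lit 1991065, nat_lit 3, nat_lit 0),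
  (nat_lit 20699848, nat_lit 1991065, nat_lit 26, nat_lit 1),
  (nat_lit 21154478, nat_lit 454630, nat_lit 2, nat_lit 1),
  (nat_lit 21181292, nat_lit 26814, nat_lit 2, nat_lit 1),
  (nat_lit 21200959, nat_lit 19667, nat_lit 2, nat_lit 1),
  (nat_lit 21217891, nat_lit 16932, nat_lit 2, nat_lit 1),
  (nat_lit 21233248, nat_lit 15357, nat_lit 2, nat_lit 1),
  (nat_lit 21247550, nat_lit 14302, nat_lit 2, nat_lit 1),
  (nat_lit 21261092, nat_lit 13542, nat_lit 2, nat_lit 1),
  (nat_lit 21274061, nat_lit 12969, nat_lit 2, nat_lit 1),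
  (nat_lit 21286590, nat_lit 12529, nat_lit 2, nat_lit 1),
  (nat_lit 21298783, nat_lit 12193, nat_lit 2, nat_lit 1),
  (nat_lit 21310731, nat_lit 11948, nat_lit 2, nat_lit 1),
  (nat_lit 21322521, nat_lit 11790, nat_lit 2, nat_lit 1),
  (nat_lit 21334251, nat_lit 11801, nat_lit 2, nat_lit 1),
  (nat_lit 21346052, nat_lit 12085, nat_lit 2, nat_lit 1),
  (nat_lit 21358137, nat_lit 12834, nat_lit 2, nat_lit 1),
  (nat_lit 21370971, nat_lit 15354, nat_lit 2, nat_lit 1),
  (nat_lit 21386325, nat_lit 23838, nat_lit 2, nat_lit 1),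
  (nat_lit 21410163, nat_lit 95900, nat_lit 2, nat_lit 0),
  (nat_lit 21506063, nat_lit 95900, nat_lit 3, nat_lit 1),
  (nat_lit 21519550, nat_lit 13487, nat_lit 3, nat_lit 1),
  (nat_lit 21530269, nat_lit 10719, nat_lit 3, nat_lit 1),
  (nat_lit 21539997, nat_lit 9728, nat_lit 3, nat_lit 1),
  (nat_lit 21549180, nat_lit 9183, nat_lit 3, nat_lit 1),
  (nat_lit 21558008, nat_lit 8828, nat_lit 3, nat_lit 1),
  (nat_lit 21566582, nat_lit 8574, nat_lit 3, nat_lit 1),
  (nat_lit 21574961, nat_lit 8379, nat_lit 3, nat_lit 1),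
  (nat_lit 21583187, nat_lit 8226, nat_lit 3, nat_lit 1),
  (nat_lit 21591287, nat_lit 8100, nat_lit 3, nat_lit 1),
  (nat_lit 21599280, nat_lit 7993, nat_lit 3, nat_lit 1),
  (nat_lit 21607183, nat_lit 7903, nat_lit 3, nat_lit 1),
  (nat_lit 21615007, nat_lit 7824, nat_lit 3, nat_lit 1),
  (nat_lit 21622761, nat_lit 7754, nat_lit 3, nat_lit 1),
  (nat_lit 21630454, nat_lit 7693, nat_lit 3, nat_lit 1),
  (nat_lit 21638093, nat_lit 7639, nat_lit 3, nat_lit 1)]

lemma upL11_4 : allB (loc upD upK upT (nat_lit 503) upC11 upG0 upG1 upF upY11)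
    upS11_4 = true := by
  decide +kernel

/-- Test points. -/
def upS11_5 : List (ℕ × ℕ × ℕ × ℕ) := [
  (nat_lit 21645682, nat_lit 7589, nat_lit 3, nat_lit 1),
  (nat_lit 21653226, nat_lit 7544, nat_lit 3, nat_lit 1),
  (nat_lit 21660730, nat_lit 7504, nat_lit 3, nat_lit 1),
  (nat_lit 21668198, nat_lit 7468, nat_lit 3, nat_lit 1),
  (nat_lit 21675632, nat_lit 7434, nat_lit 3, nat_lit 1),
  (nat_lit 21683037, nat_lit 7405, nat_lit 3, nat_lit 1),
  (nat_lit 21690416, nat_lit 7379, nat_lit 3, nat_lit 1),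
  (nat_lit 21697772, nat_lit 7356, nat_lit 3, nat_lit 1),
  (nat_lit 21705106, nat_lit 7334, nat_lit 3, nat_lit 1),
  (nat_lit 21712422, nat_lit 7316, nat_lit 3, nat_lit 1),
  (nat_lit 21719724, nat_lit 7302, nat_lit 3, nat_lit 1),
  (nat_lit 21727013, nat_lit 7289, nat_lit 3, nat_lit 1),
  (nat_lit 21734293, nat_lit 7280, nat_lit 3, nat_lit 1),
  (nat_lit 21741566, nat_lit 7273, nat_lit 3, nat_lit 1),
  (nat_lit 21748836, nat_lit 7270, nat_lit 3, nat_lit 1),
  (nat_lit 21756106, nat_lit 7274, nat_lit 3, nat_lit 1),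
  (nat_lit 21763380, nat_lit 7282, nat_lit 3, nat_lit 1),
  (nat_lit 21770662, nat_lit 7294, nat_lit 3, nat_lit 1),
  (nat_lit 21777956, nat_lit 7312, nat_lit 3, nat_lit 1),
  (nat_lit 21785268, nat_lit 7335, nat_lit 3, nat_lit 1),
  (nat_lit 21792603, nat_lit 7365, nat_lit 3, nat_lit 1),
  (nat_lit 21799968, nat_lit 7403, nat_lit 3, nat_lit 1),
  (nat_lit 21807371, nat_lit 7450, nat_lit 3, nat_lit 1),
  (nat_lit 21814821, nat_lit 7510, nat_lit 3, nat_lit 1),
  (nat_lit 21822331, nat_lit 7584, nat_lit 3, nat_lit 1),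
  (nat_lit 21829915, nat_lit 7678, nat_lit 3, nat_lit 1),
  (nat_lit 21837593, nat_lit 7795, nat_lit 3, nat_lit 1),
  (nat_lit 21845388, nat_lit 7945, nat_lit 3, nat_lit 1),
  (nat_lit 21853333, nat_lit 8145, nat_lit 3, nat_lit 1),
  (nat_lit 21861478, nat_lit 8416, nat_lit 3, nat_lit 1),
  (nat_lit 21869894, nat_lit 8805, nat_lit 3, nat_lit 1),
  (nat_lit 21878699, nat_lit 9412, nat_lit 3, nat_lit 1),
  (nat_lit 21888111, nat_lit 10520, nat_lit 3, nat_lit 1),
  (nat_lit 21898631, nat_lit 13589, nat_lit 3, nat_lit 1),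
  (nat_lit 21912220, nat_lit 185216, nat_lit 3, nat_lit 0),
  (nat_lit 22097436, nat_lit 185216, nat_lit 2, nat_lit 1),
  (nat_lit 22110971, nat_lit 13535, nat_lit 2, nat_lit 1),
  (nat_lit 22121745, nat_lit 10774, nat_lit 2, nat_lit 1),
  (nat_lit 22131037, nat_lit 9292, nat_lit 2, nat_lit 1),
  (nat_lit 22139627, nat_lit 8590, nat_lit 2, nat_lit 1),
  (nat_lit 22147784, nat_lit 8157, nat_lit 2, nat_lit 1),
  (nat_lit 22155644, nat_lit 7860, nat_lit 2, nat_lit 1),
  (nat_lit 22163289, nat_lit 7645, nat_lit 2, nat_lit 1),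
  (nat_lit 22170770, nat_lit 7481, nat_lit 2, nat_lit 1),
  (nat_lit 22178124, nat_lit 7354, nat_lit 2, nat_lit 1),
  (nat_lit 22185376, nat_lit 7252, nat_lit 2, nat_lit 1),
  (nat_lit 22192549, nat_lit 7173, nat_lit 2, nat_lit 1),
  (nat_lit 22199659, nat_lit 7110, nat_lit 2, nat_lit 1),
  (nat_lit 22206719, nat_lit 7060, nat_lit 2, nat_lit 1),
  (nat_lit 22213744, nat_lit 7025, nat_lit 2, nat_lit 1),
  (nat_lit 22220746, nat_lit 7002, nat_lit 2, nat_lit 1),
  (nat_lit 22227738, nat_lit 7000, nat_lit 2, nat_lit 1),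
  (nat_lit 22234738, nat_lit 7034, nat_lit 2, nat_lit 1),
  (nat_lit 22241772, nat_lit 7113, nat_lit 2, nat_lit 1)]

lemma upL11_5 : allB (loc upD upK upT (nat_lit 503) upC11 upG0 upG1 upF upY11)
    upS11_5 = true := by
  decide +kernel

/-- Test points. -/
def upS11_6 : List (ℕ × ℕ × ℕ × ℕ) := [
  (nat_lit 22248885, nat_lit 7304, nat_lit 2, nat_lit 1),
  (nat_lit 22256189, nat_lit 7948, nat_lit 2, nat_lit 1),
  (nat_lit 22264137, nat_lit 8297, nat_lit 2, nat_lit 1),
  (nat_lit 22272434, nat_lit 19276, nat_lit 2, nat_lit 0),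
  (nat_lit 22291710, nat_lit 19276, nat_lit 3, nat_lit 1),
  (nat_lit 22300008, nat_lit 8298, nat_lit 3, nat_lit 1),
  (nat_lit 22307458, nat_lit 7450, nat_lit 3, nat_lit 1),
  (nat_lit 22314691, nat_lit 7233, nat_lit 3, nat_lit 1),
  (nat_lit 22321846, nat_lit 7155, nat_lit 3, nat_lit 1),
  (nat_lit 22328977, nat_lit 7136, nat_lit 3, nat_lit 1),
  (nat_lit 22336113, nat_lit 7158, nat_lit 3, nat_lit 1),
  (nat_lit 22343271, nat_lit 7195, nat_lit 3, nat_lit 1),
  (nat_lit 22350466, nat_lit 7243, nat_lit 3, nat_lit 1),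
  (nat_lit 22357709, nat_lit 7303, nat_lit 3, nat_lit 1),
  (nat_lit 22365012, nat_lit 7373, nat_lit 3, nat_lit 1),
  (nat_lit 22372385, nat_lit 7456, nat_lit 3, nat_lit 1),
  (nat_lit 22379841, nat_lit 7554, nat_lit 3, nat_lit 1),
  (nat_lit 22387395, nat_lit 7666, nat_lit 3, nat_lit 1),
  (nat_lit 22395061, nat_lit 7798, nat_lit 3, nat_lit 1),
  (nat_lit 22402859, nat_lit 7953, nat_lit 3, nat_lit 1),
  (nat_lit 22410812, nat_lit 8136, nat_lit 3, nat_lit 1),
  (nat_lit 22418948, nat_lit 8359, nat_lit 3, nat_lit 1),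
  (nat_lit 22427307, nat_lit 8630, nat_lit 3, nat_lit 1),
  (nat_lit 22435937, nat_lit 8974, nat_lit 3, nat_lit 1),
  (nat_lit 22444911, nat_lit 9422, nat_lit 3, nat_lit 1),
  (nat_lit 22454333, nat_lit 10039, nat_lit 3, nat_lit 1),
  (nat_lit 22464372, nat_lit 10963, nat_lit 3, nat_lit 1),
  (nat_lit 22475335, nat_lit 12581, nat_lit 3, nat_lit 1),
  (nat_lit 22487916, nat_lit 16862, nat_lit 3, nat_lit 1),
  (nat_lit 22504778, nat_lit 98041, nat_lit 3, nat_lit 1),
  (nat_lit 22602819, nat_lit 511761, nat_lit 9, nat_lit 0),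
  (nat_lit 23114580, nat_lit 511761, nat_lit 2, nat_lit 1),
  (nat_lit 23129443, nat_lit 14863, nat_lit 2, nat_lit 1),
  (nat_lit 23140451, nat_lit 11008, nat_lit 2, nat_lit 1),
  (nat_lit 23149987, nat_lit 9536, nat_lit 2, nat_lit 1),
  (nat_lit 23158676, nat_lit 8689, nat_lit 2, nat_lit 1),
  (nat_lit 23166792, nat_lit 8116, nat_lit 2, nat_lit 1),
  (nat_lit 23174488, nat_lit 7696, nat_lit 2, nat_lit 1),
  (nat_lit 23181858, nat_lit 7370, nat_lit 2, nat_lit 1),
  (nat_lit 23188965, nat_lit 7107, nat_lit 2, nat_lit 1),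
  (nat_lit 23195855, nat_lit 6890, nat_lit 2, nat_lit 1),
  (nat_lit 23202562, nat_lit 6707, nat_lit 2, nat_lit 1),
  (nat_lit 23209112, nat_lit 6550, nat_lit 2, nat_lit 1),
  (nat_lit 23215524, nat_lit 6412, nat_lit 2, nat_lit 1),
  (nat_lit 23221815, nat_lit 6291, nat_lit 2, nat_lit 1),
  (nat_lit 23227999, nat_lit 6184, nat_lit 2, nat_lit 1),
  (nat_lit 23234087, nat_lit 6088, nat_lit 2, nat_lit 1),
  (nat_lit 23240088, nat_lit 6001, nat_lit 2, nat_lit 1),
  (nat_lit 23246011, nat_lit 5923, nat_lit 2, nat_lit 1),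
  (nat_lit 23251862, nat_lit 5851, nat_lit 2, nat_lit 1),
  (nat_lit 23257647, nat_lit 5785, nat_lit 2, nat_lit 1),
  (nat_lit 23263371, nat_lit 5724, nat_lit 2, nat_lit 1),
  (nat_lit 23269040, nat_lit 5669, nat_lit 2, nat_lit 1),
  (nat_lit 23274657, nat_lit 5617, nat_lit 2, nat_lit 1)]

lemma upL11_6 : allB (loc upD upK upT (nat_lit 503) upC11 upG0 upG1 upF upY11)
    upS11_6 = true := by
  decide +kernel

/-- Test points. -/
def upS11_7 : List (ℕ × ℕ × ℕ × ℕ) := [
  (nat_lit 23280227, nat_lit 5570, nat_lit 2, nat_lit 1),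
  (nat_lit 23285751, nat_lit 5524, nat_lit 2, nat_lit 1),
  (nat_lit 23291235, nat_lit 5484, nat_lit 2, nat_lit 1),
  (nat_lit 23296679, nat_lit 5444, nat_lit 2, nat_lit 1),
  (nat_lit 23302088, nat_lit 5409, nat_lit 2, nat_lit 1),
  (nat_lit 23307462, nat_lit 5374, nat_lit 2, nat_lit 1),
  (nat_lit 23312804, nat_lit 5342, nat_lit 2, nat_lit 1),
  (nat_lit 23318117, nat_lit 5313, nat_lit 2, nat_lit 1),
  (nat_lit 23323401, nat_lit 5284, nat_lit 2, nat_lit 1),
  (nat_lit 23328659, nat_lit 5258, nat_lit 2, nat_lit 1),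
  (nat_lit 23333893, nat_lit 5234, nat_lit 2, nat_lit 1),
  (nat_lit 23339103, nat_lit 5210, nat_lit 2, nat_lit 1),
  (nat_lit 23344291, nat_lit 5188, nat_lit 2, nat_lit 1),
  (nat_lit 23349459, nat_lit 5168, nat_lit 2, nat_lit 1),
  (nat_lit 23354607, nat_lit 5148, nat_lit 2, nat_lit 1),
  (nat_lit 23359738, nat_lit 5131, nat_lit 2, nat_lit 1),
  (nat_lit 23364852, nat_lit 5114, nat_lit 2, nat_lit 1),
  (nat_lit 23369950, nat_lit 5098, nat_lit 2, nat_lit 1),
  (nat_lit 23375034, nat_lit 5084, nat_lit 2, nat_lit 1),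
  (nat_lit 23380104, nat_lit 5070, nat_lit 2, nat_lit 1),
  (nat_lit 23385161, nat_lit 5057, nat_lit 2, nat_lit 1),
  (nat_lit 23390208, nat_lit 5047, nat_lit 2, nat_lit 1),
  (nat_lit 23395245, nat_lit 5037, nat_lit 2, nat_lit 1),
  (nat_lit 23400272, nat_lit 5027, nat_lit 2, nat_lit 1),
  (nat_lit 23405291, nat_lit 5019, nat_lit 2, nat_lit 1),
  (nat_lit 23410303, nat_lit 5012, nat_lit 2, nat_lit 1),
  (nat_lit 23415309, nat_lit 5006, nat_lit 2, nat_lit 1),
  (nat_lit 23420310, nat_lit 5001, nat_lit 2, nat_lit 1),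
  (nat_lit 23425308, nat_lit 4998, nat_lit 2, nat_lit 1),
  (nat_lit 23430303, nat_lit 4995, nat_lit 2, nat_lit 1),
  (nat_lit 23435297, nat_lit 4994, nat_lit 2, nat_lit 1),
  (nat_lit 23440291, nat_lit 4996, nat_lit 2, nat_lit 1),
  (nat_lit 23445287, nat_lit 4999, nat_lit 2, nat_lit 1),
  (nat_lit 23450286, nat_lit 5004, nat_lit 2, nat_lit 1),
  (nat_lit 23455290, nat_lit 5010, nat_lit 2, nat_lit 1),
  (nat_lit 23460300, nat_lit 5019, nat_lit 2, nat_lit 1),
  (nat_lit 23465319, nat_lit 5029, nat_lit 2, nat_lit 1),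
  (nat_lit 23470348, nat_lit 5043, nat_lit 2, nat_lit 1),
  (nat_lit 23475391, nat_lit 5059, nat_lit 2, nat_lit 1),
  (nat_lit 23480450, nat_lit 5077, nat_lit 2, nat_lit 1),
  (nat_lit 23485527, nat_lit 5100, nat_lit 2, nat_lit 1),
  (nat_lit 23490627, nat_lit 5127, nat_lit 2, nat_lit 1),
  (nat_lit 23495754, nat_lit 5159, nat_lit 2, nat_lit 1),
  (nat_lit 23500913, nat_lit 5196, nat_lit 2, nat_lit 1),
  (nat_lit 23506109, nat_lit 5242, nat_lit 2, nat_lit 1),
  (nat_lit 23511351, nat_lit 5294, nat_lit 2, nat_lit 1),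
  (nat_lit 23516645, nat_lit 5359, nat_lit 2, nat_lit 1),
  (nat_lit 23522004, nat_lit 5437, nat_lit 2, nat_lit 1),
  (nat_lit 23527441, nat_lit 5533, nat_lit 2, nat_lit 1),
  (nat_lit 23532974, nat_lit 5656, nat_lit 2, nat_lit 1),
  (nat_lit 23538630, nat_lit 5812, nat_lit 2, nat_lit 1),
  (nat_lit 23544442, nat_lit 6023, nat_lit 2, nat_lit 1),
  (nat_lit 23550465, nat_lit 6320, nat_lit 2, nat_lit 1),
  (nat_lit 23556785, nat_lit 6781, nat_lit 2, nat_lit 1)]

lemma upL11_7 : allB (loc upD upK upT (nat_lit 503) upC11 upG0 upG1 upF upY11)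
    upS11_7 = true := by
  decide +kernel

/-- Test points. -/
def upS11_8 : List (ℕ × ℕ × ℕ × ℕ) := [
  (nat_lit 23563566, nat_lit 7610, nat_lit 2, nat_lit 1),
  (nat_lit 23571176, nat_lit 9882, nat_lit 2, nat_lit 1),
  (nat_lit 23581058, nat_lit 62966, nat_lit 2, nat_lit 1),
  (nat_lit 23644024, nat_lit 91027, nat_lit 68, nat_lit 0),
  (nat_lit 23735051, nat_lit 162205, nat_lit 3, nat_lit 0),
  (nat_lit 23897256, nat_lit 162205, nat_lit 2, nat_lit 1),
  (nat_lit 23908380, nat_lit 11124, nat_lit 2, nat_lit 1),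
  (nat_lit 23917725, nat_lit 10272, nat_lit 2, nat_lit 1),
  (nat_lit 23927997, nat_lit 36794, nat_lit 2, nat_lit 0),
  (nat_lit 23964791, nat_lit 36794, nat_lit 2781, nat_lit 1),
  (nat_lit 23994743, nat_lit 29952, nat_lit 3, nat_lit 1),
  (nat_lit 24003179, nat_lit 8436, nat_lit 3, nat_lit 1),
  (nat_lit 24010122, nat_lit 6943, nat_lit 3, nat_lit 1),
  (nat_lit 24016095, nat_lit 5973, nat_lit 3, nat_lit 1),
  (nat_lit 24021662, nat_lit 5567, nat_lit 3, nat_lit 1),
  (nat_lit 24026995, nat_lit 5333, nat_lit 3, nat_lit 1),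
  (nat_lit 24032173, nat_lit 5178, nat_lit 3, nat_lit 1),
  (nat_lit 24037242, nat_lit 5069, nat_lit 3, nat_lit 1),
  (nat_lit 24042228, nat_lit 4986, nat_lit 3, nat_lit 1),
  (nat_lit 24047152, nat_lit 4924, nat_lit 3, nat_lit 1),
  (nat_lit 24052026, nat_lit 4874, nat_lit 3, nat_lit 1),
  (nat_lit 24056861, nat_lit 4835, nat_lit 3, nat_lit 1),
  (nat_lit 24061664, nat_lit 4803, nat_lit 3, nat_lit 1),
  (nat_lit 24066442, nat_lit 4778, nat_lit 3, nat_lit 1),
  (nat_lit 24071199, nat_lit 4757, nat_lit 3, nat_lit 1),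
  (nat_lit 24075941, nat_lit 4742, nat_lit 3, nat_lit 1),
  (nat_lit 24080669, nat_lit 4728, nat_lit 3, nat_lit 1),
  (nat_lit 24085387, nat_lit 4718, nat_lit 3, nat_lit 1),
  (nat_lit 24090098, nat_lit 4711, nat_lit 3, nat_lit 1),
  (nat_lit 24094805, nat_lit 4707, nat_lit 3, nat_lit 1),
  (nat_lit 24099509, nat_lit 4704, nat_lit 3, nat_lit 1),
  (nat_lit 24104212, nat_lit 4705, nat_lit 3, nat_lit 1),
  (nat_lit 24108917, nat_lit 4707, nat_lit 3, nat_lit 1),
  (nat_lit 24113624, nat_lit 4713, nat_lit 3, nat_lit 1),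
  (nat_lit 24118337, nat_lit 4719, nat_lit 3, nat_lit 1),
  (nat_lit 24123056, nat_lit 4727, nat_lit 3, nat_lit 1),
  (nat_lit 24127783, nat_lit 4737, nat_lit 3, nat_lit 1),
  (nat_lit 24132520, nat_lit 4748, nat_lit 3, nat_lit 1),
  (nat_lit 24137268, nat_lit 4763, nat_lit 3, nat_lit 1),
  (nat_lit 24142031, nat_lit 4778, nat_lit 3, nat_lit 1),
  (nat_lit 24146809, nat_lit 4797, nat_lit 3, nat_lit 1),
  (nat_lit 24151606, nat_lit 4819, nat_lit 3, nat_lit 1),
  (nat_lit 24156425, nat_lit 4845, nat_lit 3, nat_lit 1),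
  (nat_lit 24161270, nat_lit 4874, nat_lit 3, nat_lit 1),
  (nat_lit 24166144, nat_lit 4913, nat_lit 3, nat_lit 1),
  (nat_lit 24171057, nat_lit 4962, nat_lit 3, nat_lit 1),
  (nat_lit 24176019, nat_lit 5031, nat_lit 3, nat_lit 1),
  (nat_lit 24181050, nat_lit 5141, nat_lit 3, nat_lit 1),
  (nat_lit 24186191, nat_lit 5355, nat_lit 3, nat_lit 1),
  (nat_lit 24191546, nat_lit 6051, nat_lit 3, nat_lit 1),
  (nat_lit 24197597, nat_lit 13017, nat_lit 3, nat_lit 0),
  (nat_lit 24210614, nat_lit 13017, nat_lit 2, nat_lit 1),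
  (nat_lit 24217386, nat_lit 6772, nat_lit 2, nat_lit 1),
  (nat_lit 24223574, nat_lit 6188, nat_lit 2, nat_lit 1)]

lemma upL11_8 : allB (loc upD upK upT (nat_lit 503) upC11 upG0 upG1 upF upY11)
    upS11_8 = true := by
  decide +kernel

/-- Test points. -/
def upS11_9 : List (ℕ × ℕ × ℕ × ℕ) := [
  (nat_lit 24229198, nat_lit 5624, nat_lit 2, nat_lit 1),
  (nat_lit 24234695, nat_lit 5497, nat_lit 2, nat_lit 1),
  (nat_lit 24240165, nat_lit 5484, nat_lit 2, nat_lit 1),
  (nat_lit 24245649, nat_lit 5521, nat_lit 2, nat_lit 1),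
  (nat_lit 24251170, nat_lit 5573, nat_lit 2, nat_lit 1),
  (nat_lit 24256743, nat_lit 5639, nat_lit 2, nat_lit 1),
  (nat_lit 24262382, nat_lit 5716, nat_lit 2, nat_lit 1),
  (nat_lit 24268098, nat_lit 5804, nat_lit 2, nat_lit 1),
  (nat_lit 24273902, nat_lit 5907, nat_lit 2, nat_lit 1),
  (nat_lit 24279809, nat_lit 6023, nat_lit 2, nat_lit 1),
  (nat_lit 24285832, nat_lit 6158, nat_lit 2, nat_lit 1),
  (nat_lit 24291990, nat_lit 6313, nat_lit 2, nat_lit 1),
  (nat_lit 24298303, nat_lit 6496, nat_lit 2, nat_lit 1),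
  (nat_lit 24304799, nat_lit 6711, nat_lit 2, nat_lit 1),
  (nat_lit 24311510, nat_lit 6974, nat_lit 2, nat_lit 1),
  (nat_lit 24318484, nat_lit 7299, nat_lit 2, nat_lit 1),
  (nat_lit 24325783, nat_lit 7719, nat_lit 2, nat_lit 1),
  (nat_lit 24333502, nat_lit 8291, nat_lit 2, nat_lit 1),
  (nat_lit 24341793, nat_lit 9135, nat_lit 2, nat_lit 1),
  (nat_lit 24350928, nat_lit 10597, nat_lit 2, nat_lit 1),
  (nat_lit 24361525, nat_lit 14409, nat_lit 2, nat_lit 1),
  (nat_lit 24375934, nat_lit 624066, nat_lit 2, nat_lit 0)]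

lemma upL11_9 : allB (loc upD upK upT (nat_lit 503) upC11 upG0 upG1 upF upY11)
    upS11_9 = true := by
  decide +kernel

/-- All the test points. -/
def upS11 : List (ℕ × ℕ × ℕ × ℕ) :=
  upS11_0 ++ (upS11_1 ++ (upS11_2 ++ (upS11_3 ++ (upS11_4 ++ (upS11_5 ++ (upS11_6 ++ (upS11_7
  ++ (upS11_8 ++ (upS11_9)))))))))

lemma upLoc11 : ∀ e ∈ upS11, loc upD upK upT (nat_lit 503) upC11 upG0 upG1 upF upY11 e = true := by
  unfold upS11
  refine List.forall_mem_append.2 ⟨allB_spec upL11_0, ?_⟩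
  refine List.forall_mem_append.2 ⟨allB_spec upL11_1, ?_⟩
  refine List.forall_mem_append.2 ⟨allB_spec upL11_2, ?_⟩
  refine List.forall_mem_append.2 ⟨allB_spec upL11_3, ?_⟩
  refine List.forall_mem_append.2 ⟨allB_spec upL11_4, ?_⟩
  refine List.forall_mem_append.2 ⟨allB_spec upL11_5, ?_⟩
  refine List.forall_mem_append.2 ⟨allB_spec upL11_6, ?_⟩
  refine List.forall_mem_append.2 ⟨allB_spec upL11_7, ?_⟩
  refine List.forall_mem_append.2 ⟨allB_spec upL11_8, ?_⟩
  exact allB_spec upL11_9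

theorem upB11 : ∀ t ∈ Set.Icc (0 : ℝ) (1 / 4), |(Bp upD upY11).eval t *
    aeval t (wp upG0 upG1 upF)| ≤ upC11 / (upD : ℝ) ^ (upG0 + upG1 + dgF upF + upY11.length) :=
  level_bound (K := upK) (T := upT) (cnt := nat_lit 503) (cs := upS11) (by decide +kernel)
    (by decide +kernel) upF_ok (by decide +kernel) (by decide +kernel) (by decide +kernel)
    (by decide +kernel) (by decide +kernel) (by decide +kernel) upLoc11

theorem upA11 : AOK upD 32 17850625 100000000 (upG0 + upG1 + dgF upF) upC11 293367 upY11.length := by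
  decide +kernel

end Up

end IntCheb
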