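import Pool.Agent.Lib.MP_6205a3_nt.B66.UpY14
import Pool.Agent.Lib.MP_6205a3_nt.B66.UpL11

/-!
# MP_6205a3_nt : checks of level 14 of the upper bound certificate
-/

open Finset Polynomial

set_option autoImplicit false
set_option maxRecDepth 100000

namespace IntCheb

namespace Up

open Cert

lemma upL14_0 : allB (loc upD upK upT (nat_lit 835) upC14 upG0 upG1 upF upY14)
    upS14_0 = true := by
  decide +kernel

lemma upL14_1 : allB (loc upD upK upT (nat_lit 835) upC14 upG0 upG1 upF upY14)
    upS14_1 = true := by
  decide +kernel

lemma upL14_2 : allB (loc upD upK upT (nat_lit 835) upC14 upG0 upG1 upF upY14)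
    upS14_2 = true := by
  decide +kernel

lemma upL14_3 : allB (loc upD upK upT (nat_lit 835) upC14 upG0 upG1 upF upY14)
    upS14_3 = true := by
  decide +kernel

lemma upL14_4 : allB (loc upD upK upT (nat_lit 835) upC14 upG0 upG1 upF upY14)
    upS14_4 = true := by
  decide +kernel

lemma upL14_5 : allB (loc upD upK upT (nat_lit 835) upC14 upG0 upG1 upF upY14)
    upS14_5 = true := by
  decide +kernel

lemma upL14_6 : allB (loc upD upK upT (nat_lit 835) upC14 upG0 upG1 upF upY14)
    upS14_6 = true := by
  decide +kernel

lemma upL14_7 : allB (loc upD upK upT (nat_lit 835) upC14 upG0 upG1 upF upY14)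
    upS14_7 = true := by
  decide +kernel

lemma upL14_8 : allB (loc upD upK upT (nat_lit 835) upC14 upG0 upG1 upF upY14)
    upS14_8 = true := by
  decide +kernel

end Up

end IntCheb
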