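import Pool.Agent.Lib.MP_6205a3_nt.B66.UpY15
import Pool.Agent.Lib.MP_6205a3_nt.B66.UpP14_0

/-!
# MP_6205a3_nt : checks of level 15 of the upper bound certificate
-/

open Finset Polynomial

set_option autoImplicit false
set_option maxRecDepth 100000

namespace IntCheb

namespace Up

open Cert

lemma upL15_9 : allB (loc upD upK upT (nat_lit 968) upC15 upG0 upG1 upF upY15)
    upS15_9 = true := by
  decide +kernel

lemma upL15_10 : allB (loc upD upK upT (nat_lit 968) upC15 upG0 upG1 upF upY15)
    upS15_10 = true := by
  decide +kernel

lemma upL15_11 : allB (loc upD upK upT (nat_lit 968) upC15 upG0 upG1 upF upY15)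
    upS15_11 = true := by
  decide +kernel

lemma upL15_12 : allB (loc upD upK upT (nat_lit 968) upC15 upG0 upG1 upF upY15)
    upS15_12 = true := by
  decide +kernel

lemma upL15_13 : allB (loc upD upK upT (nat_lit 968) upC15 upG0 upG1 upF upY15)
    upS15_13 = true := by
  decide +kernel

lemma upL15_14 : allB (loc upD upK upT (nat_lit 968) upC15 upG0 upG1 upF upY15)
    upS15_14 = true := by
  decide +kernel

lemma upL15_15 : allB (loc upD upK upT (nat_lit 968) upC15 upG0 upG1 upF upY15)
    upS15_15 = true := by
  decide +kernel

lemma upL15_16 : allB (loc upD upK upT (nat_lit 968) upC15 upG0 upG1 upF upY15)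
    upS15_16 = true := by
  decide +kernel

lemma upL15_17 : allB (loc upD upK upT (nat_lit 968) upC15 upG0 upG1 upF upY15)
    upS15_17 = true := by
  decide +kernel

end Up

end IntCheb
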