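import Pool.Agent.Lib.MP_6205a3_nt.B66.UpY14
import Pool.Agent.Lib.MP_6205a3_nt.B66.UpP15_1

/-!
# MP_6205a3_nt : checks of level 14 of the upper bound certificate
-/

open Finset Polynomial

set_option autoImplicit false
set_option maxRecDepth 100000

namespace IntCheb

namespace Up

open Cert

lemma upL14_18 : allB (loc upD upK upT (nat_lit 835) upC14 upG0 upG1 upF upY14)
    upS14_18 = true := by
  decide +kernel

lemma upL14_19 : allB (loc upD upK upT (nat_lit 835) upC14 upG0 upG1 upF upY14)
    upS14_19 = true := by
  decide +kernel

lemma upL14_20 : allB (loc upD upK upT (nat_lit 835) upC14 upG0 upG1 upF upY14)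
    upS14_20 = true := by
  decide +kernel

lemma upL14_21 : allB (loc upD upK upT (nat_lit 835) upC14 upG0 upG1 upF upY14)
    upS14_21 = true := by
  decide +kernel

lemma upL14_22 : allB (loc upD upK upT (nat_lit 835) upC14 upG0 upG1 upF upY14)
    upS14_22 = true := by
  decide +kernel

lemma upL14_23 : allB (loc upD upK upT (nat_lit 835) upC14 upG0 upG1 upF upY14)
    upS14_23 = true := by
  decide +kernel

lemma upL14_24 : allB (loc upD upK upT (nat_lit 835) upC14 upG0 upG1 upF upY14)
    upS14_24 = true := by
  decide +kernel

end Up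

end IntCheb
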