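import Pool.Agent.Lib.MP_6205a3_nt.B66.UpY12
import Pool.Agent.Lib.MP_6205a3_nt.B66.UpP14_2

/-!
# MP_6205a3_nt : checks of level 12 of the upper bound certificate
-/

open Finset Polynomial

set_option autoImplicit false
set_option maxRecDepth 100000

namespace IntCheb

namespace Up

open Cert

lemma upL12_7 : allB (loc upD upK upT (nat_lit 603) upC12 upG0 upG1 upF upY12)
    upS12_7 = true := by
  decide +kernel

lemma upL12_8 : allB (loc upD upK upT (nat_lit 603) upC12 upG0 upG1 upF upY12)
    upS12_8 = true := by
  decide +kernel

lemma upL12_9 : allB (loc upD upK upT (nat_lit 603) upC12 upG0 upG1 upF upY12)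
    upS12_9 = true := by
  decide +kernel

lemma upL12_10 : allB (loc upD upK upT (nat_lit 603) upC12 upG0 upG1 upF upY12)
    upS12_10 = true := by
  decide +kernel

lemma upL12_11 : allB (loc upD upK upT (nat_lit 603) upC12 upG0 upG1 upF upY12)
    upS12_11 = true := by
  decide +kernel

lemma upL12_12 : allB (loc upD upK upT (nat_lit 603) upC12 upG0 upG1 upF upY12)
    upS12_12 = true := by
  decide +kernel

lemma upL12_13 : allB (loc upD upK upT (nat_lit 603) upC12 upG0 upG1 upF upY12)
    upS12_13 = true := by
  decide +kernel

end Up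

end IntCheb
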