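import Pool.Agent.Lib.MP_6205a3_nt.B66.UpData
import Pool.Agent.Lib.MP_6205a3_nt.B66.UpP12_1

/-!
# MP_6205a3_nt : level 8 of the upper bound certificate
-/

open Finset Polynomial

set_option autoImplicit false
set_option maxRecDepth 100000

namespace IntCheb

namespace Up

open Cert

/-- Zeros (times `upD`). -/
def upY8 : List ℕ := [
  nat_lit 13306438, nat_lit 16224859, nat_lit 16246181, nat_lit 16264604, nat_lit 16281638,
  nat_lit 16297820, nat_lit 16313413, nat_lit 16328570, nat_lit 16343387, nat_lit 16357932,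
  nat_lit 16372253, nat_lit 16386389, nat_lit 16400368, nat_lit 16414215, nat_lit 16427952,
  nat_lit 16441596, nat_lit 16455168, nat_lit 16468682, nat_lit 16482159, nat_lit 16495618,
  nat_lit 16509083, nat_lit 16522586, nat_lit 16536168, nat_lit 16549891, nat_lit 16563863,
  nat_lit 16578285, nat_lit 16593676, nat_lit 16613268, nat_lit 16726406, nat_lit 16742962,
  nat_lit 16757968, nat_lit 16772357, nat_lit 16786459, nat_lit 16800438, nat_lit 16814403,
  nat_lit 16828438, nat_lit 16842624, nat_lit 16857050, nat_lit 16871833, nat_lit 16887141,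
  nat_lit 16903256, nat_lit 16920736, nat_lit 16941119, nat_lit 17015552, nat_lit 17310380,
  nat_lit 17330625, nat_lit 17347892, nat_lit 17363744, nat_lit 17378744, nat_lit 17393171,
  nat_lit 17407189, nat_lit 17420901, nat_lit 17434379, nat_lit 17447677, nat_lit 17460834,
  nat_lit 17473882, nat_lit 17486848, nat_lit 17499754, nat_lit 17512618, nat_lit 17525458,
  nat_lit 17538291, nat_lit 17551132, nat_lit 17563996, nat_lit 17576898, nat_lit 17589857,
  nat_lit 17602889, nat_lit 17616014, nat_lit 17629257, nat_lit 17642644, nat_lit 17656209,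
  nat_lit 17669996, nat_lit 17684060, nat_lit 17698477, nat_lit 17713358, nat_lit 17728873,
  nat_lit 17745312, nat_lit 17763260, nat_lit 17784324, nat_lit 17850952, nat_lit 18283657,
  nat_lit 18308801, nat_lit 18331523, nat_lit 18353393, nat_lit 18375049, nat_lit 18396902,
  nat_lit 18419312, nat_lit 18442697, nat_lit 18467666, nat_lit 18495345, nat_lit 18528702,
  nat_lit 19092710, nat_lit 21281400, nat_lit 21308093, nat_lit 21331223, nat_lit 21354319,
  nat_lit 21489100, nat_lit 21535572, nat_lit 21549961, nat_lit 21562429, nat_lit 21573974,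
  nat_lit 21584948, nat_lit 21595527, nat_lit 21605809, nat_lit 21615859, nat_lit 21625722,
  nat_lit 21635430, nat_lit 21645007, nat_lit 21654473, nat_lit 21663843, nat_lit 21673131,
  nat_lit 21682349, nat_lit 21691508, nat_lit 21700616, nat_lit 21709682, nat_lit 21718716,
  nat_lit 21727726, nat_lit 21736721, nat_lit 21745710, nat_lit 21754703, nat_lit 21763711,
  nat_lit 21772746, nat_lit 21781824, nat_lit 21790962, nat_lit 21800182, nat_lit 21809511,
  nat_lit 21818986, nat_lit 21828659, nat_lit 21838605, nat_lit 21848944, nat_lit 21859892,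
  nat_lit 21871925, nat_lit 21887060, nat_lit 22004271, nat_lit 22126066, nat_lit 22139307,
  nat_lit 22150602, nat_lit 22160975, nat_lit 22170799, nat_lit 22180258, nat_lit 22189462,
  nat_lit 22198483, nat_lit 22207374, nat_lit 22216177, nat_lit 22224931, nat_lit 22233681,
  nat_lit 22242484, nat_lit 22251456, nat_lit 22260934, nat_lit 22292820, nat_lit 22305630,
  nat_lit 22315194, nat_lit 22324409, nat_lit 22333554, nat_lit 22342733, nat_lit 22352007,
  nat_lit 22361425, nat_lit 22371035, nat_lit 22380896, nat_lit 22391078, nat_lit 22401683,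
  nat_lit 22412864, nat_lit 22424876, nat_lit 22438228, nat_lit 22454308, nat_lit 22585941,
  nat_lit 23158633, nat_lit 23172472, nat_lit 23183875, nat_lit 23194065, nat_lit 23203488,
  nat_lit 23212370, nat_lit 23220844, nat_lit 23228995, nat_lit 23236884, nat_lit 23244554,
  nat_lit 23252039, nat_lit 23259363, nat_lit 23266548, nat_lit 23273611, nat_lit 23280565,
  nat_lit 23287423, nat_lit 23294193, nat_lit 23300886, nat_lit 23307508, nat_lit 23314065,
  nat_lit 23320565, nat_lit 23327013, nat_lit 23333412, nat_lit 23339768, nat_lit 23346084,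
  nat_lit 23352365, nat_lit 23358614, nat_lit 23364834, nat_lit 23371028, nat_lit 23377200,
  nat_lit 23383352, nat_lit 23389488, nat_lit 23395611, nat_lit 23401723, nat_lit 23407827,
  nat_lit 23413927, nat_lit 23420025, nat_lit 23426126, nat_lit 23432233, nat_lit 23438349,
  nat_lit 23444480, nat_lit 23450630, nat_lit 23456803, nat_lit 23463008, nat_lit 23469250,
  nat_lit 23475539, nat_lit 23481884, nat_lit 23488298, nat_lit 23494797, nat_lit 23501401,
  nat_lit 23508137, nat_lit 23515042, nat_lit 23522170, nat_lit 23529604, nat_lit 23537489,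
  nat_lit 23546115, nat_lit 23556283, nat_lit 23965061, nat_lit 23966006, nat_lit 24017379,
  nat_lit 24028316, nat_lit 24036729, nat_lit 24044403, nat_lit 24051684, nat_lit 24058720,
  nat_lit 24065590, nat_lit 24072345, nat_lit 24079020, nat_lit 24085641, nat_lit 24092226,
  nat_lit 24098791, nat_lit 24105351, nat_lit 24111917, nat_lit 24118502, nat_lit 24125115,
  nat_lit 24131769, nat_lit 24138475, nat_lit 24145247, nat_lit 24152101, nat_lit 24159060,
  nat_lit 24166152, nat_lit 24173428, nat_lit 24180989, nat_lit 24189135, nat_lit 24221291,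
  nat_lit 24232263, nat_lit 24242278, nat_lit 24252790, nat_lit 24264427, nat_lit 24278504]

/-- Numerator of the bound. -/
def upC8 : ℕ := Nat.mul (nat_lit 1493975371300447768) (Nat.pow (nat_lit 2) (nat_lit 202337))

/-- Test points. -/
def upS8_0 : List (ℕ × ℕ × ℕ × ℕ) := [
  (nat_lit 11520431, nat_lit 11520431, nat_lit 2, nat_lit 0),
  (nat_lit 11684791, nat_lit 774420, nat_lit 3, nat_lit 0),
  (nat_lit 12459211, nat_lit 777271, nat_lit 2, nat_lit 0),
  (nat_lit 13236482, nat_lit 777271, nat_lit 3, nat_lit 1),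
  (nat_lit 13343185, nat_lit 858077, nat_lit 3, nat_lit 0),
  (nat_lit 14201262, nat_lit 1692020, nat_lit 2, nat_lit 0),
  (nat_lit 15893282, nat_lit 1692020, nat_lit 3, nat_lit 0),
  (nat_lit 16001252, nat_lit 210003, nat_lit 2, nat_lit 0),
  (nat_lit 16211255, nat_lit 210003, nat_lit 3, nat_lit 1),
  (nat_lit 16236074, nat_lit 24819, nat_lit 3, nat_lit 1),
  (nat_lit 16255621, nat_lit 19547, nat_lit 3, nat_lit 1),
  (nat_lit 16273251, nat_lit 17630, nat_lit 3, nat_lit 1),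
  (nat_lit 16289815, nat_lit 16564, nat_lit 3, nat_lit 1),
  (nat_lit 16305679, nat_lit 15864, nat_lit 3, nat_lit 1),
  (nat_lit 16321039, nat_lit 15360, nat_lit 3, nat_lit 1),
  (nat_lit 16336016, nat_lit 14977, nat_lit 3, nat_lit 1),
  (nat_lit 16350690, nat_lit 14674, nat_lit 3, nat_lit 1),
  (nat_lit 16365118, nat_lit 14428, nat_lit 3, nat_lit 1),
  (nat_lit 16379342, nat_lit 14224, nat_lit 3, nat_lit 1),
  (nat_lit 16393396, nat_lit 14054, nat_lit 3, nat_lit 1),
  (nat_lit 16407307, nat_lit 13911, nat_lit 3, nat_lit 1),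
  (nat_lit 16421096, nat_lit 13789, nat_lit 3, nat_lit 1),
  (nat_lit 16434784, nat_lit 13688, nat_lit 3, nat_lit 1),
  (nat_lit 16448390, nat_lit 13606, nat_lit 3, nat_lit 1),
  (nat_lit 16461931, nat_lit 13541, nat_lit 3, nat_lit 1),
  (nat_lit 16475424, nat_lit 13493, nat_lit 3, nat_lit 1),
  (nat_lit 16488889, nat_lit 13465, nat_lit 3, nat_lit 1),
  (nat_lit 16502348, nat_lit 13480, nat_lit 3, nat_lit 1),
  (nat_lit 16515828, nat_lit 13536, nat_lit 3, nat_lit 1),
  (nat_lit 16529364, nat_lit 13643, nat_lit 3, nat_lit 1),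
  (nat_lit 16543007, nat_lit 13830, nat_lit 3, nat_lit 1),
  (nat_lit 16556837, nat_lit 14161, nat_lit 3, nat_lit 1),
  (nat_lit 16570998, nat_lit 14800, nat_lit 3, nat_lit 1),
  (nat_lit 16585798, nat_lit 16460, nat_lit 3, nat_lit 1),
  (nat_lit 16602258, nat_lit 18899, nat_lit 3, nat_lit 1),
  (nat_lit 16621157, nat_lit 95213, nat_lit 3, nat_lit 0),
  (nat_lit 16716370, nat_lit 95213, nat_lit 2, nat_lit 1),
  (nat_lit 16734998, nat_lit 18628, nat_lit 2, nat_lit 1),
  (nat_lit 16750575, nat_lit 15577, nat_lit 2, nat_lit 1),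
  (nat_lit 16765213, nat_lit 14638, nat_lit 2, nat_lit 1),
  (nat_lit 16779432, nat_lit 14219, nat_lit 2, nat_lit 1),
  (nat_lit 16793456, nat_lit 14024, nat_lit 2, nat_lit 1),
  (nat_lit 16807417, nat_lit 13990, nat_lit 2, nat_lit 1),
  (nat_lit 16821407, nat_lit 14100, nat_lit 2, nat_lit 1),
  (nat_lit 16835507, nat_lit 14293, nat_lit 2, nat_lit 1),
  (nat_lit 16849800, nat_lit 14588, nat_lit 2, nat_lit 1),
  (nat_lit 16864388, nat_lit 15019, nat_lit 2, nat_lit 1),
  (nat_lit 16879407, nat_lit 15666, nat_lit 2, nat_lit 1),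
  (nat_lit 16895073, nat_lit 16696, nat_lit 2, nat_lit 1),
  (nat_lit 16911769, nat_lit 18602, nat_lit 2, nat_lit 1),
  (nat_lit 16930371, nat_lit 23897, nat_lit 2, nat_lit 1),
  (nat_lit 16954268, nat_lit 64618, nat_lit 2, nat_lit 1),
  (nat_lit 17018886, nat_lit 278349, nat_lit 2, nat_lit 0),
  (nat_lit 17297235, nat_lit 278349, nat_lit 3, nat_lit 1),
  (nat_lit 17321072, nat_lit 23837, nat_lit 3, nat_lit 1),
  (nat_lit 17339492, nat_lit 18420, nat_lit 3, nat_lit 1),
  (nat_lit 17355949, nat_lit 16457, nat_lit 3, nat_lit 1),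
  (nat_lit 17371329, nat_lit 15380, nat_lit 3, nat_lit 1),
  (nat_lit 17386017, nat_lit 14688, nat_lit 3, nat_lit 1),
  (nat_lit 17400224, nat_lit 14207, nat_lit 3, nat_lit 1),
  (nat_lit 17414078, nat_lit 13854, nat_lit 3, nat_lit 1),
  (nat_lit 17427666, nat_lit 13588, nat_lit 3, nat_lit 1),
  (nat_lit 17441048, nat_lit 13382, nat_lit 3, nat_lit 1),
  (nat_lit 17454271, nat_lit 13223, nat_lit 3, nat_lit 1),
  (nat_lit 17467370, nat_lit 13099, nat_lit 3, nat_lit 1),
  (nat_lit 17480374, nat_lit 13004, nat_lit 3, nat_lit 1),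
  (nat_lit 17493307, nat_lit 12933, nat_lit 3, nat_lit 1),
  (nat_lit 17506190, nat_lit 12883, nat_lit 3, nat_lit 1),
  (nat_lit 17519040, nat_lit 12850, nat_lit 3, nat_lit 1),
  (nat_lit 17531875, nat_lit 12835, nat_lit 3, nat_lit 1),
  (nat_lit 17544710, nat_lit 12850, nat_lit 3, nat_lit 1),
  (nat_lit 17557560, nat_lit 12881, nat_lit 3, nat_lit 1),
  (nat_lit 17570441, nat_lit 12929, nat_lit 3, nat_lit 1),
  (nat_lit 17583370, nat_lit 12993, nat_lit 3, nat_lit 1),
  (nat_lit 17596363, nat_lit 13075, nat_lit 3, nat_lit 1),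
  (nat_lit 17609438, nat_lit 13181, nat_lit 3, nat_lit 1),
  (nat_lit 17622619, nat_lit 13311, nat_lit 3, nat_lit 1),
  (nat_lit 17635930, nat_lit 13472, nat_lit 3, nat_lit 1),
  (nat_lit 17649402, nat_lit 13670, nat_lit 3, nat_lit 1),
  (nat_lit 17663072, nat_lit 13917, nat_lit 3, nat_lit 1),
  (nat_lit 17676989, nat_lit 14229, nat_lit 3, nat_lit 1),
  (nat_lit 17691218, nat_lit 14633, nat_lit 3, nat_lit 1),
  (nat_lit 17705851, nat_lit 15171, nat_lit 3, nat_lit 1),
  (nat_lit 17721022, nat_lit 15929, nat_lit 3, nat_lit 1),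
  (nat_lit 17736951, nat_lit 17088, nat_lit 3, nat_lit 1),
  (nat_lit 17754039, nat_lit 19161, nat_lit 3, nat_lit 1),
  (nat_lit 17773200, nat_lit 24769, nat_lit 3, nat_lit 1),
  (nat_lit 17797969, nat_lit 57419, nat_lit 3, nat_lit 1),
  (nat_lit 17855388, nat_lit 330620, nat_lit 3, nat_lit 0),
  (nat_lit 18186008, nat_lit 330620, nat_lit 2, nat_lit 0),
  (nat_lit 18268336, nat_lit 82328, nat_lit 3, nat_lit 1),
  (nat_lit 18296724, nat_lit 28388, nat_lit 3, nat_lit 1),
  (nat_lit 18320328, nat_lit 23604, nat_lit 3, nat_lit 1),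
  (nat_lit 18342516, nat_lit 22188, nat_lit 3, nat_lit 1),
  (nat_lit 18364220, nat_lit 21709, nat_lit 3, nat_lit 1)]

lemma upL8_0 : allB (loc upD upK upT (nat_lit 271) upC8 upG0 upG1 upF upY8)
    upS8_0 = true := by
  decide +kernel

/-- Test points. -/
def upS8_1 : List (ℕ × ℕ × ℕ × ℕ) := [
  (nat_lit 18385929, nat_lit 22085, nat_lit 3, nat_lit 1),
  (nat_lit 18408014, nat_lit 22837, nat_lit 3, nat_lit 1),
  (nat_lit 18430851, nat_lit 24081, nat_lit 3, nat_lit 1),
  (nat_lit 18454932, nat_lit 26125, nat_lit 3, nat_lit 1),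
  (nat_lit 18481057, nat_lit 29888, nat_lit 3, nat_lit 1),
  (nat_lit 18510945, nat_lit 40095, nat_lit 3, nat_lit 1),
  (nat_lit 18551040, nat_lit 543683, nat_lit 3, nat_lit 1),
  (nat_lit 19094723, nat_lit 2169108, nat_lit 51, nat_lit 0),
  (nat_lit 21263831, nat_lit 2169108, nat_lit 2, nat_lit 1),
  (nat_lit 21295513, nat_lit 31682, nat_lit 2, nat_lit 1),
  (nat_lit 21319857, nat_lit 24344, nat_lit 2, nat_lit 1),
  (nat_lit 21342548, nat_lit 25158, nat_lit 2, nat_lit 1),
  (nat_lit 21367706, nat_lit 119281, nat_lit 2, nat_lit 0),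
  (nat_lit 21486987, nat_lit 119281, nat_lit 3, nat_lit 1),
  (nat_lit 21526434, nat_lit 39447, nat_lit 3, nat_lit 1),
  (nat_lit 21543133, nat_lit 16699, nat_lit 3, nat_lit 1),
  (nat_lit 21556346, nat_lit 13213, nat_lit 3, nat_lit 1),
  (nat_lit 21568288, nat_lit 11942, nat_lit 3, nat_lit 1),
  (nat_lit 21579519, nat_lit 11231, nat_lit 3, nat_lit 1),
  (nat_lit 21590280, nat_lit 10761, nat_lit 3, nat_lit 1),
  (nat_lit 21600700, nat_lit 10420, nat_lit 3, nat_lit 1),
  (nat_lit 21610860, nat_lit 10160, nat_lit 3, nat_lit 1),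
  (nat_lit 21620812, nat_lit 9952, nat_lit 3, nat_lit 1),
  (nat_lit 21630594, nat_lit 9782, nat_lit 3, nat_lit 1),
  (nat_lit 21640234, nat_lit 9640, nat_lit 3, nat_lit 1),
  (nat_lit 21649753, nat_lit 9519, nat_lit 3, nat_lit 1),
  (nat_lit 21659169, nat_lit 9416, nat_lit 3, nat_lit 1),
  (nat_lit 21668496, nat_lit 9327, nat_lit 3, nat_lit 1),
  (nat_lit 21677748, nat_lit 9252, nat_lit 3, nat_lit 1),
  (nat_lit 21686935, nat_lit 9187, nat_lit 3, nat_lit 1),
  (nat_lit 21696068, nat_lit 9133, nat_lit 3, nat_lit 1),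
  (nat_lit 21705154, nat_lit 9086, nat_lit 3, nat_lit 1),
  (nat_lit 21714203, nat_lit 9049, nat_lit 3, nat_lit 1),
  (nat_lit 21723223, nat_lit 9020, nat_lit 3, nat_lit 1),
  (nat_lit 21732225, nat_lit 9002, nat_lit 3, nat_lit 1),
  (nat_lit 21741216, nat_lit 8991, nat_lit 3, nat_lit 1),
  (nat_lit 21750205, nat_lit 8999, nat_lit 3, nat_lit 1),
  (nat_lit 21759204, nat_lit 9020, nat_lit 3, nat_lit 1),
  (nat_lit 21768224, nat_lit 9055, nat_lit 3, nat_lit 1),
  (nat_lit 21777279, nat_lit 9105, nat_lit 3, nat_lit 1),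
  (nat_lit 21786384, nat_lit 9176, nat_lit 3, nat_lit 1),
  (nat_lit 21795560, nat_lit 9271, nat_lit 3, nat_lit 1),
  (nat_lit 21804831, nat_lit 9396, nat_lit 3, nat_lit 1),
  (nat_lit 21814227, nat_lit 9567, nat_lit 3, nat_lit 1),
  (nat_lit 21823794, nat_lit 9798, nat_lit 3, nat_lit 1),
  (nat_lit 21833592, nat_lit 10123, nat_lit 3, nat_lit 1),
  (nat_lit 21843715, nat_lit 10607, nat_lit 3, nat_lit 1),
  (nat_lit 21854322, nat_lit 11399, nat_lit 3, nat_lit 1),
  (nat_lit 21865721, nat_lit 13029, nat_lit 3, nat_lit 1),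
  (nat_lit 21878750, nat_lit 16384, nat_lit 3, nat_lit 1),
  (nat_lit 21895134, nat_lit 109185, nat_lit 3, nat_lit 1),
  (nat_lit 22004319, nat_lit 113149, nat_lit 3433, nat_lit 0),
  (nat_lit 22117468, nat_lit 113149, nat_lit 2, nat_lit 1),
  (nat_lit 22133059, nat_lit 15591, nat_lit 2, nat_lit 1),
  (nat_lit 22145107, nat_lit 12048, nat_lit 2, nat_lit 1),
  (nat_lit 22155874, nat_lit 10767, nat_lit 2, nat_lit 1),
  (nat_lit 22165942, nat_lit 10068, nat_lit 2, nat_lit 1),
  (nat_lit 22175566, nat_lit 9624, nat_lit 2, nat_lit 1),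
  (nat_lit 22184887, nat_lit 9321, nat_lit 2, nat_lit 1),
  (nat_lit 22193992, nat_lit 9105, nat_lit 2, nat_lit 1),
  (nat_lit 22202942, nat_lit 8950, nat_lit 2, nat_lit 1),
  (nat_lit 22211784, nat_lit 8842, nat_lit 2, nat_lit 1),
  (nat_lit 22220558, nat_lit 8774, nat_lit 2, nat_lit 1),
  (nat_lit 22229304, nat_lit 8767, nat_lit 2, nat_lit 1),
  (nat_lit 22238071, nat_lit 8866, nat_lit 2, nat_lit 1),
  (nat_lit 22246937, nat_lit 9150, nat_lit 2, nat_lit 1),
  (nat_lit 22256087, nat_lit 10228, nat_lit 2, nat_lit 1),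
  (nat_lit 22266315, nat_lit 23526, nat_lit 2, nat_lit 0),
  (nat_lit 22289841, nat_lit 23526, nat_lit 3, nat_lit 1),
  (nat_lit 22300378, nat_lit 10537, nat_lit 3, nat_lit 1),
  (nat_lit 22310491, nat_lit 10113, nat_lit 3, nat_lit 1),
  (nat_lit 22319820, nat_lit 9329, nat_lit 3, nat_lit 1),
  (nat_lit 22328982, nat_lit 9162, nat_lit 3, nat_lit 1),
  (nat_lit 22338135, nat_lit 9220, nat_lit 3, nat_lit 1),
  (nat_lit 22347355, nat_lit 9340, nat_lit 3, nat_lit 1),
  (nat_lit 22356695, nat_lit 9508, nat_lit 3, nat_lit 1),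
  (nat_lit 22366203, nat_lit 9727, nat_lit 3, nat_lit 1),
  (nat_lit 22375930, nat_lit 10011, nat_lit 3, nat_lit 1),
  (nat_lit 22385941, nat_lit 10379, nat_lit 3, nat_lit 1),
  (nat_lit 22396320, nat_lit 10869, nat_lit 3, nat_lit 1),
  (nat_lit 22407189, nat_lit 11554, nat_lit 3, nat_lit 1),
  (nat_lit 22418743, nat_lit 12591, nat_lit 3, nat_lit 1),
  (nat_lit 22431334, nat_lit 14419, nat_lit 3, nat_lit 1),
  (nat_lit 22445753, nat_lit 19285, nat_lit 3, nat_lit 1),
  (nat_lit 22465038, nat_lit 122542, nat_lit 3, nat_lit 1),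
  (nat_lit 22587580, nat_lit 561754, nat_lit 15, nat_lit 0),
  (nat_lit 23149334, nat_lit 561754, nat_lit 2, nat_lit 1),
  (nat_lit 23166010, nat_lit 16676, nat_lit 2, nat_lit 1),
  (nat_lit 23178370, nat_lit 12360, nat_lit 2, nat_lit 1),
  (nat_lit 23189086, nat_lit 10716, nat_lit 2, nat_lit 1),
  (nat_lit 23198855, nat_lit 9769, nat_lit 2, nat_lit 1),
  (nat_lit 23207987, nat_lit 9132, nat_lit 2, nat_lit 1),
  (nat_lit 23216652, nat_lit 8665, nat_lit 2, nat_lit 1),
  (nat_lit 23224956, nat_lit 8304, nat_lit 2, nat_lit 1),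
  (nat_lit 23232969, nat_lit 8013, nat_lit 2, nat_lit 1)]

lemma upL8_1 : allB (loc upD upK upT (nat_lit 271) upC8 upG0 upG1 upF upY8)
    upS8_1 = true := by
  decide +kernel

/-- Test points. -/
def upS8_2 : List (ℕ × ℕ × ℕ × ℕ) := [
  (nat_lit 23240744, nat_lit 7775, nat_lit 2, nat_lit 1),
  (nat_lit 23248318, nat_lit 7574, nat_lit 2, nat_lit 1),
  (nat_lit 23255720, nat_lit 7402, nat_lit 2, nat_lit 1),
  (nat_lit 23262972, nat_lit 7252, nat_lit 2, nat_lit 1),
  (nat_lit 23270094, nat_lit 7122, nat_lit 2, nat_lit 1),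
  (nat_lit 23277101, nat_lit 7007, nat_lit 2, nat_lit 1),
  (nat_lit 23284005, nat_lit 6904, nat_lit 2, nat_lit 1),
  (nat_lit 23290818, nat_lit 6813, nat_lit 2, nat_lit 1),
  (nat_lit 23297549, nat_lit 6731, nat_lit 2, nat_lit 1),
  (nat_lit 23304205, nat_lit 6656, nat_lit 2, nat_lit 1),
  (nat_lit 23310794, nat_lit 6589, nat_lit 2, nat_lit 1),
  (nat_lit 23317322, nat_lit 6528, nat_lit 2, nat_lit 1),
  (nat_lit 23323795, nat_lit 6473, nat_lit 2, nat_lit 1),
  (nat_lit 23330218, nat_lit 6423, nat_lit 2, nat_lit 1),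
  (nat_lit 23336595, nat_lit 6377, nat_lit 2, nat_lit 1),
  (nat_lit 23342931, nat_lit 6336, nat_lit 2, nat_lit 1),
  (nat_lit 23349229, nat_lit 6298, nat_lit 2, nat_lit 1),
  (nat_lit 23355493, nat_lit 6264, nat_lit 2, nat_lit 1),
  (nat_lit 23361727, nat_lit 6234, nat_lit 2, nat_lit 1),
  (nat_lit 23367934, nat_lit 6207, nat_lit 2, nat_lit 1),
  (nat_lit 23374117, nat_lit 6183, nat_lit 2, nat_lit 1),
  (nat_lit 23380278, nat_lit 6161, nat_lit 2, nat_lit 1),
  (nat_lit 23386422, nat_lit 6144, nat_lit 2, nat_lit 1),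
  (nat_lit 23392551, nat_lit 6129, nat_lit 2, nat_lit 1),
  (nat_lit 23398668, nat_lit 6117, nat_lit 2, nat_lit 1),
  (nat_lit 23404776, nat_lit 6108, nat_lit 2, nat_lit 1),
  (nat_lit 23410877, nat_lit 6101, nat_lit 2, nat_lit 1),
  (nat_lit 23416976, nat_lit 6099, nat_lit 2, nat_lit 1),
  (nat_lit 23423075, nat_lit 6104, nat_lit 2, nat_lit 1),
  (nat_lit 23429179, nat_lit 6111, nat_lit 2, nat_lit 1),
  (nat_lit 23435290, nat_lit 6122, nat_lit 2, nat_lit 1),
  (nat_lit 23441412, nat_lit 6140, nat_lit 2, nat_lit 1),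
  (nat_lit 23447552, nat_lit 6161, nat_lit 2, nat_lit 1),
  (nat_lit 23453713, nat_lit 6188, nat_lit 2, nat_lit 1),
  (nat_lit 23459901, nat_lit 6223, nat_lit 2, nat_lit 1),
  (nat_lit 23466124, nat_lit 6264, nat_lit 2, nat_lit 1),
  (nat_lit 23472388, nat_lit 6316, nat_lit 2, nat_lit 1),
  (nat_lit 23478704, nat_lit 6377, nat_lit 2, nat_lit 1),
  (nat_lit 23485081, nat_lit 6455, nat_lit 2, nat_lit 1),
  (nat_lit 23491536, nat_lit 6548, nat_lit 2, nat_lit 1),
  (nat_lit 23498084, nat_lit 6667, nat_lit 2, nat_lit 1),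
  (nat_lit 23504751, nat_lit 6815, nat_lit 2, nat_lit 1),
  (nat_lit 23511566, nat_lit 7008, nat_lit 2, nat_lit 1),
  (nat_lit 23518574, nat_lit 7268, nat_lit 2, nat_lit 1),
  (nat_lit 23525842, nat_lit 7635, nat_lit 2, nat_lit 1),
  (nat_lit 23533477, nat_lit 8203, nat_lit 2, nat_lit 1),
  (nat_lit 23541680, nat_lit 9225, nat_lit 2, nat_lit 1),
  (nat_lit 23550905, nat_lit 12016, nat_lit 2, nat_lit 1),
  (nat_lit 23562921, nat_lit 170109, nat_lit 2, nat_lit 0),
  (nat_lit 23733030, nat_lit 183029, nat_lit 3, nat_lit 0),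
  (nat_lit 23916059, nat_lit 183029, nat_lit 2, nat_lit 0),
  (nat_lit 23965011, nat_lit 48952, nat_lit 1059, nat_lit 1),
  (nat_lit 23965920, nat_lit 46405, nat_lit 505, nat_lit 1),
  (nat_lit 24012325, nat_lit 46405, nat_lit 3, nat_lit 1),
  (nat_lit 24023516, nat_lit 11191, nat_lit 3, nat_lit 1),
  (nat_lit 24032654, nat_lit 9138, nat_lit 3, nat_lit 1),
  (nat_lit 24040629, nat_lit 7975, nat_lit 3, nat_lit 1),
  (nat_lit 24048081, nat_lit 7452, nat_lit 3, nat_lit 1),
  (nat_lit 24055227, nat_lit 7146, nat_lit 3, nat_lit 1),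
  (nat_lit 24062172, nat_lit 6945, nat_lit 3, nat_lit 1),
  (nat_lit 24068979, nat_lit 6807, nat_lit 3, nat_lit 1),
  (nat_lit 24075691, nat_lit 6712, nat_lit 3, nat_lit 1),
  (nat_lit 24082336, nat_lit 6645, nat_lit 3, nat_lit 1),
  (nat_lit 24088937, nat_lit 6601, nat_lit 3, nat_lit 1),
  (nat_lit 24095510, nat_lit 6573, nat_lit 3, nat_lit 1),
  (nat_lit 24102071, nat_lit 6562, nat_lit 3, nat_lit 1),
  (nat_lit 24108633, nat_lit 6574, nat_lit 3, nat_lit 1),
  (nat_lit 24115207, nat_lit 6597, nat_lit 3, nat_lit 1),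
  (nat_lit 24121804, nat_lit 6632, nat_lit 3, nat_lit 1),
  (nat_lit 24128436, nat_lit 6679, nat_lit 3, nat_lit 1),
  (nat_lit 24135115, nat_lit 6737, nat_lit 3, nat_lit 1),
  (nat_lit 24141852, nat_lit 6811, nat_lit 3, nat_lit 1),
  (nat_lit 24148663, nat_lit 6903, nat_lit 3, nat_lit 1),
  (nat_lit 24155566, nat_lit 7021, nat_lit 3, nat_lit 1),
  (nat_lit 24162587, nat_lit 7176, nat_lit 3, nat_lit 1),
  (nat_lit 24169763, nat_lit 7400, nat_lit 3, nat_lit 1),
  (nat_lit 24177163, nat_lit 7786, nat_lit 3, nat_lit 1),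
  (nat_lit 24184949, nat_lit 8879, nat_lit 3, nat_lit 1),
  (nat_lit 24193828, nat_lit 23376, nat_lit 3, nat_lit 0),
  (nat_lit 24217204, nat_lit 23376, nat_lit 2, nat_lit 1),
  (nat_lit 24227174, nat_lit 10073, nat_lit 2, nat_lit 1),
  (nat_lit 24237247, nat_lit 10189, nat_lit 2, nat_lit 1),
  (nat_lit 24247436, nat_lit 10981, nat_lit 2, nat_lit 1),
  (nat_lit 24258417, nat_lit 12585, nat_lit 2, nat_lit 1),
  (nat_lit 24271002, nat_lit 16968, nat_lit 2, nat_lit 1),
  (nat_lit 24287970, nat_lit 712030, nat_lit 2, nat_lit 0)]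

lemma upL8_2 : allB (loc upD upK upT (nat_lit 271) upC8 upG0 upG1 upF upY8)
    upS8_2 = true := by
  decide +kernel

/-- All the test points. -/
def upS8 : List (ℕ × ℕ × ℕ × ℕ) :=
  upS8_0 ++ (upS8_1 ++ (upS8_2))

lemma upLoc8 : ∀ e ∈ upS8, loc upD upK upT (nat_lit 271) upC8 upG0 upG1 upF upY8 e = true := by
  unfold upS8
  refine List.forall_mem_append.2 ⟨allB_spec upL8_0, ?_⟩
  refine List.forall_mem_append.2 ⟨allB_spec upL8_1, ?_⟩
  exact allB_spec upL8_2

theorem upB8 : ∀ t ∈ Set.Icc (0 : ℝ) (1 / 4), |(Bp upD upY8).eval t *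
    aeval t (wp upG0 upG1 upF)| ≤ upC8 / (upD : ℝ) ^ (upG0 + upG1 + dgF upF + upY8.length) :=
  level_bound (K := upK) (T := upT) (cnt := nat_lit 271) (cs := upS8) (by decide +kernel)
    (by decide +kernel) upF_ok (by decide +kernel) (by decide +kernel) (by decide +kernel)
    (by decide +kernel) (by decide +kernel) (by decide +kernel) upLoc8

theorem upA8 : AOK upD 32 17850625 100000000 (upG0 + upG1 + dgF upF) upC8 277788 upY8.length := by
  decide +kernel

end Up

end IntCheb
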