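import Pool.Agent.Lib.MP_6205a3_nt.B66.UpData
import Pool.Agent.Lib.MP_6205a3_nt.B66.UpL8

/-!
# MP_6205a3_nt : level 5 of the upper bound certificate
-/

open Finset Polynomial

set_option autoImplicit false
set_option maxRecDepth 100000

namespace IntCheb

namespace Up

open Cert

/-- Zeros (times `upD`). -/
def upY5 : List ℕ := [
  nat_lit 16458705, nat_lit 16499686, nat_lit 16537357, nat_lit 16606628, nat_lit 16775219,
  nat_lit 16806066, nat_lit 16835873, nat_lit 16868620, nat_lit 17353219, nat_lit 17397439,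
  nat_lit 17423983, nat_lit 17447549, nat_lit 17469719, nat_lit 17491126, nat_lit 17512122,
  nat_lit 17532949, nat_lit 17553805, nat_lit 17574883, nat_lit 17596403, nat_lit 17618659,
  nat_lit 17642114, nat_lit 17667658, nat_lit 17697696, nat_lit 21453848, nat_lit 21456420,
  nat_lit 21458941, nat_lit 21594751, nat_lit 21616908, nat_lit 21634381, nat_lit 21650127,
  nat_lit 21664870, nat_lit 21678947, nat_lit 21692551, nat_lit 21705810, nat_lit 21718818,
  nat_lit 21731652, nat_lit 21744377, nat_lit 21757059, nat_lit 21769765, nat_lit 21782574,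
  nat_lit 21795590, nat_lit 21808961, nat_lit 21822931, nat_lit 21837981, nat_lit 21855432,
  nat_lit 22009295, nat_lit 22088219, nat_lit 22156947, nat_lit 22173211, nat_lit 22187220,
  nat_lit 22200228, nat_lit 22212722, nat_lit 22224998, nat_lit 22237352, nat_lit 22250389,
  nat_lit 22280854, nat_lit 22299327, nat_lit 22318539, nat_lit 22332211, nat_lit 22345605,
  nat_lit 22359330, nat_lit 22373828, nat_lit 22389753, nat_lit 22408755, nat_lit 23112270,
  nat_lit 23203446, nat_lit 23218959, nat_lit 23231791, nat_lit 23243292, nat_lit 23253958,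
  nat_lit 23264038, nat_lit 23273679, nat_lit 23282977, nat_lit 23291999, nat_lit 23300795,
  nat_lit 23309401, nat_lit 23317849, nat_lit 23326162, nat_lit 23334360, nat_lit 23342460,
  nat_lit 23350478, nat_lit 23358426, nat_lit 23366317, nat_lit 23374161, nat_lit 23381971,
  nat_lit 23389755, nat_lit 23397524, nat_lit 23405290, nat_lit 23413063, nat_lit 23420855,
  nat_lit 23428679, nat_lit 23436552, nat_lit 23444490, nat_lit 23452515, nat_lit 23460655,
  nat_lit 23468945, nat_lit 23477433, nat_lit 23486187, nat_lit 23495314, nat_lit 23504993,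
  nat_lit 23515588, nat_lit 23528095, nat_lit 24028709, nat_lit 24058555, nat_lit 24072699,
  nat_lit 24085427, nat_lit 24097712, nat_lit 24110004, nat_lit 24122676, nat_lit 24136240,
  nat_lit 24151892]

/-- Numerator of the bound. -/
def upC5 : ℕ := Nat.mul (nat_lit 1932295268320268829) (Nat.pow (nat_lit 2) (nat_lit 199348))

/-- Test points. -/
def upS5_0 : List (ℕ × ℕ × ℕ × ℕ) := [
  (nat_lit 11534886, nat_lit 11534886, nat_lit 2, nat_lit 0),
  (nat_lit 11698789, nat_lit 771644, nat_lit 3, nat_lit 0),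
  (nat_lit 12470433, nat_lit 869881, nat_lit 2, nat_lit 0),
  (nat_lit 13340314, nat_lit 911338, nat_lit 3, nat_lit 0),
  (nat_lit 14251652, nat_lit 1675025, nat_lit 2, nat_lit 0),
  (nat_lit 15926677, nat_lit 1675025, nat_lit 3, nat_lit 0),
  (nat_lit 16025077, nat_lit 407457, nat_lit 2, nat_lit 0),
  (nat_lit 16432534, nat_lit 407457, nat_lit 3, nat_lit 1),
  (nat_lit 16480160, nat_lit 47626, nat_lit 3, nat_lit 1),
  (nat_lit 16518437, nat_lit 39726, nat_lit 3, nat_lit 1),
  (nat_lit 16558163, nat_lit 54706, nat_lit 3, nat_lit 1),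
  (nat_lit 16612869, nat_lit 144147, nat_lit 3, nat_lit 0),
  (nat_lit 16757016, nat_lit 144147, nat_lit 2, nat_lit 1),
  (nat_lit 16791054, nat_lit 34038, nat_lit 2, nat_lit 1),
  (nat_lit 16820866, nat_lit 30673, nat_lit 2, nat_lit 1),
  (nat_lit 16851539, nat_lit 37583, nat_lit 2, nat_lit 1),
  (nat_lit 16889122, nat_lit 452610, nat_lit 2, nat_lit 0),
  (nat_lit 17341732, nat_lit 452610, nat_lit 3, nat_lit 1),
  (nat_lit 17381323, nat_lit 39591, nat_lit 3, nat_lit 1),
  (nat_lit 17411274, nat_lit 29951, nat_lit 3, nat_lit 1),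
  (nat_lit 17436001, nat_lit 24727, nat_lit 3, nat_lit 1),
  (nat_lit 17458759, nat_lit 22758, nat_lit 3, nat_lit 1),
  (nat_lit 17480492, nat_lit 21733, nat_lit 3, nat_lit 1),
  (nat_lit 17501659, nat_lit 21167, nat_lit 3, nat_lit 1),
  (nat_lit 17522544, nat_lit 20885, nat_lit 3, nat_lit 1),
  (nat_lit 17543362, nat_lit 20942, nat_lit 3, nat_lit 1),
  (nat_lit 17564304, nat_lit 21268, nat_lit 3, nat_lit 1),
  (nat_lit 17585572, nat_lit 21844, nat_lit 3, nat_lit 1),
  (nat_lit 17607416, nat_lit 22780, nat_lit 3, nat_lit 1),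
  (nat_lit 17630196, nat_lit 24341, nat_lit 3, nat_lit 1),
  (nat_lit 17654537, nat_lit 27277, nat_lit 3, nat_lit 1),
  (nat_lit 17681814, nat_lit 35483, nat_lit 3, nat_lit 1),
  (nat_lit 17717297, nat_lit 471213, nat_lit 3, nat_lit 0),
  (nat_lit 18188510, nat_lit 471213, nat_lit 2, nat_lit 0),
  (nat_lit 18360168, nat_lit 2982921, nat_lit 3, nat_lit 0),
  (nat_lit 21343089, nat_lit 2982921, nat_lit 2, nat_lit 0),
  (nat_lit 21453709, nat_lit 110620, nat_lit 237, nat_lit 1),
  (nat_lit 21456170, nat_lit 2469, nat_lit 5, nat_lit 1),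
  (nat_lit 21458639, nat_lit 124072, nat_lit 119, nat_lit 1),
  (nat_lit 21582711, nat_lit 124072, nat_lit 3, nat_lit 1),
  (nat_lit 21606928, nat_lit 24217, nat_lit 3, nat_lit 1),
  (nat_lit 21625938, nat_lit 19010, nat_lit 3, nat_lit 1),
  (nat_lit 21642410, nat_lit 16472, nat_lit 3, nat_lit 1),
  (nat_lit 21657598, nat_lit 15188, nat_lit 3, nat_lit 1),
  (nat_lit 21671978, nat_lit 14380, nat_lit 3, nat_lit 1),
  (nat_lit 21685799, nat_lit 13821, nat_lit 3, nat_lit 1),
  (nat_lit 21699217, nat_lit 13418, nat_lit 3, nat_lit 1),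
  (nat_lit 21712340, nat_lit 13123, nat_lit 3, nat_lit 1),
  (nat_lit 21725253, nat_lit 12913, nat_lit 3, nat_lit 1),
  (nat_lit 21738024, nat_lit 12771, nat_lit 3, nat_lit 1),
  (nat_lit 21750719, nat_lit 12695, nat_lit 3, nat_lit 1),
  (nat_lit 21763404, nat_lit 12747, nat_lit 3, nat_lit 1),
  (nat_lit 21776151, nat_lit 12897, nat_lit 3, nat_lit 1),
  (nat_lit 21789048, nat_lit 13171, nat_lit 3, nat_lit 1),
  (nat_lit 21802219, nat_lit 13630, nat_lit 3, nat_lit 1),
  (nat_lit 21815849, nat_lit 14424, nat_lit 3, nat_lit 1),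
  (nat_lit 21830273, nat_lit 15967, nat_lit 3, nat_lit 1),
  (nat_lit 21846240, nat_lit 20421, nat_lit 3, nat_lit 1),
  (nat_lit 21866661, nat_lit 142573, nat_lit 3, nat_lit 0),
  (nat_lit 22009234, nat_lit 142573, nat_lit 604, nat_lit 1),
  (nat_lit 22086061, nat_lit 76827, nat_lit 2, nat_lit 1),
  (nat_lit 22146467, nat_lit 60406, nat_lit 2, nat_lit 1),
  (nat_lit 22165517, nat_lit 19050, nat_lit 2, nat_lit 1),
  (nat_lit 22180387, nat_lit 14870, nat_lit 2, nat_lit 1),
  (nat_lit 22193811, nat_lit 13424, nat_lit 2, nat_lit 1),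
  (nat_lit 22206519, nat_lit 12708, nat_lit 2, nat_lit 1),
  (nat_lit 22218871, nat_lit 12352, nat_lit 2, nat_lit 1),
  (nat_lit 22231141, nat_lit 12571, nat_lit 2, nat_lit 1),
  (nat_lit 22243712, nat_lit 14165, nat_lit 2, nat_lit 1),
  (nat_lit 22257877, nat_lit 22886, nat_lit 2, nat_lit 0),
  (nat_lit 22280763, nat_lit 22886, nat_lit 281, nat_lit 1),
  (nat_lit 22295475, nat_lit 15536, nat_lit 3, nat_lit 1),
  (nat_lit 22311011, nat_lit 15536, nat_lit 3, nat_lit 1),
  (nat_lit 22325475, nat_lit 14464, nat_lit 3, nat_lit 1),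
  (nat_lit 22338894, nat_lit 13506, nat_lit 3, nat_lit 1),
  (nat_lit 22352400, nat_lit 14051, nat_lit 3, nat_lit 1),
  (nat_lit 22366451, nat_lit 15099, nat_lit 3, nat_lit 1),
  (nat_lit 22381550, nat_lit 17116, nat_lit 3, nat_lit 1),
  (nat_lit 22398666, nat_lit 22692, nat_lit 3, nat_lit 1),
  (nat_lit 22421358, nat_lit 688588, nat_lit 3, nat_lit 0),
  (nat_lit 23109946, nat_lit 688588, nat_lit 12, nat_lit 1),
  (nat_lit 23193061, nat_lit 83115, nat_lit 2, nat_lit 1),
  (nat_lit 23211707, nat_lit 18646, nat_lit 2, nat_lit 1),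
  (nat_lit 23225591, nat_lit 13884, nat_lit 2, nat_lit 1),
  (nat_lit 23237668, nat_lit 12077, nat_lit 2, nat_lit 1),
  (nat_lit 23248711, nat_lit 11043, nat_lit 2, nat_lit 1),
  (nat_lit 23259060, nat_lit 10349, nat_lit 2, nat_lit 1),
  (nat_lit 23268906, nat_lit 9846, nat_lit 2, nat_lit 1),
  (nat_lit 23278366, nat_lit 9460, nat_lit 2, nat_lit 1),
  (nat_lit 23287519, nat_lit 9153, nat_lit 2, nat_lit 1),
  (nat_lit 23296423, nat_lit 8904, nat_lit 2, nat_lit 1),
  (nat_lit 23305120, nat_lit 8697, nat_lit 2, nat_lit 1),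
  (nat_lit 23313643, nat_lit 8523, nat_lit 2, nat_lit 1),
  (nat_lit 23322021, nat_lit 8378, nat_lit 2, nat_lit 1),
  (nat_lit 23330274, nat_lit 8253, nat_lit 2, nat_lit 1),
  (nat_lit 23338421, nat_lit 8147, nat_lit 2, nat_lit 1),
  (nat_lit 23346478, nat_lit 8057, nat_lit 2, nat_lit 1),
  (nat_lit 23354460, nat_lit 7982, nat_lit 2, nat_lit 1),
  (nat_lit 23362378, nat_lit 7918, nat_lit 2, nat_lit 1),
  (nat_lit 23370244, nat_lit 7866, nat_lit 2, nat_lit 1),
  (nat_lit 23378070, nat_lit 7826, nat_lit 2, nat_lit 1),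
  (nat_lit 23385865, nat_lit 7795, nat_lit 2, nat_lit 1),
  (nat_lit 23393641, nat_lit 7776, nat_lit 2, nat_lit 1),
  (nat_lit 23401407, nat_lit 7768, nat_lit 2, nat_lit 1),
  (nat_lit 23409175, nat_lit 7781, nat_lit 2, nat_lit 1),
  (nat_lit 23416956, nat_lit 7806, nat_lit 2, nat_lit 1),
  (nat_lit 23424762, nat_lit 7846, nat_lit 2, nat_lit 1),
  (nat_lit 23432608, nat_lit 7903, nat_lit 2, nat_lit 1),
  (nat_lit 23440511, nat_lit 7979, nat_lit 2, nat_lit 1),
  (nat_lit 23448490, nat_lit 8079, nat_lit 2, nat_lit 1),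
  (nat_lit 23456569, nat_lit 8210, nat_lit 2, nat_lit 1),
  (nat_lit 23464779, nat_lit 8382, nat_lit 2, nat_lit 1),
  (nat_lit 23473161, nat_lit 8610, nat_lit 2, nat_lit 1),
  (nat_lit 23481771, nat_lit 8924, nat_lit 2, nat_lit 1),
  (nat_lit 23490695, nat_lit 9373, nat_lit 2, nat_lit 1),
  (nat_lit 23500068, nat_lit 10072, nat_lit 2, nat_lit 1),
  (nat_lit 23510140, nat_lit 11337, nat_lit 2, nat_lit 1),
  (nat_lit 23521477, nat_lit 14799, nat_lit 2, nat_lit 1),
  (nat_lit 23536276, nat_lit 194983, nat_lit 2, nat_lit 0),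
  (nat_lit 23731259, nat_lit 194983, nat_lit 3, nat_lit 0),
  (nat_lit 23921154, nat_lit 189895, nat_lit 2, nat_lit 0),
  (nat_lit 24024801, nat_lit 103647, nat_lit 3, nat_lit 1),
  (nat_lit 24049867, nat_lit 25066, nat_lit 3, nat_lit 1),
  (nat_lit 24065920, nat_lit 16053, nat_lit 3, nat_lit 1),
  (nat_lit 24079157, nat_lit 13237, nat_lit 3, nat_lit 1),
  (nat_lit 24091592, nat_lit 12435, nat_lit 3, nat_lit 1),
  (nat_lit 24103834, nat_lit 12433, nat_lit 3, nat_lit 1),
  (nat_lit 24116267, nat_lit 13034, nat_lit 3, nat_lit 1),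
  (nat_lit 24129301, nat_lit 14359, nat_lit 3, nat_lit 1),
  (nat_lit 24143660, nat_lit 18216, nat_lit 3, nat_lit 1),
  (nat_lit 24161876, nat_lit 61361, nat_lit 3, nat_lit 0),
  (nat_lit 24223237, nat_lit 776763, nat_lit 2, nat_lit 0)]

lemma upL5_0 : allB (loc upD upK upT (nat_lit 127) upC5 upG0 upG1 upF upY5)
    upS5_0 = true := by
  decide +kernel

/-- All the test points. -/
def upS5 : List (ℕ × ℕ × ℕ × ℕ) :=
  upS5_0

lemma upLoc5 : ∀ e ∈ upS5, loc upD upK upT (nat_lit 127) upC5 upG0 upG1 upF upY5 e = true := by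
  unfold upS5
  exact allB_spec upL5_0

theorem upB5 : ∀ t ∈ Set.Icc (0 : ℝ) (1 / 4), |(Bp upD upY5).eval t *
    aeval t (wp upG0 upG1 upF)| ≤ upC5 / (upD : ℝ) ^ (upG0 + upG1 + dgF upF + upY5.length) :=
  level_bound (K := upK) (T := upT) (cnt := nat_lit 127) (cs := upS5) (by decide +kernel)
    (by decide +kernel) upF_ok (by decide +kernel) (by decide +kernel) (by decide +kernel)
    (by decide +kernel) (by decide +kernel) (by decide +kernel) upLoc5

theorem upA5 : AOK upD 32 17850625 100000000 (upG0 + upG1 + dgF upF) upC5 266998 upY5.length := by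
  decide +kernel

end Up

end IntCheb
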