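import Pool.Agent.Lib.MP_6205a3_nt.B66.UpData
import Pool.Agent.Lib.MP_6205a3_nt.B66.UpL5

/-!
# MP_6205a3_nt : level 1 of the upper bound certificate
-/

open Finset Polynomial

set_option autoImplicit false
set_option maxRecDepth 100000

namespace IntCheb

namespace Up

open Cert

/-- Zeros (times `upD`). -/
def upY1 : List ℕ := [
  nat_lit 22260331, nat_lit 23286726, nat_lit 23308002, nat_lit 23326008, nat_lit 23342570,
  nat_lit 23358404, nat_lit 23373939, nat_lit 23389526, nat_lit 23405564, nat_lit 23422695,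
  nat_lit 23442520]

/-- Numerator of the bound. -/
def upC1 : ℕ := Nat.mul (nat_lit 1423178575956429498) (Nat.pow (nat_lit 2) (nat_lit 197386))

/-- Test points. -/
def upS1_0 : List (ℕ × ℕ × ℕ × ℕ) := [
  (nat_lit 11541291, nat_lit 11541291, nat_lit 2, nat_lit 0),
  (nat_lit 11706681, nat_lit 769039, nat_lit 3, nat_lit 0),
  (nat_lit 12475720, nat_lit 897231, nat_lit 2, nat_lit 0),
  (nat_lit 13372951, nat_lit 907181, nat_lit 3, nat_lit 0),
  (nat_lit 14280132, nat_lit 1653137, nat_lit 2, nat_lit 0),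
  (nat_lit 15933269, nat_lit 1653137, nat_lit 3, nat_lit 0),
  (nat_lit 16032698, nat_lit 517405, nat_lit 2, nat_lit 0),
  (nat_lit 16550103, nat_lit 517405, nat_lit 3, nat_lit 0),
  (nat_lit 16836883, nat_lit 704248, nat_lit 2, nat_lit 0),
  (nat_lit 17541131, nat_lit 704248, nat_lit 3, nat_lit 0),
  (nat_lit 18187129, nat_lit 645998, nat_lit 2, nat_lit 0),
  (nat_lit 18355062, nat_lit 3023422, nat_lit 3, nat_lit 0),
  (nat_lit 21378484, nat_lit 3023422, nat_lit 2, nat_lit 0),
  (nat_lit 21764730, nat_lit 450582, nat_lit 3, nat_lit 0),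
  (nat_lit 22215312, nat_lit 450582, nat_lit 2, nat_lit 1),
  (nat_lit 22264291, nat_lit 61128, nat_lit 2, nat_lit 0),
  (nat_lit 22325419, nat_lit 947291, nat_lit 3, nat_lit 0),
  (nat_lit 23272710, nat_lit 947291, nat_lit 2, nat_lit 1),
  (nat_lit 23297998, nat_lit 25288, nat_lit 2, nat_lit 1),
  (nat_lit 23317254, nat_lit 19256, nat_lit 2, nat_lit 1),
  (nat_lit 23334414, nat_lit 17160, nat_lit 2, nat_lit 1),
  (nat_lit 23350548, nat_lit 16134, nat_lit 2, nat_lit 1),
  (nat_lit 23366187, nat_lit 15639, nat_lit 2, nat_lit 1),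
  (nat_lit 23381704, nat_lit 15754, nat_lit 2, nat_lit 1),
  (nat_lit 23397458, nat_lit 16475, nat_lit 2, nat_lit 1),
  (nat_lit 23413933, nat_lit 18141, nat_lit 2, nat_lit 1),
  (nat_lit 23432074, nat_lit 23253, nat_lit 2, nat_lit 1),
  (nat_lit 23455327, nat_lit 270264, nat_lit 2, nat_lit 0),
  (nat_lit 23725591, nat_lit 270264, nat_lit 3, nat_lit 0),
  (nat_lit 23919815, nat_lit 194224, nat_lit 2, nat_lit 0),
  (nat_lit 24082715, nat_lit 162900, nat_lit 3, nat_lit 0),
  (nat_lit 24217543, nat_lit 782457, nat_lit 2, nat_lit 0)]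

lemma upL1_0 : allB (loc upD upK upT (nat_lit 27) upC1 upG0 upG1 upF upY1)
    upS1_0 = true := by
  decide +kernel

/-- All the test points. -/
def upS1 : List (ℕ × ℕ × ℕ × ℕ) :=
  upS1_0

lemma upLoc1 : ∀ e ∈ upS1, loc upD upK upT (nat_lit 27) upC1 upG0 upG1 upF upY1 e = true := by
  unfold upS1
  exact allB_spec upL1_0

theorem upB1 : ∀ t ∈ Set.Icc (0 : ℝ) (1 / 4), |(Bp upD upY1).eval t *
    aeval t (wp upG0 upG1 upF)| ≤ upC1 / (upD : ℝ) ^ (upG0 + upG1 + dgF upF + upY1.length) :=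
  level_bound (K := upK) (T := upT) (cnt := nat_lit 27) (cs := upS1) (by decide +kernel)
    (by decide +kernel) upF_ok (by decide +kernel) (by decide +kernel) (by decide +kernel)
    (by decide +kernel) (by decide +kernel) (by decide +kernel) upLoc1

theorem upA1 : AOK upD 32 17850625 100000000 (upG0 + upG1 + dgF upF) upC1 258051 upY1.length := by
  decide +kernel

end Up

end IntCheb
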