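import Pool.Agent.Lib.MP_6205a3_nt.B66.UpY16

/-!
# MP_6205a3_nt : checks of level 16 of the upper bound certificate
-/

open Finset Polynomial

set_option autoImplicit false
set_option maxRecDepth 100000

namespace IntCheb

namespace Up

open Cert

lemma upL16_10 : allB (loc upD upK upT (nat_lit 1123) upC16 upG0 upG1 upF upY16)
    upS16_10 = true := by
  decide +kernel

lemma upL16_11 : allB (loc upD upK upT (nat_lit 1123) upC16 upG0 upG1 upF upY16)
    upS16_11 = true := by
  decide +kernel

lemma upL16_12 : allB (loc upD upK upT (nat_lit 1123) upC16 upG0 upG1 upF upY16)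
    upS16_12 = true := by
  decide +kernel

lemma upL16_13 : allB (loc upD upK upT (nat_lit 1123) upC16 upG0 upG1 upF upY16)
    upS16_13 = true := by
  decide +kernel

lemma upL16_14 : allB (loc upD upK upT (nat_lit 1123) upC16 upG0 upG1 upF upY16)
    upS16_14 = true := by
  decide +kernel

lemma upL16_15 : allB (loc upD upK upT (nat_lit 1123) upC16 upG0 upG1 upF upY16)
    upS16_15 = true := by
  decide +kernel

lemma upL16_16 : allB (loc upD upK upT (nat_lit 1123) upC16 upG0 upG1 upF upY16)
    upS16_16 = true := by
  decide +kernel

lemma upL16_17 : allB (loc upD upK upT (nat_lit 1123) upC16 upG0 upG1 upF upY16)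
    upS16_17 = true := by
  decide +kernel

lemma upL16_18 : allB (loc upD upK upT (nat_lit 1123) upC16 upG0 upG1 upF upY16)
    upS16_18 = true := by
  decide +kernel

lemma upL16_19 : allB (loc upD upK upT (nat_lit 1123) upC16 upG0 upG1 upF upY16)
    upS16_19 = true := by
  decide +kernel

end Up

end IntCheb
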