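import Pool.Agent.Lib.MP_6205a3_nt.B66.UpY16
import Pool.Agent.Lib.MP_6205a3_nt.B66.UpP16_1

/-!
# MP_6205a3_nt : checks of level 16 of the upper bound certificate
-/

open Finset Polynomial

set_option autoImplicit false
set_option maxRecDepth 100000

namespace IntCheb

namespace Up

open Cert

lemma upL16_30 : allB (loc upD upK upT (nat_lit 1123) upC16 upG0 upG1 upF upY16)
    upS16_30 = true := by
  decide +kernel

lemma upL16_31 : allB (loc upD upK upT (nat_lit 1123) upC16 upG0 upG1 upF upY16)
    upS16_31 = true := by
  decide +kernel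

lemma upL16_32 : allB (loc upD upK upT (nat_lit 1123) upC16 upG0 upG1 upF upY16)
    upS16_32 = true := by
  decide +kernel

lemma upL16_33 : allB (loc upD upK upT (nat_lit 1123) upC16 upG0 upG1 upF upY16)
    upS16_33 = true := by
  decide +kernel

lemma upL16_34 : allB (loc upD upK upT (nat_lit 1123) upC16 upG0 upG1 upF upY16)
    upS16_34 = true := by
  decide +kernel

lemma upL16_35 : allB (loc upD upK upT (nat_lit 1123) upC16 upG0 upG1 upF upY16)
    upS16_35 = true := by
  decide +kernel

lemma upL16_36 : allB (loc upD upK upT (nat_lit 1123) upC16 upG0 upG1 upF upY16)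
    upS16_36 = true := by
  decide +kernel

lemma upL16_37 : allB (loc upD upK upT (nat_lit 1123) upC16 upG0 upG1 upF upY16)
    upS16_37 = true := by
  decide +kernel

lemma upL16_38 : allB (loc upD upK upT (nat_lit 1123) upC16 upG0 upG1 upF upY16)
    upS16_38 = true := by
  decide +kernel

lemma upL16_39 : allB (loc upD upK upT (nat_lit 1123) upC16 upG0 upG1 upF upY16)
    upS16_39 = true := by
  decide +kernel

end Up

end IntCheb
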