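import Pool.Agent.Lib.MP_6205a3_nt.B66.UpY15
import Pool.Agent.Lib.MP_6205a3_nt.B66.UpP16_3

/-!
# MP_6205a3_nt : checks of level 15 of the upper bound certificate
-/

open Finset Polynomial

set_option autoImplicit false
set_option maxRecDepth 100000

namespace IntCheb

namespace Up

open Cert

lemma upL15_0 : allB (loc upD upK upT (nat_lit 968) upC15 upG0 upG1 upF upY15)
    upS15_0 = true := by
  decide +kernel

lemma upL15_1 : allB (loc upD upK upT (nat_lit 968) upC15 upG0 upG1 upF upY15)
    upS15_1 = true := by
  decide +kernel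

lemma upL15_2 : allB (loc upD upK upT (nat_lit 968) upC15 upG0 upG1 upF upY15)
    upS15_2 = true := by
  decide +kernel

lemma upL15_3 : allB (loc upD upK upT (nat_lit 968) upC15 upG0 upG1 upF upY15)
    upS15_3 = true := by
  decide +kernel

lemma upL15_4 : allB (loc upD upK upT (nat_lit 968) upC15 upG0 upG1 upF upY15)
    upS15_4 = true := by
  decide +kernel

lemma upL15_5 : allB (loc upD upK upT (nat_lit 968) upC15 upG0 upG1 upF upY15)
    upS15_5 = true := by
  decide +kernel

lemma upL15_6 : allB (loc upD upK upT (nat_lit 968) upC15 upG0 upG1 upF upY15)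
    upS15_6 = true := by
  decide +kernel

lemma upL15_7 : allB (loc upD upK upT (nat_lit 968) upC15 upG0 upG1 upF upY15)
    upS15_7 = true := by
  decide +kernel

lemma upL15_8 : allB (loc upD upK upT (nat_lit 968) upC15 upG0 upG1 upF upY15)
    upS15_8 = true := by
  decide +kernel

end Up

end IntCheb
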