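import Pool.Agent.Lib.MP_6205a3_nt.B66.UpY15
import Pool.Agent.Lib.MP_6205a3_nt.B66.UpP15_0

/-!
# MP_6205a3_nt : checks of level 15 of the upper bound certificate
-/

open Finset Polynomial

set_option autoImplicit false
set_option maxRecDepth 100000

namespace IntCheb

namespace Up

open Cert

lemma upL15_18 : allB (loc upD upK upT (nat_lit 968) upC15 upG0 upG1 upF upY15)
    upS15_18 = true := by
  decide +kernel

lemma upL15_19 : allB (loc upD upK upT (nat_lit 968) upC15 upG0 upG1 upF upY15)
    upS15_19 = true := by
  decide +kernel

lemma upL15_20 : allB (loc upD upK upT (nat_lit 968) upC15 upG0 upG1 upF upY15)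
    upS15_20 = true := by
  decide +kernel

lemma upL15_21 : allB (loc upD upK upT (nat_lit 968) upC15 upG0 upG1 upF upY15)
    upS15_21 = true := by
  decide +kernel

lemma upL15_22 : allB (loc upD upK upT (nat_lit 968) upC15 upG0 upG1 upF upY15)
    upS15_22 = true := by
  decide +kernel

lemma upL15_23 : allB (loc upD upK upT (nat_lit 968) upC15 upG0 upG1 upF upY15)
    upS15_23 = true := by
  decide +kernel

lemma upL15_24 : allB (loc upD upK upT (nat_lit 968) upC15 upG0 upG1 upF upY15)
    upS15_24 = true := by
  decide +kernel

lemma upL15_25 : allB (loc upD upK upT (nat_lit 968) upC15 upG0 upG1 upF upY15)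
    upS15_25 = true := by
  decide +kernel

lemma upL15_26 : allB (loc upD upK upT (nat_lit 968) upC15 upG0 upG1 upF upY15)
    upS15_26 = true := by
  decide +kernel

end Up

end IntCheb
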