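import Pool.Agent.Lib.MP_6205a3_nt.B66.UpData
import Pool.Agent.Lib.MP_6205a3_nt.B66.UpP15_2

/-!
# MP_6205a3_nt : level 10 of the upper bound certificate
-/

open Finset Polynomial

set_option autoImplicit false
set_option maxRecDepth 100000

namespace IntCheb

namespace Up

open Cert

/-- Zeros (times `upD`). -/
def upY10 : List ℕ := [
  nat_lit 12827901, nat_lit 12864852, nat_lit 12896011, nat_lit 12924315, nat_lit 12950830,
  nat_lit 12976090, nat_lit 13000412, nat_lit 13023999, nat_lit 13046997, nat_lit 13069512,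
  nat_lit 13091628, nat_lit 13113411, nat_lit 13134917, nat_lit 13156195, nat_lit 13177288,
  nat_lit 13198237, nat_lit 13219080, nat_lit 13239856, nat_lit 13260606, nat_lit 13281372,
  nat_lit 13302203, nat_lit 13323157, nat_lit 13344303, nat_lit 13365732, nat_lit 13387565,
  nat_lit 13409979, nat_lit 13433249, nat_lit 13457868, nat_lit 13484921, nat_lit 13518972,
  nat_lit 14092544, nat_lit 14126384, nat_lit 14156069, nat_lit 14184230, nat_lit 14211972,
  nat_lit 14240062, nat_lit 14269315, nat_lit 14301020, nat_lit 14338401, nat_lit 15095871,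
  nat_lit 15802667, nat_lit 15831698, nat_lit 15855949, nat_lit 15878046, nat_lit 15899152,
  nat_lit 15920473, nat_lit 15995729, nat_lit 16197748, nat_lit 16215487, nat_lit 16230775,
  nat_lit 16244974, nat_lit 16258523, nat_lit 16271630, nat_lit 16284414, nat_lit 16296948,
  nat_lit 16309282, nat_lit 16321452, nat_lit 16333485, nat_lit 16345400, nat_lit 16357214,
  nat_lit 16368940, nat_lit 16380590, nat_lit 16392172, nat_lit 16403695, nat_lit 16415167,
  nat_lit 16426594, nat_lit 16437983, nat_lit 16449341, nat_lit 16460674, nat_lit 16471989,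
  nat_lit 16483293, nat_lit 16494595, nat_lit 16505905, nat_lit 16517235, nat_lit 16528601,
  nat_lit 16540023, nat_lit 16551531, nat_lit 16563168, nat_lit 16575007, nat_lit 16587177,
  nat_lit 16599951, nat_lit 16614138, nat_lit 16692004, nat_lit 16724032, nat_lit 16738196,
  nat_lit 16751022, nat_lit 16763286, nat_lit 16775258, nat_lit 16787068, nat_lit 16798793,
  nat_lit 16810484, nat_lit 16822182, nat_lit 16833921, nat_lit 16845734, nat_lit 16857656,
  nat_lit 16869727, nat_lit 16881998, nat_lit 16894535, nat_lit 16907434, nat_lit 16920839,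
  nat_lit 16935001, nat_lit 16950422, nat_lit 16968496, nat_lit 17207973, nat_lit 17293749,
  nat_lit 17311554, nat_lit 17326739, nat_lit 17340673, nat_lit 17353850, nat_lit 17366513,
  nat_lit 17378802, nat_lit 17390810, nat_lit 17402598, nat_lit 17414211, nat_lit 17425682,
  nat_lit 17437037, nat_lit 17448298, nat_lit 17459482, nat_lit 17470602, nat_lit 17481671,
  nat_lit 17492700, nat_lit 17503697, nat_lit 17514671, nat_lit 17525631, nat_lit 17536583,
  nat_lit 17547534, nat_lit 17558492, nat_lit 17569462, nat_lit 17580453, nat_lit 17591471,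
  nat_lit 17602524, nat_lit 17613621, nat_lit 17624770, nat_lit 17635981, nat_lit 17647267,
  nat_lit 17658639, nat_lit 17670115, nat_lit 17681713, nat_lit 17693455, nat_lit 17705371,
  nat_lit 17717500, nat_lit 17729889, nat_lit 17742609, nat_lit 17755762, nat_lit 17769505,
  nat_lit 17784114, nat_lit 17800160, nat_lit 17819422, nat_lit 17998522, nat_lit 18253670,
  nat_lit 18271570, nat_lit 18287939, nat_lit 18303624, nat_lit 18318933, nat_lit 18334031,
  nat_lit 18349020, nat_lit 18363976, nat_lit 18378958, nat_lit 18394017, nat_lit 18409203,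
  nat_lit 18424564, nat_lit 18440151, nat_lit 18456021, nat_lit 18472240, nat_lit 18488889,
  nat_lit 18506070, nat_lit 18523920, nat_lit 18542633, nat_lit 18562501, nat_lit 18584018,
  nat_lit 18608159, nat_lit 18637571, nat_lit 20275496, nat_lit 21206276, nat_lit 21229373,
  nat_lit 21248316, nat_lit 21265213, nat_lit 21280860, nat_lit 21295676, nat_lit 21309936,
  nat_lit 21323864, nat_lit 21337688, nat_lit 21351737, nat_lit 21366743, nat_lit 21388745,
  nat_lit 21518148, nat_lit 21530648, nat_lit 21541515, nat_lit 21551607, nat_lit 21561226,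
  nat_lit 21570518, nat_lit 21579568, nat_lit 21588429, nat_lit 21597137, nat_lit 21605717,
  nat_lit 21614189, nat_lit 21622567, nat_lit 21630865, nat_lit 21639091, nat_lit 21647254,
  nat_lit 21655360, nat_lit 21663417, nat_lit 21671428, nat_lit 21679401, nat_lit 21687338,
  nat_lit 21695244, nat_lit 21703124, nat_lit 21710982, nat_lit 21718821, nat_lit 21726646,
  nat_lit 21734460, nat_lit 21742269, nat_lit 21750077, nat_lit 21757889, nat_lit 21765710,
  nat_lit 21773547, nat_lit 21781407, nat_lit 21789298, nat_lit 21797229, nat_lit 21805213,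
  nat_lit 21813264, nat_lit 21821399, nat_lit 21829642, nat_lit 21838023, nat_lit 21846585,
  nat_lit 21855391, nat_lit 21864538, nat_lit 21874194, nat_lit 21884698, nat_lit 21896996,
  nat_lit 22009937, nat_lit 22114356, nat_lit 22126247, nat_lit 22136374, nat_lit 22145662,
  nat_lit 22154442, nat_lit 22162880, nat_lit 22171071, nat_lit 22179077, nat_lit 22186943,
  nat_lit 22194700, nat_lit 22202372, nat_lit 22209982, nat_lit 22217546, nat_lit 22225084,
  nat_lit 22232614, nat_lit 22240165, nat_lit 22247778, nat_lit 22255543, nat_lit 22263741,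
  nat_lit 22292579, nat_lit 22302775, nat_lit 22310902, nat_lit 22318741, nat_lit 22326493,
  nat_lit 22334228, nat_lit 22341984, nat_lit 22349784, nat_lit 22357648, nat_lit 22365593,
  nat_lit 22373639, nat_lit 22381805, nat_lit 22390114, nat_lit 22398595, nat_lit 22407284,
  nat_lit 22416226, nat_lit 22425485, nat_lit 22435151, nat_lit 22445364, nat_lit 22456358,
  nat_lit 22468605, nat_lit 22483387, nat_lit 22756060, nat_lit 23135550, nat_lit 23148388,
  nat_lit 23158961, nat_lit 23168403, nat_lit 23177131, nat_lit 23185353, nat_lit 23193193,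
  nat_lit 23200730, nat_lit 23208021, nat_lit 23215105, nat_lit 23222013, nat_lit 23228770,
  nat_lit 23235394, nat_lit 23241900, nat_lit 23248302, nat_lit 23254610, nat_lit 23260834,
  nat_lit 23266980, nat_lit 23273056, nat_lit 23279068, nat_lit 23285021, nat_lit 23290920,
  nat_lit 23296768, nat_lit 23302570, nat_lit 23308329, nat_lit 23314049, nat_lit 23319730,
  nat_lit 23325378, nat_lit 23330993, nat_lit 23336578, nat_lit 23342136, nat_lit 23347668,
  nat_lit 23353176, nat_lit 23358661, nat_lit 23364126, nat_lit 23369573, nat_lit 23375002,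
  nat_lit 23380415, nat_lit 23385814, nat_lit 23391200, nat_lit 23396575, nat_lit 23401940,
  nat_lit 23407297, nat_lit 23412648, nat_lit 23417993, nat_lit 23423335, nat_lit 23428675,
  nat_lit 23434014, nat_lit 23439356, nat_lit 23444702, nat_lit 23450053, nat_lit 23455413,
  nat_lit 23460785, nat_lit 23466170, nat_lit 23471573, nat_lit 23476996, nat_lit 23482446,
  nat_lit 23487925, nat_lit 23493441, nat_lit 23499000, nat_lit 23504611, nat_lit 23510284,
  nat_lit 23516033, nat_lit 23521874, nat_lit 23527832, nat_lit 23533938, nat_lit 23540237,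
  nat_lit 23546804, nat_lit 23553763, nat_lit 23561367, nat_lit 23570315, nat_lit 23822466,
  nat_lit 23900356, nat_lit 23964900, nat_lit 23987256, nat_lit 24008826, nat_lit 24016343,
  nat_lit 24022913, nat_lit 24029043, nat_lit 24034911, nat_lit 24040605, nat_lit 24046176,
  nat_lit 24051656, nat_lit 24057067, nat_lit 24062424, nat_lit 24067740, nat_lit 24073024,
  nat_lit 24078283, nat_lit 24083524, nat_lit 24088751, nat_lit 24093970, nat_lit 24099184,
  nat_lit 24104398, nat_lit 24109614, nat_lit 24114836, nat_lit 24120067, nat_lit 24125310,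
  nat_lit 24130569, nat_lit 24135846, nat_lit 24141147, nat_lit 24146474, nat_lit 24151834,
  nat_lit 24157232, nat_lit 24162678, nat_lit 24168182, nat_lit 24173765, nat_lit 24179462,
  nat_lit 24185352, nat_lit 24191682, nat_lit 24206383, nat_lit 24220291, nat_lit 24227423,
  nat_lit 24233961, nat_lit 24240412, nat_lit 24246889, nat_lit 24253448, nat_lit 24260127,
  nat_lit 24266963, nat_lit 24273991, nat_lit 24281258, nat_lit 24288822, nat_lit 24296767,
  nat_lit 24305218, nat_lit 24314386, nat_lit 24324689, nat_lit 24337262]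

/-- Numerator of the bound. -/
def upC10 : ℕ := Nat.mul (nat_lit 2032268793881605680) (Nat.pow (nat_lit 2) (nat_lit 205408))

/-- Test points. -/
def upS10_0 : List (ℕ × ℕ × ℕ × ℕ) := [
  (nat_lit 11480445, nat_lit 11480445, nat_lit 2, nat_lit 0),
  (nat_lit 11660673, nat_lit 755735, nat_lit 3, nat_lit 0),
  (nat_lit 12416408, nat_lit 755735, nat_lit 2, nat_lit 0),
  (nat_lit 12803696, nat_lit 387288, nat_lit 3, nat_lit 1),
  (nat_lit 12847470, nat_lit 43774, nat_lit 3, nat_lit 1),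
  (nat_lit 12880896, nat_lit 33426, nat_lit 3, nat_lit 1),
  (nat_lit 12910434, nat_lit 29538, nat_lit 3, nat_lit 1),
  (nat_lit 12937755, nat_lit 27321, nat_lit 3, nat_lit 1),
  (nat_lit 12963594, nat_lit 25839, nat_lit 3, nat_lit 1),
  (nat_lit 12988354, nat_lit 24760, nat_lit 3, nat_lit 1),
  (nat_lit 13012287, nat_lit 23933, nat_lit 3, nat_lit 1),
  (nat_lit 13035564, nat_lit 23277, nat_lit 3, nat_lit 1),
  (nat_lit 13058309, nat_lit 22745, nat_lit 3, nat_lit 1),
  (nat_lit 13080616, nat_lit 22307, nat_lit 3, nat_lit 1),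
  (nat_lit 13102557, nat_lit 21941, nat_lit 3, nat_lit 1),
  (nat_lit 13124195, nat_lit 21638, nat_lit 3, nat_lit 1),
  (nat_lit 13145582, nat_lit 21387, nat_lit 3, nat_lit 1),
  (nat_lit 13166762, nat_lit 21180, nat_lit 3, nat_lit 1),
  (nat_lit 13187778, nat_lit 21016, nat_lit 3, nat_lit 1),
  (nat_lit 13208669, nat_lit 20891, nat_lit 3, nat_lit 1),
  (nat_lit 13229474, nat_lit 20805, nat_lit 3, nat_lit 1),
  (nat_lit 13250232, nat_lit 20758, nat_lit 3, nat_lit 1),
  (nat_lit 13270984, nat_lit 20792, nat_lit 3, nat_lit 1),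
  (nat_lit 13291776, nat_lit 20885, nat_lit 3, nat_lit 1),
  (nat_lit 13312661, nat_lit 21040, nat_lit 3, nat_lit 1),
  (nat_lit 13333701, nat_lit 21275, nat_lit 3, nat_lit 1),
  (nat_lit 13354976, nat_lit 21613, nat_lit 3, nat_lit 1),
  (nat_lit 13376589, nat_lit 22096, nat_lit 3, nat_lit 1),
  (nat_lit 13398685, nat_lit 22798, nat_lit 3, nat_lit 1),
  (nat_lit 13421483, nat_lit 23861, nat_lit 3, nat_lit 1),
  (nat_lit 13445344, nat_lit 25629, nat_lit 3, nat_lit 1),
  (nat_lit 13470973, nat_lit 29295, nat_lit 3, nat_lit 1),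
  (nat_lit 13500268, nat_lit 36869, nat_lit 3, nat_lit 1),
  (nat_lit 13537137, nat_lit 533859, nat_lit 3, nat_lit 0),
  (nat_lit 14070996, nat_lit 533859, nat_lit 2, nat_lit 1),
  (nat_lit 14110305, nat_lit 39309, nat_lit 2, nat_lit 1),
  (nat_lit 14141517, nat_lit 31212, nat_lit 2, nat_lit 1),
  (nat_lit 14170257, nat_lit 28740, nat_lit 2, nat_lit 1),
  (nat_lit 14198103, nat_lit 27846, nat_lit 2, nat_lit 1),
  (nat_lit 14225927, nat_lit 28554, nat_lit 2, nat_lit 1),
  (nat_lit 14254481, nat_lit 30259, nat_lit 2, nat_lit 1),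
  (nat_lit 14284740, nat_lit 33862, nat_lit 2, nat_lit 1),
  (nat_lit 14318602, nat_lit 44299, nat_lit 2, nat_lit 1),
  (nat_lit 14362901, nat_lit 733042, nat_lit 2, nat_lit 1),
  (nat_lit 15095943, nat_lit 733042, nat_lit 13980, nat_lit 0),
  (nat_lit 15783318, nat_lit 687375, nat_lit 3, nat_lit 1),
  (nat_lit 15818099, nat_lit 34781, nat_lit 3, nat_lit 1),
  (nat_lit 15844194, nat_lit 26095, nat_lit 3, nat_lit 1),
  (nat_lit 15867183, nat_lit 22989, nat_lit 3, nat_lit 1),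
  (nat_lit 15888662, nat_lit 21479, nat_lit 3, nat_lit 1),
  (nat_lit 15909668, nat_lit 22618, nat_lit 3, nat_lit 1),
  (nat_lit 15932286, nat_lit 54619, nat_lit 3, nat_lit 0),
  (nat_lit 15986905, nat_lit 54619, nat_lit 2, nat_lit 1),
  (nat_lit 16014156, nat_lit 172711, nat_lit 2, nat_lit 0),
  (nat_lit 16186867, nat_lit 172711, nat_lit 3, nat_lit 1),
  (nat_lit 16207113, nat_lit 20246, nat_lit 3, nat_lit 1),
  (nat_lit 16223312, nat_lit 16199, nat_lit 3, nat_lit 1),
  (nat_lit 16237975, nat_lit 14663, nat_lit 3, nat_lit 1),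
  (nat_lit 16251814, nat_lit 13839, nat_lit 3, nat_lit 1),
  (nat_lit 16265123, nat_lit 13309, nat_lit 3, nat_lit 1),
  (nat_lit 16278057, nat_lit 12934, nat_lit 3, nat_lit 1),
  (nat_lit 16290709, nat_lit 12652, nat_lit 3, nat_lit 1),
  (nat_lit 16303137, nat_lit 12428, nat_lit 3, nat_lit 1),
  (nat_lit 16315386, nat_lit 12249, nat_lit 3, nat_lit 1),
  (nat_lit 16327484, nat_lit 12098, nat_lit 3, nat_lit 1)]

lemma upL10_0 : allB (loc upD upK upT (nat_lit 415) upC10 upG0 upG1 upF upY10)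
    upS10_0 = true := by
  decide +kernel

/-- Test points. -/
def upS10_1 : List (ℕ × ℕ × ℕ × ℕ) := [
  (nat_lit 16339456, nat_lit 11972, nat_lit 3, nat_lit 1),
  (nat_lit 16351319, nat_lit 11863, nat_lit 3, nat_lit 1),
  (nat_lit 16363087, nat_lit 11768, nat_lit 3, nat_lit 1),
  (nat_lit 16374774, nat_lit 11687, nat_lit 3, nat_lit 1),
  (nat_lit 16386389, nat_lit 11615, nat_lit 3, nat_lit 1),
  (nat_lit 16397940, nat_lit 11551, nat_lit 3, nat_lit 1),
  (nat_lit 16409437, nat_lit 11497, nat_lit 3, nat_lit 1),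
  (nat_lit 16420886, nat_lit 11449, nat_lit 3, nat_lit 1),
  (nat_lit 16432293, nat_lit 11407, nat_lit 3, nat_lit 1),
  (nat_lit 16443666, nat_lit 11373, nat_lit 3, nat_lit 1),
  (nat_lit 16455010, nat_lit 11344, nat_lit 3, nat_lit 1),
  (nat_lit 16466333, nat_lit 11323, nat_lit 3, nat_lit 1),
  (nat_lit 16477642, nat_lit 11309, nat_lit 3, nat_lit 1),
  (nat_lit 16488944, nat_lit 11304, nat_lit 3, nat_lit 1),
  (nat_lit 16500248, nat_lit 11319, nat_lit 3, nat_lit 1),
  (nat_lit 16511567, nat_lit 11345, nat_lit 3, nat_lit 1),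
  (nat_lit 16522912, nat_lit 11391, nat_lit 3, nat_lit 1),
  (nat_lit 16534303, nat_lit 11461, nat_lit 3, nat_lit 1),
  (nat_lit 16545764, nat_lit 11566, nat_lit 3, nat_lit 1),
  (nat_lit 16557330, nat_lit 11726, nat_lit 3, nat_lit 1),
  (nat_lit 16569056, nat_lit 11983, nat_lit 3, nat_lit 1),
  (nat_lit 16581039, nat_lit 12421, nat_lit 3, nat_lit 1),
  (nat_lit 16593460, nat_lit 13304, nat_lit 3, nat_lit 1),
  (nat_lit 16606764, nat_lit 16022, nat_lit 3, nat_lit 1),
  (nat_lit 16622786, nat_lit 66755, nat_lit 3, nat_lit 0),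
  (nat_lit 16689541, nat_lit 66755, nat_lit 2, nat_lit 1),
  (nat_lit 16715470, nat_lit 25929, nat_lit 2, nat_lit 1),
  (nat_lit 16731381, nat_lit 15911, nat_lit 2, nat_lit 1),
  (nat_lit 16744707, nat_lit 13326, nat_lit 2, nat_lit 1),
  (nat_lit 16757202, nat_lit 12495, nat_lit 2, nat_lit 1),
  (nat_lit 16769299, nat_lit 12097, nat_lit 2, nat_lit 1),
  (nat_lit 16781178, nat_lit 11879, nat_lit 2, nat_lit 1),
  (nat_lit 16792937, nat_lit 11759, nat_lit 2, nat_lit 1),
  (nat_lit 16804640, nat_lit 11703, nat_lit 2, nat_lit 1),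
  (nat_lit 16816330, nat_lit 11714, nat_lit 2, nat_lit 1),
  (nat_lit 16828044, nat_lit 11772, nat_lit 2, nat_lit 1),
  (nat_lit 16839816, nat_lit 11863, nat_lit 2, nat_lit 1),
  (nat_lit 16851679, nat_lit 11991, nat_lit 2, nat_lit 1),
  (nat_lit 16863670, nat_lit 12164, nat_lit 2, nat_lit 1),
  (nat_lit 16875834, nat_lit 12394, nat_lit 2, nat_lit 1),
  (nat_lit 16888228, nat_lit 12704, nat_lit 2, nat_lit 1),
  (nat_lit 16900932, nat_lit 13129, nat_lit 2, nat_lit 1),
  (nat_lit 16914061, nat_lit 13742, nat_lit 2, nat_lit 1),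
  (nat_lit 16927803, nat_lit 14700, nat_lit 2, nat_lit 1),
  (nat_lit 16942503, nat_lit 16448, nat_lit 2, nat_lit 1),
  (nat_lit 16958951, nat_lit 21277, nat_lit 2, nat_lit 1),
  (nat_lit 16980228, nat_lit 225747, nat_lit 2, nat_lit 0),
  (nat_lit 17205975, nat_lit 225747, nat_lit 3, nat_lit 1),
  (nat_lit 17282195, nat_lit 76220, nat_lit 3, nat_lit 1),
  (nat_lit 17303152, nat_lit 20957, nat_lit 3, nat_lit 1),
  (nat_lit 17319352, nat_lit 16200, nat_lit 3, nat_lit 1),
  (nat_lit 17333823, nat_lit 14471, nat_lit 3, nat_lit 1),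
  (nat_lit 17347338, nat_lit 13515, nat_lit 3, nat_lit 1),
  (nat_lit 17360235, nat_lit 12897, nat_lit 3, nat_lit 1),
  (nat_lit 17372698, nat_lit 12463, nat_lit 3, nat_lit 1),
  (nat_lit 17384837, nat_lit 12139, nat_lit 3, nat_lit 1),
  (nat_lit 17396728, nat_lit 11891, nat_lit 3, nat_lit 1),
  (nat_lit 17408424, nat_lit 11696, nat_lit 3, nat_lit 1),
  (nat_lit 17419962, nat_lit 11538, nat_lit 3, nat_lit 1),
  (nat_lit 17431373, nat_lit 11411, nat_lit 3, nat_lit 1),
  (nat_lit 17442678, nat_lit 11305, nat_lit 3, nat_lit 1),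
  (nat_lit 17453899, nat_lit 11221, nat_lit 3, nat_lit 1),
  (nat_lit 17465049, nat_lit 11150, nat_lit 3, nat_lit 1),
  (nat_lit 17476142, nat_lit 11093, nat_lit 3, nat_lit 1),
  (nat_lit 17487190, nat_lit 11048, nat_lit 3, nat_lit 1)]

lemma upL10_1 : allB (loc upD upK upT (nat_lit 415) upC10 upG0 upG1 upF upY10)
    upS10_1 = true := by
  decide +kernel

/-- Test points. -/
def upS10_2 : List (ℕ × ℕ × ℕ × ℕ) := [
  (nat_lit 17498202, nat_lit 11012, nat_lit 3, nat_lit 1),
  (nat_lit 17509186, nat_lit 10984, nat_lit 3, nat_lit 1),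
  (nat_lit 17520152, nat_lit 10966, nat_lit 3, nat_lit 1),
  (nat_lit 17531107, nat_lit 10955, nat_lit 3, nat_lit 1),
  (nat_lit 17542058, nat_lit 10954, nat_lit 3, nat_lit 1),
  (nat_lit 17553012, nat_lit 10963, nat_lit 3, nat_lit 1),
  (nat_lit 17563975, nat_lit 10980, nat_lit 3, nat_lit 1),
  (nat_lit 17574955, nat_lit 11003, nat_lit 3, nat_lit 1),
  (nat_lit 17585958, nat_lit 11035, nat_lit 3, nat_lit 1),
  (nat_lit 17596993, nat_lit 11074, nat_lit 3, nat_lit 1),
  (nat_lit 17608067, nat_lit 11121, nat_lit 3, nat_lit 1),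
  (nat_lit 17619188, nat_lit 11179, nat_lit 3, nat_lit 1),
  (nat_lit 17630367, nat_lit 11247, nat_lit 3, nat_lit 1),
  (nat_lit 17641614, nat_lit 11327, nat_lit 3, nat_lit 1),
  (nat_lit 17652941, nat_lit 11422, nat_lit 3, nat_lit 1),
  (nat_lit 17664363, nat_lit 11534, nat_lit 3, nat_lit 1),
  (nat_lit 17675897, nat_lit 11667, nat_lit 3, nat_lit 1),
  (nat_lit 17687564, nat_lit 11825, nat_lit 3, nat_lit 1),
  (nat_lit 17699389, nat_lit 12017, nat_lit 3, nat_lit 1),
  (nat_lit 17711406, nat_lit 12252, nat_lit 3, nat_lit 1),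
  (nat_lit 17723658, nat_lit 12544, nat_lit 3, nat_lit 1),
  (nat_lit 17736202, nat_lit 12921, nat_lit 3, nat_lit 1),
  (nat_lit 17749123, nat_lit 13423, nat_lit 3, nat_lit 1),
  (nat_lit 17762546, nat_lit 14130, nat_lit 3, nat_lit 1),
  (nat_lit 17776676, nat_lit 15223, nat_lit 3, nat_lit 1),
  (nat_lit 17791899, nat_lit 17238, nat_lit 3, nat_lit 1),
  (nat_lit 17809137, nat_lit 22312, nat_lit 3, nat_lit 1),
  (nat_lit 17831449, nat_lit 167141, nat_lit 3, nat_lit 1),
  (nat_lit 17998590, nat_lit 182710, nat_lit 2003, nat_lit 0),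
  (nat_lit 18181300, nat_lit 182710, nat_lit 2, nat_lit 0),
  (nat_lit 18243107, nat_lit 61807, nat_lit 3, nat_lit 1),
  (nat_lit 18262918, nat_lit 19811, nat_lit 3, nat_lit 1),
  (nat_lit 18279871, nat_lit 16953, nat_lit 3, nat_lit 1),
  (nat_lit 18295842, nat_lit 15971, nat_lit 3, nat_lit 1),
  (nat_lit 18311313, nat_lit 15471, nat_lit 3, nat_lit 1),
  (nat_lit 18326501, nat_lit 15188, nat_lit 3, nat_lit 1),
  (nat_lit 18341534, nat_lit 15033, nat_lit 3, nat_lit 1),
  (nat_lit 18356498, nat_lit 14964, nat_lit 3, nat_lit 1),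
  (nat_lit 18371460, nat_lit 15015, nat_lit 3, nat_lit 1),
  (nat_lit 18386475, nat_lit 15116, nat_lit 3, nat_lit 1),
  (nat_lit 18401591, nat_lit 15268, nat_lit 3, nat_lit 1),
  (nat_lit 18416859, nat_lit 15467, nat_lit 3, nat_lit 1),
  (nat_lit 18432326, nat_lit 15721, nat_lit 3, nat_lit 1),
  (nat_lit 18448047, nat_lit 16035, nat_lit 3, nat_lit 1),
  (nat_lit 18464082, nat_lit 16423, nat_lit 3, nat_lit 1),
  (nat_lit 18480505, nat_lit 16900, nat_lit 3, nat_lit 1),
  (nat_lit 18497405, nat_lit 17496, nat_lit 3, nat_lit 1),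
  (nat_lit 18514901, nat_lit 18252, nat_lit 3, nat_lit 1),
  (nat_lit 18533153, nat_lit 19245, nat_lit 3, nat_lit 1),
  (nat_lit 18552398, nat_lit 20611, nat_lit 3, nat_lit 1),
  (nat_lit 18573009, nat_lit 22654, nat_lit 3, nat_lit 1),
  (nat_lit 18595663, nat_lit 26212, nat_lit 3, nat_lit 1),
  (nat_lit 18621875, nat_lit 35550, nat_lit 3, nat_lit 1),
  (nat_lit 18657425, nat_lit 1617626, nat_lit 3, nat_lit 0),
  (nat_lit 20275051, nat_lit 1617626, nat_lit 132, nat_lit 1),
  (nat_lit 21190655, nat_lit 915604, nat_lit 2, nat_lit 1),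
  (nat_lit 21218607, nat_lit 27952, nat_lit 2, nat_lit 1),
  (nat_lit 21239178, nat_lit 20571, nat_lit 2, nat_lit 1),
  (nat_lit 21256957, nat_lit 17779, nat_lit 2, nat_lit 1),
  (nat_lit 21273162, nat_lit 16205, nat_lit 2, nat_lit 1),
  (nat_lit 21288353, nat_lit 15191, nat_lit 2, nat_lit 1),
  (nat_lit 21302861, nat_lit 14508, nat_lit 2, nat_lit 1),
  (nat_lit 21316928, nat_lit 14067, nat_lit 2, nat_lit 1),
  (nat_lit 21330772, nat_lit 13883, nat_lit 2, nat_lit 1),
  (nat_lit 21344655, nat_lit 14380, nat_lit 2, nat_lit 1)]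

lemma upL10_2 : allB (loc upD upK upT (nat_lit 415) upC10 upG0 upG1 upF upY10)
    upS10_2 = true := by
  decide +kernel

/-- Test points. -/
def upS10_3 : List (ℕ × ℕ × ℕ × ℕ) := [
  (nat_lit 21359035, nat_lit 16337, nat_lit 2, nat_lit 1),
  (nat_lit 21375372, nat_lit 19460, nat_lit 2, nat_lit 1),
  (nat_lit 21394832, nat_lit 115392, nat_lit 2, nat_lit 0),
  (nat_lit 21510224, nat_lit 115392, nat_lit 3, nat_lit 1),
  (nat_lit 21524711, nat_lit 14487, nat_lit 3, nat_lit 1),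
  (nat_lit 21536209, nat_lit 11498, nat_lit 3, nat_lit 1),
  (nat_lit 21546633, nat_lit 10424, nat_lit 3, nat_lit 1),
  (nat_lit 21556464, nat_lit 9831, nat_lit 3, nat_lit 1),
  (nat_lit 21565907, nat_lit 9443, nat_lit 3, nat_lit 1),
  (nat_lit 21575070, nat_lit 9163, nat_lit 3, nat_lit 1),
  (nat_lit 21584020, nat_lit 8950, nat_lit 3, nat_lit 1),
  (nat_lit 21592800, nat_lit 8780, nat_lit 3, nat_lit 1),
  (nat_lit 21601442, nat_lit 8642, nat_lit 3, nat_lit 1),
  (nat_lit 21609965, nat_lit 8523, nat_lit 3, nat_lit 1),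
  (nat_lit 21618389, nat_lit 8424, nat_lit 3, nat_lit 1),
  (nat_lit 21626726, nat_lit 8337, nat_lit 3, nat_lit 1),
  (nat_lit 21634986, nat_lit 8260, nat_lit 3, nat_lit 1),
  (nat_lit 21643180, nat_lit 8194, nat_lit 3, nat_lit 1),
  (nat_lit 21651314, nat_lit 8134, nat_lit 3, nat_lit 1),
  (nat_lit 21659394, nat_lit 8080, nat_lit 3, nat_lit 1),
  (nat_lit 21667428, nat_lit 8034, nat_lit 3, nat_lit 1),
  (nat_lit 21675419, nat_lit 7991, nat_lit 3, nat_lit 1),
  (nat_lit 21683374, nat_lit 7955, nat_lit 3, nat_lit 1),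
  (nat_lit 21691295, nat_lit 7921, nat_lit 3, nat_lit 1),
  (nat_lit 21699187, nat_lit 7892, nat_lit 3, nat_lit 1),
  (nat_lit 21707056, nat_lit 7869, nat_lit 3, nat_lit 1),
  (nat_lit 21714904, nat_lit 7848, nat_lit 3, nat_lit 1),
  (nat_lit 21722735, nat_lit 7831, nat_lit 3, nat_lit 1),
  (nat_lit 21730554, nat_lit 7819, nat_lit 3, nat_lit 1),
  (nat_lit 21738365, nat_lit 7811, nat_lit 3, nat_lit 1),
  (nat_lit 21746173, nat_lit 7809, nat_lit 3, nat_lit 1),
  (nat_lit 21753982, nat_lit 7816, nat_lit 3, nat_lit 1),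
  (nat_lit 21761798, nat_lit 7828, nat_lit 3, nat_lit 1),
  (nat_lit 21769626, nat_lit 7848, nat_lit 3, nat_lit 1),
  (nat_lit 21777474, nat_lit 7874, nat_lit 3, nat_lit 1),
  (nat_lit 21785348, nat_lit 7910, nat_lit 3, nat_lit 1),
  (nat_lit 21793258, nat_lit 7956, nat_lit 3, nat_lit 1),
  (nat_lit 21801214, nat_lit 8015, nat_lit 3, nat_lit 1),
  (nat_lit 21809229, nat_lit 8091, nat_lit 3, nat_lit 1),
  (nat_lit 21817320, nat_lit 8185, nat_lit 3, nat_lit 1),
  (nat_lit 21825505, nat_lit 8308, nat_lit 3, nat_lit 1),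
  (nat_lit 21833813, nat_lit 8465, nat_lit 3, nat_lit 1),
  (nat_lit 21842278, nat_lit 8675, nat_lit 3, nat_lit 1),
  (nat_lit 21850953, nat_lit 8961, nat_lit 3, nat_lit 1),
  (nat_lit 21859914, nat_lit 9373, nat_lit 3, nat_lit 1),
  (nat_lit 21869287, nat_lit 10019, nat_lit 3, nat_lit 1),
  (nat_lit 21879306, nat_lit 11197, nat_lit 3, nat_lit 1),
  (nat_lit 21890503, nat_lit 14466, nat_lit 3, nat_lit 1),
  (nat_lit 21904969, nat_lit 104893, nat_lit 3, nat_lit 0),
  (nat_lit 22009862, nat_lit 104893, nat_lit 478, nat_lit 1),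
  (nat_lit 22106626, nat_lit 96764, nat_lit 2, nat_lit 1),
  (nat_lit 22120638, nat_lit 14012, nat_lit 2, nat_lit 1),
  (nat_lit 22131449, nat_lit 10811, nat_lit 2, nat_lit 1),
  (nat_lit 22141096, nat_lit 9647, nat_lit 2, nat_lit 1),
  (nat_lit 22150103, nat_lit 9007, nat_lit 2, nat_lit 1),
  (nat_lit 22158697, nat_lit 8594, nat_lit 2, nat_lit 1),
  (nat_lit 22167002, nat_lit 8305, nat_lit 2, nat_lit 1),
  (nat_lit 22175094, nat_lit 8092, nat_lit 2, nat_lit 1),
  (nat_lit 22183026, nat_lit 7932, nat_lit 2, nat_lit 1),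
  (nat_lit 22190833, nat_lit 7807, nat_lit 2, nat_lit 1),
  (nat_lit 22198545, nat_lit 7712, nat_lit 2, nat_lit 1),
  (nat_lit 22206184, nat_lit 7639, nat_lit 2, nat_lit 1),
  (nat_lit 22213768, nat_lit 7584, nat_lit 2, nat_lit 1),
  (nat_lit 22221317, nat_lit 7549, nat_lit 2, nat_lit 1),
  (nat_lit 22228848, nat_lit 7537, nat_lit 2, nat_lit 1)]

lemma upL10_3 : allB (loc upD upK upT (nat_lit 415) upC10 upG0 upG1 upF upY10)
    upS10_3 = true := by
  decide +kernel

/-- Test points. -/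
def upS10_4 : List (ℕ × ℕ × ℕ × ℕ) := [
  (nat_lit 22236385, nat_lit 7575, nat_lit 2, nat_lit 1),
  (nat_lit 22243960, nat_lit 7672, nat_lit 2, nat_lit 1),
  (nat_lit 22251632, nat_lit 7918, nat_lit 2, nat_lit 1),
  (nat_lit 22259550, nat_lit 8836, nat_lit 2, nat_lit 1),
  (nat_lit 22268386, nat_lit 21139, nat_lit 2, nat_lit 0),
  (nat_lit 22289525, nat_lit 21139, nat_lit 3, nat_lit 1),
  (nat_lit 22298364, nat_lit 8839, nat_lit 3, nat_lit 1),
  (nat_lit 22306900, nat_lit 8536, nat_lit 3, nat_lit 1),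
  (nat_lit 22314840, nat_lit 7940, nat_lit 3, nat_lit 1),
  (nat_lit 22322622, nat_lit 7782, nat_lit 3, nat_lit 1),
  (nat_lit 22330360, nat_lit 7742, nat_lit 3, nat_lit 1),
  (nat_lit 22338102, nat_lit 7775, nat_lit 3, nat_lit 1),
  (nat_lit 22345877, nat_lit 7830, nat_lit 3, nat_lit 1),
  (nat_lit 22353707, nat_lit 7902, nat_lit 3, nat_lit 1),
  (nat_lit 22361609, nat_lit 7993, nat_lit 3, nat_lit 1),
  (nat_lit 22369602, nat_lit 8104, nat_lit 3, nat_lit 1),
  (nat_lit 22377706, nat_lit 8234, nat_lit 3, nat_lit 1),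
  (nat_lit 22385940, nat_lit 8391, nat_lit 3, nat_lit 1),
  (nat_lit 22394331, nat_lit 8580, nat_lit 3, nat_lit 1),
  (nat_lit 22402911, nat_lit 8809, nat_lit 3, nat_lit 1),
  (nat_lit 22411720, nat_lit 9091, nat_lit 3, nat_lit 1),
  (nat_lit 22420811, nat_lit 9449, nat_lit 3, nat_lit 1),
  (nat_lit 22430260, nat_lit 9918, nat_lit 3, nat_lit 1),
  (nat_lit 22440178, nat_lit 10564, nat_lit 3, nat_lit 1),
  (nat_lit 22450742, nat_lit 11536, nat_lit 3, nat_lit 1),
  (nat_lit 22462278, nat_lit 13240, nat_lit 3, nat_lit 1),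
  (nat_lit 22475518, nat_lit 17753, nat_lit 3, nat_lit 1),
  (nat_lit 22493271, nat_lit 263120, nat_lit 3, nat_lit 1),
  (nat_lit 22756391, nat_lit 370528, nat_lit 305, nat_lit 0),
  (nat_lit 23126919, nat_lit 370528, nat_lit 2, nat_lit 1),
  (nat_lit 23142394, nat_lit 15475, nat_lit 2, nat_lit 1),
  (nat_lit 23153857, nat_lit 11463, nat_lit 2, nat_lit 1),
  (nat_lit 23163790, nat_lit 9933, nat_lit 2, nat_lit 1),
  (nat_lit 23172840, nat_lit 9050, nat_lit 2, nat_lit 1),
  (nat_lit 23181296, nat_lit 8456, nat_lit 2, nat_lit 1),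
  (nat_lit 23189315, nat_lit 8019, nat_lit 2, nat_lit 1),
  (nat_lit 23196995, nat_lit 7680, nat_lit 2, nat_lit 1),
  (nat_lit 23204404, nat_lit 7409, nat_lit 2, nat_lit 1),
  (nat_lit 23211587, nat_lit 7183, nat_lit 2, nat_lit 1),
  (nat_lit 23218579, nat_lit 6992, nat_lit 2, nat_lit 1),
  (nat_lit 23225409, nat_lit 6830, nat_lit 2, nat_lit 1),
  (nat_lit 23232098, nat_lit 6689, nat_lit 2, nat_lit 1),
  (nat_lit 23238661, nat_lit 6563, nat_lit 2, nat_lit 1),
  (nat_lit 23245113, nat_lit 6452, nat_lit 2, nat_lit 1),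
  (nat_lit 23251467, nat_lit 6354, nat_lit 2, nat_lit 1),
  (nat_lit 23257732, nat_lit 6265, nat_lit 2, nat_lit 1),
  (nat_lit 23263916, nat_lit 6184, nat_lit 2, nat_lit 1),
  (nat_lit 23270026, nat_lit 6110, nat_lit 2, nat_lit 1),
  (nat_lit 23276070, nat_lit 6044, nat_lit 2, nat_lit 1),
  (nat_lit 23282052, nat_lit 5982, nat_lit 2, nat_lit 1),
  (nat_lit 23287977, nat_lit 5925, nat_lit 2, nat_lit 1),
  (nat_lit 23293850, nat_lit 5873, nat_lit 2, nat_lit 1),
  (nat_lit 23299675, nat_lit 5825, nat_lit 2, nat_lit 1),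
  (nat_lit 23305455, nat_lit 5780, nat_lit 2, nat_lit 1),
  (nat_lit 23311194, nat_lit 5739, nat_lit 2, nat_lit 1),
  (nat_lit 23316894, nat_lit 5700, nat_lit 2, nat_lit 1),
  (nat_lit 23322558, nat_lit 5664, nat_lit 2, nat_lit 1),
  (nat_lit 23328189, nat_lit 5631, nat_lit 2, nat_lit 1),
  (nat_lit 23333789, nat_lit 5600, nat_lit 2, nat_lit 1),
  (nat_lit 23339360, nat_lit 5571, nat_lit 2, nat_lit 1),
  (nat_lit 23344905, nat_lit 5545, nat_lit 2, nat_lit 1),
  (nat_lit 23350425, nat_lit 5520, nat_lit 2, nat_lit 1),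
  (nat_lit 23355921, nat_lit 5496, nat_lit 2, nat_lit 1),
  (nat_lit 23361396, nat_lit 5475, nat_lit 2, nat_lit 1),
  (nat_lit 23366852, nat_lit 5456, nat_lit 2, nat_lit 1)]

lemma upL10_4 : allB (loc upD upK upT (nat_lit 415) upC10 upG0 upG1 upF upY10)
    upS10_4 = true := by
  decide +kernel

/-- Test points. -/
def upS10_5 : List (ℕ × ℕ × ℕ × ℕ) := [
  (nat_lit 23372289, nat_lit 5437, nat_lit 2, nat_lit 1),
  (nat_lit 23377710, nat_lit 5421, nat_lit 2, nat_lit 1),
  (nat_lit 23383116, nat_lit 5406, nat_lit 2, nat_lit 1),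
  (nat_lit 23388508, nat_lit 5392, nat_lit 2, nat_lit 1),
  (nat_lit 23393889, nat_lit 5381, nat_lit 2, nat_lit 1),
  (nat_lit 23399259, nat_lit 5370, nat_lit 2, nat_lit 1),
  (nat_lit 23404620, nat_lit 5361, nat_lit 2, nat_lit 1),
  (nat_lit 23409973, nat_lit 5353, nat_lit 2, nat_lit 1),
  (nat_lit 23415321, nat_lit 5348, nat_lit 2, nat_lit 1),
  (nat_lit 23420664, nat_lit 5343, nat_lit 2, nat_lit 1),
  (nat_lit 23426005, nat_lit 5341, nat_lit 2, nat_lit 1),
  (nat_lit 23431344, nat_lit 5341, nat_lit 2, nat_lit 1),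
  (nat_lit 23436685, nat_lit 5343, nat_lit 2, nat_lit 1),
  (nat_lit 23442028, nat_lit 5349, nat_lit 2, nat_lit 1),
  (nat_lit 23447377, nat_lit 5355, nat_lit 2, nat_lit 1),
  (nat_lit 23452732, nat_lit 5365, nat_lit 2, nat_lit 1),
  (nat_lit 23458097, nat_lit 5379, nat_lit 2, nat_lit 1),
  (nat_lit 23463476, nat_lit 5393, nat_lit 2, nat_lit 1),
  (nat_lit 23468869, nat_lit 5413, nat_lit 2, nat_lit 1),
  (nat_lit 23474282, nat_lit 5436, nat_lit 2, nat_lit 1),
  (nat_lit 23479718, nat_lit 5463, nat_lit 2, nat_lit 1),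
  (nat_lit 23485181, nat_lit 5497, nat_lit 2, nat_lit 1),
  (nat_lit 23490678, nat_lit 5537, nat_lit 2, nat_lit 1),
  (nat_lit 23496215, nat_lit 5583, nat_lit 2, nat_lit 1),
  (nat_lit 23501798, nat_lit 5641, nat_lit 2, nat_lit 1),
  (nat_lit 23507439, nat_lit 5709, nat_lit 2, nat_lit 1),
  (nat_lit 23513148, nat_lit 5793, nat_lit 2, nat_lit 1),
  (nat_lit 23518941, nat_lit 5896, nat_lit 2, nat_lit 1),
  (nat_lit 23524837, nat_lit 6027, nat_lit 2, nat_lit 1),
  (nat_lit 23530864, nat_lit 6195, nat_lit 2, nat_lit 1),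
  (nat_lit 23537059, nat_lit 6422, nat_lit 2, nat_lit 1),
  (nat_lit 23543481, nat_lit 6742, nat_lit 2, nat_lit 1),
  (nat_lit 23550223, nat_lit 7236, nat_lit 2, nat_lit 1),
  (nat_lit 23557459, nat_lit 8126, nat_lit 2, nat_lit 1),
  (nat_lit 23565585, nat_lit 10561, nat_lit 2, nat_lit 1),
  (nat_lit 23576146, nat_lit 157352, nat_lit 2, nat_lit 0),
  (nat_lit 23733498, nat_lit 157352, nat_lit 3, nat_lit 0),
  (nat_lit 23822427, nat_lit 88929, nat_lit 154, nat_lit 1),
  (nat_lit 23896972, nat_lit 74545, nat_lit 2, nat_lit 1),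
  (nat_lit 23917995, nat_lit 46865, nat_lit 2, nat_lit 0),
  (nat_lit 23964860, nat_lit 46865, nat_lit 821, nat_lit 1),
  (nat_lit 23985943, nat_lit 21083, nat_lit 3, nat_lit 1),
  (nat_lit 24004091, nat_lit 18148, nat_lit 3, nat_lit 1),
  (nat_lit 24012767, nat_lit 8676, nat_lit 3, nat_lit 1),
  (nat_lit 24019701, nat_lit 6934, nat_lit 3, nat_lit 1),
  (nat_lit 24026019, nat_lit 6318, nat_lit 3, nat_lit 1),
  (nat_lit 24032003, nat_lit 5984, nat_lit 3, nat_lit 1),
  (nat_lit 24037776, nat_lit 5773, nat_lit 3, nat_lit 1),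
  (nat_lit 24043404, nat_lit 5628, nat_lit 3, nat_lit 1),
  (nat_lit 24048926, nat_lit 5522, nat_lit 3, nat_lit 1),
  (nat_lit 24054369, nat_lit 5443, nat_lit 3, nat_lit 1),
  (nat_lit 24059751, nat_lit 5382, nat_lit 3, nat_lit 1),
  (nat_lit 24065087, nat_lit 5336, nat_lit 3, nat_lit 1),
  (nat_lit 24070385, nat_lit 5298, nat_lit 3, nat_lit 1),
  (nat_lit 24075656, nat_lit 5271, nat_lit 3, nat_lit 1),
  (nat_lit 24080905, nat_lit 5249, nat_lit 3, nat_lit 1),
  (nat_lit 24086139, nat_lit 5234, nat_lit 3, nat_lit 1),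
  (nat_lit 24091361, nat_lit 5222, nat_lit 3, nat_lit 1),
  (nat_lit 24096577, nat_lit 5216, nat_lit 3, nat_lit 1),
  (nat_lit 24101791, nat_lit 5214, nat_lit 3, nat_lit 1),
  (nat_lit 24107005, nat_lit 5219, nat_lit 3, nat_lit 1),
  (nat_lit 24112224, nat_lit 5226, nat_lit 3, nat_lit 1),
  (nat_lit 24117450, nat_lit 5237, nat_lit 3, nat_lit 1),
  (nat_lit 24122687, nat_lit 5250, nat_lit 3, nat_lit 1),
  (nat_lit 24127937, nat_lit 5268, nat_lit 3, nat_lit 1)]

lemma upL10_5 : allB (loc upD upK upT (nat_lit 415) upC10 upG0 upG1 upF upY10)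
    upS10_5 = true := by
  decide +kernel

/-- Test points. -/
def upS10_6 : List (ℕ × ℕ × ℕ × ℕ) := [
  (nat_lit 24133205, nat_lit 5288, nat_lit 3, nat_lit 1),
  (nat_lit 24138493, nat_lit 5314, nat_lit 3, nat_lit 1),
  (nat_lit 24143807, nat_lit 5343, nat_lit 3, nat_lit 1),
  (nat_lit 24149150, nat_lit 5378, nat_lit 3, nat_lit 1),
  (nat_lit 24154528, nat_lit 5420, nat_lit 3, nat_lit 1),
  (nat_lit 24159948, nat_lit 5474, nat_lit 3, nat_lit 1),
  (nat_lit 24165422, nat_lit 5540, nat_lit 3, nat_lit 1),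
  (nat_lit 24170962, nat_lit 5634, nat_lit 3, nat_lit 1),
  (nat_lit 24176596, nat_lit 5779, nat_lit 3, nat_lit 1),
  (nat_lit 24182375, nat_lit 6054, nat_lit 3, nat_lit 1),
  (nat_lit 24188429, nat_lit 6915, nat_lit 3, nat_lit 1),
  (nat_lit 24195344, nat_lit 10996, nat_lit 3, nat_lit 0),
  (nat_lit 24206340, nat_lit 10996, nat_lit 216, nat_lit 1),
  (nat_lit 24216775, nat_lit 10435, nat_lit 2, nat_lit 1),
  (nat_lit 24224022, nat_lit 7247, nat_lit 2, nat_lit 1),
  (nat_lit 24230716, nat_lit 6694, nat_lit 2, nat_lit 1),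
  (nat_lit 24237188, nat_lit 6472, nat_lit 2, nat_lit 1),
  (nat_lit 24243643, nat_lit 6513, nat_lit 2, nat_lit 1),
  (nat_lit 24250156, nat_lit 6614, nat_lit 2, nat_lit 1),
  (nat_lit 24256770, nat_lit 6753, nat_lit 2, nat_lit 1),
  (nat_lit 24263523, nat_lit 6927, nat_lit 2, nat_lit 1),
  (nat_lit 24270450, nat_lit 7141, nat_lit 2, nat_lit 1),
  (nat_lit 24277591, nat_lit 7407, nat_lit 2, nat_lit 1),
  (nat_lit 24284998, nat_lit 7743, nat_lit 2, nat_lit 1),
  (nat_lit 24292741, nat_lit 8178, nat_lit 2, nat_lit 1),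
  (nat_lit 24300919, nat_lit 8775, nat_lit 2, nat_lit 1),
  (nat_lit 24309694, nat_lit 9660, nat_lit 2, nat_lit 1),
  (nat_lit 24319354, nat_lit 11196, nat_lit 2, nat_lit 1),
  (nat_lit 24330550, nat_lit 15210, nat_lit 2, nat_lit 1),
  (nat_lit 24345760, nat_lit 654240, nat_lit 2, nat_lit 0)]

lemma upL10_6 : allB (loc upD upK upT (nat_lit 415) upC10 upG0 upG1 upF upY10)
    upS10_6 = true := by
  decide +kernel

/-- All the test points. -/
def upS10 : List (ℕ × ℕ × ℕ × ℕ) :=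
  upS10_0 ++ (upS10_1 ++ (upS10_2 ++ (upS10_3 ++ (upS10_4 ++ (upS10_5 ++ (upS10_6))))))

lemma upLoc10 : ∀ e ∈ upS10, loc upD upK upT (nat_lit 415) upC10 upG0 upG1 upF upY10 e = true := by
  unfold upS10
  refine List.forall_mem_append.2 ⟨allB_spec upL10_0, ?_⟩
  refine List.forall_mem_append.2 ⟨allB_spec upL10_1, ?_⟩
  refine List.forall_mem_append.2 ⟨allB_spec upL10_2, ?_⟩
  refine List.forall_mem_append.2 ⟨allB_spec upL10_3, ?_⟩
  refine List.forall_mem_append.2 ⟨allB_spec upL10_4, ?_⟩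
  refine List.forall_mem_append.2 ⟨allB_spec upL10_5, ?_⟩
  exact allB_spec upL10_6

theorem upB10 : ∀ t ∈ Set.Icc (0 : ℝ) (1 / 4), |(Bp upD upY10).eval t *
    aeval t (wp upG0 upG1 upF)| ≤ upC10 / (upD : ℝ) ^ (upG0 + upG1 + dgF upF + upY10.length) :=
  level_bound (K := upK) (T := upT) (cnt := nat_lit 415) (cs := upS10) (by decide +kernel)
    (by decide +kernel) upF_ok (by decide +kernel) (by decide +kernel) (by decide +kernel)
    (by decide +kernel) (by decide +kernel) (by decide +kernel) upLoc10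

theorem upA10 : AOK upD 32 17850625 100000000 (upG0 + upG1 + dgF upF) upC10 287512 upY10.length := by
  decide +kernel

end Up

end IntCheb
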