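import Pool.Agent.Lib.MP_6205a3_nt.B66.UpP12_0
import Pool.Agent.Lib.MP_6205a3_nt.B66.UpP12_1

/-!
# MP_6205a3_nt : level 12 of the upper bound certificate
-/

open Finset Polynomial

set_option autoImplicit false
set_option maxRecDepth 100000

namespace IntCheb

namespace Up

open Cert

/-- All the test points. -/
def upS12 : List (ℕ × ℕ × ℕ × ℕ) :=
  upS12_0 ++ (upS12_1 ++ (upS12_2 ++ (upS12_3 ++ (upS12_4 ++ (upS12_5 ++ (upS12_6 ++ (upS12_7
  ++ (upS12_8 ++ (upS12_9 ++ (upS12_10 ++ (upS12_11 ++ (upS12_12 ++ (upS12_13)))))))))))))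

lemma upLoc12 : ∀ e ∈ upS12, loc upD upK upT (nat_lit 603) upC12 upG0 upG1 upF upY12 e = true := by
  unfold upS12
  refine List.forall_mem_append.2 ⟨allB_spec upL12_0, ?_⟩
  refine List.forall_mem_append.2 ⟨allB_spec upL12_1, ?_⟩
  refine List.forall_mem_append.2 ⟨allB_spec upL12_2, ?_⟩
  refine List.forall_mem_append.2 ⟨allB_spec upL12_3, ?_⟩
  refine List.forall_mem_append.2 ⟨allB_spec upL12_4, ?_⟩
  refine List.forall_mem_append.2 ⟨allB_spec upL12_5, ?_⟩
  refine List.forall_mem_append.2 ⟨allB_spec upL12_6, ?_⟩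
  refine List.forall_mem_append.2 ⟨allB_spec upL12_7, ?_⟩
  refine List.forall_mem_append.2 ⟨allB_spec upL12_8, ?_⟩
  refine List.forall_mem_append.2 ⟨allB_spec upL12_9, ?_⟩
  refine List.forall_mem_append.2 ⟨allB_spec upL12_10, ?_⟩
  refine List.forall_mem_append.2 ⟨allB_spec upL12_11, ?_⟩
  refine List.forall_mem_append.2 ⟨allB_spec upL12_12, ?_⟩
  exact allB_spec upL12_13

theorem upB12 : ∀ t ∈ Set.Icc (0 : ℝ) (1 / 4), |(Bp upD upY12).eval t *
    aeval t (wp upG0 upG1 upF)| ≤ upC12 / (upD : ℝ) ^ (upG0 + upG1 + dgF upF + upY12.length) :=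
  level_bound (K := upK) (T := upT) (cnt := nat_lit 603) (cs := upS12) (by decide +kernel)
    (by decide +kernel) upF_ok (by decide +kernel) (by decide +kernel) (by decide +kernel)
    (by decide +kernel) (by decide +kernel) (by decide +kernel) upLoc12

theorem upA12 : AOK upD 32 17850625 100000000 (upG0 + upG1 + dgF upF) upC12 299881 upY12.length := by
  decide +kernel

end Up

end IntCheb
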