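import Pool.Agent.Lib.MP_6205a3_nt.B66.UpY16

/-!
# MP_6205a3_nt : checks of level 16 of the upper bound certificate
-/

open Finset Polynomial

set_option autoImplicit false
set_option maxRecDepth 100000

namespace IntCheb

namespace Up

open Cert

lemma upL16_0 : allB (loc upD upK upT (nat_lit 1123) upC16 upG0 upG1 upF upY16)
    upS16_0 = true := by
  decide +kernel

lemma upL16_1 : allB (loc upD upK upT (nat_lit 1123) upC16 upG0 upG1 upF upY16)
    upS16_1 = true := by
  decide +kernel

lemma upL16_2 : allB (loc upD upK upT (nat_lit 1123) upC16 upG0 upG1 upF upY16)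
    upS16_2 = true := by
  decide +kernel

lemma upL16_3 : allB (loc upD upK upT (nat_lit 1123) upC16 upG0 upG1 upF upY16)
    upS16_3 = true := by
  decide +kernel

lemma upL16_4 : allB (loc upD upK upT (nat_lit 1123) upC16 upG0 upG1 upF upY16)
    upS16_4 = true := by
  decide +kernel

lemma upL16_5 : allB (loc upD upK upT (nat_lit 1123) upC16 upG0 upG1 upF upY16)
    upS16_5 = true := by
  decide +kernel

lemma upL16_6 : allB (loc upD upK upT (nat_lit 1123) upC16 upG0 upG1 upF upY16)
    upS16_6 = true := by
  decide +kernel

lemma upL16_7 : allB (loc upD upK upT (nat_lit 1123) upC16 upG0 upG1 upF upY16)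
    upS16_7 = true := by
  decide +kernel

lemma upL16_8 : allB (loc upD upK upT (nat_lit 1123) upC16 upG0 upG1 upF upY16)
    upS16_8 = true := by
  decide +kernel

lemma upL16_9 : allB (loc upD upK upT (nat_lit 1123) upC16 upG0 upG1 upF upY16)
    upS16_9 = true := by
  decide +kernel

end Up

end IntCheb
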