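import Pool.Agent.Lib.MP_6205a3_nt.B66.UpY16
import Pool.Agent.Lib.MP_6205a3_nt.B66.UpP16_0

/-!
# MP_6205a3_nt : checks of level 16 of the upper bound certificate
-/

open Finset Polynomial

set_option autoImplicit false
set_option maxRecDepth 100000

namespace IntCheb

namespace Up

open Cert

lemma upL16_20 : allB (loc upD upK upT (nat_lit 1123) upC16 upG0 upG1 upF upY16)
    upS16_20 = true := by
  decide +kernel

lemma upL16_21 : allB (loc upD upK upT (nat_lit 1123) upC16 upG0 upG1 upF upY16)
    upS16_21 = true := by
  decide +kernel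

lemma upL16_22 : allB (loc upD upK upT (nat_lit 1123) upC16 upG0 upG1 upF upY16)
    upS16_22 = true := by
  decide +kernel

lemma upL16_23 : allB (loc upD upK upT (nat_lit 1123) upC16 upG0 upG1 upF upY16)
    upS16_23 = true := by
  decide +kernel

lemma upL16_24 : allB (loc upD upK upT (nat_lit 1123) upC16 upG0 upG1 upF upY16)
    upS16_24 = true := by
  decide +kernel

lemma upL16_25 : allB (loc upD upK upT (nat_lit 1123) upC16 upG0 upG1 upF upY16)
    upS16_25 = true := by
  decide +kernel

lemma upL16_26 : allB (loc upD upK upT (nat_lit 1123) upC16 upG0 upG1 upF upY16)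
    upS16_26 = true := by
  decide +kernel

lemma upL16_27 : allB (loc upD upK upT (nat_lit 1123) upC16 upG0 upG1 upF upY16)
    upS16_27 = true := by
  decide +kernel

lemma upL16_28 : allB (loc upD upK upT (nat_lit 1123) upC16 upG0 upG1 upF upY16)
    upS16_28 = true := by
  decide +kernel

lemma upL16_29 : allB (loc upD upK upT (nat_lit 1123) upC16 upG0 upG1 upF upY16)
    upS16_29 = true := by
  decide +kernel

end Up

end IntCheb
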