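import Pool.Agent.Lib.MP_6205a3_nt.B66.UpY14
import Pool.Agent.Lib.MP_6205a3_nt.B66.UpP16_2

/-!
# MP_6205a3_nt : checks of level 14 of the upper bound certificate
-/

open Finset Polynomial

set_option autoImplicit false
set_option maxRecDepth 100000

namespace IntCheb

namespace Up

open Cert

lemma upL14_9 : allB (loc upD upK upT (nat_lit 835) upC14 upG0 upG1 upF upY14)
    upS14_9 = true := by
  decide +kernel

lemma upL14_10 : allB (loc upD upK upT (nat_lit 835) upC14 upG0 upG1 upF upY14)
    upS14_10 = true := by
  decide +kernel

lemma upL14_11 : allB (loc upD upK upT (nat_lit 835) upC14 upG0 upG1 upF upY14)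
    upS14_11 = true := by
  decide +kernel

lemma upL14_12 : allB (loc upD upK upT (nat_lit 835) upC14 upG0 upG1 upF upY14)
    upS14_12 = true := by
  decide +kernel

lemma upL14_13 : allB (loc upD upK upT (nat_lit 835) upC14 upG0 upG1 upF upY14)
    upS14_13 = true := by
  decide +kernel

lemma upL14_14 : allB (loc upD upK upT (nat_lit 835) upC14 upG0 upG1 upF upY14)
    upS14_14 = true := by
  decide +kernel

lemma upL14_15 : allB (loc upD upK upT (nat_lit 835) upC14 upG0 upG1 upF upY14)
    upS14_15 = true := by
  decide +kernel

lemma upL14_16 : allB (loc upD upK upT (nat_lit 835) upC14 upG0 upG1 upF upY14)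
    upS14_16 = true := by
  decide +kernel

lemma upL14_17 : allB (loc upD upK upT (nat_lit 835) upC14 upG0 upG1 upF upY14)
    upS14_17 = true := by
  decide +kernel

end Up

end IntCheb
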