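import Pool.Agent.Lib.MP_6205a3_nt.B66.UpY13
import Pool.Agent.Lib.MP_6205a3_nt.B66.UpP14_1

/-!
# MP_6205a3_nt : checks of level 13 of the upper bound certificate
-/

open Finset Polynomial

set_option autoImplicit false
set_option maxRecDepth 100000

namespace IntCheb

namespace Up

open Cert

lemma upL13_10 : allB (loc upD upK upT (nat_lit 713) upC13 upG0 upG1 upF upY13)
    upS13_10 = true := by
  decide +kernel

lemma upL13_11 : allB (loc upD upK upT (nat_lit 713) upC13 upG0 upG1 upF upY13)
    upS13_11 = true := by
  decide +kernel

lemma upL13_12 : allB (loc upD upK upT (nat_lit 713) upC13 upG0 upG1 upF upY13)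
    upS13_12 = true := by
  decide +kernel

lemma upL13_13 : allB (loc upD upK upT (nat_lit 713) upC13 upG0 upG1 upF upY13)
    upS13_13 = true := by
  decide +kernel

lemma upL13_14 : allB (loc upD upK upT (nat_lit 713) upC13 upG0 upG1 upF upY13)
    upS13_14 = true := by
  decide +kernel

lemma upL13_15 : allB (loc upD upK upT (nat_lit 713) upC13 upG0 upG1 upF upY13)
    upS13_15 = true := by
  decide +kernel

lemma upL13_16 : allB (loc upD upK upT (nat_lit 713) upC13 upG0 upG1 upF upY13)
    upS13_16 = true := by
  decide +kernel

lemma upL13_17 : allB (loc upD upK upT (nat_lit 713) upC13 upG0 upG1 upF upY13)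
    upS13_17 = true := by
  decide +kernel

lemma upL13_18 : allB (loc upD upK upT (nat_lit 713) upC13 upG0 upG1 upF upY13)
    upS13_18 = true := by
  decide +kernel

end Up

end IntCheb
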