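import Pool.Agent.Lib.MP_6205a3_nt.B66.UpP13_0
import Pool.Agent.Lib.MP_6205a3_nt.B66.UpP13_1

/-!
# MP_6205a3_nt : level 13 of the upper bound certificate
-/

open Finset Polynomial

set_option autoImplicit false
set_option maxRecDepth 100000

namespace IntCheb

namespace Up

open Cert

/-- All the test points. -/
def upS13 : List (ℕ × ℕ × ℕ × ℕ) :=
  upS13_0 ++ (upS13_1 ++ (upS13_2 ++ (upS13_3 ++ (upS13_4 ++ (upS13_5 ++ (upS13_6 ++ (upS13_7
  ++ (upS13_8 ++ (upS13_9 ++ (upS13_10 ++ (upS13_11 ++ (upS13_12 ++ (upS13_13 ++ (upS13_14 ++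
  (upS13_15 ++ (upS13_16 ++ (upS13_17 ++ (upS13_18))))))))))))))))))

lemma upLoc13 : ∀ e ∈ upS13, loc upD upK upT (nat_lit 713) upC13 upG0 upG1 upF upY13 e = true := by
  unfold upS13
  refine List.forall_mem_append.2 ⟨allB_spec upL13_0, ?_⟩
  refine List.forall_mem_append.2 ⟨allB_spec upL13_1, ?_⟩
  refine List.forall_mem_append.2 ⟨allB_spec upL13_2, ?_⟩
  refine List.forall_mem_append.2 ⟨allB_spec upL13_3, ?_⟩
  refine List.forall_mem_append.2 ⟨allB_spec upL13_4, ?_⟩
  refine List.forall_mem_append.2 ⟨allB_spec upL13_5, ?_⟩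
  refine List.forall_mem_append.2 ⟨allB_spec upL13_6, ?_⟩
  refine List.forall_mem_append.2 ⟨allB_spec upL13_7, ?_⟩
  refine List.forall_mem_append.2 ⟨allB_spec upL13_8, ?_⟩
  refine List.forall_mem_append.2 ⟨allB_spec upL13_9, ?_⟩
  refine List.forall_mem_append.2 ⟨allB_spec upL13_10, ?_⟩
  refine List.forall_mem_append.2 ⟨allB_spec upL13_11, ?_⟩
  refine List.forall_mem_append.2 ⟨allB_spec upL13_12, ?_⟩
  refine List.forall_mem_append.2 ⟨allB_spec upL13_13, ?_⟩
  refine List.forall_mem_append.2 ⟨allB_spec upL13_14, ?_⟩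
  refine List.forall_mem_append.2 ⟨allB_spec upL13_15, ?_⟩
  refine List.forall_mem_append.2 ⟨allB_spec upL13_16, ?_⟩
  refine List.forall_mem_append.2 ⟨allB_spec upL13_17, ?_⟩
  exact allB_spec upL13_18

theorem upB13 : ∀ t ∈ Set.Icc (0 : ℝ) (1 / 4), |(Bp upD upY13).eval t *
    aeval t (wp upG0 upG1 upF)| ≤ upC13 / (upD : ℝ) ^ (upG0 + upG1 + dgF upF + upY13.length) :=
  level_bound (K := upK) (T := upT) (cnt := nat_lit 713) (cs := upS13) (by decide +kernel)
    (by decide +kernel) upF_ok (by decide +kernel) (by decide +kernel) (by decide +kernel)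
    (by decide +kernel) (by decide +kernel) (by decide +kernel) upLoc13

theorem upA13 : AOK upD 32 17850625 100000000 (upG0 + upG1 + dgF upF) upC13 306889 upY13.length := by
  decide +kernel

end Up

end IntCheb
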