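import Pool.Agent.Lib.MP_6205a3_nt.B66.UpP14_0
import Pool.Agent.Lib.MP_6205a3_nt.B66.UpP14_1
import Pool.Agent.Lib.MP_6205a3_nt.B66.UpP14_2

/-!
# MP_6205a3_nt : level 14 of the upper bound certificate
-/

open Finset Polynomial

set_option autoImplicit false
set_option maxRecDepth 100000

namespace IntCheb

namespace Up

open Cert

/-- All the test points. -/
def upS14 : List (ℕ × ℕ × ℕ × ℕ) :=
  upS14_0 ++ (upS14_1 ++ (upS14_2 ++ (upS14_3 ++ (upS14_4 ++ (upS14_5 ++ (upS14_6 ++ (upS14_7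
  ++ (upS14_8 ++ (upS14_9 ++ (upS14_10 ++ (upS14_11 ++ (upS14_12 ++ (upS14_13 ++ (upS14_14 ++
  (upS14_15 ++ (upS14_16 ++ (upS14_17 ++ (upS14_18 ++ (upS14_19 ++ (upS14_20 ++ (upS14_21 ++
  (upS14_22 ++ (upS14_23 ++ (upS14_24))))))))))))))))))))))))

lemma upLoc14 : ∀ e ∈ upS14, loc upD upK upT (nat_lit 835) upC14 upG0 upG1 upF upY14 e = true := by
  unfold upS14
  refine List.forall_mem_append.2 ⟨allB_spec upL14_0, ?_⟩
  refine List.forall_mem_append.2 ⟨allB_spec upL14_1, ?_⟩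
  refine List.forall_mem_append.2 ⟨allB_spec upL14_2, ?_⟩
  refine List.forall_mem_append.2 ⟨allB_spec upL14_3, ?_⟩
  refine List.forall_mem_append.2 ⟨allB_spec upL14_4, ?_⟩
  refine List.forall_mem_append.2 ⟨allB_spec upL14_5, ?_⟩
  refine List.forall_mem_append.2 ⟨allB_spec upL14_6, ?_⟩
  refine List.forall_mem_append.2 ⟨allB_spec upL14_7, ?_⟩
  refine List.forall_mem_append.2 ⟨allB_spec upL14_8, ?_⟩
  refine List.forall_mem_append.2 ⟨allB_spec upL14_9, ?_⟩
  refine List.forall_mem_append.2 ⟨allB_spec upL14_10, ?_⟩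
  refine List.forall_mem_append.2 ⟨allB_spec upL14_11, ?_⟩
  refine List.forall_mem_append.2 ⟨allB_spec upL14_12, ?_⟩
  refine List.forall_mem_append.2 ⟨allB_spec upL14_13, ?_⟩
  refine List.forall_mem_append.2 ⟨allB_spec upL14_14, ?_⟩
  refine List.forall_mem_append.2 ⟨allB_spec upL14_15, ?_⟩
  refine List.forall_mem_append.2 ⟨allB_spec upL14_16, ?_⟩
  refine List.forall_mem_append.2 ⟨allB_spec upL14_17, ?_⟩
  refine List.forall_mem_append.2 ⟨allB_spec upL14_18, ?_⟩
  refine List.forall_mem_append.2 ⟨allB_spec upL14_19, ?_⟩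
  refine List.forall_mem_append.2 ⟨allB_spec upL14_20, ?_⟩
  refine List.forall_mem_append.2 ⟨allB_spec upL14_21, ?_⟩
  refine List.forall_mem_append.2 ⟨allB_spec upL14_22, ?_⟩
  refine List.forall_mem_append.2 ⟨allB_spec upL14_23, ?_⟩
  exact allB_spec upL14_24

theorem upB14 : ∀ t ∈ Set.Icc (0 : ℝ) (1 / 4), |(Bp upD upY14).eval t *
    aeval t (wp upG0 upG1 upF)| ≤ upC14 / (upD : ℝ) ^ (upG0 + upG1 + dgF upF + upY14.length) :=
  level_bound (K := upK) (T := upT) (cnt := nat_lit 835) (cs := upS14) (by decide +kernel)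
    (by decide +kernel) upF_ok (by decide +kernel) (by decide +kernel) (by decide +kernel)
    (by decide +kernel) (by decide +kernel) (by decide +kernel) upLoc14

theorem upA14 : AOK upD 32 17850625 100000000 (upG0 + upG1 + dgF upF) upC14 314577 upY14.length := by
  decide +kernel

end Up

end IntCheb
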