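import Pool.Agent.Lib.MP_6205a3_nt.B66.UpY15
import Pool.Agent.Lib.MP_6205a3_nt.B66.UpL10

/-!
# MP_6205a3_nt : checks of level 15 of the upper bound certificate
-/

open Finset Polynomial

set_option autoImplicit false
set_option maxRecDepth 100000

namespace IntCheb

namespace Up

open Cert

lemma upL15_27 : allB (loc upD upK upT (nat_lit 968) upC15 upG0 upG1 upF upY15)
    upS15_27 = true := by
  decide +kernel

lemma upL15_28 : allB (loc upD upK upT (nat_lit 968) upC15 upG0 upG1 upF upY15)
    upS15_28 = true := by
  decide +kernel

lemma upL15_29 : allB (loc upD upK upT (nat_lit 968) upC15 upG0 upG1 upF upY15)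
    upS15_29 = true := by
  decide +kernel

lemma upL15_30 : allB (loc upD upK upT (nat_lit 968) upC15 upG0 upG1 upF upY15)
    upS15_30 = true := by
  decide +kernel

lemma upL15_31 : allB (loc upD upK upT (nat_lit 968) upC15 upG0 upG1 upF upY15)
    upS15_31 = true := by
  decide +kernel

lemma upL15_32 : allB (loc upD upK upT (nat_lit 968) upC15 upG0 upG1 upF upY15)
    upS15_32 = true := by
  decide +kernel

lemma upL15_33 : allB (loc upD upK upT (nat_lit 968) upC15 upG0 upG1 upF upY15)
    upS15_33 = true := by
  decide +kernel

end Up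

end IntCheb
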