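import Pool.Agent.Lib.MP_6205a3_nt.B66.UpP15_0
import Pool.Agent.Lib.MP_6205a3_nt.B66.UpP15_1
import Pool.Agent.Lib.MP_6205a3_nt.B66.UpP15_2
import Pool.Agent.Lib.MP_6205a3_nt.B66.UpP15_3

/-!
# MP_6205a3_nt : level 15 of the upper bound certificate
-/

open Finset Polynomial

set_option autoImplicit false
set_option maxRecDepth 100000

namespace IntCheb

namespace Up

open Cert

/-- All the test points. -/
def upS15 : List (ℕ × ℕ × ℕ × ℕ) :=
  upS15_0 ++ (upS15_1 ++ (upS15_2 ++ (upS15_3 ++ (upS15_4 ++ (upS15_5 ++ (upS15_6 ++ (upS15_7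
  ++ (upS15_8 ++ (upS15_9 ++ (upS15_10 ++ (upS15_11 ++ (upS15_12 ++ (upS15_13 ++ (upS15_14 ++
  (upS15_15 ++ (upS15_16 ++ (upS15_17 ++ (upS15_18 ++ (upS15_19 ++ (upS15_20 ++ (upS15_21 ++
  (upS15_22 ++ (upS15_23 ++ (upS15_24 ++ (upS15_25 ++ (upS15_26 ++ (upS15_27 ++ (upS15_28 ++
  (upS15_29 ++ (upS15_30 ++ (upS15_31 ++ (upS15_32 ++
  (upS15_33)))))))))))))))))))))))))))))))))

lemma upLoc15 : ∀ e ∈ upS15, loc upD upK upT (nat_lit 968) upC15 upG0 upG1 upF upY15 e = true := by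
  unfold upS15
  refine List.forall_mem_append.2 ⟨allB_spec upL15_0, ?_⟩
  refine List.forall_mem_append.2 ⟨allB_spec upL15_1, ?_⟩
  refine List.forall_mem_append.2 ⟨allB_spec upL15_2, ?_⟩
  refine List.forall_mem_append.2 ⟨allB_spec upL15_3, ?_⟩
  refine List.forall_mem_append.2 ⟨allB_spec upL15_4, ?_⟩
  refine List.forall_mem_append.2 ⟨allB_spec upL15_5, ?_⟩
  refine List.forall_mem_append.2 ⟨allB_spec upL15_6, ?_⟩
  refine List.forall_mem_append.2 ⟨allB_spec upL15_7, ?_⟩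
  refine List.forall_mem_append.2 ⟨allB_spec upL15_8, ?_⟩
  refine List.forall_mem_append.2 ⟨allB_spec upL15_9, ?_⟩
  refine List.forall_mem_append.2 ⟨allB_spec upL15_10, ?_⟩
  refine List.forall_mem_append.2 ⟨allB_spec upL15_11, ?_⟩
  refine List.forall_mem_append.2 ⟨allB_spec upL15_12, ?_⟩
  refine List.forall_mem_append.2 ⟨allB_spec upL15_13, ?_⟩
  refine List.forall_mem_append.2 ⟨allB_spec upL15_14, ?_⟩
  refine List.forall_mem_append.2 ⟨allB_spec upL15_15, ?_⟩
  refine List.forall_mem_append.2 ⟨allB_spec upL15_16, ?_⟩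
  refine List.forall_mem_append.2 ⟨allB_spec upL15_17, ?_⟩
  refine List.forall_mem_append.2 ⟨allB_spec upL15_18, ?_⟩
  refine List.forall_mem_append.2 ⟨allB_spec upL15_19, ?_⟩
  refine List.forall_mem_append.2 ⟨allB_spec upL15_20, ?_⟩
  refine List.forall_mem_append.2 ⟨allB_spec upL15_21, ?_⟩
  refine List.forall_mem_append.2 ⟨allB_spec upL15_22, ?_⟩
  refine List.forall_mem_append.2 ⟨allB_spec upL15_23, ?_⟩
  refine List.forall_mem_append.2 ⟨allB_spec upL15_24, ?_⟩
  refine List.forall_mem_append.2 ⟨allB_spec upL15_25, ?_⟩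
  refine List.forall_mem_append.2 ⟨allB_spec upL15_26, ?_⟩
  refine List.forall_mem_append.2 ⟨allB_spec upL15_27, ?_⟩
  refine List.forall_mem_append.2 ⟨allB_spec upL15_28, ?_⟩
  refine List.forall_mem_append.2 ⟨allB_spec upL15_29, ?_⟩
  refine List.forall_mem_append.2 ⟨allB_spec upL15_30, ?_⟩
  refine List.forall_mem_append.2 ⟨allB_spec upL15_31, ?_⟩
  refine List.forall_mem_append.2 ⟨allB_spec upL15_32, ?_⟩
  exact allB_spec upL15_33

theorem upB15 : ∀ t ∈ Set.Icc (0 : ℝ) (1 / 4), |(Bp upD upY15).eval t *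
    aeval t (wp upG0 upG1 upF)| ≤ upC15 / (upD : ℝ) ^ (upG0 + upG1 + dgF upF + upY15.length) :=
  level_bound (K := upK) (T := upT) (cnt := nat_lit 968) (cs := upS15) (by decide +kernel)
    (by decide +kernel) upF_ok (by decide +kernel) (by decide +kernel) (by decide +kernel)
    (by decide +kernel) (by decide +kernel) (by decide +kernel) upLoc15

theorem upA15 : AOK upD 32 17850625 100000000 (upG0 + upG1 + dgF upF) upC15 322890 upY15.length := by
  decide +kernel

end Up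

end IntCheb
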