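import Pool.Agent.Lib.MP_6205a3_nt.B66.UpY12
import Pool.Agent.Lib.MP_6205a3_nt.B66.UpP13_1

/-!
# MP_6205a3_nt : checks of level 12 of the upper bound certificate
-/

open Finset Polynomial

set_option autoImplicit false
set_option maxRecDepth 100000

namespace IntCheb

namespace Up

open Cert

lemma upL12_0 : allB (loc upD upK upT (nat_lit 603) upC12 upG0 upG1 upF upY12)
    upS12_0 = true := by
  decide +kernel

lemma upL12_1 : allB (loc upD upK upT (nat_lit 603) upC12 upG0 upG1 upF upY12)
    upS12_1 = true := by
  decide +kernel

lemma upL12_2 : allB (loc upD upK upT (nat_lit 603) upC12 upG0 upG1 upF upY12)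
    upS12_2 = true := by
  decide +kernel

lemma upL12_3 : allB (loc upD upK upT (nat_lit 603) upC12 upG0 upG1 upF upY12)
    upS12_3 = true := by
  decide +kernel

lemma upL12_4 : allB (loc upD upK upT (nat_lit 603) upC12 upG0 upG1 upF upY12)
    upS12_4 = true := by
  decide +kernel

lemma upL12_5 : allB (loc upD upK upT (nat_lit 603) upC12 upG0 upG1 upF upY12)
    upS12_5 = true := by
  decide +kernel

lemma upL12_6 : allB (loc upD upK upT (nat_lit 603) upC12 upG0 upG1 upF upY12)
    upS12_6 = true := by
  decide +kernel

end Up

end IntCheb
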