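import Pool.Agent.Lib.MP_6205a3_nt.B66.UpY16
import Pool.Agent.Lib.MP_6205a3_nt.B66.UpP12_0

/-!
# MP_6205a3_nt : checks of level 16 of the upper bound certificate
-/

open Finset Polynomial

set_option autoImplicit false
set_option maxRecDepth 100000

namespace IntCheb

namespace Up

open Cert

lemma upL16_40 : allB (loc upD upK upT (nat_lit 1123) upC16 upG0 upG1 upF upY16)
    upS16_40 = true := by
  decide +kernel

lemma upL16_41 : allB (loc upD upK upT (nat_lit 1123) upC16 upG0 upG1 upF upY16)
    upS16_41 = true := by
  decide +kernel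

lemma upL16_42 : allB (loc upD upK upT (nat_lit 1123) upC16 upG0 upG1 upF upY16)
    upS16_42 = true := by
  decide +kernel

lemma upL16_43 : allB (loc upD upK upT (nat_lit 1123) upC16 upG0 upG1 upF upY16)
    upS16_43 = true := by
  decide +kernel

lemma upL16_44 : allB (loc upD upK upT (nat_lit 1123) upC16 upG0 upG1 upF upY16)
    upS16_44 = true := by
  decide +kernel

lemma upL16_45 : allB (loc upD upK upT (nat_lit 1123) upC16 upG0 upG1 upF upY16)
    upS16_45 = true := by
  decide +kernel

end Up

end IntCheb
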