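import Pool.Agent.Lib.MP_6205a3_nt.B66.UpP16_0
import Pool.Agent.Lib.MP_6205a3_nt.B66.UpP16_1
import Pool.Agent.Lib.MP_6205a3_nt.B66.UpP16_2
import Pool.Agent.Lib.MP_6205a3_nt.B66.UpP16_3
import Pool.Agent.Lib.MP_6205a3_nt.B66.UpP16_4

/-!
# MP_6205a3_nt : level 16 of the upper bound certificate
-/

open Finset Polynomial

set_option autoImplicit false
set_option maxRecDepth 100000

namespace IntCheb

namespace Up

open Cert

/-- All the test points. -/
def upS16 : List (ℕ × ℕ × ℕ × ℕ) :=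
  upS16_0 ++ (upS16_1 ++ (upS16_2 ++ (upS16_3 ++ (upS16_4 ++ (upS16_5 ++ (upS16_6 ++ (upS16_7
  ++ (upS16_8 ++ (upS16_9 ++ (upS16_10 ++ (upS16_11 ++ (upS16_12 ++ (upS16_13 ++ (upS16_14 ++
  (upS16_15 ++ (upS16_16 ++ (upS16_17 ++ (upS16_18 ++ (upS16_19 ++ (upS16_20 ++ (upS16_21 ++
  (upS16_22 ++ (upS16_23 ++ (upS16_24 ++ (upS16_25 ++ (upS16_26 ++ (upS16_27 ++ (upS16_28 ++
  (upS16_29 ++ (upS16_30 ++ (upS16_31 ++ (upS16_32 ++ (upS16_33 ++ (upS16_34 ++ (upS16_35 ++
  (upS16_36 ++ (upS16_37 ++ (upS16_38 ++ (upS16_39 ++ (upS16_40 ++ (upS16_41 ++ (upS16_42 ++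
  (upS16_43 ++ (upS16_44 ++ (upS16_45)))))))))))))))))))))))))))))))))))))))))))))

lemma upLoc16 : ∀ e ∈ upS16, loc upD upK upT (nat_lit 1123) upC16 upG0 upG1 upF upY16 e = true := by
  unfold upS16
  refine List.forall_mem_append.2 ⟨allB_spec upL16_0, ?_⟩
  refine List.forall_mem_append.2 ⟨allB_spec upL16_1, ?_⟩
  refine List.forall_mem_append.2 ⟨allB_spec upL16_2, ?_⟩
  refine List.forall_mem_append.2 ⟨allB_spec upL16_3, ?_⟩
  refine List.forall_mem_append.2 ⟨allB_spec upL16_4, ?_⟩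
  refine List.forall_mem_append.2 ⟨allB_spec upL16_5, ?_⟩
  refine List.forall_mem_append.2 ⟨allB_spec upL16_6, ?_⟩
  refine List.forall_mem_append.2 ⟨allB_spec upL16_7, ?_⟩
  refine List.forall_mem_append.2 ⟨allB_spec upL16_8, ?_⟩
  refine List.forall_mem_append.2 ⟨allB_spec upL16_9, ?_⟩
  refine List.forall_mem_append.2 ⟨allB_spec upL16_10, ?_⟩
  refine List.forall_mem_append.2 ⟨allB_spec upL16_11, ?_⟩
  refine List.forall_mem_append.2 ⟨allB_spec upL16_12, ?_⟩
  refine List.forall_mem_append.2 ⟨allB_spec upL16_13, ?_⟩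
  refine List.forall_mem_append.2 ⟨allB_spec upL16_14, ?_⟩
  refine List.forall_mem_append.2 ⟨allB_spec upL16_15, ?_⟩
  refine List.forall_mem_append.2 ⟨allB_spec upL16_16, ?_⟩
  refine List.forall_mem_append.2 ⟨allB_spec upL16_17, ?_⟩
  refine List.forall_mem_append.2 ⟨allB_spec upL16_18, ?_⟩
  refine List.forall_mem_append.2 ⟨allB_spec upL16_19, ?_⟩
  refine List.forall_mem_append.2 ⟨allB_spec upL16_20, ?_⟩
  refine List.forall_mem_append.2 ⟨allB_spec upL16_21, ?_⟩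
  refine List.forall_mem_append.2 ⟨allB_spec upL16_22, ?_⟩
  refine List.forall_mem_append.2 ⟨allB_spec upL16_23, ?_⟩
  refine List.forall_mem_append.2 ⟨allB_spec upL16_24, ?_⟩
  refine List.forall_mem_append.2 ⟨allB_spec upL16_25, ?_⟩
  refine List.forall_mem_append.2 ⟨allB_spec upL16_26, ?_⟩
  refine List.forall_mem_append.2 ⟨allB_spec upL16_27, ?_⟩
  refine List.forall_mem_append.2 ⟨allB_spec upL16_28, ?_⟩
  refine List.forall_mem_append.2 ⟨allB_spec upL16_29, ?_⟩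
  refine List.forall_mem_append.2 ⟨allB_spec upL16_30, ?_⟩
  refine List.forall_mem_append.2 ⟨allB_spec upL16_31, ?_⟩
  refine List.forall_mem_append.2 ⟨allB_spec upL16_32, ?_⟩
  refine List.forall_mem_append.2 ⟨allB_spec upL16_33, ?_⟩
  refine List.forall_mem_append.2 ⟨allB_spec upL16_34, ?_⟩
  refine List.forall_mem_append.2 ⟨allB_spec upL16_35, ?_⟩
  refine List.forall_mem_append.2 ⟨allB_spec upL16_36, ?_⟩
  refine List.forall_mem_append.2 ⟨allB_spec upL16_37, ?_⟩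
  refine List.forall_mem_append.2 ⟨allB_spec upL16_38, ?_⟩
  refine List.forall_mem_append.2 ⟨allB_spec upL16_39, ?_⟩
  refine List.forall_mem_append.2 ⟨allB_spec upL16_40, ?_⟩
  refine List.forall_mem_append.2 ⟨allB_spec upL16_41, ?_⟩
  refine List.forall_mem_append.2 ⟨allB_spec upL16_42, ?_⟩
  refine List.forall_mem_append.2 ⟨allB_spec upL16_43, ?_⟩
  refine List.forall_mem_append.2 ⟨allB_spec upL16_44, ?_⟩
  exact allB_spec upL16_45

theorem upB16 : ∀ t ∈ Set.Icc (0 : ℝ) (1 / 4), |(Bp upD upY16).eval t *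
    aeval t (wp upG0 upG1 upF)| ≤ upC16 / (upD : ℝ) ^ (upG0 + upG1 + dgF upF + upY16.length) :=
  level_bound (K := upK) (T := upT) (cnt := nat_lit 1123) (cs := upS16) (by decide +kernel)
    (by decide +kernel) upF_ok (by decide +kernel) (by decide +kernel) (by decide +kernel)
    (by decide +kernel) (by decide +kernel) (by decide +kernel) upLoc16

theorem upA16 : AOK upD 32 17850625 100000000 (upG0 + upG1 + dgF upF) upC16 332493 upY16.length := by
  decide +kernel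

end Up

end IntCheb
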