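import Pool.Agent.Lib.MP_6205a3_nt.B66.UpData
import Pool.Agent.Lib.MP_6205a3_nt.B66.UpP15_3

/-!
# MP_6205a3_nt : level 7 of the upper bound certificate
-/

open Finset Polynomial

set_option autoImplicit false
set_option maxRecDepth 100000

namespace IntCheb

namespace Up

open Cert

/-- Zeros (times `upD`). -/
def upY7 : List ℕ := [
  nat_lit 16285049, nat_lit 16311934, nat_lit 16334752, nat_lit 16355588, nat_lit 16375199,
  nat_lit 16393965, nat_lit 16412112, nat_lit 16429790, nat_lit 16447110, nat_lit 16464160,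
  nat_lit 16481016, nat_lit 16497756, nat_lit 16514465, nat_lit 16531254, nat_lit 16548298,
  nat_lit 16565935, nat_lit 16585091, nat_lit 16617232, nat_lit 16737349, nat_lit 16756807,
  nat_lit 16774489, nat_lit 16791524, nat_lit 16808336, nat_lit 16825174, nat_lit 16842247,
  nat_lit 16859791, nat_lit 16878148, nat_lit 16897967, nat_lit 16920995, nat_lit 17014155,
  nat_lit 17328735, nat_lit 17351040, nat_lit 17370079, nat_lit 17387573, nat_lit 17404145,
  nat_lit 17420103, nat_lit 17435628, nat_lit 17450838, nat_lit 17465814, nat_lit 17480619,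
  nat_lit 17495301, nat_lit 17509898, nat_lit 17524445, nat_lit 17538973, nat_lit 17553510,
  nat_lit 17568085, nat_lit 17582727, nat_lit 17597469, nat_lit 17612347, nat_lit 17627402,
  nat_lit 17642688, nat_lit 17658271, nat_lit 17674240, nat_lit 17690726, nat_lit 17707927,
  nat_lit 17726180, nat_lit 17746166, nat_lit 17769756, nat_lit 18215362, nat_lit 18282020,
  nat_lit 18347378, nat_lit 18382610, nat_lit 18417464, nat_lit 18457029, nat_lit 21312748,
  nat_lit 21506263, nat_lit 21546728, nat_lit 21562243, nat_lit 21575693, nat_lit 21588134,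
  nat_lit 21599949, nat_lit 21611324, nat_lit 21622372, nat_lit 21633161, nat_lit 21643744,
  nat_lit 21654155, nat_lit 21664425, nat_lit 21674575, nat_lit 21684625, nat_lit 21694592,
  nat_lit 21704492, nat_lit 21714337, nat_lit 21724142, nat_lit 21733919, nat_lit 21743684,
  nat_lit 21753451, nat_lit 21763237, nat_lit 21773060, nat_lit 21782943, nat_lit 21792915,
  nat_lit 21803013, nat_lit 21813284, nat_lit 21823800, nat_lit 21834669, nat_lit 21846075,
  nat_lit 21858388, nat_lit 21872623, nat_lit 21909277, nat_lit 22131249, nat_lit 22145250,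
  nat_lit 22157211, nat_lit 22168215, nat_lit 22178654, nat_lit 22188726, nat_lit 22198551,
  nat_lit 22208211, nat_lit 22217772, nat_lit 22227299, nat_lit 22236873, nat_lit 22246636,
  nat_lit 22256995, nat_lit 22279802, nat_lit 22303819, nat_lit 22314463, nat_lit 22324595,
  nat_lit 22334629, nat_lit 22344719, nat_lit 22354955, nat_lit 22365416, nat_lit 22376190,
  nat_lit 22387390, nat_lit 22399178, nat_lit 22411828, nat_lit 22425876, nat_lit 22442781,
  nat_lit 23096227, nat_lit 23175769, nat_lit 23190023, nat_lit 23201799, nat_lit 23212341,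
  nat_lit 23222104, nat_lit 23231318, nat_lit 23240118, nat_lit 23248592, nat_lit 23256800,
  nat_lit 23264789, nat_lit 23272591, nat_lit 23280233, nat_lit 23287736, nat_lit 23295119,
  nat_lit 23302394, nat_lit 23309575, nat_lit 23316673, nat_lit 23323695, nat_lit 23330652,
  nat_lit 23337548, nat_lit 23344392, nat_lit 23351190, nat_lit 23357946, nat_lit 23364666,
  nat_lit 23371354, nat_lit 23378017, nat_lit 23384657, nat_lit 23391280, nat_lit 23397891,
  nat_lit 23404493, nat_lit 23411092, nat_lit 23417692, nat_lit 23424300, nat_lit 23430920,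
  nat_lit 23437560, nat_lit 23444225, nat_lit 23450926, nat_lit 23457670, nat_lit 23464470,
  nat_lit 23471338, nat_lit 23478293, nat_lit 23485355, nat_lit 23492554, nat_lit 23499929,
  nat_lit 23507537, nat_lit 23515466, nat_lit 23523868, nat_lit 23533048, nat_lit 23543846,
  nat_lit 23586069, nat_lit 24023855, nat_lit 24034216, nat_lit 24043216, nat_lit 24051595,
  nat_lit 24059619, nat_lit 24067421, nat_lit 24075079, nat_lit 24082646, nat_lit 24090160,
  nat_lit 24097652, nat_lit 24105147, nat_lit 24112667, nat_lit 24120236, nat_lit 24127876,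
  nat_lit 24135613, nat_lit 24143477, nat_lit 24151510, nat_lit 24159768, nat_lit 24168357,
  nat_lit 24177520, nat_lit 24188839, nat_lit 24231004, nat_lit 24246921]

/-- Numerator of the bound. -/
def upC7 : ℕ := Nat.mul (nat_lit 2059475484250779618) (Nat.pow (nat_lit 2) (nat_lit 201169))

/-- Test points. -/
def upS7_0 : List (ℕ × ℕ × ℕ × ℕ) := [
  (nat_lit 11526800, nat_lit 11526800, nat_lit 2, nat_lit 0),
  (nat_lit 11690414, nat_lit 773708, nat_lit 3, nat_lit 0),
  (nat_lit 12464122, nat_lit 837002, nat_lit 2, nat_lit 0),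
  (nat_lit 13301124, nat_lit 917892, nat_lit 3, nat_lit 0),
  (nat_lit 14219016, nat_lit 1690634, nat_lit 2, nat_lit 0),
  (nat_lit 15909650, nat_lit 1690634, nat_lit 3, nat_lit 0),
  (nat_lit 16010460, nat_lit 257089, nat_lit 2, nat_lit 0),
  (nat_lit 16267549, nat_lit 257089, nat_lit 3, nat_lit 1),
  (nat_lit 16299263, nat_lit 31714, nat_lit 3, nat_lit 1),
  (nat_lit 16323667, nat_lit 24404, nat_lit 3, nat_lit 1),
  (nat_lit 16345357, nat_lit 21690, nat_lit 3, nat_lit 1),
  (nat_lit 16365518, nat_lit 20161, nat_lit 3, nat_lit 1),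
  (nat_lit 16384671, nat_lit 19153, nat_lit 3, nat_lit 1),
  (nat_lit 16403105, nat_lit 18434, nat_lit 3, nat_lit 1),
  (nat_lit 16421002, nat_lit 17897, nat_lit 3, nat_lit 1),
  (nat_lit 16438489, nat_lit 17487, nat_lit 3, nat_lit 1),
  (nat_lit 16455664, nat_lit 17175, nat_lit 3, nat_lit 1),
  (nat_lit 16472607, nat_lit 16943, nat_lit 3, nat_lit 1),
  (nat_lit 16489396, nat_lit 16789, nat_lit 3, nat_lit 1),
  (nat_lit 16506108, nat_lit 16733, nat_lit 3, nat_lit 1),
  (nat_lit 16522841, nat_lit 16888, nat_lit 3, nat_lit 1),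
  (nat_lit 16539729, nat_lit 17280, nat_lit 3, nat_lit 1),
  (nat_lit 16557009, nat_lit 18198, nat_lit 3, nat_lit 1),
  (nat_lit 16575207, nat_lit 21140, nat_lit 3, nat_lit 1),
  (nat_lit 16596347, nat_lit 26689, nat_lit 3, nat_lit 1),
  (nat_lit 16623036, nat_lit 102524, nat_lit 3, nat_lit 0),
  (nat_lit 16725560, nat_lit 102524, nat_lit 2, nat_lit 1),
  (nat_lit 16747443, nat_lit 21883, nat_lit 2, nat_lit 1),
  (nat_lit 16765770, nat_lit 18327, nat_lit 2, nat_lit 1),
  (nat_lit 16783054, nat_lit 17284, nat_lit 2, nat_lit 1),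
  (nat_lit 16799940, nat_lit 16886, nat_lit 2, nat_lit 1),
  (nat_lit 16816739, nat_lit 16929, nat_lit 2, nat_lit 1),
  (nat_lit 16833668, nat_lit 17275, nat_lit 2, nat_lit 1),
  (nat_lit 16850943, nat_lit 17895, nat_lit 2, nat_lit 1),
  (nat_lit 16868838, nat_lit 18973, nat_lit 2, nat_lit 1),
  (nat_lit 16887811, nat_lit 21050, nat_lit 2, nat_lit 1),
  (nat_lit 16908861, nat_lit 26963, nat_lit 2, nat_lit 1),
  (nat_lit 16935824, nat_lit 81525, nat_lit 2, nat_lit 1),
  (nat_lit 17017349, nat_lit 296912, nat_lit 4, nat_lit 0),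
  (nat_lit 17314261, nat_lit 296912, nat_lit 3, nat_lit 1),
  (nat_lit 17340513, nat_lit 26252, nat_lit 3, nat_lit 1),
  (nat_lit 17360815, nat_lit 20302, nat_lit 3, nat_lit 1),
  (nat_lit 17378969, nat_lit 18154, nat_lit 3, nat_lit 1),
  (nat_lit 17395951, nat_lit 16982, nat_lit 3, nat_lit 1),
  (nat_lit 17412187, nat_lit 16236, nat_lit 3, nat_lit 1),
  (nat_lit 17427911, nat_lit 15724, nat_lit 3, nat_lit 1),
  (nat_lit 17443267, nat_lit 15356, nat_lit 3, nat_lit 1),
  (nat_lit 17458351, nat_lit 15084, nat_lit 3, nat_lit 1),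
  (nat_lit 17473235, nat_lit 14884, nat_lit 3, nat_lit 1),
  (nat_lit 17487973, nat_lit 14738, nat_lit 3, nat_lit 1),
  (nat_lit 17502608, nat_lit 14635, nat_lit 3, nat_lit 1),
  (nat_lit 17517176, nat_lit 14568, nat_lit 3, nat_lit 1),
  (nat_lit 17531710, nat_lit 14534, nat_lit 3, nat_lit 1),
  (nat_lit 17546238, nat_lit 14553, nat_lit 3, nat_lit 1),
  (nat_lit 17560791, nat_lit 14605, nat_lit 3, nat_lit 1),
  (nat_lit 17575396, nat_lit 14688, nat_lit 3, nat_lit 1),
  (nat_lit 17590084, nat_lit 14805, nat_lit 3, nat_lit 1),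
  (nat_lit 17604889, nat_lit 14960, nat_lit 3, nat_lit 1),
  (nat_lit 17619849, nat_lit 15164, nat_lit 3, nat_lit 1),
  (nat_lit 17635013, nat_lit 15424, nat_lit 3, nat_lit 1),
  (nat_lit 17650437, nat_lit 15763, nat_lit 3, nat_lit 1),
  (nat_lit 17666200, nat_lit 16208, nat_lit 3, nat_lit 1),
  (nat_lit 17682408, nat_lit 16813, nat_lit 3, nat_lit 1),
  (nat_lit 17699221, nat_lit 17671, nat_lit 3, nat_lit 1),
  (nat_lit 17716892, nat_lit 18996, nat_lit 3, nat_lit 1),
  (nat_lit 17735888, nat_lit 21386, nat_lit 3, nat_lit 1),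
  (nat_lit 17757274, nat_lit 27904, nat_lit 3, nat_lit 1),
  (nat_lit 17785178, nat_lit 398609, nat_lit 3, nat_lit 0),
  (nat_lit 18183787, nat_lit 398609, nat_lit 2, nat_lit 0),
  (nat_lit 18214924, nat_lit 58703, nat_lit 3, nat_lit 1),
  (nat_lit 18273627, nat_lit 58703, nat_lit 3, nat_lit 1),
  (nat_lit 18326986, nat_lit 53359, nat_lit 3, nat_lit 1),
  (nat_lit 18365369, nat_lit 38383, nat_lit 3, nat_lit 1),
  (nat_lit 18399801, nat_lit 36397, nat_lit 3, nat_lit 1),
  (nat_lit 18436198, nat_lit 46503, nat_lit 3, nat_lit 1),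
  (nat_lit 18482701, nat_lit 2815184, nat_lit 3, nat_lit 0),
  (nat_lit 21297885, nat_lit 2815184, nat_lit 2, nat_lit 1),
  (nat_lit 21344030, nat_lit 158869, nat_lit 2, nat_lit 0),
  (nat_lit 21502899, nat_lit 158869, nat_lit 3, nat_lit 1),
  (nat_lit 21536906, nat_lit 34007, nat_lit 3, nat_lit 1),
  (nat_lit 21554878, nat_lit 17972, nat_lit 3, nat_lit 1),
  (nat_lit 21569132, nat_lit 14254, nat_lit 3, nat_lit 1),
  (nat_lit 21582009, nat_lit 12877, nat_lit 3, nat_lit 1),
  (nat_lit 21594105, nat_lit 12096, nat_lit 3, nat_lit 1),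
  (nat_lit 21605683, nat_lit 11578, nat_lit 3, nat_lit 1),
  (nat_lit 21616884, nat_lit 11201, nat_lit 3, nat_lit 1),
  (nat_lit 21627795, nat_lit 10911, nat_lit 3, nat_lit 1),
  (nat_lit 21638476, nat_lit 10681, nat_lit 3, nat_lit 1),
  (nat_lit 21648969, nat_lit 10493, nat_lit 3, nat_lit 1),
  (nat_lit 21659306, nat_lit 10337, nat_lit 3, nat_lit 1),
  (nat_lit 21669514, nat_lit 10208, nat_lit 3, nat_lit 1),
  (nat_lit 21679611, nat_lit 10097, nat_lit 3, nat_lit 1),
  (nat_lit 21689618, nat_lit 10007, nat_lit 3, nat_lit 1),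
  (nat_lit 21699550, nat_lit 9932, nat_lit 3, nat_lit 1),
  (nat_lit 21709420, nat_lit 9870, nat_lit 3, nat_lit 1),
  (nat_lit 21719244, nat_lit 9824, nat_lit 3, nat_lit 1),
  (nat_lit 21729033, nat_lit 9789, nat_lit 3, nat_lit 1),
  (nat_lit 21738802, nat_lit 9769, nat_lit 3, nat_lit 1),
  (nat_lit 21748566, nat_lit 9775, nat_lit 3, nat_lit 1),
  (nat_lit 21758341, nat_lit 9801, nat_lit 3, nat_lit 1),
  (nat_lit 21768142, nat_lit 9850, nat_lit 3, nat_lit 1),
  (nat_lit 21777992, nat_lit 9924, nat_lit 3, nat_lit 1),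
  (nat_lit 21787916, nat_lit 10030, nat_lit 3, nat_lit 1),
  (nat_lit 21797946, nat_lit 10177, nat_lit 3, nat_lit 1),
  (nat_lit 21808123, nat_lit 10383, nat_lit 3, nat_lit 1),
  (nat_lit 21818506, nat_lit 10675, nat_lit 3, nat_lit 1),
  (nat_lit 21829181, nat_lit 11107, nat_lit 3, nat_lit 1),
  (nat_lit 21840288, nat_lit 11793, nat_lit 3, nat_lit 1),
  (nat_lit 21852081, nat_lit 13057, nat_lit 3, nat_lit 1),
  (nat_lit 21865138, nat_lit 16547, nat_lit 3, nat_lit 1),
  (nat_lit 21881685, nat_lit 31144, nat_lit 3, nat_lit 1),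
  (nat_lit 21912829, nat_lit 209340, nat_lit 3, nat_lit 0),
  (nat_lit 22122169, nat_lit 209340, nat_lit 2, nat_lit 1),
  (nat_lit 22138641, nat_lit 16472, nat_lit 2, nat_lit 1),
  (nat_lit 22151390, nat_lit 12749, nat_lit 2, nat_lit 1)]

lemma upL7_0 : allB (loc upD upK upT (nat_lit 215) upC7 upG0 upG1 upF upY7)
    upS7_0 = true := by
  decide +kernel

/-- Test points. -/
def upS7_1 : List (ℕ × ℕ × ℕ × ℕ) := [
  (nat_lit 22162801, nat_lit 11411, nat_lit 2, nat_lit 1),
  (nat_lit 22173490, nat_lit 10689, nat_lit 2, nat_lit 1),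
  (nat_lit 22183727, nat_lit 10237, nat_lit 2, nat_lit 1),
  (nat_lit 22193664, nat_lit 9937, nat_lit 2, nat_lit 1),
  (nat_lit 22203397, nat_lit 9733, nat_lit 2, nat_lit 1),
  (nat_lit 22213000, nat_lit 9603, nat_lit 2, nat_lit 1),
  (nat_lit 22222535, nat_lit 9539, nat_lit 2, nat_lit 1),
  (nat_lit 22232074, nat_lit 9643, nat_lit 2, nat_lit 1),
  (nat_lit 22241717, nat_lit 9971, nat_lit 2, nat_lit 1),
  (nat_lit 22251688, nat_lit 11244, nat_lit 2, nat_lit 1),
  (nat_lit 22262932, nat_lit 16989, nat_lit 2, nat_lit 1),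
  (nat_lit 22279921, nat_lit 17847, nat_lit 86, nat_lit 0),
  (nat_lit 22297768, nat_lit 17847, nat_lit 3, nat_lit 1),
  (nat_lit 22309259, nat_lit 11491, nat_lit 3, nat_lit 1),
  (nat_lit 22319556, nat_lit 10297, nat_lit 3, nat_lit 1),
  (nat_lit 22329612, nat_lit 10056, nat_lit 3, nat_lit 1),
  (nat_lit 22339661, nat_lit 10153, nat_lit 3, nat_lit 1),
  (nat_lit 22349814, nat_lit 10338, nat_lit 3, nat_lit 1),
  (nat_lit 22360152, nat_lit 10606, nat_lit 3, nat_lit 1),
  (nat_lit 22370758, nat_lit 10970, nat_lit 3, nat_lit 1),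
  (nat_lit 22381728, nat_lit 11469, nat_lit 3, nat_lit 1),
  (nat_lit 22393197, nat_lit 12174, nat_lit 3, nat_lit 1),
  (nat_lit 22405371, nat_lit 13253, nat_lit 3, nat_lit 1),
  (nat_lit 22418624, nat_lit 15165, nat_lit 3, nat_lit 1),
  (nat_lit 22433789, nat_lit 20270, nat_lit 3, nat_lit 1),
  (nat_lit 22454059, nat_lit 639910, nat_lit 3, nat_lit 0),
  (nat_lit 23093969, nat_lit 639910, nat_lit 4, nat_lit 1),
  (nat_lit 23166220, nat_lit 72251, nat_lit 2, nat_lit 1),
  (nat_lit 23183361, nat_lit 17141, nat_lit 2, nat_lit 1),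
  (nat_lit 23196111, nat_lit 12750, nat_lit 2, nat_lit 1),
  (nat_lit 23207188, nat_lit 11077, nat_lit 2, nat_lit 1),
  (nat_lit 23217302, nat_lit 10114, nat_lit 2, nat_lit 1),
  (nat_lit 23226770, nat_lit 9468, nat_lit 2, nat_lit 1),
  (nat_lit 23235763, nat_lit 8993, nat_lit 2, nat_lit 1),
  (nat_lit 23244391, nat_lit 8628, nat_lit 2, nat_lit 1),
  (nat_lit 23252726, nat_lit 8335, nat_lit 2, nat_lit 1),
  (nat_lit 23260820, nat_lit 8094, nat_lit 2, nat_lit 1),
  (nat_lit 23268711, nat_lit 7891, nat_lit 2, nat_lit 1),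
  (nat_lit 23276431, nat_lit 7720, nat_lit 2, nat_lit 1),
  (nat_lit 23284001, nat_lit 7570, nat_lit 2, nat_lit 1),
  (nat_lit 23291442, nat_lit 7441, nat_lit 2, nat_lit 1),
  (nat_lit 23298769, nat_lit 7327, nat_lit 2, nat_lit 1),
  (nat_lit 23305996, nat_lit 7227, nat_lit 2, nat_lit 1),
  (nat_lit 23313134, nat_lit 7138, nat_lit 2, nat_lit 1),
  (nat_lit 23320193, nat_lit 7059, nat_lit 2, nat_lit 1),
  (nat_lit 23327181, nat_lit 6988, nat_lit 2, nat_lit 1),
  (nat_lit 23334107, nat_lit 6926, nat_lit 2, nat_lit 1),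
  (nat_lit 23340976, nat_lit 6869, nat_lit 2, nat_lit 1),
  (nat_lit 23347797, nat_lit 6821, nat_lit 2, nat_lit 1),
  (nat_lit 23354573, nat_lit 6776, nat_lit 2, nat_lit 1),
  (nat_lit 23361310, nat_lit 6737, nat_lit 2, nat_lit 1),
  (nat_lit 23368014, nat_lit 6704, nat_lit 2, nat_lit 1),
  (nat_lit 23374689, nat_lit 6675, nat_lit 2, nat_lit 1),
  (nat_lit 23381339, nat_lit 6650, nat_lit 2, nat_lit 1),
  (nat_lit 23387970, nat_lit 6631, nat_lit 2, nat_lit 1),
  (nat_lit 23394587, nat_lit 6617, nat_lit 2, nat_lit 1),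
  (nat_lit 23401193, nat_lit 6606, nat_lit 2, nat_lit 1),
  (nat_lit 23407793, nat_lit 6600, nat_lit 2, nat_lit 1),
  (nat_lit 23414391, nat_lit 6604, nat_lit 2, nat_lit 1),
  (nat_lit 23420995, nat_lit 6613, nat_lit 2, nat_lit 1),
  (nat_lit 23427608, nat_lit 6629, nat_lit 2, nat_lit 1),
  (nat_lit 23434237, nat_lit 6652, nat_lit 2, nat_lit 1),
  (nat_lit 23440889, nat_lit 6682, nat_lit 2, nat_lit 1),
  (nat_lit 23447571, nat_lit 6721, nat_lit 2, nat_lit 1),
  (nat_lit 23454292, nat_lit 6770, nat_lit 2, nat_lit 1),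
  (nat_lit 23461062, nat_lit 6832, nat_lit 2, nat_lit 1),
  (nat_lit 23467894, nat_lit 6910, nat_lit 2, nat_lit 1),
  (nat_lit 23474804, nat_lit 7005, nat_lit 2, nat_lit 1),
  (nat_lit 23481809, nat_lit 7126, nat_lit 2, nat_lit 1),
  (nat_lit 23488935, nat_lit 7281, nat_lit 2, nat_lit 1),
  (nat_lit 23496216, nat_lit 7483, nat_lit 2, nat_lit 1),
  (nat_lit 23503699, nat_lit 7755, nat_lit 2, nat_lit 1),
  (nat_lit 23511454, nat_lit 8140, nat_lit 2, nat_lit 1),
  (nat_lit 23519594, nat_lit 8736, nat_lit 2, nat_lit 1),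
  (nat_lit 23528330, nat_lit 9809, nat_lit 2, nat_lit 1),
  (nat_lit 23538139, nat_lit 12733, nat_lit 2, nat_lit 1),
  (nat_lit 23550872, nat_lit 36965, nat_lit 2, nat_lit 1),
  (nat_lit 23587837, nat_lit 145078, nat_lit 4, nat_lit 0),
  (nat_lit 23732915, nat_lit 186377, nat_lit 3, nat_lit 0),
  (nat_lit 23919292, nat_lit 186377, nat_lit 2, nat_lit 0),
  (nat_lit 24017260, nat_lit 97968, nat_lit 3, nat_lit 1),
  (nat_lit 24029299, nat_lit 12039, nat_lit 3, nat_lit 1),
  (nat_lit 24038820, nat_lit 9521, nat_lit 3, nat_lit 1),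
  (nat_lit 24047462, nat_lit 8642, nat_lit 3, nat_lit 1),
  (nat_lit 24055641, nat_lit 8179, nat_lit 3, nat_lit 1),
  (nat_lit 24063542, nat_lit 7901, nat_lit 3, nat_lit 1),
  (nat_lit 24071264, nat_lit 7722, nat_lit 3, nat_lit 1),
  (nat_lit 24078871, nat_lit 7607, nat_lit 3, nat_lit 1),
  (nat_lit 24086408, nat_lit 7537, nat_lit 3, nat_lit 1),
  (nat_lit 24093907, nat_lit 7499, nat_lit 3, nat_lit 1),
  (nat_lit 24101398, nat_lit 7504, nat_lit 3, nat_lit 1),
  (nat_lit 24108902, nat_lit 7542, nat_lit 3, nat_lit 1),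
  (nat_lit 24116444, nat_lit 7602, nat_lit 3, nat_lit 1),
  (nat_lit 24124046, nat_lit 7685, nat_lit 3, nat_lit 1),
  (nat_lit 24131731, nat_lit 7796, nat_lit 3, nat_lit 1),
  (nat_lit 24139527, nat_lit 7942, nat_lit 3, nat_lit 1),
  (nat_lit 24147469, nat_lit 8137, nat_lit 3, nat_lit 1),
  (nat_lit 24155606, nat_lit 8406, nat_lit 3, nat_lit 1),
  (nat_lit 24164012, nat_lit 8826, nat_lit 3, nat_lit 1),
  (nat_lit 24172838, nat_lit 9730, nat_lit 3, nat_lit 1),
  (nat_lit 24182568, nat_lit 10637, nat_lit 3, nat_lit 1),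
  (nat_lit 24193205, nat_lit 30200, nat_lit 3, nat_lit 0),
  (nat_lit 24223405, nat_lit 30200, nat_lit 2, nat_lit 1),
  (nat_lit 24238591, nat_lit 18621, nat_lit 2, nat_lit 1),
  (nat_lit 24257212, nat_lit 742788, nat_lit 2, nat_lit 0)]

lemma upL7_1 : allB (loc upD upK upT (nat_lit 215) upC7 upG0 upG1 upF upY7)
    upS7_1 = true := by
  decide +kernel

/-- All the test points. -/
def upS7 : List (ℕ × ℕ × ℕ × ℕ) :=
  upS7_0 ++ (upS7_1)

lemma upLoc7 : ∀ e ∈ upS7, loc upD upK upT (nat_lit 215) upC7 upG0 upG1 upF upY7 e = true := by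
  unfold upS7
  refine List.forall_mem_append.2 ⟨allB_spec upL7_0, ?_⟩
  exact allB_spec upL7_1

theorem upB7 : ∀ t ∈ Set.Icc (0 : ℝ) (1 / 4), |(Bp upD upY7).eval t *
    aeval t (wp upG0 upG1 upF)| ≤ upC7 / (upD : ℝ) ^ (upG0 + upG1 + dgF upF + upY7.length) :=
  level_bound (K := upK) (T := upT) (cnt := nat_lit 215) (cs := upS7) (by decide +kernel)
    (by decide +kernel) upF_ok (by decide +kernel) (by decide +kernel) (by decide +kernel)
    (by decide +kernel) (by decide +kernel) (by decide +kernel) upLoc7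

theorem upA7 : AOK upD 32 17850625 100000000 (upG0 + upG1 + dgF upF) upC7 273660 upY7.length := by
  decide +kernel

end Up

end IntCheb
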