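import Pool.Agent.Lib.MP_6205a3_nt.B66.UpData
import Pool.Agent.Lib.MP_6205a3_nt.B66.UpL7

/-!
# MP_6205a3_nt : level 6 of the upper bound certificate
-/

open Finset Polynomial

set_option autoImplicit false
set_option maxRecDepth 100000

namespace IntCheb

namespace Up

open Cert

/-- Zeros (times `upD`). -/
def upY6 : List ℕ := [
  nat_lit 16354563, nat_lit 16386439, nat_lit 16413316, nat_lit 16437808, nat_lit 16460901,
  nat_lit 16483130, nat_lit 16504883, nat_lit 16526538, nat_lit 16548641, nat_lit 16572522,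
  nat_lit 16622591, nat_lit 16750533, nat_lit 16773528, nat_lit 16794562, nat_lit 16815052,
  nat_lit 16835639, nat_lit 16856876, nat_lit 16879582, nat_lit 16905786, nat_lit 17293935,
  nat_lit 17357884, nat_lit 17381801, nat_lit 17402430, nat_lit 17421507, nat_lit 17439668,
  nat_lit 17457233, nat_lit 17474393, nat_lit 17491275, nat_lit 17507975, nat_lit 17524565,
  nat_lit 17541109, nat_lit 17557665, nat_lit 17574288, nat_lit 17591039, nat_lit 17607986,
  nat_lit 17625209, nat_lit 17642815, nat_lit 17660949, nat_lit 17679834, nat_lit 17699842,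
  nat_lit 17721719, nat_lit 17747515, nat_lit 18349479, nat_lit 21453398, nat_lit 21536915,
  nat_lit 21570399, nat_lit 21587200, nat_lit 21601801, nat_lit 21615295, nat_lit 21628090,
  nat_lit 21640391, nat_lit 21652324, nat_lit 21663970, nat_lit 21675388, nat_lit 21686623,
  nat_lit 21697709, nat_lit 21708678, nat_lit 21719556, nat_lit 21730367, nat_lit 21741136,
  nat_lit 21751886, nat_lit 21762644, nat_lit 21773438, nat_lit 21784305, nat_lit 21795288,
  nat_lit 21806445, nat_lit 21817857, nat_lit 21829651, nat_lit 21842038, nat_lit 21855448,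
  nat_lit 21871068, nat_lit 22105960, nat_lit 22145048, nat_lit 22159581, nat_lit 22172124,
  nat_lit 22183734, nat_lit 22194801, nat_lit 22205527, nat_lit 22216038, nat_lit 22226435,
  nat_lit 22236816, nat_lit 22247329, nat_lit 22258364, nat_lit 22300469, nat_lit 22312696,
  nat_lit 22323802, nat_lit 22334818, nat_lit 22345968, nat_lit 22357390, nat_lit 22369220,
  nat_lit 22381642, nat_lit 22394945, nat_lit 22409692, nat_lit 22427410, nat_lit 22906789,
  nat_lit 23185263, nat_lit 23200220, nat_lit 23212558, nat_lit 23223594, nat_lit 23233809,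
  nat_lit 23243447, nat_lit 23252651, nat_lit 23261514, nat_lit 23270101, nat_lit 23278460,
  nat_lit 23286626, nat_lit 23294628, nat_lit 23302489, nat_lit 23310226, nat_lit 23317857,
  nat_lit 23325393, nat_lit 23332847, nat_lit 23340230, nat_lit 23347549, nat_lit 23354813,
  nat_lit 23362030, nat_lit 23369207, nat_lit 23376350, nat_lit 23383467, nat_lit 23390563,
  nat_lit 23397645, nat_lit 23404719, nat_lit 23411792, nat_lit 23418871, nat_lit 23425964,
  nat_lit 23433079, nat_lit 23440226, nat_lit 23447416, nat_lit 23454661, nat_lit 23461977,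
  nat_lit 23469382, nat_lit 23476902, nat_lit 23484567, nat_lit 23492420, nat_lit 23500526,
  nat_lit 23508980, nat_lit 23517949, nat_lit 23527766, nat_lit 23539353, nat_lit 24011022,
  nat_lit 24039993, nat_lit 24051615, nat_lit 24061815, nat_lit 24071387, nat_lit 24080625,
  nat_lit 24089684, nat_lit 24098662, nat_lit 24107632, nat_lit 24116660, nat_lit 24125806,
  nat_lit 24135142, nat_lit 24144758, nat_lit 24154790, nat_lit 24165482, nat_lit 24177473]

/-- Numerator of the bound. -/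
def upC6 : ℕ := Nat.mul (nat_lit 1676465240532031429) (Nat.pow (nat_lit 2) (nat_lit 200256))

/-- Test points. -/
def upS6_0 : List (ℕ × ℕ × ℕ × ℕ) := [
  (nat_lit 11531039, nat_lit 11531039, nat_lit 2, nat_lit 0),
  (nat_lit 11694604, nat_lit 772758, nat_lit 3, nat_lit 0),
  (nat_lit 12467362, nat_lit 853680, nat_lit 2, nat_lit 0),
  (nat_lit 13321042, nat_lit 914087, nat_lit 3, nat_lit 0),
  (nat_lit 14235129, nat_lit 1684267, nat_lit 2, nat_lit 0),
  (nat_lit 15919396, nat_lit 1684267, nat_lit 3, nat_lit 0),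
  (nat_lit 16017976, nat_lit 315643, nat_lit 2, nat_lit 0),
  (nat_lit 16333619, nat_lit 315643, nat_lit 3, nat_lit 1),
  (nat_lit 16371452, nat_lit 37833, nat_lit 3, nat_lit 1),
  (nat_lit 16400272, nat_lit 28820, nat_lit 3, nat_lit 1),
  (nat_lit 16425782, nat_lit 25510, nat_lit 3, nat_lit 1),
  (nat_lit 16449490, nat_lit 23708, nat_lit 3, nat_lit 1),
  (nat_lit 16472098, nat_lit 22608, nat_lit 3, nat_lit 1),
  (nat_lit 16494044, nat_lit 21946, nat_lit 3, nat_lit 1),
  (nat_lit 16515696, nat_lit 21787, nat_lit 3, nat_lit 1),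
  (nat_lit 16537483, nat_lit 22712, nat_lit 3, nat_lit 1),
  (nat_lit 16560195, nat_lit 26517, nat_lit 3, nat_lit 1),
  (nat_lit 16586712, nat_lit 40315, nat_lit 3, nat_lit 1),
  (nat_lit 16627027, nat_lit 109609, nat_lit 3, nat_lit 0),
  (nat_lit 16736636, nat_lit 109609, nat_lit 2, nat_lit 1),
  (nat_lit 16762448, nat_lit 25812, nat_lit 2, nat_lit 1),
  (nat_lit 16784168, nat_lit 21720, nat_lit 2, nat_lit 1),
  (nat_lit 16804829, nat_lit 20661, nat_lit 2, nat_lit 1),
  (nat_lit 16825301, nat_lit 20835, nat_lit 2, nat_lit 1),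
  (nat_lit 16846136, nat_lit 21833, nat_lit 2, nat_lit 1),
  (nat_lit 16867969, nat_lit 24026, nat_lit 2, nat_lit 1),
  (nat_lit 16891995, nat_lit 30615, nat_lit 2, nat_lit 1),
  (nat_lit 16922610, nat_lit 365536, nat_lit 2, nat_lit 0),
  (nat_lit 17288146, nat_lit 365536, nat_lit 3, nat_lit 1),
  (nat_lit 17342603, nat_lit 54457, nat_lit 3, nat_lit 1),
  (nat_lit 17370471, nat_lit 27868, nat_lit 3, nat_lit 1),
  (nat_lit 17392373, nat_lit 21902, nat_lit 3, nat_lit 1),
  (nat_lit 17412112, nat_lit 19739, nat_lit 3, nat_lit 1),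
  (nat_lit 17430678, nat_lit 18566, nat_lit 3, nat_lit 1),
  (nat_lit 17448511, nat_lit 17833, nat_lit 3, nat_lit 1),
  (nat_lit 17465855, nat_lit 17344, nat_lit 3, nat_lit 1),
  (nat_lit 17482862, nat_lit 17007, nat_lit 3, nat_lit 1),
  (nat_lit 17499643, nat_lit 16781, nat_lit 3, nat_lit 1),
  (nat_lit 17516279, nat_lit 16636, nat_lit 3, nat_lit 1),
  (nat_lit 17532839, nat_lit 16560, nat_lit 3, nat_lit 1),
  (nat_lit 17549382, nat_lit 16582, nat_lit 3, nat_lit 1),
  (nat_lit 17565964, nat_lit 16680, nat_lit 3, nat_lit 1),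
  (nat_lit 17582644, nat_lit 16839, nat_lit 3, nat_lit 1),
  (nat_lit 17599483, nat_lit 17074, nat_lit 3, nat_lit 1),
  (nat_lit 17616557, nat_lit 17399, nat_lit 3, nat_lit 1),
  (nat_lit 17633956, nat_lit 17848, nat_lit 3, nat_lit 1),
  (nat_lit 17651804, nat_lit 18475, nat_lit 3, nat_lit 1),
  (nat_lit 17670279, nat_lit 19385, nat_lit 3, nat_lit 1),
  (nat_lit 17689664, nat_lit 20808, nat_lit 3, nat_lit 1),
  (nat_lit 17710472, nat_lit 23397, nat_lit 3, nat_lit 1),
  (nat_lit 17733869, nat_lit 30497, nat_lit 3, nat_lit 1),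
  (nat_lit 17764366, nat_lit 425168, nat_lit 3, nat_lit 0),
  (nat_lit 18189534, nat_lit 425168, nat_lit 2, nat_lit 0),
  (nat_lit 18327578, nat_lit 138044, nat_lit 3, nat_lit 1),
  (nat_lit 18396327, nat_lit 2941327, nat_lit 3, nat_lit 0),
  (nat_lit 21337654, nat_lit 2941327, nat_lit 2, nat_lit 0),
  (nat_lit 21453290, nat_lit 115636, nat_lit 401, nat_lit 1),
  (nat_lit 21531205, nat_lit 77915, nat_lit 3, nat_lit 1),
  (nat_lit 21559894, nat_lit 28689, nat_lit 3, nat_lit 1),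
  (nat_lit 21579210, nat_lit 19316, nat_lit 3, nat_lit 1),
  (nat_lit 21594679, nat_lit 15469, nat_lit 3, nat_lit 1),
  (nat_lit 21608654, nat_lit 13975, nat_lit 3, nat_lit 1),
  (nat_lit 21621764, nat_lit 13110, nat_lit 3, nat_lit 1),
  (nat_lit 21634293, nat_lit 12529, nat_lit 3, nat_lit 1),
  (nat_lit 21646398, nat_lit 12105, nat_lit 3, nat_lit 1),
  (nat_lit 21658179, nat_lit 11781, nat_lit 3, nat_lit 1),
  (nat_lit 21669705, nat_lit 11526, nat_lit 3, nat_lit 1),
  (nat_lit 21681026, nat_lit 11321, nat_lit 3, nat_lit 1),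
  (nat_lit 21692182, nat_lit 11156, nat_lit 3, nat_lit 1),
  (nat_lit 21703207, nat_lit 11025, nat_lit 3, nat_lit 1),
  (nat_lit 21714127, nat_lit 10920, nat_lit 3, nat_lit 1),
  (nat_lit 21724968, nat_lit 10841, nat_lit 3, nat_lit 1),
  (nat_lit 21735755, nat_lit 10787, nat_lit 3, nat_lit 1),
  (nat_lit 21746512, nat_lit 10757, nat_lit 3, nat_lit 1),
  (nat_lit 21757262, nat_lit 10772, nat_lit 3, nat_lit 1),
  (nat_lit 21768034, nat_lit 10826, nat_lit 3, nat_lit 1),
  (nat_lit 21778860, nat_lit 10919, nat_lit 3, nat_lit 1),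
  (nat_lit 21789779, nat_lit 11061, nat_lit 3, nat_lit 1),
  (nat_lit 21800840, nat_lit 11273, nat_lit 3, nat_lit 1),
  (nat_lit 21812113, nat_lit 11583, nat_lit 3, nat_lit 1),
  (nat_lit 21823696, nat_lit 12055, nat_lit 3, nat_lit 1),
  (nat_lit 21835751, nat_lit 12821, nat_lit 3, nat_lit 1),
  (nat_lit 21848572, nat_lit 14260, nat_lit 3, nat_lit 1),
  (nat_lit 21862832, nat_lit 18320, nat_lit 3, nat_lit 1),
  (nat_lit 21881152, nat_lit 221321, nat_lit 3, nat_lit 0),
  (nat_lit 22102473, nat_lit 221321, nat_lit 2, nat_lit 1),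
  (nat_lit 22135763, nat_lit 33290, nat_lit 2, nat_lit 1),
  (nat_lit 22152696, nat_lit 16933, nat_lit 2, nat_lit 1),
  (nat_lit 22166008, nat_lit 13312, nat_lit 2, nat_lit 1),
  (nat_lit 22178014, nat_lit 12006, nat_lit 2, nat_lit 1),
  (nat_lit 22189320, nat_lit 11306, nat_lit 2, nat_lit 1),
  (nat_lit 22200198, nat_lit 10878, nat_lit 2, nat_lit 1),
  (nat_lit 22210803, nat_lit 10605, nat_lit 2, nat_lit 1),
  (nat_lit 22221245, nat_lit 10442, nat_lit 2, nat_lit 1),
  (nat_lit 22231620, nat_lit 10422, nat_lit 2, nat_lit 1),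
  (nat_lit 22242042, nat_lit 10689, nat_lit 2, nat_lit 1),
  (nat_lit 22252731, nat_lit 11854, nat_lit 2, nat_lit 1),
  (nat_lit 22264585, nat_lit 30388, nat_lit 2, nat_lit 0),
  (nat_lit 22294973, nat_lit 30388, nat_lit 3, nat_lit 1),
  (nat_lit 22306921, nat_lit 11948, nat_lit 3, nat_lit 1),
  (nat_lit 22318284, nat_lit 11363, nat_lit 3, nat_lit 1),
  (nat_lit 22329303, nat_lit 11064, nat_lit 3, nat_lit 1),
  (nat_lit 22340367, nat_lit 11270, nat_lit 3, nat_lit 1),
  (nat_lit 22351637, nat_lit 11607, nat_lit 3, nat_lit 1),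
  (nat_lit 22363244, nat_lit 12099, nat_lit 3, nat_lit 1),
  (nat_lit 22375343, nat_lit 12815, nat_lit 3, nat_lit 1),
  (nat_lit 22388158, nat_lit 13924, nat_lit 3, nat_lit 1),
  (nat_lit 22402082, nat_lit 15907, nat_lit 3, nat_lit 1),
  (nat_lit 22417989, nat_lit 21227, nat_lit 3, nat_lit 1),
  (nat_lit 22439216, nat_lit 467136, nat_lit 3, nat_lit 0),
  (nat_lit 22906352, nat_lit 467136, nat_lit 136, nat_lit 1),
  (nat_lit 23175220, nat_lit 268868, nat_lit 2, nat_lit 1),
  (nat_lit 23193234, nat_lit 18014, nat_lit 2, nat_lit 1),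
  (nat_lit 23206600, nat_lit 13366, nat_lit 2, nat_lit 1),
  (nat_lit 23218200, nat_lit 11600, nat_lit 2, nat_lit 1),
  (nat_lit 23228786, nat_lit 10586, nat_lit 2, nat_lit 1),
  (nat_lit 23238690, nat_lit 9904, nat_lit 2, nat_lit 1),
  (nat_lit 23248097, nat_lit 9407, nat_lit 2, nat_lit 1),
  (nat_lit 23257121, nat_lit 9024, nat_lit 2, nat_lit 1),
  (nat_lit 23265839, nat_lit 8718, nat_lit 2, nat_lit 1),
  (nat_lit 23274307, nat_lit 8468, nat_lit 2, nat_lit 1),
  (nat_lit 23282565, nat_lit 8258, nat_lit 2, nat_lit 1),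
  (nat_lit 23290646, nat_lit 8081, nat_lit 2, nat_lit 1),
  (nat_lit 23298575, nat_lit 7929, nat_lit 2, nat_lit 1),
  (nat_lit 23306372, nat_lit 7797, nat_lit 2, nat_lit 1),
  (nat_lit 23314054, nat_lit 7682, nat_lit 2, nat_lit 1),
  (nat_lit 23321636, nat_lit 7582, nat_lit 2, nat_lit 1),
  (nat_lit 23329130, nat_lit 7494, nat_lit 2, nat_lit 1),
  (nat_lit 23336547, nat_lit 7417, nat_lit 2, nat_lit 1),
  (nat_lit 23343897, nat_lit 7350, nat_lit 2, nat_lit 1),
  (nat_lit 23351187, nat_lit 7290, nat_lit 2, nat_lit 1),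
  (nat_lit 23358427, nat_lit 7240, nat_lit 2, nat_lit 1),
  (nat_lit 23365623, nat_lit 7196, nat_lit 2, nat_lit 1),
  (nat_lit 23372782, nat_lit 7159, nat_lit 2, nat_lit 1),
  (nat_lit 23379912, nat_lit 7130, nat_lit 2, nat_lit 1),
  (nat_lit 23387017, nat_lit 7105, nat_lit 2, nat_lit 1),
  (nat_lit 23394105, nat_lit 7088, nat_lit 2, nat_lit 1),
  (nat_lit 23401183, nat_lit 7078, nat_lit 2, nat_lit 1),
  (nat_lit 23408255, nat_lit 7075, nat_lit 2, nat_lit 1)]

lemma upL6_0 : allB (loc upD upK upT (nat_lit 171) upC6 upG0 upG1 upF upY6)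
    upS6_0 = true := by
  decide +kernel

/-- Test points. -/
def upS6_1 : List (ℕ × ℕ × ℕ × ℕ) := [
  (nat_lit 23415330, nat_lit 7085, nat_lit 2, nat_lit 1),
  (nat_lit 23422415, nat_lit 7103, nat_lit 2, nat_lit 1),
  (nat_lit 23429518, nat_lit 7130, nat_lit 2, nat_lit 1),
  (nat_lit 23436648, nat_lit 7167, nat_lit 2, nat_lit 1),
  (nat_lit 23443815, nat_lit 7216, nat_lit 2, nat_lit 1),
  (nat_lit 23451031, nat_lit 7278, nat_lit 2, nat_lit 1),
  (nat_lit 23458309, nat_lit 7358, nat_lit 2, nat_lit 1),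
  (nat_lit 23465667, nat_lit 7459, nat_lit 2, nat_lit 1),
  (nat_lit 23473126, nat_lit 7588, nat_lit 2, nat_lit 1),
  (nat_lit 23480714, nat_lit 7753, nat_lit 2, nat_lit 1),
  (nat_lit 23488467, nat_lit 7970, nat_lit 2, nat_lit 1),
  (nat_lit 23496437, nat_lit 8264, nat_lit 2, nat_lit 1),
  (nat_lit 23504701, nat_lit 8684, nat_lit 2, nat_lit 1),
  (nat_lit 23513385, nat_lit 9333, nat_lit 2, nat_lit 1),
  (nat_lit 23522718, nat_lit 10504, nat_lit 2, nat_lit 1),
  (nat_lit 23533222, nat_lit 13707, nat_lit 2, nat_lit 1),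
  (nat_lit 23546929, nat_lit 185068, nat_lit 2, nat_lit 0),
  (nat_lit 23731997, nat_lit 188001, nat_lit 3, nat_lit 0),
  (nat_lit 23919998, nat_lit 188001, nat_lit 2, nat_lit 0),
  (nat_lit 24008339, nat_lit 88341, nat_lit 3, nat_lit 1),
  (nat_lit 24032696, nat_lit 24357, nat_lit 3, nat_lit 1),
  (nat_lit 24046081, nat_lit 13385, nat_lit 3, nat_lit 1),
  (nat_lit 24056823, nat_lit 10742, nat_lit 3, nat_lit 1),
  (nat_lit 24066656, nat_lit 9833, nat_lit 3, nat_lit 1),
  (nat_lit 24076036, nat_lit 9380, nat_lit 3, nat_lit 1),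
  (nat_lit 24085170, nat_lit 9134, nat_lit 3, nat_lit 1),
  (nat_lit 24094178, nat_lit 9008, nat_lit 3, nat_lit 1),
  (nat_lit 24103144, nat_lit 8991, nat_lit 3, nat_lit 1),
  (nat_lit 24112135, nat_lit 9079, nat_lit 3, nat_lit 1),
  (nat_lit 24121214, nat_lit 9231, nat_lit 3, nat_lit 1),
  (nat_lit 24130445, nat_lit 9463, nat_lit 3, nat_lit 1),
  (nat_lit 24139908, nat_lit 9803, nat_lit 3, nat_lit 1),
  (nat_lit 24149711, nat_lit 10319, nat_lit 3, nat_lit 1),
  (nat_lit 24160030, nat_lit 11206, nat_lit 3, nat_lit 1),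
  (nat_lit 24171236, nat_lit 13481, nat_lit 3, nat_lit 1),
  (nat_lit 24184717, nat_lit 45284, nat_lit 3, nat_lit 0),
  (nat_lit 24230001, nat_lit 769999, nat_lit 2, nat_lit 0)]

lemma upL6_1 : allB (loc upD upK upT (nat_lit 171) upC6 upG0 upG1 upF upY6)
    upS6_1 = true := by
  decide +kernel

/-- All the test points. -/
def upS6 : List (ℕ × ℕ × ℕ × ℕ) :=
  upS6_0 ++ (upS6_1)

lemma upLoc6 : ∀ e ∈ upS6, loc upD upK upT (nat_lit 171) upC6 upG0 upG1 upF upY6 e = true := by
  unfold upS6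
  refine List.forall_mem_append.2 ⟨allB_spec upL6_0, ?_⟩
  exact allB_spec upL6_1

theorem upB6 : ∀ t ∈ Set.Icc (0 : ℝ) (1 / 4), |(Bp upD upY6).eval t *
    aeval t (wp upG0 upG1 upF)| ≤ upC6 / (upD : ℝ) ^ (upG0 + upG1 + dgF upF + upY6.length) :=
  level_bound (K := upK) (T := upT) (cnt := nat_lit 171) (cs := upS6) (by decide +kernel)
    (by decide +kernel) upF_ok (by decide +kernel) (by decide +kernel) (by decide +kernel)
    (by decide +kernel) (by decide +kernel) (by decide +kernel) upLoc6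

theorem upA6 : AOK upD 32 17850625 100000000 (upG0 + upG1 + dgF upF) upC6 270365 upY6.length := by
  decide +kernel

end Up

end IntCheb
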