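import Pool.Agent.Lib.MP_6205a3_nt.B66.UpData
import Pool.Agent.Lib.MP_6205a3_nt.B66.UpL6

/-!
# MP_6205a3_nt : level 3 of the upper bound certificate
-/

open Finset Polynomial

set_option autoImplicit false
set_option maxRecDepth 100000

namespace IntCheb

namespace Up

open Cert

/-- Zeros (times `upD`). -/
def upY3 : List ℕ := [
  nat_lit 21635941, nat_lit 21659866, nat_lit 21680063, nat_lit 21698498, nat_lit 21715915,
  nat_lit 21732715, nat_lit 21749171, nat_lit 21765517, nat_lit 21781999, nat_lit 21798952,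
  nat_lit 21816977, nat_lit 21837720, nat_lit 22167778, nat_lit 22186474, nat_lit 22202716,
  nat_lit 22217994, nat_lit 22232998, nat_lit 22248542, nat_lit 22300620, nat_lit 22323437,
  nat_lit 22341672, nat_lit 22361817, nat_lit 22398440, nat_lit 23226130, nat_lit 23243167,
  nat_lit 23257272, nat_lit 23269934, nat_lit 23281699, nat_lit 23292842, nat_lit 23303527,
  nat_lit 23313863, nat_lit 23323924, nat_lit 23333769, nat_lit 23343441, nat_lit 23352978,
  nat_lit 23362412, nat_lit 23371770, nat_lit 23381077, nat_lit 23390361, nat_lit 23399646,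
  nat_lit 23408960, nat_lit 23418333, nat_lit 23427803, nat_lit 23437413, nat_lit 23447222,
  nat_lit 23457314, nat_lit 23467812, nat_lit 23478926, nat_lit 23491075, nat_lit 23505408]

/-- Numerator of the bound. -/
def upC3 : ℕ := Nat.mul (nat_lit 1160438452235877840) (Nat.pow (nat_lit 2) (nat_lit 198106))

/-- Test points. -/
def upS3_0 : List (ℕ × ℕ × ℕ × ℕ) := [
  (nat_lit 11539350, nat_lit 11539350, nat_lit 2, nat_lit 0),
  (nat_lit 11704163, nat_lit 769964, nat_lit 3, nat_lit 0),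
  (nat_lit 12474127, nat_lit 889377, nat_lit 2, nat_lit 0),
  (nat_lit 13363504, nat_lit 908715, nat_lit 3, nat_lit 0),
  (nat_lit 14272219, nat_lit 1659988, nat_lit 2, nat_lit 0),
  (nat_lit 15932207, nat_lit 1659988, nat_lit 3, nat_lit 0),
  (nat_lit 16031433, nat_lit 513411, nat_lit 2, nat_lit 0),
  (nat_lit 16544844, nat_lit 513411, nat_lit 3, nat_lit 0),
  (nat_lit 16831006, nat_lit 699280, nat_lit 2, nat_lit 0),
  (nat_lit 17530286, nat_lit 699280, nat_lit 3, nat_lit 0),
  (nat_lit 18185903, nat_lit 655617, nat_lit 2, nat_lit 0),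
  (nat_lit 18345284, nat_lit 3018916, nat_lit 3, nat_lit 0),
  (nat_lit 21364200, nat_lit 3018916, nat_lit 2, nat_lit 0),
  (nat_lit 21620227, nat_lit 256027, nat_lit 3, nat_lit 1),
  (nat_lit 21648615, nat_lit 28388, nat_lit 3, nat_lit 1),
  (nat_lit 21670257, nat_lit 21642, nat_lit 3, nat_lit 1),
  (nat_lit 21689442, nat_lit 19185, nat_lit 3, nat_lit 1),
  (nat_lit 21707304, nat_lit 17862, nat_lit 3, nat_lit 1),
  (nat_lit 21724373, nat_lit 17069, nat_lit 3, nat_lit 1),
  (nat_lit 21740971, nat_lit 16598, nat_lit 3, nat_lit 1),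
  (nat_lit 21757343, nat_lit 16380, nat_lit 3, nat_lit 1),
  (nat_lit 21773723, nat_lit 16666, nat_lit 3, nat_lit 1),
  (nat_lit 21790389, nat_lit 17383, nat_lit 3, nat_lit 1),
  (nat_lit 21807772, nat_lit 19022, nat_lit 3, nat_lit 1),
  (nat_lit 21826794, nat_lit 23935, nat_lit 3, nat_lit 1),
  (nat_lit 21850729, nat_lit 305053, nat_lit 3, nat_lit 0),
  (nat_lit 22155782, nat_lit 305053, nat_lit 2, nat_lit 1),
  (nat_lit 22177614, nat_lit 21832, nat_lit 2, nat_lit 1),
  (nat_lit 22194773, nat_lit 17159, nat_lit 2, nat_lit 1),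
  (nat_lit 22210427, nat_lit 15654, nat_lit 2, nat_lit 1),
  (nat_lit 22225492, nat_lit 15126, nat_lit 2, nat_lit 1),
  (nat_lit 22240618, nat_lit 16695, nat_lit 2, nat_lit 1),
  (nat_lit 22257313, nat_lit 38436, nat_lit 2, nat_lit 0),
  (nat_lit 22295749, nat_lit 38436, nat_lit 3, nat_lit 1),
  (nat_lit 22313994, nat_lit 18498, nat_lit 3, nat_lit 1),
  (nat_lit 22332492, nat_lit 18810, nat_lit 3, nat_lit 1),
  (nat_lit 22351302, nat_lit 22952, nat_lit 3, nat_lit 1),
  (nat_lit 22374254, nat_lit 32518, nat_lit 3, nat_lit 1),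
  (nat_lit 22406772, nat_lit 807953, nat_lit 3, nat_lit 0),
  (nat_lit 23214725, nat_lit 807953, nat_lit 2, nat_lit 1),
  (nat_lit 23235201, nat_lit 20476, nat_lit 2, nat_lit 1),
  (nat_lit 23250454, nat_lit 15253, nat_lit 2, nat_lit 1),
  (nat_lit 23263740, nat_lit 13286, nat_lit 2, nat_lit 1),
  (nat_lit 23275908, nat_lit 12168, nat_lit 2, nat_lit 1),
  (nat_lit 23287336, nat_lit 11428, nat_lit 2, nat_lit 1),
  (nat_lit 23298234, nat_lit 10898, nat_lit 2, nat_lit 1),
  (nat_lit 23308733, nat_lit 10499, nat_lit 2, nat_lit 1),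
  (nat_lit 23318924, nat_lit 10191, nat_lit 2, nat_lit 1),
  (nat_lit 23328871, nat_lit 9947, nat_lit 2, nat_lit 1),
  (nat_lit 23338624, nat_lit 9753, nat_lit 2, nat_lit 1),
  (nat_lit 23348224, nat_lit 9600, nat_lit 2, nat_lit 1),
  (nat_lit 23357706, nat_lit 9482, nat_lit 2, nat_lit 1),
  (nat_lit 23367099, nat_lit 9393, nat_lit 2, nat_lit 1),
  (nat_lit 23376428, nat_lit 9329, nat_lit 2, nat_lit 1),
  (nat_lit 23385721, nat_lit 9293, nat_lit 2, nat_lit 1),
  (nat_lit 23395002, nat_lit 9296, nat_lit 2, nat_lit 1),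
  (nat_lit 23404298, nat_lit 9339, nat_lit 2, nat_lit 1),
  (nat_lit 23413637, nat_lit 9416, nat_lit 2, nat_lit 1),
  (nat_lit 23423053, nat_lit 9534, nat_lit 2, nat_lit 1),
  (nat_lit 23432587, nat_lit 9701, nat_lit 2, nat_lit 1),
  (nat_lit 23442288, nat_lit 9938, nat_lit 2, nat_lit 1),
  (nat_lit 23452226, nat_lit 10276, nat_lit 2, nat_lit 1),
  (nat_lit 23462502, nat_lit 10771, nat_lit 2, nat_lit 1),
  (nat_lit 23473273, nat_lit 11556, nat_lit 2, nat_lit 1),
  (nat_lit 23484829, nat_lit 12995, nat_lit 2, nat_lit 1),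
  (nat_lit 23497824, nat_lit 16960, nat_lit 2, nat_lit 1),
  (nat_lit 23514784, nat_lit 215022, nat_lit 2, nat_lit 0),
  (nat_lit 23729806, nat_lit 215022, nat_lit 3, nat_lit 0),
  (nat_lit 23922378, nat_lit 192572, nat_lit 2, nat_lit 0),
  (nat_lit 24091702, nat_lit 169324, nat_lit 3, nat_lit 0),
  (nat_lit 24218521, nat_lit 781479, nat_lit 2, nat_lit 0)]

lemma upL3_0 : allB (loc upD upK upT (nat_lit 66) upC3 upG0 upG1 upF upY3)
    upS3_0 = true := by
  decide +kernel

/-- All the test points. -/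
def upS3 : List (ℕ × ℕ × ℕ × ℕ) :=
  upS3_0

lemma upLoc3 : ∀ e ∈ upS3, loc upD upK upT (nat_lit 66) upC3 upG0 upG1 upF upY3 e = true := by
  unfold upS3
  exact allB_spec upL3_0

theorem upB3 : ∀ t ∈ Set.Icc (0 : ℝ) (1 / 4), |(Bp upD upY3).eval t *
    aeval t (wp upG0 upG1 upF)| ≤ upC3 / (upD : ℝ) ^ (upG0 + upG1 + dgF upF + upY3.length) :=
  level_bound (K := upK) (T := upT) (cnt := nat_lit 66) (cs := upS3) (by decide +kernel)
    (by decide +kernel) upF_ok (by decide +kernel) (by decide +kernel) (by decide +kernel)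
    (by decide +kernel) (by decide +kernel) (by decide +kernel) upLoc3

theorem upA3 : AOK upD 32 17850625 100000000 (upG0 + upG1 + dgF upF) upC3 262128 upY3.length := by
  decide +kernel

end Up

end IntCheb
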