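import Pool.Agent.Lib.MP_6205a3_nt.B66.UpData
import Pool.Agent.Lib.MP_6205a3_nt.B66.UpL3

/-!
# MP_6205a3_nt : level 2 of the upper bound certificate
-/

open Finset Polynomial

set_option autoImplicit false
set_option maxRecDepth 100000

namespace IntCheb

namespace Up

open Cert

/-- Zeros (times `upD`). -/
def upY2 : List ℕ := [
  nat_lit 21701340, nat_lit 21731380, nat_lit 21758097, nat_lit 21785133, nat_lit 21825048,
  nat_lit 22192726, nat_lit 22215681, nat_lit 22237091, nat_lit 22296860, nat_lit 22337538,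
  nat_lit 23210106, nat_lit 23263258, nat_lit 23281414, nat_lit 23296707, nat_lit 23310611,
  nat_lit 23323677, nat_lit 23336192, nat_lit 23348334, nat_lit 23360226, nat_lit 23371970,
  nat_lit 23383651, nat_lit 23395354, nat_lit 23407172, nat_lit 23419221, nat_lit 23431660,
  nat_lit 23444746, nat_lit 23458974, nat_lit 23475684]

/-- Numerator of the bound. -/
def upC2 : ℕ := Nat.mul (nat_lit 1255367297171305703) (Nat.pow (nat_lit 2) (nat_lit 197697))

/-- Test points. -/
def upS2_0 : List (ℕ × ℕ × ℕ × ℕ) := [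
  (nat_lit 11540462, nat_lit 11540462, nat_lit 2, nat_lit 0),
  (nat_lit 11705590, nat_lit 769444, nat_lit 3, nat_lit 0),
  (nat_lit 12475034, nat_lit 893845, nat_lit 2, nat_lit 0),
  (nat_lit 13368879, nat_lit 907816, nat_lit 3, nat_lit 0),
  (nat_lit 14276695, nat_lit 1656121, nat_lit 2, nat_lit 0),
  (nat_lit 15932816, nat_lit 1656121, nat_lit 3, nat_lit 0),
  (nat_lit 16032153, nat_lit 515708, nat_lit 2, nat_lit 0),
  (nat_lit 16547861, nat_lit 515708, nat_lit 3, nat_lit 0),
  (nat_lit 16834334, nat_lit 702097, nat_lit 2, nat_lit 0),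
  (nat_lit 17536431, nat_lit 702097, nat_lit 3, nat_lit 0),
  (nat_lit 18186610, nat_lit 650179, nat_lit 2, nat_lit 0),
  (nat_lit 18350774, nat_lit 3022311, nat_lit 3, nat_lit 0),
  (nat_lit 21373085, nat_lit 3022311, nat_lit 2, nat_lit 0),
  (nat_lit 21682076, nat_lit 308991, nat_lit 3, nat_lit 1),
  (nat_lit 21717109, nat_lit 35033, nat_lit 3, nat_lit 1),
  (nat_lit 21744897, nat_lit 27788, nat_lit 3, nat_lit 1),
  (nat_lit 21771349, nat_lit 29145, nat_lit 3, nat_lit 1),
  (nat_lit 21800494, nat_lit 35218, nat_lit 3, nat_lit 1),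
  (nat_lit 21835712, nat_lit 342696, nat_lit 3, nat_lit 0),
  (nat_lit 22178408, nat_lit 342696, nat_lit 2, nat_lit 1),
  (nat_lit 22204674, nat_lit 26266, nat_lit 2, nat_lit 1),
  (nat_lit 22226331, nat_lit 22481, nat_lit 2, nat_lit 1),
  (nat_lit 22248812, nat_lit 44458, nat_lit 2, nat_lit 0),
  (nat_lit 22293270, nat_lit 44458, nat_lit 3, nat_lit 1),
  (nat_lit 22322298, nat_lit 32329, nat_lit 3, nat_lit 1),
  (nat_lit 22354627, nat_lit 850602, nat_lit 3, nat_lit 0),
  (nat_lit 23205229, nat_lit 850602, nat_lit 2, nat_lit 1),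
  (nat_lit 23251358, nat_lit 46129, nat_lit 2, nat_lit 1),
  (nat_lit 23272877, nat_lit 21519, nat_lit 2, nat_lit 1),
  (nat_lit 23289289, nat_lit 16412, nat_lit 2, nat_lit 1),
  (nat_lit 23303789, nat_lit 14500, nat_lit 2, nat_lit 1),
  (nat_lit 23317227, nat_lit 13438, nat_lit 2, nat_lit 1),
  (nat_lit 23329991, nat_lit 12764, nat_lit 2, nat_lit 1),
  (nat_lit 23342301, nat_lit 12310, nat_lit 2, nat_lit 1),
  (nat_lit 23354304, nat_lit 12003, nat_lit 2, nat_lit 1),
  (nat_lit 23366111, nat_lit 11807, nat_lit 2, nat_lit 1),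
  (nat_lit 23377813, nat_lit 11702, nat_lit 2, nat_lit 1),
  (nat_lit 23389494, nat_lit 11748, nat_lit 2, nat_lit 1),
  (nat_lit 23401242, nat_lit 11917, nat_lit 2, nat_lit 1),
  (nat_lit 23413159, nat_lit 12220, nat_lit 2, nat_lit 1),
  (nat_lit 23425379, nat_lit 12721, nat_lit 2, nat_lit 1),
  (nat_lit 23438100, nat_lit 13568, nat_lit 2, nat_lit 1),
  (nat_lit 23451668, nat_lit 15183, nat_lit 2, nat_lit 1),
  (nat_lit 23466851, nat_lit 19736, nat_lit 2, nat_lit 1),
  (nat_lit 23486587, nat_lit 240857, nat_lit 2, nat_lit 0),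
  (nat_lit 23727444, nat_lit 240857, nat_lit 3, nat_lit 0),
  (nat_lit 23920974, nat_lit 193530, nat_lit 2, nat_lit 0),
  (nat_lit 24086682, nat_lit 165708, nat_lit 3, nat_lit 0),
  (nat_lit 24217960, nat_lit 782040, nat_lit 2, nat_lit 0)]

lemma upL2_0 : allB (loc upD upK upT (nat_lit 44) upC2 upG0 upG1 upF upY2)
    upS2_0 = true := by
  decide +kernel

/-- All the test points. -/
def upS2 : List (ℕ × ℕ × ℕ × ℕ) :=
  upS2_0

lemma upLoc2 : ∀ e ∈ upS2, loc upD upK upT (nat_lit 44) upC2 upG0 upG1 upF upY2 e = true := by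
  unfold upS2
  exact allB_spec upL2_0

theorem upB2 : ∀ t ∈ Set.Icc (0 : ℝ) (1 / 4), |(Bp upD upY2).eval t *
    aeval t (wp upG0 upG1 upF)| ≤ upC2 / (upD : ℝ) ^ (upG0 + upG1 + dgF upF + upY2.length) :=
  level_bound (K := upK) (T := upT) (cnt := nat_lit 44) (cs := upS2) (by decide +kernel)
    (by decide +kernel) upF_ok (by decide +kernel) (by decide +kernel) (by decide +kernel)
    (by decide +kernel) (by decide +kernel) (by decide +kernel) upLoc2

theorem upA2 : AOK upD 32 17850625 100000000 (upG0 + upG1 + dgF upF) upC2 259865 upY2.length := by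
  decide +kernel

end Up

end IntCheb
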