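import Pool.Agent.Lib.MP_6205a3_nt.B66.UpData
import Pool.Agent.Lib.MP_6205a3_nt.B66.UpP16_4

/-!
# MP_6205a3_nt : level 9 of the upper bound certificate
-/

open Finset Polynomial

set_option autoImplicit false
set_option maxRecDepth 100000

namespace IntCheb

namespace Up

open Cert

/-- Zeros (times `upD`). -/
def upY9 : List ℕ := [
  nat_lit 12999620, nat_lit 13046750, nat_lit 13086189, nat_lit 13121931, nat_lit 13155463,
  nat_lit 13187564, nat_lit 13218732, nat_lit 13249337, nat_lit 13279703, nat_lit 13310163,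
  nat_lit 13341125, nat_lit 13373193, nat_lit 13407495, nat_lit 13447034, nat_lit 13952456,
  nat_lit 14182754, nat_lit 14239914, nat_lit 15754046, nat_lit 15866740, nat_lit 15901385,
  nat_lit 16109566, nat_lit 16178615, nat_lit 16223650, nat_lit 16242620, nat_lit 16259185,
  nat_lit 16274591, nat_lit 16289286, nat_lit 16303489, nat_lit 16317326, nat_lit 16330880,
  nat_lit 16344205, nat_lit 16357342, nat_lit 16370322, nat_lit 16383168, nat_lit 16395899,
  nat_lit 16408533, nat_lit 16421082, nat_lit 16433560, nat_lit 16445978, nat_lit 16458347,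
  nat_lit 16470678, nat_lit 16482982, nat_lit 16495273, nat_lit 16507564, nat_lit 16519873,
  nat_lit 16532224, nat_lit 16544649, nat_lit 16557193, nat_lit 16569933, nat_lit 16583003,
  nat_lit 16596691, nat_lit 16611843, nat_lit 16718842, nat_lit 16735402, nat_lit 16749435,
  nat_lit 16762733, nat_lit 16775685, nat_lit 16788463, nat_lit 16801161, nat_lit 16813846,
  nat_lit 16826571, nat_lit 16839382, nat_lit 16852331, nat_lit 16865475, nat_lit 16878889,
  nat_lit 16892676, nat_lit 16906994, nat_lit 16922108, nat_lit 16938557, nat_lit 16957827,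
  nat_lit 17185371, nat_lit 17302946, nat_lit 17321959, nat_lit 17338167, nat_lit 17353038,
  nat_lit 17367103, nat_lit 17380621, nat_lit 17393746, nat_lit 17406575, nat_lit 17419175,
  nat_lit 17431594, nat_lit 17443870, nat_lit 17456031, nat_lit 17468099, nat_lit 17480095,
  nat_lit 17492035, nat_lit 17503932, nat_lit 17515799, nat_lit 17527648, nat_lit 17539490,
  nat_lit 17551334, nat_lit 17563191, nat_lit 17575072, nat_lit 17586986, nat_lit 17598946,
  nat_lit 17610962, nat_lit 17623050, nat_lit 17635223, nat_lit 17647499, nat_lit 17659900,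
  nat_lit 17672450, nat_lit 17685182, nat_lit 17698135, nat_lit 17711363, nat_lit 17724940,
  nat_lit 17738973, nat_lit 17753628, nat_lit 17769191, nat_lit 17786236, nat_lit 17806357,
  nat_lit 18214606, nat_lit 18216096, nat_lit 18273341, nat_lit 18301239, nat_lit 18321906,
  nat_lit 18341113, nat_lit 18359721, nat_lit 18378105, nat_lit 18396494, nat_lit 18415063,
  nat_lit 18433979, nat_lit 18453422, nat_lit 18473616, nat_lit 18494882, nat_lit 18517733,
  nat_lit 18543166, nat_lit 18573861, nat_lit 18705423, nat_lit 21241905, nat_lit 21266244,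
  nat_lit 21286405, nat_lit 21304647, nat_lit 21321912, nat_lit 21338888, nat_lit 21356584,
  nat_lit 21382272, nat_lit 21523723, nat_lit 21537132, nat_lit 21548765, nat_lit 21559550,
  nat_lit 21569816, nat_lit 21579722, nat_lit 21589359, nat_lit 21598786, nat_lit 21608043,
  nat_lit 21617158, nat_lit 21626153, nat_lit 21635045, nat_lit 21643847, nat_lit 21652570,
  nat_lit 21661225, nat_lit 21669819, nat_lit 21678360, nat_lit 21686854, nat_lit 21695307,
  nat_lit 21703727, nat_lit 21712117, nat_lit 21720484, nat_lit 21728834, nat_lit 21737171,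
  nat_lit 21745503, nat_lit 21753836, nat_lit 21762176, nat_lit 21770533, nat_lit 21778914,
  nat_lit 21787331, nat_lit 21795796, nat_lit 21804325, nat_lit 21812936, nat_lit 21821655,
  nat_lit 21830513, nat_lit 21839556, nat_lit 21848849, nat_lit 21858494, nat_lit 21868668,
  nat_lit 21879727, nat_lit 21892662, nat_lit 22086852, nat_lit 22123264, nat_lit 22135518,
  nat_lit 22146031, nat_lit 22155714, nat_lit 22164895, nat_lit 22173740, nat_lit 22182345,
  nat_lit 22190773, nat_lit 22199070, nat_lit 22207271, nat_lit 22215405, nat_lit 22223499,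
  nat_lit 22231584, nat_lit 22239701, nat_lit 22247928, nat_lit 22256470, nat_lit 22267039,
  nat_lit 22298207, nat_lit 22307062, nat_lit 22315496, nat_lit 22323811, nat_lit 22332105,
  nat_lit 22340428, nat_lit 22348811, nat_lit 22357280, nat_lit 22365862, nat_lit 22374583,
  nat_lit 22383475, nat_lit 22392575, nat_lit 22401933, nat_lit 22411616, nat_lit 22421717,
  nat_lit 22432382, nat_lit 22443857, nat_lit 22456631, nat_lit 22472038, nat_lit 23144724,
  nat_lit 23158902, nat_lit 23170056, nat_lit 23179943, nat_lit 23189056, nat_lit 23197631,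
  nat_lit 23205801, nat_lit 23213654, nat_lit 23221248, nat_lit 23228628, nat_lit 23235825,
  nat_lit 23242864, nat_lit 23249766, nat_lit 23256548, nat_lit 23263221, nat_lit 23269799,
  nat_lit 23276290, nat_lit 23282704, nat_lit 23289046, nat_lit 23295323, nat_lit 23301542,
  nat_lit 23307706, nat_lit 23313820, nat_lit 23319889, nat_lit 23325916, nat_lit 23331905,
  nat_lit 23337858, nat_lit 23343778, nat_lit 23349669, nat_lit 23355532, nat_lit 23361371,
  nat_lit 23367187, nat_lit 23372983, nat_lit 23378761, nat_lit 23384524, nat_lit 23390272,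
  nat_lit 23396009, nat_lit 23401737, nat_lit 23407457, nat_lit 23413173, nat_lit 23418886,
  nat_lit 23424599, nat_lit 23430314, nat_lit 23436035, nat_lit 23441764, nat_lit 23447505,
  nat_lit 23453261, nat_lit 23459036, nat_lit 23464836, nat_lit 23470665, nat_lit 23476530,
  nat_lit 23482439, nat_lit 23488400, nat_lit 23494425, nat_lit 23500527, nat_lit 23506724,
  nat_lit 23513040, nat_lit 23519509, nat_lit 23526177, nat_lit 23533118, nat_lit 23540459,
  nat_lit 23548453, nat_lit 23557795, nat_lit 23583827, nat_lit 23651322, nat_lit 24007591,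
  nat_lit 24015724, nat_lit 24022824, nat_lit 24029447, nat_lit 24035791, nat_lit 24041952,
  nat_lit 24047984, nat_lit 24053923, nat_lit 24059794, nat_lit 24065613, nat_lit 24071394,
  nat_lit 24077148, nat_lit 24082884, nat_lit 24088609, nat_lit 24094328, nat_lit 24100049,
  nat_lit 24105776, nat_lit 24111515, nat_lit 24117269, nat_lit 24123046, nat_lit 24128848,
  nat_lit 24134683, nat_lit 24140555, nat_lit 24146473, nat_lit 24152444, nat_lit 24158480,
  nat_lit 24164596, nat_lit 24170814, nat_lit 24177175, nat_lit 24183767, nat_lit 24190858,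
  nat_lit 24212767, nat_lit 24225064, nat_lit 24233017, nat_lit 24240775, nat_lit 24248635,
  nat_lit 24256731, nat_lit 24265184, nat_lit 24274141, nat_lit 24283831, nat_lit 24294700,
  nat_lit 24307941]

/-- Numerator of the bound. -/
def upC9 : ℕ := Nat.mul (nat_lit 2139303640216461456) (Nat.pow (nat_lit 2) (nat_lit 203741))

/-- Test points. -/
def upS9_0 : List (ℕ × ℕ × ℕ × ℕ) := [
  (nat_lit 11505319, nat_lit 11505319, nat_lit 2, nat_lit 0),
  (nat_lit 11673650, nat_lit 769809, nat_lit 3, nat_lit 0),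
  (nat_lit 12443459, nat_lit 769809, nat_lit 2, nat_lit 0),
  (nat_lit 12968392, nat_lit 524933, nat_lit 3, nat_lit 1),
  (nat_lit 13024645, nat_lit 56253, nat_lit 3, nat_lit 1),
  (nat_lit 13067079, nat_lit 42434, nat_lit 3, nat_lit 1),
  (nat_lit 13104404, nat_lit 37325, nat_lit 3, nat_lit 1),
  (nat_lit 13138915, nat_lit 34511, nat_lit 3, nat_lit 1),
  (nat_lit 13171657, nat_lit 32742, nat_lit 3, nat_lit 1),
  (nat_lit 13203240, nat_lit 31583, nat_lit 3, nat_lit 1),
  (nat_lit 13234084, nat_lit 30844, nat_lit 3, nat_lit 1),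
  (nat_lit 13264530, nat_lit 30446, nat_lit 3, nat_lit 1),
  (nat_lit 13294898, nat_lit 30652, nat_lit 3, nat_lit 1),
  (nat_lit 13325550, nat_lit 31419, nat_lit 3, nat_lit 1),
  (nat_lit 13356969, nat_lit 32985, nat_lit 3, nat_lit 1),
  (nat_lit 13389954, nat_lit 36280, nat_lit 3, nat_lit 1),
  (nat_lit 13426234, nat_lit 46152, nat_lit 3, nat_lit 1),
  (nat_lit 13472386, nat_lit 476506, nat_lit 3, nat_lit 0),
  (nat_lit 13948892, nat_lit 476506, nat_lit 4, nat_lit 1),
  (nat_lit 14150937, nat_lit 202045, nat_lit 2, nat_lit 1),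
  (nat_lit 14211135, nat_lit 62031, nat_lit 2, nat_lit 1),
  (nat_lit 14273166, nat_lit 1473946, nat_lit 2, nat_lit 0),
  (nat_lit 15747112, nat_lit 1473946, nat_lit 3, nat_lit 1),
  (nat_lit 15845234, nat_lit 98122, nat_lit 3, nat_lit 1),
  (nat_lit 15884633, nat_lit 39399, nat_lit 3, nat_lit 1),
  (nat_lit 15918746, nat_lit 81090, nat_lit 3, nat_lit 0),
  (nat_lit 15999836, nat_lit 109527, nat_lit 2, nat_lit 0),
  (nat_lit 16109363, nat_lit 109527, nat_lit 65, nat_lit 1),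
  (nat_lit 16174025, nat_lit 64662, nat_lit 3, nat_lit 1),
  (nat_lit 16211748, nat_lit 37723, nat_lit 3, nat_lit 1),
  (nat_lit 16233593, nat_lit 21845, nat_lit 3, nat_lit 1),
  (nat_lit 16251092, nat_lit 17499, nat_lit 3, nat_lit 1),
  (nat_lit 16266997, nat_lit 15905, nat_lit 3, nat_lit 1),
  (nat_lit 16282011, nat_lit 15014, nat_lit 3, nat_lit 1),
  (nat_lit 16296440, nat_lit 14429, nat_lit 3, nat_lit 1),
  (nat_lit 16310447, nat_lit 14007, nat_lit 3, nat_lit 1),
  (nat_lit 16324135, nat_lit 13688, nat_lit 3, nat_lit 1),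
  (nat_lit 16337568, nat_lit 13433, nat_lit 3, nat_lit 1),
  (nat_lit 16350795, nat_lit 13227, nat_lit 3, nat_lit 1),
  (nat_lit 16363850, nat_lit 13055, nat_lit 3, nat_lit 1),
  (nat_lit 16376760, nat_lit 12910, nat_lit 3, nat_lit 1),
  (nat_lit 16389547, nat_lit 12787, nat_lit 3, nat_lit 1),
  (nat_lit 16402227, nat_lit 12680, nat_lit 3, nat_lit 1),
  (nat_lit 16414817, nat_lit 12590, nat_lit 3, nat_lit 1),
  (nat_lit 16427329, nat_lit 12512, nat_lit 3, nat_lit 1),
  (nat_lit 16439776, nat_lit 12447, nat_lit 3, nat_lit 1),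
  (nat_lit 16452168, nat_lit 12392, nat_lit 3, nat_lit 1),
  (nat_lit 16464517, nat_lit 12349, nat_lit 3, nat_lit 1),
  (nat_lit 16476833, nat_lit 12316, nat_lit 3, nat_lit 1),
  (nat_lit 16489128, nat_lit 12295, nat_lit 3, nat_lit 1),
  (nat_lit 16501417, nat_lit 12298, nat_lit 3, nat_lit 1),
  (nat_lit 16513715, nat_lit 12327, nat_lit 3, nat_lit 1),
  (nat_lit 16526042, nat_lit 12383, nat_lit 3, nat_lit 1),
  (nat_lit 16538425, nat_lit 12477, nat_lit 3, nat_lit 1),
  (nat_lit 16550902, nat_lit 12630, nat_lit 3, nat_lit 1),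
  (nat_lit 16563532, nat_lit 12882, nat_lit 3, nat_lit 1),
  (nat_lit 16576414, nat_lit 13326, nat_lit 3, nat_lit 1),
  (nat_lit 16589740, nat_lit 14234, nat_lit 3, nat_lit 1),
  (nat_lit 16603974, nat_lit 17072, nat_lit 3, nat_lit 1),
  (nat_lit 16621046, nat_lit 89535, nat_lit 3, nat_lit 0),
  (nat_lit 16710581, nat_lit 89535, nat_lit 2, nat_lit 1),
  (nat_lit 16727765, nat_lit 17184, nat_lit 2, nat_lit 1),
  (nat_lit 16742554, nat_lit 14789, nat_lit 2, nat_lit 1),
  (nat_lit 16756143, nat_lit 13589, nat_lit 2, nat_lit 1),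
  (nat_lit 16769239, nat_lit 13096, nat_lit 2, nat_lit 1),
  (nat_lit 16782089, nat_lit 12850, nat_lit 2, nat_lit 1),
  (nat_lit 16794817, nat_lit 12728, nat_lit 2, nat_lit 1),
  (nat_lit 16807502, nat_lit 12699, nat_lit 2, nat_lit 1),
  (nat_lit 16820201, nat_lit 12762, nat_lit 2, nat_lit 1),
  (nat_lit 16832963, nat_lit 12873, nat_lit 2, nat_lit 1),
  (nat_lit 16845836, nat_lit 13038, nat_lit 2, nat_lit 1),
  (nat_lit 16858874, nat_lit 13269, nat_lit 2, nat_lit 1),
  (nat_lit 16872143, nat_lit 13585, nat_lit 2, nat_lit 1),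
  (nat_lit 16885728, nat_lit 14028, nat_lit 2, nat_lit 1),
  (nat_lit 16899756, nat_lit 14671, nat_lit 2, nat_lit 1),
  (nat_lit 16914427, nat_lit 15685, nat_lit 2, nat_lit 1),
  (nat_lit 16930112, nat_lit 17540, nat_lit 2, nat_lit 1),
  (nat_lit 16947652, nat_lit 22677, nat_lit 2, nat_lit 1)]

lemma upL9_0 : allB (loc upD upK upT (nat_lit 337) upC9 upG0 upG1 upF upY9)
    upS9_0 = true := by
  decide +kernel

/-- Test points. -/
def upS9_1 : List (ℕ × ℕ × ℕ × ℕ) := [
  (nat_lit 16970329, nat_lit 213747, nat_lit 2, nat_lit 0),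
  (nat_lit 17184076, nat_lit 213747, nat_lit 3, nat_lit 1),
  (nat_lit 17290598, nat_lit 106522, nat_lit 3, nat_lit 1),
  (nat_lit 17312989, nat_lit 22391, nat_lit 3, nat_lit 1),
  (nat_lit 17330283, nat_lit 17294, nat_lit 3, nat_lit 1),
  (nat_lit 17345727, nat_lit 15444, nat_lit 3, nat_lit 1),
  (nat_lit 17360151, nat_lit 14424, nat_lit 3, nat_lit 1),
  (nat_lit 17373919, nat_lit 13768, nat_lit 3, nat_lit 1),
  (nat_lit 17387226, nat_lit 13307, nat_lit 3, nat_lit 1),
  (nat_lit 17400193, nat_lit 12967, nat_lit 3, nat_lit 1),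
  (nat_lit 17412900, nat_lit 12707, nat_lit 3, nat_lit 1),
  (nat_lit 17425405, nat_lit 12505, nat_lit 3, nat_lit 1),
  (nat_lit 17437748, nat_lit 12343, nat_lit 3, nat_lit 1),
  (nat_lit 17449963, nat_lit 12215, nat_lit 3, nat_lit 1),
  (nat_lit 17462075, nat_lit 12112, nat_lit 3, nat_lit 1),
  (nat_lit 17474105, nat_lit 12030, nat_lit 3, nat_lit 1),
  (nat_lit 17486071, nat_lit 11966, nat_lit 3, nat_lit 1),
  (nat_lit 17497988, nat_lit 11917, nat_lit 3, nat_lit 1),
  (nat_lit 17509868, nat_lit 11880, nat_lit 3, nat_lit 1),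
  (nat_lit 17521725, nat_lit 11857, nat_lit 3, nat_lit 1),
  (nat_lit 17533569, nat_lit 11844, nat_lit 3, nat_lit 1),
  (nat_lit 17545411, nat_lit 11849, nat_lit 3, nat_lit 1),
  (nat_lit 17557260, nat_lit 11868, nat_lit 3, nat_lit 1),
  (nat_lit 17569128, nat_lit 11896, nat_lit 3, nat_lit 1),
  (nat_lit 17581024, nat_lit 11936, nat_lit 3, nat_lit 1),
  (nat_lit 17592960, nat_lit 11986, nat_lit 3, nat_lit 1),
  (nat_lit 17604946, nat_lit 12050, nat_lit 3, nat_lit 1),
  (nat_lit 17616996, nat_lit 12129, nat_lit 3, nat_lit 1),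
  (nat_lit 17629125, nat_lit 12222, nat_lit 3, nat_lit 1),
  (nat_lit 17641347, nat_lit 12335, nat_lit 3, nat_lit 1),
  (nat_lit 17653682, nat_lit 12472, nat_lit 3, nat_lit 1),
  (nat_lit 17666154, nat_lit 12637, nat_lit 3, nat_lit 1),
  (nat_lit 17678791, nat_lit 12837, nat_lit 3, nat_lit 1),
  (nat_lit 17691628, nat_lit 13083, nat_lit 3, nat_lit 1),
  (nat_lit 17704711, nat_lit 13391, nat_lit 3, nat_lit 1),
  (nat_lit 17718102, nat_lit 13789, nat_lit 3, nat_lit 1),
  (nat_lit 17731891, nat_lit 14318, nat_lit 3, nat_lit 1),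
  (nat_lit 17746209, nat_lit 15061, nat_lit 3, nat_lit 1),
  (nat_lit 17761270, nat_lit 16200, nat_lit 3, nat_lit 1),
  (nat_lit 17777470, nat_lit 18241, nat_lit 3, nat_lit 1),
  (nat_lit 17795711, nat_lit 23795, nat_lit 3, nat_lit 1),
  (nat_lit 17819506, nat_lit 357179, nat_lit 3, nat_lit 0),
  (nat_lit 18176685, nat_lit 357179, nat_lit 2, nat_lit 0),
  (nat_lit 18214264, nat_lit 37579, nat_lit 27, nat_lit 1),
  (nat_lit 18215698, nat_lit 47770, nat_lit 35, nat_lit 1),
  (nat_lit 18263468, nat_lit 47770, nat_lit 3, nat_lit 1),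
  (nat_lit 18289494, nat_lit 26026, nat_lit 3, nat_lit 1),
  (nat_lit 18311855, nat_lit 22361, nat_lit 3, nat_lit 1),
  (nat_lit 18331619, nat_lit 19764, nat_lit 3, nat_lit 1),
  (nat_lit 18350463, nat_lit 18844, nat_lit 3, nat_lit 1),
  (nat_lit 18368925, nat_lit 18462, nat_lit 3, nat_lit 1),
  (nat_lit 18387287, nat_lit 18459, nat_lit 3, nat_lit 1),
  (nat_lit 18405746, nat_lit 18721, nat_lit 3, nat_lit 1),
  (nat_lit 18424467, nat_lit 19155, nat_lit 3, nat_lit 1),
  (nat_lit 18443622, nat_lit 19786, nat_lit 3, nat_lit 1),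
  (nat_lit 18463408, nat_lit 20681, nat_lit 3, nat_lit 1),
  (nat_lit 18484089, nat_lit 21975, nat_lit 3, nat_lit 1),
  (nat_lit 18506064, nat_lit 23964, nat_lit 3, nat_lit 1),
  (nat_lit 18530028, nat_lit 27494, nat_lit 3, nat_lit 1),
  (nat_lit 18557522, nat_lit 36856, nat_lit 3, nat_lit 1),
  (nat_lit 18594378, nat_lit 117358, nat_lit 3, nat_lit 1),
  (nat_lit 18711736, nat_lit 2513808, nat_lit 7, nat_lit 0),
  (nat_lit 21225544, nat_lit 2513808, nat_lit 2, nat_lit 1),
  (nat_lit 21254873, nat_lit 29329, nat_lit 2, nat_lit 1),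
  (nat_lit 21276650, nat_lit 21777, nat_lit 2, nat_lit 1),
  (nat_lit 21295695, nat_lit 19045, nat_lit 2, nat_lit 1),
  (nat_lit 21313358, nat_lit 17663, nat_lit 2, nat_lit 1),
  (nat_lit 21330390, nat_lit 17150, nat_lit 2, nat_lit 1),
  (nat_lit 21347540, nat_lit 19084, nat_lit 2, nat_lit 1),
  (nat_lit 21366624, nat_lit 22406, nat_lit 2, nat_lit 1),
  (nat_lit 21389030, nat_lit 126176, nat_lit 2, nat_lit 0),
  (nat_lit 21515206, nat_lit 126176, nat_lit 3, nat_lit 1),
  (nat_lit 21530767, nat_lit 15561, nat_lit 3, nat_lit 1),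
  (nat_lit 21543088, nat_lit 12321, nat_lit 3, nat_lit 1),
  (nat_lit 21554237, nat_lit 11149, nat_lit 3, nat_lit 1),
  (nat_lit 21564736, nat_lit 10499, nat_lit 3, nat_lit 1),
  (nat_lit 21574807, nat_lit 10071, nat_lit 3, nat_lit 1),
  (nat_lit 21584570, nat_lit 9763, nat_lit 3, nat_lit 1)]

lemma upL9_1 : allB (loc upD upK upT (nat_lit 337) upC9 upG0 upG1 upF upY9)
    upS9_1 = true := by
  decide +kernel

/-- Test points. -/
def upS9_2 : List (ℕ × ℕ × ℕ × ℕ) := [
  (nat_lit 21594096, nat_lit 9526, nat_lit 3, nat_lit 1),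
  (nat_lit 21603434, nat_lit 9338, nat_lit 3, nat_lit 1),
  (nat_lit 21612617, nat_lit 9183, nat_lit 3, nat_lit 1),
  (nat_lit 21621669, nat_lit 9052, nat_lit 3, nat_lit 1),
  (nat_lit 21630611, nat_lit 8942, nat_lit 3, nat_lit 1),
  (nat_lit 21639456, nat_lit 8845, nat_lit 3, nat_lit 1),
  (nat_lit 21648218, nat_lit 8762, nat_lit 3, nat_lit 1),
  (nat_lit 21656906, nat_lit 8688, nat_lit 3, nat_lit 1),
  (nat_lit 21665529, nat_lit 8623, nat_lit 3, nat_lit 1),
  (nat_lit 21674096, nat_lit 8567, nat_lit 3, nat_lit 1),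
  (nat_lit 21682612, nat_lit 8516, nat_lit 3, nat_lit 1),
  (nat_lit 21691085, nat_lit 8473, nat_lit 3, nat_lit 1),
  (nat_lit 21699521, nat_lit 8436, nat_lit 3, nat_lit 1),
  (nat_lit 21707925, nat_lit 8404, nat_lit 3, nat_lit 1),
  (nat_lit 21716303, nat_lit 8378, nat_lit 3, nat_lit 1),
  (nat_lit 21724661, nat_lit 8358, nat_lit 3, nat_lit 1),
  (nat_lit 21733004, nat_lit 8343, nat_lit 3, nat_lit 1),
  (nat_lit 21741337, nat_lit 8333, nat_lit 3, nat_lit 1),
  (nat_lit 21749669, nat_lit 8336, nat_lit 3, nat_lit 1),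
  (nat_lit 21758005, nat_lit 8347, nat_lit 3, nat_lit 1),
  (nat_lit 21766352, nat_lit 8368, nat_lit 3, nat_lit 1),
  (nat_lit 21774720, nat_lit 8397, nat_lit 3, nat_lit 1),
  (nat_lit 21783117, nat_lit 8440, nat_lit 3, nat_lit 1),
  (nat_lit 21791557, nat_lit 8495, nat_lit 3, nat_lit 1),
  (nat_lit 21800052, nat_lit 8567, nat_lit 3, nat_lit 1),
  (nat_lit 21808619, nat_lit 8661, nat_lit 3, nat_lit 1),
  (nat_lit 21817280, nat_lit 8784, nat_lit 3, nat_lit 1),
  (nat_lit 21826064, nat_lit 8944, nat_lit 3, nat_lit 1),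
  (nat_lit 21835008, nat_lit 9158, nat_lit 3, nat_lit 1),
  (nat_lit 21844166, nat_lit 9453, nat_lit 3, nat_lit 1),
  (nat_lit 21853619, nat_lit 9880, nat_lit 3, nat_lit 1),
  (nat_lit 21863499, nat_lit 10552, nat_lit 3, nat_lit 1),
  (nat_lit 21874051, nat_lit 11784, nat_lit 3, nat_lit 1),
  (nat_lit 21885835, nat_lit 15206, nat_lit 3, nat_lit 1),
  (nat_lit 21901041, nat_lit 183168, nat_lit 3, nat_lit 0),
  (nat_lit 22084209, nat_lit 183168, nat_lit 2, nat_lit 1),
  (nat_lit 22115385, nat_lit 31176, nat_lit 2, nat_lit 1),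
  (nat_lit 22129723, nat_lit 14338, nat_lit 2, nat_lit 1),
  (nat_lit 22140911, nat_lit 11188, nat_lit 2, nat_lit 1),
  (nat_lit 22150950, nat_lit 10039, nat_lit 2, nat_lit 1),
  (nat_lit 22160355, nat_lit 9405, nat_lit 2, nat_lit 1),
  (nat_lit 22169353, nat_lit 8998, nat_lit 2, nat_lit 1),
  (nat_lit 22178068, nat_lit 8715, nat_lit 2, nat_lit 1),
  (nat_lit 22186578, nat_lit 8510, nat_lit 2, nat_lit 1),
  (nat_lit 22194936, nat_lit 8358, nat_lit 2, nat_lit 1),
  (nat_lit 22203181, nat_lit 8245, nat_lit 2, nat_lit 1),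
  (nat_lit 22211345, nat_lit 8164, nat_lit 2, nat_lit 1),
  (nat_lit 22219455, nat_lit 8110, nat_lit 2, nat_lit 1),
  (nat_lit 22227540, nat_lit 8095, nat_lit 2, nat_lit 1),
  (nat_lit 22235635, nat_lit 8158, nat_lit 2, nat_lit 1),
  (nat_lit 22243793, nat_lit 8341, nat_lit 2, nat_lit 1),
  (nat_lit 22252134, nat_lit 8965, nat_lit 2, nat_lit 1),
  (nat_lit 22261099, nat_lit 9322, nat_lit 2, nat_lit 1),
  (nat_lit 22270421, nat_lit 22793, nat_lit 2, nat_lit 0),
  (nat_lit 22293214, nat_lit 22793, nat_lit 3, nat_lit 1),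
  (nat_lit 22302727, nat_lit 9513, nat_lit 3, nat_lit 1),
  (nat_lit 22311304, nat_lit 8577, nat_lit 3, nat_lit 1),
  (nat_lit 22319660, nat_lit 8356, nat_lit 3, nat_lit 1),
  (nat_lit 22327957, nat_lit 8304, nat_lit 3, nat_lit 1),
  (nat_lit 22336261, nat_lit 8349, nat_lit 3, nat_lit 1),
  (nat_lit 22344610, nat_lit 8423, nat_lit 3, nat_lit 1),
  (nat_lit 22353033, nat_lit 8522, nat_lit 3, nat_lit 1),
  (nat_lit 22361555, nat_lit 8648, nat_lit 3, nat_lit 1),
  (nat_lit 22370203, nat_lit 8802, nat_lit 3, nat_lit 1),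
  (nat_lit 22379005, nat_lit 8991, nat_lit 3, nat_lit 1),
  (nat_lit 22387996, nat_lit 9222, nat_lit 3, nat_lit 1),
  (nat_lit 22397218, nat_lit 9511, nat_lit 3, nat_lit 1),
  (nat_lit 22406729, nat_lit 9878, nat_lit 3, nat_lit 1),
  (nat_lit 22416607, nat_lit 10360, nat_lit 3, nat_lit 1),
  (nat_lit 22426967, nat_lit 11029, nat_lit 3, nat_lit 1),
  (nat_lit 22437996, nat_lit 12037, nat_lit 3, nat_lit 1),
  (nat_lit 22450033, nat_lit 13805, nat_lit 3, nat_lit 1),
  (nat_lit 22463838, nat_lit 18497, nat_lit 3, nat_lit 1),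
  (nat_lit 22482335, nat_lit 653913, nat_lit 3, nat_lit 0),
  (nat_lit 23136248, nat_lit 653913, nat_lit 2, nat_lit 1),
  (nat_lit 23152469, nat_lit 16221, nat_lit 2, nat_lit 1),
  (nat_lit 23164689, nat_lit 12220, nat_lit 2, nat_lit 1),
  (nat_lit 23175118, nat_lit 10429, nat_lit 2, nat_lit 1)]

lemma upL9_2 : allB (loc upD upK upT (nat_lit 337) upC9 upG0 upG1 upF upY9)
    upS9_2 = true := by
  decide +kernel

/-- Test points. -/
def upS9_3 : List (ℕ × ℕ × ℕ × ℕ) := [
  (nat_lit 23184578, nat_lit 9460, nat_lit 2, nat_lit 1),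
  (nat_lit 23193401, nat_lit 8823, nat_lit 2, nat_lit 1),
  (nat_lit 23201760, nat_lit 8359, nat_lit 2, nat_lit 1),
  (nat_lit 23209763, nat_lit 8003, nat_lit 2, nat_lit 1),
  (nat_lit 23217480, nat_lit 7717, nat_lit 2, nat_lit 1),
  (nat_lit 23224963, nat_lit 7483, nat_lit 2, nat_lit 1),
  (nat_lit 23232248, nat_lit 7285, nat_lit 2, nat_lit 1),
  (nat_lit 23239363, nat_lit 7115, nat_lit 2, nat_lit 1),
  (nat_lit 23246331, nat_lit 6968, nat_lit 2, nat_lit 1),
  (nat_lit 23253171, nat_lit 6840, nat_lit 2, nat_lit 1),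
  (nat_lit 23259897, nat_lit 6726, nat_lit 2, nat_lit 1),
  (nat_lit 23266521, nat_lit 6624, nat_lit 2, nat_lit 1),
  (nat_lit 23273055, nat_lit 6534, nat_lit 2, nat_lit 1),
  (nat_lit 23279506, nat_lit 6451, nat_lit 2, nat_lit 1),
  (nat_lit 23285883, nat_lit 6377, nat_lit 2, nat_lit 1),
  (nat_lit 23292192, nat_lit 6309, nat_lit 2, nat_lit 1),
  (nat_lit 23298440, nat_lit 6248, nat_lit 2, nat_lit 1),
  (nat_lit 23304630, nat_lit 6190, nat_lit 2, nat_lit 1),
  (nat_lit 23310769, nat_lit 6139, nat_lit 2, nat_lit 1),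
  (nat_lit 23316860, nat_lit 6091, nat_lit 2, nat_lit 1),
  (nat_lit 23322908, nat_lit 6048, nat_lit 2, nat_lit 1),
  (nat_lit 23328915, nat_lit 6007, nat_lit 2, nat_lit 1),
  (nat_lit 23334886, nat_lit 5971, nat_lit 2, nat_lit 1),
  (nat_lit 23340822, nat_lit 5936, nat_lit 2, nat_lit 1),
  (nat_lit 23346727, nat_lit 5905, nat_lit 2, nat_lit 1),
  (nat_lit 23352604, nat_lit 5877, nat_lit 2, nat_lit 1),
  (nat_lit 23358454, nat_lit 5850, nat_lit 2, nat_lit 1),
  (nat_lit 23364282, nat_lit 5828, nat_lit 2, nat_lit 1),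
  (nat_lit 23370087, nat_lit 5805, nat_lit 2, nat_lit 1),
  (nat_lit 23375874, nat_lit 5787, nat_lit 2, nat_lit 1),
  (nat_lit 23381644, nat_lit 5770, nat_lit 2, nat_lit 1),
  (nat_lit 23387400, nat_lit 5756, nat_lit 2, nat_lit 1),
  (nat_lit 23393142, nat_lit 5742, nat_lit 2, nat_lit 1),
  (nat_lit 23398874, nat_lit 5732, nat_lit 2, nat_lit 1),
  (nat_lit 23404598, nat_lit 5724, nat_lit 2, nat_lit 1),
  (nat_lit 23410316, nat_lit 5718, nat_lit 2, nat_lit 1),
  (nat_lit 23416030, nat_lit 5714, nat_lit 2, nat_lit 1),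
  (nat_lit 23421742, nat_lit 5714, nat_lit 2, nat_lit 1),
  (nat_lit 23427456, nat_lit 5718, nat_lit 2, nat_lit 1),
  (nat_lit 23433174, nat_lit 5724, nat_lit 2, nat_lit 1),
  (nat_lit 23438898, nat_lit 5735, nat_lit 2, nat_lit 1),
  (nat_lit 23444633, nat_lit 5748, nat_lit 2, nat_lit 1),
  (nat_lit 23450381, nat_lit 5765, nat_lit 2, nat_lit 1),
  (nat_lit 23456146, nat_lit 5787, nat_lit 2, nat_lit 1),
  (nat_lit 23461933, nat_lit 5813, nat_lit 2, nat_lit 1),
  (nat_lit 23467746, nat_lit 5847, nat_lit 2, nat_lit 1),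
  (nat_lit 23473593, nat_lit 5886, nat_lit 2, nat_lit 1),
  (nat_lit 23479479, nat_lit 5933, nat_lit 2, nat_lit 1),
  (nat_lit 23485412, nat_lit 5992, nat_lit 2, nat_lit 1),
  (nat_lit 23491404, nat_lit 6061, nat_lit 2, nat_lit 1),
  (nat_lit 23497465, nat_lit 6147, nat_lit 2, nat_lit 1),
  (nat_lit 23503612, nat_lit 6253, nat_lit 2, nat_lit 1),
  (nat_lit 23509865, nat_lit 6388, nat_lit 2, nat_lit 1),
  (nat_lit 23516253, nat_lit 6561, nat_lit 2, nat_lit 1),
  (nat_lit 23522814, nat_lit 6793, nat_lit 2, nat_lit 1),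
  (nat_lit 23529607, nat_lit 7120, nat_lit 2, nat_lit 1),
  (nat_lit 23536727, nat_lit 7622, nat_lit 2, nat_lit 1),
  (nat_lit 23544349, nat_lit 8519, nat_lit 2, nat_lit 1),
  (nat_lit 23552868, nat_lit 10942, nat_lit 2, nat_lit 1),
  (nat_lit 23563810, nat_lit 22273, nat_lit 2, nat_lit 1),
  (nat_lit 23586083, nat_lit 65277, nat_lit 2, nat_lit 1),
  (nat_lit 23651360, nat_lit 83459, nat_lit 4310, nat_lit 0),
  (nat_lit 23734819, nat_lit 181934, nat_lit 3, nat_lit 0),
  (nat_lit 23916753, nat_lit 181934, nat_lit 2, nat_lit 0),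
  (nat_lit 24002450, nat_lit 85697, nat_lit 3, nat_lit 1),
  (nat_lit 24011857, nat_lit 9407, nat_lit 3, nat_lit 1),
  (nat_lit 24019353, nat_lit 7496, nat_lit 3, nat_lit 1),
  (nat_lit 24026179, nat_lit 6826, nat_lit 3, nat_lit 1),
  (nat_lit 24032647, nat_lit 6468, nat_lit 3, nat_lit 1),
  (nat_lit 24038890, nat_lit 6243, nat_lit 3, nat_lit 1),
  (nat_lit 24044981, nat_lit 6091, nat_lit 3, nat_lit 1),
  (nat_lit 24050963, nat_lit 5982, nat_lit 3, nat_lit 1),
  (nat_lit 24056866, nat_lit 5903, nat_lit 3, nat_lit 1),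
  (nat_lit 24062709, nat_lit 5843, nat_lit 3, nat_lit 1),
  (nat_lit 24068508, nat_lit 5799, nat_lit 3, nat_lit 1),
  (nat_lit 24074274, nat_lit 5766, nat_lit 3, nat_lit 1),
  (nat_lit 24080018, nat_lit 5744, nat_lit 3, nat_lit 1),
  (nat_lit 24085747, nat_lit 5729, nat_lit 3, nat_lit 1)]

lemma upL9_3 : allB (loc upD upK upT (nat_lit 337) upC9 upG0 upG1 upF upY9)
    upS9_3 = true := by
  decide +kernel

/-- Test points. -/
def upS9_4 : List (ℕ × ℕ × ℕ × ℕ) := [
  (nat_lit 24091469, nat_lit 5722, nat_lit 3, nat_lit 1),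
  (nat_lit 24097188, nat_lit 5723, nat_lit 3, nat_lit 1),
  (nat_lit 24102911, nat_lit 5733, nat_lit 3, nat_lit 1),
  (nat_lit 24108644, nat_lit 5746, nat_lit 3, nat_lit 1),
  (nat_lit 24114390, nat_lit 5765, nat_lit 3, nat_lit 1),
  (nat_lit 24120155, nat_lit 5788, nat_lit 3, nat_lit 1),
  (nat_lit 24125943, nat_lit 5818, nat_lit 3, nat_lit 1),
  (nat_lit 24131761, nat_lit 5853, nat_lit 3, nat_lit 1),
  (nat_lit 24137614, nat_lit 5894, nat_lit 3, nat_lit 1),
  (nat_lit 24143508, nat_lit 5943, nat_lit 3, nat_lit 1),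
  (nat_lit 24149451, nat_lit 6002, nat_lit 3, nat_lit 1),
  (nat_lit 24155453, nat_lit 6074, nat_lit 3, nat_lit 1),
  (nat_lit 24161527, nat_lit 6163, nat_lit 3, nat_lit 1),
  (nat_lit 24167690, nat_lit 6283, nat_lit 3, nat_lit 1),
  (nat_lit 24173973, nat_lit 6460, nat_lit 3, nat_lit 1),
  (nat_lit 24180433, nat_lit 6781, nat_lit 3, nat_lit 1),
  (nat_lit 24187214, nat_lit 7739, nat_lit 3, nat_lit 1),
  (nat_lit 24194953, nat_lit 16365, nat_lit 3, nat_lit 0),
  (nat_lit 24211318, nat_lit 16365, nat_lit 2, nat_lit 1),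
  (nat_lit 24220663, nat_lit 9345, nat_lit 2, nat_lit 1),
  (nat_lit 24229101, nat_lit 8438, nat_lit 2, nat_lit 1),
  (nat_lit 24236895, nat_lit 7794, nat_lit 2, nat_lit 1),
  (nat_lit 24244683, nat_lit 7963, nat_lit 2, nat_lit 1),
  (nat_lit 24252646, nat_lit 8259, nat_lit 2, nat_lit 1),
  (nat_lit 24260905, nat_lit 8683, nat_lit 2, nat_lit 1),
  (nat_lit 24269588, nat_lit 9286, nat_lit 2, nat_lit 1),
  (nat_lit 24278874, nat_lit 10200, nat_lit 2, nat_lit 1),
  (nat_lit 24289074, nat_lit 11801, nat_lit 2, nat_lit 1),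
  (nat_lit 24300875, nat_lit 16005, nat_lit 2, nat_lit 1),
  (nat_lit 24316880, nat_lit 683120, nat_lit 2, nat_lit 0)]

lemma upL9_4 : allB (loc upD upK upT (nat_lit 337) upC9 upG0 upG1 upF upY9)
    upS9_4 = true := by
  decide +kernel

/-- All the test points. -/
def upS9 : List (ℕ × ℕ × ℕ × ℕ) :=
  upS9_0 ++ (upS9_1 ++ (upS9_2 ++ (upS9_3 ++ (upS9_4))))

lemma upLoc9 : ∀ e ∈ upS9, loc upD upK upT (nat_lit 337) upC9 upG0 upG1 upF upY9 e = true := by
  unfold upS9
  refine List.forall_mem_append.2 ⟨allB_spec upL9_0, ?_⟩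
  refine List.forall_mem_append.2 ⟨allB_spec upL9_1, ?_⟩
  refine List.forall_mem_append.2 ⟨allB_spec upL9_2, ?_⟩
  refine List.forall_mem_append.2 ⟨allB_spec upL9_3, ?_⟩
  exact allB_spec upL9_4

theorem upB9 : ∀ t ∈ Set.Icc (0 : ℝ) (1 / 4), |(Bp upD upY9).eval t *
    aeval t (wp upG0 upG1 upF)| ≤ upC9 / (upD : ℝ) ^ (upG0 + upG1 + dgF upF + upY9.length) :=
  level_bound (K := upK) (T := upT) (cnt := nat_lit 337) (cs := upS9) (by decide +kernel)
    (by decide +kernel) upF_ok (by decide +kernel) (by decide +kernel) (by decide +kernel)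
    (by decide +kernel) (by decide +kernel) (by decide +kernel) upLoc9

theorem upA9 : AOK upD 32 17850625 100000000 (upG0 + upG1 + dgF upF) upC9 282287 upY9.length := by
  decide +kernel

end Up

end IntCheb
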