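import Pool.Agent.Lib.MP_6205a3_nt.B66.UpData
import Pool.Agent.Lib.MP_6205a3_nt.B66.UpL9

/-!
# MP_6205a3_nt : level 4 of the upper bound certificate
-/

open Finset Polynomial

set_option autoImplicit false
set_option maxRecDepth 100000

namespace IntCheb

namespace Up

open Cert

/-- Zeros (times `upD`). -/
def upY4 : List ℕ := [
  nat_lit 17124021, nat_lit 17427010, nat_lit 17462200, nat_lit 17493277, nat_lit 17523086,
  nat_lit 17553029, nat_lit 17584523, nat_lit 17620488, nat_lit 17731189, nat_lit 21605928,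
  nat_lit 21627714, nat_lit 21646118, nat_lit 21662885, nat_lit 21678659, nat_lit 21693769,
  nat_lit 21708419, nat_lit 21722753, nat_lit 21736886, nat_lit 21750922, nat_lit 21764965,
  nat_lit 21779139, nat_lit 21793610, nat_lit 21808639, nat_lit 21824728, nat_lit 21843238,
  nat_lit 21907759, nat_lit 22158228, nat_lit 22175542, nat_lit 22190476, nat_lit 22204381,
  nat_lit 22217800, nat_lit 22231111, nat_lit 22244883, nat_lit 22264596, nat_lit 22309840,
  nat_lit 22324719, nat_lit 22339441, nat_lit 22354808, nat_lit 22371590, nat_lit 22391541,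
  nat_lit 22735612, nat_lit 23213058, nat_lit 23229376, nat_lit 23242864, nat_lit 23254953,
  nat_lit 23266166, nat_lit 23276768, nat_lit 23286915, nat_lit 23296709, nat_lit 23306223,
  nat_lit 23315509, nat_lit 23324607, nat_lit 23333551, nat_lit 23342367, nat_lit 23351078,
  nat_lit 23359705, nat_lit 23368264, nat_lit 23376774, nat_lit 23385249, nat_lit 23393706,
  nat_lit 23402161, nat_lit 23410630, nat_lit 23419134, nat_lit 23427692, nat_lit 23436329,
  nat_lit 23445078, nat_lit 23453976, nat_lit 23463076, nat_lit 23472454, nat_lit 23482223,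
  nat_lit 23492578, nat_lit 23503907, nat_lit 23517282, nat_lit 24008684, nat_lit 24078420,
  nat_lit 24098626, nat_lit 24119384]

/-- Numerator of the bound. -/
def upC4 : ℕ := Nat.mul (nat_lit 1227734557033037017) (Nat.pow (nat_lit 2) (nat_lit 198650))

/-- Test points. -/
def upS4_0 : List (ℕ × ℕ × ℕ × ℕ) := [
  (nat_lit 11537552, nat_lit 11537552, nat_lit 2, nat_lit 0),
  (nat_lit 11701927, nat_lit 770704, nat_lit 3, nat_lit 0),
  (nat_lit 12472631, nat_lit 881585, nat_lit 2, nat_lit 0),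
  (nat_lit 13354216, nat_lit 909823, nat_lit 3, nat_lit 0),
  (nat_lit 14264039, nat_lit 1666544, nat_lit 2, nat_lit 0),
  (nat_lit 15930583, nat_lit 1666544, nat_lit 3, nat_lit 0),
  (nat_lit 16029526, nat_lit 504438, nat_lit 2, nat_lit 0),
  (nat_lit 16533964, nat_lit 504438, nat_lit 3, nat_lit 0),
  (nat_lit 16816446, nat_lit 307696, nat_lit 2, nat_lit 1),
  (nat_lit 17124142, nat_lit 307696, nat_lit 384, nat_lit 0),
  (nat_lit 17404677, nat_lit 280535, nat_lit 3, nat_lit 1),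
  (nat_lit 17445457, nat_lit 40780, nat_lit 3, nat_lit 1),
  (nat_lit 17478010, nat_lit 32553, nat_lit 3, nat_lit 1),
  (nat_lit 17508242, nat_lit 30232, nat_lit 3, nat_lit 1),
  (nat_lit 17537963, nat_lit 30503, nat_lit 3, nat_lit 1),
  (nat_lit 17568466, nat_lit 33134, nat_lit 3, nat_lit 1),
  (nat_lit 17601600, nat_lit 41816, nat_lit 3, nat_lit 1),
  (nat_lit 17643416, nat_lit 95138, nat_lit 3, nat_lit 1),
  (nat_lit 17738554, nat_lit 448660, nat_lit 3, nat_lit 0),
  (nat_lit 18187214, nat_lit 448660, nat_lit 2, nat_lit 0),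
  (nat_lit 18352187, nat_lit 3005560, nat_lit 3, nat_lit 0),
  (nat_lit 21357747, nat_lit 3005560, nat_lit 2, nat_lit 0),
  (nat_lit 21591663, nat_lit 233916, nat_lit 3, nat_lit 1),
  (nat_lit 21617463, nat_lit 25800, nat_lit 3, nat_lit 1),
  (nat_lit 21637185, nat_lit 19722, nat_lit 3, nat_lit 1),
  (nat_lit 21654655, nat_lit 17470, nat_lit 3, nat_lit 1),
  (nat_lit 21670871, nat_lit 16216, nat_lit 3, nat_lit 1),
  (nat_lit 21686282, nat_lit 15411, nat_lit 3, nat_lit 1),
  (nat_lit 21701141, nat_lit 14859, nat_lit 3, nat_lit 1),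
  (nat_lit 21715618, nat_lit 14477, nat_lit 3, nat_lit 1),
  (nat_lit 21729838, nat_lit 14220, nat_lit 3, nat_lit 1),
  (nat_lit 21743910, nat_lit 14072, nat_lit 3, nat_lit 1),
  (nat_lit 21757935, nat_lit 14092, nat_lit 3, nat_lit 1),
  (nat_lit 21772027, nat_lit 14297, nat_lit 3, nat_lit 1),
  (nat_lit 21786324, nat_lit 14708, nat_lit 3, nat_lit 1),
  (nat_lit 21801032, nat_lit 15469, nat_lit 3, nat_lit 1),
  (nat_lit 21816501, nat_lit 17008, nat_lit 3, nat_lit 1),
  (nat_lit 21833509, nat_lit 21538, nat_lit 3, nat_lit 1),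
  (nat_lit 21855047, nat_lit 55684, nat_lit 3, nat_lit 1),
  (nat_lit 21910731, nat_lit 236338, nat_lit 3, nat_lit 0),
  (nat_lit 22147069, nat_lit 236338, nat_lit 2, nat_lit 1),
  (nat_lit 22167350, nat_lit 20281, nat_lit 2, nat_lit 1),
  (nat_lit 22183188, nat_lit 15838, nat_lit 2, nat_lit 1),
  (nat_lit 22197516, nat_lit 14328, nat_lit 2, nat_lit 1),
  (nat_lit 22211127, nat_lit 13611, nat_lit 2, nat_lit 1),
  (nat_lit 22224444, nat_lit 13432, nat_lit 2, nat_lit 1),
  (nat_lit 22237876, nat_lit 14649, nat_lit 2, nat_lit 1),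
  (nat_lit 22252525, nat_lit 15695, nat_lit 2, nat_lit 1),
  (nat_lit 22268220, nat_lit 33387, nat_lit 2, nat_lit 0),
  (nat_lit 22301607, nat_lit 33387, nat_lit 3, nat_lit 1),
  (nat_lit 22317379, nat_lit 15772, nat_lit 3, nat_lit 1),
  (nat_lit 22332039, nat_lit 14964, nat_lit 3, nat_lit 1),
  (nat_lit 22347003, nat_lit 15952, nat_lit 3, nat_lit 1),
  (nat_lit 22362955, nat_lit 18001, nat_lit 3, nat_lit 1),
  (nat_lit 22380956, nat_lit 23788, nat_lit 3, nat_lit 1),
  (nat_lit 22404744, nat_lit 331307, nat_lit 3, nat_lit 1),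
  (nat_lit 22736051, nat_lit 466069, nat_lit 231, nat_lit 0),
  (nat_lit 23202120, nat_lit 466069, nat_lit 2, nat_lit 1),
  (nat_lit 23221750, nat_lit 19630, nat_lit 2, nat_lit 1),
  (nat_lit 23236347, nat_lit 14597, nat_lit 2, nat_lit 1),
  (nat_lit 23249042, nat_lit 12695, nat_lit 2, nat_lit 1),
  (nat_lit 23260649, nat_lit 11607, nat_lit 2, nat_lit 1),
  (nat_lit 23271532, nat_lit 10883, nat_lit 2, nat_lit 1),
  (nat_lit 23281891, nat_lit 10359, nat_lit 2, nat_lit 1),
  (nat_lit 23291851, nat_lit 9960, nat_lit 2, nat_lit 1),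
  (nat_lit 23301498, nat_lit 9647, nat_lit 2, nat_lit 1),
  (nat_lit 23310892, nat_lit 9394, nat_lit 2, nat_lit 1),
  (nat_lit 23320079, nat_lit 9187, nat_lit 2, nat_lit 1),
  (nat_lit 23329097, nat_lit 9018, nat_lit 2, nat_lit 1),
  (nat_lit 23337973, nat_lit 8876, nat_lit 2, nat_lit 1),
  (nat_lit 23346734, nat_lit 8761, nat_lit 2, nat_lit 1),
  (nat_lit 23355401, nat_lit 8667, nat_lit 2, nat_lit 1),
  (nat_lit 23363992, nat_lit 8591, nat_lit 2, nat_lit 1),
  (nat_lit 23372524, nat_lit 8532, nat_lit 2, nat_lit 1),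
  (nat_lit 23381015, nat_lit 8491, nat_lit 2, nat_lit 1),
  (nat_lit 23389479, nat_lit 8464, nat_lit 2, nat_lit 1),
  (nat_lit 23397933, nat_lit 8460, nat_lit 2, nat_lit 1),
  (nat_lit 23406393, nat_lit 8484, nat_lit 2, nat_lit 1),
  (nat_lit 23414877, nat_lit 8528, nat_lit 2, nat_lit 1),
  (nat_lit 23423405, nat_lit 8594, nat_lit 2, nat_lit 1),
  (nat_lit 23431999, nat_lit 8689, nat_lit 2, nat_lit 1),
  (nat_lit 23440688, nat_lit 8817, nat_lit 2, nat_lit 1),
  (nat_lit 23449505, nat_lit 8992, nat_lit 2, nat_lit 1),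
  (nat_lit 23458497, nat_lit 9227, nat_lit 2, nat_lit 1),
  (nat_lit 23467724, nat_lit 9556, nat_lit 2, nat_lit 1),
  (nat_lit 23477280, nat_lit 10030, nat_lit 2, nat_lit 1),
  (nat_lit 23487310, nat_lit 10772, nat_lit 2, nat_lit 1),
  (nat_lit 23498082, nat_lit 12122, nat_lit 2, nat_lit 1),
  (nat_lit 23510204, nat_lit 15829, nat_lit 2, nat_lit 1),
  (nat_lit 23526033, nat_lit 204487, nat_lit 2, nat_lit 0),
  (nat_lit 23730520, nat_lit 204487, nat_lit 3, nat_lit 0),
  (nat_lit 23921645, nat_lit 191125, nat_lit 2, nat_lit 0),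
  (nat_lit 24006739, nat_lit 85094, nat_lit 3, nat_lit 1),
  (nat_lit 24066498, nat_lit 59759, nat_lit 3, nat_lit 1),
  (nat_lit 24088740, nat_lit 22242, nat_lit 3, nat_lit 1),
  (nat_lit 24108642, nat_lit 23531, nat_lit 3, nat_lit 1),
  (nat_lit 24132173, nat_lit 87961, nat_lit 3, nat_lit 0),
  (nat_lit 24220134, nat_lit 779866, nat_lit 2, nat_lit 0)]

lemma upL4_0 : allB (loc upD upK upT (nat_lit 93) upC4 upG0 upG1 upF upY4)
    upS4_0 = true := by
  decide +kernel

/-- All the test points. -/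
def upS4 : List (ℕ × ℕ × ℕ × ℕ) :=
  upS4_0

lemma upLoc4 : ∀ e ∈ upS4, loc upD upK upT (nat_lit 93) upC4 upG0 upG1 upF upY4 e = true := by
  unfold upS4
  exact allB_spec upL4_0

theorem upB4 : ∀ t ∈ Set.Icc (0 : ℝ) (1 / 4), |(Bp upD upY4).eval t *
    aeval t (wp upG0 upG1 upF)| ≤ upC4 / (upD : ℝ) ^ (upG0 + upG1 + dgF upF + upY4.length) :=
  level_bound (K := upK) (T := upT) (cnt := nat_lit 93) (cs := upS4) (by decide +kernel)
    (by decide +kernel) upF_ok (by decide +kernel) (by decide +kernel) (by decide +kernel)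
    (by decide +kernel) (by decide +kernel) (by decide +kernel) upLoc4

theorem upA4 : AOK upD 32 17850625 100000000 (upG0 + upG1 + dgF upF) upC4 264361 upY4.length := by
  decide +kernel

end Up

end IntCheb
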