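import Pool.Agent.Lib.MP_6205a3_nt.B66.UpMink
import Pool.Agent.Lib.MP_6205a3_nt.Cheb

/-!
# MP_6205a3_nt : the trapezoid rule for Minkowski's theorem
-/

open Finset Polynomial Filter Topology

set_option autoImplicit false

namespace IntCheb

/-- Monic polynomials of all degrees below `m` with weighted bounds whose product is `Ψ`. -/
def Fam (E : Set ℝ) (W : ℝ → ℝ) (m : ℕ) (Ψ : ℝ) : Prop :=
  ∃ (p : ℕ → ℝ[X]) (c : ℕ → ℝ), (∀ j < m, (p j).Monic ∧ (p j).natDegree = j ∧ 0 < c j ∧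
    ∀ t ∈ E, |(p j).eval t * W t| ≤ c j) ∧ ∏ j ∈ range m, c j = Ψ

variable {E : Set ℝ} {W : ℝ → ℝ}

lemma fam_zero : Fam E W 0 1 := ⟨fun _ => 0, fun _ => 0, fun j hj => absurd hj (Nat.not_lt_zero j),
  by simp⟩

lemma fam_succ {m : ℕ} {Ψ : ℝ} (h : Fam E W m Ψ) (B : ℝ[X]) (hB : B.Monic)
    (hd : B.natDegree = m) {f : ℝ} (hf : 0 < f) (hb : ∀ t ∈ E, |B.eval t * W t| ≤ f) :
    Fam E W (m + 1) (Ψ * f) := by
  obtain ⟨p, c, h1, h2⟩ := h
  refine ⟨Function.update p m B, Function.update c m f, ?_, ?_⟩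
  · intro j hj
    rcases Nat.lt_or_ge j m with h | h
    · have hne : j ≠ m := h.ne
      rw [Function.update_of_ne hne, Function.update_of_ne hne]
      exact h1 j h
    · have he : j = m := by omega
      subst he
      rw [Function.update_self, Function.update_self]
      exact ⟨hB, hd, hf, hb⟩
  · rw [Finset.prod_range_succ, Function.update_self, ← h2]
    congr 1
    refine Finset.prod_congr rfl fun j hj => ?_
    rw [Function.update_of_ne (Finset.mem_range.1 hj).ne]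

lemma fam_add (hE : ∀ t ∈ E, |t| ≤ 1) {m : ℕ} {Ψ : ℝ} (h : Fam E W m Ψ) (B : ℝ[X]) (hB : B.Monic)
    (hd : B.natDegree = m) {f : ℝ} (hf : 0 < f) (hb : ∀ t ∈ E, |B.eval t * W t| ≤ f) (δ : ℕ) :
    Fam E W (m + δ) (Ψ * f ^ δ) := by
  induction δ with
  | zero => simpa using h
  | succ δ ih =>
    have h1 := fam_succ ih (B * X ^ δ) (hB.mul (monic_X_pow δ))
      (by rw [hB.natDegree_mul (monic_X_pow δ), natDegree_X_pow, hd]) hf (by
        intro t ht
        rw [eval_mul, eval_pow, eval_X]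
        have h2 : B.eval t * t ^ δ * W t = (B.eval t * W t) * t ^ δ := by ring
        rw [h2, abs_mul, abs_pow]
        calc |B.eval t * W t| * |t| ^ δ ≤ f * 1 :=
              mul_le_mul (hb t ht) (pow_le_one₀ (abs_nonneg _) (hE t ht)) (by positivity) hf.le
          _ = f := mul_one f)
    rw [mul_assoc, ← pow_succ] at h1
    exact h1

lemma fam_level (hE : ∀ t ∈ E, |t| ≤ 1) {w : ℝ → ℝ} {N : ℕ} {e e' : ℕ} (he : e ≤ e') {B B' : ℝ[X]}
    (hB : B.Monic) (hB' : B'.Monic) (hd : B.natDegree = e) (hd' : B'.natDegree = e') {C C' : ℝ}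
    (hC : 0 < C) (hC' : 0 < C') (hb : ∀ t ∈ E, |B.eval t * w t| ≤ C)
    (hb' : ∀ t ∈ E, |B'.eval t * w t| ≤ C') {Ψ : ℝ} (h : Fam E (fun t => w t ^ N) (N * e) Ψ) :
    ∀ b ≤ N, Fam E (fun t => w t ^ N) (N * e + b * (e' - e))
      (Ψ * ∏ i ∈ range b, (C ^ (N - i) * C' ^ i) ^ (e' - e)) := by
  intro b
  induction b with
  | zero => intro _; simpa using h
  | succ b ih =>
    intro hbN
    have h1 := ih (by omega)
    have h2 := fam_add hE h1 (B ^ (N - b) * B' ^ b) ((hB.pow _).mul (hB'.pow _)) (by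
      rw [(hB.pow _).natDegree_mul (hB'.pow _), hB.natDegree_pow, hB'.natDegree_pow, hd, hd']
      obtain ⟨k, rfl⟩ : ∃ k, N = b + k := ⟨N - b, by omega⟩
      obtain ⟨l, rfl⟩ : ∃ l, e' = e + l := ⟨e' - e, by omega⟩
      rw [Nat.add_sub_cancel_left, Nat.add_sub_cancel_left]
      ring) (f := C ^ (N - b) * C' ^ b) (by positivity) (by
      intro t ht
      rw [eval_mul, eval_pow, eval_pow]
      have h3 : B.eval t ^ (N - b) * B'.eval t ^ b * w t ^ N =
          (B.eval t * w t) ^ (N - b) * (B'.eval t * w t) ^ b := by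
        rw [mul_pow, mul_pow]
        have : w t ^ N = w t ^ (N - b) * w t ^ b := by rw [← pow_add]; congr 1; omega
        rw [this]; ring
      rw [h3, abs_mul, abs_pow, abs_pow]
      have h4 := hb t ht
      have h5 := hb' t ht
      gcongr) (e' - e)
    rw [Finset.prod_range_succ, ← mul_assoc]
    have h6 : N * e + (b + 1) * (e' - e) = N * e + b * (e' - e) + (e' - e) := by ring
    rw [h6]
    exact h2

/-- Data for the trapezoid rule. -/
structure Levels (E : Set ℝ) (w : ℝ → ℝ) (J : ℕ) (e : ℕ → ℕ) (B : ℕ → ℝ[X]) (C : ℕ → ℝ) : Prop where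
  e0 : e 0 = 0
  mono : ∀ s < J, e s ≤ e (s + 1)
  monic : ∀ s ≤ J, (B s).Monic
  deg : ∀ s ≤ J, (B s).natDegree = e s
  pos : ∀ s ≤ J, 0 < C s
  bound : ∀ s ≤ J, ∀ t ∈ E, |(B s).eval t * w t| ≤ C s

lemma fam_levels (hE : ∀ t ∈ E, |t| ≤ 1) {w : ℝ → ℝ} {J : ℕ} {e : ℕ → ℕ} {B : ℕ → ℝ[X]}
    {C : ℕ → ℝ} (h : Levels E w J e B C) (N : ℕ) : ∀ s ≤ J,
    Fam E (fun t => w t ^ N) (N * e s)
      (∏ s' ∈ range s, ∏ i ∈ range N, (C s' ^ (N - i) * C (s' + 1) ^ i) ^ (e (s' + 1) - e s')) := by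
  intro s
  induction s with
  | zero =>
    intro _
    rw [h.e0, Finset.prod_range_zero, Nat.mul_zero]
    exact fam_zero
  | succ s ih =>
    intro hs
    have h1 := ih (by omega)
    have h2 := fam_level hE (h.mono s (by omega)) (h.monic s (by omega)) (h.monic _ hs)
      (h.deg s (by omega)) (h.deg _ hs) (h.pos s (by omega)) (h.pos _ hs) (h.bound s (by omega))
      (h.bound _ hs) h1 N le_rfl
    have h3 : N * e s + N * (e (s + 1) - e s) = N * e (s + 1) := by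
      rw [← Nat.mul_add, Nat.add_sub_cancel' (h.mono s (by omega))]
    rw [h3] at h2
    rw [Finset.prod_range_succ]
    exact h2

lemma prod_trap {C C' : ℝ} (N : ℕ) :
    (∏ i ∈ range N, (C ^ (N - i) * C' ^ i)) ^ 2 * C' ^ N = (C * C') ^ (N ^ 2) * C ^ N := by
  induction N with
  | zero => simp
  | succ N ih =>
    have h1 : ∏ i ∈ range (N + 1), (C ^ (N + 1 - i) * C' ^ i) =
        (∏ i ∈ range N, (C ^ (N - i) * C' ^ i)) * (C ^ (N + 1) * C' ^ N) := by
      rw [Finset.prod_range_succ, Nat.add_sub_cancel_left]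
      have h2 : ∏ i ∈ range N, (C ^ (N + 1 - i) * C' ^ i) =
          C ^ N * ∏ i ∈ range N, (C ^ (N - i) * C' ^ i) := by
        have h3 : ∏ i ∈ range N, (C ^ (N + 1 - i) * C' ^ i) =
            ∏ i ∈ range N, (C * (C ^ (N - i) * C' ^ i)) := by
          refine Finset.prod_congr rfl fun i hi => ?_
          have : N + 1 - i = (N - i) + 1 := by have := Finset.mem_range.1 hi; omega
          rw [this, pow_succ]; ring
        rw [h3, Finset.prod_mul_distrib]; simp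
      rw [h2]; ring
    rw [h1]
    have h4 : (N + 1) ^ 2 = N ^ 2 + (2 * N + 1) := by ring
    rw [h4, pow_add (C * C')]
    calc ((∏ i ∈ range N, (C ^ (N - i) * C' ^ i)) * (C ^ (N + 1) * C' ^ N)) ^ 2 * C' ^ (N + 1)
        = ((∏ i ∈ range N, (C ^ (N - i) * C' ^ i)) ^ 2 * C' ^ N) *
          (C ^ (2 * N + 2) * C' ^ (2 * N + 1)) := by ring
      _ = ((C * C') ^ N ^ 2 * C ^ N) * (C ^ (2 * N + 2) * C' ^ (2 * N + 1)) := by rw [ih]
      _ = _ := by ring

/-- The trapezoid rule. -/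
theorem trap (hE : ∀ t ∈ E, |t| ≤ 1) {J : ℕ} {e : ℕ → ℕ} {B : ℕ → ℝ[X]}
    {C : ℕ → ℝ} (w : ℤ[X]) (hw : w ≠ 0) (h : Levels E (fun t => aeval t w) J e B C) (he : 0 < e J)
    {κ : ℝ} (hκ : 0 < κ)
    (hT : ∏ s ∈ range J, (C s * C (s + 1)) ^ (e (s + 1) - e s) ≤
      κ ^ (2 * e J * (w.natDegree + e J))) :
    ∃ K : ℝ, ∀ N : ℕ, 1 ≤ N → ∃ R : ℤ[X], R ≠ 0 ∧ R.natDegree ≤ N * (w.natDegree + e J) ∧
      ∀ t ∈ E, |aeval t R| ≤ N * K * κ ^ (N * (w.natDegree + e J)) := by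
  set L := w.natDegree + e J with hL
  set M := e J with hM
  set K0 : ℝ := ∏ s ∈ range J, (C s / C (s + 1)) ^ (e (s + 1) - e s) with hK0
  have hK0pos : 0 < K0 := Finset.prod_pos fun s hs => by
    have h1 := h.pos s (Finset.mem_range.1 hs).le
    have h2 := h.pos (s + 1) (Finset.mem_range.1 hs)
    positivity
  set K1 : ℝ := K0 + 1 with hK1
  have hK1pos : 1 < K1 := by rw [hK1]; linarith
  refine ⟨M * K1, fun N hN => ?_⟩
  obtain ⟨p, c, h1, h2⟩ := fam_levels hE h N J le_rfl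
  set Ψ : ℝ := ∏ s ∈ range J, ∏ i ∈ range N,
    (C s ^ (N - i) * C (s + 1) ^ i) ^ (e (s + 1) - e s) with hΨ
  have hΨpos : 0 < Ψ := by
    rw [hΨ]
    refine Finset.prod_pos fun s hs => Finset.prod_pos fun i _ => ?_
    have h1 := h.pos s (Finset.mem_range.1 hs).le
    have h2 := h.pos (s + 1) (Finset.mem_range.1 hs)
    positivity
  have hΨ2 : Ψ ^ 2 = (∏ s ∈ range J, (C s * C (s + 1)) ^ (e (s + 1) - e s)) ^ (N ^ 2) * K0 ^ N := by
    rw [hΨ, hK0, ← Finset.prod_pow, ← Finset.prod_pow, ← Finset.prod_pow, ← Finset.prod_mul_distrib]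
    refine Finset.prod_congr rfl fun s hs => ?_
    have h1 := h.pos s (Finset.mem_range.1 hs).le
    have h2 := h.pos (s + 1) (Finset.mem_range.1 hs)
    rw [Finset.prod_pow]
    have h3 := prod_trap (C := C s) (C' := C (s + 1)) N
    have h4 : (∏ i ∈ range N, (C s ^ (N - i) * C (s + 1) ^ i)) ^ 2 =
        (C s * C (s + 1)) ^ (N ^ 2) * (C s / C (s + 1)) ^ N := by
      rw [div_pow, ← mul_div_assoc, eq_div_iff (by positivity)]
      exact h3
    calc ((∏ i ∈ range N, (C s ^ (N - i) * C (s + 1) ^ i)) ^ (e (s + 1) - e s)) ^ 2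
        = ((∏ i ∈ range N, (C s ^ (N - i) * C (s + 1) ^ i)) ^ 2) ^ (e (s + 1) - e s) := by
          rw [← pow_mul, ← pow_mul, Nat.mul_comm]
      _ = _ := by
          rw [h4, mul_pow, ← pow_mul, ← pow_mul, ← pow_mul, ← pow_mul, Nat.mul_comm (N ^ 2),
            Nat.mul_comm N]
  have hlt : Ψ < (κ ^ (N * L) * K1) ^ (N * M) := by
    have h3 : Ψ ^ 2 < ((κ ^ (N * L) * K1) ^ (N * M)) ^ 2 := by
      rw [hΨ2]
      have h4 : (∏ s ∈ range J, (C s * C (s + 1)) ^ (e (s + 1) - e s)) ^ (N ^ 2) ≤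
          (κ ^ (2 * M * L)) ^ (N ^ 2) := by
        refine pow_le_pow_left₀ (Finset.prod_nonneg fun s hs => ?_) hT _
        have h1 := h.pos s (Finset.mem_range.1 hs).le
        have h2 := h.pos (s + 1) (Finset.mem_range.1 hs)
        positivity
      have h5 : K0 ^ N < K1 ^ (2 * (N * M)) := by
        calc K0 ^ N < K1 ^ N := by
              apply pow_lt_pow_left₀ (by rw [hK1]; linarith) hK0pos.le (by omega)
          _ ≤ K1 ^ (2 * (N * M)) := by
              apply pow_le_pow_right₀ hK1pos.le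
              have : 1 ≤ M := he
              nlinarith
      calc (∏ s ∈ range J, (C s * C (s + 1)) ^ (e (s + 1) - e s)) ^ (N ^ 2) * K0 ^ N
          ≤ (κ ^ (2 * M * L)) ^ (N ^ 2) * K0 ^ N := by gcongr
        _ < (κ ^ (2 * M * L)) ^ (N ^ 2) * K1 ^ (2 * (N * M)) := by gcongr
        _ = ((κ ^ (N * L) * K1) ^ (N * M)) ^ 2 := by
            rw [mul_pow, mul_pow, ← pow_mul, ← pow_mul, ← pow_mul, ← pow_mul]
            congr 2 <;> ring
    exact lt_of_pow_lt_pow_left₀ 2 (by positivity) h3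
  have hprodc : ∏ j : Fin (N * M), c j < (κ ^ (N * L) * K1) ^ (N * M) := by
    rw [Fin.prod_univ_eq_prod_range (fun j => c j) (N * M), h2]
    exact hlt
  obtain ⟨S, hS0, hSd, hS⟩ := mink_basis (M := N * M) (fun j => p j) (fun j => (h1 j j.2).1)
    (fun j => (h1 j j.2).2.1) E (fun t => (aeval t w) ^ N) (fun j => c j)
    (fun j => (h1 j j.2).2.2.1) (fun j => (h1 j j.2).2.2.2) (κ := κ ^ (N * L) * K1)
    (by positivity) hprodc
  refine ⟨S * w ^ N, mul_ne_zero hS0 (pow_ne_zero _ hw), ?_, ?_⟩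
  · refine natDegree_mul_le.trans ?_
    rw [natDegree_pow]
    have h3 : S.natDegree < N * M := by
      rw [natDegree_lt_iff_degree_lt hS0]; exact hSd
    have h4 : N * L = N * w.natDegree + N * M := by rw [hL, Nat.mul_add]
    omega
  · intro t ht
    rw [map_mul, map_pow]
    refine (hS t ht).trans (le_of_eq ?_)
    push_cast
    ring

/-- The trapezoid rule for the integer transfinite diameter of `[0, 1]`. -/
theorem trap_tau {J : ℕ} {e : ℕ → ℕ} {B : ℕ → ℝ[X]} {C : ℕ → ℝ} (w : ℤ[X]) (hw : w ≠ 0)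
    (h : Levels (Set.Icc 0 (1 / 4)) (fun t => aeval t w) J e B C) (he : 0 < e J)
    {κ : ℝ} (hκ : 0 < κ)
    (hT : ∏ s ∈ range J, (C s * C (s + 1)) ^ (e (s + 1) - e s) ≤
      κ ^ (2 * e J * (w.natDegree + e J))) :
    ∃ τ : ℝ, Tendsto (fun n : ℕ => chebMin 0 1 n ^ ((1 : ℝ) / n)) atTop (𝓝 τ) ∧ τ ^ 2 ≤ κ := by
  obtain ⟨τ, hτ0, hτ, hb⟩ := chebMin_bounds (a := 0) (b := 1) one_pos (by norm_num)
  refine ⟨τ, hτ, ?_⟩
  obtain ⟨K, hK⟩ := trap (E := Set.Icc 0 (1 / 4)) (fun t ht => by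
    rw [abs_of_nonneg ht.1]; linarith [ht.2]) w hw h he hκ hT
  set L := w.natDegree + e J with hL
  have hL0 : 0 < L := by omega
  have hmain : ∀ N : ℕ, 1 ≤ N → (τ ^ 2) ^ (N * L) ≤ N * K * κ ^ (N * L) := by
    intro N hN
    obtain ⟨R, hR0, hRd, hR⟩ := hK N hN
    have h1 := (hb (2 * (N * L)) (by have := Nat.mul_pos hN hL0; omega)).1
    rw [← pow_mul]
    refine h1.trans ?_
    have hcomp : R.comp (X - X ^ 2) ≠ 0 := by
      intro h0
      have h2 : (X - X ^ 2 : ℤ[X]).natDegree = 2 := by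
        have : (X - X ^ 2 : ℤ[X]) = -(X ^ 2 - X) := by ring
        rw [this, natDegree_neg]
        compute_degree!
      rcases Polynomial.comp_eq_zero_iff.1 h0 with h3 | h3
      · exact hR0 h3
      · rw [h3.2, natDegree_C] at h2
        omega
    refine (chebMin_le one_pos hcomp ?_).trans (supNorm_le one_pos _ fun x hx => ?_)
    · refine natDegree_comp_le.trans ?_
      have h2 : (X - X ^ 2 : ℤ[X]).natDegree ≤ 2 := by compute_degree!
      calc R.natDegree * (X - X ^ 2 : ℤ[X]).natDegree ≤ (N * L) * 2 := Nat.mul_le_mul hRd h2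
        _ = 2 * (N * L) := by ring
    · rw [aeval_comp]
      refine hR _ ?_
      simp only [map_sub, map_pow, aeval_X]
      constructor
      · nlinarith [hx.1, hx.2]
      · nlinarith [sq_nonneg (x - 1 / 2)]
  by_contra hcon
  push Not at hcon
  set y : ℝ := (τ ^ 2 / κ) ^ L with hy
  have hy1 : 1 < y := one_lt_pow₀ ((one_lt_div hκ).2 hcon) hL0.ne'
  have h2 : ∀ N : ℕ, 1 ≤ N → y ^ N ≤ N * K := by
    intro N hN
    have h3 := hmain N hN
    rw [hy, ← pow_mul, div_pow, div_le_iff₀ (by positivity), Nat.mul_comm L]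
    exact h3
  have h3 : Tendsto (fun N : ℕ => ((N : ℝ) ^ 1 / y ^ N) * K) atTop (𝓝 (0 * K)) :=
    (tendsto_pow_const_div_const_pow_of_one_lt 1 hy1).mul_const K
  rw [zero_mul] at h3
  have h4 := (h3.eventually (gt_mem_nhds (zero_lt_one))).and (eventually_ge_atTop 1)
  obtain ⟨N, h5, h6⟩ := h4.exists
  have h7 := h2 N h6
  have h8 : (0 : ℝ) < y ^ N := by positivity
  rw [pow_one, div_mul_eq_mul_div, div_lt_one h8] at h5
  linarith

end IntCheb
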