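import Pool.Agent.Lib.MP_6205a3_nt.B66.UpLevel
import Pool.Agent.Lib.MP_6205a3_nt.B66.UpTrap

/-!
# MP_6205a3_nt : assembling the upper bound
-/

open Finset Polynomial Filter Topology

set_option autoImplicit false

namespace IntCheb

namespace Up

open Cert

lemma wp_ne_zero {g0 g1 : ℕ} {fs : List Fac} (h : ∀ f ∈ fs, 0 < lst f.l) : wp g0 g1 fs ≠ 0 := by
  unfold wp
  refine mul_ne_zero (mul_ne_zero (pow_ne_zero _ X_ne_zero) (pow_ne_zero _ ?_)) ?_
  · intro h0
    have := congrArg (eval 0) h0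
    simp at this
  · apply List.prod_ne_zero
    intro h0
    obtain ⟨f, hf, hf'⟩ := List.mem_map.1 h0
    exact pow_ne_zero _ (pl_ne_zero (h f hf)) hf'

/-- **The upper bound from the certified levels.** -/
theorem up_assemble {D g0 g1 p q R J : ℕ} {fs : List Fac} (Y : ℕ → List ℕ) (Cn a : ℕ → ℕ)
    (hD : 0 < D) (hp : 0 < p) (hpq : p < q) (hR : 0 < R) (hfs : ∀ f ∈ fs, 0 < lst f.l)
    (h0 : (Y 0).length = 0) (hmono : ∀ s < J, (Y s).length ≤ (Y (s + 1)).length)
    (hJ : 0 < (Y J).length) (hC : ∀ s ≤ J, 0 < Cn s)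
    (hb : ∀ s ≤ J, ∀ t ∈ Set.Icc (0 : ℝ) (1 / 4),
      |(Bp D (Y s)).eval t * aeval t (wp g0 g1 fs)| ≤
        Cn s / (D : ℝ) ^ (g0 + g1 + dgF fs + (Y s).length))
    (ha : ∀ s ≤ J, AOK D R p q (g0 + g1 + dgF fs) (Cn s) (a s) (Y s).length)
    (hT : 2 * R * (Y J).length * (g0 + g1 + dgF fs + (Y J).length) ≤
      ∑ s ∈ range J, ((Y (s + 1)).length - (Y s).length) * (a s + a (s + 1))) :
    ∃ τ : ℝ, Tendsto (fun n : ℕ => chebMin 0 1 n ^ ((1 : ℝ) / n)) atTop (𝓝 τ) ∧
      τ ^ 2 ≤ (p : ℝ) / q := by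
  have hD' : (0 : ℝ) < D := by exact_mod_cast hD
  have hp' : (0 : ℝ) < p := by exact_mod_cast hp
  have hq' : (0 : ℝ) < q := by exact_mod_cast hp.trans hpq
  have hκ0 : (0 : ℝ) < (p : ℝ) / q := by positivity
  have hκ1 : (p : ℝ) / q ≤ 1 := by
    rw [div_le_one hq']; exact_mod_cast hpq.le
  set C : ℕ → ℝ := fun s => Cn s / (D : ℝ) ^ (g0 + g1 + dgF fs + (Y s).length) with hCdef
  have hCpos : ∀ s ≤ J, 0 < C s := by
    intro s hs
    have : (0 : ℝ) < Cn s := by exact_mod_cast hC s hs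
    simp only [hCdef]; positivity
  have hCa : ∀ s ≤ J, C s ^ R ≤ ((p : ℝ) / q) ^ a s := by
    intro s hs
    simp only [hCdef]
    rw [div_pow, div_pow, div_le_div_iff₀ (by positivity) (by positivity), ← pow_mul,
      Nat.mul_comm _ R]
    exact_mod_cast ha s hs
  refine trap_tau (J := J) (e := fun s => (Y s).length) (B := fun s => Bp D (Y s)) (C := C)
    (wp g0 g1 fs) (wp_ne_zero hfs) ⟨h0, hmono, fun s _ => Bp_monic D (Y s),
      fun s _ => Bp_natDegree D (Y s), hCpos, hb⟩ hJ hκ0 ?_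
  set e : ℕ → ℕ := fun s => (Y s).length with he
  set L := g0 + g1 + dgF fs with hL
  have hroot : (∏ s ∈ range J, (C s * C (s + 1)) ^ (e (s + 1) - e s)) ^ R ≤
      (((p : ℝ) / q) ^ (2 * e J * ((wp g0 g1 fs).natDegree + e J))) ^ R := by
    rw [← Finset.prod_pow]
    calc ∏ s ∈ range J, ((C s * C (s + 1)) ^ (e (s + 1) - e s)) ^ R
        ≤ ∏ s ∈ range J, ((p : ℝ) / q) ^ ((e (s + 1) - e s) * (a s + a (s + 1))) := by
          refine Finset.prod_le_prod (fun s hs => ?_) fun s hs => ?_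
          · have h1 := hCpos s (Finset.mem_range.1 hs).le
            have h2 := hCpos (s + 1) (Finset.mem_range.1 hs)
            positivity
          · have h1 := hCpos s (Finset.mem_range.1 hs).le
            have h2 := hCpos (s + 1) (Finset.mem_range.1 hs)
            have h3 := hCa s (Finset.mem_range.1 hs).le
            have h4 := hCa (s + 1) (Finset.mem_range.1 hs)
            calc ((C s * C (s + 1)) ^ (e (s + 1) - e s)) ^ R
                = (C s ^ R * C (s + 1) ^ R) ^ (e (s + 1) - e s) := by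
                  rw [← mul_pow, ← pow_mul, ← pow_mul, Nat.mul_comm]
              _ ≤ (((p : ℝ) / q) ^ a s * ((p : ℝ) / q) ^ a (s + 1)) ^ (e (s + 1) - e s) := by
                  gcongr
              _ = _ := by rw [← pow_add, ← pow_mul, Nat.mul_comm]
      _ = ((p : ℝ) / q) ^ (∑ s ∈ range J, (e (s + 1) - e s) * (a s + a (s + 1))) := by
          rw [Finset.prod_pow_eq_pow_sum]
      _ ≤ ((p : ℝ) / q) ^ (2 * e J * ((wp g0 g1 fs).natDegree + e J) * R) := by
          refine pow_le_pow_of_le_one hκ0.le hκ1 (le_trans ?_ hT)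
          have h1 : (wp g0 g1 fs).natDegree + e J ≤ L + e J :=
            Nat.add_le_add_right (wp_natDegree_le g0 g1 fs) _
          calc 2 * e J * ((wp g0 g1 fs).natDegree + e J) * R
              = (2 * R * e J) * ((wp g0 g1 fs).natDegree + e J) := by ring
            _ ≤ (2 * R * e J) * (L + e J) := Nat.mul_le_mul_left _ h1
      _ = _ := by rw [pow_mul]
  refine (pow_le_pow_iff_left₀ (Finset.prod_nonneg fun s hs => ?_) (by positivity) hR.ne').1 hroot
  have h1 := hCpos s (Finset.mem_range.1 hs).le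
  have h2 := hCpos (s + 1) (Finset.mem_range.1 hs)
  positivity

end Up

end IntCheb
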