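import Pool.Agent.Lib.MP_6205a3_nt.B66.UpL0
import Pool.Agent.Lib.MP_6205a3_nt.B66.UpL1
import Pool.Agent.Lib.MP_6205a3_nt.B66.UpL2
import Pool.Agent.Lib.MP_6205a3_nt.B66.UpL3
import Pool.Agent.Lib.MP_6205a3_nt.B66.UpL4
import Pool.Agent.Lib.MP_6205a3_nt.B66.UpL5
import Pool.Agent.Lib.MP_6205a3_nt.B66.UpL6
import Pool.Agent.Lib.MP_6205a3_nt.B66.UpL7
import Pool.Agent.Lib.MP_6205a3_nt.B66.UpL8
import Pool.Agent.Lib.MP_6205a3_nt.B66.UpL9
import Pool.Agent.Lib.MP_6205a3_nt.B66.UpL10
import Pool.Agent.Lib.MP_6205a3_nt.B66.UpL11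
import Pool.Agent.Lib.MP_6205a3_nt.B66.UpL12
import Pool.Agent.Lib.MP_6205a3_nt.B66.UpL13
import Pool.Agent.Lib.MP_6205a3_nt.B66.UpL14
import Pool.Agent.Lib.MP_6205a3_nt.B66.UpL15
import Pool.Agent.Lib.MP_6205a3_nt.B66.UpL16
import Pool.Agent.Lib.MP_6205a3_nt.B66.UpMain

/-!
# MP_6205a3_nt : the upper bound
-/

open Finset Polynomial Filter Topology

set_option autoImplicit false
set_option maxRecDepth 100000

namespace IntCheb

namespace Up

open Cert

/-- Zeros of the levels. -/
def upY (s : ℕ) : List ℕ := [
  upY0, upY1, upY2, upY3, upY4, upY5, upY6, upY7, upY8, upY9, upY10, upY11, upY12, upY13, upY14,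
  upY15, upY16].getD s []

/-- Numerators of the bounds. -/
def upC (s : ℕ) : ℕ := [
  upC0, upC1, upC2, upC3, upC4, upC5, upC6, upC7, upC8, upC9, upC10, upC11, upC12, upC13, upC14,
  upC15, upC16].getD s 0

/-- Exponents of the bounds. -/
def upa (s : ℕ) : ℕ := [
  256471, 258051, 259865, 262128, 264361, 266998, 270365, 273660, 277788, 282287, 287512, 293367,
  299881, 306889, 314577, 322890, 332493].getD s 0

lemma upLen0 : (upY 0).length = 0 := by decide +kernel

lemma upMono : ∀ s < 16, (upY s).length ≤ (upY (s + 1)).length := by decide +kernel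

lemma upPos : ∀ s ≤ 16, 0 < upC s := by decide +kernel

lemma upLenJ : 0 < (upY 16).length := by decide +kernel

lemma upSum : 2 * 32 * (upY 16).length * (upG0 + upG1 + dgF upF + (upY 16).length) ≤
    ∑ s ∈ range 16, ((upY (s + 1)).length - (upY s).length) * (upa s + upa (s + 1)) := by
  decide +kernel

lemma upD_pos : 0 < upD := by decide +kernel

attribute [local irreducible] upD upG0 upG1 upF
attribute [local irreducible] upY0 upC0
attribute [local irreducible] upY1 upC1
attribute [local irreducible] upY2 upC2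
attribute [local irreducible] upY3 upC3
attribute [local irreducible] upY4 upC4
attribute [local irreducible] upY5 upC5
attribute [local irreducible] upY6 upC6
attribute [local irreducible] upY7 upC7
attribute [local irreducible] upY8 upC8
attribute [local irreducible] upY9 upC9
attribute [local irreducible] upY10 upC10
attribute [local irreducible] upY11 upC11
attribute [local irreducible] upY12 upC12
attribute [local irreducible] upY13 upC13
attribute [local irreducible] upY14 upC14
attribute [local irreducible] upY15 upC15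
attribute [local irreducible] upY16 upC16

lemma upBall : ∀ s ≤ 16, ∀ t ∈ Set.Icc (0 : ℝ) (1 / 4), |(Bp upD (upY s)).eval t *
    aeval t (wp upG0 upG1 upF)| ≤
      upC s / (upD : ℝ) ^ (upG0 + upG1 + dgF upF + (upY s).length) := by
  intro s hs
  interval_cases s
  · exact upB0
  · exact upB1
  · exact upB2
  · exact upB3
  · exact upB4
  · exact upB5
  · exact upB6
  · exact upB7
  · exact upB8
  · exact upB9
  · exact upB10
  · exact upB11
  · exact upB12
  · exact upB13
  · exact upB14
  · exact upB15
  · exact upB16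

lemma upAall : ∀ s ≤ 16, AOK upD 32 17850625 100000000 (upG0 + upG1 + dgF upF) (upC s) (upa s)
    (upY s).length := by
  intro s hs
  interval_cases s
  · exact upA0
  · exact upA1
  · exact upA2
  · exact upA3
  · exact upA4
  · exact upA5
  · exact upA6
  · exact upA7
  · exact upA8
  · exact upA9
  · exact upA10
  · exact upA11
  · exact upA12
  · exact upA13
  · exact upA14
  · exact upA15
  · exact upA16

theorem upper : ∃ τ : ℝ, Tendsto (fun n : ℕ => chebMin 0 1 n ^ ((1 : ℝ) / n)) atTop (𝓝 τ) ∧
    τ ^ 2 ≤ ((17850625 : ℕ) : ℝ) / ((100000000 : ℕ) : ℝ) :=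
  up_assemble (D := upD) (g0 := upG0) (g1 := upG1) (R := 32) (J := 16) (fs := upF) upY upC upa
    upD_pos (by norm_num) (by norm_num) (by norm_num) upF_lst upLen0 upMono upLenJ upPos upBall
    upAall upSum

end Up

end IntCheb
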