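import Pool.Agent.Lib.MP_6205a3_nt.B66.UpData
import Pool.Agent.Lib.MP_6205a3_nt.B66.UpL4

/-!
# MP_6205a3_nt : level 0 of the upper bound certificate
-/

open Finset Polynomial

set_option autoImplicit false
set_option maxRecDepth 100000

namespace IntCheb

namespace Up

open Cert

/-- Zeros (times `upD`). -/
def upY0 : List ℕ := []

/-- Numerator of the bound. -/
def upC0 : ℕ := Nat.mul (nat_lit 1836543500233366360) (Nat.pow (nat_lit 2) (nat_lit 197216))

/-- Test points. -/
def upS0_0 : List (ℕ × ℕ × ℕ × ℕ) := [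
  (nat_lit 11541787, nat_lit 11541787, nat_lit 2, nat_lit 0),
  (nat_lit 11707345, nat_lit 768787, nat_lit 3, nat_lit 0),
  (nat_lit 12476132, nat_lit 899253, nat_lit 2, nat_lit 0),
  (nat_lit 13375385, nat_lit 906803, nat_lit 3, nat_lit 0),
  (nat_lit 14282188, nat_lit 1651341, nat_lit 2, nat_lit 0),
  (nat_lit 15933529, nat_lit 1651341, nat_lit 3, nat_lit 0),
  (nat_lit 16033014, nat_lit 518364, nat_lit 2, nat_lit 0),
  (nat_lit 16551378, nat_lit 518364, nat_lit 3, nat_lit 0),
  (nat_lit 16838353, nat_lit 705444, nat_lit 2, nat_lit 0),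
  (nat_lit 17543797, nat_lit 705444, nat_lit 3, nat_lit 0),
  (nat_lit 18187409, nat_lit 643612, nat_lit 2, nat_lit 0),
  (nat_lit 18357465, nat_lit 3022444, nat_lit 3, nat_lit 0),
  (nat_lit 21379909, nat_lit 3022444, nat_lit 2, nat_lit 0),
  (nat_lit 21770167, nat_lit 455397, nat_lit 3, nat_lit 0),
  (nat_lit 22225564, nat_lit 455397, nat_lit 2, nat_lit 0),
  (nat_lit 22323852, nat_lit 1043157, nat_lit 3, nat_lit 0),
  (nat_lit 23367009, nat_lit 1043157, nat_lit 2, nat_lit 0),
  (nat_lit 23723710, nat_lit 356701, nat_lit 3, nat_lit 0),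
  (nat_lit 23918658, nat_lit 194948, nat_lit 2, nat_lit 0),
  (nat_lit 24079049, nat_lit 160391, nat_lit 3, nat_lit 0),
  (nat_lit 24217186, nat_lit 782814, nat_lit 4, nat_lit 0)]

lemma upL0_0 : allB (loc upD upK upT (nat_lit 16) upC0 upG0 upG1 upF upY0)
    upS0_0 = true := by
  decide +kernel

/-- All the test points. -/
def upS0 : List (ℕ × ℕ × ℕ × ℕ) :=
  upS0_0

lemma upLoc0 : ∀ e ∈ upS0, loc upD upK upT (nat_lit 16) upC0 upG0 upG1 upF upY0 e = true := by
  unfold upS0
  exact allB_spec upL0_0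

theorem upB0 : ∀ t ∈ Set.Icc (0 : ℝ) (1 / 4), |(Bp upD upY0).eval t *
    aeval t (wp upG0 upG1 upF)| ≤ upC0 / (upD : ℝ) ^ (upG0 + upG1 + dgF upF + upY0.length) :=
  level_bound (K := upK) (T := upT) (cnt := nat_lit 16) (cs := upS0) (by decide +kernel)
    (by decide +kernel) upF_ok (by decide +kernel) (by decide +kernel) (by decide +kernel)
    (by decide +kernel) (by decide +kernel) (by decide +kernel) upLoc0

theorem upA0 : AOK upD 32 17850625 100000000 (upG0 + upG1 + dgF upF) upC0 256471 upY0.length := by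
  decide +kernel

end Up

end IntCheb
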