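import Pool.Agent.Lib.MP_6205a3_nt.B66.UpCert

/-!
# MP_6205a3_nt : the sup norm of `B w` on `[0, 1/4]` from a finite certificate
-/

open Finset Polynomial

set_option autoImplicit false

namespace IntCheb

namespace Up

open Cert

/-- The comparison of the bound `Cn / D ^ (L + e)` with a power of `p / q`. -/
def AOK (D R p q L Cn a e : ℕ) : Prop := Cn ^ R * q ^ a ≤ p ^ a * D ^ (R * (L + e))

instance (D R p q L Cn a e : ℕ) : Decidable (AOK D R p q L Cn a e) :=
  inferInstanceAs (Decidable (Cn ^ R * q ^ a ≤ p ^ a * D ^ (R * (L + e))))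

/-- Unscaled product. -/
noncomputable def phi (ys : List ℕ) (C : ℕ) : ℝ := (ys.map fun y : ℕ => ((C : ℝ) - y)).prod

lemma phi_cons (y : ℕ) (ys : List ℕ) (C : ℕ) : phi (y :: ys) C = ((C : ℝ) - y) * phi ys C := by
  simp [phi]

lemma phi_pos_of_lt {ys : List ℕ} {C C' : ℕ} (h : ∀ y ∈ ys, C < y) (h' : ∀ y ∈ ys, C' < y) :
    0 < phi ys C * phi ys C' := by
  induction ys with
  | nil => simp [phi]
  | cons y ys ih =>
    rw [phi_cons, phi_cons]
    have h1 : (C : ℝ) - y < 0 := sub_neg.2 (by exact_mod_cast h y (by simp))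
    have h2 : (C' : ℝ) - y < 0 := sub_neg.2 (by exact_mod_cast h' y (by simp))
    have h3 := ih (fun y' hy' => h y' (by simp [hy'])) (fun y' hy' => h' y' (by simp [hy']))
    have h4 := mul_pos (mul_pos_of_neg_of_neg h1 h2) h3
    linarith

/-- Default element. -/
def z4 : ℕ × ℕ × ℕ × ℕ := (0, 0, 0, 0)

lemma chn_cons {e e' : ℕ × ℕ × ℕ × ℕ} {cs : List (ℕ × ℕ × ℕ × ℕ)} {ys : List ℕ}
    (h : chn (e :: e' :: cs) ys = true) : e.1 < e'.1 ∧ e'.1 - e.1 ≤ e.2.1 ∧
      e'.1 - e.1 ≤ e'.2.1 ∧ (e.2.2.1 + e'.2.2.1 + e.2.2.2) % 2 = 1 ∧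
      ((e.2.2.2 = 0 ∧ chn (e' :: cs) ys = true) ∨ (e.2.2.2 = 1 ∧ ∃ y ys', ys = y :: ys' ∧
        e.1 < y ∧ y < e'.1 ∧ chn (e' :: cs) ys' = true)) := by
  rcases ys with _ | ⟨y, ys⟩
  · rw [chn] at h
    simp only [Bool.and_eq_true, Nat.blt_eq, Nat.ble_eq, Nat.beq_eq] at h
    obtain ⟨⟨⟨⟨h1, h2⟩, h3⟩, h4⟩, h5⟩ := h
    refine ⟨h1, h2, h3, h4, Or.inl ?_⟩
    by_cases hb : e.2.2.2 = 0
    · refine ⟨hb, ?_⟩
      rw [hb] at h5
      exact h5
    · have hb' : Nat.beq e.2.2.2 0 = false := by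
        rw [← Bool.not_eq_true, Nat.beq_eq]; exact hb
      rw [hb'] at h5
      simp at h5
  · rw [chn] at h
    simp only [Bool.and_eq_true, Nat.blt_eq, Nat.ble_eq, Nat.beq_eq] at h
    obtain ⟨⟨⟨⟨h1, h2⟩, h3⟩, h4⟩, h5⟩ := h
    refine ⟨h1, h2, h3, h4, ?_⟩
    by_cases hb : e.2.2.2 = 0
    · refine Or.inl ⟨hb, ?_⟩
      rw [hb] at h5
      exact h5
    · have hb' : Nat.beq e.2.2.2 0 = false := by
        rw [← Bool.not_eq_true, Nat.beq_eq]; exact hb
      rw [hb', cond_false] at h5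
      simp only [Bool.and_eq_true, Nat.blt_eq, Nat.beq_eq] at h5
      obtain ⟨h6, ⟨h7, h8⟩, h9⟩ := h5
      exact Or.inr ⟨h6, y, ys, rfl, h7, h8, h9⟩

lemma chn_spec : ∀ (cs : List (ℕ × ℕ × ℕ × ℕ)) (ys : List ℕ), chn cs ys = true →
    cs ≠ [] ∧ (∀ y ∈ ys, (cs.getD 0 z4).1 < y) ∧
    (∀ i, i < cs.length → (cs.getD 0 z4).1 ≤ (cs.getD i z4).1) ∧
    ∀ i, i + 1 < cs.length → (cs.getD i z4).1 < (cs.getD (i + 1) z4).1 ∧
      (cs.getD (i + 1) z4).1 - (cs.getD i z4).1 ≤ (cs.getD i z4).2.1 ∧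
      (cs.getD (i + 1) z4).1 - (cs.getD i z4).1 ≤ (cs.getD (i + 1) z4).2.1 ∧
      ((cs.getD i z4).2.2.1 + (cs.getD (i + 1) z4).2.2.1 + (cs.getD i z4).2.2.2) % 2 = 1 ∧
      0 < (-1 : ℝ) ^ (cs.getD i z4).2.2.2 *
        (phi ys (cs.getD i z4).1 * phi ys (cs.getD (i + 1) z4).1)
  | [], ys => by
    intro h
    simp [chn] at h
  | [e], ys => by
    intro h
    rcases ys with _ | ⟨y, ys⟩
    · refine ⟨by simp, by simp, ?_, ?_⟩
      · intro i hi
        have : i = 0 := by simpa using hi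
        subst this
        exact le_rfl
      · intro i hi
        simp at hi
    · simp [chn] at h
  | e :: e' :: cs, ys => by
    intro h
    obtain ⟨h1, h2, h3, h4, hcase⟩ := chn_cons h
    obtain ⟨C, hh, p, b⟩ := e
    simp only at h1 h2 h3 h4 hcase
    rcases hcase with ⟨rfl, h5⟩ | ⟨rfl, y, ys, rfl, h7, h8, h9⟩
    · obtain ⟨-, i2, i3, i4⟩ := chn_spec (e' :: cs) ys h5
      rw [List.getD_cons_zero] at i2 i3
      have hlt : ∀ y ∈ ys, C < y := fun y hy => h1.trans (i2 y hy)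
      refine ⟨by simp, hlt, ?_, ?_⟩
      · intro i hi
        cases i with
        | zero => exact le_rfl
        | succ i =>
          rw [List.getD_cons_zero, List.getD_cons_succ]
          exact h1.le.trans (i3 i (by simpa using hi))
      · intro i hi
        cases i with
        | zero =>
          simp only [List.getD_cons_zero, List.getD_cons_succ, zero_add, pow_zero, one_mul]
          exact ⟨h1, h2, h3, h4, phi_pos_of_lt hlt i2⟩
        | succ i =>
          rw [List.getD_cons_succ, List.getD_cons_succ]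
          exact i4 i (by simpa using hi)
    · obtain ⟨-, i2, i3, i4⟩ := chn_spec (e' :: cs) ys h9
      rw [List.getD_cons_zero] at i2 i3
      have hlt : ∀ y' ∈ ys, C < y' := fun y hy => h1.trans (i2 y hy)
      refine ⟨by simp, ?_, ?_, ?_⟩
      · intro y' hy'
        rw [List.getD_cons_zero]
        rcases List.mem_cons.1 hy' with rfl | hy'
        · exact h7
        · exact hlt y' hy'
      · intro i hi
        cases i with
        | zero => exact le_rfl
        | succ i =>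
          rw [List.getD_cons_zero, List.getD_cons_succ]
          exact h1.le.trans (i3 i (by simpa using hi))
      · intro i hi
        cases i with
        | zero =>
          simp only [List.getD_cons_zero, List.getD_cons_succ, zero_add, pow_one]
          refine ⟨h1, h2, h3, h4, ?_⟩
          rw [phi_cons, phi_cons]
          have e1 : (C : ℝ) - y < 0 := sub_neg.2 (by exact_mod_cast h7)
          have e2 : (0 : ℝ) < (e'.1 : ℝ) - y := sub_pos.2 (by exact_mod_cast h8)
          have e3 := phi_pos_of_lt hlt i2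
          have e4 := mul_pos (mul_pos (neg_pos.2 e1) e2) e3
          linarith
        | succ i =>
          have i5 := i4 i (by simpa using hi)
          rw [List.getD_cons_succ, List.getD_cons_succ]
          refine ⟨i5.1, i5.2.1, i5.2.2.1, i5.2.2.2.1, ?_⟩
          rw [phi_cons, phi_cons]
          have j1 := i3 i (by simp only [List.length_cons] at hi ⊢; omega)
          have j2 := i3 (i + 1) (by simpa using hi)
          have e1 : (0 : ℝ) < (((e' :: cs).getD i z4).1 : ℝ) - y :=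
            sub_pos.2 (by exact_mod_cast h8.trans_le j1)
          have e2 : (0 : ℝ) < (((e' :: cs).getD (i + 1) z4).1 : ℝ) - y :=
            sub_pos.2 (by exact_mod_cast h8.trans_le j2)
          have e4 := mul_pos (mul_pos e1 e2) i5.2.2.2.2
          refine lt_of_lt_of_eq e4 ?_
          ring

/-- The monic polynomial with zeros `y / D`. -/
noncomputable def Bp (D : ℕ) (ys : List ℕ) : ℝ[X] :=
  (ys.map fun y : ℕ => (X - C ((y : ℝ) / D))).prod

lemma Bp_cons (D y : ℕ) (ys : List ℕ) : Bp D (y :: ys) = (X - C ((y : ℝ) / D)) * Bp D ys := by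
  simp [Bp]

lemma Bp_monic (D : ℕ) (ys : List ℕ) : (Bp D ys).Monic := by
  induction ys with
  | nil => simp [Bp]
  | cons y ys ih => rw [Bp_cons]; exact (monic_X_sub_C _).mul ih

lemma Bp_natDegree (D : ℕ) (ys : List ℕ) : (Bp D ys).natDegree = ys.length := by
  induction ys with
  | nil => simp [Bp]
  | cons y ys ih =>
    rw [Bp_cons, (monic_X_sub_C _).natDegree_mul (Bp_monic D ys), ih, natDegree_X_sub_C,
      List.length_cons, add_comm]

lemma Bp_eval (D : ℕ) (ys : List ℕ) (t : ℝ) :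
    (Bp D ys).eval t = (ys.map fun y : ℕ => (t - (y : ℝ) / D)).prod := by
  induction ys with
  | nil => simp [Bp]
  | cons y ys ih => rw [Bp_cons, eval_mul, ih]; simp

/-- The integer polynomial of the certificate. -/
noncomputable def wp (g0 g1 : ℕ) (fs : List Fac) : ℤ[X] :=
  X ^ g0 * (1 - 4 * X) ^ g1 * (fs.map fun f => pl f.l ^ f.g).prod

lemma wp_aeval (g0 g1 : ℕ) (fs : List Fac) (t : ℝ) : aeval t (wp g0 g1 fs) =
    t ^ g0 * (1 - 4 * t) ^ g1 * (fs.map fun f => (aeval t (pl f.l)) ^ f.g).prod := by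
  have h : aeval t ((fs.map fun f => pl f.l ^ f.g).prod) =
      (fs.map fun f => (aeval t (pl f.l)) ^ f.g).prod := by
    induction fs with
    | nil => simp
    | cons f fs ih => rw [List.map_cons, List.prod_cons, map_mul, map_pow, ih]; simp
  unfold wp
  rw [map_mul, map_mul, map_pow, map_pow, h, map_sub, map_mul, map_one, aeval_X, map_ofNat]

lemma wp_natDegree_le (g0 g1 : ℕ) (fs : List Fac) :
    (wp g0 g1 fs).natDegree ≤ g0 + g1 + dgF fs := by
  have h : ((fs.map fun f => pl f.l ^ f.g).prod).natDegree ≤ dgF fs := by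
    induction fs with
    | nil => simp [dgF]
    | cons f fs ih =>
      rw [List.map_cons, List.prod_cons]
      refine natDegree_mul_le.trans ?_
      have h1 : dgF (f :: fs) = f.g * (f.l.length - 1) + dgF fs := by simp [dgF]
      rw [h1]
      refine Nat.add_le_add (natDegree_pow_le.trans ?_) ih
      exact Nat.mul_le_mul_left _ (natDegree_pl_le _)
  unfold wp
  refine natDegree_mul_le.trans (Nat.add_le_add (natDegree_mul_le.trans (Nat.add_le_add ?_ ?_)) h)
  · rw [natDegree_X_pow]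
  · refine natDegree_pow_le.trans ?_
    have h1 : (1 - 4 * X : ℤ[X]).natDegree ≤ 1 := by compute_degree
    calc g1 * (1 - 4 * X : ℤ[X]).natDegree ≤ g1 * 1 := Nat.mul_le_mul_left _ h1
      _ = g1 := mul_one _

/-- Sum of the degrees of the factors. -/
def dgS (fs : List Fac) : ℕ := (fs.map fun f => f.l.length - 1).sum

/-- Product of the factors. -/
noncomputable def qs (fs : List Fac) : ℤ[X] := (fs.map fun f => pl f.l).prod

lemma qs_natDegree_le (fs : List Fac) : (qs fs).natDegree ≤ dgS fs := by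
  induction fs with
  | nil => simp [dgS, qs]
  | cons f fs ih =>
    have h1 : dgS (f :: fs) = (f.l.length - 1) + dgS fs := by simp [dgS]
    have h2 : qs (f :: fs) = pl f.l * qs fs := by simp [qs]
    rw [h1, h2]
    exact natDegree_mul_le.trans (Nat.add_le_add (natDegree_pl_le _) ih)

lemma qs_aeval (fs : List Fac) (t : ℝ) :
    aeval t (qs fs) = (fs.map fun f => aeval t (pl f.l)).prod := by
  induction fs with
  | nil => simp [qs]
  | cons f fs ih =>
    have h2 : qs (f :: fs) = pl f.l * qs fs := by simp [qs]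
    rw [h2, map_mul, ih]; simp

lemma cond_false_iff {a b : Bool} : cond a b false = true ↔ a = true ∧ b = true := by
  cases a <;> simp

lemma loc_spec {D K T cnt Cn g0 g1 : ℕ} {fs : List Fac} {ys : List ℕ} {e : ℕ × ℕ × ℕ × ℕ}
    (h : loc D K T cnt Cn g0 g1 fs ys e = true) :
    1 ≤ e.1 ^ g0 * (D - 4 * e.1) ^ g1 * (qAbs e.1 fs * prodA e.1 ys) ∧
    e.1 ^ g0 * (D - 4 * e.1) ^ g1 * (qAbs e.1 fs * prodA e.1 ys) * 100 ^ (e.2.2.1 / 2) ≤
      99 ^ (e.2.2.1 / 2) * Cn ∧
    e.2.1 * 100 * (sumS T K e.1 ys + qL K e.1 fs + K * g0 / e.1 + cnt -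
      (T + qR K e.1 fs + 4 * K * g1 / (D - 4 * e.1))) ≤ K * (e.2.2.1 / 2) ∧
    e.2.1 * 100 * (T + qR K e.1 fs + 4 * K * g1 / (D - 4 * e.1) + cnt -
      (sumS T K e.1 ys + qL K e.1 fs + K * g0 / e.1)) ≤ K * (e.2.2.1 / 2) ∧
    qNeg e.1 fs % 2 = e.2.2.1 % 2 := by
  unfold loc at h
  rw [force_eq, force_eq] at h
  simp only [cond_false_iff, force_eq, Nat.ble_eq, Nat.beq_eq] at h
  obtain ⟨⟨h1, h2⟩, ⟨h3, h4⟩, h5⟩ := h
  exact ⟨h1, h2, h3, h4, h5⟩

set_option maxHeartbeats 2000000 in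
/-- **The sup norm of `B w` on `[0, 1/4]` from a finite certificate.** -/
theorem level_bound {D K T cnt Cn g0 g1 : ℕ} {fs : List Fac} {ys : List ℕ}
    {cs : List (ℕ × ℕ × ℕ × ℕ)} (hD : 0 < D) (hK : 0 < K) (hfs : ∀ f ∈ fs, facOK D f = true)
    (hT : ys.length * K ≤ T) (hcnt : ys.length + 2 * fs.length + 2 ≤ cnt)
    (hlen : cs.length = ys.length + dgS fs + 1) (hchn : chn cs ys = true)
    (h0 : 0 < (cs.getD 0 z4).1 ∧ (cs.getD 0 z4).1 ≤ (cs.getD 0 z4).2.1)
    (hl : 4 * (cs.getD (ys.length + dgS fs) z4).1 < D ∧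
      D ≤ 4 * ((cs.getD (ys.length + dgS fs) z4).1 + (cs.getD (ys.length + dgS fs) z4).2.1))
    (hloc : ∀ e ∈ cs, loc D K T cnt Cn g0 g1 fs ys e = true) :
    ∀ t ∈ Set.Icc (0 : ℝ) (1 / 4), |(Bp D ys).eval t * aeval t (wp g0 g1 fs)| ≤
      Cn / (D : ℝ) ^ (g0 + g1 + dgF fs + ys.length) := by
  have hD' : (0 : ℝ) < D := by exact_mod_cast hD
  have hK' : (0 : ℝ) < K := by exact_mod_cast hK
  set m := ys.length + dgS fs with hm
  obtain ⟨-, -, hfirst, hstep⟩ := chn_spec cs ys hchn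
  -- values of the test points
  have hmono : ∀ i j, i < j → j < cs.length → (cs.getD i z4).1 < (cs.getD j z4).1 := by
    intro i j hij
    induction j with
    | zero => exact absurd hij (Nat.not_lt_zero _)
    | succ j ih =>
      intro hj
      rcases Nat.lt_or_ge i j with h1 | h1
      · exact (ih h1 (by omega)).trans (hstep j hj).1
      · have : i = j := by omega
        rw [this]; exact (hstep j hj).1
  have hCpos : ∀ i, i < cs.length → 0 < (cs.getD i z4).1 := fun i hi =>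
    h0.1.trans_le (hfirst i hi)
  have hClt : ∀ i, i < cs.length → 4 * (cs.getD i z4).1 < D := by
    intro i hi
    rcases Nat.lt_or_ge i m with h1 | h1
    · have := hmono i m h1 (by omega)
      have := hl.1
      omega
    · have : i = m := by omega
      rw [this]; exact hl.1
  set x : Fin (m + 1) → ℝ := fun i => ((cs.getD i z4).1 : ℝ) / D with hx
  have hxmono : StrictMono x := by
    intro i j hij
    have h1 : (cs.getD i z4).1 < (cs.getD j z4).1 := hmono i j hij (by have := j.2; omega)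
    have h2 : ((cs.getD i z4).1 : ℝ) < (cs.getD j z4).1 := by exact_mod_cast h1
    exact div_lt_div_of_pos_right h2 hD'
  have hmem : ∀ i, i < cs.length → cs.getD i z4 ∈ cs := by
    intro i hi
    rw [List.getD_eq_getElem _ _ hi]
    exact List.getElem_mem _
  -- nonvanishing
  have hne : ∀ i, i < cs.length → (prodA (cs.getD i z4).1 ys ≠ 0 ∧ qAbs (cs.getD i z4).1 fs ≠ 0) := by
    intro i hi
    have h1 := (loc_spec (hloc _ (hmem i hi))).1
    constructor
    · intro h2; rw [h2] at h1; simp at h1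
    · intro h2; rw [h2] at h1; simp at h1
  have hneq : ∀ i, i < cs.length → ∀ f ∈ fs,
      aeval (((cs.getD i z4).1 : ℝ) / D) (pl f.l) ≠ 0 := by
    intro i hi f hf h2
    have h1 := (hne i hi).2
    have h3 := qAbs_eq hD hfs (cs.getD i z4).1
    rw [List.prod_eq_zero (List.mem_map.2 ⟨f, hf, by
      rw [h2, zero_pow (fac_spec hD (hfs f hf) 0).1.ne']⟩), abs_zero, mul_zero] at h3
    exact h1 (by exact_mod_cast h3)
  have hney : ∀ i, i < cs.length → ∀ y ∈ ys, y ≠ (cs.getD i z4).1 := by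
    intro i hi y hy h2
    have h1 := (hne i hi).1
    have h3 := prodA_eq hD (cs.getD i z4).1 ys
    rw [List.prod_eq_zero (List.mem_map.2 ⟨y, hy, by rw [h2, sub_self]⟩), abs_zero,
      mul_zero] at h3
    exact h1 (by exact_mod_cast h3)
  -- the square free polynomial
  set G : ℝ[X] := Bp D ys * (qs fs).map (algebraMap ℤ ℝ) with hG
  have hGe : ∀ t : ℝ, G.eval t = (ys.map fun y : ℕ => (t - (y : ℝ) / D)).prod *
      (fs.map fun f => aeval t (pl f.l)).prod := by
    intro t
    rw [hG, eval_mul, Bp_eval, eval_map_algebraMap, qs_aeval]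
  have hGd : G.natDegree ≤ m := by
    refine natDegree_mul_le.trans ?_
    rw [Bp_natDegree, hm]
    exact Nat.add_le_add_left (natDegree_map_le.trans (qs_natDegree_le fs)) _
  have hphi : ∀ C : ℕ, (ys.map fun y : ℕ => ((C : ℝ) / D - (y : ℝ) / D)).prod =
      phi ys C / (D : ℝ) ^ ys.length := by
    intro C
    rw [eq_div_iff (by positivity)]
    unfold phi
    clear * - hD'
    induction ys with
    | nil => simp
    | cons y ys ih =>
      rw [List.map_cons, List.prod_cons, List.map_cons, List.prod_cons, ← ih, List.length_cons,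
        pow_succ]
      field_simp
  have hsign : ∀ i : Fin m, G.eval (x i.castSucc) * G.eval (x i.succ) < 0 := by
    intro i
    have hi : (i : ℕ) + 1 < cs.length := by have := i.2; omega
    obtain ⟨-, -, -, s4, s5⟩ := hstep i hi
    have n1 := qNeg_spec hD hfs (hneq i (by omega))
    have n2 := qNeg_spec hD hfs (hneq (i + 1) hi)
    have p1 := (loc_spec (hloc _ (hmem i (by omega)))).2.2.2.2
    have p2 := (loc_spec (hloc _ (hmem (i + 1) hi))).2.2.2.2
    rw [hGe, hGe]
    simp only [hx, Fin.val_castSucc, Fin.val_succ]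
    rw [hphi, hphi]
    set a1 := (fs.map fun f => aeval (((cs.getD i z4).1 : ℝ) / D) (pl f.l)).prod with ha1
    set a2 := (fs.map fun f => aeval (((cs.getD (i + 1) z4).1 : ℝ) / D) (pl f.l)).prod with ha2
    set k1 := qNeg (cs.getD i z4).1 fs
    set k2 := qNeg (cs.getD (i + 1) z4).1 fs
    set b := (cs.getD i z4).2.2.2
    have hpow : (-1 : ℝ) ^ (k1 + k2 + b) = -1 := by
      apply Odd.neg_one_pow
      rw [Nat.odd_iff]
      omega
    have h1 := mul_pos (mul_pos n1 n2) s5
    have h2 : ((-1 : ℝ) ^ k1 * a1 * ((-1) ^ k2 * a2)) * ((-1) ^ b *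
        (phi ys (cs.getD i z4).1 * phi ys (cs.getD (i + 1) z4).1)) =
        (-1) ^ (k1 + k2 + b) * ((phi ys (cs.getD i z4).1 * a1) *
          (phi ys (cs.getD (i + 1) z4).1 * a2)) := by
      rw [pow_add, pow_add]; ring
    rw [h2, hpow] at h1
    have h3 : phi ys (cs.getD i z4).1 / (D : ℝ) ^ ys.length * a1 *
        (phi ys (cs.getD (i + 1) z4).1 / (D : ℝ) ^ ys.length * a2) =
        ((phi ys (cs.getD i z4).1 * a1) * (phi ys (cs.getD (i + 1) z4).1 * a2)) /
          ((D : ℝ) ^ ys.length) ^ 2 := by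
      field_simp
    rw [h3]
    apply div_neg_of_neg_of_pos (by linarith) (by positivity)
  obtain ⟨y, hy, hGy⟩ := exists_roots_of_alternating G hGd x hxmono hsign
  have hG0 : G ≠ 0 := by
    rintro h0
    have h1 := hsign
    have hC : G.coeff m = 0 := by rw [h0, coeff_zero]
    have h2 : 0 < m ∨ m = 0 := by omega
    rcases h2 with h2 | h2
    · have := hsign ⟨0, h2⟩
      rw [h0] at this
      simp at this
    · -- m = 0
      have h3 : ys = [] := List.length_eq_zero_iff.1 (by omega)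
      have h4 := hneq 0 (by omega)
      have h5 : G.eval (x 0) = 0 := by rw [h0, eval_zero]
      rw [hGe, h3] at h5
      simp only [List.map_nil, List.prod_nil, one_mul] at h5
      rw [List.prod_eq_zero_iff] at h5
      obtain ⟨f, hf, hf'⟩ := List.mem_map.1 h5
      exact h4 f hf hf'
  have hroot : ∀ ζ, G.IsRoot ζ → ∃ i, ζ = y i := by
    intro ζ hζ
    rw [IsRoot.def, hGy, eval_mul, eval_C, eval_prod, mul_eq_zero] at hζ
    rcases hζ with h1 | h1
    · exfalso
      apply hG0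
      rw [hGy, h1, C_0, zero_mul]
    · obtain ⟨i, -, hi⟩ := Finset.prod_eq_zero_iff.1 h1
      exact ⟨i, by simpa [sub_eq_zero] using hi⟩
  have hGs : G.Splits := by
    rw [hGy]
    refine (Splits.C _).mul (Splits.prod fun i _ => ?_)
    exact Splits.X_sub_C _
  -- location of a point
  intro t ht
  obtain ⟨k, hk1, hk2⟩ := locate x hxmono y hy (a := 0) (b := 1 / 4)
    (fun i => ((cs.getD i z4).2.1 : ℝ) / D) (by
      simp only [hx, Fin.val_zero, sub_zero]
      have : ((cs.getD 0 z4).1 : ℝ) ≤ (cs.getD 0 z4).2.1 := by exact_mod_cast h0.2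
      gcongr) (by
      simp only [hx, Fin.val_last]
      have h1 : (D : ℝ) ≤ 4 * ((cs.getD m z4).1 + (cs.getD m z4).2.1) := by exact_mod_cast hl.2
      rw [sub_le_iff_le_add, ← add_div, div_le_div_iff₀ (by norm_num) hD']
      linarith) (by
      intro i
      have hi : (i : ℕ) + 1 < cs.length := by have := i.2; omega
      obtain ⟨s1, s2, s3, -, -⟩ := hstep i hi
      simp only [hx, Fin.val_castSucc, Fin.val_succ]
      rw [← sub_div]
      have e1 : (((cs.getD (i + 1) z4).1 : ℝ) - (cs.getD i z4).1) =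
          (((cs.getD (i + 1) z4).1 - (cs.getD i z4).1 : ℕ) : ℝ) := by
        rw [Nat.cast_sub s1.le]
      rw [e1]
      constructor
      · have : (((cs.getD (i + 1) z4).1 - (cs.getD i z4).1 : ℕ) : ℝ) ≤ (cs.getD i z4).2.1 := by
          exact_mod_cast s2
        gcongr
      · have : (((cs.getD (i + 1) z4).1 - (cs.getD i z4).1 : ℕ) : ℝ) ≤
            (cs.getD (i + 1) z4).2.1 := by exact_mod_cast s3
        gcongr) t ht
  have hkl : (k : ℕ) < cs.length := by have := k.2; omega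
  set e := cs.getD k z4 with he
  have hxk : x k = (e.1 : ℝ) / D := rfl
  have hloce := loc_spec (hloc e (hmem k hkl))
  obtain ⟨l1, l2, l3, l4, -⟩ := hloce
  have hCk : 0 < e.1 := hCpos k hkl
  have hCk' : (0 : ℝ) < e.1 := by exact_mod_cast hCk
  have hCk4 : 4 * e.1 < D := hClt k hkl
  have hCk4' : 4 * (e.1 : ℝ) < D := by exact_mod_cast hCk4
  have hc0 : 0 < x k := by rw [hxk]; positivity
  have hc4 : x k < 1 / 4 := by
    rw [hxk, div_lt_div_iff₀ hD' (by norm_num)]; linarith
  -- tangent bounds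
  have t0 : Tn (fun s => s ^ g0) (x k) t (g0 * (1 / x k)) := by
    have h1 : Tn (fun s => s - 0) (x k) t (1 / (x k - 0)) := Tn.lin hc0.ne' (by
      rw [sub_zero, sub_zero]; exact mul_nonneg ht.1 hc0.le)
    simpa using h1.pow g0
  have t1 : Tn (fun s => (1 - 4 * s) ^ g1) (x k) t (g1 * (-4 / (1 - 4 * x k))) := by
    have h1 : Tn (fun s => s - 1 / 4) (x k) t (1 / (x k - 1 / 4)) := Tn.lin hc4.ne
      (mul_nonneg_of_nonpos_of_nonpos (by linarith [ht.2]) (by linarith))
    have h2 : Tn (fun s => 1 - 4 * s) (x k) t (-4 / (1 - 4 * x k)) := by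
      unfold Tn at h1 ⊢
      simp only at h1 ⊢
      have e1 : ∀ s : ℝ, |1 - 4 * s| = 4 * |s - 1 / 4| := by
        intro s
        have : 1 - 4 * s = (-4) * (s - 1 / 4) := by ring
        rw [this, abs_mul]; norm_num
      have e2 : -4 / (1 - 4 * x k) = 1 / (x k - 1 / 4) := by
        have h3 : (1 : ℝ) - 4 * x k ≠ 0 := by linarith
        have h4 : x k - 1 / 4 ≠ 0 := by linarith
        rw [div_eq_div_iff h3 h4]; ring
      rw [e1, e1, e2, mul_assoc]
      linarith
    exact h2.pow g1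
  have tf : ∀ f ∈ fs, Tn (fun s => (aeval s (pl f.l)) ^ f.g) (x k) t
      (f.g * (aeval (x k) (derivative (pl f.l)) / aeval (x k) (pl f.l))) := by
    intro f hf
    have hdvd : (pl f.l).map (algebraMap ℤ ℝ) ∣ G := by
      rw [hG]
      refine Dvd.dvd.mul_left (Polynomial.map_dvd _ ?_) _
      unfold qs
      exact List.dvd_prod (List.mem_map.2 ⟨f, hf, rfl⟩)
    have h1 : Tn (fun s => ((pl f.l).map (algebraMap ℤ ℝ)).eval s) (x k) t
        (((pl f.l).map (algebraMap ℤ ℝ)).derivative.eval (x k) /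
          ((pl f.l).map (algebraMap ℤ ℝ)).eval (x k)) := by
      refine Tn.poly _ (hGs.of_dvd hG0 hdvd) ?_ ?_
      · rw [eval_map_algebraMap]
        exact hneq k hkl f hf
      · intro ζ hζ
        obtain ⟨i, rfl⟩ := hroot ζ (hζ.dvd hdvd)
        exact (hk2 i).2
    rw [derivative_map, eval_map_algebraMap, eval_map_algebraMap] at h1
    have h2 := h1.pow f.g
    simpa only [eval_map_algebraMap] using h2
  have ty : ∀ z ∈ ys, Tn (fun s => s - (z : ℝ) / D) (x k) t (1 / (x k - (z : ℝ) / D)) := by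
    intro z hz
    have hzr : G.IsRoot ((z : ℝ) / D) := by
      rw [IsRoot.def, hGe, List.prod_eq_zero (List.mem_map.2 ⟨z, hz, sub_self _⟩), zero_mul]
    obtain ⟨i, hi⟩ := hroot _ hzr
    have := hk2 i
    rw [← hi] at this
    exact Tn.lin this.1 this.2
  have tall := ((t0.mul t1).mul (Tn.list (fun (f : Fac) s => (aeval s (pl f.l)) ^ f.g) _ fs tf)).mul
    (Tn.list (fun (z : ℕ) s => s - (z : ℝ) / D) _ ys ty)
  set σ := g0 * (1 / x k) + g1 * (-4 / (1 - 4 * x k)) + (fs.map fun f => (f.g : ℝ) *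
    (aeval (x k) (derivative (pl f.l)) / aeval (x k) (pl f.l))).sum +
    (ys.map fun z : ℕ => 1 / (x k - (z : ℝ) / D)).sum with hσ
  unfold Tn at tall
  simp only at tall
  -- the slope
  set Ex := e.2.2.1 / 2 with hEx
  have hslope : |σ * (t - x k)| ≤ Ex / 100 := by
    have q1 := qLR_spec hD hfs (K := K) (hneq k hkl)
    obtain ⟨-, q2⟩ := sumS_spec (K := K) (C := e.1) hT (hney k hkl)
    have q3 := div_err (K * g0) e.1
    have q4 := div_err (4 * K * g1) (D - 4 * e.1)
    have e4 : ((D - 4 * e.1 : ℕ) : ℝ) = (D : ℝ) - 4 * e.1 := by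
      rw [Nat.cast_sub hCk4.le]; push_cast; ring
    rw [e4] at q4
    have e5 : (ys.map fun z : ℕ => 1 / (x k - (z : ℝ) / D)).sum =
        D * (ys.map fun z : ℕ => 1 / ((e.1 : ℝ) - z)).sum := by
      rw [← List.sum_map_mul_left]
      congr 1
      refine List.map_congr_left fun z hz => ?_
      have h1 : (e.1 : ℝ) - z ≠ 0 := sub_ne_zero.2 (by
        exact_mod_cast (hney k hkl z hz).symm)
      rw [hxk, ← sub_div]
      field_simp
    have hσ2 : (K : ℝ) / D * σ = K * g0 / e.1 - 4 * K * g1 / ((D : ℝ) - 4 * e.1) +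
        K / D * (fs.map fun f => (f.g : ℝ) * (aeval ((e.1 : ℝ) / D) (derivative (pl f.l)) /
          aeval ((e.1 : ℝ) / D) (pl f.l))).sum +
        K * (ys.map fun z : ℕ => 1 / ((e.1 : ℝ) - z)).sum := by
      rw [hσ, e5, hxk]
      have h1 : (D : ℝ) - 4 * e.1 ≠ 0 := by linarith
      have h2 : (1 : ℝ) - 4 * (e.1 / D) = (D - 4 * e.1) / D := by field_simp
      rw [h2]
      field_simp
      ring
    rw [abs_le] at q1 q2
    have hcnt' : (ys.length : ℝ) + 2 * fs.length + 2 ≤ cnt := by exact_mod_cast hcnt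
    push_cast at q3 q4
    have cast_tsub : ∀ a b : ℕ, (a : ℝ) - b ≤ ((a - b : ℕ) : ℝ) := by
      intro a b
      rcases le_total a b with h | h
      · rw [Nat.sub_eq_zero_of_le h, Nat.cast_zero]
        have : (a : ℝ) ≤ b := by exact_mod_cast h
        linarith
      · rw [Nat.cast_sub h]
    have hup : (K : ℝ) / D * σ * (e.2.1 * 100) ≤ K * Ex := by
      have h1 : ((e.2.1 * 100 * (sumS T K e.1 ys + qL K e.1 fs + K * g0 / e.1 + cnt -
        (T + qR K e.1 fs + 4 * K * g1 / (D - 4 * e.1))) : ℕ) : ℝ) ≤ K * Ex := by exact_mod_cast l3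
      rw [Nat.cast_mul] at h1
      have h2 := cast_tsub (sumS T K e.1 ys + qL K e.1 fs + K * g0 / e.1 + cnt)
        (T + qR K e.1 fs + 4 * K * g1 / (D - 4 * e.1))
      have h3 : (K : ℝ) / D * σ ≤ ((sumS T K e.1 ys + qL K e.1 fs + K * g0 / e.1 + cnt -
        (T + qR K e.1 fs + 4 * K * g1 / (D - 4 * e.1)) : ℕ) : ℝ) := by
        refine le_trans ?_ h2
        rw [hσ2]
        push_cast
        linarith [q1.1, q1.2, q2.1, q2.2, q3.1, q3.2, q4.1, q4.2]
      calc (K : ℝ) / D * σ * (e.2.1 * 100) ≤ ((sumS T K e.1 ys + qL K e.1 fs + K * g0 / e.1 +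
            cnt - (T + qR K e.1 fs + 4 * K * g1 / (D - 4 * e.1)) : ℕ) : ℝ) * (e.2.1 * 100) := by
              gcongr
        _ = ((e.2.1 * 100 : ℕ) : ℝ) * ((sumS T K e.1 ys + qL K e.1 fs + K * g0 / e.1 +
            cnt - (T + qR K e.1 fs + 4 * K * g1 / (D - 4 * e.1)) : ℕ) : ℝ) := by push_cast; ring
        _ ≤ K * Ex := h1
    have hdn : -((K : ℝ) / D * σ) * (e.2.1 * 100) ≤ K * Ex := by
      have h1 : ((e.2.1 * 100 * (T + qR K e.1 fs + 4 * K * g1 / (D - 4 * e.1) + cnt -
        (sumS T K e.1 ys + qL K e.1 fs + K * g0 / e.1)) : ℕ) : ℝ) ≤ K * Ex := by exact_mod_cast l4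
      rw [Nat.cast_mul] at h1
      have h2 := cast_tsub (T + qR K e.1 fs + 4 * K * g1 / (D - 4 * e.1) + cnt)
        (sumS T K e.1 ys + qL K e.1 fs + K * g0 / e.1)
      have h3 : -((K : ℝ) / D * σ) ≤ ((T + qR K e.1 fs + 4 * K * g1 / (D - 4 * e.1) + cnt -
        (sumS T K e.1 ys + qL K e.1 fs + K * g0 / e.1) : ℕ) : ℝ) := by
        refine le_trans ?_ h2
        rw [hσ2]
        push_cast
        linarith [q1.1, q1.2, q2.1, q2.2, q3.1, q3.2, q4.1, q4.2]
      calc -((K : ℝ) / D * σ) * (e.2.1 * 100) ≤ ((T + qR K e.1 fs + 4 * K * g1 / (D - 4 * e.1) +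
            cnt - (sumS T K e.1 ys + qL K e.1 fs + K * g0 / e.1) : ℕ) : ℝ) * (e.2.1 * 100) := by
              gcongr
        _ = ((e.2.1 * 100 : ℕ) : ℝ) * ((T + qR K e.1 fs + 4 * K * g1 / (D - 4 * e.1) +
            cnt - (sumS T K e.1 ys + qL K e.1 fs + K * g0 / e.1) : ℕ) : ℝ) := by push_cast; ring
        _ ≤ K * Ex := h1
    have h5 : |σ| * ((e.2.1 : ℝ) / D) ≤ Ex / 100 := by
      have h6 : (K : ℝ) * (σ * ((e.2.1 : ℝ) / D) * 100) ≤ K * Ex := by
        refine le_trans (le_of_eq ?_) hup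
        ring
      have h7 : (K : ℝ) * (-σ * ((e.2.1 : ℝ) / D) * 100) ≤ K * Ex := by
        refine le_trans (le_of_eq ?_) hdn
        ring
      have h8 := le_of_mul_le_mul_left h6 hK'
      have h9 := le_of_mul_le_mul_left h7 hK'
      rcases abs_choice σ with h10 | h10 <;> rw [h10] <;> linarith
    rw [abs_mul]
    calc |σ| * |t - x k| ≤ |σ| * ((e.2.1 : ℝ) / D) := by gcongr
      _ ≤ Ex / 100 := h5
  -- the value
  have hval : |(x k) ^ g0 * (1 - 4 * x k) ^ g1 * (fs.map fun f => (aeval (x k) (pl f.l)) ^ f.g).prod *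
      (ys.map fun z : ℕ => (x k - (z : ℝ) / D)).prod| * 100 ^ Ex ≤
      99 ^ Ex * (Cn / (D : ℝ) ^ (g0 + g1 + dgF fs + ys.length)) := by
    have h1 : ((e.1 ^ g0 * (D - 4 * e.1) ^ g1 * (qAbs e.1 fs * prodA e.1 ys) * 100 ^ Ex : ℕ) : ℝ) ≤
        99 ^ Ex * Cn := by exact_mod_cast l2
    have e4 : ((D - 4 * e.1 : ℕ) : ℝ) = D * (1 - 4 * x k) := by
      rw [Nat.cast_sub hCk4.le, hxk]; push_cast; field_simp
    have e5 : (e.1 : ℝ) = D * x k := by rw [hxk]; field_simp
    push_cast at h1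
    rw [qAbs_eq hD hfs, prodA_eq hD] at h1
    have e6 : ((D - 4 * e.1 : ℕ) : ℝ) = D * (1 - 4 * x k) := e4
    rw [← hxk, e4, e5] at h1
    have h3 : (0 : ℝ) < 1 - 4 * x k := by linarith
    have h4 : 99 ^ Ex * ((Cn : ℝ) / (D : ℝ) ^ (g0 + g1 + dgF fs + ys.length)) =
        99 ^ Ex * Cn / (D : ℝ) ^ (g0 + g1 + dgF fs + ys.length) := (mul_div_assoc _ _ _).symm
    rw [abs_mul, abs_mul, abs_mul, abs_pow, abs_pow, abs_of_pos hc0, abs_of_pos h3, h4,
      le_div_iff₀ (by positivity)]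
    refine le_trans (le_of_eq ?_) h1
    rw [mul_pow, mul_pow, pow_add, pow_add, pow_add]
    ring
  have hBw : (Bp D ys).eval t * aeval t (wp g0 g1 fs) = t ^ g0 * (1 - 4 * t) ^ g1 *
      (fs.map fun f => (aeval t (pl f.l)) ^ f.g).prod *
      (ys.map fun z : ℕ => (t - (z : ℝ) / D)).prod := by
    rw [Bp_eval, wp_aeval]; ring
  rw [hBw]
  refine tall.trans ?_
  set V := |(x k) ^ g0 * (1 - 4 * x k) ^ g1 * (fs.map fun f => (aeval (x k) (pl f.l)) ^ f.g).prod *
      (ys.map fun z : ℕ => (x k - (z : ℝ) / D)).prod| with hV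
  have hexp : Real.exp (σ * (t - x k)) ≤ (100 / 99) ^ Ex := by
    have h1 : σ * (t - x k) ≤ Ex * (1 / 100) := (le_abs_self _).trans (hslope.trans (by
      rw [mul_one_div]))
    calc Real.exp (σ * (t - x k)) ≤ Real.exp (Ex * (1 / 100)) := Real.exp_le_exp.2 h1
      _ = Real.exp (1 / 100) ^ Ex := Real.exp_nat_mul _ _
      _ ≤ (100 / 99) ^ Ex := by
          refine pow_le_pow_left₀ (Real.exp_pos _).le ?_ _
          have h2 := Real.add_one_le_exp (-(1 / 100 : ℝ))
          rw [Real.exp_neg] at h2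
          have h3 : 0 < Real.exp (1 / 100) := Real.exp_pos _
          rw [le_div_iff₀ (by norm_num)]
          have h4 := mul_le_mul_of_nonneg_left h2 h3.le
          rw [mul_inv_cancel₀ h3.ne'] at h4
          linarith
  calc V * Real.exp (σ * (t - x k)) ≤ V * (100 / 99) ^ Ex := by gcongr
    _ = V * 100 ^ Ex / 99 ^ Ex := by rw [div_pow, mul_div_assoc]
    _ ≤ _ := by
        rw [div_le_iff₀ (by positivity), mul_comm _ ((99 : ℝ) ^ Ex)]
        exact hval

end Up

end IntCheb
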