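import Pool.Agent.Lib.MP_6205a3_nt.Mink

/-!
# MP_6205a3_nt : Minkowski's theorem for a monic real basis
-/

open Finset Polynomial Matrix

set_option autoImplicit false

namespace IntCheb

/-- If `p j` (`j < M`) are monic real polynomials of degree `j` with `|p j * W| ≤ c j` on `E`, then
there is a nonzero integer polynomial `S` of degree less than `M` with `|S * W| ≤ M κ` on `E`, as
soon as `∏ c j < κ ^ M`. -/
theorem mink_basis {M : ℕ} (p : Fin M → ℝ[X]) (hp : ∀ j, (p j).Monic)
    (hd : ∀ j, (p j).natDegree = (j : ℕ)) (E : Set ℝ) (W : ℝ → ℝ) (c : Fin M → ℝ)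
    (hc : ∀ j, 0 < c j) (hb : ∀ j, ∀ t ∈ E, |(p j).eval t * W t| ≤ c j) {κ : ℝ} (hκ : 0 < κ)
    (h : ∏ j, c j < κ ^ M) :
    ∃ S : ℤ[X], S ≠ 0 ∧ S.degree < M ∧ ∀ t ∈ E, |aeval t S * W t| ≤ M * κ := by
  classical
  set P : Matrix (Fin M) (Fin M) ℝ := Matrix.of fun i j => (p j).coeff i with hP
  have hPtri : P.BlockTriangular id := by
    intro i j hij
    have hij' : (j : ℕ) < i := hij
    rw [hP, Matrix.of_apply]
    exact coeff_eq_zero_of_natDegree_lt (by rw [hd]; exact hij')
  have hPdet : P.det = 1 := by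
    rw [Matrix.det_of_isUpperTriangular hPtri]
    refine Finset.prod_eq_one fun i _ => ?_
    rw [hP, Matrix.of_apply]
    have := (hp i).coeff_natDegree
    rwa [hd] at this
  have hPu : IsUnit P.det := by rw [hPdet]; exact isUnit_one
  set A : Matrix (Fin M) (Fin M) ℝ := Matrix.diagonal c * P⁻¹ with hA
  have hAdet : A.det = ∏ j, c j := by
    rw [hA, Matrix.det_mul, Matrix.det_diagonal, Matrix.det_nonsing_inv, hPdet]
    simp
  have hprod : 0 < ∏ j, c j := Finset.prod_pos fun j _ => hc j
  obtain ⟨v, hv0, hv⟩ := minkowski_forms A (by rw [hAdet]; exact hprod.ne') hκ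
    (by rw [hAdet, abs_of_pos hprod, Fintype.card_fin]; exact h)
  set y : Fin M → ℝ := P⁻¹ *ᵥ (fun j => (v j : ℝ)) with hy
  have hAy : ∀ i, ∑ j, A i j * (v j : ℝ) = c i * y i := by
    intro i
    have h1 : ∑ j, A i j * (v j : ℝ) = (A *ᵥ (fun j => (v j : ℝ))) i := rfl
    rw [h1, hA, ← Matrix.mulVec_mulVec, Matrix.mulVec_diagonal]
  have hPy : ∀ i, ∑ j, P i j * y j = (v i : ℝ) := by
    intro i
    have h1 : ∑ j, P i j * y j = (P *ᵥ y) i := rfl
    rw [h1, hy, Matrix.mulVec_mulVec, Matrix.mul_nonsing_inv P hPu, Matrix.one_mulVec]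
  set S : ℤ[X] := ∑ i : Fin M, monomial (i : ℕ) (v i) with hS
  have hScoeff : ∀ i : Fin M, S.coeff i = v i := by
    intro i
    rw [hS, Polynomial.finsetSum_coeff, Finset.sum_eq_single i]
    · simp
    · intro j _ hji
      rw [coeff_monomial, if_neg]
      exact fun h => hji (Fin.ext h)
    · simp
  refine ⟨S, ?_, ?_, ?_⟩
  · rintro h0
    apply hv0
    funext i
    have := hScoeff i
    rw [h0, coeff_zero] at this
    simpa using this.symm
  · rw [Polynomial.degree_lt_iff_coeff_zero]
    intro m hm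
    rw [hS, Polynomial.finsetSum_coeff]
    refine Finset.sum_eq_zero fun i _ => ?_
    rw [coeff_monomial, if_neg]
    have := i.2
    omega
  · intro t ht
    have he : aeval t S = ∑ j, y j * (p j).eval t := by
      have h1 : ∀ j, (p j).eval t = ∑ i : Fin M, P i j * t ^ (i : ℕ) := by
        intro j
        rw [eval_eq_sum_range' (n := M) (by rw [hd]; exact j.2) t, ← Fin.sum_univ_eq_sum_range
          (fun i => (p j).coeff i * t ^ i) M]
        rfl
      rw [hS, map_sum]
      simp_rw [aeval_monomial, h1, Finset.mul_sum]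
      rw [Finset.sum_comm]
      refine Finset.sum_congr rfl fun i _ => ?_
      have h2 := hPy i
      rw [show (algebraMap ℤ ℝ) (v i) = (v i : ℝ) by simp, ← h2, Finset.sum_mul]
      refine Finset.sum_congr rfl fun j _ => ?_
      ring
    rw [he, Finset.sum_mul]
    calc |∑ j, y j * (p j).eval t * W t| ≤ ∑ j, |y j * (p j).eval t * W t| :=
          Finset.abs_sum_le_sum_abs _ _
      _ ≤ ∑ _j : Fin M, κ := by
          refine Finset.sum_le_sum fun j _ => ?_
          have h3 := hv j
          rw [hAy, abs_mul, abs_of_pos (hc j)] at h3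
          rw [mul_assoc, abs_mul]
          calc |y j| * |(p j).eval t * W t| ≤ |y j| * c j :=
                mul_le_mul_of_nonneg_left (hb j t ht) (abs_nonneg _)
            _ ≤ κ := by rw [mul_comm]; exact h3.le
      _ = M * κ := by simp

end IntCheb
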