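import Pool.Agent.Lib.MP_6205a3_nt.B66.Alt

/-!
# MP_6205a3_nt : tangent bounds for products of real linear factors
-/

open Finset Polynomial

set_option autoImplicit false

namespace IntCheb

/-- `|F z| ≤ |F c| exp (σ (z - c))`. -/
def Tn (F : ℝ → ℝ) (c z σ : ℝ) : Prop := |F z| ≤ |F c| * Real.exp (σ * (z - c))

lemma Tn.one (c z : ℝ) : Tn (fun _ => 1) c z 0 := by simp [Tn]

lemma Tn.mul {F G : ℝ → ℝ} {c z σ σ' : ℝ} (h : Tn F c z σ) (h' : Tn G c z σ') :
    Tn (fun t => F t * G t) c z (σ + σ') := by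
  unfold Tn at *
  rw [abs_mul, abs_mul, add_mul, Real.exp_add]
  calc |F z| * |G z| ≤ (|F c| * Real.exp (σ * (z - c))) * (|G c| * Real.exp (σ' * (z - c))) :=
        mul_le_mul h h' (abs_nonneg _) (by positivity)
    _ = _ := by ring

lemma Tn.pow {F : ℝ → ℝ} {c z σ : ℝ} (h : Tn F c z σ) (g : ℕ) :
    Tn (fun t => F t ^ g) c z (g * σ) := by
  unfold Tn at *
  rw [abs_pow, abs_pow, mul_assoc, Real.exp_nat_mul, ← mul_pow]
  exact pow_le_pow_left₀ (abs_nonneg _) h g

lemma Tn.list {α : Type*} {c z : ℝ} (F : α → ℝ → ℝ) (σ : α → ℝ) (l : List α)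
    (h : ∀ a ∈ l, Tn (F a) c z (σ a)) :
    Tn (fun t => (l.map fun a => F a t).prod) c z (l.map σ).sum := by
  induction l with
  | nil => simpa using Tn.one c z
  | cons a l ih =>
    have h1 := (h a (by simp)).mul (ih fun b hb => h b (by simp [hb]))
    simpa using h1

lemma Tn.lin {c z ζ : ℝ} (hc : c ≠ ζ) (h : 0 ≤ (z - ζ) * (c - ζ)) :
    Tn (fun t => t - ζ) c z (1 / (c - ζ)) := by
  unfold Tn
  have h0 : c - ζ ≠ 0 := sub_ne_zero.2 hc
  have h1 : (z - ζ) / (c - ζ) = 1 / (c - ζ) * (z - c) + 1 := by field_simp; ring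
  have h2 : 0 ≤ (z - ζ) / (c - ζ) := by
    have h3 : (z - ζ) / (c - ζ) = ((z - ζ) * (c - ζ)) / (c - ζ) ^ 2 := by field_simp
    rw [h3]
    exact div_nonneg h (sq_nonneg _)
  have h3 := Real.add_one_le_exp (1 / (c - ζ) * (z - c))
  rw [← h1] at h3
  calc |z - ζ| = |c - ζ| * ((z - ζ) / (c - ζ)) := by
        rw [← abs_of_nonneg h2, ← abs_mul, mul_div_cancel₀ _ h0]
    _ ≤ _ := mul_le_mul_of_nonneg_left h3 (abs_nonneg _)

lemma Tn.mset {c z : ℝ} (s : Multiset ℝ) (h : ∀ ζ ∈ s, c ≠ ζ ∧ 0 ≤ (z - ζ) * (c - ζ)) :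
    Tn (fun t => (s.map fun ζ => t - ζ).prod) c z (s.map fun ζ => 1 / (c - ζ)).sum := by
  induction s using Multiset.induction_on with
  | empty => simpa using Tn.one c z
  | cons a s ih =>
    have ha := h a (Multiset.mem_cons_self a s)
    have h1 := (Tn.lin ha.1 ha.2).mul (ih fun b hb => h b (Multiset.mem_cons_of_mem hb))
    simpa using h1

/-- The tangent bound for a polynomial with real roots. -/
lemma Tn.poly {c z : ℝ} (f : ℝ[X]) (hf : f.Splits) (hc : f.eval c ≠ 0)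
    (h : ∀ ζ, f.IsRoot ζ → 0 ≤ (z - ζ) * (c - ζ)) :
    Tn (fun t => f.eval t) c z (f.derivative.eval c / f.eval c) := by
  rw [hf.eval_derivative_div_eval_of_ne_zero hc]
  have hr : ∀ ζ ∈ f.roots, c ≠ ζ ∧ 0 ≤ (z - ζ) * (c - ζ) := by
    intro ζ hζ
    have h1 := (mem_roots'.1 hζ).2
    refine ⟨?_, h ζ h1⟩
    rintro rfl
    exact hc h1
  have h1 := Tn.mset f.roots hr
  unfold Tn at *
  simp only at *
  rw [hf.eval_eq_prod_roots, hf.eval_eq_prod_roots, abs_mul, abs_mul, mul_assoc]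
  exact mul_le_mul_of_nonneg_left h1 (abs_nonneg _)

/-- Choice of a test point. -/
theorem locate {m : ℕ} (x : Fin (m + 1) → ℝ) (hx : StrictMono x) (y : Fin m → ℝ)
    (hy : ∀ i, x i.castSucc < y i ∧ y i < x i.succ) {a b : ℝ}
    (H : Fin (m + 1) → ℝ) (h0 : x 0 - a ≤ H 0)
    (hl : b - x (Fin.last m) ≤ H (Fin.last m))
    (hH : ∀ i : Fin m, x i.succ - x i.castSucc ≤ H i.castSucc ∧
      x i.succ - x i.castSucc ≤ H i.succ) (z : ℝ) (hz : z ∈ Set.Icc a b) :
    ∃ k, |z - x k| ≤ H k ∧ ∀ j, x k ≠ y j ∧ 0 ≤ (z - y j) * (x k - y j) := by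
  have hmono := hx.monotone
  have hlt : ∀ (k : Fin (m + 1)) (j : Fin m), (k : ℕ) ≤ j → x k < y j := by
    intro k j hkj
    have : x k ≤ x j.castSucc := hmono (by rw [Fin.le_def]; exact hkj)
    linarith [(hy j).1]
  have hgt : ∀ (k : Fin (m + 1)) (j : Fin m), (j : ℕ) < k → y j < x k := by
    intro k j hkj
    have : x j.succ ≤ x k := hmono (by rw [Fin.le_def, Fin.val_succ]; exact hkj)
    linarith [(hy j).2]
  -- reduction
  have key : ∀ k : Fin (m + 1), |z - x k| ≤ H k → (∀ j : Fin m, (k : ℕ) ≤ j → z ≤ y j) →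
      (∀ j : Fin m, (j : ℕ) < k → y j ≤ z) →
      ∃ k, |z - x k| ≤ H k ∧ ∀ j, x k ≠ y j ∧ 0 ≤ (z - y j) * (x k - y j) := by
    intro k h1 h2 h3
    refine ⟨k, h1, fun j => ?_⟩
    rcases Nat.lt_or_ge (j : ℕ) k with h | h
    · exact ⟨(hgt k j h).ne', mul_nonneg (by linarith [h3 j h]) (by linarith [hgt k j h])⟩
    · exact ⟨(hlt k j h).ne, mul_nonneg_of_nonpos_of_nonpos (by linarith [h2 j h])
        (by linarith [hlt k j h])⟩
  rcases lt_or_ge z (x 0) with h1 | h1
  · refine key 0 ?_ ?_ ?_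
    · rw [abs_sub_comm, abs_of_pos (by linarith)]; linarith [hz.1]
    · intro j _
      linarith [hlt 0 j (Nat.zero_le _)]
    · intro j hj
      exact absurd hj (Nat.not_lt_zero _)
  rcases le_or_gt (x (Fin.last m)) z with h2 | h2
  · refine key (Fin.last m) ?_ ?_ ?_
    · rw [abs_of_nonneg (by linarith)]; linarith [hz.2]
    · intro j hj
      have := j.2
      rw [Fin.val_last] at hj
      omega
    · intro j hj
      linarith [hgt (Fin.last m) j hj]
  -- interior
  have hex : ∀ n (hn : n < m + 1), z < x ⟨n, hn⟩ → ∃ i : Fin m, x i.castSucc ≤ z ∧ z < x i.succ := by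
    intro n
    induction n with
    | zero => intro hn h; exact absurd h (not_lt.2 h1)
    | succ n ih =>
      intro hn h
      rcases lt_or_ge z (x ⟨n, by omega⟩) with h3 | h3
      · exact ih _ h3
      · exact ⟨⟨n, by omega⟩, h3, h⟩
  obtain ⟨i, hi1, hi2⟩ := hex m (Nat.lt_succ_self m) h2
  rcases le_or_gt z (y i) with h3 | h3
  · refine key i.castSucc ?_ ?_ ?_
    · rw [abs_of_nonneg (by linarith)]; linarith [(hH i).1]
    · intro j hj
      rw [Fin.val_castSucc] at hj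
      rcases Nat.lt_or_ge (i : ℕ) j with h4 | h4
      · have h5 := hlt i.succ j (by rw [Fin.val_succ]; exact h4)
        linarith
      · have h5 : i = j := Fin.ext (le_antisymm hj h4)
        rw [← h5]; exact h3
    · intro j hj
      linarith [hgt i.castSucc j hj]
  · refine key i.succ ?_ ?_ ?_
    · rw [abs_sub_comm, abs_of_pos (by linarith)]; linarith [(hH i).2]
    · intro j hj
      linarith [hlt i.succ j hj]
    · intro j hj
      rw [Fin.val_succ] at hj
      rcases Nat.lt_or_ge (j : ℕ) i with h4 | h4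
      · have h5 := hgt i.castSucc j (by rw [Fin.val_castSucc]; exact h4)
        linarith
      · have h5 : j = i := Fin.ext (by omega)
        rw [h5]; exact h3.le

end IntCheb
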