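import Pool.Agent.Lib.MP_6205a3_nt.B66.UpData

/-!
# MP_6205a3_nt : data of level 12 of the upper bound certificate
-/

open Finset Polynomial

set_option autoImplicit false
set_option maxRecDepth 100000

namespace IntCheb

namespace Up

open Cert

/-- Zeros (times `upD`). -/
def upY12 : List ℕ := [
  nat_lit 11273504, nat_lit 11337835, nat_lit 11393662, nat_lit 11449381, nat_lit 12127072,
  nat_lit 12231805, nat_lit 12263095, nat_lit 12289868, nat_lit 12314582, nat_lit 12338199,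
  nat_lit 12361305, nat_lit 12384419, nat_lit 12408268, nat_lit 12434582, nat_lit 12514368,
  nat_lit 12687293, nat_lit 12709443, nat_lit 12728736, nat_lit 12746684, nat_lit 12763819,
  nat_lit 12780400, nat_lit 12796572, nat_lit 12812427, nat_lit 12828028, nat_lit 12843418,
  nat_lit 12858630, nat_lit 12873690, nat_lit 12888616, nat_lit 12903424, nat_lit 12918128,
  nat_lit 12932737, nat_lit 12947262, nat_lit 12961709, nat_lit 12976086, nat_lit 12990399,
  nat_lit 13004653, nat_lit 13018853, nat_lit 13033005, nat_lit 13047111, nat_lit 13061176,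
  nat_lit 13075204, nat_lit 13089198, nat_lit 13103163, nat_lit 13117100, nat_lit 13131015,
  nat_lit 13144909, nat_lit 13158787, nat_lit 13172652, nat_lit 13186508, nat_lit 13200358,
  nat_lit 13214207, nat_lit 13228058, nat_lit 13241917, nat_lit 13255787, nat_lit 13269675,
  nat_lit 13283585, nat_lit 13297525, nat_lit 13311501, nat_lit 13325522, nat_lit 13339597,
  nat_lit 13353737, nat_lit 13367953, nat_lit 13382262, nat_lit 13396679, nat_lit 13411229,
  nat_lit 13425935, nat_lit 13440834, nat_lit 13455968, nat_lit 13471397, nat_lit 13487202,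
  nat_lit 13503502, nat_lit 13520485, nat_lit 13538470, nat_lit 13558108, nat_lit 13581203,
  nat_lit 14002821, nat_lit 14037545, nat_lit 14059687, nat_lit 14079342, nat_lit 14097755,
  nat_lit 14115423, nat_lit 14132609, nat_lit 14149476, nat_lit 14166137, nat_lit 14182677,
  nat_lit 14199166, nat_lit 14215664, nat_lit 14232227, nat_lit 14248912, nat_lit 14265776,
  nat_lit 14282887, nat_lit 14300321, nat_lit 14318175, nat_lit 14336578, nat_lit 14355708,
  nat_lit 14375834, nat_lit 14397413, nat_lit 14421343, nat_lit 14450077, nat_lit 14602691,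
  nat_lit 15720287, nat_lit 15745522, nat_lit 15766364, nat_lit 15785034, nat_lit 15802352,
  nat_lit 15818734, nat_lit 15834432, nat_lit 15849618, nat_lit 15864425, nat_lit 15878972,
  nat_lit 15893388, nat_lit 15907872, nat_lit 15922908, nat_lit 15943496, nat_lit 15995214,
  nat_lit 16013178, nat_lit 16047015, nat_lit 16184497, nat_lit 16199474, nat_lit 16212552,
  nat_lit 16224745, nat_lit 16236407, nat_lit 16247710, nat_lit 16258751, nat_lit 16269592,
  nat_lit 16280272, nat_lit 16290821, nat_lit 16301261, nat_lit 16311608, nat_lit 16321873,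
  nat_lit 16332069, nat_lit 16342202, nat_lit 16352280, nat_lit 16362309, nat_lit 16372293,
  nat_lit 16382237, nat_lit 16392146, nat_lit 16402023, nat_lit 16411870, nat_lit 16421691,
  nat_lit 16431490, nat_lit 16441269, nat_lit 16451030, nat_lit 16460777, nat_lit 16470513,
  nat_lit 16480241, nat_lit 16489964, nat_lit 16499688, nat_lit 16509416, nat_lit 16519154,
  nat_lit 16528910, nat_lit 16538692, nat_lit 16548512, nat_lit 16558386, nat_lit 16568339,
  nat_lit 16578405, nat_lit 16588645, nat_lit 16599164, nat_lit 16610194, nat_lit 16622416,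
  nat_lit 16709698, nat_lit 16722567, nat_lit 16733763, nat_lit 16744391, nat_lit 16754726,
  nat_lit 16764891, nat_lit 16774953, nat_lit 16784952, nat_lit 16794917, nat_lit 16804868,
  nat_lit 16814823, nat_lit 16824797, nat_lit 16834803, nat_lit 16844856, nat_lit 16854970,
  nat_lit 16865164, nat_lit 16875457, nat_lit 16885873, nat_lit 16896443, nat_lit 16907208,
  nat_lit 16918223, nat_lit 16929570, nat_lit 16941375, nat_lit 16953857, nat_lit 16967456,
  nat_lit 16983400, nat_lit 17064356, nat_lit 17271994, nat_lit 17287842, nat_lit 17301337,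
  nat_lit 17313705, nat_lit 17325388, nat_lit 17336606, nat_lit 17347483, nat_lit 17358102,
  nat_lit 17368516, nat_lit 17378767, nat_lit 17388882, nat_lit 17398886, nat_lit 17408795,
  nat_lit 17418626, nat_lit 17428389, nat_lit 17438094, nat_lit 17447750, nat_lit 17457365,
  nat_lit 17466944, nat_lit 17476493, nat_lit 17486017, nat_lit 17495521, nat_lit 17505009,
  nat_lit 17514485, nat_lit 17523951, nat_lit 17533413, nat_lit 17542872, nat_lit 17552333,
  nat_lit 17561799, nat_lit 17571272, nat_lit 17580756, nat_lit 17590255, nat_lit 17599771,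
  nat_lit 17609310, nat_lit 17618874, nat_lit 17628468, nat_lit 17638097, nat_lit 17647766,
  nat_lit 17657480, nat_lit 17667247, nat_lit 17677075, nat_lit 17686971, nat_lit 17696946,
  nat_lit 17707014, nat_lit 17717188, nat_lit 17727489, nat_lit 17737938, nat_lit 17748568,
  nat_lit 17759418, nat_lit 17770545, nat_lit 17782031, nat_lit 17794005, nat_lit 17806686,
  nat_lit 17820515, nat_lit 17836709, nat_lit 17884582, nat_lit 18168997, nat_lit 18196658,
  nat_lit 18243405, nat_lit 18257257, nat_lit 18270073, nat_lit 18282424, nat_lit 18294508,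
  nat_lit 18306421, nat_lit 18318221, nat_lit 18329949, nat_lit 18341631, nat_lit 18353292,
  nat_lit 18364950, nat_lit 18376622, nat_lit 18388321, nat_lit 18400061, nat_lit 18411855,
  nat_lit 18423716, nat_lit 18435656, nat_lit 18447689, nat_lit 18459828, nat_lit 18472088,
  nat_lit 18484485, nat_lit 18497036, nat_lit 18509762, nat_lit 18522686, nat_lit 18535833,
  nat_lit 18549235, nat_lit 18562929, nat_lit 18576961, nat_lit 18591390, nat_lit 18606289,
  nat_lit 18621760, nat_lit 18637942, nat_lit 18655046, nat_lit 18673412, nat_lit 18693678,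
  nat_lit 18717425, nat_lit 18757046, nat_lit 19977428, nat_lit 21130671, nat_lit 21152003,
  nat_lit 21169404, nat_lit 21184830, nat_lit 21199003, nat_lit 21212287, nat_lit 21224901,
  nat_lit 21236987, nat_lit 21248646, nat_lit 21259955, nat_lit 21270973, nat_lit 21281749,
  nat_lit 21292326, nat_lit 21302743, nat_lit 21313039, nat_lit 21323254, nat_lit 21333436,
  nat_lit 21343646, nat_lit 21353969, nat_lit 21364551, nat_lit 21375679, nat_lit 21388162,
  nat_lit 21450181, nat_lit 21509576, nat_lit 21520954, nat_lit 21530549, nat_lit 21539426,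
  nat_lit 21547882, nat_lit 21556056, nat_lit 21564021, nat_lit 21571827, nat_lit 21579504,
  nat_lit 21587075, nat_lit 21594556, nat_lit 21601960, nat_lit 21609297, nat_lit 21616575,
  nat_lit 21623799, nat_lit 21630976, nat_lit 21638111, nat_lit 21645207, nat_lit 21652267,
  nat_lit 21659296, nat_lit 21666296, nat_lit 21673269, nat_lit 21680218, nat_lit 21687145,
  nat_lit 21694052, nat_lit 21700943, nat_lit 21707818, nat_lit 21714679, nat_lit 21721530,
  nat_lit 21728372, nat_lit 21735206, nat_lit 21742037, nat_lit 21748865, nat_lit 21755694,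
  nat_lit 21762526, nat_lit 21769365, nat_lit 21776214, nat_lit 21783076, nat_lit 21789956,
  nat_lit 21796859, nat_lit 21803791, nat_lit 21810758, nat_lit 21817769, nat_lit 21824834,
  nat_lit 21831964, nat_lit 21839175, nat_lit 21846488, nat_lit 21853928, nat_lit 21861535,
  nat_lit 21869361, nat_lit 21877494, nat_lit 21886080, nat_lit 21895418, nat_lit 21906341,
  nat_lit 21953447, nat_lit 22102451, nat_lit 22113102, nat_lit 22122168, nat_lit 22130477,
  nat_lit 22138324, nat_lit 22145859, nat_lit 22153166, nat_lit 22160299, nat_lit 22167298,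
  nat_lit 22174188, nat_lit 22180991, nat_lit 22187722, nat_lit 22194395, nat_lit 22201021,
  nat_lit 22207610, nat_lit 22214169, nat_lit 22220709, nat_lit 22227238, nat_lit 22233767,
  nat_lit 22240311, nat_lit 22246897, nat_lit 22253572, nat_lit 22260478, nat_lit 22268626,
  nat_lit 22294748, nat_lit 22301905, nat_lit 22308705, nat_lit 22315384, nat_lit 22322017,
  nat_lit 22328634, nat_lit 22335255, nat_lit 22341891, nat_lit 22348552, nat_lit 22355246,
  nat_lit 22361980, nat_lit 22368760, nat_lit 22375595, nat_lit 22382492, nat_lit 22389459,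
  nat_lit 22396508, nat_lit 22403648, nat_lit 22410895, nat_lit 22418263, nat_lit 22425773,
  nat_lit 22433449, nat_lit 22441323, nat_lit 22449437, nat_lit 22457848, nat_lit 22466638,
  nat_lit 22475935, nat_lit 22485953, nat_lit 22497124, nat_lit 22510621, nat_lit 22826640,
  nat_lit 23095075, nat_lit 23119419, nat_lit 23130520, nat_lit 23139859, nat_lit 23148287,
  nat_lit 23156127, nat_lit 23163545, nat_lit 23170639, nat_lit 23177475, nat_lit 23184098,
  nat_lit 23190542, nat_lit 23196833, nat_lit 23202990, nat_lit 23209030, nat_lit 23214966,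
  nat_lit 23220808, nat_lit 23226567, nat_lit 23232249, nat_lit 23237861, nat_lit 23243410,
  nat_lit 23248899, nat_lit 23254334, nat_lit 23259719, nat_lit 23265057, nat_lit 23270352,
  nat_lit 23275605, nat_lit 23280821, nat_lit 23286001, nat_lit 23291147, nat_lit 23296261,
  nat_lit 23301345, nat_lit 23306402, nat_lit 23311432, nat_lit 23316436, nat_lit 23321417,
  nat_lit 23326376, nat_lit 23331313, nat_lit 23336230, nat_lit 23341128, nat_lit 23346008,
  nat_lit 23350872, nat_lit 23355719, nat_lit 23360551, nat_lit 23365368, nat_lit 23370173,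
  nat_lit 23374964, nat_lit 23379744, nat_lit 23384513, nat_lit 23389272, nat_lit 23394022,
  nat_lit 23398763, nat_lit 23403496, nat_lit 23408222, nat_lit 23412942, nat_lit 23417656,
  nat_lit 23422366, nat_lit 23427072, nat_lit 23431775, nat_lit 23436477, nat_lit 23441178,
  nat_lit 23445878, nat_lit 23450580, nat_lit 23455285, nat_lit 23459993, nat_lit 23464707,
  nat_lit 23469427, nat_lit 23474155, nat_lit 23478894, nat_lit 23483645, nat_lit 23488411,
  nat_lit 23493194, nat_lit 23497997, nat_lit 23502824, nat_lit 23507680, nat_lit 23512568,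
  nat_lit 23517496, nat_lit 23522470, nat_lit 23527500, nat_lit 23532596, nat_lit 23537774,
  nat_lit 23543054, nat_lit 23548464, nat_lit 23554044, nat_lit 23559858, nat_lit 23566014,
  nat_lit 23572736, nat_lit 23580638, nat_lit 23651745, nat_lit 23729713, nat_lit 23891355,
  nat_lit 23903132, nat_lit 23911125, nat_lit 23918647, nat_lit 23926583, nat_lit 23963442,
  nat_lit 23994540, nat_lit 24003276, nat_lit 24009199, nat_lit 24014547, nat_lit 24019603,
  nat_lit 24024479, nat_lit 24029231, nat_lit 24033893, nat_lit 24038485, nat_lit 24043024,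
  nat_lit 24047519, nat_lit 24051978, nat_lit 24056409, nat_lit 24060816, nat_lit 24065202,
  nat_lit 24069572, nat_lit 24073929, nat_lit 24078273, nat_lit 24082608, nat_lit 24086936,
  nat_lit 24091258, nat_lit 24095575, nat_lit 24099889, nat_lit 24104202, nat_lit 24108513,
  nat_lit 24112825, nat_lit 24117139, nat_lit 24121456, nat_lit 24125776, nat_lit 24130100,
  nat_lit 24134431, nat_lit 24138768, nat_lit 24143114, nat_lit 24147469, nat_lit 24151835,
  nat_lit 24156215, nat_lit 24160609, nat_lit 24165021, nat_lit 24169455, nat_lit 24173917,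
  nat_lit 24178417, nat_lit 24182971, nat_lit 24187620, nat_lit 24192479, nat_lit 24198550,
  nat_lit 24216453, nat_lit 24221571, nat_lit 24226444, nat_lit 24231243, nat_lit 24236020,
  nat_lit 24240798, nat_lit 24245590, nat_lit 24250405, nat_lit 24255249, nat_lit 24260128,
  nat_lit 24265045, nat_lit 24270005, nat_lit 24275013, nat_lit 24280074, nat_lit 24285194,
  nat_lit 24290377, nat_lit 24295631, nat_lit 24300962, nat_lit 24306381, nat_lit 24311896,
  nat_lit 24317519, nat_lit 24323265, nat_lit 24329151, nat_lit 24335200, nat_lit 24341439,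
  nat_lit 24347906, nat_lit 24354651, nat_lit 24361747, nat_lit 24369306, nat_lit 24377518,
  nat_lit 24386757, nat_lit 24398046]

/-- Numerator of the bound. -/
def upC12 : ℕ := Nat.mul (nat_lit 1252926731143484077) (Nat.pow (nat_lit 2) (nat_lit 209444))

/-- Test points. -/
def upS12_0 : List (ℕ × ℕ × ℕ × ℕ) := [
  (nat_lit 11231197, nat_lit 11231197, nat_lit 2, nat_lit 1),
  (nat_lit 11307504, nat_lit 76307, nat_lit 2, nat_lit 1),
  (nat_lit 11366221, nat_lit 58717, nat_lit 2, nat_lit 1),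
  (nat_lit 11421005, nat_lit 60451, nat_lit 2, nat_lit 1),
  (nat_lit 11481456, nat_lit 157809, nat_lit 2, nat_lit 0),
  (nat_lit 11639265, nat_lit 481681, nat_lit 3, nat_lit 0),
  (nat_lit 12120946, nat_lit 481681, nat_lit 2, nat_lit 1),
  (nat_lit 12211549, nat_lit 90603, nat_lit 2, nat_lit 1),
  (nat_lit 12248319, nat_lit 36770, nat_lit 2, nat_lit 1),
  (nat_lit 12276831, nat_lit 28512, nat_lit 2, nat_lit 1),
  (nat_lit 12302408, nat_lit 25577, nat_lit 2, nat_lit 1),
  (nat_lit 12326487, nat_lit 24079, nat_lit 2, nat_lit 1),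
  (nat_lit 12349785, nat_lit 23298, nat_lit 2, nat_lit 1),
  (nat_lit 12372825, nat_lit 23361, nat_lit 2, nat_lit 1),
  (nat_lit 12396186, nat_lit 24718, nat_lit 2, nat_lit 1),
  (nat_lit 12420904, nat_lit 29803, nat_lit 2, nat_lit 1),
  (nat_lit 12450707, nat_lit 66797, nat_lit 2, nat_lit 1),
  (nat_lit 12517504, nat_lit 155770, nat_lit 2, nat_lit 0),
  (nat_lit 12673274, nat_lit 155770, nat_lit 3, nat_lit 1),
  (nat_lit 12698918, nat_lit 25644, nat_lit 3, nat_lit 1),
  (nat_lit 12719312, nat_lit 20394, nat_lit 3, nat_lit 1),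
  (nat_lit 12737835, nat_lit 18523, nat_lit 3, nat_lit 1),
  (nat_lit 12755333, nat_lit 17498, nat_lit 3, nat_lit 1),
  (nat_lit 12772168, nat_lit 16835, nat_lit 3, nat_lit 1),
  (nat_lit 12788530, nat_lit 16362, nat_lit 3, nat_lit 1),
  (nat_lit 12804535, nat_lit 16005, nat_lit 3, nat_lit 1),
  (nat_lit 12820256, nat_lit 15721, nat_lit 3, nat_lit 1),
  (nat_lit 12835747, nat_lit 15491, nat_lit 3, nat_lit 1),
  (nat_lit 12851045, nat_lit 15298, nat_lit 3, nat_lit 1),
  (nat_lit 12866178, nat_lit 15133, nat_lit 3, nat_lit 1),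
  (nat_lit 12881169, nat_lit 14991, nat_lit 3, nat_lit 1),
  (nat_lit 12896034, nat_lit 14865, nat_lit 3, nat_lit 1),
  (nat_lit 12910788, nat_lit 14754, nat_lit 3, nat_lit 1),
  (nat_lit 12925444, nat_lit 14656, nat_lit 3, nat_lit 1),
  (nat_lit 12940010, nat_lit 14566, nat_lit 3, nat_lit 1),
  (nat_lit 12954495, nat_lit 14485, nat_lit 3, nat_lit 1),
  (nat_lit 12968906, nat_lit 14411, nat_lit 3, nat_lit 1),
  (nat_lit 12983250, nat_lit 14344, nat_lit 3, nat_lit 1),
  (nat_lit 12997533, nat_lit 14283, nat_lit 3, nat_lit 1),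
  (nat_lit 13011759, nat_lit 14226, nat_lit 3, nat_lit 1),
  (nat_lit 13025935, nat_lit 14176, nat_lit 3, nat_lit 1),
  (nat_lit 13040063, nat_lit 14128, nat_lit 3, nat_lit 1),
  (nat_lit 13054148, nat_lit 14085, nat_lit 3, nat_lit 1),
  (nat_lit 13068194, nat_lit 14046, nat_lit 3, nat_lit 1),
  (nat_lit 13082205, nat_lit 14011, nat_lit 3, nat_lit 1),
  (nat_lit 13096184, nat_lit 13979, nat_lit 3, nat_lit 1)]

/-- Test points. -/
def upS12_1 : List (ℕ × ℕ × ℕ × ℕ) := [
  (nat_lit 13110135, nat_lit 13951, nat_lit 3, nat_lit 1),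
  (nat_lit 13124060, nat_lit 13925, nat_lit 3, nat_lit 1),
  (nat_lit 13137964, nat_lit 13904, nat_lit 3, nat_lit 1),
  (nat_lit 13151850, nat_lit 13886, nat_lit 3, nat_lit 1),
  (nat_lit 13165721, nat_lit 13871, nat_lit 3, nat_lit 1),
  (nat_lit 13179581, nat_lit 13860, nat_lit 3, nat_lit 1),
  (nat_lit 13193433, nat_lit 13852, nat_lit 3, nat_lit 1),
  (nat_lit 13207282, nat_lit 13850, nat_lit 3, nat_lit 1),
  (nat_lit 13221132, nat_lit 13854, nat_lit 3, nat_lit 1),
  (nat_lit 13234986, nat_lit 13864, nat_lit 3, nat_lit 1),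
  (nat_lit 13248850, nat_lit 13878, nat_lit 3, nat_lit 1),
  (nat_lit 13262728, nat_lit 13899, nat_lit 3, nat_lit 1),
  (nat_lit 13276627, nat_lit 13924, nat_lit 3, nat_lit 1),
  (nat_lit 13290551, nat_lit 13957, nat_lit 3, nat_lit 1),
  (nat_lit 13304508, nat_lit 13997, nat_lit 3, nat_lit 1),
  (nat_lit 13318505, nat_lit 14047, nat_lit 3, nat_lit 1),
  (nat_lit 13332552, nat_lit 14106, nat_lit 3, nat_lit 1),
  (nat_lit 13346658, nat_lit 14176, nat_lit 3, nat_lit 1),
  (nat_lit 13360834, nat_lit 14261, nat_lit 3, nat_lit 1),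
  (nat_lit 13375095, nat_lit 14361, nat_lit 3, nat_lit 1),
  (nat_lit 13389456, nat_lit 14480, nat_lit 3, nat_lit 1),
  (nat_lit 13403936, nat_lit 14624, nat_lit 3, nat_lit 1),
  (nat_lit 13418560, nat_lit 14798, nat_lit 3, nat_lit 1),
  (nat_lit 13433358, nat_lit 15010, nat_lit 3, nat_lit 1),
  (nat_lit 13448368, nat_lit 15273, nat_lit 3, nat_lit 1),
  (nat_lit 13463641, nat_lit 15605, nat_lit 3, nat_lit 1),
  (nat_lit 13479246, nat_lit 16035, nat_lit 3, nat_lit 1),
  (nat_lit 13495281, nat_lit 16612, nat_lit 3, nat_lit 1),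
  (nat_lit 13511893, nat_lit 17430, nat_lit 3, nat_lit 1),
  (nat_lit 13529323, nat_lit 18694, nat_lit 3, nat_lit 1),
  (nat_lit 13548017, nat_lit 20979, nat_lit 3, nat_lit 1),
  (nat_lit 13568996, nat_lit 27244, nat_lit 3, nat_lit 1),
  (nat_lit 13596240, nat_lit 395939, nat_lit 3, nat_lit 0),
  (nat_lit 13992179, nat_lit 395939, nat_lit 2, nat_lit 1),
  (nat_lit 14024217, nat_lit 32038, nat_lit 2, nat_lit 1),
  (nat_lit 14049076, nat_lit 24859, nat_lit 2, nat_lit 1),
  (nat_lit 14069718, nat_lit 20642, nat_lit 2, nat_lit 1),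
  (nat_lit 14088664, nat_lit 18946, nat_lit 2, nat_lit 1),
  (nat_lit 14106663, nat_lit 17999, nat_lit 2, nat_lit 1),
  (nat_lit 14124065, nat_lit 17402, nat_lit 2, nat_lit 1),
  (nat_lit 14141074, nat_lit 17009, nat_lit 2, nat_lit 1),
  (nat_lit 14157826, nat_lit 16752, nat_lit 2, nat_lit 1),
  (nat_lit 14174417, nat_lit 16591, nat_lit 2, nat_lit 1),
  (nat_lit 14190924, nat_lit 16507, nat_lit 2, nat_lit 1),
  (nat_lit 14207410, nat_lit 16524, nat_lit 2, nat_lit 1),
  (nat_lit 14223934, nat_lit 16617, nat_lit 2, nat_lit 1)]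

/-- Test points. -/
def upS12_2 : List (ℕ × ℕ × ℕ × ℕ) := [
  (nat_lit 14240551, nat_lit 16767, nat_lit 2, nat_lit 1),
  (nat_lit 14257318, nat_lit 16978, nat_lit 2, nat_lit 1),
  (nat_lit 14274296, nat_lit 17262, nat_lit 2, nat_lit 1),
  (nat_lit 14291558, nat_lit 17630, nat_lit 2, nat_lit 1),
  (nat_lit 14309188, nat_lit 18110, nat_lit 2, nat_lit 1),
  (nat_lit 14327298, nat_lit 18740, nat_lit 2, nat_lit 1),
  (nat_lit 14346038, nat_lit 19586, nat_lit 2, nat_lit 1),
  (nat_lit 14365624, nat_lit 20778, nat_lit 2, nat_lit 1),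
  (nat_lit 14386402, nat_lit 22592, nat_lit 2, nat_lit 1),
  (nat_lit 14408994, nat_lit 25808, nat_lit 2, nat_lit 1),
  (nat_lit 14434802, nat_lit 34393, nat_lit 2, nat_lit 1),
  (nat_lit 14469195, nat_lit 137956, nat_lit 2, nat_lit 1),
  (nat_lit 14607151, nat_lit 1096207, nat_lit 4, nat_lit 0),
  (nat_lit 15703358, nat_lit 1096207, nat_lit 3, nat_lit 1),
  (nat_lit 15733732, nat_lit 30374, nat_lit 3, nat_lit 1),
  (nat_lit 15756296, nat_lit 22564, nat_lit 3, nat_lit 1),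
  (nat_lit 15775905, nat_lit 19609, nat_lit 3, nat_lit 1),
  (nat_lit 15793831, nat_lit 17926, nat_lit 3, nat_lit 1),
  (nat_lit 15810642, nat_lit 16811, nat_lit 3, nat_lit 1),
  (nat_lit 15826656, nat_lit 16014, nat_lit 3, nat_lit 1),
  (nat_lit 15842080, nat_lit 15424, nat_lit 3, nat_lit 1),
  (nat_lit 15857061, nat_lit 14981, nat_lit 3, nat_lit 1),
  (nat_lit 15871724, nat_lit 14663, nat_lit 3, nat_lit 1),
  (nat_lit 15886187, nat_lit 14463, nat_lit 3, nat_lit 1),
  (nat_lit 15900603, nat_lit 14658, nat_lit 3, nat_lit 1),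
  (nat_lit 15915261, nat_lit 15943, nat_lit 3, nat_lit 1),
  (nat_lit 15931204, nat_lit 16789, nat_lit 3, nat_lit 1),
  (nat_lit 15947993, nat_lit 37890, nat_lit 3, nat_lit 0),
  (nat_lit 15985883, nat_lit 37890, nat_lit 2, nat_lit 1),
  (nat_lit 16004046, nat_lit 19532, nat_lit 2, nat_lit 1),
  (nat_lit 16023578, nat_lit 27847, nat_lit 2, nat_lit 1),
  (nat_lit 16051425, nat_lit 123618, nat_lit 2, nat_lit 0),
  (nat_lit 16175043, nat_lit 123618, nat_lit 3, nat_lit 1),
  (nat_lit 16192352, nat_lit 17309, nat_lit 3, nat_lit 1),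
  (nat_lit 16206160, nat_lit 13808, nat_lit 3, nat_lit 1),
  (nat_lit 16218730, nat_lit 12570, nat_lit 3, nat_lit 1),
  (nat_lit 16230629, nat_lit 11899, nat_lit 3, nat_lit 1),
  (nat_lit 16242096, nat_lit 11467, nat_lit 3, nat_lit 1),
  (nat_lit 16253259, nat_lit 11163, nat_lit 3, nat_lit 1),
  (nat_lit 16264194, nat_lit 10935, nat_lit 3, nat_lit 1),
  (nat_lit 16274950, nat_lit 10756, nat_lit 3, nat_lit 1),
  (nat_lit 16285561, nat_lit 10611, nat_lit 3, nat_lit 1),
  (nat_lit 16296054, nat_lit 10493, nat_lit 3, nat_lit 1),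
  (nat_lit 16306445, nat_lit 10391, nat_lit 3, nat_lit 1),
  (nat_lit 16316750, nat_lit 10305, nat_lit 3, nat_lit 1),
  (nat_lit 16326979, nat_lit 10229, nat_lit 3, nat_lit 1)]

/-- Test points. -/
def upS12_3 : List (ℕ × ℕ × ℕ × ℕ) := [
  (nat_lit 16337143, nat_lit 10164, nat_lit 3, nat_lit 1),
  (nat_lit 16347248, nat_lit 10105, nat_lit 3, nat_lit 1),
  (nat_lit 16357300, nat_lit 10052, nat_lit 3, nat_lit 1),
  (nat_lit 16367306, nat_lit 10006, nat_lit 3, nat_lit 1),
  (nat_lit 16377270, nat_lit 9964, nat_lit 3, nat_lit 1),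
  (nat_lit 16387196, nat_lit 9926, nat_lit 3, nat_lit 1),
  (nat_lit 16397088, nat_lit 9892, nat_lit 3, nat_lit 1),
  (nat_lit 16406950, nat_lit 9862, nat_lit 3, nat_lit 1),
  (nat_lit 16416784, nat_lit 9834, nat_lit 3, nat_lit 1),
  (nat_lit 16426593, nat_lit 9809, nat_lit 3, nat_lit 1),
  (nat_lit 16436382, nat_lit 9789, nat_lit 3, nat_lit 1),
  (nat_lit 16446151, nat_lit 9769, nat_lit 3, nat_lit 1),
  (nat_lit 16455905, nat_lit 9754, nat_lit 3, nat_lit 1),
  (nat_lit 16465646, nat_lit 9741, nat_lit 3, nat_lit 1),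
  (nat_lit 16475378, nat_lit 9732, nat_lit 3, nat_lit 1),
  (nat_lit 16485103, nat_lit 9725, nat_lit 3, nat_lit 1),
  (nat_lit 16494826, nat_lit 9725, nat_lit 3, nat_lit 1),
  (nat_lit 16504551, nat_lit 9732, nat_lit 3, nat_lit 1),
  (nat_lit 16514283, nat_lit 9746, nat_lit 3, nat_lit 1),
  (nat_lit 16524029, nat_lit 9768, nat_lit 3, nat_lit 1),
  (nat_lit 16533797, nat_lit 9799, nat_lit 3, nat_lit 1),
  (nat_lit 16543596, nat_lit 9845, nat_lit 3, nat_lit 1),
  (nat_lit 16553441, nat_lit 9910, nat_lit 3, nat_lit 1),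
  (nat_lit 16563351, nat_lit 10004, nat_lit 3, nat_lit 1),
  (nat_lit 16573355, nat_lit 10143, nat_lit 3, nat_lit 1),
  (nat_lit 16583498, nat_lit 10362, nat_lit 3, nat_lit 1),
  (nat_lit 16593860, nat_lit 10731, nat_lit 3, nat_lit 1),
  (nat_lit 16604591, nat_lit 11477, nat_lit 3, nat_lit 1),
  (nat_lit 16616068, nat_lit 13776, nat_lit 3, nat_lit 1),
  (nat_lit 16629844, nat_lit 72867, nat_lit 3, nat_lit 0),
  (nat_lit 16702711, nat_lit 72867, nat_lit 2, nat_lit 1),
  (nat_lit 16716525, nat_lit 13814, nat_lit 2, nat_lit 1),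
  (nat_lit 16728267, nat_lit 11742, nat_lit 2, nat_lit 1),
  (nat_lit 16739125, nat_lit 10858, nat_lit 2, nat_lit 1),
  (nat_lit 16749585, nat_lit 10460, nat_lit 2, nat_lit 1),
  (nat_lit 16759825, nat_lit 10240, nat_lit 2, nat_lit 1),
  (nat_lit 16769932, nat_lit 10107, nat_lit 2, nat_lit 1),
  (nat_lit 16779958, nat_lit 10026, nat_lit 2, nat_lit 1),
  (nat_lit 16789937, nat_lit 9979, nat_lit 2, nat_lit 1),
  (nat_lit 16799893, nat_lit 9956, nat_lit 2, nat_lit 1),
  (nat_lit 16809844, nat_lit 9963, nat_lit 2, nat_lit 1),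
  (nat_lit 16819807, nat_lit 9988, nat_lit 2, nat_lit 1),
  (nat_lit 16829795, nat_lit 10028, nat_lit 2, nat_lit 1),
  (nat_lit 16839823, nat_lit 10081, nat_lit 2, nat_lit 1),
  (nat_lit 16849904, nat_lit 10152, nat_lit 2, nat_lit 1),
  (nat_lit 16860056, nat_lit 10241, nat_lit 2, nat_lit 1)]

/-- Test points. -/
def upS12_4 : List (ℕ × ℕ × ℕ × ℕ) := [
  (nat_lit 16870297, nat_lit 10351, nat_lit 2, nat_lit 1),
  (nat_lit 16880648, nat_lit 10489, nat_lit 2, nat_lit 1),
  (nat_lit 16891137, nat_lit 10661, nat_lit 2, nat_lit 1),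
  (nat_lit 16901798, nat_lit 10882, nat_lit 2, nat_lit 1),
  (nat_lit 16912680, nat_lit 11169, nat_lit 2, nat_lit 1),
  (nat_lit 16923849, nat_lit 11556, nat_lit 2, nat_lit 1),
  (nat_lit 16935405, nat_lit 12107, nat_lit 2, nat_lit 1),
  (nat_lit 16947512, nat_lit 12960, nat_lit 2, nat_lit 1),
  (nat_lit 16960472, nat_lit 14508, nat_lit 2, nat_lit 1),
  (nat_lit 16974980, nat_lit 18766, nat_lit 2, nat_lit 1),
  (nat_lit 16993746, nat_lit 72238, nat_lit 2, nat_lit 1),
  (nat_lit 17065984, nat_lit 195707, nat_lit 2, nat_lit 0),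
  (nat_lit 17261691, nat_lit 195707, nat_lit 3, nat_lit 1),
  (nat_lit 17280367, nat_lit 18676, nat_lit 3, nat_lit 1),
  (nat_lit 17294775, nat_lit 14408, nat_lit 3, nat_lit 1),
  (nat_lit 17307626, nat_lit 12851, nat_lit 3, nat_lit 1),
  (nat_lit 17319615, nat_lit 11989, nat_lit 3, nat_lit 1),
  (nat_lit 17331046, nat_lit 11431, nat_lit 3, nat_lit 1),
  (nat_lit 17342081, nat_lit 11035, nat_lit 3, nat_lit 1),
  (nat_lit 17352821, nat_lit 10740, nat_lit 3, nat_lit 1),
  (nat_lit 17363332, nat_lit 10511, nat_lit 3, nat_lit 1),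
  (nat_lit 17373660, nat_lit 10328, nat_lit 3, nat_lit 1),
  (nat_lit 17383840, nat_lit 10180, nat_lit 3, nat_lit 1),
  (nat_lit 17393897, nat_lit 10057, nat_lit 3, nat_lit 1),
  (nat_lit 17403851, nat_lit 9954, nat_lit 3, nat_lit 1),
  (nat_lit 17413720, nat_lit 9869, nat_lit 3, nat_lit 1),
  (nat_lit 17423515, nat_lit 9795, nat_lit 3, nat_lit 1),
  (nat_lit 17433248, nat_lit 9733, nat_lit 3, nat_lit 1),
  (nat_lit 17442928, nat_lit 9680, nat_lit 3, nat_lit 1),
  (nat_lit 17452562, nat_lit 9634, nat_lit 3, nat_lit 1),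
  (nat_lit 17462159, nat_lit 9597, nat_lit 3, nat_lit 1),
  (nat_lit 17471722, nat_lit 9563, nat_lit 3, nat_lit 1),
  (nat_lit 17481258, nat_lit 9536, nat_lit 3, nat_lit 1),
  (nat_lit 17490771, nat_lit 9513, nat_lit 3, nat_lit 1),
  (nat_lit 17500267, nat_lit 9496, nat_lit 3, nat_lit 1),
  (nat_lit 17509748, nat_lit 9481, nat_lit 3, nat_lit 1),
  (nat_lit 17519219, nat_lit 9471, nat_lit 3, nat_lit 1),
  (nat_lit 17528682, nat_lit 9463, nat_lit 3, nat_lit 1),
  (nat_lit 17538143, nat_lit 9461, nat_lit 3, nat_lit 1),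
  (nat_lit 17547602, nat_lit 9463, nat_lit 3, nat_lit 1),
  (nat_lit 17557065, nat_lit 9469, nat_lit 3, nat_lit 1),
  (nat_lit 17566534, nat_lit 9478, nat_lit 3, nat_lit 1),
  (nat_lit 17576012, nat_lit 9491, nat_lit 3, nat_lit 1),
  (nat_lit 17585503, nat_lit 9508, nat_lit 3, nat_lit 1),
  (nat_lit 17595011, nat_lit 9527, nat_lit 3, nat_lit 1),
  (nat_lit 17604538, nat_lit 9550, nat_lit 3, nat_lit 1)]

/-- Test points. -/
def upS12_5 : List (ℕ × ℕ × ℕ × ℕ) := [
  (nat_lit 17614088, nat_lit 9579, nat_lit 3, nat_lit 1),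
  (nat_lit 17623667, nat_lit 9611, nat_lit 3, nat_lit 1),
  (nat_lit 17633278, nat_lit 9648, nat_lit 3, nat_lit 1),
  (nat_lit 17642926, nat_lit 9691, nat_lit 3, nat_lit 1),
  (nat_lit 17652617, nat_lit 9740, nat_lit 3, nat_lit 1),
  (nat_lit 17662357, nat_lit 9796, nat_lit 3, nat_lit 1),
  (nat_lit 17672153, nat_lit 9861, nat_lit 3, nat_lit 1),
  (nat_lit 17682014, nat_lit 9934, nat_lit 3, nat_lit 1),
  (nat_lit 17691948, nat_lit 10020, nat_lit 3, nat_lit 1),
  (nat_lit 17701968, nat_lit 10119, nat_lit 3, nat_lit 1),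
  (nat_lit 17712087, nat_lit 10234, nat_lit 3, nat_lit 1),
  (nat_lit 17722321, nat_lit 10372, nat_lit 3, nat_lit 1),
  (nat_lit 17732693, nat_lit 10535, nat_lit 3, nat_lit 1),
  (nat_lit 17743228, nat_lit 10734, nat_lit 3, nat_lit 1),
  (nat_lit 17753962, nat_lit 10980, nat_lit 3, nat_lit 1),
  (nat_lit 17764942, nat_lit 11295, nat_lit 3, nat_lit 1),
  (nat_lit 17776237, nat_lit 11709, nat_lit 3, nat_lit 1),
  (nat_lit 17787946, nat_lit 12291, nat_lit 3, nat_lit 1),
  (nat_lit 17800237, nat_lit 13176, nat_lit 3, nat_lit 1),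
  (nat_lit 17813413, nat_lit 14750, nat_lit 3, nat_lit 1),
  (nat_lit 17828163, nat_lit 19002, nat_lit 3, nat_lit 1),
  (nat_lit 17847165, nat_lit 41066, nat_lit 3, nat_lit 1),
  (nat_lit 17888231, nat_lit 268131, nat_lit 3, nat_lit 0),
  (nat_lit 18156362, nat_lit 268131, nat_lit 2, nat_lit 1),
  (nat_lit 18180258, nat_lit 23896, nat_lit 2, nat_lit 1),
  (nat_lit 18200474, nat_lit 34879, nat_lit 2, nat_lit 0),
  (nat_lit 18235353, nat_lit 34879, nat_lit 3, nat_lit 1),
  (nat_lit 18250535, nat_lit 15182, nat_lit 3, nat_lit 1),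
  (nat_lit 18263743, nat_lit 13208, nat_lit 3, nat_lit 1),
  (nat_lit 18276291, nat_lit 12548, nat_lit 3, nat_lit 1),
  (nat_lit 18288492, nat_lit 12201, nat_lit 3, nat_lit 1),
  (nat_lit 18300482, nat_lit 11990, nat_lit 3, nat_lit 1),
  (nat_lit 18312332, nat_lit 11850, nat_lit 3, nat_lit 1),
  (nat_lit 18324092, nat_lit 11760, nat_lit 3, nat_lit 1),
  (nat_lit 18335794, nat_lit 11702, nat_lit 3, nat_lit 1),
  (nat_lit 18347463, nat_lit 11669, nat_lit 3, nat_lit 1),
  (nat_lit 18359120, nat_lit 11663, nat_lit 3, nat_lit 1),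
  (nat_lit 18370783, nat_lit 11684, nat_lit 3, nat_lit 1),
  (nat_lit 18382467, nat_lit 11718, nat_lit 3, nat_lit 1),
  (nat_lit 18394185, nat_lit 11765, nat_lit 3, nat_lit 1),
  (nat_lit 18405950, nat_lit 11826, nat_lit 3, nat_lit 1),
  (nat_lit 18417776, nat_lit 11899, nat_lit 3, nat_lit 1),
  (nat_lit 18429675, nat_lit 11985, nat_lit 3, nat_lit 1),
  (nat_lit 18441660, nat_lit 12084, nat_lit 3, nat_lit 1),
  (nat_lit 18453744, nat_lit 12198, nat_lit 3, nat_lit 1),
  (nat_lit 18465942, nat_lit 12326, nat_lit 3, nat_lit 1)]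

/-- Test points. -/
def upS12_6 : List (ℕ × ℕ × ℕ × ℕ) := [
  (nat_lit 18478268, nat_lit 12472, nat_lit 3, nat_lit 1),
  (nat_lit 18490740, nat_lit 12636, nat_lit 3, nat_lit 1),
  (nat_lit 18503376, nat_lit 12822, nat_lit 3, nat_lit 1),
  (nat_lit 18516198, nat_lit 13032, nat_lit 3, nat_lit 1),
  (nat_lit 18529230, nat_lit 13270, nat_lit 3, nat_lit 1),
  (nat_lit 18542500, nat_lit 13543, nat_lit 3, nat_lit 1),
  (nat_lit 18556043, nat_lit 13856, nat_lit 3, nat_lit 1),
  (nat_lit 18569899, nat_lit 14223, nat_lit 3, nat_lit 1),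
  (nat_lit 18584122, nat_lit 14653, nat_lit 3, nat_lit 1),
  (nat_lit 18598775, nat_lit 15170, nat_lit 3, nat_lit 1),
  (nat_lit 18613945, nat_lit 15806, nat_lit 3, nat_lit 1),
  (nat_lit 18629751, nat_lit 16611, nat_lit 3, nat_lit 1),
  (nat_lit 18646362, nat_lit 17680, nat_lit 3, nat_lit 1),
  (nat_lit 18664042, nat_lit 19204, nat_lit 3, nat_lit 1),
  (nat_lit 18683246, nat_lit 21684, nat_lit 3, nat_lit 1),
  (nat_lit 18704930, nat_lit 27316, nat_lit 3, nat_lit 1),
  (nat_lit 18732246, nat_lit 37531, nat_lit 3, nat_lit 1),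
  (nat_lit 18769777, nat_lit 1207687, nat_lit 3, nat_lit 1),
  (nat_lit 19977464, nat_lit 1207687, nat_lit 8239, nat_lit 0),
  (nat_lit 21116192, nat_lit 1138728, nat_lit 2, nat_lit 1),
  (nat_lit 21142073, nat_lit 25881, nat_lit 2, nat_lit 1),
  (nat_lit 21161022, nat_lit 18949, nat_lit 2, nat_lit 1),
  (nat_lit 21177306, nat_lit 16284, nat_lit 2, nat_lit 1),
  (nat_lit 21192046, nat_lit 14740, nat_lit 2, nat_lit 1),
  (nat_lit 21205740, nat_lit 13694, nat_lit 2, nat_lit 1),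
  (nat_lit 21218668, nat_lit 12928, nat_lit 2, nat_lit 1),
  (nat_lit 21231003, nat_lit 12335, nat_lit 2, nat_lit 1),
  (nat_lit 21242865, nat_lit 11862, nat_lit 2, nat_lit 1),
  (nat_lit 21254340, nat_lit 11475, nat_lit 2, nat_lit 1),
  (nat_lit 21265497, nat_lit 11157, nat_lit 2, nat_lit 1),
  (nat_lit 21276388, nat_lit 10891, nat_lit 2, nat_lit 1),
  (nat_lit 21287060, nat_lit 10672, nat_lit 2, nat_lit 1),
  (nat_lit 21297552, nat_lit 10492, nat_lit 2, nat_lit 1),
  (nat_lit 21307904, nat_lit 10352, nat_lit 2, nat_lit 1),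
  (nat_lit 21318154, nat_lit 10250, nat_lit 2, nat_lit 1),
  (nat_lit 21328346, nat_lit 10192, nat_lit 2, nat_lit 1),
  (nat_lit 21338533, nat_lit 10253, nat_lit 2, nat_lit 1),
  (nat_lit 21348786, nat_lit 10429, nat_lit 2, nat_lit 1),
  (nat_lit 21359215, nat_lit 10803, nat_lit 2, nat_lit 1),
  (nat_lit 21370018, nat_lit 11631, nat_lit 2, nat_lit 1),
  (nat_lit 21381649, nat_lit 14261, nat_lit 2, nat_lit 1),
  (nat_lit 21395910, nat_lit 54323, nat_lit 2, nat_lit 1),
  (nat_lit 21450233, nat_lit 54323, nat_lit 640, nat_lit 0),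
  (nat_lit 21502982, nat_lit 52749, nat_lit 3, nat_lit 1),
  (nat_lit 21515654, nat_lit 12672, nat_lit 3, nat_lit 1),
  (nat_lit 21525873, nat_lit 10219, nat_lit 3, nat_lit 1)]

/-- Test points. -/
def upS12_7 : List (ℕ × ℕ × ℕ × ℕ) := [
  (nat_lit 21535053, nat_lit 9180, nat_lit 3, nat_lit 1),
  (nat_lit 21543696, nat_lit 8643, nat_lit 3, nat_lit 1),
  (nat_lit 21551999, nat_lit 8303, nat_lit 3, nat_lit 1),
  (nat_lit 21560061, nat_lit 8062, nat_lit 3, nat_lit 1),
  (nat_lit 21567942, nat_lit 7881, nat_lit 3, nat_lit 1),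
  (nat_lit 21575680, nat_lit 7738, nat_lit 3, nat_lit 1),
  (nat_lit 21583302, nat_lit 7622, nat_lit 3, nat_lit 1),
  (nat_lit 21590826, nat_lit 7524, nat_lit 3, nat_lit 1),
  (nat_lit 21598267, nat_lit 7441, nat_lit 3, nat_lit 1),
  (nat_lit 21605636, nat_lit 7369, nat_lit 3, nat_lit 1),
  (nat_lit 21612943, nat_lit 7307, nat_lit 3, nat_lit 1),
  (nat_lit 21620193, nat_lit 7250, nat_lit 3, nat_lit 1),
  (nat_lit 21627393, nat_lit 7200, nat_lit 3, nat_lit 1),
  (nat_lit 21634549, nat_lit 7156, nat_lit 3, nat_lit 1),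
  (nat_lit 21641664, nat_lit 7115, nat_lit 3, nat_lit 1),
  (nat_lit 21648741, nat_lit 7077, nat_lit 3, nat_lit 1),
  (nat_lit 21655785, nat_lit 7044, nat_lit 3, nat_lit 1),
  (nat_lit 21662799, nat_lit 7014, nat_lit 3, nat_lit 1),
  (nat_lit 21669786, nat_lit 6987, nat_lit 3, nat_lit 1),
  (nat_lit 21676746, nat_lit 6960, nat_lit 3, nat_lit 1),
  (nat_lit 21683684, nat_lit 6938, nat_lit 3, nat_lit 1),
  (nat_lit 21690601, nat_lit 6917, nat_lit 3, nat_lit 1),
  (nat_lit 21697500, nat_lit 6899, nat_lit 3, nat_lit 1),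
  (nat_lit 21704382, nat_lit 6882, nat_lit 3, nat_lit 1),
  (nat_lit 21711250, nat_lit 6868, nat_lit 3, nat_lit 1),
  (nat_lit 21718106, nat_lit 6856, nat_lit 3, nat_lit 1),
  (nat_lit 21724952, nat_lit 6846, nat_lit 3, nat_lit 1),
  (nat_lit 21731790, nat_lit 6838, nat_lit 3, nat_lit 1),
  (nat_lit 21738622, nat_lit 6832, nat_lit 3, nat_lit 1),
  (nat_lit 21745451, nat_lit 6829, nat_lit 3, nat_lit 1),
  (nat_lit 21752279, nat_lit 6830, nat_lit 3, nat_lit 1),
  (nat_lit 21759109, nat_lit 6836, nat_lit 3, nat_lit 1),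
  (nat_lit 21765945, nat_lit 6843, nat_lit 3, nat_lit 1),
  (nat_lit 21772788, nat_lit 6855, nat_lit 3, nat_lit 1),
  (nat_lit 21779643, nat_lit 6870, nat_lit 3, nat_lit 1),
  (nat_lit 21786513, nat_lit 6891, nat_lit 3, nat_lit 1),
  (nat_lit 21793404, nat_lit 6917, nat_lit 3, nat_lit 1),
  (nat_lit 21800321, nat_lit 6949, nat_lit 3, nat_lit 1),
  (nat_lit 21807270, nat_lit 6988, nat_lit 3, nat_lit 1),
  (nat_lit 21814258, nat_lit 7036, nat_lit 3, nat_lit 1),
  (nat_lit 21821294, nat_lit 7096, nat_lit 3, nat_lit 1),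
  (nat_lit 21828390, nat_lit 7168, nat_lit 3, nat_lit 1),
  (nat_lit 21835558, nat_lit 7259, nat_lit 3, nat_lit 1),
  (nat_lit 21842817, nat_lit 7373, nat_lit 3, nat_lit 1),
  (nat_lit 21850190, nat_lit 7518, nat_lit 3, nat_lit 1),
  (nat_lit 21857708, nat_lit 7708, nat_lit 3, nat_lit 1)]

/-- Test points. -/
def upS12_8 : List (ℕ × ℕ × ℕ × ℕ) := [
  (nat_lit 21865416, nat_lit 7966, nat_lit 3, nat_lit 1),
  (nat_lit 21873382, nat_lit 8335, nat_lit 3, nat_lit 1),
  (nat_lit 21881717, nat_lit 8908, nat_lit 3, nat_lit 1),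
  (nat_lit 21890625, nat_lit 9951, nat_lit 3, nat_lit 1),
  (nat_lit 21900576, nat_lit 12834, nat_lit 3, nat_lit 1),
  (nat_lit 21913410, nat_lit 41463, nat_lit 3, nat_lit 1),
  (nat_lit 21954873, nat_lit 140651, nat_lit 5, nat_lit 0),
  (nat_lit 22095524, nat_lit 140651, nat_lit 2, nat_lit 1),
  (nat_lit 22108079, nat_lit 12555, nat_lit 2, nat_lit 1),
  (nat_lit 22117760, nat_lit 9681, nat_lit 2, nat_lit 1),
  (nat_lit 22126393, nat_lit 8633, nat_lit 2, nat_lit 1),
  (nat_lit 22134447, nat_lit 8054, nat_lit 2, nat_lit 1),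
  (nat_lit 22142124, nat_lit 7677, nat_lit 2, nat_lit 1),
  (nat_lit 22149537, nat_lit 7413, nat_lit 2, nat_lit 1),
  (nat_lit 22156751, nat_lit 7214, nat_lit 2, nat_lit 1),
  (nat_lit 22163814, nat_lit 7063, nat_lit 2, nat_lit 1),
  (nat_lit 22170755, nat_lit 6941, nat_lit 2, nat_lit 1),
  (nat_lit 22177599, nat_lit 6844, nat_lit 2, nat_lit 1),
  (nat_lit 22184365, nat_lit 6766, nat_lit 2, nat_lit 1),
  (nat_lit 22191065, nat_lit 6700, nat_lit 2, nat_lit 1),
  (nat_lit 22197713, nat_lit 6648, nat_lit 2, nat_lit 1),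
  (nat_lit 22204320, nat_lit 6607, nat_lit 2, nat_lit 1),
  (nat_lit 22210893, nat_lit 6573, nat_lit 2, nat_lit 1),
  (nat_lit 22217441, nat_lit 6548, nat_lit 2, nat_lit 1),
  (nat_lit 22223974, nat_lit 6533, nat_lit 2, nat_lit 1),
  (nat_lit 22230502, nat_lit 6534, nat_lit 2, nat_lit 1),
  (nat_lit 22237036, nat_lit 6561, nat_lit 2, nat_lit 1),
  (nat_lit 22243597, nat_lit 6621, nat_lit 2, nat_lit 1),
  (nat_lit 22250218, nat_lit 6761, nat_lit 2, nat_lit 1),
  (nat_lit 22256979, nat_lit 7195, nat_lit 2, nat_lit 1),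
  (nat_lit 22264174, nat_lit 7535, nat_lit 2, nat_lit 1),
  (nat_lit 22271709, nat_lit 19000, nat_lit 2, nat_lit 0),
  (nat_lit 22290709, nat_lit 19000, nat_lit 3, nat_lit 1),
  (nat_lit 22298403, nat_lit 7694, nat_lit 3, nat_lit 1),
  (nat_lit 22305328, nat_lit 6925, nat_lit 3, nat_lit 1),
  (nat_lit 22312054, nat_lit 6726, nat_lit 3, nat_lit 1),
  (nat_lit 22318704, nat_lit 6650, nat_lit 3, nat_lit 1),
  (nat_lit 22325326, nat_lit 6622, nat_lit 3, nat_lit 1),
  (nat_lit 22331943, nat_lit 6627, nat_lit 3, nat_lit 1),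
  (nat_lit 22338570, nat_lit 6648, nat_lit 3, nat_lit 1),
  (nat_lit 22345218, nat_lit 6677, nat_lit 3, nat_lit 1),
  (nat_lit 22351895, nat_lit 6713, nat_lit 3, nat_lit 1),
  (nat_lit 22358608, nat_lit 6756, nat_lit 3, nat_lit 1),
  (nat_lit 22365364, nat_lit 6806, nat_lit 3, nat_lit 1),
  (nat_lit 22372170, nat_lit 6865, nat_lit 3, nat_lit 1),
  (nat_lit 22379035, nat_lit 6931, nat_lit 3, nat_lit 1)]

/-- Test points. -/
def upS12_9 : List (ℕ × ℕ × ℕ × ℕ) := [
  (nat_lit 22385966, nat_lit 7007, nat_lit 3, nat_lit 1),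
  (nat_lit 22392973, nat_lit 7093, nat_lit 3, nat_lit 1),
  (nat_lit 22400066, nat_lit 7191, nat_lit 3, nat_lit 1),
  (nat_lit 22407257, nat_lit 7306, nat_lit 3, nat_lit 1),
  (nat_lit 22414563, nat_lit 7436, nat_lit 3, nat_lit 1),
  (nat_lit 22421999, nat_lit 7589, nat_lit 3, nat_lit 1),
  (nat_lit 22429588, nat_lit 7771, nat_lit 3, nat_lit 1),
  (nat_lit 22437359, nat_lit 7988, nat_lit 3, nat_lit 1),
  (nat_lit 22445347, nat_lit 8254, nat_lit 3, nat_lit 1),
  (nat_lit 22453601, nat_lit 8588, nat_lit 3, nat_lit 1),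
  (nat_lit 22462189, nat_lit 9024, nat_lit 3, nat_lit 1),
  (nat_lit 22471213, nat_lit 9621, nat_lit 3, nat_lit 1),
  (nat_lit 22480834, nat_lit 10518, nat_lit 3, nat_lit 1),
  (nat_lit 22491352, nat_lit 12082, nat_lit 3, nat_lit 1),
  (nat_lit 22503434, nat_lit 16220, nat_lit 3, nat_lit 1),
  (nat_lit 22519654, nat_lit 306957, nat_lit 3, nat_lit 0),
  (nat_lit 22826611, nat_lit 306957, nat_lit 744, nat_lit 1),
  (nat_lit 23090862, nat_lit 264251, nat_lit 2, nat_lit 1),
  (nat_lit 23112228, nat_lit 21366, nat_lit 2, nat_lit 1),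
  (nat_lit 23125294, nat_lit 13066, nat_lit 2, nat_lit 1),
  (nat_lit 23135335, nat_lit 10041, nat_lit 2, nat_lit 1),
  (nat_lit 23144161, nat_lit 8826, nat_lit 2, nat_lit 1),
  (nat_lit 23152268, nat_lit 8107, nat_lit 2, nat_lit 1),
  (nat_lit 23159882, nat_lit 7614, nat_lit 2, nat_lit 1),
  (nat_lit 23167128, nat_lit 7246, nat_lit 2, nat_lit 1),
  (nat_lit 23174086, nat_lit 6958, nat_lit 2, nat_lit 1),
  (nat_lit 23180811, nat_lit 6725, nat_lit 2, nat_lit 1),
  (nat_lit 23187341, nat_lit 6530, nat_lit 2, nat_lit 1),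
  (nat_lit 23193705, nat_lit 6364, nat_lit 2, nat_lit 1),
  (nat_lit 23199927, nat_lit 6222, nat_lit 2, nat_lit 1),
  (nat_lit 23206024, nat_lit 6097, nat_lit 2, nat_lit 1),
  (nat_lit 23212010, nat_lit 5986, nat_lit 2, nat_lit 1),
  (nat_lit 23217898, nat_lit 5888, nat_lit 2, nat_lit 1),
  (nat_lit 23223698, nat_lit 5800, nat_lit 2, nat_lit 1),
  (nat_lit 23229417, nat_lit 5719, nat_lit 2, nat_lit 1),
  (nat_lit 23235063, nat_lit 5646, nat_lit 2, nat_lit 1),
  (nat_lit 23240643, nat_lit 5580, nat_lit 2, nat_lit 1),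
  (nat_lit 23246161, nat_lit 5518, nat_lit 2, nat_lit 1),
  (nat_lit 23251623, nat_lit 5462, nat_lit 2, nat_lit 1),
  (nat_lit 23257033, nat_lit 5410, nat_lit 2, nat_lit 1),
  (nat_lit 23262394, nat_lit 5361, nat_lit 2, nat_lit 1),
  (nat_lit 23267710, nat_lit 5316, nat_lit 2, nat_lit 1),
  (nat_lit 23272983, nat_lit 5273, nat_lit 2, nat_lit 1),
  (nat_lit 23278218, nat_lit 5235, nat_lit 2, nat_lit 1),
  (nat_lit 23283415, nat_lit 5197, nat_lit 2, nat_lit 1),
  (nat_lit 23288578, nat_lit 5163, nat_lit 2, nat_lit 1)]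

/-- Test points. -/
def upS12_10 : List (ℕ × ℕ × ℕ × ℕ) := [
  (nat_lit 23293708, nat_lit 5130, nat_lit 2, nat_lit 1),
  (nat_lit 23298807, nat_lit 5099, nat_lit 2, nat_lit 1),
  (nat_lit 23303877, nat_lit 5070, nat_lit 2, nat_lit 1),
  (nat_lit 23308920, nat_lit 5043, nat_lit 2, nat_lit 1),
  (nat_lit 23313937, nat_lit 5017, nat_lit 2, nat_lit 1),
  (nat_lit 23318929, nat_lit 4992, nat_lit 2, nat_lit 1),
  (nat_lit 23323899, nat_lit 4970, nat_lit 2, nat_lit 1),
  (nat_lit 23328847, nat_lit 4948, nat_lit 2, nat_lit 1),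
  (nat_lit 23333774, nat_lit 4927, nat_lit 2, nat_lit 1),
  (nat_lit 23338681, nat_lit 4907, nat_lit 2, nat_lit 1),
  (nat_lit 23343570, nat_lit 4889, nat_lit 2, nat_lit 1),
  (nat_lit 23348442, nat_lit 4872, nat_lit 2, nat_lit 1),
  (nat_lit 23353297, nat_lit 4855, nat_lit 2, nat_lit 1),
  (nat_lit 23358137, nat_lit 4840, nat_lit 2, nat_lit 1),
  (nat_lit 23362961, nat_lit 4824, nat_lit 2, nat_lit 1),
  (nat_lit 23367772, nat_lit 4811, nat_lit 2, nat_lit 1),
  (nat_lit 23372570, nat_lit 4798, nat_lit 2, nat_lit 1),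
  (nat_lit 23377355, nat_lit 4785, nat_lit 2, nat_lit 1),
  (nat_lit 23382130, nat_lit 4775, nat_lit 2, nat_lit 1),
  (nat_lit 23386894, nat_lit 4764, nat_lit 2, nat_lit 1),
  (nat_lit 23391648, nat_lit 4754, nat_lit 2, nat_lit 1),
  (nat_lit 23396393, nat_lit 4745, nat_lit 2, nat_lit 1),
  (nat_lit 23401130, nat_lit 4737, nat_lit 2, nat_lit 1),
  (nat_lit 23405860, nat_lit 4730, nat_lit 2, nat_lit 1),
  (nat_lit 23410583, nat_lit 4723, nat_lit 2, nat_lit 1),
  (nat_lit 23415300, nat_lit 4717, nat_lit 2, nat_lit 1),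
  (nat_lit 23420012, nat_lit 4712, nat_lit 2, nat_lit 1),
  (nat_lit 23424719, nat_lit 4707, nat_lit 2, nat_lit 1),
  (nat_lit 23429424, nat_lit 4705, nat_lit 2, nat_lit 1),
  (nat_lit 23434126, nat_lit 4702, nat_lit 2, nat_lit 1),
  (nat_lit 23438827, nat_lit 4701, nat_lit 2, nat_lit 1),
  (nat_lit 23443528, nat_lit 4701, nat_lit 2, nat_lit 1),
  (nat_lit 23448229, nat_lit 4703, nat_lit 2, nat_lit 1),
  (nat_lit 23452932, nat_lit 4706, nat_lit 2, nat_lit 1),
  (nat_lit 23457638, nat_lit 4711, nat_lit 2, nat_lit 1),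
  (nat_lit 23462349, nat_lit 4717, nat_lit 2, nat_lit 1),
  (nat_lit 23467066, nat_lit 4724, nat_lit 2, nat_lit 1),
  (nat_lit 23471790, nat_lit 4733, nat_lit 2, nat_lit 1),
  (nat_lit 23476523, nat_lit 4745, nat_lit 2, nat_lit 1),
  (nat_lit 23481268, nat_lit 4758, nat_lit 2, nat_lit 1),
  (nat_lit 23486026, nat_lit 4774, nat_lit 2, nat_lit 1),
  (nat_lit 23490800, nat_lit 4793, nat_lit 2, nat_lit 1),
  (nat_lit 23495593, nat_lit 4814, nat_lit 2, nat_lit 1),
  (nat_lit 23500407, nat_lit 4841, nat_lit 2, nat_lit 1),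
  (nat_lit 23505248, nat_lit 4872, nat_lit 2, nat_lit 1),
  (nat_lit 23510120, nat_lit 4907, nat_lit 2, nat_lit 1)]

/-- Test points. -/
def upS12_11 : List (ℕ × ℕ × ℕ × ℕ) := [
  (nat_lit 23515027, nat_lit 4950, nat_lit 2, nat_lit 1),
  (nat_lit 23519977, nat_lit 5000, nat_lit 2, nat_lit 1),
  (nat_lit 23524977, nat_lit 5062, nat_lit 2, nat_lit 1),
  (nat_lit 23530039, nat_lit 5135, nat_lit 2, nat_lit 1),
  (nat_lit 23535174, nat_lit 5226, nat_lit 2, nat_lit 1),
  (nat_lit 23540400, nat_lit 5341, nat_lit 2, nat_lit 1),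
  (nat_lit 23545741, nat_lit 5488, nat_lit 2, nat_lit 1),
  (nat_lit 23551229, nat_lit 5687, nat_lit 2, nat_lit 1),
  (nat_lit 23556916, nat_lit 5967, nat_lit 2, nat_lit 1),
  (nat_lit 23562883, nat_lit 6399, nat_lit 2, nat_lit 1),
  (nat_lit 23569282, nat_lit 7180, nat_lit 2, nat_lit 1),
  (nat_lit 23576462, nat_lit 9319, nat_lit 2, nat_lit 1),
  (nat_lit 23585781, nat_lit 65993, nat_lit 2, nat_lit 1),
  (nat_lit 23651774, nat_lit 72507, nat_lit 4574, nat_lit 0),
  (nat_lit 23724281, nat_lit 72507, nat_lit 3, nat_lit 1),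
  (nat_lit 23740733, nat_lit 146816, nat_lit 3, nat_lit 0),
  (nat_lit 23887549, nat_lit 146816, nat_lit 2, nat_lit 1),
  (nat_lit 23898471, nat_lit 10922, nat_lit 2, nat_lit 1),
  (nat_lit 23907250, nat_lit 8779, nat_lit 2, nat_lit 1),
  (nat_lit 23914892, nat_lit 7642, nat_lit 2, nat_lit 1),
  (nat_lit 23922490, nat_lit 8863, nat_lit 2, nat_lit 1),
  (nat_lit 23931353, nat_lit 32122, nat_lit 2, nat_lit 1),
  (nat_lit 23963475, nat_lit 32122, nat_lit 1306, nat_lit 0),
  (nat_lit 23991740, nat_lit 28265, nat_lit 3, nat_lit 1),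
  (nat_lit 23999793, nat_lit 8053, nat_lit 3, nat_lit 1),
  (nat_lit 24006344, nat_lit 6551, nat_lit 3, nat_lit 1),
  (nat_lit 24011920, nat_lit 5576, nat_lit 3, nat_lit 1),
  (nat_lit 24017103, nat_lit 5183, nat_lit 3, nat_lit 1),
  (nat_lit 24022059, nat_lit 4956, nat_lit 3, nat_lit 1),
  (nat_lit 24026868, nat_lit 4809, nat_lit 3, nat_lit 1),
  (nat_lit 24031572, nat_lit 4704, nat_lit 3, nat_lit 1),
  (nat_lit 24036197, nat_lit 4625, nat_lit 3, nat_lit 1),
  (nat_lit 24040761, nat_lit 4564, nat_lit 3, nat_lit 1),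
  (nat_lit 24045276, nat_lit 4515, nat_lit 3, nat_lit 1),
  (nat_lit 24049752, nat_lit 4476, nat_lit 3, nat_lit 1),
  (nat_lit 24054197, nat_lit 4445, nat_lit 3, nat_lit 1),
  (nat_lit 24058615, nat_lit 4418, nat_lit 3, nat_lit 1),
  (nat_lit 24063011, nat_lit 4396, nat_lit 3, nat_lit 1),
  (nat_lit 24067389, nat_lit 4378, nat_lit 3, nat_lit 1),
  (nat_lit 24071752, nat_lit 4363, nat_lit 3, nat_lit 1),
  (nat_lit 24076102, nat_lit 4350, nat_lit 3, nat_lit 1),
  (nat_lit 24080442, nat_lit 4340, nat_lit 3, nat_lit 1),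
  (nat_lit 24084773, nat_lit 4331, nat_lit 3, nat_lit 1),
  (nat_lit 24089098, nat_lit 4325, nat_lit 3, nat_lit 1),
  (nat_lit 24093417, nat_lit 4319, nat_lit 3, nat_lit 1),
  (nat_lit 24097732, nat_lit 4315, nat_lit 3, nat_lit 1)]

/-- Test points. -/
def upS12_12 : List (ℕ × ℕ × ℕ × ℕ) := [
  (nat_lit 24102046, nat_lit 4314, nat_lit 3, nat_lit 1),
  (nat_lit 24106357, nat_lit 4312, nat_lit 3, nat_lit 1),
  (nat_lit 24110669, nat_lit 4313, nat_lit 3, nat_lit 1),
  (nat_lit 24114982, nat_lit 4315, nat_lit 3, nat_lit 1),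
  (nat_lit 24119297, nat_lit 4318, nat_lit 3, nat_lit 1),
  (nat_lit 24123615, nat_lit 4322, nat_lit 3, nat_lit 1),
  (nat_lit 24127937, nat_lit 4328, nat_lit 3, nat_lit 1),
  (nat_lit 24132265, nat_lit 4334, nat_lit 3, nat_lit 1),
  (nat_lit 24136599, nat_lit 4341, nat_lit 3, nat_lit 1),
  (nat_lit 24140940, nat_lit 4350, nat_lit 3, nat_lit 1),
  (nat_lit 24145290, nat_lit 4361, nat_lit 3, nat_lit 1),
  (nat_lit 24149651, nat_lit 4372, nat_lit 3, nat_lit 1),
  (nat_lit 24154023, nat_lit 4387, nat_lit 3, nat_lit 1),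
  (nat_lit 24158410, nat_lit 4403, nat_lit 3, nat_lit 1),
  (nat_lit 24162813, nat_lit 4422, nat_lit 3, nat_lit 1),
  (nat_lit 24167235, nat_lit 4447, nat_lit 3, nat_lit 1),
  (nat_lit 24171682, nat_lit 4479, nat_lit 3, nat_lit 1),
  (nat_lit 24176161, nat_lit 4524, nat_lit 3, nat_lit 1),
  (nat_lit 24180685, nat_lit 4595, nat_lit 3, nat_lit 1),
  (nat_lit 24185280, nat_lit 4729, nat_lit 3, nat_lit 1),
  (nat_lit 24190009, nat_lit 5116, nat_lit 3, nat_lit 1),
  (nat_lit 24195125, nat_lit 5345, nat_lit 3, nat_lit 1),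
  (nat_lit 24200470, nat_lit 13098, nat_lit 3, nat_lit 0),
  (nat_lit 24213568, nat_lit 13098, nat_lit 2, nat_lit 1),
  (nat_lit 24219065, nat_lit 5497, nat_lit 2, nat_lit 1),
  (nat_lit 24224022, nat_lit 4957, nat_lit 2, nat_lit 1),
  (nat_lit 24228848, nat_lit 4826, nat_lit 2, nat_lit 1),
  (nat_lit 24233632, nat_lit 4784, nat_lit 2, nat_lit 1),
  (nat_lit 24238408, nat_lit 4784, nat_lit 2, nat_lit 1),
  (nat_lit 24243192, nat_lit 4802, nat_lit 2, nat_lit 1),
  (nat_lit 24247994, nat_lit 4829, nat_lit 2, nat_lit 1),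
  (nat_lit 24252823, nat_lit 4861, nat_lit 2, nat_lit 1),
  (nat_lit 24257684, nat_lit 4897, nat_lit 2, nat_lit 1),
  (nat_lit 24262581, nat_lit 4938, nat_lit 2, nat_lit 1),
  (nat_lit 24267519, nat_lit 4984, nat_lit 2, nat_lit 1),
  (nat_lit 24272503, nat_lit 5034, nat_lit 2, nat_lit 1),
  (nat_lit 24277537, nat_lit 5089, nat_lit 2, nat_lit 1),
  (nat_lit 24282626, nat_lit 5151, nat_lit 2, nat_lit 1),
  (nat_lit 24287777, nat_lit 5218, nat_lit 2, nat_lit 1),
  (nat_lit 24292995, nat_lit 5291, nat_lit 2, nat_lit 1),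
  (nat_lit 24298286, nat_lit 5374, nat_lit 2, nat_lit 1),
  (nat_lit 24303660, nat_lit 5466, nat_lit 2, nat_lit 1),
  (nat_lit 24309126, nat_lit 5567, nat_lit 2, nat_lit 1),
  (nat_lit 24314693, nat_lit 5683, nat_lit 2, nat_lit 1),
  (nat_lit 24320376, nat_lit 5813, nat_lit 2, nat_lit 1),
  (nat_lit 24326189, nat_lit 5965, nat_lit 2, nat_lit 1)]

/-- Test points. -/
def upS12_13 : List (ℕ × ℕ × ℕ × ℕ) := [
  (nat_lit 24332154, nat_lit 6140, nat_lit 2, nat_lit 1),
  (nat_lit 24338294, nat_lit 6347, nat_lit 2, nat_lit 1),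
  (nat_lit 24344641, nat_lit 6599, nat_lit 2, nat_lit 1),
  (nat_lit 24351240, nat_lit 6909, nat_lit 2, nat_lit 1),
  (nat_lit 24358149, nat_lit 7310, nat_lit 2, nat_lit 1),
  (nat_lit 24365459, nat_lit 7855, nat_lit 2, nat_lit 1),
  (nat_lit 24373314, nat_lit 8657, nat_lit 2, nat_lit 1),
  (nat_lit 24381971, nat_lit 10047, nat_lit 2, nat_lit 1),
  (nat_lit 24392018, nat_lit 13665, nat_lit 2, nat_lit 1),
  (nat_lit 24405683, nat_lit 594317, nat_lit 2, nat_lit 0)]

end Up

end IntCheb
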