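import Pool.Agent.Lib.MP_6205a3_nt.B66.UpData

/-!
# MP_6205a3_nt : data of level 13 of the upper bound certificate
-/

open Finset Polynomial

set_option autoImplicit false
set_option maxRecDepth 100000

namespace IntCheb

namespace Up

open Cert

/-- Zeros (times `upD`). -/
def upY13 : List ℕ := [
  nat_lit 10917859, nat_lit 10971719, nat_lit 11015456, nat_lit 11054092, nat_lit 11089486,
  nat_lit 11122581, nat_lit 11153941, nat_lit 11183936, nat_lit 11212833, nat_lit 11240829,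
  nat_lit 11268080, nat_lit 11294718, nat_lit 11320855, nat_lit 11346595, nat_lit 11372040,
  nat_lit 11397296, nat_lit 11422491, nat_lit 11447788, nat_lit 11473440, nat_lit 11499923,
  nat_lit 11528546, nat_lit 11624591, nat_lit 12167034, nat_lit 12193847, nat_lit 12216591,
  nat_lit 12237383, nat_lit 12256996, nat_lit 12275817, nat_lit 12294082, nat_lit 12311949,
  nat_lit 12329543, nat_lit 12346971, nat_lit 12364336, nat_lit 12381761, nat_lit 12399406,
  nat_lit 12417530, nat_lit 12436637, nat_lit 12458131, nat_lit 12553251, nat_lit 12673012,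
  nat_lit 12692515, nat_lit 12709537, nat_lit 12725402, nat_lit 12740574, nat_lit 12755276,
  nat_lit 12769636, nat_lit 12783734, nat_lit 12797621, nat_lit 12811337, nat_lit 12824909,
  nat_lit 12838357, nat_lit 12851699, nat_lit 12864946, nat_lit 12878110, nat_lit 12891198,
  nat_lit 12904220, nat_lit 12917180, nat_lit 12930083, nat_lit 12942936, nat_lit 12955741,
  nat_lit 12968503, nat_lit 12981224, nat_lit 12993907, nat_lit 13006557, nat_lit 13019174,
  nat_lit 13031761, nat_lit 13044321, nat_lit 13056855, nat_lit 13069366, nat_lit 13081856,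
  nat_lit 13094326, nat_lit 13106779, nat_lit 13119216, nat_lit 13131640, nat_lit 13144052,
  nat_lit 13156453, nat_lit 13168847, nat_lit 13181235, nat_lit 13193619, nat_lit 13206001,
  nat_lit 13218384, nat_lit 13230770, nat_lit 13243162, nat_lit 13255562, nat_lit 13267973,
  nat_lit 13280399, nat_lit 13292844, nat_lit 13305310, nat_lit 13317803, nat_lit 13330327,
  nat_lit 13342888, nat_lit 13355492, nat_lit 13368146, nat_lit 13380857, nat_lit 13393636,
  nat_lit 13406494, nat_lit 13419443, nat_lit 13432500, nat_lit 13445684, nat_lit 13459018,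
  nat_lit 13472535, nat_lit 13486273, nat_lit 13500285, nat_lit 13514648, nat_lit 13529468,
  nat_lit 13544915, nat_lit 13561284, nat_lit 13579165, nat_lit 13600204, nat_lit 13974095,
  nat_lit 14012907, nat_lit 14033358, nat_lit 14051211, nat_lit 14067793, nat_lit 14083604,
  nat_lit 14098898, nat_lit 14113830, nat_lit 14128500, nat_lit 14142979, nat_lit 14157323,
  nat_lit 14171575, nat_lit 14185769, nat_lit 14199937, nat_lit 14214107, nat_lit 14228303,
  nat_lit 14242553, nat_lit 14256881, nat_lit 14271313, nat_lit 14285878, nat_lit 14300608,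
  nat_lit 14315538, nat_lit 14330713, nat_lit 14346183, nat_lit 14362015, nat_lit 14378293,
  nat_lit 14395133, nat_lit 14412699, nat_lit 14431244, nat_lit 14451196, nat_lit 14473407,
  nat_lit 14500199, nat_lit 15676969, nat_lit 15707329, nat_lit 15728142, nat_lit 15746262,
  nat_lit 15762864, nat_lit 15778449, nat_lit 15793292, nat_lit 15807568, nat_lit 15821394,
  nat_lit 15834858, nat_lit 15848029, nat_lit 15860966, nat_lit 15873721, nat_lit 15886349,
  nat_lit 15898919, nat_lit 15911537, nat_lit 15924447, nat_lit 15939022, nat_lit 15990004,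
  nat_lit 16004540, nat_lit 16019781, nat_lit 16045175, nat_lit 16178667, nat_lit 16192635,
  nat_lit 16204848, nat_lit 16216246, nat_lit 16227157, nat_lit 16237740, nat_lit 16248084,
  nat_lit 16258247, nat_lit 16268265, nat_lit 16278165, nat_lit 16287966, nat_lit 16297684,
  nat_lit 16307330, nat_lit 16316912, nat_lit 16326439, nat_lit 16335917, nat_lit 16345351,
  nat_lit 16354744, nat_lit 16364102, nat_lit 16373428, nat_lit 16382723, nat_lit 16391993,
  nat_lit 16401237, nat_lit 16410460, nat_lit 16419664, nat_lit 16428850, nat_lit 16438020,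
  nat_lit 16447177, nat_lit 16456323, nat_lit 16465460, nat_lit 16474590, nat_lit 16483716,
  nat_lit 16492842, nat_lit 16501970, nat_lit 16511104, nat_lit 16520249, nat_lit 16529411,
  nat_lit 16538597, nat_lit 16547817, nat_lit 16557084, nat_lit 16566417, nat_lit 16575844,
  nat_lit 16585411, nat_lit 16595195, nat_lit 16605359, nat_lit 16616339, nat_lit 16631747,
  nat_lit 16708823, nat_lit 16720404, nat_lit 16730852, nat_lit 16740818, nat_lit 16750523,
  nat_lit 16760070, nat_lit 16769516, nat_lit 16778899, nat_lit 16788243, nat_lit 16797565,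
  nat_lit 16806880, nat_lit 16816199, nat_lit 16825535, nat_lit 16834896, nat_lit 16844293,
  nat_lit 16853738, nat_lit 16863242, nat_lit 16872818, nat_lit 16882484, nat_lit 16892259,
  nat_lit 16902169, nat_lit 16912247, nat_lit 16922538, nat_lit 16933106, nat_lit 16944049,
  nat_lit 16955532, nat_lit 16967872, nat_lit 16981884, nat_lit 17004705, nat_lit 17127027,
  nat_lit 17265895, nat_lit 17280930, nat_lit 17293726, nat_lit 17305449, nat_lit 17316520,
  nat_lit 17327145, nat_lit 17337445, nat_lit 17347497, nat_lit 17357352, nat_lit 17367049,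
  nat_lit 17376615, nat_lit 17386072, nat_lit 17395438, nat_lit 17404725, nat_lit 17413945,
  nat_lit 17423107, nat_lit 17432219, nat_lit 17441288, nat_lit 17450319, nat_lit 17459318,
  nat_lit 17468289, nat_lit 17477236, nat_lit 17486163, nat_lit 17495073, nat_lit 17503968,
  nat_lit 17512853, nat_lit 17521729, nat_lit 17530599, nat_lit 17539466, nat_lit 17548331,
  nat_lit 17557198, nat_lit 17566068, nat_lit 17574944, nat_lit 17583828, nat_lit 17592722,
  nat_lit 17601630, nat_lit 17610553, nat_lit 17619495, nat_lit 17628457, nat_lit 17637445,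
  nat_lit 17646461, nat_lit 17655508, nat_lit 17664592, nat_lit 17673716, nat_lit 17682887,
  nat_lit 17692111, nat_lit 17701394, nat_lit 17710746, nat_lit 17720176, nat_lit 17729695,
  nat_lit 17739320, nat_lit 17749067, nat_lit 17758960, nat_lit 17769029, nat_lit 17779314,
  nat_lit 17789870, nat_lit 17800778, nat_lit 17812166, nat_lit 17824251, nat_lit 17837477,
  nat_lit 17853069, nat_lit 18132573, nat_lit 18165891, nat_lit 18183191, nat_lit 18228507,
  nat_lit 18246486, nat_lit 18258767, nat_lit 18270270, nat_lit 18281417, nat_lit 18292355,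
  nat_lit 18303157, nat_lit 18313865, nat_lit 18324508, nat_lit 18335108, nat_lit 18345682,
  nat_lit 18356242, nat_lit 18366800, nat_lit 18377365, nat_lit 18387947, nat_lit 18398554,
  nat_lit 18409193, nat_lit 18419872, nat_lit 18430599, nat_lit 18441380, nat_lit 18452224,
  nat_lit 18463138, nat_lit 18474129, nat_lit 18485207, nat_lit 18496381, nat_lit 18507660,
  nat_lit 18519056, nat_lit 18530580, nat_lit 18542245, nat_lit 18554067, nat_lit 18566062,
  nat_lit 18578251, nat_lit 18590656, nat_lit 18603305, nat_lit 18616230, nat_lit 18629472,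
  nat_lit 18643080, nat_lit 18657119, nat_lit 18671672, nat_lit 18686855, nat_lit 18702833,
  nat_lit 18719859, nat_lit 18738360, nat_lit 18759188, nat_lit 18784650, nat_lit 20298282,
  nat_lit 21095137, nat_lit 21115736, nat_lit 21132526, nat_lit 21147398, nat_lit 21161049,
  nat_lit 21173831, nat_lit 21185953, nat_lit 21197552, nat_lit 21208722, nat_lit 21219535,
  nat_lit 21230045, nat_lit 21240294, nat_lit 21250318, nat_lit 21260146, nat_lit 21269803,
  nat_lit 21279313, nat_lit 21288696, nat_lit 21297972, nat_lit 21307161, nat_lit 21316285,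
  nat_lit 21325366, nat_lit 21334433, nat_lit 21343522, nat_lit 21352682, nat_lit 21361988,
  nat_lit 21371568, nat_lit 21381685, nat_lit 21393079, nat_lit 21452159, nat_lit 21503048,
  nat_lit 21515265, nat_lit 21524529, nat_lit 21532980, nat_lit 21540991, nat_lit 21548717,
  nat_lit 21556240, nat_lit 21563608, nat_lit 21570854, nat_lit 21577999, nat_lit 21585060,
  nat_lit 21592049, nat_lit 21598975, nat_lit 21605847, nat_lit 21612669, nat_lit 21619448,
  nat_lit 21626187, nat_lit 21632890, nat_lit 21639560, nat_lit 21646200, nat_lit 21652812,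
  nat_lit 21659400, nat_lit 21665964, nat_lit 21672506, nat_lit 21679029, nat_lit 21685534,
  nat_lit 21692023, nat_lit 21698498, nat_lit 21704959, nat_lit 21711408, nat_lit 21717848,
  nat_lit 21724278, nat_lit 21730702, nat_lit 21737121, nat_lit 21743536, nat_lit 21749949,
  nat_lit 21756362, nat_lit 21762777, nat_lit 21769197, nat_lit 21775624, nat_lit 21782060,
  nat_lit 21788509, nat_lit 21794974, nat_lit 21801460, nat_lit 21807970, nat_lit 21814510,
  nat_lit 21821086, nat_lit 21827706, nat_lit 21834380, nat_lit 21841119, nat_lit 21847936,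
  nat_lit 21854853, nat_lit 21861893, nat_lit 21869093, nat_lit 21876504, nat_lit 21884207,
  nat_lit 21892344, nat_lit 21901199, nat_lit 21911562, nat_lit 21958375, nat_lit 22097680,
  nat_lit 22107793, nat_lit 22116399, nat_lit 22124284, nat_lit 22131730, nat_lit 22138877,
  nat_lit 22145805, nat_lit 22152567, nat_lit 22159199, nat_lit 22165725, nat_lit 22172166,
  nat_lit 22178536, nat_lit 22184848, nat_lit 22191111, nat_lit 22197334, nat_lit 22203524,
  nat_lit 22209688, nat_lit 22215832, nat_lit 22221963, nat_lit 22228089, nat_lit 22234218,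
  nat_lit 22240363, nat_lit 22246542, nat_lit 22252790, nat_lit 22259185, nat_lit 22265972,
  nat_lit 22285316, nat_lit 22296894, nat_lit 22303696, nat_lit 22310125, nat_lit 22316420,
  nat_lit 22322655, nat_lit 22328866, nat_lit 22335070, nat_lit 22341279, nat_lit 22347501,
  nat_lit 22353743, nat_lit 22360011, nat_lit 22366311, nat_lit 22372647, nat_lit 22379025,
  nat_lit 22385451, nat_lit 22391930, nat_lit 22398471, nat_lit 22405081, nat_lit 22411768,
  nat_lit 22418544, nat_lit 22425420, nat_lit 22432411, nat_lit 22439537, nat_lit 22446818,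
  nat_lit 22454286, nat_lit 22461977, nat_lit 22469945, nat_lit 22478266, nat_lit 22487056,
  nat_lit 22496514, nat_lit 22507034, nat_lit 22519692, nat_lit 22571866, nat_lit 23099965,
  nat_lit 23111360, nat_lit 23120742, nat_lit 23129118, nat_lit 23136858, nat_lit 23144148,
  nat_lit 23151097, nat_lit 23157775, nat_lit 23164233, nat_lit 23170505, nat_lit 23176620,
  nat_lit 23182598, nat_lit 23188456, nat_lit 23194209, nat_lit 23199866, nat_lit 23205438,
  nat_lit 23210932, nat_lit 23216356, nat_lit 23221715, nat_lit 23227015, nat_lit 23232260,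
  nat_lit 23237453, nat_lit 23242600, nat_lit 23247702, nat_lit 23252763, nat_lit 23257786,
  nat_lit 23262772, nat_lit 23267724, nat_lit 23272643, nat_lit 23277533, nat_lit 23282393,
  nat_lit 23287226, nat_lit 23292033, nat_lit 23296816, nat_lit 23301576, nat_lit 23306313,
  nat_lit 23311029, nat_lit 23315725, nat_lit 23320402, nat_lit 23325061, nat_lit 23329703,
  nat_lit 23334327, nat_lit 23338937, nat_lit 23343531, nat_lit 23348111, nat_lit 23352677,
  nat_lit 23357230, nat_lit 23361771, nat_lit 23366301, nat_lit 23370819, nat_lit 23375327,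
  nat_lit 23379824, nat_lit 23384313, nat_lit 23388793, nat_lit 23393264, nat_lit 23397728,
  nat_lit 23402185, nat_lit 23406635, nat_lit 23411079, nat_lit 23415518, nat_lit 23419952,
  nat_lit 23424382, nat_lit 23428809, nat_lit 23433232, nat_lit 23437654, nat_lit 23442074,
  nat_lit 23446493, nat_lit 23450912, nat_lit 23455332, nat_lit 23459754, nat_lit 23464178,
  nat_lit 23468606, nat_lit 23473039, nat_lit 23477479, nat_lit 23481926, nat_lit 23486382,
  nat_lit 23490849, nat_lit 23495328, nat_lit 23499822, nat_lit 23504334, nat_lit 23508867,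
  nat_lit 23513423, nat_lit 23518006, nat_lit 23522623, nat_lit 23527277, nat_lit 23531977,
  nat_lit 23536731, nat_lit 23541551, nat_lit 23546452, nat_lit 23551454, nat_lit 23556587,
  nat_lit 23561893, nat_lit 23567444, nat_lit 23573372, nat_lit 23579992, nat_lit 23589091,
  nat_lit 23726065, nat_lit 23736517, nat_lit 23749854, nat_lit 23891149, nat_lit 23898812,
  nat_lit 23905444, nat_lit 23911669, nat_lit 23917767, nat_lit 23923991, nat_lit 23930827,
  nat_lit 23973673, nat_lit 23996438, nat_lit 24002327, nat_lit 24007478, nat_lit 24012286,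
  nat_lit 24016892, nat_lit 24021363, nat_lit 24025736, nat_lit 24030037, nat_lit 24034280,
  nat_lit 24038478, nat_lit 24042640, nat_lit 24046770, nat_lit 24050875, nat_lit 24054959,
  nat_lit 24059024, nat_lit 24063073, nat_lit 24067109, nat_lit 24071134, nat_lit 24075149,
  nat_lit 24079155, nat_lit 24083155, nat_lit 24087148, nat_lit 24091137, nat_lit 24095122,
  nat_lit 24099104, nat_lit 24103084, nat_lit 24107062, nat_lit 24111040, nat_lit 24115019,
  nat_lit 24118998, nat_lit 24122979, nat_lit 24126962, nat_lit 24130948, nat_lit 24134938,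
  nat_lit 24138934, nat_lit 24142935, nat_lit 24146943, nat_lit 24150959, nat_lit 24154984,
  nat_lit 24159021, nat_lit 24163073, nat_lit 24167141, nat_lit 24171232, nat_lit 24175352,
  nat_lit 24179514, nat_lit 24183741, nat_lit 24188086, nat_lit 24192707, nat_lit 24199567,
  nat_lit 24206001, nat_lit 24217200, nat_lit 24221985, nat_lit 24226477, nat_lit 24230863,
  nat_lit 24235203, nat_lit 24239524, nat_lit 24243840, nat_lit 24248159, nat_lit 24252488,
  nat_lit 24256830, nat_lit 24261190, nat_lit 24265569, nat_lit 24269971, nat_lit 24274398,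
  nat_lit 24278853, nat_lit 24283338, nat_lit 24287855, nat_lit 24292407, nat_lit 24296998,
  nat_lit 24301630, nat_lit 24306306, nat_lit 24311031, nat_lit 24315808, nat_lit 24320642,
  nat_lit 24325539, nat_lit 24330504, nat_lit 24335544, nat_lit 24340667, nat_lit 24345883,
  nat_lit 24351203, nat_lit 24356641, nat_lit 24362212, nat_lit 24367938, nat_lit 24373846,
  nat_lit 24379970, nat_lit 24386359, nat_lit 24393082, nat_lit 24400245, nat_lit 24408027,
  nat_lit 24416785, nat_lit 24427489]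

/-- Numerator of the bound. -/
def upC13 : ℕ := Nat.mul (nat_lit 1170326809110457527) (Nat.pow (nat_lit 2) (nat_lit 211823))

/-- Test points. -/
def upS13_0 : List (ℕ × ℕ × ℕ × ℕ) := [
  (nat_lit 10881134, nat_lit 10881134, nat_lit 2, nat_lit 1),
  (nat_lit 10946681, nat_lit 65547, nat_lit 2, nat_lit 1),
  (nat_lit 10994410, nat_lit 47729, nat_lit 2, nat_lit 1),
  (nat_lit 11035263, nat_lit 40853, nat_lit 2, nat_lit 1),
  (nat_lit 11072123, nat_lit 36860, nat_lit 2, nat_lit 1),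
  (nat_lit 11106280, nat_lit 34157, nat_lit 2, nat_lit 1),
  (nat_lit 11138451, nat_lit 32171, nat_lit 2, nat_lit 1),
  (nat_lit 11169091, nat_lit 30640, nat_lit 2, nat_lit 1),
  (nat_lit 11198508, nat_lit 29417, nat_lit 2, nat_lit 1),
  (nat_lit 11226933, nat_lit 28425, nat_lit 2, nat_lit 1),
  (nat_lit 11254539, nat_lit 27606, nat_lit 2, nat_lit 1),
  (nat_lit 11281468, nat_lit 26929, nat_lit 2, nat_lit 1),
  (nat_lit 11307843, nat_lit 26375, nat_lit 2, nat_lit 1),
  (nat_lit 11333768, nat_lit 25925, nat_lit 2, nat_lit 1),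
  (nat_lit 11359348, nat_lit 25580, nat_lit 2, nat_lit 1),
  (nat_lit 11384684, nat_lit 25336, nat_lit 2, nat_lit 1),
  (nat_lit 11409892, nat_lit 25222, nat_lit 2, nat_lit 1),
  (nat_lit 11435114, nat_lit 25434, nat_lit 2, nat_lit 1),
  (nat_lit 11460548, nat_lit 25982, nat_lit 2, nat_lit 1),
  (nat_lit 11486530, nat_lit 27270, nat_lit 2, nat_lit 1),
  (nat_lit 11513800, nat_lit 31494, nat_lit 2, nat_lit 1),
  (nat_lit 11545294, nat_lit 71915, nat_lit 2, nat_lit 0),
  (nat_lit 11617209, nat_lit 71915, nat_lit 3, nat_lit 1),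
  (nat_lit 11662281, nat_lit 487252, nat_lit 3, nat_lit 0),
  (nat_lit 12149533, nat_lit 487252, nat_lit 2, nat_lit 1),
  (nat_lit 12181216, nat_lit 31683, nat_lit 2, nat_lit 1),
  (nat_lit 12205540, nat_lit 24324, nat_lit 2, nat_lit 1),
  (nat_lit 12227169, nat_lit 21629, nat_lit 2, nat_lit 1),
  (nat_lit 12247308, nat_lit 20139, nat_lit 2, nat_lit 1),
  (nat_lit 12266488, nat_lit 19180, nat_lit 2, nat_lit 1),
  (nat_lit 12285008, nat_lit 18520, nat_lit 2, nat_lit 1),
  (nat_lit 12303057, nat_lit 18049, nat_lit 2, nat_lit 1),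
  (nat_lit 12320773, nat_lit 17716, nat_lit 2, nat_lit 1),
  (nat_lit 12338271, nat_lit 17498, nat_lit 2, nat_lit 1),
  (nat_lit 12355654, nat_lit 17383, nat_lit 2, nat_lit 1),
  (nat_lit 12373032, nat_lit 17511, nat_lit 2, nat_lit 1),
  (nat_lit 12390543, nat_lit 17843, nat_lit 2, nat_lit 1),
  (nat_lit 12408386, nat_lit 18524, nat_lit 2, nat_lit 1),
  (nat_lit 12426910, nat_lit 19997, nat_lit 2, nat_lit 1)]

/-- Test points. -/
def upS13_1 : List (ℕ × ℕ × ℕ × ℕ) := [
  (nat_lit 12446907, nat_lit 24601, nat_lit 2, nat_lit 1),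
  (nat_lit 12471508, nat_lit 82526, nat_lit 2, nat_lit 1),
  (nat_lit 12554034, nat_lit 106657, nat_lit 6, nat_lit 0),
  (nat_lit 12660691, nat_lit 106657, nat_lit 3, nat_lit 1),
  (nat_lit 12683242, nat_lit 22551, nat_lit 3, nat_lit 1),
  (nat_lit 12701218, nat_lit 17976, nat_lit 3, nat_lit 1),
  (nat_lit 12717577, nat_lit 16359, nat_lit 3, nat_lit 1),
  (nat_lit 12733057, nat_lit 15480, nat_lit 3, nat_lit 1),
  (nat_lit 12747974, nat_lit 14917, nat_lit 3, nat_lit 1),
  (nat_lit 12762493, nat_lit 14519, nat_lit 3, nat_lit 1),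
  (nat_lit 12776714, nat_lit 14221, nat_lit 3, nat_lit 1),
  (nat_lit 12790701, nat_lit 13987, nat_lit 3, nat_lit 1),
  (nat_lit 12804499, nat_lit 13798, nat_lit 3, nat_lit 1),
  (nat_lit 12818140, nat_lit 13641, nat_lit 3, nat_lit 1),
  (nat_lit 12831647, nat_lit 13507, nat_lit 3, nat_lit 1),
  (nat_lit 12845041, nat_lit 13394, nat_lit 3, nat_lit 1),
  (nat_lit 12858334, nat_lit 13293, nat_lit 3, nat_lit 1),
  (nat_lit 12871538, nat_lit 13204, nat_lit 3, nat_lit 1),
  (nat_lit 12884663, nat_lit 13125, nat_lit 3, nat_lit 1),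
  (nat_lit 12897717, nat_lit 13054, nat_lit 3, nat_lit 1),
  (nat_lit 12910707, nat_lit 12990, nat_lit 3, nat_lit 1),
  (nat_lit 12923638, nat_lit 12931, nat_lit 3, nat_lit 1),
  (nat_lit 12936516, nat_lit 12878, nat_lit 3, nat_lit 1),
  (nat_lit 12949344, nat_lit 12828, nat_lit 3, nat_lit 1),
  (nat_lit 12962127, nat_lit 12783, nat_lit 3, nat_lit 1),
  (nat_lit 12974868, nat_lit 12741, nat_lit 3, nat_lit 1),
  (nat_lit 12987570, nat_lit 12702, nat_lit 3, nat_lit 1),
  (nat_lit 13000236, nat_lit 12666, nat_lit 3, nat_lit 1),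
  (nat_lit 13012869, nat_lit 12633, nat_lit 3, nat_lit 1),
  (nat_lit 13025471, nat_lit 12602, nat_lit 3, nat_lit 1),
  (nat_lit 13038044, nat_lit 12573, nat_lit 3, nat_lit 1),
  (nat_lit 13050591, nat_lit 12547, nat_lit 3, nat_lit 1),
  (nat_lit 13063113, nat_lit 12522, nat_lit 3, nat_lit 1),
  (nat_lit 13075614, nat_lit 12501, nat_lit 3, nat_lit 1),
  (nat_lit 13088093, nat_lit 12479, nat_lit 3, nat_lit 1),
  (nat_lit 13100555, nat_lit 12462, nat_lit 3, nat_lit 1),
  (nat_lit 13112999, nat_lit 12444, nat_lit 3, nat_lit 1),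
  (nat_lit 13125430, nat_lit 12431, nat_lit 3, nat_lit 1),
  (nat_lit 13137847, nat_lit 12417, nat_lit 3, nat_lit 1)]

/-- Test points. -/
def upS13_2 : List (ℕ × ℕ × ℕ × ℕ) := [
  (nat_lit 13150254, nat_lit 12407, nat_lit 3, nat_lit 1),
  (nat_lit 13162651, nat_lit 12397, nat_lit 3, nat_lit 1),
  (nat_lit 13175042, nat_lit 12391, nat_lit 3, nat_lit 1),
  (nat_lit 13187427, nat_lit 12385, nat_lit 3, nat_lit 1),
  (nat_lit 13199810, nat_lit 12383, nat_lit 3, nat_lit 1),
  (nat_lit 13212192, nat_lit 12384, nat_lit 3, nat_lit 1),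
  (nat_lit 13224576, nat_lit 12389, nat_lit 3, nat_lit 1),
  (nat_lit 13236965, nat_lit 12396, nat_lit 3, nat_lit 1),
  (nat_lit 13249361, nat_lit 12405, nat_lit 3, nat_lit 1),
  (nat_lit 13261766, nat_lit 12418, nat_lit 3, nat_lit 1),
  (nat_lit 13274184, nat_lit 12435, nat_lit 3, nat_lit 1),
  (nat_lit 13286619, nat_lit 12455, nat_lit 3, nat_lit 1),
  (nat_lit 13299074, nat_lit 12479, nat_lit 3, nat_lit 1),
  (nat_lit 13311553, nat_lit 12508, nat_lit 3, nat_lit 1),
  (nat_lit 13324061, nat_lit 12542, nat_lit 3, nat_lit 1),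
  (nat_lit 13336603, nat_lit 12581, nat_lit 3, nat_lit 1),
  (nat_lit 13349184, nat_lit 12628, nat_lit 3, nat_lit 1),
  (nat_lit 13361812, nat_lit 12682, nat_lit 3, nat_lit 1),
  (nat_lit 13374494, nat_lit 12744, nat_lit 3, nat_lit 1),
  (nat_lit 13387238, nat_lit 12816, nat_lit 3, nat_lit 1),
  (nat_lit 13400054, nat_lit 12902, nat_lit 3, nat_lit 1),
  (nat_lit 13412956, nat_lit 13001, nat_lit 3, nat_lit 1),
  (nat_lit 13425957, nat_lit 13118, nat_lit 3, nat_lit 1),
  (nat_lit 13439075, nat_lit 13255, nat_lit 3, nat_lit 1),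
  (nat_lit 13452330, nat_lit 13422, nat_lit 3, nat_lit 1),
  (nat_lit 13465752, nat_lit 13621, nat_lit 3, nat_lit 1),
  (nat_lit 13479373, nat_lit 13868, nat_lit 3, nat_lit 1),
  (nat_lit 13493241, nat_lit 14176, nat_lit 3, nat_lit 1),
  (nat_lit 13507417, nat_lit 14575, nat_lit 3, nat_lit 1),
  (nat_lit 13521992, nat_lit 15107, nat_lit 3, nat_lit 1),
  (nat_lit 13537099, nat_lit 15859, nat_lit 3, nat_lit 1),
  (nat_lit 13552958, nat_lit 17018, nat_lit 3, nat_lit 1),
  (nat_lit 13569976, nat_lit 19106, nat_lit 3, nat_lit 1),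
  (nat_lit 13589082, nat_lit 24827, nat_lit 3, nat_lit 1),
  (nat_lit 13613909, nat_lit 352514, nat_lit 3, nat_lit 0),
  (nat_lit 13966423, nat_lit 352514, nat_lit 2, nat_lit 1),
  (nat_lit 14000182, nat_lit 33759, nat_lit 2, nat_lit 1),
  (nat_lit 14023621, nat_lit 23439, nat_lit 2, nat_lit 1),
  (nat_lit 14042493, nat_lit 18872, nat_lit 2, nat_lit 1)]

/-- Test points. -/
def upS13_3 : List (ℕ × ℕ × ℕ × ℕ) := [
  (nat_lit 14059621, nat_lit 17128, nat_lit 2, nat_lit 1),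
  (nat_lit 14075776, nat_lit 16155, nat_lit 2, nat_lit 1),
  (nat_lit 14091304, nat_lit 15528, nat_lit 2, nat_lit 1),
  (nat_lit 14106402, nat_lit 15098, nat_lit 2, nat_lit 1),
  (nat_lit 14121193, nat_lit 14791, nat_lit 2, nat_lit 1),
  (nat_lit 14135760, nat_lit 14567, nat_lit 2, nat_lit 1),
  (nat_lit 14150165, nat_lit 14405, nat_lit 2, nat_lit 1),
  (nat_lit 14164458, nat_lit 14293, nat_lit 2, nat_lit 1),
  (nat_lit 14178677, nat_lit 14219, nat_lit 2, nat_lit 1),
  (nat_lit 14192855, nat_lit 14178, nat_lit 2, nat_lit 1),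
  (nat_lit 14207020, nat_lit 14180, nat_lit 2, nat_lit 1),
  (nat_lit 14221200, nat_lit 14220, nat_lit 2, nat_lit 1),
  (nat_lit 14235420, nat_lit 14286, nat_lit 2, nat_lit 1),
  (nat_lit 14249706, nat_lit 14376, nat_lit 2, nat_lit 1),
  (nat_lit 14264082, nat_lit 14495, nat_lit 2, nat_lit 1),
  (nat_lit 14278577, nat_lit 14643, nat_lit 2, nat_lit 1),
  (nat_lit 14293220, nat_lit 14825, nat_lit 2, nat_lit 1),
  (nat_lit 14308045, nat_lit 15047, nat_lit 2, nat_lit 1),
  (nat_lit 14323092, nat_lit 15315, nat_lit 2, nat_lit 1),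
  (nat_lit 14338407, nat_lit 15642, nat_lit 2, nat_lit 1),
  (nat_lit 14354049, nat_lit 16043, nat_lit 2, nat_lit 1),
  (nat_lit 14370092, nat_lit 16542, nat_lit 2, nat_lit 1),
  (nat_lit 14386634, nat_lit 17178, nat_lit 2, nat_lit 1),
  (nat_lit 14403812, nat_lit 18016, nat_lit 2, nat_lit 1),
  (nat_lit 14421828, nat_lit 19178, nat_lit 2, nat_lit 1),
  (nat_lit 14441006, nat_lit 20928, nat_lit 2, nat_lit 1),
  (nat_lit 14461934, nat_lit 24005, nat_lit 2, nat_lit 1),
  (nat_lit 14485939, nat_lit 32170, nat_lit 2, nat_lit 1),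
  (nat_lit 14518109, nat_lit 1145959, nat_lit 2, nat_lit 0),
  (nat_lit 15664068, nat_lit 1145959, nat_lit 3, nat_lit 1),
  (nat_lit 15694796, nat_lit 30728, nat_lit 3, nat_lit 1),
  (nat_lit 15718206, nat_lit 23410, nat_lit 3, nat_lit 1),
  (nat_lit 15737439, nat_lit 19233, nat_lit 3, nat_lit 1),
  (nat_lit 15754714, nat_lit 17275, nat_lit 3, nat_lit 1),
  (nat_lit 15770763, nat_lit 16049, nat_lit 3, nat_lit 1),
  (nat_lit 15785951, nat_lit 15188, nat_lit 3, nat_lit 1),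
  (nat_lit 15800493, nat_lit 14542, nat_lit 3, nat_lit 1),
  (nat_lit 15814531, nat_lit 14038, nat_lit 3, nat_lit 1),
  (nat_lit 15828167, nat_lit 13636, nat_lit 3, nat_lit 1)]

/-- Test points. -/
def upS13_4 : List (ℕ × ℕ × ℕ × ℕ) := [
  (nat_lit 15841476, nat_lit 13309, nat_lit 3, nat_lit 1),
  (nat_lit 15854524, nat_lit 13048, nat_lit 3, nat_lit 1),
  (nat_lit 15867363, nat_lit 12839, nat_lit 3, nat_lit 1),
  (nat_lit 15880047, nat_lit 12684, nat_lit 3, nat_lit 1),
  (nat_lit 15892636, nat_lit 12589, nat_lit 3, nat_lit 1),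
  (nat_lit 15905212, nat_lit 12715, nat_lit 3, nat_lit 1),
  (nat_lit 15917927, nat_lit 13324, nat_lit 3, nat_lit 1),
  (nat_lit 15931251, nat_lit 14110, nat_lit 3, nat_lit 1),
  (nat_lit 15945361, nat_lit 36756, nat_lit 3, nat_lit 0),
  (nat_lit 15982117, nat_lit 36756, nat_lit 2, nat_lit 1),
  (nat_lit 15997313, nat_lit 15196, nat_lit 2, nat_lit 1),
  (nat_lit 16011934, nat_lit 16805, nat_lit 2, nat_lit 1),
  (nat_lit 16028739, nat_lit 21589, nat_lit 2, nat_lit 1),
  (nat_lit 16050328, nat_lit 119532, nat_lit 2, nat_lit 0),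
  (nat_lit 16169860, nat_lit 119532, nat_lit 3, nat_lit 1),
  (nat_lit 16185990, nat_lit 16130, nat_lit 3, nat_lit 1),
  (nat_lit 16198877, nat_lit 12887, nat_lit 3, nat_lit 1),
  (nat_lit 16210622, nat_lit 11745, nat_lit 3, nat_lit 1),
  (nat_lit 16221750, nat_lit 11128, nat_lit 3, nat_lit 1),
  (nat_lit 16232483, nat_lit 10733, nat_lit 3, nat_lit 1),
  (nat_lit 16242938, nat_lit 10455, nat_lit 3, nat_lit 1),
  (nat_lit 16253186, nat_lit 10248, nat_lit 3, nat_lit 1),
  (nat_lit 16263272, nat_lit 10086, nat_lit 3, nat_lit 1),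
  (nat_lit 16273228, nat_lit 9956, nat_lit 3, nat_lit 1),
  (nat_lit 16283077, nat_lit 9849, nat_lit 3, nat_lit 1),
  (nat_lit 16292835, nat_lit 9758, nat_lit 3, nat_lit 1),
  (nat_lit 16302515, nat_lit 9680, nat_lit 3, nat_lit 1),
  (nat_lit 16312128, nat_lit 9613, nat_lit 3, nat_lit 1),
  (nat_lit 16321682, nat_lit 9554, nat_lit 3, nat_lit 1),
  (nat_lit 16331184, nat_lit 9502, nat_lit 3, nat_lit 1),
  (nat_lit 16340639, nat_lit 9455, nat_lit 3, nat_lit 1),
  (nat_lit 16350052, nat_lit 9413, nat_lit 3, nat_lit 1),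
  (nat_lit 16359427, nat_lit 9375, nat_lit 3, nat_lit 1),
  (nat_lit 16368769, nat_lit 9342, nat_lit 3, nat_lit 1),
  (nat_lit 16378079, nat_lit 9310, nat_lit 3, nat_lit 1),
  (nat_lit 16387361, nat_lit 9282, nat_lit 3, nat_lit 1),
  (nat_lit 16396618, nat_lit 9257, nat_lit 3, nat_lit 1),
  (nat_lit 16405851, nat_lit 9233, nat_lit 3, nat_lit 1),
  (nat_lit 16415064, nat_lit 9213, nat_lit 3, nat_lit 1)]

/-- Test points. -/
def upS13_5 : List (ℕ × ℕ × ℕ × ℕ) := [
  (nat_lit 16424259, nat_lit 9195, nat_lit 3, nat_lit 1),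
  (nat_lit 16433437, nat_lit 9178, nat_lit 3, nat_lit 1),
  (nat_lit 16442600, nat_lit 9163, nat_lit 3, nat_lit 1),
  (nat_lit 16451751, nat_lit 9151, nat_lit 3, nat_lit 1),
  (nat_lit 16460892, nat_lit 9141, nat_lit 3, nat_lit 1),
  (nat_lit 16470026, nat_lit 9134, nat_lit 3, nat_lit 1),
  (nat_lit 16479153, nat_lit 9127, nat_lit 3, nat_lit 1),
  (nat_lit 16488279, nat_lit 9126, nat_lit 3, nat_lit 1),
  (nat_lit 16497405, nat_lit 9131, nat_lit 3, nat_lit 1),
  (nat_lit 16506536, nat_lit 9139, nat_lit 3, nat_lit 1),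
  (nat_lit 16515675, nat_lit 9152, nat_lit 3, nat_lit 1),
  (nat_lit 16524827, nat_lit 9173, nat_lit 3, nat_lit 1),
  (nat_lit 16534000, nat_lit 9202, nat_lit 3, nat_lit 1),
  (nat_lit 16543202, nat_lit 9242, nat_lit 3, nat_lit 1),
  (nat_lit 16552444, nat_lit 9297, nat_lit 3, nat_lit 1),
  (nat_lit 16561741, nat_lit 9375, nat_lit 3, nat_lit 1),
  (nat_lit 16571116, nat_lit 9490, nat_lit 3, nat_lit 1),
  (nat_lit 16580606, nat_lit 9663, nat_lit 3, nat_lit 1),
  (nat_lit 16590269, nat_lit 9944, nat_lit 3, nat_lit 1),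
  (nat_lit 16600213, nat_lit 10480, nat_lit 3, nat_lit 1),
  (nat_lit 16610693, nat_lit 11929, nat_lit 3, nat_lit 1),
  (nat_lit 16622622, nat_lit 13866, nat_lit 3, nat_lit 1),
  (nat_lit 16636488, nat_lit 65293, nat_lit 3, nat_lit 0),
  (nat_lit 16701781, nat_lit 65293, nat_lit 2, nat_lit 1),
  (nat_lit 16714839, nat_lit 13058, nat_lit 2, nat_lit 1),
  (nat_lit 16725711, nat_lit 10872, nat_lit 2, nat_lit 1),
  (nat_lit 16735877, nat_lit 10166, nat_lit 2, nat_lit 1),
  (nat_lit 16745695, nat_lit 9818, nat_lit 2, nat_lit 1),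
  (nat_lit 16755312, nat_lit 9617, nat_lit 2, nat_lit 1),
  (nat_lit 16764803, nat_lit 9491, nat_lit 2, nat_lit 1),
  (nat_lit 16774214, nat_lit 9411, nat_lit 2, nat_lit 1),
  (nat_lit 16783575, nat_lit 9361, nat_lit 2, nat_lit 1),
  (nat_lit 16792906, nat_lit 9331, nat_lit 2, nat_lit 1),
  (nat_lit 16802223, nat_lit 9317, nat_lit 2, nat_lit 1),
  (nat_lit 16811538, nat_lit 9326, nat_lit 2, nat_lit 1),
  (nat_lit 16820864, nat_lit 9348, nat_lit 2, nat_lit 1),
  (nat_lit 16830212, nat_lit 9377, nat_lit 2, nat_lit 1),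
  (nat_lit 16839589, nat_lit 9420, nat_lit 2, nat_lit 1),
  (nat_lit 16849009, nat_lit 9473, nat_lit 2, nat_lit 1)]

/-- Test points. -/
def upS13_6 : List (ℕ × ℕ × ℕ × ℕ) := [
  (nat_lit 16858482, nat_lit 9538, nat_lit 2, nat_lit 1),
  (nat_lit 16868020, nat_lit 9619, nat_lit 2, nat_lit 1),
  (nat_lit 16877639, nat_lit 9717, nat_lit 2, nat_lit 1),
  (nat_lit 16887356, nat_lit 9839, nat_lit 2, nat_lit 1),
  (nat_lit 16897195, nat_lit 9990, nat_lit 2, nat_lit 1),
  (nat_lit 16907185, nat_lit 10177, nat_lit 2, nat_lit 1),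
  (nat_lit 16917362, nat_lit 10420, nat_lit 2, nat_lit 1),
  (nat_lit 16927782, nat_lit 10740, nat_lit 2, nat_lit 1),
  (nat_lit 16938522, nat_lit 11187, nat_lit 2, nat_lit 1),
  (nat_lit 16949709, nat_lit 11855, nat_lit 2, nat_lit 1),
  (nat_lit 16961564, nat_lit 13007, nat_lit 2, nat_lit 1),
  (nat_lit 16974571, nat_lit 15833, nat_lit 2, nat_lit 1),
  (nat_lit 16990404, nat_lit 20787, nat_lit 2, nat_lit 1),
  (nat_lit 17011191, nat_lit 115892, nat_lit 2, nat_lit 1),
  (nat_lit 17127083, nat_lit 129033, nat_lit 3004, nat_lit 0),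
  (nat_lit 17256116, nat_lit 129033, nat_lit 3, nat_lit 1),
  (nat_lit 17273840, nat_lit 17724, nat_lit 3, nat_lit 1),
  (nat_lit 17287504, nat_lit 13664, nat_lit 3, nat_lit 1),
  (nat_lit 17299688, nat_lit 12184, nat_lit 3, nat_lit 1),
  (nat_lit 17311050, nat_lit 11362, nat_lit 3, nat_lit 1),
  (nat_lit 17321879, nat_lit 10829, nat_lit 3, nat_lit 1),
  (nat_lit 17332330, nat_lit 10451, nat_lit 3, nat_lit 1),
  (nat_lit 17342498, nat_lit 10168, nat_lit 3, nat_lit 1),
  (nat_lit 17352446, nat_lit 9948, nat_lit 3, nat_lit 1),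
  (nat_lit 17362218, nat_lit 9772, nat_lit 3, nat_lit 1),
  (nat_lit 17371847, nat_lit 9629, nat_lit 3, nat_lit 1),
  (nat_lit 17381356, nat_lit 9509, nat_lit 3, nat_lit 1),
  (nat_lit 17390766, nat_lit 9410, nat_lit 3, nat_lit 1),
  (nat_lit 17400090, nat_lit 9324, nat_lit 3, nat_lit 1),
  (nat_lit 17409343, nat_lit 9253, nat_lit 3, nat_lit 1),
  (nat_lit 17418533, nat_lit 9190, nat_lit 3, nat_lit 1),
  (nat_lit 17427669, nat_lit 9136, nat_lit 3, nat_lit 1),
  (nat_lit 17436759, nat_lit 9090, nat_lit 3, nat_lit 1),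
  (nat_lit 17445808, nat_lit 9049, nat_lit 3, nat_lit 1),
  (nat_lit 17454822, nat_lit 9014, nat_lit 3, nat_lit 1),
  (nat_lit 17463807, nat_lit 8985, nat_lit 3, nat_lit 1),
  (nat_lit 17472765, nat_lit 8958, nat_lit 3, nat_lit 1),
  (nat_lit 17481702, nat_lit 8937, nat_lit 3, nat_lit 1),
  (nat_lit 17490620, nat_lit 8918, nat_lit 3, nat_lit 1)]

/-- Test points. -/
def upS13_7 : List (ℕ × ℕ × ℕ × ℕ) := [
  (nat_lit 17499522, nat_lit 8902, nat_lit 3, nat_lit 1),
  (nat_lit 17508412, nat_lit 8890, nat_lit 3, nat_lit 1),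
  (nat_lit 17517292, nat_lit 8880, nat_lit 3, nat_lit 1),
  (nat_lit 17526165, nat_lit 8873, nat_lit 3, nat_lit 1),
  (nat_lit 17535033, nat_lit 8868, nat_lit 3, nat_lit 1),
  (nat_lit 17543899, nat_lit 8866, nat_lit 3, nat_lit 1),
  (nat_lit 17552764, nat_lit 8868, nat_lit 3, nat_lit 1),
  (nat_lit 17561632, nat_lit 8873, nat_lit 3, nat_lit 1),
  (nat_lit 17570505, nat_lit 8880, nat_lit 3, nat_lit 1),
  (nat_lit 17579385, nat_lit 8889, nat_lit 3, nat_lit 1),
  (nat_lit 17588274, nat_lit 8900, nat_lit 3, nat_lit 1),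
  (nat_lit 17597174, nat_lit 8915, nat_lit 3, nat_lit 1),
  (nat_lit 17606089, nat_lit 8932, nat_lit 3, nat_lit 1),
  (nat_lit 17615021, nat_lit 8952, nat_lit 3, nat_lit 1),
  (nat_lit 17623973, nat_lit 8975, nat_lit 3, nat_lit 1),
  (nat_lit 17632948, nat_lit 9001, nat_lit 3, nat_lit 1),
  (nat_lit 17641949, nat_lit 9031, nat_lit 3, nat_lit 1),
  (nat_lit 17650980, nat_lit 9065, nat_lit 3, nat_lit 1),
  (nat_lit 17660045, nat_lit 9104, nat_lit 3, nat_lit 1),
  (nat_lit 17669149, nat_lit 9146, nat_lit 3, nat_lit 1),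
  (nat_lit 17678295, nat_lit 9197, nat_lit 3, nat_lit 1),
  (nat_lit 17687492, nat_lit 9253, nat_lit 3, nat_lit 1),
  (nat_lit 17696745, nat_lit 9316, nat_lit 3, nat_lit 1),
  (nat_lit 17706061, nat_lit 9389, nat_lit 3, nat_lit 1),
  (nat_lit 17715450, nat_lit 9473, nat_lit 3, nat_lit 1),
  (nat_lit 17724923, nat_lit 9570, nat_lit 3, nat_lit 1),
  (nat_lit 17734493, nat_lit 9684, nat_lit 3, nat_lit 1),
  (nat_lit 17744177, nat_lit 9817, nat_lit 3, nat_lit 1),
  (nat_lit 17753994, nat_lit 9976, nat_lit 3, nat_lit 1),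
  (nat_lit 17763970, nat_lit 10172, nat_lit 3, nat_lit 1),
  (nat_lit 17774142, nat_lit 10412, nat_lit 3, nat_lit 1),
  (nat_lit 17784554, nat_lit 10719, nat_lit 3, nat_lit 1),
  (nat_lit 17795273, nat_lit 11128, nat_lit 3, nat_lit 1),
  (nat_lit 17806401, nat_lit 11701, nat_lit 3, nat_lit 1),
  (nat_lit 17818102, nat_lit 12575, nat_lit 3, nat_lit 1),
  (nat_lit 17830677, nat_lit 14146, nat_lit 3, nat_lit 1),
  (nat_lit 17844823, nat_lit 18421, nat_lit 3, nat_lit 1),
  (nat_lit 17863244, nat_lit 263881, nat_lit 3, nat_lit 0),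
  (nat_lit 18127125, nat_lit 263881, nat_lit 2, nat_lit 1)]

/-- Test points. -/
def upS13_8 : List (ℕ × ℕ × ℕ × ℕ) := [
  (nat_lit 18155529, nat_lit 28404, nat_lit 2, nat_lit 1),
  (nat_lit 18174775, nat_lit 19246, nat_lit 2, nat_lit 1),
  (nat_lit 18191910, nat_lit 33084, nat_lit 2, nat_lit 0),
  (nat_lit 18224994, nat_lit 33084, nat_lit 3, nat_lit 1),
  (nat_lit 18239534, nat_lit 14540, nat_lit 3, nat_lit 1),
  (nat_lit 18252777, nat_lit 13243, nat_lit 3, nat_lit 1),
  (nat_lit 18264578, nat_lit 11801, nat_lit 3, nat_lit 1),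
  (nat_lit 18275876, nat_lit 11298, nat_lit 3, nat_lit 1),
  (nat_lit 18286907, nat_lit 11031, nat_lit 3, nat_lit 1),
  (nat_lit 18297770, nat_lit 10863, nat_lit 3, nat_lit 1),
  (nat_lit 18308521, nat_lit 10751, nat_lit 3, nat_lit 1),
  (nat_lit 18319193, nat_lit 10672, nat_lit 3, nat_lit 1),
  (nat_lit 18329812, nat_lit 10619, nat_lit 3, nat_lit 1),
  (nat_lit 18340398, nat_lit 10586, nat_lit 3, nat_lit 1),
  (nat_lit 18350963, nat_lit 10565, nat_lit 3, nat_lit 1),
  (nat_lit 18361521, nat_lit 10560, nat_lit 3, nat_lit 1),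
  (nat_lit 18372081, nat_lit 10572, nat_lit 3, nat_lit 1),
  (nat_lit 18382653, nat_lit 10594, nat_lit 3, nat_lit 1),
  (nat_lit 18393247, nat_lit 10622, nat_lit 3, nat_lit 1),
  (nat_lit 18403869, nat_lit 10658, nat_lit 3, nat_lit 1),
  (nat_lit 18414527, nat_lit 10702, nat_lit 3, nat_lit 1),
  (nat_lit 18425229, nat_lit 10753, nat_lit 3, nat_lit 1),
  (nat_lit 18435982, nat_lit 10812, nat_lit 3, nat_lit 1),
  (nat_lit 18446794, nat_lit 10878, nat_lit 3, nat_lit 1),
  (nat_lit 18457672, nat_lit 10951, nat_lit 3, nat_lit 1),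
  (nat_lit 18468623, nat_lit 11034, nat_lit 3, nat_lit 1),
  (nat_lit 18479657, nat_lit 11124, nat_lit 3, nat_lit 1),
  (nat_lit 18490781, nat_lit 11226, nat_lit 3, nat_lit 1),
  (nat_lit 18502007, nat_lit 11336, nat_lit 3, nat_lit 1),
  (nat_lit 18513343, nat_lit 11458, nat_lit 3, nat_lit 1),
  (nat_lit 18524801, nat_lit 11593, nat_lit 3, nat_lit 1),
  (nat_lit 18536394, nat_lit 11741, nat_lit 3, nat_lit 1),
  (nat_lit 18548135, nat_lit 11907, nat_lit 3, nat_lit 1),
  (nat_lit 18560042, nat_lit 12089, nat_lit 3, nat_lit 1),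
  (nat_lit 18572131, nat_lit 12294, nat_lit 3, nat_lit 1),
  (nat_lit 18584425, nat_lit 12523, nat_lit 3, nat_lit 1),
  (nat_lit 18596948, nat_lit 12783, nat_lit 3, nat_lit 1),
  (nat_lit 18609731, nat_lit 13078, nat_lit 3, nat_lit 1),
  (nat_lit 18622809, nat_lit 13418, nat_lit 3, nat_lit 1)]

/-- Test points. -/
def upS13_9 : List (ℕ × ℕ × ℕ × ℕ) := [
  (nat_lit 18636227, nat_lit 13814, nat_lit 3, nat_lit 1),
  (nat_lit 18650041, nat_lit 14284, nat_lit 3, nat_lit 1),
  (nat_lit 18664325, nat_lit 14851, nat_lit 3, nat_lit 1),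
  (nat_lit 18679176, nat_lit 15556, nat_lit 3, nat_lit 1),
  (nat_lit 18694732, nat_lit 16462, nat_lit 3, nat_lit 1),
  (nat_lit 18711194, nat_lit 17693, nat_lit 3, nat_lit 1),
  (nat_lit 18728887, nat_lit 19512, nat_lit 3, nat_lit 1),
  (nat_lit 18748399, nat_lit 22652, nat_lit 3, nat_lit 1),
  (nat_lit 18771051, nat_lit 30834, nat_lit 3, nat_lit 1),
  (nat_lit 18801885, nat_lit 1495910, nat_lit 3, nat_lit 0),
  (nat_lit 20297795, nat_lit 1495910, nat_lit 254, nat_lit 1),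
  (nat_lit 21081148, nat_lit 783353, nat_lit 2, nat_lit 1),
  (nat_lit 21106149, nat_lit 25001, nat_lit 2, nat_lit 1),
  (nat_lit 21124440, nat_lit 18291, nat_lit 2, nat_lit 1),
  (nat_lit 21140146, nat_lit 15706, nat_lit 2, nat_lit 1),
  (nat_lit 21154349, nat_lit 14203, nat_lit 2, nat_lit 1),
  (nat_lit 21167533, nat_lit 13184, nat_lit 2, nat_lit 1),
  (nat_lit 21179965, nat_lit 12432, nat_lit 2, nat_lit 1),
  (nat_lit 21191811, nat_lit 11846, nat_lit 2, nat_lit 1),
  (nat_lit 21203186, nat_lit 11375, nat_lit 2, nat_lit 1),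
  (nat_lit 21214170, nat_lit 10984, nat_lit 2, nat_lit 1),
  (nat_lit 21224825, nat_lit 10655, nat_lit 2, nat_lit 1),
  (nat_lit 21235200, nat_lit 10375, nat_lit 2, nat_lit 1),
  (nat_lit 21245332, nat_lit 10132, nat_lit 2, nat_lit 1),
  (nat_lit 21255255, nat_lit 9923, nat_lit 2, nat_lit 1),
  (nat_lit 21264994, nat_lit 9739, nat_lit 2, nat_lit 1),
  (nat_lit 21274575, nat_lit 9581, nat_lit 2, nat_lit 1),
  (nat_lit 21284019, nat_lit 9444, nat_lit 2, nat_lit 1),
  (nat_lit 21293346, nat_lit 9327, nat_lit 2, nat_lit 1),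
  (nat_lit 21302576, nat_lit 9230, nat_lit 2, nat_lit 1),
  (nat_lit 21311730, nat_lit 9154, nat_lit 2, nat_lit 1),
  (nat_lit 21320829, nat_lit 9099, nat_lit 2, nat_lit 1),
  (nat_lit 21329899, nat_lit 9073, nat_lit 2, nat_lit 1),
  (nat_lit 21338972, nat_lit 9117, nat_lit 2, nat_lit 1),
  (nat_lit 21348089, nat_lit 9221, nat_lit 2, nat_lit 1),
  (nat_lit 21357310, nat_lit 9422, nat_lit 2, nat_lit 1),
  (nat_lit 21366732, nat_lit 9801, nat_lit 2, nat_lit 1),
  (nat_lit 21376533, nat_lit 10595, nat_lit 2, nat_lit 1),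
  (nat_lit 21387128, nat_lit 13047, nat_lit 2, nat_lit 1)]

/-- Test points. -/
def upS13_10 : List (ℕ × ℕ × ℕ × ℕ) := [
  (nat_lit 21400175, nat_lit 51937, nat_lit 2, nat_lit 0),
  (nat_lit 21452112, nat_lit 51937, nat_lit 1101, nat_lit 1),
  (nat_lit 21497761, nat_lit 45649, nat_lit 3, nat_lit 1),
  (nat_lit 21509967, nat_lit 12206, nat_lit 3, nat_lit 1),
  (nat_lit 21520042, nat_lit 10075, nat_lit 3, nat_lit 1),
  (nat_lit 21528824, nat_lit 8782, nat_lit 3, nat_lit 1),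
  (nat_lit 21537028, nat_lit 8204, nat_lit 3, nat_lit 1),
  (nat_lit 21544884, nat_lit 7856, nat_lit 3, nat_lit 1),
  (nat_lit 21552500, nat_lit 7616, nat_lit 3, nat_lit 1),
  (nat_lit 21559941, nat_lit 7441, nat_lit 3, nat_lit 1),
  (nat_lit 21567245, nat_lit 7304, nat_lit 3, nat_lit 1),
  (nat_lit 21574438, nat_lit 7193, nat_lit 3, nat_lit 1),
  (nat_lit 21581539, nat_lit 7101, nat_lit 3, nat_lit 1),
  (nat_lit 21588563, nat_lit 7024, nat_lit 3, nat_lit 1),
  (nat_lit 21595519, nat_lit 6956, nat_lit 3, nat_lit 1),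
  (nat_lit 21602417, nat_lit 6898, nat_lit 3, nat_lit 1),
  (nat_lit 21609264, nat_lit 6847, nat_lit 3, nat_lit 1),
  (nat_lit 21616064, nat_lit 6800, nat_lit 3, nat_lit 1),
  (nat_lit 21622822, nat_lit 6758, nat_lit 3, nat_lit 1),
  (nat_lit 21629543, nat_lit 6721, nat_lit 3, nat_lit 1),
  (nat_lit 21636229, nat_lit 6686, nat_lit 3, nat_lit 1),
  (nat_lit 21642884, nat_lit 6655, nat_lit 3, nat_lit 1),
  (nat_lit 21649509, nat_lit 6625, nat_lit 3, nat_lit 1),
  (nat_lit 21656109, nat_lit 6600, nat_lit 3, nat_lit 1),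
  (nat_lit 21662685, nat_lit 6576, nat_lit 3, nat_lit 1),
  (nat_lit 21669238, nat_lit 6553, nat_lit 3, nat_lit 1),
  (nat_lit 21675770, nat_lit 6532, nat_lit 3, nat_lit 1),
  (nat_lit 21682284, nat_lit 6514, nat_lit 3, nat_lit 1),
  (nat_lit 21688781, nat_lit 6497, nat_lit 3, nat_lit 1),
  (nat_lit 21695262, nat_lit 6481, nat_lit 3, nat_lit 1),
  (nat_lit 21701730, nat_lit 6468, nat_lit 3, nat_lit 1),
  (nat_lit 21708185, nat_lit 6455, nat_lit 3, nat_lit 1),
  (nat_lit 21714629, nat_lit 6444, nat_lit 3, nat_lit 1),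
  (nat_lit 21721064, nat_lit 6435, nat_lit 3, nat_lit 1),
  (nat_lit 21727491, nat_lit 6427, nat_lit 3, nat_lit 1),
  (nat_lit 21733912, nat_lit 6421, nat_lit 3, nat_lit 1),
  (nat_lit 21740329, nat_lit 6417, nat_lit 3, nat_lit 1),
  (nat_lit 21746743, nat_lit 6414, nat_lit 3, nat_lit 1),
  (nat_lit 21753155, nat_lit 6414, nat_lit 3, nat_lit 1)]

/-- Test points. -/
def upS13_11 : List (ℕ × ℕ × ℕ × ℕ) := [
  (nat_lit 21759569, nat_lit 6417, nat_lit 3, nat_lit 1),
  (nat_lit 21765986, nat_lit 6423, nat_lit 3, nat_lit 1),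
  (nat_lit 21772409, nat_lit 6432, nat_lit 3, nat_lit 1),
  (nat_lit 21778841, nat_lit 6442, nat_lit 3, nat_lit 1),
  (nat_lit 21785283, nat_lit 6456, nat_lit 3, nat_lit 1),
  (nat_lit 21791739, nat_lit 6475, nat_lit 3, nat_lit 1),
  (nat_lit 21798214, nat_lit 6498, nat_lit 3, nat_lit 1),
  (nat_lit 21804712, nat_lit 6524, nat_lit 3, nat_lit 1),
  (nat_lit 21811236, nat_lit 6557, nat_lit 3, nat_lit 1),
  (nat_lit 21817793, nat_lit 6597, nat_lit 3, nat_lit 1),
  (nat_lit 21824390, nat_lit 6646, nat_lit 3, nat_lit 1),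
  (nat_lit 21831036, nat_lit 6705, nat_lit 3, nat_lit 1),
  (nat_lit 21837741, nat_lit 6776, nat_lit 3, nat_lit 1),
  (nat_lit 21844517, nat_lit 6864, nat_lit 3, nat_lit 1),
  (nat_lit 21851381, nat_lit 6975, nat_lit 3, nat_lit 1),
  (nat_lit 21858356, nat_lit 7114, nat_lit 3, nat_lit 1),
  (nat_lit 21865470, nat_lit 7298, nat_lit 3, nat_lit 1),
  (nat_lit 21872768, nat_lit 7544, nat_lit 3, nat_lit 1),
  (nat_lit 21880312, nat_lit 7897, nat_lit 3, nat_lit 1),
  (nat_lit 21888209, nat_lit 8444, nat_lit 3, nat_lit 1),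
  (nat_lit 21896653, nat_lit 9439, nat_lit 3, nat_lit 1),
  (nat_lit 21906092, nat_lit 12182, nat_lit 3, nat_lit 1),
  (nat_lit 21918274, nat_lit 41366, nat_lit 3, nat_lit 1),
  (nat_lit 21959640, nat_lit 131462, nat_lit 5, nat_lit 0),
  (nat_lit 22091102, nat_lit 131462, nat_lit 2, nat_lit 1),
  (nat_lit 22103024, nat_lit 11922, nat_lit 2, nat_lit 1),
  (nat_lit 22112215, nat_lit 9191, nat_lit 2, nat_lit 1),
  (nat_lit 22120409, nat_lit 8194, nat_lit 2, nat_lit 1),
  (nat_lit 22128051, nat_lit 7642, nat_lit 2, nat_lit 1),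
  (nat_lit 22135335, nat_lit 7284, nat_lit 2, nat_lit 1),
  (nat_lit 22142364, nat_lit 7029, nat_lit 2, nat_lit 1),
  (nat_lit 22149204, nat_lit 6840, nat_lit 2, nat_lit 1),
  (nat_lit 22155898, nat_lit 6694, nat_lit 2, nat_lit 1),
  (nat_lit 22162474, nat_lit 6576, nat_lit 2, nat_lit 1),
  (nat_lit 22168955, nat_lit 6481, nat_lit 2, nat_lit 1),
  (nat_lit 22175359, nat_lit 6404, nat_lit 2, nat_lit 1),
  (nat_lit 22181699, nat_lit 6340, nat_lit 2, nat_lit 1),
  (nat_lit 22187985, nat_lit 6286, nat_lit 2, nat_lit 1),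
  (nat_lit 22194227, nat_lit 6242, nat_lit 2, nat_lit 1)]

/-- Test points. -/
def upS13_12 : List (ℕ × ℕ × ℕ × ℕ) := [
  (nat_lit 22200433, nat_lit 6206, nat_lit 2, nat_lit 1),
  (nat_lit 22206609, nat_lit 6176, nat_lit 2, nat_lit 1),
  (nat_lit 22212762, nat_lit 6153, nat_lit 2, nat_lit 1),
  (nat_lit 22218899, nat_lit 6137, nat_lit 2, nat_lit 1),
  (nat_lit 22225026, nat_lit 6127, nat_lit 2, nat_lit 1),
  (nat_lit 22231152, nat_lit 6136, nat_lit 2, nat_lit 1),
  (nat_lit 22237288, nat_lit 6159, nat_lit 2, nat_lit 1),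
  (nat_lit 22243447, nat_lit 6207, nat_lit 2, nat_lit 1),
  (nat_lit 22249654, nat_lit 6307, nat_lit 2, nat_lit 1),
  (nat_lit 22255961, nat_lit 6535, nat_lit 2, nat_lit 1),
  (nat_lit 22262496, nat_lit 7353, nat_lit 2, nat_lit 1),
  (nat_lit 22269849, nat_lit 14424, nat_lit 2, nat_lit 0),
  (nat_lit 22284273, nat_lit 14424, nat_lit 3, nat_lit 1),
  (nat_lit 22293031, nat_lit 8758, nat_lit 3, nat_lit 1),
  (nat_lit 22300374, nat_lit 7343, nat_lit 3, nat_lit 1),
  (nat_lit 22306935, nat_lit 6561, nat_lit 3, nat_lit 1),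
  (nat_lit 22313283, nat_lit 6348, nat_lit 3, nat_lit 1),
  (nat_lit 22319542, nat_lit 6259, nat_lit 3, nat_lit 1),
  (nat_lit 22325762, nat_lit 6220, nat_lit 3, nat_lit 1),
  (nat_lit 22331968, nat_lit 6206, nat_lit 3, nat_lit 1),
  (nat_lit 22338173, nat_lit 6215, nat_lit 3, nat_lit 1),
  (nat_lit 22344388, nat_lit 6231, nat_lit 3, nat_lit 1),
  (nat_lit 22350619, nat_lit 6255, nat_lit 3, nat_lit 1),
  (nat_lit 22356874, nat_lit 6283, nat_lit 3, nat_lit 1),
  (nat_lit 22363157, nat_lit 6317, nat_lit 3, nat_lit 1),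
  (nat_lit 22369474, nat_lit 6356, nat_lit 3, nat_lit 1),
  (nat_lit 22375830, nat_lit 6402, nat_lit 3, nat_lit 1),
  (nat_lit 22382232, nat_lit 6451, nat_lit 3, nat_lit 1),
  (nat_lit 22388683, nat_lit 6510, nat_lit 3, nat_lit 1),
  (nat_lit 22395193, nat_lit 6574, nat_lit 3, nat_lit 1),
  (nat_lit 22401767, nat_lit 6647, nat_lit 3, nat_lit 1),
  (nat_lit 22408414, nat_lit 6730, nat_lit 3, nat_lit 1),
  (nat_lit 22415144, nat_lit 6825, nat_lit 3, nat_lit 1),
  (nat_lit 22421969, nat_lit 6931, nat_lit 3, nat_lit 1),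
  (nat_lit 22428900, nat_lit 7056, nat_lit 3, nat_lit 1),
  (nat_lit 22435956, nat_lit 7200, nat_lit 3, nat_lit 1),
  (nat_lit 22443156, nat_lit 7371, nat_lit 3, nat_lit 1),
  (nat_lit 22450527, nat_lit 7574, nat_lit 3, nat_lit 1),
  (nat_lit 22458101, nat_lit 7821, nat_lit 3, nat_lit 1)]

/-- Test points. -/
def upS13_13 : List (ℕ × ℕ × ℕ × ℕ) := [
  (nat_lit 22465922, nat_lit 8133, nat_lit 3, nat_lit 1),
  (nat_lit 22474055, nat_lit 8538, nat_lit 3, nat_lit 1),
  (nat_lit 22482593, nat_lit 9091, nat_lit 3, nat_lit 1),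
  (nat_lit 22491684, nat_lit 9918, nat_lit 3, nat_lit 1),
  (nat_lit 22501602, nat_lit 11359, nat_lit 3, nat_lit 1),
  (nat_lit 22512961, nat_lit 15153, nat_lit 3, nat_lit 1),
  (nat_lit 22528114, nat_lit 46291, nat_lit 3, nat_lit 1),
  (nat_lit 22574405, nat_lit 517897, nat_lit 3, nat_lit 0),
  (nat_lit 23092302, nat_lit 517897, nat_lit 2, nat_lit 1),
  (nat_lit 23106040, nat_lit 13738, nat_lit 2, nat_lit 1),
  (nat_lit 23116214, nat_lit 10174, nat_lit 2, nat_lit 1),
  (nat_lit 23125026, nat_lit 8812, nat_lit 2, nat_lit 1),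
  (nat_lit 23133053, nat_lit 8027, nat_lit 2, nat_lit 1),
  (nat_lit 23140551, nat_lit 7498, nat_lit 2, nat_lit 1),
  (nat_lit 23147660, nat_lit 7109, nat_lit 2, nat_lit 1),
  (nat_lit 23154466, nat_lit 6806, nat_lit 2, nat_lit 1),
  (nat_lit 23161029, nat_lit 6563, nat_lit 2, nat_lit 1),
  (nat_lit 23167390, nat_lit 6361, nat_lit 2, nat_lit 1),
  (nat_lit 23173581, nat_lit 6191, nat_lit 2, nat_lit 1),
  (nat_lit 23179625, nat_lit 6044, nat_lit 2, nat_lit 1),
  (nat_lit 23185541, nat_lit 5916, nat_lit 2, nat_lit 1),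
  (nat_lit 23191345, nat_lit 5804, nat_lit 2, nat_lit 1),
  (nat_lit 23197049, nat_lit 5704, nat_lit 2, nat_lit 1),
  (nat_lit 23202662, nat_lit 5613, nat_lit 2, nat_lit 1),
  (nat_lit 23208194, nat_lit 5532, nat_lit 2, nat_lit 1),
  (nat_lit 23213652, nat_lit 5458, nat_lit 2, nat_lit 1),
  (nat_lit 23219043, nat_lit 5391, nat_lit 2, nat_lit 1),
  (nat_lit 23224372, nat_lit 5329, nat_lit 2, nat_lit 1),
  (nat_lit 23229644, nat_lit 5272, nat_lit 2, nat_lit 1),
  (nat_lit 23234863, nat_lit 5219, nat_lit 2, nat_lit 1),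
  (nat_lit 23240032, nat_lit 5169, nat_lit 2, nat_lit 1),
  (nat_lit 23245156, nat_lit 5124, nat_lit 2, nat_lit 1),
  (nat_lit 23250238, nat_lit 5082, nat_lit 2, nat_lit 1),
  (nat_lit 23255279, nat_lit 5041, nat_lit 2, nat_lit 1),
  (nat_lit 23260283, nat_lit 5004, nat_lit 2, nat_lit 1),
  (nat_lit 23265252, nat_lit 4969, nat_lit 2, nat_lit 1),
  (nat_lit 23270187, nat_lit 4935, nat_lit 2, nat_lit 1),
  (nat_lit 23275092, nat_lit 4905, nat_lit 2, nat_lit 1),
  (nat_lit 23279966, nat_lit 4874, nat_lit 2, nat_lit 1)]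

/-- Test points. -/
def upS13_14 : List (ℕ × ℕ × ℕ × ℕ) := [
  (nat_lit 23284813, nat_lit 4847, nat_lit 2, nat_lit 1),
  (nat_lit 23289633, nat_lit 4820, nat_lit 2, nat_lit 1),
  (nat_lit 23294428, nat_lit 4795, nat_lit 2, nat_lit 1),
  (nat_lit 23299199, nat_lit 4771, nat_lit 2, nat_lit 1),
  (nat_lit 23303947, nat_lit 4748, nat_lit 2, nat_lit 1),
  (nat_lit 23308674, nat_lit 4727, nat_lit 2, nat_lit 1),
  (nat_lit 23313379, nat_lit 4705, nat_lit 2, nat_lit 1),
  (nat_lit 23318066, nat_lit 4687, nat_lit 2, nat_lit 1),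
  (nat_lit 23322734, nat_lit 4668, nat_lit 2, nat_lit 1),
  (nat_lit 23327384, nat_lit 4650, nat_lit 2, nat_lit 1),
  (nat_lit 23332017, nat_lit 4633, nat_lit 2, nat_lit 1),
  (nat_lit 23336634, nat_lit 4617, nat_lit 2, nat_lit 1),
  (nat_lit 23341236, nat_lit 4602, nat_lit 2, nat_lit 1),
  (nat_lit 23345823, nat_lit 4587, nat_lit 2, nat_lit 1),
  (nat_lit 23350396, nat_lit 4573, nat_lit 2, nat_lit 1),
  (nat_lit 23354955, nat_lit 4559, nat_lit 2, nat_lit 1),
  (nat_lit 23359502, nat_lit 4547, nat_lit 2, nat_lit 1),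
  (nat_lit 23364037, nat_lit 4535, nat_lit 2, nat_lit 1),
  (nat_lit 23368561, nat_lit 4524, nat_lit 2, nat_lit 1),
  (nat_lit 23373074, nat_lit 4513, nat_lit 2, nat_lit 1),
  (nat_lit 23377577, nat_lit 4503, nat_lit 2, nat_lit 1),
  (nat_lit 23382070, nat_lit 4493, nat_lit 2, nat_lit 1),
  (nat_lit 23386554, nat_lit 4484, nat_lit 2, nat_lit 1),
  (nat_lit 23391029, nat_lit 4475, nat_lit 2, nat_lit 1),
  (nat_lit 23395497, nat_lit 4468, nat_lit 2, nat_lit 1),
  (nat_lit 23399957, nat_lit 4460, nat_lit 2, nat_lit 1),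
  (nat_lit 23404411, nat_lit 4454, nat_lit 2, nat_lit 1),
  (nat_lit 23408858, nat_lit 4447, nat_lit 2, nat_lit 1),
  (nat_lit 23413299, nat_lit 4441, nat_lit 2, nat_lit 1),
  (nat_lit 23417736, nat_lit 4437, nat_lit 2, nat_lit 1),
  (nat_lit 23422168, nat_lit 4432, nat_lit 2, nat_lit 1),
  (nat_lit 23426596, nat_lit 4428, nat_lit 2, nat_lit 1),
  (nat_lit 23431021, nat_lit 4425, nat_lit 2, nat_lit 1),
  (nat_lit 23435443, nat_lit 4422, nat_lit 2, nat_lit 1),
  (nat_lit 23439864, nat_lit 4421, nat_lit 2, nat_lit 1),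
  (nat_lit 23444283, nat_lit 4419, nat_lit 2, nat_lit 1),
  (nat_lit 23448702, nat_lit 4420, nat_lit 2, nat_lit 1),
  (nat_lit 23453122, nat_lit 4421, nat_lit 2, nat_lit 1),
  (nat_lit 23457543, nat_lit 4423, nat_lit 2, nat_lit 1)]

/-- Test points. -/
def upS13_15 : List (ℕ × ℕ × ℕ × ℕ) := [
  (nat_lit 23461966, nat_lit 4426, nat_lit 2, nat_lit 1),
  (nat_lit 23466392, nat_lit 4430, nat_lit 2, nat_lit 1),
  (nat_lit 23470822, nat_lit 4436, nat_lit 2, nat_lit 1),
  (nat_lit 23475258, nat_lit 4443, nat_lit 2, nat_lit 1),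
  (nat_lit 23479701, nat_lit 4452, nat_lit 2, nat_lit 1),
  (nat_lit 23484153, nat_lit 4461, nat_lit 2, nat_lit 1),
  (nat_lit 23488614, nat_lit 4473, nat_lit 2, nat_lit 1),
  (nat_lit 23493087, nat_lit 4486, nat_lit 2, nat_lit 1),
  (nat_lit 23497573, nat_lit 4503, nat_lit 2, nat_lit 1),
  (nat_lit 23502076, nat_lit 4522, nat_lit 2, nat_lit 1),
  (nat_lit 23506598, nat_lit 4544, nat_lit 2, nat_lit 1),
  (nat_lit 23511142, nat_lit 4569, nat_lit 2, nat_lit 1),
  (nat_lit 23515711, nat_lit 4599, nat_lit 2, nat_lit 1),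
  (nat_lit 23520310, nat_lit 4635, nat_lit 2, nat_lit 1),
  (nat_lit 23524945, nat_lit 4676, nat_lit 2, nat_lit 1),
  (nat_lit 23529621, nat_lit 4726, nat_lit 2, nat_lit 1),
  (nat_lit 23534347, nat_lit 4785, nat_lit 2, nat_lit 1),
  (nat_lit 23539132, nat_lit 4858, nat_lit 2, nat_lit 1),
  (nat_lit 23543990, nat_lit 4949, nat_lit 2, nat_lit 1),
  (nat_lit 23548939, nat_lit 5063, nat_lit 2, nat_lit 1),
  (nat_lit 23554002, nat_lit 5213, nat_lit 2, nat_lit 1),
  (nat_lit 23559215, nat_lit 5417, nat_lit 2, nat_lit 1),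
  (nat_lit 23564632, nat_lit 5716, nat_lit 2, nat_lit 1),
  (nat_lit 23570348, nat_lit 6212, nat_lit 2, nat_lit 1),
  (nat_lit 23576560, nat_lit 7299, nat_lit 2, nat_lit 1),
  (nat_lit 23583859, nat_lit 9163, nat_lit 2, nat_lit 1),
  (nat_lit 23593022, nat_lit 126921, nat_lit 2, nat_lit 0),
  (nat_lit 23719943, nat_lit 126921, nat_lit 3, nat_lit 1),
  (nat_lit 23731367, nat_lit 11424, nat_lit 3, nat_lit 1),
  (nat_lit 23742002, nat_lit 12059, nat_lit 3, nat_lit 1),
  (nat_lit 23754061, nat_lit 132149, nat_lit 3, nat_lit 0),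
  (nat_lit 23886210, nat_lit 132149, nat_lit 2, nat_lit 1),
  (nat_lit 23895185, nat_lit 8975, nat_lit 2, nat_lit 1),
  (nat_lit 23902203, nat_lit 7018, nat_lit 2, nat_lit 1),
  (nat_lit 23908587, nat_lit 6384, nat_lit 2, nat_lit 1),
  (nat_lit 23914719, nat_lit 6132, nat_lit 2, nat_lit 1),
  (nat_lit 23920844, nat_lit 6431, nat_lit 2, nat_lit 1),
  (nat_lit 23927275, nat_lit 7743, nat_lit 2, nat_lit 1),
  (nat_lit 23935018, nat_lit 38151, nat_lit 2, nat_lit 0)]

/-- Test points. -/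
def upS13_16 : List (ℕ × ℕ × ℕ × ℕ) := [
  (nat_lit 23973169, nat_lit 38151, nat_lit 7, nat_lit 1),
  (nat_lit 23992724, nat_lit 19555, nat_lit 3, nat_lit 1),
  (nat_lit 23999525, nat_lit 6801, nat_lit 3, nat_lit 1),
  (nat_lit 24004960, nat_lit 5435, nat_lit 3, nat_lit 1),
  (nat_lit 24009913, nat_lit 4953, nat_lit 3, nat_lit 1),
  (nat_lit 24014609, nat_lit 4696, nat_lit 3, nat_lit 1),
  (nat_lit 24019142, nat_lit 4533, nat_lit 3, nat_lit 1),
  (nat_lit 24023560, nat_lit 4418, nat_lit 3, nat_lit 1),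
  (nat_lit 24027894, nat_lit 4334, nat_lit 3, nat_lit 1),
  (nat_lit 24032165, nat_lit 4271, nat_lit 3, nat_lit 1),
  (nat_lit 24036384, nat_lit 4219, nat_lit 3, nat_lit 1),
  (nat_lit 24040563, nat_lit 4179, nat_lit 3, nat_lit 1),
  (nat_lit 24044708, nat_lit 4145, nat_lit 3, nat_lit 1),
  (nat_lit 24048826, nat_lit 4118, nat_lit 3, nat_lit 1),
  (nat_lit 24052919, nat_lit 4093, nat_lit 3, nat_lit 1),
  (nat_lit 24056994, nat_lit 4075, nat_lit 3, nat_lit 1),
  (nat_lit 24061050, nat_lit 4056, nat_lit 3, nat_lit 1),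
  (nat_lit 24065093, nat_lit 4043, nat_lit 3, nat_lit 1),
  (nat_lit 24069123, nat_lit 4030, nat_lit 3, nat_lit 1),
  (nat_lit 24073143, nat_lit 4020, nat_lit 3, nat_lit 1),
  (nat_lit 24077153, nat_lit 4010, nat_lit 3, nat_lit 1),
  (nat_lit 24081156, nat_lit 4003, nat_lit 3, nat_lit 1),
  (nat_lit 24085152, nat_lit 3996, nat_lit 3, nat_lit 1),
  (nat_lit 24089143, nat_lit 3991, nat_lit 3, nat_lit 1),
  (nat_lit 24093130, nat_lit 3987, nat_lit 3, nat_lit 1),
  (nat_lit 24097113, nat_lit 3983, nat_lit 3, nat_lit 1),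
  (nat_lit 24101094, nat_lit 3981, nat_lit 3, nat_lit 1),
  (nat_lit 24105073, nat_lit 3979, nat_lit 3, nat_lit 1),
  (nat_lit 24109051, nat_lit 3978, nat_lit 3, nat_lit 1),
  (nat_lit 24113029, nat_lit 3979, nat_lit 3, nat_lit 1),
  (nat_lit 24117008, nat_lit 3980, nat_lit 3, nat_lit 1),
  (nat_lit 24120988, nat_lit 3982, nat_lit 3, nat_lit 1),
  (nat_lit 24124970, nat_lit 3985, nat_lit 3, nat_lit 1),
  (nat_lit 24128955, nat_lit 3988, nat_lit 3, nat_lit 1),
  (nat_lit 24132943, nat_lit 3992, nat_lit 3, nat_lit 1),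
  (nat_lit 24136935, nat_lit 3999, nat_lit 3, nat_lit 1),
  (nat_lit 24140934, nat_lit 4004, nat_lit 3, nat_lit 1),
  (nat_lit 24144938, nat_lit 4012, nat_lit 3, nat_lit 1),
  (nat_lit 24148950, nat_lit 4020, nat_lit 3, nat_lit 1)]

/-- Test points. -/
def upS13_17 : List (ℕ × ℕ × ℕ × ℕ) := [
  (nat_lit 24152970, nat_lit 4031, nat_lit 3, nat_lit 1),
  (nat_lit 24157001, nat_lit 4044, nat_lit 3, nat_lit 1),
  (nat_lit 24161045, nat_lit 4060, nat_lit 3, nat_lit 1),
  (nat_lit 24165105, nat_lit 4078, nat_lit 3, nat_lit 1),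
  (nat_lit 24169183, nat_lit 4105, nat_lit 3, nat_lit 1),
  (nat_lit 24173288, nat_lit 4139, nat_lit 3, nat_lit 1),
  (nat_lit 24177427, nat_lit 4190, nat_lit 3, nat_lit 1),
  (nat_lit 24181617, nat_lit 4276, nat_lit 3, nat_lit 1),
  (nat_lit 24185893, nat_lit 4448, nat_lit 3, nat_lit 1),
  (nat_lit 24190341, nat_lit 4982, nat_lit 3, nat_lit 1),
  (nat_lit 24195323, nat_lit 5559, nat_lit 3, nat_lit 1),
  (nat_lit 24200882, nat_lit 5559, nat_lit 3, nat_lit 1),
  (nat_lit 24206035, nat_lit 8408, nat_lit 627, nat_lit 0),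
  (nat_lit 24214443, nat_lit 8408, nat_lit 2, nat_lit 1),
  (nat_lit 24219654, nat_lit 5211, nat_lit 2, nat_lit 1),
  (nat_lit 24224251, nat_lit 4597, nat_lit 2, nat_lit 1),
  (nat_lit 24228678, nat_lit 4427, nat_lit 2, nat_lit 1),
  (nat_lit 24233037, nat_lit 4359, nat_lit 2, nat_lit 1),
  (nat_lit 24237365, nat_lit 4328, nat_lit 2, nat_lit 1),
  (nat_lit 24241682, nat_lit 4317, nat_lit 2, nat_lit 1),
  (nat_lit 24245999, nat_lit 4323, nat_lit 2, nat_lit 1),
  (nat_lit 24250322, nat_lit 4335, nat_lit 2, nat_lit 1),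
  (nat_lit 24254657, nat_lit 4351, nat_lit 2, nat_lit 1),
  (nat_lit 24259008, nat_lit 4369, nat_lit 2, nat_lit 1),
  (nat_lit 24263377, nat_lit 4390, nat_lit 2, nat_lit 1),
  (nat_lit 24267767, nat_lit 4414, nat_lit 2, nat_lit 1),
  (nat_lit 24272181, nat_lit 4441, nat_lit 2, nat_lit 1),
  (nat_lit 24276622, nat_lit 4470, nat_lit 2, nat_lit 1),
  (nat_lit 24281092, nat_lit 4500, nat_lit 2, nat_lit 1),
  (nat_lit 24285592, nat_lit 4534, nat_lit 2, nat_lit 1),
  (nat_lit 24290126, nat_lit 4572, nat_lit 2, nat_lit 1),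
  (nat_lit 24294698, nat_lit 4611, nat_lit 2, nat_lit 1),
  (nat_lit 24299309, nat_lit 4653, nat_lit 2, nat_lit 1),
  (nat_lit 24303962, nat_lit 4700, nat_lit 2, nat_lit 1),
  (nat_lit 24308662, nat_lit 4751, nat_lit 2, nat_lit 1),
  (nat_lit 24313413, nat_lit 4805, nat_lit 2, nat_lit 1),
  (nat_lit 24318218, nat_lit 4864, nat_lit 2, nat_lit 1),
  (nat_lit 24323082, nat_lit 4930, nat_lit 2, nat_lit 1),
  (nat_lit 24328012, nat_lit 5002, nat_lit 2, nat_lit 1)]

/-- Test points. -/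
def upS13_18 : List (ℕ × ℕ × ℕ × ℕ) := [
  (nat_lit 24333014, nat_lit 5081, nat_lit 2, nat_lit 1),
  (nat_lit 24338095, nat_lit 5168, nat_lit 2, nat_lit 1),
  (nat_lit 24343263, nat_lit 5266, nat_lit 2, nat_lit 1),
  (nat_lit 24348529, nat_lit 5377, nat_lit 2, nat_lit 1),
  (nat_lit 24353906, nat_lit 5503, nat_lit 2, nat_lit 1),
  (nat_lit 24359409, nat_lit 5645, nat_lit 2, nat_lit 1),
  (nat_lit 24365054, nat_lit 5813, nat_lit 2, nat_lit 1),
  (nat_lit 24370867, nat_lit 6011, nat_lit 2, nat_lit 1),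
  (nat_lit 24376878, nat_lit 6250, nat_lit 2, nat_lit 1),
  (nat_lit 24383128, nat_lit 6545, nat_lit 2, nat_lit 1),
  (nat_lit 24389673, nat_lit 6927, nat_lit 2, nat_lit 1),
  (nat_lit 24396600, nat_lit 7443, nat_lit 2, nat_lit 1),
  (nat_lit 24404043, nat_lit 8205, nat_lit 2, nat_lit 1),
  (nat_lit 24412248, nat_lit 9525, nat_lit 2, nat_lit 1),
  (nat_lit 24421773, nat_lit 12958, nat_lit 2, nat_lit 1),
  (nat_lit 24434731, nat_lit 565269, nat_lit 2, nat_lit 0)]

end Up

end IntCheb
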