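import Pool.Agent.Lib.MP_6205a3_nt.B66.UpData

/-!
# MP_6205a3_nt : data of level 14 of the upper bound certificate
-/

open Finset Polynomial

set_option autoImplicit false
set_option maxRecDepth 100000

namespace IntCheb

namespace Up

open Cert

/-- Zeros (times `upD`). -/
def upY14 : List ℕ := [
  nat_lit 10586001, nat_lit 10637477, nat_lit 10679164, nat_lit 10715888, nat_lit 10749433,
  nat_lit 10780701, nat_lit 10810227, nat_lit 10838362, nat_lit 10865350, nat_lit 10891370,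
  nat_lit 10916559, nat_lit 10941025, nat_lit 10964852, nat_lit 10988113, nat_lit 11010866,
  nat_lit 11033159, nat_lit 11055038, nat_lit 11076537, nat_lit 11097690, nat_lit 11118526,
  nat_lit 11139070, nat_lit 11159346, nat_lit 11179376, nat_lit 11199179, nat_lit 11218774,
  nat_lit 11238178, nat_lit 11257408, nat_lit 11276481, nat_lit 11295413, nat_lit 11314221,
  nat_lit 11332920, nat_lit 11351530, nat_lit 11370069, nat_lit 11388559, nat_lit 11407026,
  nat_lit 11425499, nat_lit 11444019, nat_lit 11462639, nat_lit 11481440, nat_lit 11500559,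
  nat_lit 11520284, nat_lit 11541458, nat_lit 11580776, nat_lit 11645813, nat_lit 11675060,
  nat_lit 11758096, nat_lit 12135235, nat_lit 12158789, nat_lit 12178771, nat_lit 12197031,
  nat_lit 12214237, nat_lit 12230723, nat_lit 12246683, nat_lit 12262242, nat_lit 12277492,
  nat_lit 12292497, nat_lit 12307312, nat_lit 12321981, nat_lit 12336545, nat_lit 12351042,
  nat_lit 12365515, nat_lit 12380010, nat_lit 12394587, nat_lit 12409325, nat_lit 12424348,
  nat_lit 12439865, nat_lit 12456302, nat_lit 12474873, nat_lit 12630852, nat_lit 12667768,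
  nat_lit 12684782, nat_lit 12699812, nat_lit 12713908, nat_lit 12727442, nat_lit 12740596,
  nat_lit 12753472, nat_lit 12766135, nat_lit 12778629, nat_lit 12790985, nat_lit 12803224,
  nat_lit 12815365, nat_lit 12827421, nat_lit 12839401, nat_lit 12851315, nat_lit 12863169,
  nat_lit 12874970, nat_lit 12886722, nat_lit 12898430, nat_lit 12910097, nat_lit 12921727,
  nat_lit 12933321, nat_lit 12944884, nat_lit 12956416, nat_lit 12967920, nat_lit 12979399,
  nat_lit 12990853, nat_lit 13002284, nat_lit 13013694, nat_lit 13025084, nat_lit 13036456,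
  nat_lit 13047810, nat_lit 13059149, nat_lit 13070473, nat_lit 13081783, nat_lit 13093081,
  nat_lit 13104367, nat_lit 13115644, nat_lit 13126911, nat_lit 13138171, nat_lit 13149424,
  nat_lit 13160672, nat_lit 13171915, nat_lit 13183156, nat_lit 13194395, nat_lit 13205634,
  nat_lit 13216874, nat_lit 13228117, nat_lit 13239364, nat_lit 13250617, nat_lit 13261879,
  nat_lit 13273150, nat_lit 13284433, nat_lit 13295731, nat_lit 13307045, nat_lit 13318380,
  nat_lit 13329737, nat_lit 13341121, nat_lit 13352535, nat_lit 13363983, nat_lit 13375470,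
  nat_lit 13387002, nat_lit 13398586, nat_lit 13410227, nat_lit 13421936, nat_lit 13433722,
  nat_lit 13445597, nat_lit 13457576, nat_lit 13469677, nat_lit 13481921, nat_lit 13494337,
  nat_lit 13506961, nat_lit 13519844, nat_lit 13533052, nat_lit 13546688, nat_lit 13560906,
  nat_lit 13575978, nat_lit 13592450, nat_lit 13611839, nat_lit 13739193, nat_lit 13984942,
  nat_lit 14004746, nat_lit 14021614, nat_lit 14037088, nat_lit 14051724, nat_lit 14065798,
  nat_lit 14079471, nat_lit 14092846, nat_lit 14105995, nat_lit 14118971, nat_lit 14131813,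
  nat_lit 14144554, nat_lit 14157218, nat_lit 14169828, nat_lit 14182402, nat_lit 14194958,
  nat_lit 14207510, nat_lit 14220073, nat_lit 14232661, nat_lit 14245287, nat_lit 14257965,
  nat_lit 14270709, nat_lit 14283534, nat_lit 14296456, nat_lit 14309492, nat_lit 14322663,
  nat_lit 14335991, nat_lit 14349502, nat_lit 14363227, nat_lit 14377205, nat_lit 14391480,
  nat_lit 14406113, nat_lit 14421183, nat_lit 14436795, nat_lit 14453103, nat_lit 14470342,
  nat_lit 14488914, nat_lit 14509614, nat_lit 14534619, nat_lit 15325603, nat_lit 15661533,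
  nat_lit 15684189, nat_lit 15702872, nat_lit 15719580, nat_lit 15735044, nat_lit 15749632,
  nat_lit 15763563, nat_lit 15776978, nat_lit 15789977, nat_lit 15802634, nat_lit 15815005,
  nat_lit 15827136, nat_lit 15839067, nat_lit 15850830, nat_lit 15862458, nat_lit 15873984,
  nat_lit 15885443, nat_lit 15896885, nat_lit 15908385, nat_lit 15920095, nat_lit 15932469,
  nat_lit 15953601, nat_lit 15989604, nat_lit 16002881, nat_lit 16016153, nat_lit 16030818,
  nat_lit 16106833, nat_lit 16154811, nat_lit 16183434, nat_lit 16196385, nat_lit 16207798,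
  nat_lit 16218483, nat_lit 16228730, nat_lit 16238679, nat_lit 16248411, nat_lit 16257976,
  nat_lit 16267409, nat_lit 16276734, nat_lit 16285968, nat_lit 16295125, nat_lit 16304217,
  nat_lit 16313250, nat_lit 16322233, nat_lit 16331170, nat_lit 16340066, nat_lit 16348927,
  nat_lit 16357754, nat_lit 16366551, nat_lit 16375321, nat_lit 16384066, nat_lit 16392789,
  nat_lit 16401491, nat_lit 16410174, nat_lit 16418841, nat_lit 16427492, nat_lit 16436130,
  nat_lit 16444756, nat_lit 16453373, nat_lit 16461981, nat_lit 16470582, nat_lit 16479179,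
  nat_lit 16487774, nat_lit 16496370, nat_lit 16504968, nat_lit 16513573, nat_lit 16522188,
  nat_lit 16530819, nat_lit 16539471, nat_lit 16548152, nat_lit 16556873, nat_lit 16565650,
  nat_lit 16574502, nat_lit 16583463, nat_lit 16592585, nat_lit 16601967, nat_lit 16611813,
  nat_lit 16622731, nat_lit 16649211, nat_lit 16707444, nat_lit 16718427, nat_lit 16728311,
  nat_lit 16737722, nat_lit 16746873, nat_lit 16755865, nat_lit 16764751, nat_lit 16773567,
  nat_lit 16782336, nat_lit 16791074, nat_lit 16799793, nat_lit 16808505, nat_lit 16817216,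
  nat_lit 16825936, nat_lit 16834670, nat_lit 16843427, nat_lit 16852213, nat_lit 16861037,
  nat_lit 16869905, nat_lit 16878830, nat_lit 16887821, nat_lit 16896891, nat_lit 16906058,
  nat_lit 16915343, nat_lit 16924771, nat_lit 16934378, nat_lit 16944215, nat_lit 16954353,
  nat_lit 16964905, nat_lit 16976068, nat_lit 16988238, nat_lit 17002516, nat_lit 17250189,
  nat_lit 17267889, nat_lit 17280566, nat_lit 17291898, nat_lit 17302502, nat_lit 17312632,
  nat_lit 17322426, nat_lit 17331967, nat_lit 17341312, nat_lit 17350498, nat_lit 17359555,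
  nat_lit 17368503, nat_lit 17377361, nat_lit 17386141, nat_lit 17394855, nat_lit 17403511,
  nat_lit 17412117, nat_lit 17420679, nat_lit 17429204, nat_lit 17437695, nat_lit 17446156,
  nat_lit 17454593, nat_lit 17463007, nat_lit 17471401, nat_lit 17479779, nat_lit 17488143,
  nat_lit 17496495, nat_lit 17504838, nat_lit 17513172, nat_lit 17521501, nat_lit 17529825,
  nat_lit 17538148, nat_lit 17546469, nat_lit 17554792, nat_lit 17563117, nat_lit 17571447,
  nat_lit 17579783, nat_lit 17588127, nat_lit 17596481, nat_lit 17604846, nat_lit 17613224,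
  nat_lit 17621618, nat_lit 17630030, nat_lit 17638462, nat_lit 17646917, nat_lit 17655397,
  nat_lit 17663906, nat_lit 17672447, nat_lit 17681025, nat_lit 17689642, nat_lit 17698305,
  nat_lit 17707020, nat_lit 17715792, nat_lit 17724630, nat_lit 17733543, nat_lit 17742543,
  nat_lit 17751642, nat_lit 17760859, nat_lit 17770215, nat_lit 17779738, nat_lit 17789466,
  nat_lit 17799452, nat_lit 17809772, nat_lit 17820548, nat_lit 17831985, nat_lit 17844504,
  nat_lit 17859265, nat_lit 17984163, nat_lit 18147730, nat_lit 18163676, nat_lit 18177729,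
  nat_lit 18192915, nat_lit 18236493, nat_lit 18247789, nat_lit 18258350, nat_lit 18268585,
  nat_lit 18278629, nat_lit 18288547, nat_lit 18298376, nat_lit 18308139, nat_lit 18317855,
  nat_lit 18327537, nat_lit 18337195, nat_lit 18346838, nat_lit 18356474, nat_lit 18366110,
  nat_lit 18375750, nat_lit 18385401, nat_lit 18395068, nat_lit 18404756, nat_lit 18414468,
  nat_lit 18424210, nat_lit 18433986, nat_lit 18443801, nat_lit 18453658, nat_lit 18463563,
  nat_lit 18473519, nat_lit 18483533, nat_lit 18493608, nat_lit 18503751, nat_lit 18513967,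
  nat_lit 18524262, nat_lit 18534643, nat_lit 18545117, nat_lit 18555693, nat_lit 18566377,
  nat_lit 18577181, nat_lit 18588116, nat_lit 18599192, nat_lit 18610426, nat_lit 18621831,
  nat_lit 18633427, nat_lit 18645236, nat_lit 18657284, nat_lit 18669601, nat_lit 18682226,
  nat_lit 18695206, nat_lit 18708603, nat_lit 18722497, nat_lit 18736998, nat_lit 18752264,
  nat_lit 18768538, nat_lit 18786230, nat_lit 18806155, nat_lit 18830523, nat_lit 20543199,
  nat_lit 21059909, nat_lit 21079796, nat_lit 21096000, nat_lit 21110346, nat_lit 21123508,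
  nat_lit 21135824, nat_lit 21147498, nat_lit 21158660, nat_lit 21169401, nat_lit 21179790,
  nat_lit 21189877, nat_lit 21199703, nat_lit 21209299, nat_lit 21218692, nat_lit 21227906,
  nat_lit 21236958, nat_lit 21245865, nat_lit 21254642, nat_lit 21263302, nat_lit 21271857,
  nat_lit 21280319, nat_lit 21288697, nat_lit 21297003, nat_lit 21305247, nat_lit 21313441,
  nat_lit 21321598, nat_lit 21329731, nat_lit 21337859, nat_lit 21346001, nat_lit 21354190,
  nat_lit 21362465, nat_lit 21370894, nat_lit 21379590, nat_lit 21388790, nat_lit 21399167,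
  nat_lit 21486891, nat_lit 21505950, nat_lit 21515200, nat_lit 21523375, nat_lit 21531038,
  nat_lit 21538390, nat_lit 21545527, nat_lit 21552507, nat_lit 21559365, nat_lit 21566125,
  nat_lit 21572803, nat_lit 21579413, nat_lit 21585963, nat_lit 21592461, nat_lit 21598913,
  nat_lit 21605325, nat_lit 21611699, nat_lit 21618040, nat_lit 21624350, nat_lit 21630632,
  nat_lit 21636888, nat_lit 21643120, nat_lit 21649330, nat_lit 21655520, nat_lit 21661690,
  nat_lit 21667843, nat_lit 21673980, nat_lit 21680101, nat_lit 21686208, nat_lit 21692303,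
  nat_lit 21698386, nat_lit 21704459, nat_lit 21710522, nat_lit 21716576, nat_lit 21722623,
  nat_lit 21728665, nat_lit 21734701, nat_lit 21740733, nat_lit 21746763, nat_lit 21752792,
  nat_lit 21758821, nat_lit 21764853, nat_lit 21770887, nat_lit 21776927, nat_lit 21782974,
  nat_lit 21789031, nat_lit 21795101, nat_lit 21801185, nat_lit 21807287, nat_lit 21813411,
  nat_lit 21819561, nat_lit 21825743, nat_lit 21831961, nat_lit 21838225, nat_lit 21844541,
  nat_lit 21850922, nat_lit 21857381, nat_lit 21863937, nat_lit 21870613, nat_lit 21877446,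
  nat_lit 21884483, nat_lit 21891804, nat_lit 21899543, nat_lit 21907976, nat_lit 21917865,
  nat_lit 22008114, nat_lit 22093166, nat_lit 22103273, nat_lit 22111560, nat_lit 22119103,
  nat_lit 22126206, nat_lit 22133015, nat_lit 22139608, nat_lit 22146039, nat_lit 22152341,
  nat_lit 22158539, nat_lit 22164653, nat_lit 22170697, nat_lit 22176681, nat_lit 22182616,
  nat_lit 22188509, nat_lit 22194366, nat_lit 22200194, nat_lit 22205998, nat_lit 22211782,
  nat_lit 22217553, nat_lit 22223314, nat_lit 22229071, nat_lit 22234834, nat_lit 22240611,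
  nat_lit 22246419, nat_lit 22252289, nat_lit 22258288, nat_lit 22264632, nat_lit 22274803,
  nat_lit 22293819, nat_lit 22300207, nat_lit 22306236, nat_lit 22312134, nat_lit 22317972,
  nat_lit 22323780, nat_lit 22329576, nat_lit 22335370, nat_lit 22341170, nat_lit 22346979,
  nat_lit 22352803, nat_lit 22358645, nat_lit 22364510, nat_lit 22370401, nat_lit 22376320,
  nat_lit 22382272, nat_lit 22388261, nat_lit 22394291, nat_lit 22400367, nat_lit 22406492,
  nat_lit 22412675, nat_lit 22418919, nat_lit 22425234, nat_lit 22431628, nat_lit 22438111,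
  nat_lit 22444694, nat_lit 22451393, nat_lit 22458225, nat_lit 22465213, nat_lit 22472385,
  nat_lit 22479780, nat_lit 22487450, nat_lit 22495471, nat_lit 22503958, nat_lit 22513109,
  nat_lit 22523319, nat_lit 22535662, nat_lit 22827525, nat_lit 23090117, nat_lit 23101083,
  nat_lit 23110111, nat_lit 23118171, nat_lit 23125618, nat_lit 23132631, nat_lit 23139316,
  nat_lit 23145740, nat_lit 23151952, nat_lit 23157986, nat_lit 23163867, nat_lit 23169617,
  nat_lit 23175251, nat_lit 23180783, nat_lit 23186223, nat_lit 23191580, nat_lit 23196863,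
  nat_lit 23202078, nat_lit 23207230, nat_lit 23212325, nat_lit 23217366, nat_lit 23222359,
  nat_lit 23227305, nat_lit 23232208, nat_lit 23237072, nat_lit 23241898, nat_lit 23246688,
  nat_lit 23251445, nat_lit 23256171, nat_lit 23260867, nat_lit 23265535, nat_lit 23270176,
  nat_lit 23274792, nat_lit 23279383, nat_lit 23283952, nat_lit 23288499, nat_lit 23293025,
  nat_lit 23297531, nat_lit 23302018, nat_lit 23306487, nat_lit 23310939, nat_lit 23315374,
  nat_lit 23319793, nat_lit 23324197, nat_lit 23328586, nat_lit 23332961, nat_lit 23337323,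
  nat_lit 23341672, nat_lit 23346009, nat_lit 23350334, nat_lit 23354647, nat_lit 23358951,
  nat_lit 23363243, nat_lit 23367526, nat_lit 23371800, nat_lit 23376065, nat_lit 23380321,
  nat_lit 23384570, nat_lit 23388810, nat_lit 23393044, nat_lit 23397271, nat_lit 23401492,
  nat_lit 23405707, nat_lit 23409916, nat_lit 23414121, nat_lit 23418321, nat_lit 23422517,
  nat_lit 23426709, nat_lit 23430898, nat_lit 23435085, nat_lit 23439270, nat_lit 23443453,
  nat_lit 23447635, nat_lit 23451817, nat_lit 23456000, nat_lit 23460183, nat_lit 23464368,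
  nat_lit 23468556, nat_lit 23472747, nat_lit 23476943, nat_lit 23481144, nat_lit 23485352,
  nat_lit 23489567, nat_lit 23493792, nat_lit 23498027, nat_lit 23502275, nat_lit 23506537,
  nat_lit 23510816, nat_lit 23515115, nat_lit 23519436, nat_lit 23523783, nat_lit 23528161,
  nat_lit 23532575, nat_lit 23537030, nat_lit 23541536, nat_lit 23546102, nat_lit 23550742,
  nat_lit 23555473, nat_lit 23560319, nat_lit 23565318, nat_lit 23570525, nat_lit 23576038,
  nat_lit 23582055, nat_lit 23589124, nat_lit 23680226, nat_lit 23722744, nat_lit 23731537,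
  nat_lit 23739738, nat_lit 23748558, nat_lit 23833656, nat_lit 23888184, nat_lit 23895316,
  nat_lit 23901440, nat_lit 23907123, nat_lit 23912592, nat_lit 23917992, nat_lit 23923476,
  nat_lit 23929322, nat_lit 23937326, nat_lit 23992722, nat_lit 23998210, nat_lit 24003014,
  nat_lit 24007501, nat_lit 24011802, nat_lit 24015978, nat_lit 24020064, nat_lit 24024082,
  nat_lit 24028047, nat_lit 24031970, nat_lit 24035858, nat_lit 24039718, nat_lit 24043552,
  nat_lit 24047366, nat_lit 24051161, nat_lit 24054941, nat_lit 24058708, nat_lit 24062462,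
  nat_lit 24066206, nat_lit 24069941, nat_lit 24073667, nat_lit 24077387, nat_lit 24081100,
  nat_lit 24084807, nat_lit 24088510, nat_lit 24092209, nat_lit 24095904, nat_lit 24099597,
  nat_lit 24103287, nat_lit 24106975, nat_lit 24110661, nat_lit 24114347, nat_lit 24118033,
  nat_lit 24121718, nat_lit 24125404, nat_lit 24129091, nat_lit 24132780, nat_lit 24136470,
  nat_lit 24140163, nat_lit 24143860, nat_lit 24147560, nat_lit 24151264, nat_lit 24154974,
  nat_lit 24158691, nat_lit 24162416, nat_lit 24166150, nat_lit 24169897, nat_lit 24173660,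
  nat_lit 24177444, nat_lit 24181259, nat_lit 24185121, nat_lit 24189068, nat_lit 24193204,
  nat_lit 24198356, nat_lit 24206317, nat_lit 24216059, nat_lit 24220392, nat_lit 24224463,
  nat_lit 24228437, nat_lit 24232367, nat_lit 24236276, nat_lit 24240174, nat_lit 24244070,
  nat_lit 24247967, nat_lit 24251869, nat_lit 24255779, nat_lit 24259698, nat_lit 24263627,
  nat_lit 24267569, nat_lit 24271525, nat_lit 24275496, nat_lit 24279482, nat_lit 24283487,
  nat_lit 24287509, nat_lit 24291551, nat_lit 24295615, nat_lit 24299700, nat_lit 24303810,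
  nat_lit 24307945, nat_lit 24312107, nat_lit 24316298, nat_lit 24320520, nat_lit 24324774,
  nat_lit 24329064, nat_lit 24333391, nat_lit 24337758, nat_lit 24342169, nat_lit 24346627,
  nat_lit 24351136, nat_lit 24355699, nat_lit 24360322, nat_lit 24365011, nat_lit 24369772,
  nat_lit 24374612, nat_lit 24379541, nat_lit 24384569, nat_lit 24389709, nat_lit 24394976,
  nat_lit 24400390, nat_lit 24405977, nat_lit 24411769, nat_lit 24417813, nat_lit 24424173,
  nat_lit 24430950, nat_lit 24438314, nat_lit 24446604, nat_lit 24456735]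

/-- Numerator of the bound. -/
def upC14 : ℕ := Nat.mul (nat_lit 2190699416115821187) (Nat.pow (nat_lit 2) (nat_lit 214467))

/-- Test points. -/
def upS14_0 : List (ℕ × ℕ × ℕ × ℕ) := [
  (nat_lit 10550828, nat_lit 10550828, nat_lit 2, nat_lit 1),
  (nat_lit 10613565, nat_lit 62737, nat_lit 2, nat_lit 1),
  (nat_lit 10659118, nat_lit 45553, nat_lit 2, nat_lit 1),
  (nat_lit 10698004, nat_lit 38886, nat_lit 2, nat_lit 1),
  (nat_lit 10732990, nat_lit 34986, nat_lit 2, nat_lit 1),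
  (nat_lit 10765312, nat_lit 32322, nat_lit 2, nat_lit 1),
  (nat_lit 10795657, nat_lit 30345, nat_lit 2, nat_lit 1),
  (nat_lit 10824451, nat_lit 28794, nat_lit 2, nat_lit 1),
  (nat_lit 10851987, nat_lit 27536, nat_lit 2, nat_lit 1),
  (nat_lit 10878472, nat_lit 26485, nat_lit 2, nat_lit 1),
  (nat_lit 10904061, nat_lit 25589, nat_lit 2, nat_lit 1),
  (nat_lit 10928877, nat_lit 24816, nat_lit 2, nat_lit 1),
  (nat_lit 10953013, nat_lit 24136, nat_lit 2, nat_lit 1),
  (nat_lit 10976550, nat_lit 23537, nat_lit 2, nat_lit 1),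
  (nat_lit 10999550, nat_lit 23000, nat_lit 2, nat_lit 1),
  (nat_lit 11022067, nat_lit 22517, nat_lit 2, nat_lit 1),
  (nat_lit 11044148, nat_lit 22081, nat_lit 2, nat_lit 1),
  (nat_lit 11065833, nat_lit 21685, nat_lit 2, nat_lit 1),
  (nat_lit 11087155, nat_lit 21322, nat_lit 2, nat_lit 1),
  (nat_lit 11108146, nat_lit 20991, nat_lit 2, nat_lit 1),
  (nat_lit 11128833, nat_lit 20687, nat_lit 2, nat_lit 1),
  (nat_lit 11149240, nat_lit 20407, nat_lit 2, nat_lit 1),
  (nat_lit 11169391, nat_lit 20151, nat_lit 2, nat_lit 1),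
  (nat_lit 11189305, nat_lit 19914, nat_lit 2, nat_lit 1),
  (nat_lit 11209001, nat_lit 19696, nat_lit 2, nat_lit 1),
  (nat_lit 11228499, nat_lit 19498, nat_lit 2, nat_lit 1),
  (nat_lit 11247814, nat_lit 19315, nat_lit 2, nat_lit 1),
  (nat_lit 11266963, nat_lit 19149, nat_lit 2, nat_lit 1),
  (nat_lit 11285964, nat_lit 19001, nat_lit 2, nat_lit 1),
  (nat_lit 11304832, nat_lit 18868, nat_lit 2, nat_lit 1),
  (nat_lit 11323583, nat_lit 18751, nat_lit 2, nat_lit 1),
  (nat_lit 11342235, nat_lit 18652, nat_lit 2, nat_lit 1),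
  (nat_lit 11360807, nat_lit 18572, nat_lit 2, nat_lit 1),
  (nat_lit 11379319, nat_lit 18512, nat_lit 2, nat_lit 1)]

/-- Test points. -/
def upS14_1 : List (ℕ × ℕ × ℕ × ℕ) := [
  (nat_lit 11397794, nat_lit 18475, nat_lit 2, nat_lit 1),
  (nat_lit 11416259, nat_lit 18491, nat_lit 2, nat_lit 1),
  (nat_lit 11434750, nat_lit 18562, nat_lit 2, nat_lit 1),
  (nat_lit 11453312, nat_lit 18698, nat_lit 2, nat_lit 1),
  (nat_lit 11472010, nat_lit 18937, nat_lit 2, nat_lit 1),
  (nat_lit 11490947, nat_lit 19369, nat_lit 2, nat_lit 1),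
  (nat_lit 11510316, nat_lit 20263, nat_lit 2, nat_lit 1),
  (nat_lit 11530579, nat_lit 23112, nat_lit 2, nat_lit 1),
  (nat_lit 11553691, nat_lit 29748, nat_lit 2, nat_lit 1),
  (nat_lit 11583439, nat_lit 47627, nat_lit 2, nat_lit 0),
  (nat_lit 11631066, nat_lit 47627, nat_lit 3, nat_lit 1),
  (nat_lit 11660015, nat_lit 32839, nat_lit 3, nat_lit 1),
  (nat_lit 11692854, nat_lit 70556, nat_lit 3, nat_lit 1),
  (nat_lit 11763410, nat_lit 356458, nat_lit 3, nat_lit 0),
  (nat_lit 12119868, nat_lit 356458, nat_lit 2, nat_lit 1),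
  (nat_lit 12147692, nat_lit 27824, nat_lit 2, nat_lit 1),
  (nat_lit 12169063, nat_lit 21371, nat_lit 2, nat_lit 1),
  (nat_lit 12188062, nat_lit 18999, nat_lit 2, nat_lit 1),
  (nat_lit 12205740, nat_lit 17678, nat_lit 2, nat_lit 1),
  (nat_lit 12222556, nat_lit 16816, nat_lit 2, nat_lit 1),
  (nat_lit 12238760, nat_lit 16204, nat_lit 2, nat_lit 1),
  (nat_lit 12254506, nat_lit 15746, nat_lit 2, nat_lit 1),
  (nat_lit 12269901, nat_lit 15395, nat_lit 2, nat_lit 1),
  (nat_lit 12285021, nat_lit 15120, nat_lit 2, nat_lit 1),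
  (nat_lit 12299925, nat_lit 14904, nat_lit 2, nat_lit 1),
  (nat_lit 12314662, nat_lit 14737, nat_lit 2, nat_lit 1),
  (nat_lit 12329274, nat_lit 14612, nat_lit 2, nat_lit 1),
  (nat_lit 12343799, nat_lit 14525, nat_lit 2, nat_lit 1),
  (nat_lit 12358279, nat_lit 14480, nat_lit 2, nat_lit 1),
  (nat_lit 12372756, nat_lit 14528, nat_lit 2, nat_lit 1),
  (nat_lit 12387284, nat_lit 14645, nat_lit 2, nat_lit 1),
  (nat_lit 12401929, nat_lit 14862, nat_lit 2, nat_lit 1),
  (nat_lit 12416791, nat_lit 15235, nat_lit 2, nat_lit 1),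
  (nat_lit 12432026, nat_lit 15899, nat_lit 2, nat_lit 1)]

/-- Test points. -/
def upS14_2 : List (ℕ × ℕ × ℕ × ℕ) := [
  (nat_lit 12447925, nat_lit 17241, nat_lit 2, nat_lit 1),
  (nat_lit 12465166, nat_lit 21297, nat_lit 2, nat_lit 1),
  (nat_lit 12486463, nat_lit 140016, nat_lit 2, nat_lit 0),
  (nat_lit 12626479, nat_lit 140016, nat_lit 3, nat_lit 1),
  (nat_lit 12657241, nat_lit 30762, nat_lit 3, nat_lit 1),
  (nat_lit 12676656, nat_lit 19415, nat_lit 3, nat_lit 1),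
  (nat_lit 12692452, nat_lit 15796, nat_lit 3, nat_lit 1),
  (nat_lit 12706947, nat_lit 14495, nat_lit 3, nat_lit 1),
  (nat_lit 12720731, nat_lit 13784, nat_lit 3, nat_lit 1),
  (nat_lit 12734059, nat_lit 13328, nat_lit 3, nat_lit 1),
  (nat_lit 12747064, nat_lit 13005, nat_lit 3, nat_lit 1),
  (nat_lit 12759827, nat_lit 12763, nat_lit 3, nat_lit 1),
  (nat_lit 12772401, nat_lit 12574, nat_lit 3, nat_lit 1),
  (nat_lit 12784823, nat_lit 12422, nat_lit 3, nat_lit 1),
  (nat_lit 12797118, nat_lit 12295, nat_lit 3, nat_lit 1),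
  (nat_lit 12809306, nat_lit 12188, nat_lit 3, nat_lit 1),
  (nat_lit 12821403, nat_lit 12097, nat_lit 3, nat_lit 1),
  (nat_lit 12833420, nat_lit 12017, nat_lit 3, nat_lit 1),
  (nat_lit 12845366, nat_lit 11946, nat_lit 3, nat_lit 1),
  (nat_lit 12857249, nat_lit 11883, nat_lit 3, nat_lit 1),
  (nat_lit 12869076, nat_lit 11827, nat_lit 3, nat_lit 1),
  (nat_lit 12880852, nat_lit 11776, nat_lit 3, nat_lit 1),
  (nat_lit 12892581, nat_lit 11729, nat_lit 3, nat_lit 1),
  (nat_lit 12904268, nat_lit 11687, nat_lit 3, nat_lit 1),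
  (nat_lit 12915916, nat_lit 11648, nat_lit 3, nat_lit 1),
  (nat_lit 12927528, nat_lit 11612, nat_lit 3, nat_lit 1),
  (nat_lit 12939106, nat_lit 11578, nat_lit 3, nat_lit 1),
  (nat_lit 12950654, nat_lit 11548, nat_lit 3, nat_lit 1),
  (nat_lit 12962171, nat_lit 11517, nat_lit 3, nat_lit 1),
  (nat_lit 12973663, nat_lit 11492, nat_lit 3, nat_lit 1),
  (nat_lit 12985129, nat_lit 11466, nat_lit 3, nat_lit 1),
  (nat_lit 12996571, nat_lit 11442, nat_lit 3, nat_lit 1),
  (nat_lit 13007992, nat_lit 11421, nat_lit 3, nat_lit 1),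
  (nat_lit 13019391, nat_lit 11399, nat_lit 3, nat_lit 1)]

/-- Test points. -/
def upS14_3 : List (ℕ × ℕ × ℕ × ℕ) := [
  (nat_lit 13030772, nat_lit 11381, nat_lit 3, nat_lit 1),
  (nat_lit 13042135, nat_lit 11363, nat_lit 3, nat_lit 1),
  (nat_lit 13053481, nat_lit 11346, nat_lit 3, nat_lit 1),
  (nat_lit 13064813, nat_lit 11332, nat_lit 3, nat_lit 1),
  (nat_lit 13076130, nat_lit 11317, nat_lit 3, nat_lit 1),
  (nat_lit 13087433, nat_lit 11303, nat_lit 3, nat_lit 1),
  (nat_lit 13098725, nat_lit 11292, nat_lit 3, nat_lit 1),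
  (nat_lit 13110007, nat_lit 11282, nat_lit 3, nat_lit 1),
  (nat_lit 13121279, nat_lit 11272, nat_lit 3, nat_lit 1),
  (nat_lit 13132542, nat_lit 11263, nat_lit 3, nat_lit 1),
  (nat_lit 13143798, nat_lit 11256, nat_lit 3, nat_lit 1),
  (nat_lit 13155049, nat_lit 11251, nat_lit 3, nat_lit 1),
  (nat_lit 13166294, nat_lit 11245, nat_lit 3, nat_lit 1),
  (nat_lit 13177536, nat_lit 11242, nat_lit 3, nat_lit 1),
  (nat_lit 13188776, nat_lit 11240, nat_lit 3, nat_lit 1),
  (nat_lit 13200014, nat_lit 11240, nat_lit 3, nat_lit 1),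
  (nat_lit 13211254, nat_lit 11241, nat_lit 3, nat_lit 1),
  (nat_lit 13222495, nat_lit 11245, nat_lit 3, nat_lit 1),
  (nat_lit 13233740, nat_lit 11250, nat_lit 3, nat_lit 1),
  (nat_lit 13244990, nat_lit 11257, nat_lit 3, nat_lit 1),
  (nat_lit 13256247, nat_lit 11266, nat_lit 3, nat_lit 1),
  (nat_lit 13267513, nat_lit 11277, nat_lit 3, nat_lit 1),
  (nat_lit 13278790, nat_lit 11290, nat_lit 3, nat_lit 1),
  (nat_lit 13290080, nat_lit 11306, nat_lit 3, nat_lit 1),
  (nat_lit 13301386, nat_lit 11324, nat_lit 3, nat_lit 1),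
  (nat_lit 13312710, nat_lit 11345, nat_lit 3, nat_lit 1),
  (nat_lit 13324055, nat_lit 11371, nat_lit 3, nat_lit 1),
  (nat_lit 13335426, nat_lit 11398, nat_lit 3, nat_lit 1),
  (nat_lit 13346824, nat_lit 11430, nat_lit 3, nat_lit 1),
  (nat_lit 13358254, nat_lit 11467, nat_lit 3, nat_lit 1),
  (nat_lit 13369721, nat_lit 11509, nat_lit 3, nat_lit 1),
  (nat_lit 13381230, nat_lit 11557, nat_lit 3, nat_lit 1),
  (nat_lit 13392787, nat_lit 11612, nat_lit 3, nat_lit 1),
  (nat_lit 13404399, nat_lit 11674, nat_lit 3, nat_lit 1)]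

/-- Test points. -/
def upS14_4 : List (ℕ × ℕ × ℕ × ℕ) := [
  (nat_lit 13416073, nat_lit 11746, nat_lit 3, nat_lit 1),
  (nat_lit 13427819, nat_lit 11829, nat_lit 3, nat_lit 1),
  (nat_lit 13439648, nat_lit 11925, nat_lit 3, nat_lit 1),
  (nat_lit 13451573, nat_lit 12037, nat_lit 3, nat_lit 1),
  (nat_lit 13463610, nat_lit 12169, nat_lit 3, nat_lit 1),
  (nat_lit 13475779, nat_lit 12326, nat_lit 3, nat_lit 1),
  (nat_lit 13488105, nat_lit 12515, nat_lit 3, nat_lit 1),
  (nat_lit 13500620, nat_lit 12747, nat_lit 3, nat_lit 1),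
  (nat_lit 13513367, nat_lit 13035, nat_lit 3, nat_lit 1),
  (nat_lit 13526402, nat_lit 13407, nat_lit 3, nat_lit 1),
  (nat_lit 13539809, nat_lit 13902, nat_lit 3, nat_lit 1),
  (nat_lit 13553711, nat_lit 14600, nat_lit 3, nat_lit 1),
  (nat_lit 13568311, nat_lit 15673, nat_lit 3, nat_lit 1),
  (nat_lit 13583984, nat_lit 17605, nat_lit 3, nat_lit 1),
  (nat_lit 13601589, nat_lit 22885, nat_lit 3, nat_lit 1),
  (nat_lit 13624474, nat_lit 115990, nat_lit 3, nat_lit 1),
  (nat_lit 13740464, nat_lit 231599, nat_lit 9, nat_lit 0),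
  (nat_lit 13972063, nat_lit 231599, nat_lit 2, nat_lit 1),
  (nat_lit 13995405, nat_lit 23342, nat_lit 2, nat_lit 1),
  (nat_lit 14013410, nat_lit 18005, nat_lit 2, nat_lit 1),
  (nat_lit 14029481, nat_lit 16071, nat_lit 2, nat_lit 1),
  (nat_lit 14044490, nat_lit 15009, nat_lit 2, nat_lit 1),
  (nat_lit 14058819, nat_lit 14329, nat_lit 2, nat_lit 1),
  (nat_lit 14072677, nat_lit 13858, nat_lit 2, nat_lit 1),
  (nat_lit 14086191, nat_lit 13514, nat_lit 2, nat_lit 1),
  (nat_lit 14099445, nat_lit 13254, nat_lit 2, nat_lit 1),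
  (nat_lit 14112502, nat_lit 13057, nat_lit 2, nat_lit 1),
  (nat_lit 14125407, nat_lit 12905, nat_lit 2, nat_lit 1),
  (nat_lit 14138195, nat_lit 12788, nat_lit 2, nat_lit 1),
  (nat_lit 14150894, nat_lit 12699, nat_lit 2, nat_lit 1),
  (nat_lit 14163529, nat_lit 12635, nat_lit 2, nat_lit 1),
  (nat_lit 14176118, nat_lit 12589, nat_lit 2, nat_lit 1),
  (nat_lit 14188681, nat_lit 12563, nat_lit 2, nat_lit 1),
  (nat_lit 14201234, nat_lit 12555, nat_lit 2, nat_lit 1)]

/-- Test points. -/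
def upS14_5 : List (ℕ × ℕ × ℕ × ℕ) := [
  (nat_lit 14213789, nat_lit 12574, nat_lit 2, nat_lit 1),
  (nat_lit 14226363, nat_lit 12605, nat_lit 2, nat_lit 1),
  (nat_lit 14238968, nat_lit 12651, nat_lit 2, nat_lit 1),
  (nat_lit 14251619, nat_lit 12709, nat_lit 2, nat_lit 1),
  (nat_lit 14264328, nat_lit 12782, nat_lit 2, nat_lit 1),
  (nat_lit 14277110, nat_lit 12872, nat_lit 2, nat_lit 1),
  (nat_lit 14289982, nat_lit 12976, nat_lit 2, nat_lit 1),
  (nat_lit 14302958, nat_lit 13101, nat_lit 2, nat_lit 1),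
  (nat_lit 14316059, nat_lit 13247, nat_lit 2, nat_lit 1),
  (nat_lit 14329306, nat_lit 13416, nat_lit 2, nat_lit 1),
  (nat_lit 14342722, nat_lit 13614, nat_lit 2, nat_lit 1),
  (nat_lit 14356336, nat_lit 13846, nat_lit 2, nat_lit 1),
  (nat_lit 14370182, nat_lit 14120, nat_lit 2, nat_lit 1),
  (nat_lit 14384302, nat_lit 14445, nat_lit 2, nat_lit 1),
  (nat_lit 14398747, nat_lit 14841, nat_lit 2, nat_lit 1),
  (nat_lit 14413588, nat_lit 15325, nat_lit 2, nat_lit 1),
  (nat_lit 14428913, nat_lit 15937, nat_lit 2, nat_lit 1),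
  (nat_lit 14444850, nat_lit 16736, nat_lit 2, nat_lit 1),
  (nat_lit 14461586, nat_lit 17840, nat_lit 2, nat_lit 1),
  (nat_lit 14479426, nat_lit 19492, nat_lit 2, nat_lit 1),
  (nat_lit 14498918, nat_lit 22388, nat_lit 2, nat_lit 1),
  (nat_lit 14521306, nat_lit 30046, nat_lit 2, nat_lit 1),
  (nat_lit 14551352, nat_lit 773090, nat_lit 2, nat_lit 0),
  (nat_lit 15324442, nat_lit 773090, nat_lit 5, nat_lit 1),
  (nat_lit 15646319, nat_lit 321877, nat_lit 3, nat_lit 1),
  (nat_lit 15673607, nat_lit 27288, nat_lit 3, nat_lit 1),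
  (nat_lit 15693851, nat_lit 20244, nat_lit 3, nat_lit 1),
  (nat_lit 15711414, nat_lit 17563, nat_lit 3, nat_lit 1),
  (nat_lit 15727440, nat_lit 16026, nat_lit 3, nat_lit 1),
  (nat_lit 15742431, nat_lit 14991, nat_lit 3, nat_lit 1),
  (nat_lit 15756670, nat_lit 14239, nat_lit 3, nat_lit 1),
  (nat_lit 15770328, nat_lit 13658, nat_lit 3, nat_lit 1),
  (nat_lit 15783524, nat_lit 13196, nat_lit 3, nat_lit 1),
  (nat_lit 15796344, nat_lit 12820, nat_lit 3, nat_lit 1)]

/-- Test points. -/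
def upS14_6 : List (ℕ × ℕ × ℕ × ℕ) := [
  (nat_lit 15808852, nat_lit 12508, nat_lit 3, nat_lit 1),
  (nat_lit 15821098, nat_lit 12246, nat_lit 3, nat_lit 1),
  (nat_lit 15833124, nat_lit 12026, nat_lit 3, nat_lit 1),
  (nat_lit 15844967, nat_lit 11843, nat_lit 3, nat_lit 1),
  (nat_lit 15856659, nat_lit 11692, nat_lit 3, nat_lit 1),
  (nat_lit 15868232, nat_lit 11573, nat_lit 3, nat_lit 1),
  (nat_lit 15879719, nat_lit 11487, nat_lit 3, nat_lit 1),
  (nat_lit 15891162, nat_lit 11459, nat_lit 3, nat_lit 1),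
  (nat_lit 15902621, nat_lit 11577, nat_lit 3, nat_lit 1),
  (nat_lit 15914198, nat_lit 11942, nat_lit 3, nat_lit 1),
  (nat_lit 15926140, nat_lit 13360, nat_lit 3, nat_lit 1),
  (nat_lit 15939500, nat_lit 16003, nat_lit 3, nat_lit 1),
  (nat_lit 15955503, nat_lit 26727, nat_lit 3, nat_lit 0),
  (nat_lit 15982230, nat_lit 26727, nat_lit 2, nat_lit 1),
  (nat_lit 15996331, nat_lit 14101, nat_lit 2, nat_lit 1),
  (nat_lit 16009442, nat_lit 13737, nat_lit 2, nat_lit 1),
  (nat_lit 16023179, nat_lit 16715, nat_lit 2, nat_lit 1),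
  (nat_lit 16039894, nat_lit 66873, nat_lit 2, nat_lit 0),
  (nat_lit 16106767, nat_lit 66873, nat_lit 1369, nat_lit 1),
  (nat_lit 16151503, nat_lit 44736, nat_lit 3, nat_lit 1),
  (nat_lit 16175393, nat_lit 23890, nat_lit 3, nat_lit 1),
  (nat_lit 16190205, nat_lit 14812, nat_lit 3, nat_lit 1),
  (nat_lit 16202212, nat_lit 12007, nat_lit 3, nat_lit 1),
  (nat_lit 16213208, nat_lit 10996, nat_lit 3, nat_lit 1),
  (nat_lit 16223651, nat_lit 10443, nat_lit 3, nat_lit 1),
  (nat_lit 16233736, nat_lit 10085, nat_lit 3, nat_lit 1),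
  (nat_lit 16243568, nat_lit 9832, nat_lit 3, nat_lit 1),
  (nat_lit 16253212, nat_lit 9644, nat_lit 3, nat_lit 1),
  (nat_lit 16262707, nat_lit 9495, nat_lit 3, nat_lit 1),
  (nat_lit 16272084, nat_lit 9377, nat_lit 3, nat_lit 1),
  (nat_lit 16281361, nat_lit 9277, nat_lit 3, nat_lit 1),
  (nat_lit 16290555, nat_lit 9194, nat_lit 3, nat_lit 1),
  (nat_lit 16299679, nat_lit 9124, nat_lit 3, nat_lit 1),
  (nat_lit 16308740, nat_lit 9061, nat_lit 3, nat_lit 1)]

/-- Test points. -/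
def upS14_7 : List (ℕ × ℕ × ℕ × ℕ) := [
  (nat_lit 16317747, nat_lit 9007, nat_lit 3, nat_lit 1),
  (nat_lit 16326707, nat_lit 8960, nat_lit 3, nat_lit 1),
  (nat_lit 16335623, nat_lit 8916, nat_lit 3, nat_lit 1),
  (nat_lit 16344501, nat_lit 8878, nat_lit 3, nat_lit 1),
  (nat_lit 16353344, nat_lit 8843, nat_lit 3, nat_lit 1),
  (nat_lit 16362156, nat_lit 8812, nat_lit 3, nat_lit 1),
  (nat_lit 16370939, nat_lit 8783, nat_lit 3, nat_lit 1),
  (nat_lit 16379696, nat_lit 8757, nat_lit 3, nat_lit 1),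
  (nat_lit 16388430, nat_lit 8734, nat_lit 3, nat_lit 1),
  (nat_lit 16397142, nat_lit 8712, nat_lit 3, nat_lit 1),
  (nat_lit 16405835, nat_lit 8693, nat_lit 3, nat_lit 1),
  (nat_lit 16414509, nat_lit 8674, nat_lit 3, nat_lit 1),
  (nat_lit 16423168, nat_lit 8659, nat_lit 3, nat_lit 1),
  (nat_lit 16431813, nat_lit 8645, nat_lit 3, nat_lit 1),
  (nat_lit 16440444, nat_lit 8631, nat_lit 3, nat_lit 1),
  (nat_lit 16449066, nat_lit 8622, nat_lit 3, nat_lit 1),
  (nat_lit 16457678, nat_lit 8612, nat_lit 3, nat_lit 1),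
  (nat_lit 16466282, nat_lit 8604, nat_lit 3, nat_lit 1),
  (nat_lit 16474881, nat_lit 8599, nat_lit 3, nat_lit 1),
  (nat_lit 16483477, nat_lit 8596, nat_lit 3, nat_lit 1),
  (nat_lit 16492072, nat_lit 8596, nat_lit 3, nat_lit 1),
  (nat_lit 16500668, nat_lit 8601, nat_lit 3, nat_lit 1),
  (nat_lit 16509269, nat_lit 8610, nat_lit 3, nat_lit 1),
  (nat_lit 16517879, nat_lit 8622, nat_lit 3, nat_lit 1),
  (nat_lit 16526501, nat_lit 8641, nat_lit 3, nat_lit 1),
  (nat_lit 16535142, nat_lit 8665, nat_lit 3, nat_lit 1),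
  (nat_lit 16543807, nat_lit 8700, nat_lit 3, nat_lit 1),
  (nat_lit 16552507, nat_lit 8747, nat_lit 3, nat_lit 1),
  (nat_lit 16561254, nat_lit 8811, nat_lit 3, nat_lit 1),
  (nat_lit 16570065, nat_lit 8901, nat_lit 3, nat_lit 1),
  (nat_lit 16578966, nat_lit 9033, nat_lit 3, nat_lit 1),
  (nat_lit 16587999, nat_lit 9236, nat_lit 3, nat_lit 1),
  (nat_lit 16597235, nat_lit 9575, nat_lit 3, nat_lit 1),
  (nat_lit 16606810, nat_lit 10250, nat_lit 3, nat_lit 1)]

/-- Test points. -/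
def upS14_8 : List (ℕ × ℕ × ℕ × ℕ) := [
  (nat_lit 16617060, nat_lit 12300, nat_lit 3, nat_lit 1),
  (nat_lit 16629360, nat_lit 21491, nat_lit 3, nat_lit 1),
  (nat_lit 16650851, nat_lit 49895, nat_lit 3, nat_lit 0),
  (nat_lit 16700746, nat_lit 49895, nat_lit 2, nat_lit 1),
  (nat_lit 16713154, nat_lit 12408, nat_lit 2, nat_lit 1),
  (nat_lit 16723450, nat_lit 10296, nat_lit 2, nat_lit 1),
  (nat_lit 16733058, nat_lit 9608, nat_lit 2, nat_lit 1),
  (nat_lit 16742322, nat_lit 9264, nat_lit 2, nat_lit 1),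
  (nat_lit 16751385, nat_lit 9063, nat_lit 2, nat_lit 1),
  (nat_lit 16760319, nat_lit 8934, nat_lit 2, nat_lit 1),
  (nat_lit 16769166, nat_lit 8847, nat_lit 2, nat_lit 1),
  (nat_lit 16777956, nat_lit 8790, nat_lit 2, nat_lit 1),
  (nat_lit 16786708, nat_lit 8752, nat_lit 2, nat_lit 1),
  (nat_lit 16795435, nat_lit 8727, nat_lit 2, nat_lit 1),
  (nat_lit 16804149, nat_lit 8714, nat_lit 2, nat_lit 1),
  (nat_lit 16812860, nat_lit 8715, nat_lit 2, nat_lit 1),
  (nat_lit 16821575, nat_lit 8726, nat_lit 2, nat_lit 1),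
  (nat_lit 16830301, nat_lit 8744, nat_lit 2, nat_lit 1),
  (nat_lit 16839045, nat_lit 8771, nat_lit 2, nat_lit 1),
  (nat_lit 16847816, nat_lit 8804, nat_lit 2, nat_lit 1),
  (nat_lit 16856620, nat_lit 8845, nat_lit 2, nat_lit 1),
  (nat_lit 16865465, nat_lit 8895, nat_lit 2, nat_lit 1),
  (nat_lit 16874360, nat_lit 8956, nat_lit 2, nat_lit 1),
  (nat_lit 16883316, nat_lit 9029, nat_lit 2, nat_lit 1),
  (nat_lit 16892345, nat_lit 9116, nat_lit 2, nat_lit 1),
  (nat_lit 16901461, nat_lit 9223, nat_lit 2, nat_lit 1),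
  (nat_lit 16910684, nat_lit 9353, nat_lit 2, nat_lit 1),
  (nat_lit 16920037, nat_lit 9512, nat_lit 2, nat_lit 1),
  (nat_lit 16929549, nat_lit 9715, nat_lit 2, nat_lit 1),
  (nat_lit 16939264, nat_lit 9976, nat_lit 2, nat_lit 1),
  (nat_lit 16949240, nat_lit 10328, nat_lit 2, nat_lit 1),
  (nat_lit 16959568, nat_lit 10825, nat_lit 2, nat_lit 1),
  (nat_lit 16970393, nat_lit 11594, nat_lit 2, nat_lit 1),
  (nat_lit 16981987, nat_lit 12987, nat_lit 2, nat_lit 1)]

/-- Test points. -/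
def upS14_9 : List (ℕ × ℕ × ℕ × ℕ) := [
  (nat_lit 16994974, nat_lit 16816, nat_lit 2, nat_lit 1),
  (nat_lit 17011790, nat_lit 231054, nat_lit 2, nat_lit 0),
  (nat_lit 17242844, nat_lit 231054, nat_lit 3, nat_lit 1),
  (nat_lit 17260450, nat_lit 17606, nat_lit 3, nat_lit 1),
  (nat_lit 17274466, nat_lit 14016, nat_lit 3, nat_lit 1),
  (nat_lit 17286348, nat_lit 11882, nat_lit 3, nat_lit 1),
  (nat_lit 17297271, nat_lit 10923, nat_lit 3, nat_lit 1),
  (nat_lit 17307616, nat_lit 10345, nat_lit 3, nat_lit 1),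
  (nat_lit 17317565, nat_lit 9949, nat_lit 3, nat_lit 1),
  (nat_lit 17327224, nat_lit 9659, nat_lit 3, nat_lit 1),
  (nat_lit 17336661, nat_lit 9437, nat_lit 3, nat_lit 1),
  (nat_lit 17345923, nat_lit 9262, nat_lit 3, nat_lit 1),
  (nat_lit 17355041, nat_lit 9118, nat_lit 3, nat_lit 1),
  (nat_lit 17364041, nat_lit 9000, nat_lit 3, nat_lit 1),
  (nat_lit 17372943, nat_lit 8902, nat_lit 3, nat_lit 1),
  (nat_lit 17381760, nat_lit 8817, nat_lit 3, nat_lit 1),
  (nat_lit 17390506, nat_lit 8746, nat_lit 3, nat_lit 1),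
  (nat_lit 17399190, nat_lit 8684, nat_lit 3, nat_lit 1),
  (nat_lit 17407820, nat_lit 8630, nat_lit 3, nat_lit 1),
  (nat_lit 17416403, nat_lit 8583, nat_lit 3, nat_lit 1),
  (nat_lit 17424946, nat_lit 8543, nat_lit 3, nat_lit 1),
  (nat_lit 17433453, nat_lit 8507, nat_lit 3, nat_lit 1),
  (nat_lit 17441929, nat_lit 8476, nat_lit 3, nat_lit 1),
  (nat_lit 17450378, nat_lit 8449, nat_lit 3, nat_lit 1),
  (nat_lit 17458802, nat_lit 8424, nat_lit 3, nat_lit 1),
  (nat_lit 17467206, nat_lit 8404, nat_lit 3, nat_lit 1),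
  (nat_lit 17475592, nat_lit 8386, nat_lit 3, nat_lit 1),
  (nat_lit 17483963, nat_lit 8371, nat_lit 3, nat_lit 1),
  (nat_lit 17492320, nat_lit 8357, nat_lit 3, nat_lit 1),
  (nat_lit 17500668, nat_lit 8348, nat_lit 3, nat_lit 1),
  (nat_lit 17509006, nat_lit 8338, nat_lit 3, nat_lit 1),
  (nat_lit 17517337, nat_lit 8331, nat_lit 3, nat_lit 1),
  (nat_lit 17525663, nat_lit 8326, nat_lit 3, nat_lit 1),
  (nat_lit 17533987, nat_lit 8324, nat_lit 3, nat_lit 1)]

/-- Test points. -/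
def upS14_10 : List (ℕ × ℕ × ℕ × ℕ) := [
  (nat_lit 17542308, nat_lit 8322, nat_lit 3, nat_lit 1),
  (nat_lit 17550630, nat_lit 8324, nat_lit 3, nat_lit 1),
  (nat_lit 17558954, nat_lit 8327, nat_lit 3, nat_lit 1),
  (nat_lit 17567281, nat_lit 8333, nat_lit 3, nat_lit 1),
  (nat_lit 17575614, nat_lit 8340, nat_lit 3, nat_lit 1),
  (nat_lit 17583954, nat_lit 8349, nat_lit 3, nat_lit 1),
  (nat_lit 17592303, nat_lit 8359, nat_lit 3, nat_lit 1),
  (nat_lit 17600662, nat_lit 8371, nat_lit 3, nat_lit 1),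
  (nat_lit 17609033, nat_lit 8386, nat_lit 3, nat_lit 1),
  (nat_lit 17617419, nat_lit 8403, nat_lit 3, nat_lit 1),
  (nat_lit 17625822, nat_lit 8421, nat_lit 3, nat_lit 1),
  (nat_lit 17634243, nat_lit 8443, nat_lit 3, nat_lit 1),
  (nat_lit 17642686, nat_lit 8468, nat_lit 3, nat_lit 1),
  (nat_lit 17651154, nat_lit 8494, nat_lit 3, nat_lit 1),
  (nat_lit 17659648, nat_lit 8524, nat_lit 3, nat_lit 1),
  (nat_lit 17668172, nat_lit 8559, nat_lit 3, nat_lit 1),
  (nat_lit 17676731, nat_lit 8597, nat_lit 3, nat_lit 1),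
  (nat_lit 17685328, nat_lit 8640, nat_lit 3, nat_lit 1),
  (nat_lit 17693968, nat_lit 8688, nat_lit 3, nat_lit 1),
  (nat_lit 17702656, nat_lit 8742, nat_lit 3, nat_lit 1),
  (nat_lit 17711398, nat_lit 8804, nat_lit 3, nat_lit 1),
  (nat_lit 17720202, nat_lit 8874, nat_lit 3, nat_lit 1),
  (nat_lit 17729076, nat_lit 8955, nat_lit 3, nat_lit 1),
  (nat_lit 17738031, nat_lit 9048, nat_lit 3, nat_lit 1),
  (nat_lit 17747079, nat_lit 9156, nat_lit 3, nat_lit 1),
  (nat_lit 17756235, nat_lit 9283, nat_lit 3, nat_lit 1),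
  (nat_lit 17765518, nat_lit 9435, nat_lit 3, nat_lit 1),
  (nat_lit 17774953, nat_lit 9621, nat_lit 3, nat_lit 1),
  (nat_lit 17784574, nat_lit 9849, nat_lit 3, nat_lit 1),
  (nat_lit 17794423, nat_lit 10141, nat_lit 3, nat_lit 1),
  (nat_lit 17804564, nat_lit 10529, nat_lit 3, nat_lit 1),
  (nat_lit 17815093, nat_lit 11072, nat_lit 3, nat_lit 1),
  (nat_lit 17826165, nat_lit 11902, nat_lit 3, nat_lit 1),
  (nat_lit 17838067, nat_lit 13391, nat_lit 3, nat_lit 1)]

/-- Test points. -/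
def upS14_11 : List (ℕ × ℕ × ℕ × ℕ) := [
  (nat_lit 17851458, nat_lit 17442, nat_lit 3, nat_lit 1),
  (nat_lit 17868900, nat_lit 115621, nat_lit 3, nat_lit 1),
  (nat_lit 17984521, nat_lit 152969, nat_lit 55, nat_lit 0),
  (nat_lit 18137490, nat_lit 152969, nat_lit 2, nat_lit 1),
  (nat_lit 18156114, nat_lit 18624, nat_lit 2, nat_lit 1),
  (nat_lit 18170802, nat_lit 14688, nat_lit 2, nat_lit 1),
  (nat_lit 18184741, nat_lit 13939, nat_lit 2, nat_lit 1),
  (nat_lit 18198315, nat_lit 31706, nat_lit 2, nat_lit 0),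
  (nat_lit 18230021, nat_lit 31706, nat_lit 3, nat_lit 1),
  (nat_lit 18242287, nat_lit 12266, nat_lit 3, nat_lit 1),
  (nat_lit 18253124, nat_lit 10837, nat_lit 3, nat_lit 1),
  (nat_lit 18263497, nat_lit 10373, nat_lit 3, nat_lit 1),
  (nat_lit 18273626, nat_lit 10129, nat_lit 3, nat_lit 1),
  (nat_lit 18283601, nat_lit 9975, nat_lit 3, nat_lit 1),
  (nat_lit 18293471, nat_lit 9870, nat_lit 3, nat_lit 1),
  (nat_lit 18303264, nat_lit 9793, nat_lit 3, nat_lit 1),
  (nat_lit 18313002, nat_lit 9738, nat_lit 3, nat_lit 1),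
  (nat_lit 18322700, nat_lit 9698, nat_lit 3, nat_lit 1),
  (nat_lit 18332368, nat_lit 9668, nat_lit 3, nat_lit 1),
  (nat_lit 18342018, nat_lit 9650, nat_lit 3, nat_lit 1),
  (nat_lit 18351657, nat_lit 9639, nat_lit 3, nat_lit 1),
  (nat_lit 18361292, nat_lit 9637, nat_lit 3, nat_lit 1),
  (nat_lit 18370929, nat_lit 9645, nat_lit 3, nat_lit 1),
  (nat_lit 18380574, nat_lit 9658, nat_lit 3, nat_lit 1),
  (nat_lit 18390232, nat_lit 9677, nat_lit 3, nat_lit 1),
  (nat_lit 18399909, nat_lit 9700, nat_lit 3, nat_lit 1),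
  (nat_lit 18409609, nat_lit 9726, nat_lit 3, nat_lit 1),
  (nat_lit 18419335, nat_lit 9759, nat_lit 3, nat_lit 1),
  (nat_lit 18429094, nat_lit 9794, nat_lit 3, nat_lit 1),
  (nat_lit 18438888, nat_lit 9836, nat_lit 3, nat_lit 1),
  (nat_lit 18448724, nat_lit 9880, nat_lit 3, nat_lit 1),
  (nat_lit 18458604, nat_lit 9930, nat_lit 3, nat_lit 1),
  (nat_lit 18468534, nat_lit 9985, nat_lit 3, nat_lit 1),
  (nat_lit 18478519, nat_lit 10043, nat_lit 3, nat_lit 1)]

/-- Test points. -/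
def upS14_12 : List (ℕ × ℕ × ℕ × ℕ) := [
  (nat_lit 18488562, nat_lit 10109, nat_lit 3, nat_lit 1),
  (nat_lit 18498671, nat_lit 10178, nat_lit 3, nat_lit 1),
  (nat_lit 18508849, nat_lit 10255, nat_lit 3, nat_lit 1),
  (nat_lit 18519104, nat_lit 10337, nat_lit 3, nat_lit 1),
  (nat_lit 18529441, nat_lit 10427, nat_lit 3, nat_lit 1),
  (nat_lit 18539868, nat_lit 10524, nat_lit 3, nat_lit 1),
  (nat_lit 18550392, nat_lit 10629, nat_lit 3, nat_lit 1),
  (nat_lit 18561021, nat_lit 10743, nat_lit 3, nat_lit 1),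
  (nat_lit 18571764, nat_lit 10867, nat_lit 3, nat_lit 1),
  (nat_lit 18582631, nat_lit 11004, nat_lit 3, nat_lit 1),
  (nat_lit 18593635, nat_lit 11154, nat_lit 3, nat_lit 1),
  (nat_lit 18604789, nat_lit 11317, nat_lit 3, nat_lit 1),
  (nat_lit 18616106, nat_lit 11498, nat_lit 3, nat_lit 1),
  (nat_lit 18627604, nat_lit 11699, nat_lit 3, nat_lit 1),
  (nat_lit 18639303, nat_lit 11925, nat_lit 3, nat_lit 1),
  (nat_lit 18651228, nat_lit 12179, nat_lit 3, nat_lit 1),
  (nat_lit 18663407, nat_lit 12465, nat_lit 3, nat_lit 1),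
  (nat_lit 18675872, nat_lit 12796, nat_lit 3, nat_lit 1),
  (nat_lit 18688668, nat_lit 13180, nat_lit 3, nat_lit 1),
  (nat_lit 18701848, nat_lit 13634, nat_lit 3, nat_lit 1),
  (nat_lit 18715482, nat_lit 14181, nat_lit 3, nat_lit 1),
  (nat_lit 18729663, nat_lit 14860, nat_lit 3, nat_lit 1),
  (nat_lit 18744523, nat_lit 15732, nat_lit 3, nat_lit 1),
  (nat_lit 18760255, nat_lit 16915, nat_lit 3, nat_lit 1),
  (nat_lit 18777170, nat_lit 18662, nat_lit 3, nat_lit 1),
  (nat_lit 18795832, nat_lit 21675, nat_lit 3, nat_lit 1),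
  (nat_lit 18817507, nat_lit 29518, nat_lit 3, nat_lit 1),
  (nat_lit 18847025, nat_lit 1695190, nat_lit 3, nat_lit 0),
  (nat_lit 20542215, nat_lit 1695190, nat_lit 148, nat_lit 1),
  (nat_lit 21046398, nat_lit 504183, nat_lit 2, nat_lit 1),
  (nat_lit 21070541, nat_lit 24143, nat_lit 2, nat_lit 1),
  (nat_lit 21088197, nat_lit 17656, nat_lit 2, nat_lit 1),
  (nat_lit 21103351, nat_lit 15154, nat_lit 2, nat_lit 1),
  (nat_lit 21117049, nat_lit 13698, nat_lit 2, nat_lit 1)]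

/-- Test points. -/
def upS14_13 : List (ℕ × ℕ × ℕ × ℕ) := [
  (nat_lit 21129757, nat_lit 12708, nat_lit 2, nat_lit 1),
  (nat_lit 21141732, nat_lit 11975, nat_lit 2, nat_lit 1),
  (nat_lit 21153137, nat_lit 11405, nat_lit 2, nat_lit 1),
  (nat_lit 21164078, nat_lit 10941, nat_lit 2, nat_lit 1),
  (nat_lit 21174636, nat_lit 10558, nat_lit 2, nat_lit 1),
  (nat_lit 21184869, nat_lit 10233, nat_lit 2, nat_lit 1),
  (nat_lit 21194820, nat_lit 9951, nat_lit 2, nat_lit 1),
  (nat_lit 21204528, nat_lit 9708, nat_lit 2, nat_lit 1),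
  (nat_lit 21214019, nat_lit 9491, nat_lit 2, nat_lit 1),
  (nat_lit 21223320, nat_lit 9301, nat_lit 2, nat_lit 1),
  (nat_lit 21232451, nat_lit 9131, nat_lit 2, nat_lit 1),
  (nat_lit 21241429, nat_lit 8978, nat_lit 2, nat_lit 1),
  (nat_lit 21250269, nat_lit 8840, nat_lit 2, nat_lit 1),
  (nat_lit 21258986, nat_lit 8717, nat_lit 2, nat_lit 1),
  (nat_lit 21267592, nat_lit 8606, nat_lit 2, nat_lit 1),
  (nat_lit 21276099, nat_lit 8507, nat_lit 2, nat_lit 1),
  (nat_lit 21284518, nat_lit 8419, nat_lit 2, nat_lit 1),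
  (nat_lit 21292858, nat_lit 8340, nat_lit 2, nat_lit 1),
  (nat_lit 21301132, nat_lit 8274, nat_lit 2, nat_lit 1),
  (nat_lit 21309350, nat_lit 8218, nat_lit 2, nat_lit 1),
  (nat_lit 21317523, nat_lit 8173, nat_lit 2, nat_lit 1),
  (nat_lit 21325666, nat_lit 8143, nat_lit 2, nat_lit 1),
  (nat_lit 21333794, nat_lit 8132, nat_lit 2, nat_lit 1),
  (nat_lit 21341926, nat_lit 8162, nat_lit 2, nat_lit 1),
  (nat_lit 21350088, nat_lit 8225, nat_lit 2, nat_lit 1),
  (nat_lit 21358313, nat_lit 8342, nat_lit 2, nat_lit 1),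
  (nat_lit 21366655, nat_lit 8543, nat_lit 2, nat_lit 1),
  (nat_lit 21375198, nat_lit 8905, nat_lit 2, nat_lit 1),
  (nat_lit 21384103, nat_lit 9643, nat_lit 2, nat_lit 1),
  (nat_lit 21393746, nat_lit 11887, nat_lit 2, nat_lit 1),
  (nat_lit 21405633, nat_lit 78663, nat_lit 2, nat_lit 0),
  (nat_lit 21484296, nat_lit 78663, nat_lit 3, nat_lit 1),
  (nat_lit 21500243, nat_lit 15947, nat_lit 3, nat_lit 1),
  (nat_lit 21510780, nat_lit 10537, nat_lit 3, nat_lit 1)]

/-- Test points. -/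
def upS14_14 : List (ℕ × ℕ × ℕ × ℕ) := [
  (nat_lit 21519372, nat_lit 8592, nat_lit 3, nat_lit 1),
  (nat_lit 21527254, nat_lit 7882, nat_lit 3, nat_lit 1),
  (nat_lit 21534745, nat_lit 7491, nat_lit 3, nat_lit 1),
  (nat_lit 21541981, nat_lit 7236, nat_lit 3, nat_lit 1),
  (nat_lit 21549034, nat_lit 7053, nat_lit 3, nat_lit 1),
  (nat_lit 21555950, nat_lit 6916, nat_lit 3, nat_lit 1),
  (nat_lit 21562756, nat_lit 6806, nat_lit 3, nat_lit 1),
  (nat_lit 21569473, nat_lit 6717, nat_lit 3, nat_lit 1),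
  (nat_lit 21576116, nat_lit 6643, nat_lit 3, nat_lit 1),
  (nat_lit 21582695, nat_lit 6579, nat_lit 3, nat_lit 1),
  (nat_lit 21589218, nat_lit 6523, nat_lit 3, nat_lit 1),
  (nat_lit 21595692, nat_lit 6474, nat_lit 3, nat_lit 1),
  (nat_lit 21602124, nat_lit 6432, nat_lit 3, nat_lit 1),
  (nat_lit 21608516, nat_lit 6392, nat_lit 3, nat_lit 1),
  (nat_lit 21614874, nat_lit 6358, nat_lit 3, nat_lit 1),
  (nat_lit 21621199, nat_lit 6325, nat_lit 3, nat_lit 1),
  (nat_lit 21627494, nat_lit 6295, nat_lit 3, nat_lit 1),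
  (nat_lit 21633763, nat_lit 6269, nat_lit 3, nat_lit 1),
  (nat_lit 21640007, nat_lit 6244, nat_lit 3, nat_lit 1),
  (nat_lit 21646228, nat_lit 6221, nat_lit 3, nat_lit 1),
  (nat_lit 21652427, nat_lit 6199, nat_lit 3, nat_lit 1),
  (nat_lit 21658607, nat_lit 6180, nat_lit 3, nat_lit 1),
  (nat_lit 21664769, nat_lit 6162, nat_lit 3, nat_lit 1),
  (nat_lit 21670913, nat_lit 6144, nat_lit 3, nat_lit 1),
  (nat_lit 21677042, nat_lit 6129, nat_lit 3, nat_lit 1),
  (nat_lit 21683156, nat_lit 6114, nat_lit 3, nat_lit 1),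
  (nat_lit 21689257, nat_lit 6101, nat_lit 3, nat_lit 1),
  (nat_lit 21695346, nat_lit 6089, nat_lit 3, nat_lit 1),
  (nat_lit 21701424, nat_lit 6078, nat_lit 3, nat_lit 1),
  (nat_lit 21707492, nat_lit 6068, nat_lit 3, nat_lit 1),
  (nat_lit 21713550, nat_lit 6058, nat_lit 3, nat_lit 1),
  (nat_lit 21719600, nat_lit 6050, nat_lit 3, nat_lit 1),
  (nat_lit 21725645, nat_lit 6045, nat_lit 3, nat_lit 1),
  (nat_lit 21731683, nat_lit 6038, nat_lit 3, nat_lit 1)]

/-- Test points. -/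
def upS14_15 : List (ℕ × ℕ × ℕ × ℕ) := [
  (nat_lit 21737717, nat_lit 6034, nat_lit 3, nat_lit 1),
  (nat_lit 21743748, nat_lit 6031, nat_lit 3, nat_lit 1),
  (nat_lit 21749778, nat_lit 6030, nat_lit 3, nat_lit 1),
  (nat_lit 21755806, nat_lit 6031, nat_lit 3, nat_lit 1),
  (nat_lit 21761837, nat_lit 6032, nat_lit 3, nat_lit 1),
  (nat_lit 21767869, nat_lit 6037, nat_lit 3, nat_lit 1),
  (nat_lit 21773906, nat_lit 6043, nat_lit 3, nat_lit 1),
  (nat_lit 21779949, nat_lit 6052, nat_lit 3, nat_lit 1),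
  (nat_lit 21786001, nat_lit 6063, nat_lit 3, nat_lit 1),
  (nat_lit 21792064, nat_lit 6077, nat_lit 3, nat_lit 1),
  (nat_lit 21798141, nat_lit 6092, nat_lit 3, nat_lit 1),
  (nat_lit 21804233, nat_lit 6113, nat_lit 3, nat_lit 1),
  (nat_lit 21810346, nat_lit 6136, nat_lit 3, nat_lit 1),
  (nat_lit 21816482, nat_lit 6166, nat_lit 3, nat_lit 1),
  (nat_lit 21822648, nat_lit 6199, nat_lit 3, nat_lit 1),
  (nat_lit 21828847, nat_lit 6240, nat_lit 3, nat_lit 1),
  (nat_lit 21835087, nat_lit 6289, nat_lit 3, nat_lit 1),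
  (nat_lit 21841376, nat_lit 6347, nat_lit 3, nat_lit 1),
  (nat_lit 21847723, nat_lit 6418, nat_lit 3, nat_lit 1),
  (nat_lit 21854141, nat_lit 6505, nat_lit 3, nat_lit 1),
  (nat_lit 21860646, nat_lit 6612, nat_lit 3, nat_lit 1),
  (nat_lit 21867258, nat_lit 6749, nat_lit 3, nat_lit 1),
  (nat_lit 21874007, nat_lit 6928, nat_lit 3, nat_lit 1),
  (nat_lit 21880935, nat_lit 7166, nat_lit 3, nat_lit 1),
  (nat_lit 21888101, nat_lit 7508, nat_lit 3, nat_lit 1),
  (nat_lit 21895609, nat_lit 8036, nat_lit 3, nat_lit 1),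
  (nat_lit 21903645, nat_lit 8997, nat_lit 3, nat_lit 1),
  (nat_lit 21912642, nat_lit 11643, nat_lit 3, nat_lit 1),
  (nat_lit 21924285, nat_lit 83794, nat_lit 3, nat_lit 0),
  (nat_lit 22008079, nat_lit 83794, nat_lit 3090, nat_lit 1),
  (nat_lit 22087202, nat_lit 79123, nat_lit 2, nat_lit 1),
  (nat_lit 22098615, nat_lit 11413, nat_lit 2, nat_lit 1),
  (nat_lit 22107542, nat_lit 8927, nat_lit 2, nat_lit 1),
  (nat_lit 22115399, nat_lit 7857, nat_lit 2, nat_lit 1)]

/-- Test points. -/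
def upS14_16 : List (ℕ × ℕ × ℕ × ℕ) := [
  (nat_lit 22122698, nat_lit 7299, nat_lit 2, nat_lit 1),
  (nat_lit 22129641, nat_lit 6943, nat_lit 2, nat_lit 1),
  (nat_lit 22136335, nat_lit 6694, nat_lit 2, nat_lit 1),
  (nat_lit 22142841, nat_lit 6506, nat_lit 2, nat_lit 1),
  (nat_lit 22149204, nat_lit 6363, nat_lit 2, nat_lit 1),
  (nat_lit 22155452, nat_lit 6248, nat_lit 2, nat_lit 1),
  (nat_lit 22161606, nat_lit 6154, nat_lit 2, nat_lit 1),
  (nat_lit 22167683, nat_lit 6077, nat_lit 2, nat_lit 1),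
  (nat_lit 22173696, nat_lit 6013, nat_lit 2, nat_lit 1),
  (nat_lit 22179654, nat_lit 5958, nat_lit 2, nat_lit 1),
  (nat_lit 22185567, nat_lit 5913, nat_lit 2, nat_lit 1),
  (nat_lit 22191442, nat_lit 5875, nat_lit 2, nat_lit 1),
  (nat_lit 22197283, nat_lit 5841, nat_lit 2, nat_lit 1),
  (nat_lit 22203099, nat_lit 5816, nat_lit 2, nat_lit 1),
  (nat_lit 22208892, nat_lit 5793, nat_lit 2, nat_lit 1),
  (nat_lit 22214669, nat_lit 5777, nat_lit 2, nat_lit 1),
  (nat_lit 22220434, nat_lit 5765, nat_lit 2, nat_lit 1),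
  (nat_lit 22226193, nat_lit 5759, nat_lit 2, nat_lit 1),
  (nat_lit 22231951, nat_lit 5769, nat_lit 2, nat_lit 1),
  (nat_lit 22237720, nat_lit 5790, nat_lit 2, nat_lit 1),
  (nat_lit 22243510, nat_lit 5833, nat_lit 2, nat_lit 1),
  (nat_lit 22249343, nat_lit 5922, nat_lit 2, nat_lit 1),
  (nat_lit 22255265, nat_lit 6123, nat_lit 2, nat_lit 1),
  (nat_lit 22261388, nat_lit 6833, nat_lit 2, nat_lit 1),
  (nat_lit 22268221, nat_lit 7800, nat_lit 2, nat_lit 1),
  (nat_lit 22276021, nat_lit 14158, nat_lit 2, nat_lit 0),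
  (nat_lit 22290179, nat_lit 14158, nat_lit 3, nat_lit 1),
  (nat_lit 22297089, nat_lit 6910, nat_lit 3, nat_lit 1),
  (nat_lit 22303246, nat_lit 6157, nat_lit 3, nat_lit 1),
  (nat_lit 22309196, nat_lit 5950, nat_lit 3, nat_lit 1),
  (nat_lit 22315058, nat_lit 5862, nat_lit 3, nat_lit 1),
  (nat_lit 22320878, nat_lit 5820, nat_lit 3, nat_lit 1),
  (nat_lit 22326679, nat_lit 5801, nat_lit 3, nat_lit 1),
  (nat_lit 22332473, nat_lit 5796, nat_lit 3, nat_lit 1)]

/-- Test points. -/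
def upS14_17 : List (ℕ × ℕ × ℕ × ℕ) := [
  (nat_lit 22338269, nat_lit 5804, nat_lit 3, nat_lit 1),
  (nat_lit 22344073, nat_lit 5816, nat_lit 3, nat_lit 1),
  (nat_lit 22349889, nat_lit 5832, nat_lit 3, nat_lit 1),
  (nat_lit 22355721, nat_lit 5854, nat_lit 3, nat_lit 1),
  (nat_lit 22361575, nat_lit 5877, nat_lit 3, nat_lit 1),
  (nat_lit 22367452, nat_lit 5905, nat_lit 3, nat_lit 1),
  (nat_lit 22373357, nat_lit 5935, nat_lit 3, nat_lit 1),
  (nat_lit 22379292, nat_lit 5970, nat_lit 3, nat_lit 1),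
  (nat_lit 22385262, nat_lit 6009, nat_lit 3, nat_lit 1),
  (nat_lit 22391271, nat_lit 6052, nat_lit 3, nat_lit 1),
  (nat_lit 22397323, nat_lit 6100, nat_lit 3, nat_lit 1),
  (nat_lit 22403423, nat_lit 6153, nat_lit 3, nat_lit 1),
  (nat_lit 22409576, nat_lit 6213, nat_lit 3, nat_lit 1),
  (nat_lit 22415789, nat_lit 6278, nat_lit 3, nat_lit 1),
  (nat_lit 22422067, nat_lit 6354, nat_lit 3, nat_lit 1),
  (nat_lit 22428421, nat_lit 6437, nat_lit 3, nat_lit 1),
  (nat_lit 22434858, nat_lit 6531, nat_lit 3, nat_lit 1),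
  (nat_lit 22441389, nat_lit 6639, nat_lit 3, nat_lit 1),
  (nat_lit 22448028, nat_lit 6763, nat_lit 3, nat_lit 1),
  (nat_lit 22454791, nat_lit 6907, nat_lit 3, nat_lit 1),
  (nat_lit 22461698, nat_lit 7076, nat_lit 3, nat_lit 1),
  (nat_lit 22468774, nat_lit 7278, nat_lit 3, nat_lit 1),
  (nat_lit 22476052, nat_lit 7525, nat_lit 3, nat_lit 1),
  (nat_lit 22483577, nat_lit 7834, nat_lit 3, nat_lit 1),
  (nat_lit 22491411, nat_lit 8235, nat_lit 3, nat_lit 1),
  (nat_lit 22499646, nat_lit 8787, nat_lit 3, nat_lit 1),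
  (nat_lit 22508433, nat_lit 9609, nat_lit 3, nat_lit 1),
  (nat_lit 22518042, nat_lit 11047, nat_lit 3, nat_lit 1),
  (nat_lit 22529089, nat_lit 14839, nat_lit 3, nat_lit 1),
  (nat_lit 22543928, nat_lit 283564, nat_lit 3, nat_lit 0),
  (nat_lit 22827492, nat_lit 283564, nat_lit 21264, nat_lit 1),
  (nat_lit 23082743, nat_lit 255251, nat_lit 2, nat_lit 1),
  (nat_lit 23095964, nat_lit 13221, nat_lit 2, nat_lit 1),
  (nat_lit 23105754, nat_lit 9790, nat_lit 2, nat_lit 1)]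

/-- Test points. -/
def upS14_18 : List (ℕ × ℕ × ℕ × ℕ) := [
  (nat_lit 23114233, nat_lit 8479, nat_lit 2, nat_lit 1),
  (nat_lit 23121957, nat_lit 7724, nat_lit 2, nat_lit 1),
  (nat_lit 23129171, nat_lit 7214, nat_lit 2, nat_lit 1),
  (nat_lit 23136010, nat_lit 6839, nat_lit 2, nat_lit 1),
  (nat_lit 23142557, nat_lit 6547, nat_lit 2, nat_lit 1),
  (nat_lit 23148870, nat_lit 6313, nat_lit 2, nat_lit 1),
  (nat_lit 23154989, nat_lit 6119, nat_lit 2, nat_lit 1),
  (nat_lit 23160944, nat_lit 5955, nat_lit 2, nat_lit 1),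
  (nat_lit 23166757, nat_lit 5813, nat_lit 2, nat_lit 1),
  (nat_lit 23172448, nat_lit 5691, nat_lit 2, nat_lit 1),
  (nat_lit 23178029, nat_lit 5581, nat_lit 2, nat_lit 1),
  (nat_lit 23183514, nat_lit 5485, nat_lit 2, nat_lit 1),
  (nat_lit 23188911, nat_lit 5397, nat_lit 2, nat_lit 1),
  (nat_lit 23194231, nat_lit 5320, nat_lit 2, nat_lit 1),
  (nat_lit 23199479, nat_lit 5248, nat_lit 2, nat_lit 1),
  (nat_lit 23204661, nat_lit 5182, nat_lit 2, nat_lit 1),
  (nat_lit 23209784, nat_lit 5123, nat_lit 2, nat_lit 1),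
  (nat_lit 23214852, nat_lit 5068, nat_lit 2, nat_lit 1),
  (nat_lit 23219868, nat_lit 5016, nat_lit 2, nat_lit 1),
  (nat_lit 23224837, nat_lit 4969, nat_lit 2, nat_lit 1),
  (nat_lit 23229762, nat_lit 4925, nat_lit 2, nat_lit 1),
  (nat_lit 23234645, nat_lit 4883, nat_lit 2, nat_lit 1),
  (nat_lit 23239489, nat_lit 4844, nat_lit 2, nat_lit 1),
  (nat_lit 23244297, nat_lit 4808, nat_lit 2, nat_lit 1),
  (nat_lit 23249071, nat_lit 4774, nat_lit 2, nat_lit 1),
  (nat_lit 23253812, nat_lit 4741, nat_lit 2, nat_lit 1),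
  (nat_lit 23258523, nat_lit 4711, nat_lit 2, nat_lit 1),
  (nat_lit 23263204, nat_lit 4681, nat_lit 2, nat_lit 1),
  (nat_lit 23267859, nat_lit 4655, nat_lit 2, nat_lit 1),
  (nat_lit 23272487, nat_lit 4628, nat_lit 2, nat_lit 1),
  (nat_lit 23277090, nat_lit 4603, nat_lit 2, nat_lit 1),
  (nat_lit 23281670, nat_lit 4580, nat_lit 2, nat_lit 1),
  (nat_lit 23286228, nat_lit 4558, nat_lit 2, nat_lit 1),
  (nat_lit 23290765, nat_lit 4537, nat_lit 2, nat_lit 1)]

/-- Test points. -/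
def upS14_19 : List (ℕ × ℕ × ℕ × ℕ) := [
  (nat_lit 23295280, nat_lit 4515, nat_lit 2, nat_lit 1),
  (nat_lit 23299777, nat_lit 4497, nat_lit 2, nat_lit 1),
  (nat_lit 23304255, nat_lit 4478, nat_lit 2, nat_lit 1),
  (nat_lit 23308715, nat_lit 4460, nat_lit 2, nat_lit 1),
  (nat_lit 23313158, nat_lit 4443, nat_lit 2, nat_lit 1),
  (nat_lit 23317585, nat_lit 4427, nat_lit 2, nat_lit 1),
  (nat_lit 23321997, nat_lit 4412, nat_lit 2, nat_lit 1),
  (nat_lit 23326393, nat_lit 4396, nat_lit 2, nat_lit 1),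
  (nat_lit 23330775, nat_lit 4382, nat_lit 2, nat_lit 1),
  (nat_lit 23335144, nat_lit 4369, nat_lit 2, nat_lit 1),
  (nat_lit 23339499, nat_lit 4355, nat_lit 2, nat_lit 1),
  (nat_lit 23343842, nat_lit 4343, nat_lit 2, nat_lit 1),
  (nat_lit 23348173, nat_lit 4331, nat_lit 2, nat_lit 1),
  (nat_lit 23352492, nat_lit 4319, nat_lit 2, nat_lit 1),
  (nat_lit 23356800, nat_lit 4308, nat_lit 2, nat_lit 1),
  (nat_lit 23361098, nat_lit 4298, nat_lit 2, nat_lit 1),
  (nat_lit 23365386, nat_lit 4288, nat_lit 2, nat_lit 1),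
  (nat_lit 23369664, nat_lit 4278, nat_lit 2, nat_lit 1),
  (nat_lit 23373934, nat_lit 4270, nat_lit 2, nat_lit 1),
  (nat_lit 23378194, nat_lit 4260, nat_lit 2, nat_lit 1),
  (nat_lit 23382446, nat_lit 4252, nat_lit 2, nat_lit 1),
  (nat_lit 23386691, nat_lit 4245, nat_lit 2, nat_lit 1),
  (nat_lit 23390928, nat_lit 4237, nat_lit 2, nat_lit 1),
  (nat_lit 23395158, nat_lit 4230, nat_lit 2, nat_lit 1),
  (nat_lit 23399382, nat_lit 4224, nat_lit 2, nat_lit 1),
  (nat_lit 23403600, nat_lit 4218, nat_lit 2, nat_lit 1),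
  (nat_lit 23407812, nat_lit 4212, nat_lit 2, nat_lit 1),
  (nat_lit 23412019, nat_lit 4207, nat_lit 2, nat_lit 1),
  (nat_lit 23416221, nat_lit 4202, nat_lit 2, nat_lit 1),
  (nat_lit 23420419, nat_lit 4198, nat_lit 2, nat_lit 1),
  (nat_lit 23424613, nat_lit 4194, nat_lit 2, nat_lit 1),
  (nat_lit 23428804, nat_lit 4191, nat_lit 2, nat_lit 1),
  (nat_lit 23432992, nat_lit 4188, nat_lit 2, nat_lit 1),
  (nat_lit 23437178, nat_lit 4186, nat_lit 2, nat_lit 1)]

/-- Test points. -/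
def upS14_20 : List (ℕ × ℕ × ℕ × ℕ) := [
  (nat_lit 23441362, nat_lit 4184, nat_lit 2, nat_lit 1),
  (nat_lit 23445544, nat_lit 4182, nat_lit 2, nat_lit 1),
  (nat_lit 23449726, nat_lit 4182, nat_lit 2, nat_lit 1),
  (nat_lit 23453908, nat_lit 4183, nat_lit 2, nat_lit 1),
  (nat_lit 23458091, nat_lit 4184, nat_lit 2, nat_lit 1),
  (nat_lit 23462275, nat_lit 4187, nat_lit 2, nat_lit 1),
  (nat_lit 23466462, nat_lit 4189, nat_lit 2, nat_lit 1),
  (nat_lit 23470651, nat_lit 4193, nat_lit 2, nat_lit 1),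
  (nat_lit 23474844, nat_lit 4199, nat_lit 2, nat_lit 1),
  (nat_lit 23479043, nat_lit 4204, nat_lit 2, nat_lit 1),
  (nat_lit 23483247, nat_lit 4211, nat_lit 2, nat_lit 1),
  (nat_lit 23487458, nat_lit 4220, nat_lit 2, nat_lit 1),
  (nat_lit 23491678, nat_lit 4230, nat_lit 2, nat_lit 1),
  (nat_lit 23495908, nat_lit 4241, nat_lit 2, nat_lit 1),
  (nat_lit 23500149, nat_lit 4255, nat_lit 2, nat_lit 1),
  (nat_lit 23504404, nat_lit 4270, nat_lit 2, nat_lit 1),
  (nat_lit 23508674, nat_lit 4289, nat_lit 2, nat_lit 1),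
  (nat_lit 23512963, nat_lit 4309, nat_lit 2, nat_lit 1),
  (nat_lit 23517272, nat_lit 4334, nat_lit 2, nat_lit 1),
  (nat_lit 23521606, nat_lit 4362, nat_lit 2, nat_lit 1),
  (nat_lit 23525968, nat_lit 4395, nat_lit 2, nat_lit 1),
  (nat_lit 23530363, nat_lit 4434, nat_lit 2, nat_lit 1),
  (nat_lit 23534797, nat_lit 4479, nat_lit 2, nat_lit 1),
  (nat_lit 23539276, nat_lit 4535, nat_lit 2, nat_lit 1),
  (nat_lit 23543811, nat_lit 4601, nat_lit 2, nat_lit 1),
  (nat_lit 23548412, nat_lit 4683, nat_lit 2, nat_lit 1),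
  (nat_lit 23553095, nat_lit 4785, nat_lit 2, nat_lit 1),
  (nat_lit 23557880, nat_lit 4917, nat_lit 2, nat_lit 1),
  (nat_lit 23562797, nat_lit 5094, nat_lit 2, nat_lit 1),
  (nat_lit 23567891, nat_lit 5343, nat_lit 2, nat_lit 1),
  (nat_lit 23573234, nat_lit 5730, nat_lit 2, nat_lit 1),
  (nat_lit 23578964, nat_lit 6425, nat_lit 2, nat_lit 1),
  (nat_lit 23585389, nat_lit 8333, nat_lit 2, nat_lit 1),
  (nat_lit 23593722, nat_lit 85836, nat_lit 2, nat_lit 0)]

/-- Test points. -/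
def upS14_21 : List (ℕ × ℕ × ℕ × ℕ) := [
  (nat_lit 23679558, nat_lit 85836, nat_lit 15, nat_lit 1),
  (nat_lit 23717314, nat_lit 37756, nat_lit 3, nat_lit 1),
  (nat_lit 23727308, nat_lit 9994, nat_lit 3, nat_lit 1),
  (nat_lit 23735636, nat_lit 8340, nat_lit 3, nat_lit 1),
  (nat_lit 23743976, nat_lit 10045, nat_lit 3, nat_lit 1),
  (nat_lit 23754021, nat_lit 79367, nat_lit 3, nat_lit 0),
  (nat_lit 23833388, nat_lit 79367, nat_lit 54, nat_lit 1),
  (nat_lit 23883565, nat_lit 50177, nat_lit 2, nat_lit 1),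
  (nat_lit 23891946, nat_lit 8381, nat_lit 2, nat_lit 1),
  (nat_lit 23898454, nat_lit 6508, nat_lit 2, nat_lit 1),
  (nat_lit 23904319, nat_lit 5865, nat_lit 2, nat_lit 1),
  (nat_lit 23909874, nat_lit 5555, nat_lit 2, nat_lit 1),
  (nat_lit 23915292, nat_lit 5420, nat_lit 2, nat_lit 1),
  (nat_lit 23920712, nat_lit 5611, nat_lit 2, nat_lit 1),
  (nat_lit 23926323, nat_lit 6323, nat_lit 2, nat_lit 1),
  (nat_lit 23932646, nat_lit 7434, nat_lit 2, nat_lit 1),
  (nat_lit 23940080, nat_lit 49186, nat_lit 2, nat_lit 0),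
  (nat_lit 23989266, nat_lit 49186, nat_lit 3, nat_lit 1),
  (nat_lit 23995598, nat_lit 6332, nat_lit 3, nat_lit 1),
  (nat_lit 24000665, nat_lit 5067, nat_lit 3, nat_lit 1),
  (nat_lit 24005287, nat_lit 4622, nat_lit 3, nat_lit 1),
  (nat_lit 24009670, nat_lit 4383, nat_lit 3, nat_lit 1),
  (nat_lit 24013903, nat_lit 4233, nat_lit 3, nat_lit 1),
  (nat_lit 24018031, nat_lit 4128, nat_lit 3, nat_lit 1),
  (nat_lit 24022080, nat_lit 4049, nat_lit 3, nat_lit 1),
  (nat_lit 24026070, nat_lit 3990, nat_lit 3, nat_lit 1),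
  (nat_lit 24030013, nat_lit 3943, nat_lit 3, nat_lit 1),
  (nat_lit 24033918, nat_lit 3905, nat_lit 3, nat_lit 1),
  (nat_lit 24037791, nat_lit 3873, nat_lit 3, nat_lit 1),
  (nat_lit 24041638, nat_lit 3847, nat_lit 3, nat_lit 1),
  (nat_lit 24045461, nat_lit 3823, nat_lit 3, nat_lit 1),
  (nat_lit 24049266, nat_lit 3805, nat_lit 3, nat_lit 1),
  (nat_lit 24053053, nat_lit 3787, nat_lit 3, nat_lit 1),
  (nat_lit 24056826, nat_lit 3773, nat_lit 3, nat_lit 1)]

/-- Test points. -/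
def upS14_22 : List (ℕ × ℕ × ℕ × ℕ) := [
  (nat_lit 24060586, nat_lit 3760, nat_lit 3, nat_lit 1),
  (nat_lit 24064335, nat_lit 3749, nat_lit 3, nat_lit 1),
  (nat_lit 24068075, nat_lit 3740, nat_lit 3, nat_lit 1),
  (nat_lit 24071805, nat_lit 3730, nat_lit 3, nat_lit 1),
  (nat_lit 24075528, nat_lit 3723, nat_lit 3, nat_lit 1),
  (nat_lit 24079244, nat_lit 3716, nat_lit 3, nat_lit 1),
  (nat_lit 24082954, nat_lit 3710, nat_lit 3, nat_lit 1),
  (nat_lit 24086659, nat_lit 3705, nat_lit 3, nat_lit 1),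
  (nat_lit 24090360, nat_lit 3701, nat_lit 3, nat_lit 1),
  (nat_lit 24094057, nat_lit 3697, nat_lit 3, nat_lit 1),
  (nat_lit 24097751, nat_lit 3694, nat_lit 3, nat_lit 1),
  (nat_lit 24101442, nat_lit 3691, nat_lit 3, nat_lit 1),
  (nat_lit 24105131, nat_lit 3689, nat_lit 3, nat_lit 1),
  (nat_lit 24108818, nat_lit 3687, nat_lit 3, nat_lit 1),
  (nat_lit 24112504, nat_lit 3686, nat_lit 3, nat_lit 1),
  (nat_lit 24116190, nat_lit 3686, nat_lit 3, nat_lit 1),
  (nat_lit 24119875, nat_lit 3686, nat_lit 3, nat_lit 1),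
  (nat_lit 24123561, nat_lit 3686, nat_lit 3, nat_lit 1),
  (nat_lit 24127247, nat_lit 3688, nat_lit 3, nat_lit 1),
  (nat_lit 24130935, nat_lit 3690, nat_lit 3, nat_lit 1),
  (nat_lit 24134625, nat_lit 3691, nat_lit 3, nat_lit 1),
  (nat_lit 24138316, nat_lit 3695, nat_lit 3, nat_lit 1),
  (nat_lit 24142011, nat_lit 3698, nat_lit 3, nat_lit 1),
  (nat_lit 24145709, nat_lit 3702, nat_lit 3, nat_lit 1),
  (nat_lit 24149411, nat_lit 3707, nat_lit 3, nat_lit 1),
  (nat_lit 24153118, nat_lit 3714, nat_lit 3, nat_lit 1),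
  (nat_lit 24156832, nat_lit 3720, nat_lit 3, nat_lit 1),
  (nat_lit 24160552, nat_lit 3730, nat_lit 3, nat_lit 1),
  (nat_lit 24164282, nat_lit 3740, nat_lit 3, nat_lit 1),
  (nat_lit 24168022, nat_lit 3754, nat_lit 3, nat_lit 1),
  (nat_lit 24171776, nat_lit 3773, nat_lit 3, nat_lit 1),
  (nat_lit 24175549, nat_lit 3798, nat_lit 3, nat_lit 1),
  (nat_lit 24179347, nat_lit 3836, nat_lit 3, nat_lit 1),
  (nat_lit 24183183, nat_lit 3897, nat_lit 3, nat_lit 1)]

/-- Test points. -/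
def upS14_23 : List (ℕ × ℕ × ℕ × ℕ) := [
  (nat_lit 24187080, nat_lit 4019, nat_lit 3, nat_lit 1),
  (nat_lit 24191099, nat_lit 4364, nat_lit 3, nat_lit 1),
  (nat_lit 24195463, nat_lit 4664, nat_lit 3, nat_lit 1),
  (nat_lit 24200127, nat_lit 6160, nat_lit 3, nat_lit 0),
  (nat_lit 24206287, nat_lit 7282, nat_lit 814, nat_lit 1),
  (nat_lit 24213569, nat_lit 7282, nat_lit 2, nat_lit 1),
  (nat_lit 24218281, nat_lit 4712, nat_lit 2, nat_lit 1),
  (nat_lit 24222445, nat_lit 4164, nat_lit 2, nat_lit 1),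
  (nat_lit 24226458, nat_lit 4013, nat_lit 2, nat_lit 1),
  (nat_lit 24230406, nat_lit 3948, nat_lit 2, nat_lit 1),
  (nat_lit 24234323, nat_lit 3917, nat_lit 2, nat_lit 1),
  (nat_lit 24238226, nat_lit 3903, nat_lit 2, nat_lit 1),
  (nat_lit 24242122, nat_lit 3896, nat_lit 2, nat_lit 1),
  (nat_lit 24246018, nat_lit 3899, nat_lit 2, nat_lit 1),
  (nat_lit 24249917, nat_lit 3906, nat_lit 2, nat_lit 1),
  (nat_lit 24253823, nat_lit 3914, nat_lit 2, nat_lit 1),
  (nat_lit 24257737, nat_lit 3924, nat_lit 2, nat_lit 1),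
  (nat_lit 24261661, nat_lit 3935, nat_lit 2, nat_lit 1),
  (nat_lit 24265596, nat_lit 3949, nat_lit 2, nat_lit 1),
  (nat_lit 24269545, nat_lit 3964, nat_lit 2, nat_lit 1),
  (nat_lit 24273509, nat_lit 3978, nat_lit 2, nat_lit 1),
  (nat_lit 24277487, nat_lit 3995, nat_lit 2, nat_lit 1),
  (nat_lit 24281482, nat_lit 4014, nat_lit 2, nat_lit 1),
  (nat_lit 24285496, nat_lit 4032, nat_lit 2, nat_lit 1),
  (nat_lit 24289528, nat_lit 4052, nat_lit 2, nat_lit 1),
  (nat_lit 24293580, nat_lit 4075, nat_lit 2, nat_lit 1),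
  (nat_lit 24297655, nat_lit 4097, nat_lit 2, nat_lit 1),
  (nat_lit 24301752, nat_lit 4122, nat_lit 2, nat_lit 1),
  (nat_lit 24305874, nat_lit 4149, nat_lit 2, nat_lit 1),
  (nat_lit 24310023, nat_lit 4176, nat_lit 2, nat_lit 1),
  (nat_lit 24314199, nat_lit 4206, nat_lit 2, nat_lit 1),
  (nat_lit 24318405, nat_lit 4238, nat_lit 2, nat_lit 1),
  (nat_lit 24322643, nat_lit 4271, nat_lit 2, nat_lit 1),
  (nat_lit 24326914, nat_lit 4309, nat_lit 2, nat_lit 1)]

/-- Test points. -/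
def upS14_24 : List (ℕ × ℕ × ℕ × ℕ) := [
  (nat_lit 24331223, nat_lit 4346, nat_lit 2, nat_lit 1),
  (nat_lit 24335569, nat_lit 4389, nat_lit 2, nat_lit 1),
  (nat_lit 24339958, nat_lit 4434, nat_lit 2, nat_lit 1),
  (nat_lit 24344392, nat_lit 4483, nat_lit 2, nat_lit 1),
  (nat_lit 24348875, nat_lit 4535, nat_lit 2, nat_lit 1),
  (nat_lit 24353410, nat_lit 4593, nat_lit 2, nat_lit 1),
  (nat_lit 24358003, nat_lit 4655, nat_lit 2, nat_lit 1),
  (nat_lit 24362658, nat_lit 4724, nat_lit 2, nat_lit 1),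
  (nat_lit 24367382, nat_lit 4800, nat_lit 2, nat_lit 1),
  (nat_lit 24372182, nat_lit 4883, nat_lit 2, nat_lit 1),
  (nat_lit 24377065, nat_lit 4977, nat_lit 2, nat_lit 1),
  (nat_lit 24382042, nat_lit 5082, nat_lit 2, nat_lit 1),
  (nat_lit 24387124, nat_lit 5201, nat_lit 2, nat_lit 1),
  (nat_lit 24392325, nat_lit 5338, nat_lit 2, nat_lit 1),
  (nat_lit 24397663, nat_lit 5497, nat_lit 2, nat_lit 1),
  (nat_lit 24403160, nat_lit 5685, nat_lit 2, nat_lit 1),
  (nat_lit 24408845, nat_lit 5911, nat_lit 2, nat_lit 1),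
  (nat_lit 24414756, nat_lit 6192, nat_lit 2, nat_lit 1),
  (nat_lit 24420948, nat_lit 6553, nat_lit 2, nat_lit 1),
  (nat_lit 24427501, nat_lit 7042, nat_lit 2, nat_lit 1),
  (nat_lit 24434543, nat_lit 7767, nat_lit 2, nat_lit 1),
  (nat_lit 24442310, nat_lit 9014, nat_lit 2, nat_lit 1),
  (nat_lit 24451324, nat_lit 12268, nat_lit 2, nat_lit 1),
  (nat_lit 24463592, nat_lit 536408, nat_lit 2, nat_lit 0)]

end Up

end IntCheb
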