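import Pool.Agent.Lib.MP_6205a3_nt.B66.UpData

/-!
# MP_6205a3_nt : data of level 15 of the upper bound certificate
-/

open Finset Polynomial

set_option autoImplicit false
set_option maxRecDepth 100000

namespace IntCheb

namespace Up

open Cert

/-- Zeros (times `upD`). -/
def upY15 : List ℕ := [
  nat_lit 10250377, nat_lit 10300140, nat_lit 10340414, nat_lit 10375874, nat_lit 10408244,
  nat_lit 10438399, nat_lit 10466856, nat_lit 10493955, nat_lit 10519931, nat_lit 10544958,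
  nat_lit 10569167, nat_lit 10592662, nat_lit 10615524, nat_lit 10637823, nat_lit 10659613,
  nat_lit 10680941, nat_lit 10701849, nat_lit 10722370, nat_lit 10742534, nat_lit 10762368,
  nat_lit 10781896, nat_lit 10801137, nat_lit 10820110, nat_lit 10838832, nat_lit 10857317,
  nat_lit 10875581, nat_lit 10893634, nat_lit 10911488, nat_lit 10929153, nat_lit 10946641,
  nat_lit 10963958, nat_lit 10981114, nat_lit 10998117, nat_lit 11014973, nat_lit 11031690,
  nat_lit 11048273, nat_lit 11064730, nat_lit 11081066, nat_lit 11097287, nat_lit 11113397,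
  nat_lit 11129402, nat_lit 11145307, nat_lit 11161116, nat_lit 11176835, nat_lit 11192468,
  nat_lit 11208020, nat_lit 11223494, nat_lit 11238896, nat_lit 11254230, nat_lit 11269501,
  nat_lit 11284713, nat_lit 11299872, nat_lit 11314982, nat_lit 11330050, nat_lit 11345081,
  nat_lit 11360082, nat_lit 11375060, nat_lit 11390024, nat_lit 11404984, nat_lit 11419951,
  nat_lit 11434940, nat_lit 11449971, nat_lit 11465070, nat_lit 11480274, nat_lit 11495644,
  nat_lit 11511287, nat_lit 11527434, nat_lit 11544773, nat_lit 11574290, nat_lit 11593046,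
  nat_lit 11637656, nat_lit 11657515, nat_lit 11677258, nat_lit 11698585, nat_lit 11727253,
  nat_lit 12109540, nat_lit 12130514, nat_lit 12148322, nat_lit 12164604, nat_lit 12179952,
  nat_lit 12194657, nat_lit 12208890, nat_lit 12222761, nat_lit 12236344, nat_lit 12249695,
  nat_lit 12262855, nat_lit 12275857, nat_lit 12288729, nat_lit 12301493, nat_lit 12314169,
  nat_lit 12326777, nat_lit 12339335, nat_lit 12351860, nat_lit 12364372, nat_lit 12376894,
  nat_lit 12389453, nat_lit 12402081, nat_lit 12414826, nat_lit 12427753, nat_lit 12440965,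
  nat_lit 12454646, nat_lit 12469170, nat_lit 12485612, nat_lit 12642864, nat_lit 12662602,
  nat_lit 12677057, nat_lit 12690240, nat_lit 12702764, nat_lit 12714874, nat_lit 12726696,
  nat_lit 12738305, nat_lit 12749747, nat_lit 12761057, nat_lit 12772258, nat_lit 12783367,
  nat_lit 12794397, nat_lit 12805360, nat_lit 12816264, nat_lit 12827114, nat_lit 12837917,
  nat_lit 12848678, nat_lit 12859400, nat_lit 12870087, nat_lit 12880741, nat_lit 12891365,
  nat_lit 12901961, nat_lit 12912531, nat_lit 12923077, nat_lit 12933601, nat_lit 12944103,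
  nat_lit 12954586, nat_lit 12965050, nat_lit 12975496, nat_lit 12985926, nat_lit 12996341,
  nat_lit 13006741, nat_lit 13017127, nat_lit 13027500, nat_lit 13037860, nat_lit 13048210,
  nat_lit 13058549, nat_lit 13068878, nat_lit 13079197, nat_lit 13089509, nat_lit 13099812,
  nat_lit 13110108, nat_lit 13120398, nat_lit 13130683, nat_lit 13140962, nat_lit 13151238,
  nat_lit 13161509, nat_lit 13171779, nat_lit 13182046, nat_lit 13192312, nat_lit 13202579,
  nat_lit 13212846, nat_lit 13223114, nat_lit 13233386, nat_lit 13243661, nat_lit 13253941,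
  nat_lit 13264227, nat_lit 13274521, nat_lit 13284823, nat_lit 13295135, nat_lit 13305459,
  nat_lit 13315797, nat_lit 13326150, nat_lit 13336521, nat_lit 13346912, nat_lit 13357325,
  nat_lit 13367763, nat_lit 13378229, nat_lit 13388728, nat_lit 13399262, nat_lit 13409836,
  nat_lit 13420456, nat_lit 13431127, nat_lit 13441857, nat_lit 13452653, nat_lit 13463525,
  nat_lit 13474484, nat_lit 13485545, nat_lit 13496725, nat_lit 13508044, nat_lit 13519531,
  nat_lit 13531222, nat_lit 13543166, nat_lit 13555431, nat_lit 13568121, nat_lit 13581403,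
  nat_lit 13595582, nat_lit 13611358, nat_lit 13632172, nat_lit 13795706, nat_lit 13971523,
  nat_lit 13989741, nat_lit 14005242, nat_lit 14019447, nat_lit 14032868, nat_lit 14045759,
  nat_lit 14058268, nat_lit 14070490, nat_lit 14082490, nat_lit 14094315, nat_lit 14106001,
  nat_lit 14117576, nat_lit 14129062, nat_lit 14140477, nat_lit 14151837, nat_lit 14163155,
  nat_lit 14174443, nat_lit 14185712, nat_lit 14196970, nat_lit 14208226, nat_lit 14219489,
  nat_lit 14230768, nat_lit 14242069, nat_lit 14253400, nat_lit 14264770, nat_lit 14276187,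
  nat_lit 14287659, nat_lit 14299196, nat_lit 14310807, nat_lit 14322503, nat_lit 14334295,
  nat_lit 14346197, nat_lit 14358223, nat_lit 14370391, nat_lit 14382721, nat_lit 14395235,
  nat_lit 14407963, nat_lit 14420938, nat_lit 14434204, nat_lit 14447815, nat_lit 14461845,
  nat_lit 14476393, nat_lit 14491602, nat_lit 14507693, nat_lit 14525042, nat_lit 14544396,
  nat_lit 14567794, nat_lit 15303173, nat_lit 15632983, nat_lit 15654477, nat_lit 15672197,
  nat_lit 15688037, nat_lit 15702692, nat_lit 15716511, nat_lit 15729700, nat_lit 15742392,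
  nat_lit 15754682, nat_lit 15766637, nat_lit 15778311, nat_lit 15789743, nat_lit 15800967,
  nat_lit 15812012, nat_lit 15822900, nat_lit 15833654, nat_lit 15844292, nat_lit 15854834,
  nat_lit 15865298, nat_lit 15875707, nat_lit 15886086, nat_lit 15896472, nat_lit 15906925,
  nat_lit 15917564, nat_lit 15928724, nat_lit 15943493, nat_lit 15962188, nat_lit 15989222,
  nat_lit 16001184, nat_lit 16012786, nat_lit 16024776, nat_lit 16038160, nat_lit 16130260,
  nat_lit 16173330, nat_lit 16185650, nat_lit 16196435, nat_lit 16206510, nat_lit 16216161,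
  nat_lit 16225528, nat_lit 16234689, nat_lit 16243695, nat_lit 16252576, nat_lit 16261358,
  nat_lit 16270056, nat_lit 16278684, nat_lit 16287251, nat_lit 16295765, nat_lit 16304233,
  nat_lit 16312659, nat_lit 16321049, nat_lit 16329405, nat_lit 16337731, nat_lit 16346030,
  nat_lit 16354304, nat_lit 16362555, nat_lit 16370785, nat_lit 16378995, nat_lit 16387188,
  nat_lit 16395364, nat_lit 16403525, nat_lit 16411673, nat_lit 16419808, nat_lit 16427932,
  nat_lit 16436045, nat_lit 16444150, nat_lit 16452247, nat_lit 16460337, nat_lit 16468423,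
  nat_lit 16476504, nat_lit 16484583, nat_lit 16492662, nat_lit 16500741, nat_lit 16508824,
  nat_lit 16516913, nat_lit 16525011, nat_lit 16533121, nat_lit 16541249, nat_lit 16549399,
  nat_lit 16557579, nat_lit 16565800, nat_lit 16574075, nat_lit 16582426, nat_lit 16590882,
  nat_lit 16599497, nat_lit 16608362, nat_lit 16617680, nat_lit 16628041, nat_lit 16680737,
  nat_lit 16707803, nat_lit 16718144, nat_lit 16727460, nat_lit 16736333, nat_lit 16744962,
  nat_lit 16753439, nat_lit 16761815, nat_lit 16770123, nat_lit 16778384, nat_lit 16786613,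
  nat_lit 16794821, nat_lit 16803017, nat_lit 16811208, nat_lit 16819400, nat_lit 16827601,
  nat_lit 16835814, nat_lit 16844045, nat_lit 16852301, nat_lit 16860587, nat_lit 16868908,
  nat_lit 16877274, nat_lit 16885691, nat_lit 16894170, nat_lit 16902722, nat_lit 16911362,
  nat_lit 16920107, nat_lit 16928980, nat_lit 16938013, nat_lit 16947247, nat_lit 16956744,
  nat_lit 16966599, nat_lit 16976974, nat_lit 16988189, nat_lit 17001112, nat_lit 17027608,
  nat_lit 17249954, nat_lit 17263395, nat_lit 17274838, nat_lit 17285324, nat_lit 17295228,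
  nat_lit 17304734, nat_lit 17313949, nat_lit 17322941, nat_lit 17331757, nat_lit 17340430,
  nat_lit 17348985, nat_lit 17357441, nat_lit 17365812, nat_lit 17374112, nat_lit 17382350,
  nat_lit 17390533, nat_lit 17398669, nat_lit 17406764, nat_lit 17414821, nat_lit 17422846,
  nat_lit 17430843, nat_lit 17438814, nat_lit 17446762, nat_lit 17454691, nat_lit 17462602,
  nat_lit 17470498, nat_lit 17478380, nat_lit 17486251, nat_lit 17494112, nat_lit 17501964,
  nat_lit 17509810, nat_lit 17517651, nat_lit 17525487, nat_lit 17533320, nat_lit 17541152,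
  nat_lit 17548984, nat_lit 17556817, nat_lit 17564652, nat_lit 17572491, nat_lit 17580334,
  nat_lit 17588184, nat_lit 17596041, nat_lit 17603906, nat_lit 17611782, nat_lit 17619670,
  nat_lit 17627570, nat_lit 17635486, nat_lit 17643419, nat_lit 17651370, nat_lit 17659343,
  nat_lit 17667338, nat_lit 17675360, nat_lit 17683411, nat_lit 17691494, nat_lit 17699612,
  nat_lit 17707771, nat_lit 17715975, nat_lit 17724229, nat_lit 17732540, nat_lit 17740916,
  nat_lit 17749365, nat_lit 17757900, nat_lit 17766533, nat_lit 17775282, nat_lit 17784170,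
  nat_lit 17793224, nat_lit 17802485, nat_lit 17812008, nat_lit 17821879, nat_lit 17832233,
  nat_lit 17843329, nat_lit 17855779, nat_lit 17873204, nat_lit 17999495, nat_lit 18139216,
  nat_lit 18153950, nat_lit 18166630, nat_lit 18178499, nat_lit 18190334, nat_lit 18228432,
  nat_lit 18241604, nat_lit 18251720, nat_lit 18261317, nat_lit 18270671, nat_lit 18279880,
  nat_lit 18288991, nat_lit 18298031, nat_lit 18307020, nat_lit 18315969, nat_lit 18324889,
  nat_lit 18333788, nat_lit 18342673, nat_lit 18351548, nat_lit 18360419, nat_lit 18369291,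
  nat_lit 18378166, nat_lit 18387049, nat_lit 18395943, nat_lit 18404851, nat_lit 18413776,
  nat_lit 18422721, nat_lit 18431689, nat_lit 18440683, nat_lit 18449705, nat_lit 18458759,
  nat_lit 18467847, nat_lit 18476973, nat_lit 18486139, nat_lit 18495348, nat_lit 18504604,
  nat_lit 18513910, nat_lit 18523270, nat_lit 18532688, nat_lit 18542167, nat_lit 18551712,
  nat_lit 18561327, nat_lit 18571019, nat_lit 18580792, nat_lit 18590652, nat_lit 18600605,
  nat_lit 18610660, nat_lit 18620825, nat_lit 18631107, nat_lit 18641518, nat_lit 18652069,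
  nat_lit 18662773, nat_lit 18673645, nat_lit 18684704, nat_lit 18695969, nat_lit 18707465,
  nat_lit 18719222, nat_lit 18731277, nat_lit 18743674, nat_lit 18756474, nat_lit 18769752,
  nat_lit 18783613, nat_lit 18798211, nat_lit 18813776, nat_lit 18830702, nat_lit 18849769,
  nat_lit 18873097, nat_lit 19491616, nat_lit 21022444, nat_lit 21041670, nat_lit 21057329,
  nat_lit 21071190, nat_lit 21083903, nat_lit 21095797, nat_lit 21107066, nat_lit 21117837,
  nat_lit 21128199, nat_lit 21138217, nat_lit 21147939, nat_lit 21157404, nat_lit 21166644,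
  nat_lit 21175682, nat_lit 21184541, nat_lit 21193238, nat_lit 21201788, nat_lit 21210204,
  nat_lit 21218498, nat_lit 21226681, nat_lit 21234760, nat_lit 21242744, nat_lit 21250642,
  nat_lit 21258459, nat_lit 21266203, nat_lit 21273880, nat_lit 21281496, nat_lit 21289057,
  nat_lit 21296570, nat_lit 21304040, nat_lit 21311474, nat_lit 21318880, nat_lit 21326267,
  nat_lit 21333644, nat_lit 21341024, nat_lit 21348422, nat_lit 21355859, nat_lit 21363366,
  nat_lit 21370987, nat_lit 21378798, nat_lit 21386946, nat_lit 21395796, nat_lit 21407775,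
  nat_lit 21497583, nat_lit 21506480, nat_lit 21514263, nat_lit 21521529, nat_lit 21528485,
  nat_lit 21535232, nat_lit 21541826, nat_lit 21548304, nat_lit 21554688, nat_lit 21560996,
  nat_lit 21567239, nat_lit 21573427, nat_lit 21579567, nat_lit 21585665, nat_lit 21591724,
  nat_lit 21597750, nat_lit 21603745, nat_lit 21609711, nat_lit 21615652, nat_lit 21621568,
  nat_lit 21627463, nat_lit 21633337, nat_lit 21639191, nat_lit 21645028, nat_lit 21650848,
  nat_lit 21656653, nat_lit 21662443, nat_lit 21668219, nat_lit 21673982, nat_lit 21679733,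
  nat_lit 21685473, nat_lit 21691203, nat_lit 21696924, nat_lit 21702635, nat_lit 21708339,
  nat_lit 21714036, nat_lit 21719726, nat_lit 21725411, nat_lit 21731091, nat_lit 21736767,
  nat_lit 21742441, nat_lit 21748112, nat_lit 21753783, nat_lit 21759453, nat_lit 21765125,
  nat_lit 21770799, nat_lit 21776478, nat_lit 21782161, nat_lit 21787852, nat_lit 21793551,
  nat_lit 21799261, nat_lit 21804984, nat_lit 21810723, nat_lit 21816481, nat_lit 21822260,
  nat_lit 21828065, nat_lit 21833901, nat_lit 21839773, nat_lit 21845688, nat_lit 21851654,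
  nat_lit 21857681, nat_lit 21863782, nat_lit 21869975, nat_lit 21876282, nat_lit 21882735,
  nat_lit 21889380, nat_lit 21896291, nat_lit 21903593, nat_lit 21911542, nat_lit 21920847,
  nat_lit 21960922, nat_lit 22088738, nat_lit 22097857, nat_lit 22105614, nat_lit 22112719,
  nat_lit 22119426, nat_lit 22125860, nat_lit 22132096, nat_lit 22138179, nat_lit 22144142,
  nat_lit 22150007, nat_lit 22155791, nat_lit 22161509, nat_lit 22167169, nat_lit 22172781,
  nat_lit 22178351, nat_lit 22183886, nat_lit 22189390, nat_lit 22194868, nat_lit 22200324,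
  nat_lit 22205762, nat_lit 22211185, nat_lit 22216596, nat_lit 22222000, nat_lit 22227400,
  nat_lit 22232802, nat_lit 22238212, nat_lit 22243640, nat_lit 22249103, nat_lit 22254630,
  nat_lit 22260290, nat_lit 22266303, nat_lit 22277812, nat_lit 22293455, nat_lit 22299481,
  nat_lit 22305155, nat_lit 22310698, nat_lit 22316178, nat_lit 22321627, nat_lit 22327059,
  nat_lit 22332484, nat_lit 22337910, nat_lit 22343340, nat_lit 22348778, nat_lit 22354228,
  nat_lit 22359691, nat_lit 22365171, nat_lit 22370670, nat_lit 22376191, nat_lit 22381736,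
  nat_lit 22387307, nat_lit 22392908, nat_lit 22398542, nat_lit 22404211, nat_lit 22409920,
  nat_lit 22415673, nat_lit 22421473, nat_lit 22427327, nat_lit 22433239, nat_lit 22439217,
  nat_lit 22445268, nat_lit 22451402, nat_lit 22457628, nat_lit 22463961, nat_lit 22470415,
  nat_lit 22477012, nat_lit 22483776, nat_lit 22490741, nat_lit 22497953, nat_lit 22505478,
  nat_lit 22513416, nat_lit 22521939, nat_lit 22531379, nat_lit 22542640, nat_lit 22572184,
  nat_lit 23078356, nat_lit 23088879, nat_lit 23097543, nat_lit 23105277, nat_lit 23112424,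
  nat_lit 23119155, nat_lit 23125570, nat_lit 23131736, nat_lit 23137697, nat_lit 23143488,
  nat_lit 23149132, nat_lit 23154650, nat_lit 23160057, nat_lit 23165365, nat_lit 23170585,
  nat_lit 23175726, nat_lit 23180796, nat_lit 23185799, nat_lit 23190743, nat_lit 23195631,
  nat_lit 23200468, nat_lit 23205257, nat_lit 23210002, nat_lit 23214706, nat_lit 23219371,
  nat_lit 23224000, nat_lit 23228594, nat_lit 23233156, nat_lit 23237688, nat_lit 23242191,
  nat_lit 23246667, nat_lit 23251116, nat_lit 23255541, nat_lit 23259943, nat_lit 23264322,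
  nat_lit 23268680, nat_lit 23273017, nat_lit 23277335, nat_lit 23281634, nat_lit 23285915,
  nat_lit 23290179, nat_lit 23294426, nat_lit 23298658, nat_lit 23302874, nat_lit 23307076,
  nat_lit 23311263, nat_lit 23315437, nat_lit 23319598, nat_lit 23323747, nat_lit 23327883,
  nat_lit 23332008, nat_lit 23336122, nat_lit 23340225, nat_lit 23344318, nat_lit 23348400,
  nat_lit 23352473, nat_lit 23356537, nat_lit 23360592, nat_lit 23364638, nat_lit 23368677,
  nat_lit 23372707, nat_lit 23376730, nat_lit 23380745, nat_lit 23384754, nat_lit 23388756,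
  nat_lit 23392752, nat_lit 23396742, nat_lit 23400727, nat_lit 23404706, nat_lit 23408680,
  nat_lit 23412649, nat_lit 23416615, nat_lit 23420576, nat_lit 23424533, nat_lit 23428488,
  nat_lit 23432439, nat_lit 23436388, nat_lit 23440335, nat_lit 23444279, nat_lit 23448223,
  nat_lit 23452166, nat_lit 23456108, nat_lit 23460050, nat_lit 23463993, nat_lit 23467938,
  nat_lit 23471883, nat_lit 23475832, nat_lit 23479784, nat_lit 23483739, nat_lit 23487699,
  nat_lit 23491665, nat_lit 23495638, nat_lit 23499619, nat_lit 23503609, nat_lit 23507610,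
  nat_lit 23511622, nat_lit 23515650, nat_lit 23519693, nat_lit 23523755, nat_lit 23527839,
  nat_lit 23531948, nat_lit 23536086, nat_lit 23540259, nat_lit 23544471, nat_lit 23548732,
  nat_lit 23553051, nat_lit 23557441, nat_lit 23561918, nat_lit 23566509, nat_lit 23571248,
  nat_lit 23576194, nat_lit 23581453, nat_lit 23587255, nat_lit 23594573, nat_lit 23715435,
  nat_lit 23723029, nat_lit 23729755, nat_lit 23736243, nat_lit 23742848, nat_lit 23750082,
  nat_lit 23762258, nat_lit 23882766, nat_lit 23889388, nat_lit 23895047, nat_lit 23900265,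
  nat_lit 23905236, nat_lit 23910066, nat_lit 23914829, nat_lit 23919594, nat_lit 23924445,
  nat_lit 23929527, nat_lit 23935217, nat_lit 23964571, nat_lit 23990530, nat_lit 23996430,
  nat_lit 24001086, nat_lit 24005366, nat_lit 24009441, nat_lit 24013384, nat_lit 24017235,
  nat_lit 24021017, nat_lit 24024745, nat_lit 24028430, nat_lit 24032080, nat_lit 24035700,
  nat_lit 24039296, nat_lit 24042871, nat_lit 24046428, nat_lit 24049968, nat_lit 24053495,
  nat_lit 24057009, nat_lit 24060512, nat_lit 24064005, nat_lit 24067489, nat_lit 24070965,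
  nat_lit 24074434, nat_lit 24077897, nat_lit 24081354, nat_lit 24084806, nat_lit 24088253,
  nat_lit 24091696, nat_lit 24095134, nat_lit 24098570, nat_lit 24102003, nat_lit 24105433,
  nat_lit 24108860, nat_lit 24112286, nat_lit 24115710, nat_lit 24119133, nat_lit 24122555,
  nat_lit 24125976, nat_lit 24129396, nat_lit 24132817, nat_lit 24136237, nat_lit 24139658,
  nat_lit 24143080, nat_lit 24146503, nat_lit 24149927, nat_lit 24153353, nat_lit 24156782,
  nat_lit 24160213, nat_lit 24163648, nat_lit 24167087, nat_lit 24170532, nat_lit 24173983,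
  nat_lit 24177444, nat_lit 24180917, nat_lit 24184408, nat_lit 24187927, nat_lit 24191494,
  nat_lit 24195167, nat_lit 24199284, nat_lit 24213829, nat_lit 24217676, nat_lit 24221332,
  nat_lit 24224920, nat_lit 24228478, nat_lit 24232020, nat_lit 24235554, nat_lit 24239086,
  nat_lit 24242618, nat_lit 24246152, nat_lit 24249690, nat_lit 24253233, nat_lit 24256781,
  nat_lit 24260336, nat_lit 24263898, nat_lit 24267467, nat_lit 24271045, nat_lit 24274632,
  nat_lit 24278229, nat_lit 24281836, nat_lit 24285453, nat_lit 24289082, nat_lit 24292722,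
  nat_lit 24296376, nat_lit 24300042, nat_lit 24303722, nat_lit 24307417, nat_lit 24311127,
  nat_lit 24314854, nat_lit 24318597, nat_lit 24322358, nat_lit 24326139, nat_lit 24329939,
  nat_lit 24333760, nat_lit 24337603, nat_lit 24341470, nat_lit 24345361, nat_lit 24349279,
  nat_lit 24353225, nat_lit 24357201, nat_lit 24361208, nat_lit 24365249, nat_lit 24369326,
  nat_lit 24373442, nat_lit 24377599, nat_lit 24381801, nat_lit 24386051, nat_lit 24390354,
  nat_lit 24394714, nat_lit 24399136, nat_lit 24403626, nat_lit 24408192, nat_lit 24412842,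
  nat_lit 24417586, nat_lit 24422436, nat_lit 24427406, nat_lit 24432516, nat_lit 24437790,
  nat_lit 24443258, nat_lit 24448963, nat_lit 24454968, nat_lit 24461368, nat_lit 24468323,
  nat_lit 24476152, nat_lit 24485723]

/-- Numerator of the bound. -/
def upC15 : ℕ := Nat.mul (nat_lit 1787879517536277487) (Nat.pow (nat_lit 2) (nat_lit 217356))

/-- Test points. -/
def upS15_0 : List (ℕ × ℕ × ℕ × ℕ) := [
  (nat_lit 10216357, nat_lit 10216357, nat_lit 2, nat_lit 1),
  (nat_lit 10277028, nat_lit 60671, nat_lit 2, nat_lit 1),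
  (nat_lit 10321051, nat_lit 44023, nat_lit 2, nat_lit 1),
  (nat_lit 10358608, nat_lit 37557, nat_lit 2, nat_lit 1),
  (nat_lit 10392379, nat_lit 33771, nat_lit 2, nat_lit 1),
  (nat_lit 10423561, nat_lit 31182, nat_lit 2, nat_lit 1),
  (nat_lit 10452816, nat_lit 29255, nat_lit 2, nat_lit 1),
  (nat_lit 10480559, nat_lit 27743, nat_lit 2, nat_lit 1),
  (nat_lit 10507071, nat_lit 26512, nat_lit 2, nat_lit 1),
  (nat_lit 10532554, nat_lit 25483, nat_lit 2, nat_lit 1),
  (nat_lit 10557158, nat_lit 24604, nat_lit 2, nat_lit 1),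
  (nat_lit 10580998, nat_lit 23840, nat_lit 2, nat_lit 1),
  (nat_lit 10604167, nat_lit 23169, nat_lit 2, nat_lit 1),
  (nat_lit 10626740, nat_lit 22573, nat_lit 2, nat_lit 1),
  (nat_lit 10648778, nat_lit 22038, nat_lit 2, nat_lit 1),
  (nat_lit 10670332, nat_lit 21554, nat_lit 2, nat_lit 1),
  (nat_lit 10691445, nat_lit 21113, nat_lit 2, nat_lit 1),
  (nat_lit 10712156, nat_lit 20711, nat_lit 2, nat_lit 1),
  (nat_lit 10732495, nat_lit 20339, nat_lit 2, nat_lit 1),
  (nat_lit 10752491, nat_lit 19996, nat_lit 2, nat_lit 1),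
  (nat_lit 10772169, nat_lit 19678, nat_lit 2, nat_lit 1),
  (nat_lit 10791551, nat_lit 19382, nat_lit 2, nat_lit 1),
  (nat_lit 10810656, nat_lit 19105, nat_lit 2, nat_lit 1),
  (nat_lit 10829501, nat_lit 18845, nat_lit 2, nat_lit 1),
  (nat_lit 10848103, nat_lit 18602, nat_lit 2, nat_lit 1),
  (nat_lit 10866476, nat_lit 18373, nat_lit 2, nat_lit 1),
  (nat_lit 10884633, nat_lit 18157, nat_lit 2, nat_lit 1),
  (nat_lit 10902585, nat_lit 17952, nat_lit 2, nat_lit 1),
  (nat_lit 10920343, nat_lit 17758, nat_lit 2, nat_lit 1)]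

/-- Test points. -/
def upS15_1 : List (ℕ × ℕ × ℕ × ℕ) := [
  (nat_lit 10937919, nat_lit 17576, nat_lit 2, nat_lit 1),
  (nat_lit 10955320, nat_lit 17401, nat_lit 2, nat_lit 1),
  (nat_lit 10972556, nat_lit 17236, nat_lit 2, nat_lit 1),
  (nat_lit 10989634, nat_lit 17078, nat_lit 2, nat_lit 1),
  (nat_lit 11006563, nat_lit 16929, nat_lit 2, nat_lit 1),
  (nat_lit 11023348, nat_lit 16785, nat_lit 2, nat_lit 1),
  (nat_lit 11039998, nat_lit 16650, nat_lit 2, nat_lit 1),
  (nat_lit 11056517, nat_lit 16519, nat_lit 2, nat_lit 1),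
  (nat_lit 11072913, nat_lit 16396, nat_lit 2, nat_lit 1),
  (nat_lit 11089191, nat_lit 16278, nat_lit 2, nat_lit 1),
  (nat_lit 11105355, nat_lit 16164, nat_lit 2, nat_lit 1),
  (nat_lit 11121412, nat_lit 16057, nat_lit 2, nat_lit 1),
  (nat_lit 11137367, nat_lit 15955, nat_lit 2, nat_lit 1),
  (nat_lit 11153223, nat_lit 15856, nat_lit 2, nat_lit 1),
  (nat_lit 11168987, nat_lit 15764, nat_lit 2, nat_lit 1),
  (nat_lit 11184662, nat_lit 15675, nat_lit 2, nat_lit 1),
  (nat_lit 11200254, nat_lit 15592, nat_lit 2, nat_lit 1),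
  (nat_lit 11215766, nat_lit 15512, nat_lit 2, nat_lit 1),
  (nat_lit 11231204, nat_lit 15438, nat_lit 2, nat_lit 1),
  (nat_lit 11246571, nat_lit 15367, nat_lit 2, nat_lit 1),
  (nat_lit 11261873, nat_lit 15302, nat_lit 2, nat_lit 1),
  (nat_lit 11277114, nat_lit 15241, nat_lit 2, nat_lit 1),
  (nat_lit 11292299, nat_lit 15185, nat_lit 2, nat_lit 1),
  (nat_lit 11307433, nat_lit 15134, nat_lit 2, nat_lit 1),
  (nat_lit 11322521, nat_lit 15088, nat_lit 2, nat_lit 1),
  (nat_lit 11337570, nat_lit 15049, nat_lit 2, nat_lit 1),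
  (nat_lit 11352585, nat_lit 15015, nat_lit 2, nat_lit 1),
  (nat_lit 11367573, nat_lit 14988, nat_lit 2, nat_lit 1),
  (nat_lit 11382543, nat_lit 14970, nat_lit 2, nat_lit 1)]

/-- Test points. -/
def upS15_2 : List (ℕ × ℕ × ℕ × ℕ) := [
  (nat_lit 11397504, nat_lit 14962, nat_lit 2, nat_lit 1),
  (nat_lit 11412466, nat_lit 14976, nat_lit 2, nat_lit 1),
  (nat_lit 11427442, nat_lit 15007, nat_lit 2, nat_lit 1),
  (nat_lit 11442449, nat_lit 15061, nat_lit 2, nat_lit 1),
  (nat_lit 11457510, nat_lit 15146, nat_lit 2, nat_lit 1),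
  (nat_lit 11472656, nat_lit 15277, nat_lit 2, nat_lit 1),
  (nat_lit 11487933, nat_lit 15488, nat_lit 2, nat_lit 1),
  (nat_lit 11503421, nat_lit 15853, nat_lit 2, nat_lit 1),
  (nat_lit 11519274, nat_lit 16590, nat_lit 2, nat_lit 1),
  (nat_lit 11535864, nat_lit 18920, nat_lit 2, nat_lit 1),
  (nat_lit 11554784, nat_lit 23075, nat_lit 2, nat_lit 1),
  (nat_lit 11577859, nat_lit 23075, nat_lit 2, nat_lit 1),
  (nat_lit 11593179, nat_lit 33370, nat_lit 220, nat_lit 0),
  (nat_lit 11626549, nat_lit 33370, nat_lit 3, nat_lit 1),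
  (nat_lit 11647731, nat_lit 21182, nat_lit 3, nat_lit 1),
  (nat_lit 11667295, nat_lit 20299, nat_lit 3, nat_lit 1),
  (nat_lit 11687594, nat_lit 23248, nat_lit 3, nat_lit 1),
  (nat_lit 11710842, nat_lit 28637, nat_lit 3, nat_lit 1),
  (nat_lit 11739479, nat_lit 356391, nat_lit 3, nat_lit 0),
  (nat_lit 12095870, nat_lit 356391, nat_lit 2, nat_lit 1),
  (nat_lit 12120630, nat_lit 24760, nat_lit 2, nat_lit 1),
  (nat_lit 12139668, nat_lit 19038, nat_lit 2, nat_lit 1),
  (nat_lit 12156606, nat_lit 16938, nat_lit 2, nat_lit 1),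
  (nat_lit 12172373, nat_lit 15767, nat_lit 2, nat_lit 1),
  (nat_lit 12187372, nat_lit 14999, nat_lit 2, nat_lit 1),
  (nat_lit 12201825, nat_lit 14453, nat_lit 2, nat_lit 1),
  (nat_lit 12215866, nat_lit 14041, nat_lit 2, nat_lit 1),
  (nat_lit 12229585, nat_lit 13719, nat_lit 2, nat_lit 1),
  (nat_lit 12243046, nat_lit 13461, nat_lit 2, nat_lit 1)]

/-- Test points. -/
def upS15_3 : List (ℕ × ℕ × ℕ × ℕ) := [
  (nat_lit 12256297, nat_lit 13251, nat_lit 2, nat_lit 1),
  (nat_lit 12269374, nat_lit 13077, nat_lit 2, nat_lit 1),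
  (nat_lit 12282308, nat_lit 12934, nat_lit 2, nat_lit 1),
  (nat_lit 12295123, nat_lit 12815, nat_lit 2, nat_lit 1),
  (nat_lit 12307841, nat_lit 12718, nat_lit 2, nat_lit 1),
  (nat_lit 12320481, nat_lit 12640, nat_lit 2, nat_lit 1),
  (nat_lit 12333061, nat_lit 12580, nat_lit 2, nat_lit 1),
  (nat_lit 12345600, nat_lit 12539, nat_lit 2, nat_lit 1),
  (nat_lit 12358116, nat_lit 12516, nat_lit 2, nat_lit 1),
  (nat_lit 12370630, nat_lit 12537, nat_lit 2, nat_lit 1),
  (nat_lit 12383167, nat_lit 12589, nat_lit 2, nat_lit 1),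
  (nat_lit 12395756, nat_lit 12680, nat_lit 2, nat_lit 1),
  (nat_lit 12408436, nat_lit 12825, nat_lit 2, nat_lit 1),
  (nat_lit 12421261, nat_lit 13053, nat_lit 2, nat_lit 1),
  (nat_lit 12434314, nat_lit 13416, nat_lit 2, nat_lit 1),
  (nat_lit 12447730, nat_lit 14034, nat_lit 2, nat_lit 1),
  (nat_lit 12461764, nat_lit 15250, nat_lit 2, nat_lit 1),
  (nat_lit 12477014, nat_lit 18872, nat_lit 2, nat_lit 1),
  (nat_lit 12495886, nat_lit 139383, nat_lit 2, nat_lit 0),
  (nat_lit 12635269, nat_lit 139383, nat_lit 3, nat_lit 1),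
  (nat_lit 12654275, nat_lit 19006, nat_lit 3, nat_lit 1),
  (nat_lit 12670061, nat_lit 15786, nat_lit 3, nat_lit 1),
  (nat_lit 12683754, nat_lit 13693, nat_lit 3, nat_lit 1),
  (nat_lit 12696565, nat_lit 12811, nat_lit 3, nat_lit 1),
  (nat_lit 12708861, nat_lit 12296, nat_lit 3, nat_lit 1),
  (nat_lit 12720816, nat_lit 11955, nat_lit 3, nat_lit 1),
  (nat_lit 12732524, nat_lit 11708, nat_lit 3, nat_lit 1),
  (nat_lit 12744044, nat_lit 11520, nat_lit 3, nat_lit 1),
  (nat_lit 12755417, nat_lit 11373, nat_lit 3, nat_lit 1)]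

/-- Test points. -/
def upS15_4 : List (ℕ × ℕ × ℕ × ℕ) := [
  (nat_lit 12766670, nat_lit 11253, nat_lit 3, nat_lit 1),
  (nat_lit 12777823, nat_lit 11153, nat_lit 3, nat_lit 1),
  (nat_lit 12788891, nat_lit 11068, nat_lit 3, nat_lit 1),
  (nat_lit 12799887, nat_lit 10996, nat_lit 3, nat_lit 1),
  (nat_lit 12810819, nat_lit 10932, nat_lit 3, nat_lit 1),
  (nat_lit 12821695, nat_lit 10876, nat_lit 3, nat_lit 1),
  (nat_lit 12832521, nat_lit 10826, nat_lit 3, nat_lit 1),
  (nat_lit 12843303, nat_lit 10782, nat_lit 3, nat_lit 1),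
  (nat_lit 12854044, nat_lit 10741, nat_lit 3, nat_lit 1),
  (nat_lit 12864748, nat_lit 10704, nat_lit 3, nat_lit 1),
  (nat_lit 12875418, nat_lit 10670, nat_lit 3, nat_lit 1),
  (nat_lit 12886057, nat_lit 10639, nat_lit 3, nat_lit 1),
  (nat_lit 12896666, nat_lit 10609, nat_lit 3, nat_lit 1),
  (nat_lit 12907249, nat_lit 10583, nat_lit 3, nat_lit 1),
  (nat_lit 12917807, nat_lit 10558, nat_lit 3, nat_lit 1),
  (nat_lit 12928342, nat_lit 10535, nat_lit 3, nat_lit 1),
  (nat_lit 12938855, nat_lit 10513, nat_lit 3, nat_lit 1),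
  (nat_lit 12949347, nat_lit 10492, nat_lit 3, nat_lit 1),
  (nat_lit 12959820, nat_lit 10473, nat_lit 3, nat_lit 1),
  (nat_lit 12970275, nat_lit 10455, nat_lit 3, nat_lit 1),
  (nat_lit 12980713, nat_lit 10438, nat_lit 3, nat_lit 1),
  (nat_lit 12991135, nat_lit 10422, nat_lit 3, nat_lit 1),
  (nat_lit 13001543, nat_lit 10408, nat_lit 3, nat_lit 1),
  (nat_lit 13011936, nat_lit 10393, nat_lit 3, nat_lit 1),
  (nat_lit 13022315, nat_lit 10379, nat_lit 3, nat_lit 1),
  (nat_lit 13032682, nat_lit 10367, nat_lit 3, nat_lit 1),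
  (nat_lit 13043036, nat_lit 10354, nat_lit 3, nat_lit 1),
  (nat_lit 13053381, nat_lit 10345, nat_lit 3, nat_lit 1),
  (nat_lit 13063715, nat_lit 10334, nat_lit 3, nat_lit 1)]

/-- Test points. -/
def upS15_5 : List (ℕ × ℕ × ℕ × ℕ) := [
  (nat_lit 13074039, nat_lit 10324, nat_lit 3, nat_lit 1),
  (nat_lit 13084354, nat_lit 10315, nat_lit 3, nat_lit 1),
  (nat_lit 13094661, nat_lit 10307, nat_lit 3, nat_lit 1),
  (nat_lit 13104961, nat_lit 10300, nat_lit 3, nat_lit 1),
  (nat_lit 13115254, nat_lit 10293, nat_lit 3, nat_lit 1),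
  (nat_lit 13125541, nat_lit 10287, nat_lit 3, nat_lit 1),
  (nat_lit 13135823, nat_lit 10282, nat_lit 3, nat_lit 1),
  (nat_lit 13146100, nat_lit 10277, nat_lit 3, nat_lit 1),
  (nat_lit 13156374, nat_lit 10274, nat_lit 3, nat_lit 1),
  (nat_lit 13166644, nat_lit 10270, nat_lit 3, nat_lit 1),
  (nat_lit 13176913, nat_lit 10269, nat_lit 3, nat_lit 1),
  (nat_lit 13187179, nat_lit 10266, nat_lit 3, nat_lit 1),
  (nat_lit 13197445, nat_lit 10267, nat_lit 3, nat_lit 1),
  (nat_lit 13207712, nat_lit 10268, nat_lit 3, nat_lit 1),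
  (nat_lit 13217980, nat_lit 10270, nat_lit 3, nat_lit 1),
  (nat_lit 13228250, nat_lit 10273, nat_lit 3, nat_lit 1),
  (nat_lit 13238523, nat_lit 10277, nat_lit 3, nat_lit 1),
  (nat_lit 13248800, nat_lit 10283, nat_lit 3, nat_lit 1),
  (nat_lit 13259083, nat_lit 10290, nat_lit 3, nat_lit 1),
  (nat_lit 13269373, nat_lit 10298, nat_lit 3, nat_lit 1),
  (nat_lit 13279671, nat_lit 10307, nat_lit 3, nat_lit 1),
  (nat_lit 13289978, nat_lit 10317, nat_lit 3, nat_lit 1),
  (nat_lit 13300295, nat_lit 10331, nat_lit 3, nat_lit 1),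
  (nat_lit 13310626, nat_lit 10345, nat_lit 3, nat_lit 1),
  (nat_lit 13320971, nat_lit 10362, nat_lit 3, nat_lit 1),
  (nat_lit 13331333, nat_lit 10381, nat_lit 3, nat_lit 1),
  (nat_lit 13341714, nat_lit 10401, nat_lit 3, nat_lit 1),
  (nat_lit 13352115, nat_lit 10426, nat_lit 3, nat_lit 1),
  (nat_lit 13362541, nat_lit 10451, nat_lit 3, nat_lit 1)]

/-- Test points. -/
def upS15_6 : List (ℕ × ℕ × ℕ × ℕ) := [
  (nat_lit 13372992, nat_lit 10482, nat_lit 3, nat_lit 1),
  (nat_lit 13383474, nat_lit 10516, nat_lit 3, nat_lit 1),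
  (nat_lit 13393990, nat_lit 10554, nat_lit 3, nat_lit 1),
  (nat_lit 13404544, nat_lit 10596, nat_lit 3, nat_lit 1),
  (nat_lit 13415140, nat_lit 10645, nat_lit 3, nat_lit 1),
  (nat_lit 13425785, nat_lit 10699, nat_lit 3, nat_lit 1),
  (nat_lit 13436484, nat_lit 10762, nat_lit 3, nat_lit 1),
  (nat_lit 13447246, nat_lit 10833, nat_lit 3, nat_lit 1),
  (nat_lit 13458079, nat_lit 10914, nat_lit 3, nat_lit 1),
  (nat_lit 13468993, nat_lit 11008, nat_lit 3, nat_lit 1),
  (nat_lit 13480001, nat_lit 11118, nat_lit 3, nat_lit 1),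
  (nat_lit 13491119, nat_lit 11246, nat_lit 3, nat_lit 1),
  (nat_lit 13502365, nat_lit 11400, nat_lit 3, nat_lit 1),
  (nat_lit 13513765, nat_lit 11583, nat_lit 3, nat_lit 1),
  (nat_lit 13525348, nat_lit 11811, nat_lit 3, nat_lit 1),
  (nat_lit 13537159, nat_lit 12094, nat_lit 3, nat_lit 1),
  (nat_lit 13549253, nat_lit 12461, nat_lit 3, nat_lit 1),
  (nat_lit 13561714, nat_lit 12960, nat_lit 3, nat_lit 1),
  (nat_lit 13574674, nat_lit 13678, nat_lit 3, nat_lit 1),
  (nat_lit 13588352, nat_lit 14840, nat_lit 3, nat_lit 1),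
  (nat_lit 13603192, nat_lit 17281, nat_lit 3, nat_lit 1),
  (nat_lit 13620473, nat_lit 21790, nat_lit 3, nat_lit 1),
  (nat_lit 13642263, nat_lit 153506, nat_lit 3, nat_lit 1),
  (nat_lit 13795769, nat_lit 163895, nat_lit 557, nat_lit 0),
  (nat_lit 13959664, nat_lit 163895, nat_lit 2, nat_lit 1),
  (nat_lit 13981151, nat_lit 21487, nat_lit 2, nat_lit 1),
  (nat_lit 13997705, nat_lit 16554, nat_lit 2, nat_lit 1),
  (nat_lit 14012465, nat_lit 14760, nat_lit 2, nat_lit 1),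
  (nat_lit 14026236, nat_lit 13771, nat_lit 2, nat_lit 1)]

/-- Test points. -/
def upS15_7 : List (ℕ × ℕ × ℕ × ℕ) := [
  (nat_lit 14039369, nat_lit 13133, nat_lit 2, nat_lit 1),
  (nat_lit 14052054, nat_lit 12685, nat_lit 2, nat_lit 1),
  (nat_lit 14064410, nat_lit 12356, nat_lit 2, nat_lit 1),
  (nat_lit 14076514, nat_lit 12104, nat_lit 2, nat_lit 1),
  (nat_lit 14088422, nat_lit 11908, nat_lit 2, nat_lit 1),
  (nat_lit 14100174, nat_lit 11752, nat_lit 2, nat_lit 1),
  (nat_lit 14111801, nat_lit 11627, nat_lit 2, nat_lit 1),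
  (nat_lit 14123329, nat_lit 11528, nat_lit 2, nat_lit 1),
  (nat_lit 14134777, nat_lit 11448, nat_lit 2, nat_lit 1),
  (nat_lit 14146163, nat_lit 11386, nat_lit 2, nat_lit 1),
  (nat_lit 14157501, nat_lit 11338, nat_lit 2, nat_lit 1),
  (nat_lit 14168802, nat_lit 11301, nat_lit 2, nat_lit 1),
  (nat_lit 14180079, nat_lit 11277, nat_lit 2, nat_lit 1),
  (nat_lit 14191342, nat_lit 11263, nat_lit 2, nat_lit 1),
  (nat_lit 14202598, nat_lit 11258, nat_lit 2, nat_lit 1),
  (nat_lit 14213856, nat_lit 11270, nat_lit 2, nat_lit 1),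
  (nat_lit 14225126, nat_lit 11289, nat_lit 2, nat_lit 1),
  (nat_lit 14236415, nat_lit 11315, nat_lit 2, nat_lit 1),
  (nat_lit 14247730, nat_lit 11350, nat_lit 2, nat_lit 1),
  (nat_lit 14259080, nat_lit 11392, nat_lit 2, nat_lit 1),
  (nat_lit 14270472, nat_lit 11444, nat_lit 2, nat_lit 1),
  (nat_lit 14281916, nat_lit 11503, nat_lit 2, nat_lit 1),
  (nat_lit 14293419, nat_lit 11573, nat_lit 2, nat_lit 1),
  (nat_lit 14304992, nat_lit 11652, nat_lit 2, nat_lit 1),
  (nat_lit 14316644, nat_lit 11742, nat_lit 2, nat_lit 1),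
  (nat_lit 14328386, nat_lit 11845, nat_lit 2, nat_lit 1),
  (nat_lit 14340231, nat_lit 11962, nat_lit 2, nat_lit 1),
  (nat_lit 14352193, nat_lit 12095, nat_lit 2, nat_lit 1),
  (nat_lit 14364288, nat_lit 12246, nat_lit 2, nat_lit 1)]

/-- Test points. -/
def upS15_8 : List (ℕ × ℕ × ℕ × ℕ) := [
  (nat_lit 14376534, nat_lit 12419, nat_lit 2, nat_lit 1),
  (nat_lit 14388953, nat_lit 12617, nat_lit 2, nat_lit 1),
  (nat_lit 14401570, nat_lit 12847, nat_lit 2, nat_lit 1),
  (nat_lit 14414417, nat_lit 13115, nat_lit 2, nat_lit 1),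
  (nat_lit 14427532, nat_lit 13430, nat_lit 2, nat_lit 1),
  (nat_lit 14440962, nat_lit 13810, nat_lit 2, nat_lit 1),
  (nat_lit 14454772, nat_lit 14275, nat_lit 2, nat_lit 1),
  (nat_lit 14469047, nat_lit 14856, nat_lit 2, nat_lit 1),
  (nat_lit 14483903, nat_lit 15616, nat_lit 2, nat_lit 1),
  (nat_lit 14499519, nat_lit 16658, nat_lit 2, nat_lit 1),
  (nat_lit 14516177, nat_lit 18217, nat_lit 2, nat_lit 1),
  (nat_lit 14534394, nat_lit 20940, nat_lit 2, nat_lit 1),
  (nat_lit 14555334, nat_lit 28130, nat_lit 2, nat_lit 1),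
  (nat_lit 14583464, nat_lit 718678, nat_lit 2, nat_lit 0),
  (nat_lit 15302142, nat_lit 718678, nat_lit 15, nat_lit 1),
  (nat_lit 15618546, nat_lit 316404, nat_lit 3, nat_lit 1),
  (nat_lit 15644439, nat_lit 25893, nat_lit 3, nat_lit 1),
  (nat_lit 15663641, nat_lit 19202, nat_lit 3, nat_lit 1),
  (nat_lit 15680296, nat_lit 16655, nat_lit 3, nat_lit 1),
  (nat_lit 15695486, nat_lit 15190, nat_lit 3, nat_lit 1),
  (nat_lit 15709691, nat_lit 14205, nat_lit 3, nat_lit 1),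
  (nat_lit 15723175, nat_lit 13484, nat_lit 3, nat_lit 1),
  (nat_lit 15736101, nat_lit 12926, nat_lit 3, nat_lit 1),
  (nat_lit 15748583, nat_lit 12482, nat_lit 3, nat_lit 1),
  (nat_lit 15760698, nat_lit 12115, nat_lit 3, nat_lit 1),
  (nat_lit 15772507, nat_lit 11809, nat_lit 3, nat_lit 1),
  (nat_lit 15784055, nat_lit 11548, nat_lit 3, nat_lit 1),
  (nat_lit 15795379, nat_lit 11324, nat_lit 3, nat_lit 1),
  (nat_lit 15806510, nat_lit 11131, nat_lit 3, nat_lit 1)]

/-- Test points. -/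
def upS15_9 : List (ℕ × ℕ × ℕ × ℕ) := [
  (nat_lit 15817474, nat_lit 10964, nat_lit 3, nat_lit 1),
  (nat_lit 15828293, nat_lit 10819, nat_lit 3, nat_lit 1),
  (nat_lit 15838986, nat_lit 10693, nat_lit 3, nat_lit 1),
  (nat_lit 15849574, nat_lit 10588, nat_lit 3, nat_lit 1),
  (nat_lit 15860074, nat_lit 10500, nat_lit 3, nat_lit 1),
  (nat_lit 15870508, nat_lit 10434, nat_lit 3, nat_lit 1),
  (nat_lit 15880898, nat_lit 10390, nat_lit 3, nat_lit 1),
  (nat_lit 15891275, nat_lit 10410, nat_lit 3, nat_lit 1),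
  (nat_lit 15901685, nat_lit 10524, nat_lit 3, nat_lit 1),
  (nat_lit 15912209, nat_lit 10828, nat_lit 3, nat_lit 1),
  (nat_lit 15923037, nat_lit 11858, nat_lit 3, nat_lit 1),
  (nat_lit 15934895, nat_lit 12695, nat_lit 3, nat_lit 1),
  (nat_lit 15947590, nat_lit 14679, nat_lit 3, nat_lit 1),
  (nat_lit 15962269, nat_lit 20180, nat_lit 269, nat_lit 0),
  (nat_lit 15982449, nat_lit 20180, nat_lit 2, nat_lit 1),
  (nat_lit 15995319, nat_lit 12870, nat_lit 2, nat_lit 1),
  (nat_lit 16006976, nat_lit 11714, nat_lit 2, nat_lit 1),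
  (nat_lit 16018690, nat_lit 12489, nat_lit 2, nat_lit 1),
  (nat_lit 16031179, nat_lit 15289, nat_lit 2, nat_lit 1),
  (nat_lit 16046468, nat_lit 82440, nat_lit 2, nat_lit 0),
  (nat_lit 16128908, nat_lit 82440, nat_lit 5, nat_lit 1),
  (nat_lit 16165575, nat_lit 36667, nat_lit 3, nat_lit 1),
  (nat_lit 16179787, nat_lit 14212, nat_lit 3, nat_lit 1),
  (nat_lit 16191161, nat_lit 11374, nat_lit 3, nat_lit 1),
  (nat_lit 16201538, nat_lit 10377, nat_lit 3, nat_lit 1),
  (nat_lit 16211378, nat_lit 9840, nat_lit 3, nat_lit 1),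
  (nat_lit 16220874, nat_lit 9496, nat_lit 3, nat_lit 1),
  (nat_lit 16230131, nat_lit 9257, nat_lit 3, nat_lit 1),
  (nat_lit 16239209, nat_lit 9078, nat_lit 3, nat_lit 1)]

/-- Test points. -/
def upS15_10 : List (ℕ × ℕ × ℕ × ℕ) := [
  (nat_lit 16248149, nat_lit 8940, nat_lit 3, nat_lit 1),
  (nat_lit 16256978, nat_lit 8829, nat_lit 3, nat_lit 1),
  (nat_lit 16265717, nat_lit 8739, nat_lit 3, nat_lit 1),
  (nat_lit 16274378, nat_lit 8661, nat_lit 3, nat_lit 1),
  (nat_lit 16282975, nat_lit 8597, nat_lit 3, nat_lit 1),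
  (nat_lit 16291514, nat_lit 8539, nat_lit 3, nat_lit 1),
  (nat_lit 16300004, nat_lit 8490, nat_lit 3, nat_lit 1),
  (nat_lit 16308451, nat_lit 8447, nat_lit 3, nat_lit 1),
  (nat_lit 16316858, nat_lit 8407, nat_lit 3, nat_lit 1),
  (nat_lit 16325231, nat_lit 8373, nat_lit 3, nat_lit 1),
  (nat_lit 16333572, nat_lit 8341, nat_lit 3, nat_lit 1),
  (nat_lit 16341884, nat_lit 8312, nat_lit 3, nat_lit 1),
  (nat_lit 16350170, nat_lit 8286, nat_lit 3, nat_lit 1),
  (nat_lit 16358432, nat_lit 8262, nat_lit 3, nat_lit 1),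
  (nat_lit 16366672, nat_lit 8240, nat_lit 3, nat_lit 1),
  (nat_lit 16374892, nat_lit 8220, nat_lit 3, nat_lit 1),
  (nat_lit 16383094, nat_lit 8202, nat_lit 3, nat_lit 1),
  (nat_lit 16391278, nat_lit 8184, nat_lit 3, nat_lit 1),
  (nat_lit 16399446, nat_lit 8168, nat_lit 3, nat_lit 1),
  (nat_lit 16407601, nat_lit 8155, nat_lit 3, nat_lit 1),
  (nat_lit 16415742, nat_lit 8141, nat_lit 3, nat_lit 1),
  (nat_lit 16423871, nat_lit 8129, nat_lit 3, nat_lit 1),
  (nat_lit 16431990, nat_lit 8119, nat_lit 3, nat_lit 1),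
  (nat_lit 16440099, nat_lit 8109, nat_lit 3, nat_lit 1),
  (nat_lit 16448199, nat_lit 8100, nat_lit 3, nat_lit 1),
  (nat_lit 16456293, nat_lit 8094, nat_lit 3, nat_lit 1),
  (nat_lit 16464381, nat_lit 8088, nat_lit 3, nat_lit 1),
  (nat_lit 16472464, nat_lit 8083, nat_lit 3, nat_lit 1),
  (nat_lit 16480544, nat_lit 8080, nat_lit 3, nat_lit 1)]

/-- Test points. -/
def upS15_11 : List (ℕ × ℕ × ℕ × ℕ) := [
  (nat_lit 16488622, nat_lit 8079, nat_lit 3, nat_lit 1),
  (nat_lit 16496701, nat_lit 8081, nat_lit 3, nat_lit 1),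
  (nat_lit 16504782, nat_lit 8086, nat_lit 3, nat_lit 1),
  (nat_lit 16512868, nat_lit 8093, nat_lit 3, nat_lit 1),
  (nat_lit 16520961, nat_lit 8103, nat_lit 3, nat_lit 1),
  (nat_lit 16529064, nat_lit 8119, nat_lit 3, nat_lit 1),
  (nat_lit 16537183, nat_lit 8138, nat_lit 3, nat_lit 1),
  (nat_lit 16545321, nat_lit 8164, nat_lit 3, nat_lit 1),
  (nat_lit 16553485, nat_lit 8199, nat_lit 3, nat_lit 1),
  (nat_lit 16561684, nat_lit 8246, nat_lit 3, nat_lit 1),
  (nat_lit 16569930, nat_lit 8310, nat_lit 3, nat_lit 1),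
  (nat_lit 16578240, nat_lit 8398, nat_lit 3, nat_lit 1),
  (nat_lit 16586638, nat_lit 8527, nat_lit 3, nat_lit 1),
  (nat_lit 16595165, nat_lit 8724, nat_lit 3, nat_lit 1),
  (nat_lit 16603889, nat_lit 9055, nat_lit 3, nat_lit 1),
  (nat_lit 16612944, nat_lit 9710, nat_lit 3, nat_lit 1),
  (nat_lit 16622654, nat_lit 11710, nat_lit 3, nat_lit 1),
  (nat_lit 16634364, nat_lit 45095, nat_lit 3, nat_lit 0),
  (nat_lit 16679459, nat_lit 45095, nat_lit 2, nat_lit 1),
  (nat_lit 16701511, nat_lit 22052, nat_lit 2, nat_lit 1),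
  (nat_lit 16713177, nat_lit 11666, nat_lit 2, nat_lit 1),
  (nat_lit 16722878, nat_lit 9701, nat_lit 2, nat_lit 1),
  (nat_lit 16731936, nat_lit 9058, nat_lit 2, nat_lit 1),
  (nat_lit 16740671, nat_lit 8735, nat_lit 2, nat_lit 1),
  (nat_lit 16749216, nat_lit 8545, nat_lit 2, nat_lit 1),
  (nat_lit 16757637, nat_lit 8421, nat_lit 2, nat_lit 1),
  (nat_lit 16765976, nat_lit 8339, nat_lit 2, nat_lit 1),
  (nat_lit 16774258, nat_lit 8282, nat_lit 2, nat_lit 1),
  (nat_lit 16782502, nat_lit 8244, nat_lit 2, nat_lit 1)]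

/-- Test points. -/
def upS15_12 : List (ℕ × ℕ × ℕ × ℕ) := [
  (nat_lit 16790719, nat_lit 8217, nat_lit 2, nat_lit 1),
  (nat_lit 16798920, nat_lit 8201, nat_lit 2, nat_lit 1),
  (nat_lit 16807113, nat_lit 8193, nat_lit 2, nat_lit 1),
  (nat_lit 16815303, nat_lit 8196, nat_lit 2, nat_lit 1),
  (nat_lit 16823499, nat_lit 8206, nat_lit 2, nat_lit 1),
  (nat_lit 16831705, nat_lit 8222, nat_lit 2, nat_lit 1),
  (nat_lit 16839927, nat_lit 8243, nat_lit 2, nat_lit 1),
  (nat_lit 16848170, nat_lit 8270, nat_lit 2, nat_lit 1),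
  (nat_lit 16856440, nat_lit 8303, nat_lit 2, nat_lit 1),
  (nat_lit 16864743, nat_lit 8342, nat_lit 2, nat_lit 1),
  (nat_lit 16873085, nat_lit 8390, nat_lit 2, nat_lit 1),
  (nat_lit 16881475, nat_lit 8447, nat_lit 2, nat_lit 1),
  (nat_lit 16889922, nat_lit 8514, nat_lit 2, nat_lit 1),
  (nat_lit 16898436, nat_lit 8594, nat_lit 2, nat_lit 1),
  (nat_lit 16907030, nat_lit 8690, nat_lit 2, nat_lit 1),
  (nat_lit 16915720, nat_lit 8806, nat_lit 2, nat_lit 1),
  (nat_lit 16924526, nat_lit 8948, nat_lit 2, nat_lit 1),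
  (nat_lit 16933474, nat_lit 9128, nat_lit 2, nat_lit 1),
  (nat_lit 16942602, nat_lit 9356, nat_lit 2, nat_lit 1),
  (nat_lit 16951958, nat_lit 9661, nat_lit 2, nat_lit 1),
  (nat_lit 16961619, nat_lit 10088, nat_lit 2, nat_lit 1),
  (nat_lit 16971707, nat_lit 10737, nat_lit 2, nat_lit 1),
  (nat_lit 16982444, nat_lit 11885, nat_lit 2, nat_lit 1),
  (nat_lit 16994329, nat_lit 14903, nat_lit 2, nat_lit 1),
  (nat_lit 17009232, nat_lit 22773, nat_lit 2, nat_lit 1),
  (nat_lit 17032005, nat_lit 209211, nat_lit 2, nat_lit 0),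
  (nat_lit 17241216, nat_lit 209211, nat_lit 3, nat_lit 1),
  (nat_lit 17257056, nat_lit 15840, nat_lit 3, nat_lit 1),
  (nat_lit 17269274, nat_lit 12218, nat_lit 3, nat_lit 1)]

/-- Test points. -/
def upS15_13 : List (ℕ × ℕ × ℕ × ℕ) := [
  (nat_lit 17280170, nat_lit 10896, nat_lit 3, nat_lit 1),
  (nat_lit 17290335, nat_lit 10165, nat_lit 3, nat_lit 1),
  (nat_lit 17300023, nat_lit 9688, nat_lit 3, nat_lit 1),
  (nat_lit 17309373, nat_lit 9350, nat_lit 3, nat_lit 1),
  (nat_lit 17318470, nat_lit 9097, nat_lit 3, nat_lit 1),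
  (nat_lit 17327369, nat_lit 8899, nat_lit 3, nat_lit 1),
  (nat_lit 17336110, nat_lit 8741, nat_lit 3, nat_lit 1),
  (nat_lit 17344721, nat_lit 8611, nat_lit 3, nat_lit 1),
  (nat_lit 17353224, nat_lit 8503, nat_lit 3, nat_lit 1),
  (nat_lit 17361636, nat_lit 8412, nat_lit 3, nat_lit 1),
  (nat_lit 17369970, nat_lit 8334, nat_lit 3, nat_lit 1),
  (nat_lit 17378238, nat_lit 8268, nat_lit 3, nat_lit 1),
  (nat_lit 17386448, nat_lit 8210, nat_lit 3, nat_lit 1),
  (nat_lit 17394607, nat_lit 8159, nat_lit 3, nat_lit 1),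
  (nat_lit 17402721, nat_lit 8114, nat_lit 3, nat_lit 1),
  (nat_lit 17410797, nat_lit 8076, nat_lit 3, nat_lit 1),
  (nat_lit 17418837, nat_lit 8040, nat_lit 3, nat_lit 1),
  (nat_lit 17426848, nat_lit 8011, nat_lit 3, nat_lit 1),
  (nat_lit 17434831, nat_lit 7983, nat_lit 3, nat_lit 1),
  (nat_lit 17442791, nat_lit 7960, nat_lit 3, nat_lit 1),
  (nat_lit 17450729, nat_lit 7938, nat_lit 3, nat_lit 1),
  (nat_lit 17458649, nat_lit 7920, nat_lit 3, nat_lit 1),
  (nat_lit 17466552, nat_lit 7903, nat_lit 3, nat_lit 1),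
  (nat_lit 17474441, nat_lit 7889, nat_lit 3, nat_lit 1),
  (nat_lit 17482317, nat_lit 7876, nat_lit 3, nat_lit 1),
  (nat_lit 17490183, nat_lit 7866, nat_lit 3, nat_lit 1),
  (nat_lit 17498039, nat_lit 7856, nat_lit 3, nat_lit 1),
  (nat_lit 17505888, nat_lit 7849, nat_lit 3, nat_lit 1),
  (nat_lit 17513731, nat_lit 7843, nat_lit 3, nat_lit 1)]

/-- Test points. -/
def upS15_14 : List (ℕ × ℕ × ℕ × ℕ) := [
  (nat_lit 17521569, nat_lit 7838, nat_lit 3, nat_lit 1),
  (nat_lit 17529404, nat_lit 7835, nat_lit 3, nat_lit 1),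
  (nat_lit 17537236, nat_lit 7832, nat_lit 3, nat_lit 1),
  (nat_lit 17545068, nat_lit 7832, nat_lit 3, nat_lit 1),
  (nat_lit 17552900, nat_lit 7834, nat_lit 3, nat_lit 1),
  (nat_lit 17560734, nat_lit 7837, nat_lit 3, nat_lit 1),
  (nat_lit 17568571, nat_lit 7841, nat_lit 3, nat_lit 1),
  (nat_lit 17576412, nat_lit 7846, nat_lit 3, nat_lit 1),
  (nat_lit 17584258, nat_lit 7853, nat_lit 3, nat_lit 1),
  (nat_lit 17592111, nat_lit 7861, nat_lit 3, nat_lit 1),
  (nat_lit 17599972, nat_lit 7871, nat_lit 3, nat_lit 1),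
  (nat_lit 17607843, nat_lit 7881, nat_lit 3, nat_lit 1),
  (nat_lit 17615724, nat_lit 7894, nat_lit 3, nat_lit 1),
  (nat_lit 17623618, nat_lit 7908, nat_lit 3, nat_lit 1),
  (nat_lit 17631526, nat_lit 7924, nat_lit 3, nat_lit 1),
  (nat_lit 17639450, nat_lit 7942, nat_lit 3, nat_lit 1),
  (nat_lit 17647392, nat_lit 7962, nat_lit 3, nat_lit 1),
  (nat_lit 17655354, nat_lit 7983, nat_lit 3, nat_lit 1),
  (nat_lit 17663337, nat_lit 8009, nat_lit 3, nat_lit 1),
  (nat_lit 17671346, nat_lit 8036, nat_lit 3, nat_lit 1),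
  (nat_lit 17679382, nat_lit 8066, nat_lit 3, nat_lit 1),
  (nat_lit 17687448, nat_lit 8100, nat_lit 3, nat_lit 1),
  (nat_lit 17695548, nat_lit 8138, nat_lit 3, nat_lit 1),
  (nat_lit 17703686, nat_lit 8181, nat_lit 3, nat_lit 1),
  (nat_lit 17711867, nat_lit 8228, nat_lit 3, nat_lit 1),
  (nat_lit 17720095, nat_lit 8282, nat_lit 3, nat_lit 1),
  (nat_lit 17728377, nat_lit 8342, nat_lit 3, nat_lit 1),
  (nat_lit 17736719, nat_lit 8412, nat_lit 3, nat_lit 1),
  (nat_lit 17745131, nat_lit 8490, nat_lit 3, nat_lit 1)]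

/-- Test points. -/
def upS15_15 : List (ℕ × ℕ × ℕ × ℕ) := [
  (nat_lit 17753621, nat_lit 8582, nat_lit 3, nat_lit 1),
  (nat_lit 17762203, nat_lit 8689, nat_lit 3, nat_lit 1),
  (nat_lit 17770892, nat_lit 8815, nat_lit 3, nat_lit 1),
  (nat_lit 17779707, nat_lit 8967, nat_lit 3, nat_lit 1),
  (nat_lit 17788674, nat_lit 9152, nat_lit 3, nat_lit 1),
  (nat_lit 17797826, nat_lit 9383, nat_lit 3, nat_lit 1),
  (nat_lit 17807209, nat_lit 9684, nat_lit 3, nat_lit 1),
  (nat_lit 17816893, nat_lit 10091, nat_lit 3, nat_lit 1),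
  (nat_lit 17826984, nat_lit 10680, nat_lit 3, nat_lit 1),
  (nat_lit 17837664, nat_lit 11650, nat_lit 3, nat_lit 1),
  (nat_lit 17849314, nat_lit 13789, nat_lit 3, nat_lit 1),
  (nat_lit 17863103, nat_lit 17411, nat_lit 3, nat_lit 1),
  (nat_lit 17880514, nat_lit 119030, nat_lit 3, nat_lit 1),
  (nat_lit 17999544, nat_lit 130137, nat_lit 1987, nat_lit 0),
  (nat_lit 18129681, nat_lit 130137, nat_lit 2, nat_lit 1),
  (nat_lit 18146987, nat_lit 17306, nat_lit 2, nat_lit 1),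
  (nat_lit 18160442, nat_lit 13455, nat_lit 2, nat_lit 1),
  (nat_lit 18172621, nat_lit 12179, nat_lit 2, nat_lit 1),
  (nat_lit 18184355, nat_lit 12463, nat_lit 2, nat_lit 1),
  (nat_lit 18196818, nat_lit 27856, nat_lit 2, nat_lit 0),
  (nat_lit 18224674, nat_lit 27856, nat_lit 3, nat_lit 1),
  (nat_lit 18236020, nat_lit 11346, nat_lit 3, nat_lit 1),
  (nat_lit 18246762, nat_lit 10742, nat_lit 3, nat_lit 1),
  (nat_lit 18256559, nat_lit 9797, nat_lit 3, nat_lit 1),
  (nat_lit 18266017, nat_lit 9458, nat_lit 3, nat_lit 1),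
  (nat_lit 18275290, nat_lit 9273, nat_lit 3, nat_lit 1),
  (nat_lit 18284446, nat_lit 9156, nat_lit 3, nat_lit 1),
  (nat_lit 18293519, nat_lit 9073, nat_lit 3, nat_lit 1),
  (nat_lit 18302531, nat_lit 9012, nat_lit 3, nat_lit 1)]

/-- Test points. -/
def upS15_16 : List (ℕ × ℕ × ℕ × ℕ) := [
  (nat_lit 18311499, nat_lit 8968, nat_lit 3, nat_lit 1),
  (nat_lit 18320432, nat_lit 8933, nat_lit 3, nat_lit 1),
  (nat_lit 18329341, nat_lit 8909, nat_lit 3, nat_lit 1),
  (nat_lit 18338232, nat_lit 8891, nat_lit 3, nat_lit 1),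
  (nat_lit 18347111, nat_lit 8879, nat_lit 3, nat_lit 1),
  (nat_lit 18355984, nat_lit 8873, nat_lit 3, nat_lit 1),
  (nat_lit 18364855, nat_lit 8873, nat_lit 3, nat_lit 1),
  (nat_lit 18373728, nat_lit 8878, nat_lit 3, nat_lit 1),
  (nat_lit 18382606, nat_lit 8888, nat_lit 3, nat_lit 1),
  (nat_lit 18391494, nat_lit 8901, nat_lit 3, nat_lit 1),
  (nat_lit 18400395, nat_lit 8916, nat_lit 3, nat_lit 1),
  (nat_lit 18409311, nat_lit 8935, nat_lit 3, nat_lit 1),
  (nat_lit 18418246, nat_lit 8956, nat_lit 3, nat_lit 1),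
  (nat_lit 18427202, nat_lit 8981, nat_lit 3, nat_lit 1),
  (nat_lit 18436183, nat_lit 9007, nat_lit 3, nat_lit 1),
  (nat_lit 18445190, nat_lit 9038, nat_lit 3, nat_lit 1),
  (nat_lit 18454228, nat_lit 9071, nat_lit 3, nat_lit 1),
  (nat_lit 18463299, nat_lit 9106, nat_lit 3, nat_lit 1),
  (nat_lit 18472405, nat_lit 9146, nat_lit 3, nat_lit 1),
  (nat_lit 18481551, nat_lit 9187, nat_lit 3, nat_lit 1),
  (nat_lit 18490738, nat_lit 9232, nat_lit 3, nat_lit 1),
  (nat_lit 18499970, nat_lit 9281, nat_lit 3, nat_lit 1),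
  (nat_lit 18509251, nat_lit 9332, nat_lit 3, nat_lit 1),
  (nat_lit 18518583, nat_lit 9389, nat_lit 3, nat_lit 1),
  (nat_lit 18527972, nat_lit 9447, nat_lit 3, nat_lit 1),
  (nat_lit 18537419, nat_lit 9512, nat_lit 3, nat_lit 1),
  (nat_lit 18546931, nat_lit 9579, nat_lit 3, nat_lit 1),
  (nat_lit 18556510, nat_lit 9653, nat_lit 3, nat_lit 1),
  (nat_lit 18566163, nat_lit 9732, nat_lit 3, nat_lit 1)]

/-- Test points. -/
def upS15_17 : List (ℕ × ℕ × ℕ × ℕ) := [
  (nat_lit 18575895, nat_lit 9816, nat_lit 3, nat_lit 1),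
  (nat_lit 18585711, nat_lit 9905, nat_lit 3, nat_lit 1),
  (nat_lit 18595616, nat_lit 10003, nat_lit 3, nat_lit 1),
  (nat_lit 18605619, nat_lit 10109, nat_lit 3, nat_lit 1),
  (nat_lit 18615728, nat_lit 10223, nat_lit 3, nat_lit 1),
  (nat_lit 18625951, nat_lit 10345, nat_lit 3, nat_lit 1),
  (nat_lit 18636296, nat_lit 10479, nat_lit 3, nat_lit 1),
  (nat_lit 18646775, nat_lit 10626, nat_lit 3, nat_lit 1),
  (nat_lit 18657401, nat_lit 10786, nat_lit 3, nat_lit 1),
  (nat_lit 18668187, nat_lit 10963, nat_lit 3, nat_lit 1),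
  (nat_lit 18679150, nat_lit 11159, nat_lit 3, nat_lit 1),
  (nat_lit 18690309, nat_lit 11377, nat_lit 3, nat_lit 1),
  (nat_lit 18701686, nat_lit 11623, nat_lit 3, nat_lit 1),
  (nat_lit 18713309, nat_lit 11901, nat_lit 3, nat_lit 1),
  (nat_lit 18725210, nat_lit 12219, nat_lit 3, nat_lit 1),
  (nat_lit 18737429, nat_lit 12591, nat_lit 3, nat_lit 1),
  (nat_lit 18750020, nat_lit 13027, nat_lit 3, nat_lit 1),
  (nat_lit 18763047, nat_lit 13554, nat_lit 3, nat_lit 1),
  (nat_lit 18776601, nat_lit 14207, nat_lit 3, nat_lit 1),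
  (nat_lit 18790808, nat_lit 15045, nat_lit 3, nat_lit 1),
  (nat_lit 18805853, nat_lit 16181, nat_lit 3, nat_lit 1),
  (nat_lit 18822034, nat_lit 17856, nat_lit 3, nat_lit 1),
  (nat_lit 18839890, nat_lit 20745, nat_lit 3, nat_lit 1),
  (nat_lit 18860635, nat_lit 28262, nat_lit 3, nat_lit 1),
  (nat_lit 18888897, nat_lit 603660, nat_lit 3, nat_lit 1),
  (nat_lit 19492557, nat_lit 1516824, nat_lit 39, nat_lit 0),
  (nat_lit 21009381, nat_lit 1516824, nat_lit 2, nat_lit 1),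
  (nat_lit 21032723, nat_lit 23342, nat_lit 2, nat_lit 1),
  (nat_lit 21049789, nat_lit 17066, nat_lit 2, nat_lit 1)]

/-- Test points. -/
def upS15_18 : List (ℕ × ℕ × ℕ × ℕ) := [
  (nat_lit 21064432, nat_lit 14643, nat_lit 2, nat_lit 1),
  (nat_lit 21077665, nat_lit 13233, nat_lit 2, nat_lit 1),
  (nat_lit 21089938, nat_lit 12273, nat_lit 2, nat_lit 1),
  (nat_lit 21101500, nat_lit 11562, nat_lit 2, nat_lit 1),
  (nat_lit 21112508, nat_lit 11008, nat_lit 2, nat_lit 1),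
  (nat_lit 21123065, nat_lit 10557, nat_lit 2, nat_lit 1),
  (nat_lit 21133248, nat_lit 10183, nat_lit 2, nat_lit 1),
  (nat_lit 21143112, nat_lit 9864, nat_lit 2, nat_lit 1),
  (nat_lit 21152702, nat_lit 9590, nat_lit 2, nat_lit 1),
  (nat_lit 21162051, nat_lit 9349, nat_lit 2, nat_lit 1),
  (nat_lit 21171187, nat_lit 9136, nat_lit 2, nat_lit 1),
  (nat_lit 21180133, nat_lit 8946, nat_lit 2, nat_lit 1),
  (nat_lit 21188909, nat_lit 8776, nat_lit 2, nat_lit 1),
  (nat_lit 21197530, nat_lit 8621, nat_lit 2, nat_lit 1),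
  (nat_lit 21206012, nat_lit 8482, nat_lit 2, nat_lit 1),
  (nat_lit 21214366, nat_lit 8354, nat_lit 2, nat_lit 1),
  (nat_lit 21222603, nat_lit 8237, nat_lit 2, nat_lit 1),
  (nat_lit 21230733, nat_lit 8130, nat_lit 2, nat_lit 1),
  (nat_lit 21238763, nat_lit 8030, nat_lit 2, nat_lit 1),
  (nat_lit 21246703, nat_lit 7940, nat_lit 2, nat_lit 1),
  (nat_lit 21254560, nat_lit 7857, nat_lit 2, nat_lit 1),
  (nat_lit 21262340, nat_lit 7780, nat_lit 2, nat_lit 1),
  (nat_lit 21270050, nat_lit 7710, nat_lit 2, nat_lit 1),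
  (nat_lit 21277695, nat_lit 7645, nat_lit 2, nat_lit 1),
  (nat_lit 21285283, nat_lit 7588, nat_lit 2, nat_lit 1),
  (nat_lit 21292819, nat_lit 7536, nat_lit 2, nat_lit 1),
  (nat_lit 21300310, nat_lit 7491, nat_lit 2, nat_lit 1),
  (nat_lit 21307761, nat_lit 7451, nat_lit 2, nat_lit 1),
  (nat_lit 21315180, nat_lit 7419, nat_lit 2, nat_lit 1)]

/-- Test points. -/
def upS15_19 : List (ℕ × ℕ × ℕ × ℕ) := [
  (nat_lit 21322575, nat_lit 7395, nat_lit 2, nat_lit 1),
  (nat_lit 21329956, nat_lit 7381, nat_lit 2, nat_lit 1),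
  (nat_lit 21337333, nat_lit 7386, nat_lit 2, nat_lit 1),
  (nat_lit 21344719, nat_lit 7415, nat_lit 2, nat_lit 1),
  (nat_lit 21352134, nat_lit 7467, nat_lit 2, nat_lit 1),
  (nat_lit 21359601, nat_lit 7557, nat_lit 2, nat_lit 1),
  (nat_lit 21367158, nat_lit 7704, nat_lit 2, nat_lit 1),
  (nat_lit 21374862, nat_lit 7954, nat_lit 2, nat_lit 1),
  (nat_lit 21382816, nat_lit 8424, nat_lit 2, nat_lit 1),
  (nat_lit 21391240, nat_lit 9618, nat_lit 2, nat_lit 1),
  (nat_lit 21400858, nat_lit 11449, nat_lit 2, nat_lit 1),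
  (nat_lit 21412307, nat_lit 79670, nat_lit 2, nat_lit 0),
  (nat_lit 21491977, nat_lit 79670, nat_lit 3, nat_lit 1),
  (nat_lit 21502247, nat_lit 10270, nat_lit 3, nat_lit 1),
  (nat_lit 21510458, nat_lit 8211, nat_lit 3, nat_lit 1),
  (nat_lit 21517944, nat_lit 7486, nat_lit 3, nat_lit 1),
  (nat_lit 21525038, nat_lit 7094, nat_lit 3, nat_lit 1),
  (nat_lit 21531880, nat_lit 6842, nat_lit 3, nat_lit 1),
  (nat_lit 21538545, nat_lit 6665, nat_lit 3, nat_lit 1),
  (nat_lit 21545078, nat_lit 6533, nat_lit 3, nat_lit 1),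
  (nat_lit 21551507, nat_lit 6429, nat_lit 3, nat_lit 1),
  (nat_lit 21557851, nat_lit 6344, nat_lit 3, nat_lit 1),
  (nat_lit 21564125, nat_lit 6274, nat_lit 3, nat_lit 1),
  (nat_lit 21570339, nat_lit 6214, nat_lit 3, nat_lit 1),
  (nat_lit 21576503, nat_lit 6164, nat_lit 3, nat_lit 1),
  (nat_lit 21582621, nat_lit 6118, nat_lit 3, nat_lit 1),
  (nat_lit 21588699, nat_lit 6078, nat_lit 3, nat_lit 1),
  (nat_lit 21594741, nat_lit 6042, nat_lit 3, nat_lit 1),
  (nat_lit 21600751, nat_lit 6010, nat_lit 3, nat_lit 1)]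

/-- Test points. -/
def upS15_20 : List (ℕ × ℕ × ℕ × ℕ) := [
  (nat_lit 21606731, nat_lit 5980, nat_lit 3, nat_lit 1),
  (nat_lit 21612685, nat_lit 5954, nat_lit 3, nat_lit 1),
  (nat_lit 21618613, nat_lit 5928, nat_lit 3, nat_lit 1),
  (nat_lit 21624518, nat_lit 5905, nat_lit 3, nat_lit 1),
  (nat_lit 21630402, nat_lit 5884, nat_lit 3, nat_lit 1),
  (nat_lit 21636266, nat_lit 5864, nat_lit 3, nat_lit 1),
  (nat_lit 21642112, nat_lit 5846, nat_lit 3, nat_lit 1),
  (nat_lit 21647940, nat_lit 5828, nat_lit 3, nat_lit 1),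
  (nat_lit 21653752, nat_lit 5812, nat_lit 3, nat_lit 1),
  (nat_lit 21659550, nat_lit 5798, nat_lit 3, nat_lit 1),
  (nat_lit 21665333, nat_lit 5783, nat_lit 3, nat_lit 1),
  (nat_lit 21671102, nat_lit 5769, nat_lit 3, nat_lit 1),
  (nat_lit 21676859, nat_lit 5757, nat_lit 3, nat_lit 1),
  (nat_lit 21682604, nat_lit 5745, nat_lit 3, nat_lit 1),
  (nat_lit 21688339, nat_lit 5735, nat_lit 3, nat_lit 1),
  (nat_lit 21694065, nat_lit 5726, nat_lit 3, nat_lit 1),
  (nat_lit 21699781, nat_lit 5716, nat_lit 3, nat_lit 1),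
  (nat_lit 21705488, nat_lit 5707, nat_lit 3, nat_lit 1),
  (nat_lit 21711188, nat_lit 5700, nat_lit 3, nat_lit 1),
  (nat_lit 21716882, nat_lit 5694, nat_lit 3, nat_lit 1),
  (nat_lit 21722569, nat_lit 5687, nat_lit 3, nat_lit 1),
  (nat_lit 21728252, nat_lit 5683, nat_lit 3, nat_lit 1),
  (nat_lit 21733929, nat_lit 5677, nat_lit 3, nat_lit 1),
  (nat_lit 21739604, nat_lit 5675, nat_lit 3, nat_lit 1),
  (nat_lit 21745277, nat_lit 5673, nat_lit 3, nat_lit 1),
  (nat_lit 21750948, nat_lit 5671, nat_lit 3, nat_lit 1),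
  (nat_lit 21756618, nat_lit 5671, nat_lit 3, nat_lit 1),
  (nat_lit 21762289, nat_lit 5673, nat_lit 3, nat_lit 1),
  (nat_lit 21767962, nat_lit 5676, nat_lit 3, nat_lit 1)]

/-- Test points. -/
def upS15_21 : List (ℕ × ℕ × ℕ × ℕ) := [
  (nat_lit 21773638, nat_lit 5681, nat_lit 3, nat_lit 1),
  (nat_lit 21779319, nat_lit 5687, nat_lit 3, nat_lit 1),
  (nat_lit 21785006, nat_lit 5694, nat_lit 3, nat_lit 1),
  (nat_lit 21790700, nat_lit 5705, nat_lit 3, nat_lit 1),
  (nat_lit 21796405, nat_lit 5716, nat_lit 3, nat_lit 1),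
  (nat_lit 21802121, nat_lit 5730, nat_lit 3, nat_lit 1),
  (nat_lit 21807851, nat_lit 5748, nat_lit 3, nat_lit 1),
  (nat_lit 21813599, nat_lit 5768, nat_lit 3, nat_lit 1),
  (nat_lit 21819367, nat_lit 5792, nat_lit 3, nat_lit 1),
  (nat_lit 21825159, nat_lit 5820, nat_lit 3, nat_lit 1),
  (nat_lit 21830979, nat_lit 5853, nat_lit 3, nat_lit 1),
  (nat_lit 21836832, nat_lit 5893, nat_lit 3, nat_lit 1),
  (nat_lit 21842725, nat_lit 5939, nat_lit 3, nat_lit 1),
  (nat_lit 21848664, nat_lit 5995, nat_lit 3, nat_lit 1),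
  (nat_lit 21854659, nat_lit 6062, nat_lit 3, nat_lit 1),
  (nat_lit 21860721, nat_lit 6145, nat_lit 3, nat_lit 1),
  (nat_lit 21866866, nat_lit 6247, nat_lit 3, nat_lit 1),
  (nat_lit 21873113, nat_lit 6375, nat_lit 3, nat_lit 1),
  (nat_lit 21879488, nat_lit 6542, nat_lit 3, nat_lit 1),
  (nat_lit 21886030, nat_lit 6766, nat_lit 3, nat_lit 1),
  (nat_lit 21892796, nat_lit 7086, nat_lit 3, nat_lit 1),
  (nat_lit 21899882, nat_lit 7579, nat_lit 3, nat_lit 1),
  (nat_lit 21907461, nat_lit 8474, nat_lit 3, nat_lit 1),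
  (nat_lit 21915935, nat_lit 10939, nat_lit 3, nat_lit 1),
  (nat_lit 21926874, nat_lit 35274, nat_lit 3, nat_lit 1),
  (nat_lit 21962148, nat_lit 120658, nat_lit 11, nat_lit 0),
  (nat_lit 22082806, nat_lit 120658, nat_lit 2, nat_lit 1),
  (nat_lit 22093557, nat_lit 10751, nat_lit 2, nat_lit 1),
  (nat_lit 22101843, nat_lit 8286, nat_lit 2, nat_lit 1)]

/-- Test points. -/
def upS15_22 : List (ℕ × ℕ × ℕ × ℕ) := [
  (nat_lit 22109228, nat_lit 7385, nat_lit 2, nat_lit 1),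
  (nat_lit 22116113, nat_lit 6885, nat_lit 2, nat_lit 1),
  (nat_lit 22122672, nat_lit 6559, nat_lit 2, nat_lit 1),
  (nat_lit 22129000, nat_lit 6328, nat_lit 2, nat_lit 1),
  (nat_lit 22135154, nat_lit 6154, nat_lit 2, nat_lit 1),
  (nat_lit 22141174, nat_lit 6020, nat_lit 2, nat_lit 1),
  (nat_lit 22147085, nat_lit 5911, nat_lit 2, nat_lit 1),
  (nat_lit 22152908, nat_lit 5823, nat_lit 2, nat_lit 1),
  (nat_lit 22158658, nat_lit 5750, nat_lit 2, nat_lit 1),
  (nat_lit 22164345, nat_lit 5687, nat_lit 2, nat_lit 1),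
  (nat_lit 22169981, nat_lit 5636, nat_lit 2, nat_lit 1),
  (nat_lit 22175571, nat_lit 5590, nat_lit 2, nat_lit 1),
  (nat_lit 22181123, nat_lit 5552, nat_lit 2, nat_lit 1),
  (nat_lit 22186641, nat_lit 5518, nat_lit 2, nat_lit 1),
  (nat_lit 22192132, nat_lit 5491, nat_lit 2, nat_lit 1),
  (nat_lit 22197599, nat_lit 5467, nat_lit 2, nat_lit 1),
  (nat_lit 22203045, nat_lit 5446, nat_lit 2, nat_lit 1),
  (nat_lit 22208475, nat_lit 5430, nat_lit 2, nat_lit 1),
  (nat_lit 22213892, nat_lit 5417, nat_lit 2, nat_lit 1),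
  (nat_lit 22219299, nat_lit 5407, nat_lit 2, nat_lit 1),
  (nat_lit 22224700, nat_lit 5401, nat_lit 2, nat_lit 1),
  (nat_lit 22230100, nat_lit 5405, nat_lit 2, nat_lit 1),
  (nat_lit 22235505, nat_lit 5418, nat_lit 2, nat_lit 1),
  (nat_lit 22240923, nat_lit 5443, nat_lit 2, nat_lit 1),
  (nat_lit 22246366, nat_lit 5490, nat_lit 2, nat_lit 1),
  (nat_lit 22251856, nat_lit 5580, nat_lit 2, nat_lit 1),
  (nat_lit 22257436, nat_lit 5787, nat_lit 2, nat_lit 1),
  (nat_lit 22263223, nat_lit 6519, nat_lit 2, nat_lit 1),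
  (nat_lit 22269742, nat_lit 8598, nat_lit 2, nat_lit 1)]

/-- Test points. -/
def upS15_23 : List (ℕ × ℕ × ℕ × ℕ) := [
  (nat_lit 22278340, nat_lit 11667, nat_lit 2, nat_lit 0),
  (nat_lit 22290007, nat_lit 11667, nat_lit 3, nat_lit 1),
  (nat_lit 22296542, nat_lit 6535, nat_lit 3, nat_lit 1),
  (nat_lit 22302342, nat_lit 5800, nat_lit 3, nat_lit 1),
  (nat_lit 22307937, nat_lit 5595, nat_lit 3, nat_lit 1),
  (nat_lit 22313443, nat_lit 5506, nat_lit 3, nat_lit 1),
  (nat_lit 22318905, nat_lit 5462, nat_lit 3, nat_lit 1),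
  (nat_lit 22324344, nat_lit 5439, nat_lit 3, nat_lit 1),
  (nat_lit 22329772, nat_lit 5428, nat_lit 3, nat_lit 1),
  (nat_lit 22335197, nat_lit 5427, nat_lit 3, nat_lit 1),
  (nat_lit 22340624, nat_lit 5434, nat_lit 3, nat_lit 1),
  (nat_lit 22346058, nat_lit 5443, nat_lit 3, nat_lit 1),
  (nat_lit 22351501, nat_lit 5457, nat_lit 3, nat_lit 1),
  (nat_lit 22356958, nat_lit 5471, nat_lit 3, nat_lit 1),
  (nat_lit 22362429, nat_lit 5489, nat_lit 3, nat_lit 1),
  (nat_lit 22367918, nat_lit 5510, nat_lit 3, nat_lit 1),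
  (nat_lit 22373428, nat_lit 5532, nat_lit 3, nat_lit 1),
  (nat_lit 22378960, nat_lit 5558, nat_lit 3, nat_lit 1),
  (nat_lit 22384518, nat_lit 5586, nat_lit 3, nat_lit 1),
  (nat_lit 22390104, nat_lit 5617, nat_lit 3, nat_lit 1),
  (nat_lit 22395721, nat_lit 5651, nat_lit 3, nat_lit 1),
  (nat_lit 22401372, nat_lit 5688, nat_lit 3, nat_lit 1),
  (nat_lit 22407060, nat_lit 5731, nat_lit 3, nat_lit 1),
  (nat_lit 22412791, nat_lit 5776, nat_lit 3, nat_lit 1),
  (nat_lit 22418567, nat_lit 5826, nat_lit 3, nat_lit 1),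
  (nat_lit 22424393, nat_lit 5882, nat_lit 3, nat_lit 1),
  (nat_lit 22430275, nat_lit 5944, nat_lit 3, nat_lit 1),
  (nat_lit 22436219, nat_lit 6014, nat_lit 3, nat_lit 1),
  (nat_lit 22442233, nat_lit 6091, nat_lit 3, nat_lit 1)]

/-- Test points. -/
def upS15_24 : List (ℕ × ℕ × ℕ × ℕ) := [
  (nat_lit 22448324, nat_lit 6179, nat_lit 3, nat_lit 1),
  (nat_lit 22454503, nat_lit 6277, nat_lit 3, nat_lit 1),
  (nat_lit 22460780, nat_lit 6392, nat_lit 3, nat_lit 1),
  (nat_lit 22467172, nat_lit 6522, nat_lit 3, nat_lit 1),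
  (nat_lit 22473694, nat_lit 6677, nat_lit 3, nat_lit 1),
  (nat_lit 22480371, nat_lit 6860, nat_lit 3, nat_lit 1),
  (nat_lit 22487231, nat_lit 7082, nat_lit 3, nat_lit 1),
  (nat_lit 22494313, nat_lit 7358, nat_lit 3, nat_lit 1),
  (nat_lit 22501671, nat_lit 7716, nat_lit 3, nat_lit 1),
  (nat_lit 22509387, nat_lit 8202, nat_lit 3, nat_lit 1),
  (nat_lit 22517589, nat_lit 8922, nat_lit 3, nat_lit 1),
  (nat_lit 22526511, nat_lit 10159, nat_lit 3, nat_lit 1),
  (nat_lit 22536670, nat_lit 13346, nat_lit 3, nat_lit 1),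
  (nat_lit 22550016, nat_lit 25637, nat_lit 3, nat_lit 1),
  (nat_lit 22575653, nat_lit 495627, nat_lit 3, nat_lit 0),
  (nat_lit 23071280, nat_lit 495627, nat_lit 2, nat_lit 1),
  (nat_lit 23083967, nat_lit 12687, nat_lit 2, nat_lit 1),
  (nat_lit 23093361, nat_lit 9394, nat_lit 2, nat_lit 1),
  (nat_lit 23101499, nat_lit 8138, nat_lit 2, nat_lit 1),
  (nat_lit 23108911, nat_lit 7412, nat_lit 2, nat_lit 1),
  (nat_lit 23115834, nat_lit 6923, nat_lit 2, nat_lit 1),
  (nat_lit 23122397, nat_lit 6563, nat_lit 2, nat_lit 1),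
  (nat_lit 23128681, nat_lit 6284, nat_lit 2, nat_lit 1),
  (nat_lit 23134740, nat_lit 6059, nat_lit 2, nat_lit 1),
  (nat_lit 23140612, nat_lit 5872, nat_lit 2, nat_lit 1),
  (nat_lit 23146327, nat_lit 5715, nat_lit 2, nat_lit 1),
  (nat_lit 23151906, nat_lit 5579, nat_lit 2, nat_lit 1),
  (nat_lit 23157366, nat_lit 5460, nat_lit 2, nat_lit 1),
  (nat_lit 23162723, nat_lit 5357, nat_lit 2, nat_lit 1)]

/-- Test points. -/
def upS15_25 : List (ℕ × ℕ × ℕ × ℕ) := [
  (nat_lit 23167985, nat_lit 5262, nat_lit 2, nat_lit 1),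
  (nat_lit 23173165, nat_lit 5180, nat_lit 2, nat_lit 1),
  (nat_lit 23178270, nat_lit 5105, nat_lit 2, nat_lit 1),
  (nat_lit 23183305, nat_lit 5035, nat_lit 2, nat_lit 1),
  (nat_lit 23188278, nat_lit 4973, nat_lit 2, nat_lit 1),
  (nat_lit 23193194, nat_lit 4916, nat_lit 2, nat_lit 1),
  (nat_lit 23198056, nat_lit 4862, nat_lit 2, nat_lit 1),
  (nat_lit 23202868, nat_lit 4812, nat_lit 2, nat_lit 1),
  (nat_lit 23207635, nat_lit 4767, nat_lit 2, nat_lit 1),
  (nat_lit 23212359, nat_lit 4724, nat_lit 2, nat_lit 1),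
  (nat_lit 23217043, nat_lit 4684, nat_lit 2, nat_lit 1),
  (nat_lit 23221690, nat_lit 4647, nat_lit 2, nat_lit 1),
  (nat_lit 23226301, nat_lit 4611, nat_lit 2, nat_lit 1),
  (nat_lit 23230879, nat_lit 4578, nat_lit 2, nat_lit 1),
  (nat_lit 23235426, nat_lit 4547, nat_lit 2, nat_lit 1),
  (nat_lit 23239943, nat_lit 4517, nat_lit 2, nat_lit 1),
  (nat_lit 23244432, nat_lit 4489, nat_lit 2, nat_lit 1),
  (nat_lit 23248895, nat_lit 4463, nat_lit 2, nat_lit 1),
  (nat_lit 23253332, nat_lit 4437, nat_lit 2, nat_lit 1),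
  (nat_lit 23257745, nat_lit 4413, nat_lit 2, nat_lit 1),
  (nat_lit 23262135, nat_lit 4390, nat_lit 2, nat_lit 1),
  (nat_lit 23266504, nat_lit 4369, nat_lit 2, nat_lit 1),
  (nat_lit 23270851, nat_lit 4347, nat_lit 2, nat_lit 1),
  (nat_lit 23275178, nat_lit 4327, nat_lit 2, nat_lit 1),
  (nat_lit 23279487, nat_lit 4309, nat_lit 2, nat_lit 1),
  (nat_lit 23283777, nat_lit 4290, nat_lit 2, nat_lit 1),
  (nat_lit 23288049, nat_lit 4272, nat_lit 2, nat_lit 1),
  (nat_lit 23292305, nat_lit 4256, nat_lit 2, nat_lit 1),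
  (nat_lit 23296544, nat_lit 4239, nat_lit 2, nat_lit 1)]

/-- Test points. -/
def upS15_26 : List (ℕ × ℕ × ℕ × ℕ) := [
  (nat_lit 23300768, nat_lit 4224, nat_lit 2, nat_lit 1),
  (nat_lit 23304977, nat_lit 4209, nat_lit 2, nat_lit 1),
  (nat_lit 23309171, nat_lit 4194, nat_lit 2, nat_lit 1),
  (nat_lit 23313352, nat_lit 4181, nat_lit 2, nat_lit 1),
  (nat_lit 23317519, nat_lit 4167, nat_lit 2, nat_lit 1),
  (nat_lit 23321674, nat_lit 4155, nat_lit 2, nat_lit 1),
  (nat_lit 23325816, nat_lit 4142, nat_lit 2, nat_lit 1),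
  (nat_lit 23329947, nat_lit 4131, nat_lit 2, nat_lit 1),
  (nat_lit 23334066, nat_lit 4119, nat_lit 2, nat_lit 1),
  (nat_lit 23338175, nat_lit 4109, nat_lit 2, nat_lit 1),
  (nat_lit 23342273, nat_lit 4098, nat_lit 2, nat_lit 1),
  (nat_lit 23346360, nat_lit 4087, nat_lit 2, nat_lit 1),
  (nat_lit 23350438, nat_lit 4078, nat_lit 2, nat_lit 1),
  (nat_lit 23354506, nat_lit 4068, nat_lit 2, nat_lit 1),
  (nat_lit 23358566, nat_lit 4060, nat_lit 2, nat_lit 1),
  (nat_lit 23362616, nat_lit 4050, nat_lit 2, nat_lit 1),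
  (nat_lit 23366658, nat_lit 4042, nat_lit 2, nat_lit 1),
  (nat_lit 23370693, nat_lit 4035, nat_lit 2, nat_lit 1),
  (nat_lit 23374719, nat_lit 4026, nat_lit 2, nat_lit 1),
  (nat_lit 23378738, nat_lit 4019, nat_lit 2, nat_lit 1),
  (nat_lit 23382750, nat_lit 4012, nat_lit 2, nat_lit 1),
  (nat_lit 23386756, nat_lit 4006, nat_lit 2, nat_lit 1),
  (nat_lit 23390755, nat_lit 3999, nat_lit 2, nat_lit 1),
  (nat_lit 23394748, nat_lit 3993, nat_lit 2, nat_lit 1),
  (nat_lit 23398735, nat_lit 3987, nat_lit 2, nat_lit 1),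
  (nat_lit 23402717, nat_lit 3982, nat_lit 2, nat_lit 1),
  (nat_lit 23406694, nat_lit 3977, nat_lit 2, nat_lit 1),
  (nat_lit 23410665, nat_lit 3971, nat_lit 2, nat_lit 1),
  (nat_lit 23414633, nat_lit 3968, nat_lit 2, nat_lit 1)]

/-- Test points. -/
def upS15_27 : List (ℕ × ℕ × ℕ × ℕ) := [
  (nat_lit 23418596, nat_lit 3963, nat_lit 2, nat_lit 1),
  (nat_lit 23422555, nat_lit 3959, nat_lit 2, nat_lit 1),
  (nat_lit 23426511, nat_lit 3956, nat_lit 2, nat_lit 1),
  (nat_lit 23430464, nat_lit 3953, nat_lit 2, nat_lit 1),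
  (nat_lit 23434414, nat_lit 3950, nat_lit 2, nat_lit 1),
  (nat_lit 23438362, nat_lit 3948, nat_lit 2, nat_lit 1),
  (nat_lit 23442307, nat_lit 3945, nat_lit 2, nat_lit 1),
  (nat_lit 23446251, nat_lit 3944, nat_lit 2, nat_lit 1),
  (nat_lit 23450195, nat_lit 3944, nat_lit 2, nat_lit 1),
  (nat_lit 23454137, nat_lit 3942, nat_lit 2, nat_lit 1),
  (nat_lit 23458079, nat_lit 3942, nat_lit 2, nat_lit 1),
  (nat_lit 23462021, nat_lit 3944, nat_lit 2, nat_lit 1),
  (nat_lit 23465965, nat_lit 3945, nat_lit 2, nat_lit 1),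
  (nat_lit 23469910, nat_lit 3947, nat_lit 2, nat_lit 1),
  (nat_lit 23473857, nat_lit 3950, nat_lit 2, nat_lit 1),
  (nat_lit 23477807, nat_lit 3954, nat_lit 2, nat_lit 1),
  (nat_lit 23481761, nat_lit 3957, nat_lit 2, nat_lit 1),
  (nat_lit 23485718, nat_lit 3963, nat_lit 2, nat_lit 1),
  (nat_lit 23489681, nat_lit 3970, nat_lit 2, nat_lit 1),
  (nat_lit 23493651, nat_lit 3976, nat_lit 2, nat_lit 1),
  (nat_lit 23497627, nat_lit 3986, nat_lit 2, nat_lit 1),
  (nat_lit 23501613, nat_lit 3995, nat_lit 2, nat_lit 1),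
  (nat_lit 23505608, nat_lit 4006, nat_lit 2, nat_lit 1),
  (nat_lit 23509614, nat_lit 4020, nat_lit 2, nat_lit 1),
  (nat_lit 23513634, nat_lit 4035, nat_lit 2, nat_lit 1),
  (nat_lit 23517669, nat_lit 4052, nat_lit 2, nat_lit 1),
  (nat_lit 23521721, nat_lit 4073, nat_lit 2, nat_lit 1),
  (nat_lit 23525794, nat_lit 4096, nat_lit 2, nat_lit 1),
  (nat_lit 23529890, nat_lit 4123, nat_lit 2, nat_lit 1)]

/-- Test points. -/
def upS15_28 : List (ℕ × ℕ × ℕ × ℕ) := [
  (nat_lit 23534013, nat_lit 4155, nat_lit 2, nat_lit 1),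
  (nat_lit 23538168, nat_lit 4191, nat_lit 2, nat_lit 1),
  (nat_lit 23542359, nat_lit 4236, nat_lit 2, nat_lit 1),
  (nat_lit 23546595, nat_lit 4289, nat_lit 2, nat_lit 1),
  (nat_lit 23550884, nat_lit 4352, nat_lit 2, nat_lit 1),
  (nat_lit 23555236, nat_lit 4431, nat_lit 2, nat_lit 1),
  (nat_lit 23559667, nat_lit 4531, nat_lit 2, nat_lit 1),
  (nat_lit 23564198, nat_lit 4659, nat_lit 2, nat_lit 1),
  (nat_lit 23568857, nat_lit 4833, nat_lit 2, nat_lit 1),
  (nat_lit 23573690, nat_lit 5085, nat_lit 2, nat_lit 1),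
  (nat_lit 23578775, nat_lit 5486, nat_lit 2, nat_lit 1),
  (nat_lit 23584261, nat_lit 6293, nat_lit 2, nat_lit 1),
  (nat_lit 23590554, nat_lit 7957, nat_lit 2, nat_lit 1),
  (nat_lit 23598511, nat_lit 112114, nat_lit 2, nat_lit 0),
  (nat_lit 23710625, nat_lit 112114, nat_lit 3, nat_lit 1),
  (nat_lit 23719413, nat_lit 8788, nat_lit 3, nat_lit 1),
  (nat_lit 23726448, nat_lit 7035, nat_lit 3, nat_lit 1),
  (nat_lit 23733006, nat_lit 6558, nat_lit 3, nat_lit 1),
  (nat_lit 23739508, nat_lit 6823, nat_lit 3, nat_lit 1),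
  (nat_lit 23746331, nat_lit 8090, nat_lit 3, nat_lit 1),
  (nat_lit 23754421, nat_lit 10689, nat_lit 3, nat_lit 1),
  (nat_lit 23765110, nat_lit 113357, nat_lit 3, nat_lit 0),
  (nat_lit 23878467, nat_lit 113357, nat_lit 2, nat_lit 1),
  (nat_lit 23886263, nat_lit 7796, nat_lit 2, nat_lit 1),
  (nat_lit 23892292, nat_lit 6029, nat_lit 2, nat_lit 1),
  (nat_lit 23897696, nat_lit 5404, nat_lit 2, nat_lit 1),
  (nat_lit 23902774, nat_lit 5078, nat_lit 2, nat_lit 1),
  (nat_lit 23907664, nat_lit 4890, nat_lit 2, nat_lit 1),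
  (nat_lit 23912452, nat_lit 4788, nat_lit 2, nat_lit 1)]

/-- Test points. -/
def upS15_29 : List (ℕ × ℕ × ℕ × ℕ) := [
  (nat_lit 23917207, nat_lit 4795, nat_lit 2, nat_lit 1),
  (nat_lit 23922002, nat_lit 4941, nat_lit 2, nat_lit 1),
  (nat_lit 23926943, nat_lit 5305, nat_lit 2, nat_lit 1),
  (nat_lit 23932248, nat_lit 6501, nat_lit 2, nat_lit 1),
  (nat_lit 23938749, nat_lit 25798, nat_lit 2, nat_lit 0),
  (nat_lit 23964547, nat_lit 25798, nat_lit 3093, nat_lit 1),
  (nat_lit 23987719, nat_lit 23172, nat_lit 3, nat_lit 1),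
  (nat_lit 23993802, nat_lit 6083, nat_lit 3, nat_lit 1),
  (nat_lit 23998825, nat_lit 5023, nat_lit 3, nat_lit 1),
  (nat_lit 24003259, nat_lit 4434, nat_lit 3, nat_lit 1),
  (nat_lit 24007423, nat_lit 4164, nat_lit 3, nat_lit 1),
  (nat_lit 24011426, nat_lit 4003, nat_lit 3, nat_lit 1),
  (nat_lit 24015319, nat_lit 3893, nat_lit 3, nat_lit 1),
  (nat_lit 24019134, nat_lit 3815, nat_lit 3, nat_lit 1),
  (nat_lit 24022887, nat_lit 3753, nat_lit 3, nat_lit 1),
  (nat_lit 24026592, nat_lit 3705, nat_lit 3, nat_lit 1),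
  (nat_lit 24030259, nat_lit 3667, nat_lit 3, nat_lit 1),
  (nat_lit 24033893, nat_lit 3634, nat_lit 3, nat_lit 1),
  (nat_lit 24037501, nat_lit 3608, nat_lit 3, nat_lit 1),
  (nat_lit 24041086, nat_lit 3585, nat_lit 3, nat_lit 1),
  (nat_lit 24044652, nat_lit 3566, nat_lit 3, nat_lit 1),
  (nat_lit 24048200, nat_lit 3548, nat_lit 3, nat_lit 1),
  (nat_lit 24051733, nat_lit 3533, nat_lit 3, nat_lit 1),
  (nat_lit 24055253, nat_lit 3520, nat_lit 3, nat_lit 1),
  (nat_lit 24058762, nat_lit 3509, nat_lit 3, nat_lit 1),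
  (nat_lit 24062260, nat_lit 3498, nat_lit 3, nat_lit 1),
  (nat_lit 24065748, nat_lit 3488, nat_lit 3, nat_lit 1),
  (nat_lit 24069228, nat_lit 3480, nat_lit 3, nat_lit 1),
  (nat_lit 24072700, nat_lit 3472, nat_lit 3, nat_lit 1)]

/-- Test points. -/
def upS15_30 : List (ℕ × ℕ × ℕ × ℕ) := [
  (nat_lit 24076166, nat_lit 3466, nat_lit 3, nat_lit 1),
  (nat_lit 24079626, nat_lit 3460, nat_lit 3, nat_lit 1),
  (nat_lit 24083081, nat_lit 3455, nat_lit 3, nat_lit 1),
  (nat_lit 24086530, nat_lit 3449, nat_lit 3, nat_lit 1),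
  (nat_lit 24089975, nat_lit 3445, nat_lit 3, nat_lit 1),
  (nat_lit 24093415, nat_lit 3440, nat_lit 3, nat_lit 1),
  (nat_lit 24096852, nat_lit 3437, nat_lit 3, nat_lit 1),
  (nat_lit 24100287, nat_lit 3435, nat_lit 3, nat_lit 1),
  (nat_lit 24103718, nat_lit 3431, nat_lit 3, nat_lit 1),
  (nat_lit 24107147, nat_lit 3429, nat_lit 3, nat_lit 1),
  (nat_lit 24110573, nat_lit 3426, nat_lit 3, nat_lit 1),
  (nat_lit 24113998, nat_lit 3425, nat_lit 3, nat_lit 1),
  (nat_lit 24117422, nat_lit 3424, nat_lit 3, nat_lit 1),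
  (nat_lit 24120844, nat_lit 3422, nat_lit 3, nat_lit 1),
  (nat_lit 24124266, nat_lit 3422, nat_lit 3, nat_lit 1),
  (nat_lit 24127686, nat_lit 3421, nat_lit 3, nat_lit 1),
  (nat_lit 24131107, nat_lit 3421, nat_lit 3, nat_lit 1),
  (nat_lit 24134527, nat_lit 3420, nat_lit 3, nat_lit 1),
  (nat_lit 24137947, nat_lit 3422, nat_lit 3, nat_lit 1),
  (nat_lit 24141369, nat_lit 3422, nat_lit 3, nat_lit 1),
  (nat_lit 24144791, nat_lit 3424, nat_lit 3, nat_lit 1),
  (nat_lit 24148215, nat_lit 3425, nat_lit 3, nat_lit 1),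
  (nat_lit 24151640, nat_lit 3427, nat_lit 3, nat_lit 1),
  (nat_lit 24155067, nat_lit 3430, nat_lit 3, nat_lit 1),
  (nat_lit 24158497, nat_lit 3433, nat_lit 3, nat_lit 1),
  (nat_lit 24161930, nat_lit 3437, nat_lit 3, nat_lit 1),
  (nat_lit 24165367, nat_lit 3442, nat_lit 3, nat_lit 1),
  (nat_lit 24168809, nat_lit 3448, nat_lit 3, nat_lit 1),
  (nat_lit 24172257, nat_lit 3455, nat_lit 3, nat_lit 1)]

/-- Test points. -/
def upS15_31 : List (ℕ × ℕ × ℕ × ℕ) := [
  (nat_lit 24175712, nat_lit 3467, nat_lit 3, nat_lit 1),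
  (nat_lit 24179179, nat_lit 3481, nat_lit 3, nat_lit 1),
  (nat_lit 24182660, nat_lit 3503, nat_lit 3, nat_lit 1),
  (nat_lit 24186163, nat_lit 3539, nat_lit 3, nat_lit 1),
  (nat_lit 24189702, nat_lit 3608, nat_lit 3, nat_lit 1),
  (nat_lit 24193310, nat_lit 3793, nat_lit 3, nat_lit 1),
  (nat_lit 24197103, nat_lit 4053, nat_lit 3, nat_lit 1),
  (nat_lit 24201156, nat_lit 10504, nat_lit 3, nat_lit 0),
  (nat_lit 24211660, nat_lit 10504, nat_lit 2, nat_lit 1),
  (nat_lit 24215793, nat_lit 4133, nat_lit 2, nat_lit 1),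
  (nat_lit 24219517, nat_lit 3724, nat_lit 2, nat_lit 1),
  (nat_lit 24223131, nat_lit 3614, nat_lit 2, nat_lit 1),
  (nat_lit 24226702, nat_lit 3571, nat_lit 2, nat_lit 1),
  (nat_lit 24230250, nat_lit 3548, nat_lit 2, nat_lit 1),
  (nat_lit 24233788, nat_lit 3538, nat_lit 2, nat_lit 1),
  (nat_lit 24237320, nat_lit 3532, nat_lit 2, nat_lit 1),
  (nat_lit 24240852, nat_lit 3533, nat_lit 2, nat_lit 1),
  (nat_lit 24244385, nat_lit 3536, nat_lit 2, nat_lit 1),
  (nat_lit 24247921, nat_lit 3540, nat_lit 2, nat_lit 1),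
  (nat_lit 24251461, nat_lit 3545, nat_lit 2, nat_lit 1),
  (nat_lit 24255006, nat_lit 3552, nat_lit 2, nat_lit 1),
  (nat_lit 24258558, nat_lit 3558, nat_lit 2, nat_lit 1),
  (nat_lit 24262116, nat_lit 3565, nat_lit 2, nat_lit 1),
  (nat_lit 24265681, nat_lit 3574, nat_lit 2, nat_lit 1),
  (nat_lit 24269255, nat_lit 3582, nat_lit 2, nat_lit 1),
  (nat_lit 24272837, nat_lit 3592, nat_lit 2, nat_lit 1),
  (nat_lit 24276429, nat_lit 3602, nat_lit 2, nat_lit 1),
  (nat_lit 24280031, nat_lit 3612, nat_lit 2, nat_lit 1),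
  (nat_lit 24283643, nat_lit 3623, nat_lit 2, nat_lit 1)]

/-- Test points. -/
def upS15_32 : List (ℕ × ℕ × ℕ × ℕ) := [
  (nat_lit 24287266, nat_lit 3635, nat_lit 2, nat_lit 1),
  (nat_lit 24290901, nat_lit 3646, nat_lit 2, nat_lit 1),
  (nat_lit 24294547, nat_lit 3660, nat_lit 2, nat_lit 1),
  (nat_lit 24298207, nat_lit 3673, nat_lit 2, nat_lit 1),
  (nat_lit 24301880, nat_lit 3688, nat_lit 2, nat_lit 1),
  (nat_lit 24305568, nat_lit 3702, nat_lit 2, nat_lit 1),
  (nat_lit 24309270, nat_lit 3718, nat_lit 2, nat_lit 1),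
  (nat_lit 24312988, nat_lit 3735, nat_lit 2, nat_lit 1),
  (nat_lit 24316723, nat_lit 3752, nat_lit 2, nat_lit 1),
  (nat_lit 24320475, nat_lit 3771, nat_lit 2, nat_lit 1),
  (nat_lit 24324246, nat_lit 3790, nat_lit 2, nat_lit 1),
  (nat_lit 24328036, nat_lit 3811, nat_lit 2, nat_lit 1),
  (nat_lit 24331847, nat_lit 3832, nat_lit 2, nat_lit 1),
  (nat_lit 24335679, nat_lit 3854, nat_lit 2, nat_lit 1),
  (nat_lit 24339533, nat_lit 3879, nat_lit 2, nat_lit 1),
  (nat_lit 24343412, nat_lit 3905, nat_lit 2, nat_lit 1),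
  (nat_lit 24347317, nat_lit 3931, nat_lit 2, nat_lit 1),
  (nat_lit 24351248, nat_lit 3961, nat_lit 2, nat_lit 1),
  (nat_lit 24355209, nat_lit 3991, nat_lit 2, nat_lit 1),
  (nat_lit 24359200, nat_lit 4024, nat_lit 2, nat_lit 1),
  (nat_lit 24363224, nat_lit 4059, nat_lit 2, nat_lit 1),
  (nat_lit 24367283, nat_lit 4096, nat_lit 2, nat_lit 1),
  (nat_lit 24371379, nat_lit 4136, nat_lit 2, nat_lit 1),
  (nat_lit 24375515, nat_lit 4179, nat_lit 2, nat_lit 1),
  (nat_lit 24379694, nat_lit 4226, nat_lit 2, nat_lit 1),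
  (nat_lit 24383920, nat_lit 4276, nat_lit 2, nat_lit 1),
  (nat_lit 24388196, nat_lit 4331, nat_lit 2, nat_lit 1),
  (nat_lit 24392527, nat_lit 4390, nat_lit 2, nat_lit 1),
  (nat_lit 24396917, nat_lit 4455, nat_lit 2, nat_lit 1)]

/-- Test points. -/
def upS15_33 : List (ℕ × ℕ × ℕ × ℕ) := [
  (nat_lit 24401372, nat_lit 4527, nat_lit 2, nat_lit 1),
  (nat_lit 24405899, nat_lit 4607, nat_lit 2, nat_lit 1),
  (nat_lit 24410506, nat_lit 4696, nat_lit 2, nat_lit 1),
  (nat_lit 24415202, nat_lit 4795, nat_lit 2, nat_lit 1),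
  (nat_lit 24419997, nat_lit 4908, nat_lit 2, nat_lit 1),
  (nat_lit 24424905, nat_lit 5037, nat_lit 2, nat_lit 1),
  (nat_lit 24429942, nat_lit 5189, nat_lit 2, nat_lit 1),
  (nat_lit 24435131, nat_lit 5366, nat_lit 2, nat_lit 1),
  (nat_lit 24440497, nat_lit 5580, nat_lit 2, nat_lit 1),
  (nat_lit 24446077, nat_lit 5846, nat_lit 2, nat_lit 1),
  (nat_lit 24451923, nat_lit 6188, nat_lit 2, nat_lit 1),
  (nat_lit 24458111, nat_lit 6651, nat_lit 2, nat_lit 1),
  (nat_lit 24464762, nat_lit 7334, nat_lit 2, nat_lit 1),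
  (nat_lit 24472096, nat_lit 8515, nat_lit 2, nat_lit 1),
  (nat_lit 24480611, nat_lit 11590, nat_lit 2, nat_lit 1),
  (nat_lit 24492201, nat_lit 507799, nat_lit 2, nat_lit 0)]

end Up

end IntCheb
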