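import Pool.Agent.Lib.MP_6205a3_nt.B66.UpData

/-!
# MP_6205a3_nt : data of level 16 of the upper bound certificate
-/

open Finset Polynomial

set_option autoImplicit false
set_option maxRecDepth 100000

namespace IntCheb

namespace Up

open Cert

/-- Zeros (times `upD`). -/
def upY16 : List ℕ := [
  nat_lit 9885161, nat_lit 9933291, nat_lit 9972238, nat_lit 10006522, nat_lit 10037814,
  nat_lit 10066960, nat_lit 10094461, nat_lit 10120644, nat_lit 10145738, nat_lit 10169910,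
  nat_lit 10193289, nat_lit 10215973, nat_lit 10238042, nat_lit 10259562, nat_lit 10280586,
  nat_lit 10301161, nat_lit 10321325, nat_lit 10341111, nat_lit 10360548, nat_lit 10379661,
  nat_lit 10398474, nat_lit 10417005, nat_lit 10435272, nat_lit 10453291, nat_lit 10471077,
  nat_lit 10488642, nat_lit 10505999, nat_lit 10523157, nat_lit 10540127, nat_lit 10556918,
  nat_lit 10573538, nat_lit 10589995, nat_lit 10606295, nat_lit 10622447, nat_lit 10638455,
  nat_lit 10654326, nat_lit 10670065, nat_lit 10685677, nat_lit 10701167, nat_lit 10716539,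
  nat_lit 10731797, nat_lit 10746946, nat_lit 10761990, nat_lit 10776931, nat_lit 10791774,
  nat_lit 10806521, nat_lit 10821175, nat_lit 10835740, nat_lit 10850218, nat_lit 10864612,
  nat_lit 10878925, nat_lit 10893158, nat_lit 10907315, nat_lit 10921397, nat_lit 10935407,
  nat_lit 10949346, nat_lit 10963218, nat_lit 10977023, nat_lit 10990764, nat_lit 11004442,
  nat_lit 11018060, nat_lit 11031619, nat_lit 11045121, nat_lit 11058567, nat_lit 11071959,
  nat_lit 11085298, nat_lit 11098587, nat_lit 11111827, nat_lit 11125019, nat_lit 11138165,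
  nat_lit 11151266, nat_lit 11164324, nat_lit 11177341, nat_lit 11190317, nat_lit 11203255,
  nat_lit 11216155, nat_lit 11229021, nat_lit 11241852, nat_lit 11254651, nat_lit 11267420,
  nat_lit 11280160, nat_lit 11292874, nat_lit 11305562, nat_lit 11318227, nat_lit 11330872,
  nat_lit 11343498, nat_lit 11356109, nat_lit 11368706, nat_lit 11381294, nat_lit 11393876,
  nat_lit 11406455, nat_lit 11419036, nat_lit 11431626, nat_lit 11444230, nat_lit 11456857,
  nat_lit 11469518, nat_lit 11482227, nat_lit 11495007, nat_lit 11507891, nat_lit 11520935,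
  nat_lit 11534258, nat_lit 11548168, nat_lit 11564660, nat_lit 11593262, nat_lit 11627909,
  nat_lit 11643413, nat_lit 11658292, nat_lit 11673212, nat_lit 11688508, nat_lit 11704527,
  nat_lit 11721862, nat_lit 11742075, nat_lit 12061324, nat_lit 12099953, nat_lit 12117986,
  nat_lit 12133563, nat_lit 12147925, nat_lit 12161532, nat_lit 12174614, nat_lit 12187306,
  nat_lit 12199696, nat_lit 12211845, nat_lit 12223797, nat_lit 12235585, nat_lit 12247236,
  nat_lit 12258771, nat_lit 12270206, nat_lit 12281557, nat_lit 12292837, nat_lit 12304057,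
  nat_lit 12315228, nat_lit 12326361, nat_lit 12337465, nat_lit 12348550, nat_lit 12359629,
  nat_lit 12370713, nat_lit 12381817, nat_lit 12392958, nat_lit 12404159, nat_lit 12415449,
  nat_lit 12426868, nat_lit 12438476, nat_lit 12450368, nat_lit 12462710, nat_lit 12475849,
  nat_lit 12490772, nat_lit 12570014, nat_lit 12645048, nat_lit 12659695, nat_lit 12672366,
  nat_lit 12684182, nat_lit 12695498, nat_lit 12706482, nat_lit 12717229, nat_lit 12727798,
  nat_lit 12738226, nat_lit 12748541, nat_lit 12758762, nat_lit 12768905, nat_lit 12778981,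
  nat_lit 12788998, nat_lit 12798965, nat_lit 12808886, nat_lit 12818767, nat_lit 12828611,
  nat_lit 12838423, nat_lit 12848204, nat_lit 12857957, nat_lit 12867686, nat_lit 12877390,
  nat_lit 12887073, nat_lit 12896735, nat_lit 12906378, nat_lit 12916003, nat_lit 12925611,
  nat_lit 12935204, nat_lit 12944781, nat_lit 12954344, nat_lit 12963894, nat_lit 12973431,
  nat_lit 12982956, nat_lit 12992470, nat_lit 13001973, nat_lit 13011466, nat_lit 13020950,
  nat_lit 13030424, nat_lit 13039889, nat_lit 13049347, nat_lit 13058797, nat_lit 13068239,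
  nat_lit 13077675, nat_lit 13087105, nat_lit 13096529, nat_lit 13105948, nat_lit 13115362,
  nat_lit 13124771, nat_lit 13134176, nat_lit 13143578, nat_lit 13152977, nat_lit 13162374,
  nat_lit 13171768, nat_lit 13181161, nat_lit 13190553, nat_lit 13199945, nat_lit 13209337,
  nat_lit 13218729, nat_lit 13228123, nat_lit 13237519, nat_lit 13246918, nat_lit 13256320,
  nat_lit 13265727, nat_lit 13275139, nat_lit 13284556, nat_lit 13293981, nat_lit 13303413,
  nat_lit 13312854, nat_lit 13322306, nat_lit 13331769, nat_lit 13341245, nat_lit 13350735,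
  nat_lit 13360241, nat_lit 13369765, nat_lit 13379308, nat_lit 13388874, nat_lit 13398464,
  nat_lit 13408081, nat_lit 13417728, nat_lit 13427409, nat_lit 13437128, nat_lit 13446889,
  nat_lit 13456697, nat_lit 13466559, nat_lit 13476482, nat_lit 13486473, nat_lit 13496543,
  nat_lit 13506705, nat_lit 13516972, nat_lit 13527364, nat_lit 13537904, nat_lit 13548623,
  nat_lit 13559562, nat_lit 13570778, nat_lit 13582355, nat_lit 13594425, nat_lit 13607213,
  nat_lit 13621179, nat_lit 13637591, nat_lit 13707292, nat_lit 13956405, nat_lit 13973120,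
  nat_lit 13987336, nat_lit 14000356, nat_lit 14012651, nat_lit 14024454, nat_lit 14035900,
  nat_lit 14047075, nat_lit 14058038, nat_lit 14068833, nat_lit 14079491, nat_lit 14090038,
  nat_lit 14100493, nat_lit 14110873, nat_lit 14121189, nat_lit 14131455, nat_lit 14141679,
  nat_lit 14151870, nat_lit 14162035, nat_lit 14172181, nat_lit 14182314, nat_lit 14192439,
  nat_lit 14202563, nat_lit 14212689, nat_lit 14222823, nat_lit 14232970, nat_lit 14243133,
  nat_lit 14253318, nat_lit 14263529, nat_lit 14273771, nat_lit 14284048, nat_lit 14294367,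
  nat_lit 14304732, nat_lit 14315149, nat_lit 14325624, nat_lit 14336164, nat_lit 14346777,
  nat_lit 14357469, nat_lit 14368251, nat_lit 14379133, nat_lit 14390125, nat_lit 14401241,
  nat_lit 14412497, nat_lit 14423910, nat_lit 14435502, nat_lit 14447298, nat_lit 14459330,
  nat_lit 14471637, nat_lit 14484270, nat_lit 14497297, nat_lit 14510808, nat_lit 14524938,
  nat_lit 14539889, nat_lit 14556009, nat_lit 14573990, nat_lit 14595719, nat_lit 14745264,
  nat_lit 15601726, nat_lit 15622046, nat_lit 15638794, nat_lit 15653761, nat_lit 15667604,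
  nat_lit 15680652, nat_lit 15693100, nat_lit 15705075, nat_lit 15716663, nat_lit 15727930,
  nat_lit 15738923, nat_lit 15749680, nat_lit 15760232, nat_lit 15770603, nat_lit 15780814,
  nat_lit 15790882, nat_lit 15800822, nat_lit 15810647, nat_lit 15820370, nat_lit 15829999,
  nat_lit 15839545, nat_lit 15849017, nat_lit 15858424, nat_lit 15867774, nat_lit 15877077,
  nat_lit 15886343, nat_lit 15895585, nat_lit 15904819, nat_lit 15914072, nat_lit 15923389,
  nat_lit 15932870, nat_lit 15942838, nat_lit 15982078, nat_lit 15992421, nat_lit 16002277,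
  nat_lit 16012145, nat_lit 16022262, nat_lit 16032943, nat_lit 16044990, nat_lit 16162175,
  nat_lit 16174964, nat_lit 16185257, nat_lit 16194755, nat_lit 16203820, nat_lit 16212605,
  nat_lit 16221192, nat_lit 16229631, nat_lit 16237955, nat_lit 16246186, nat_lit 16254341,
  nat_lit 16262431, nat_lit 16270467, nat_lit 16278455, nat_lit 16286402, nat_lit 16294312,
  nat_lit 16302189, nat_lit 16310036, nat_lit 16317856, nat_lit 16325652, nat_lit 16333426,
  nat_lit 16341179, nat_lit 16348914, nat_lit 16356631, nat_lit 16364332, nat_lit 16372018,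
  nat_lit 16379690, nat_lit 16387349, nat_lit 16394997, nat_lit 16402634, nat_lit 16410260,
  nat_lit 16417878, nat_lit 16425487, nat_lit 16433088, nat_lit 16440683, nat_lit 16448271,
  nat_lit 16455855, nat_lit 16463434, nat_lit 16471011, nat_lit 16478585, nat_lit 16486158,
  nat_lit 16493731, nat_lit 16501306, nat_lit 16508884, nat_lit 16516468, nat_lit 16524059,
  nat_lit 16531660, nat_lit 16539274, nat_lit 16546907, nat_lit 16554562, nat_lit 16562247,
  nat_lit 16569972, nat_lit 16577749, nat_lit 16585598, nat_lit 16593549, nat_lit 16601649,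
  nat_lit 16609986, nat_lit 16618750, nat_lit 16628495, nat_lit 16657508, nat_lit 16703278,
  nat_lit 16713040, nat_lit 16721817, nat_lit 16730168, nat_lit 16738282, nat_lit 16746250,
  nat_lit 16754119, nat_lit 16761920, nat_lit 16769673, nat_lit 16777392, nat_lit 16785086,
  nat_lit 16792765, nat_lit 16800433, nat_lit 16808097, nat_lit 16815762, nat_lit 16823430,
  nat_lit 16831107, nat_lit 16838797, nat_lit 16846502, nat_lit 16854228, nat_lit 16861978,
  nat_lit 16869757, nat_lit 16877570, nat_lit 16885423, nat_lit 16893324, nat_lit 16901279,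
  nat_lit 16909298, nat_lit 16917393, nat_lit 16925578, nat_lit 16933871, nat_lit 16942296,
  nat_lit 16950885, nat_lit 16959680, nat_lit 16968748, nat_lit 16978187, nat_lit 16988173,
  nat_lit 16999058, nat_lit 17011823, nat_lit 17071314, nat_lit 17243998, nat_lit 17256719,
  nat_lit 17267546, nat_lit 17277464, nat_lit 17286829, nat_lit 17295816, nat_lit 17304526,
  nat_lit 17313024, nat_lit 17321353, nat_lit 17329546, nat_lit 17337626, nat_lit 17345611,
  nat_lit 17353515, nat_lit 17361350, nat_lit 17369124, nat_lit 17376846, nat_lit 17384521,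
  nat_lit 17392155, nat_lit 17399753, nat_lit 17407319, nat_lit 17414857, nat_lit 17422368,
  nat_lit 17429856, nat_lit 17437324, nat_lit 17444773, nat_lit 17452206, nat_lit 17459624,
  nat_lit 17467029, nat_lit 17474422, nat_lit 17481805, nat_lit 17489178, nat_lit 17496544,
  nat_lit 17503903, nat_lit 17511257, nat_lit 17518606, nat_lit 17525951, nat_lit 17533293,
  nat_lit 17540634, nat_lit 17547973, nat_lit 17555313, nat_lit 17562653, nat_lit 17569995,
  nat_lit 17577340, nat_lit 17584688, nat_lit 17592041, nat_lit 17599399, nat_lit 17606764,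
  nat_lit 17614135, nat_lit 17621516, nat_lit 17628905, nat_lit 17636306, nat_lit 17643718,
  nat_lit 17651144, nat_lit 17658585, nat_lit 17666042, nat_lit 17673517, nat_lit 17681012,
  nat_lit 17688529, nat_lit 17696070, nat_lit 17703638, nat_lit 17711236, nat_lit 17718868,
  nat_lit 17726535, nat_lit 17734244, nat_lit 17741999, nat_lit 17749806, nat_lit 17757671,
  nat_lit 17765603, nat_lit 17773612, nat_lit 17781709, nat_lit 17789909, nat_lit 17798232,
  nat_lit 17806703, nat_lit 17815354, nat_lit 17824233, nat_lit 17833406, nat_lit 17842981,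
  nat_lit 17853140, nat_lit 17864254, nat_lit 17877352, nat_lit 18104858, nat_lit 18135422,
  nat_lit 18148608, nat_lit 18160061, nat_lit 18170751, nat_lit 18181125, nat_lit 18191709,
  nat_lit 18221490, nat_lit 18237112, nat_lit 18246619, nat_lit 18255524, nat_lit 18264170,
  nat_lit 18272667, nat_lit 18281065, nat_lit 18289394, nat_lit 18297670, nat_lit 18305907,
  nat_lit 18314114, nat_lit 18322297, nat_lit 18330462, nat_lit 18338614, nat_lit 18346757,
  nat_lit 18354895, nat_lit 18363029, nat_lit 18371164, nat_lit 18379302, nat_lit 18387444,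
  nat_lit 18395593, nat_lit 18403752, nat_lit 18411922, nat_lit 18420105, nat_lit 18428302,
  nat_lit 18436517, nat_lit 18444749, nat_lit 18453002, nat_lit 18461277, nat_lit 18469575,
  nat_lit 18477899, nat_lit 18486251, nat_lit 18494631, nat_lit 18503043, nat_lit 18511487,
  nat_lit 18519967, nat_lit 18528484, nat_lit 18537041, nat_lit 18545639, nat_lit 18554282,
  nat_lit 18562972, nat_lit 18571711, nat_lit 18580503, nat_lit 18589351, nat_lit 18598258,
  nat_lit 18607228, nat_lit 18616265, nat_lit 18625373, nat_lit 18634557, nat_lit 18643821,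
  nat_lit 18653172, nat_lit 18662615, nat_lit 18672158, nat_lit 18681808, nat_lit 18691574,
  nat_lit 18701464, nat_lit 18711491, nat_lit 18721666, nat_lit 18732004, nat_lit 18742522,
  nat_lit 18753239, nat_lit 18764179, nat_lit 18775371, nat_lit 18786848, nat_lit 18798655,
  nat_lit 18810848, nat_lit 18823499, nat_lit 18836710, nat_lit 18850626, nat_lit 18865467,
  nat_lit 18881610, nat_lit 18899801, nat_lit 18922062, nat_lit 20791261, nat_lit 20988602,
  nat_lit 21007046, nat_lit 21022076, nat_lit 21035383, nat_lit 21047590, nat_lit 21059012,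
  nat_lit 21069834, nat_lit 21080179, nat_lit 21090131, nat_lit 21099752, nat_lit 21109088,
  nat_lit 21118177, nat_lit 21127047, nat_lit 21135724, nat_lit 21144226, nat_lit 21152571,
  nat_lit 21160773, nat_lit 21168844, nat_lit 21176795, nat_lit 21184635, nat_lit 21192372,
  nat_lit 21200015, nat_lit 21207569, nat_lit 21215041, nat_lit 21222436, nat_lit 21229760,
  nat_lit 21237016, nat_lit 21244210, nat_lit 21251346, nat_lit 21258427, nat_lit 21265458,
  nat_lit 21272442, nat_lit 21279382, nat_lit 21286283, nat_lit 21293148, nat_lit 21299981,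
  nat_lit 21306787, nat_lit 21313568, nat_lit 21320332, nat_lit 21327082, nat_lit 21333826,
  nat_lit 21340571, nat_lit 21347328, nat_lit 21354108, nat_lit 21360930, nat_lit 21367816,
  nat_lit 21374801, nat_lit 21381941, nat_lit 21389334, nat_lit 21397182, nat_lit 21406068,
  nat_lit 21476656, nat_lit 21498170, nat_lit 21506437, nat_lit 21513702, nat_lit 21520498,
  nat_lit 21527013, nat_lit 21533339, nat_lit 21539525, nat_lit 21545605, nat_lit 21551600,
  nat_lit 21557526, nat_lit 21563393, nat_lit 21569211, nat_lit 21574984, nat_lit 21580720,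
  nat_lit 21586421, nat_lit 21592091, nat_lit 21597734, nat_lit 21603351, nat_lit 21608944,
  nat_lit 21614516, nat_lit 21620068, nat_lit 21625602, nat_lit 21631118, nat_lit 21636617,
  nat_lit 21642102, nat_lit 21647571, nat_lit 21653028, nat_lit 21658471, nat_lit 21663903,
  nat_lit 21669323, nat_lit 21674732, nat_lit 21680131, nat_lit 21685521, nat_lit 21690902,
  nat_lit 21696275, nat_lit 21701640, nat_lit 21706998, nat_lit 21712350, nat_lit 21717695,
  nat_lit 21723035, nat_lit 21728371, nat_lit 21733702, nat_lit 21739030, nat_lit 21744354,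
  nat_lit 21749677, nat_lit 21754998, nat_lit 21760319, nat_lit 21765639, nat_lit 21770961,
  nat_lit 21776284, nat_lit 21781611, nat_lit 21786941, nat_lit 21792277, nat_lit 21797619,
  nat_lit 21802969, nat_lit 21808329, nat_lit 21813701, nat_lit 21819086, nat_lit 21824488,
  nat_lit 21829908, nat_lit 21835350, nat_lit 21840818, nat_lit 21846316, nat_lit 21851849,
  nat_lit 21857424, nat_lit 21863048, nat_lit 21868731, nat_lit 21874486, nat_lit 21880328,
  nat_lit 21886280, nat_lit 21892371, nat_lit 21898646, nat_lit 21905174, nat_lit 21912076,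
  nat_lit 21919596, nat_lit 21928412, nat_lit 22082857, nat_lit 22091919, nat_lit 22099338,
  nat_lit 22106090, nat_lit 22112449, nat_lit 22118543, nat_lit 22124445, nat_lit 22130199,
  nat_lit 22135837, nat_lit 22141382, nat_lit 22146848, nat_lit 22152250, nat_lit 22157596,
  nat_lit 22162895, nat_lit 22168153, nat_lit 22173376, nat_lit 22178568, nat_lit 22183733,
  nat_lit 22188875, nat_lit 22193996, nat_lit 22199099, nat_lit 22204188, nat_lit 22209263,
  nat_lit 22214329, nat_lit 22219386, nat_lit 22224438, nat_lit 22229488, nat_lit 22234539,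
  nat_lit 22239597, nat_lit 22244668, nat_lit 22249765, nat_lit 22254909, nat_lit 22260148,
  nat_lit 22265632, nat_lit 22272939, nat_lit 22291809, nat_lit 22297388, nat_lit 22302665,
  nat_lit 22307832, nat_lit 22312945, nat_lit 22318030, nat_lit 22323100, nat_lit 22328163,
  nat_lit 22333225, nat_lit 22338287, nat_lit 22343355, nat_lit 22348429, nat_lit 22353511,
  nat_lit 22358604, nat_lit 22363709, nat_lit 22368828, nat_lit 22373963, nat_lit 22379114,
  nat_lit 22384284, nat_lit 22389475, nat_lit 22394688, nat_lit 22399925, nat_lit 22405189,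
  nat_lit 22410482, nat_lit 22415806, nat_lit 22421164, nat_lit 22426560, nat_lit 22431997,
  nat_lit 22437479, nat_lit 22443010, nat_lit 22448595, nat_lit 22454240, nat_lit 22459952,
  nat_lit 22465738, nat_lit 22471607, nat_lit 22477570, nat_lit 22483641, nat_lit 22489835,
  nat_lit 22496174, nat_lit 22502682, nat_lit 22509396, nat_lit 22516362, nat_lit 22523649,
  nat_lit 22531364, nat_lit 22539686, nat_lit 22548974, nat_lit 22560210, nat_lit 22872839,
  nat_lit 23068609, nat_lit 23078696, nat_lit 23087000, nat_lit 23094414, nat_lit 23101264,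
  nat_lit 23107715, nat_lit 23113864, nat_lit 23119774, nat_lit 23125487, nat_lit 23131036,
  nat_lit 23136446, nat_lit 23141734, nat_lit 23146915, nat_lit 23152002, nat_lit 23157004,
  nat_lit 23161930, nat_lit 23166787, nat_lit 23171582, nat_lit 23176318, nat_lit 23181001,
  nat_lit 23185635, nat_lit 23190223, nat_lit 23194769, nat_lit 23199274, nat_lit 23203743,
  nat_lit 23208176, nat_lit 23212577, nat_lit 23216947, nat_lit 23221287, nat_lit 23225599,
  nat_lit 23229885, nat_lit 23234145, nat_lit 23238382, nat_lit 23242596, nat_lit 23246788,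
  nat_lit 23250960, nat_lit 23255112, nat_lit 23259244, nat_lit 23263359, nat_lit 23267456,
  nat_lit 23271536, nat_lit 23275600, nat_lit 23279648, nat_lit 23283682, nat_lit 23287701,
  nat_lit 23291707, nat_lit 23295699, nat_lit 23299678, nat_lit 23303644, nat_lit 23307599,
  nat_lit 23311542, nat_lit 23315474, nat_lit 23319395, nat_lit 23323305, nat_lit 23327206,
  nat_lit 23331096, nat_lit 23334977, nat_lit 23338849, nat_lit 23342713, nat_lit 23346567,
  nat_lit 23350414, nat_lit 23354252, nat_lit 23358082, nat_lit 23361906, nat_lit 23365721,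
  nat_lit 23369530, nat_lit 23373333, nat_lit 23377128, nat_lit 23380918, nat_lit 23384702,
  nat_lit 23388480, nat_lit 23392252, nat_lit 23396019, nat_lit 23399781, nat_lit 23403538,
  nat_lit 23407291, nat_lit 23411040, nat_lit 23414784, nat_lit 23418525, nat_lit 23422262,
  nat_lit 23425996, nat_lit 23429726, nat_lit 23433454, nat_lit 23437180, nat_lit 23440903,
  nat_lit 23444625, nat_lit 23448345, nat_lit 23452063, nat_lit 23455781, nat_lit 23459498,
  nat_lit 23463215, nat_lit 23466933, nat_lit 23470651, nat_lit 23474370, nat_lit 23478091,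
  nat_lit 23481815, nat_lit 23485541, nat_lit 23489270, nat_lit 23493004, nat_lit 23496743,
  nat_lit 23500487, nat_lit 23504238, nat_lit 23507998, nat_lit 23511766, nat_lit 23515544,
  nat_lit 23519334, nat_lit 23523138, nat_lit 23526957, nat_lit 23530794, nat_lit 23534651,
  nat_lit 23538532, nat_lit 23542441, nat_lit 23546381, nat_lit 23550359, nat_lit 23554382,
  nat_lit 23558458, nat_lit 23562600, nat_lit 23566822, nat_lit 23571148, nat_lit 23575608,
  nat_lit 23580254, nat_lit 23585173, nat_lit 23590545, nat_lit 23596890, nat_lit 23711148,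
  nat_lit 23718019, nat_lit 23724000, nat_lit 23729626, nat_lit 23735112, nat_lit 23740600,
  nat_lit 23746234, nat_lit 23752231, nat_lit 23759130, nat_lit 23849515, nat_lit 23880648,
  nat_lit 23886826, nat_lit 23892096, nat_lit 23896941, nat_lit 23901539, nat_lit 23905982,
  nat_lit 23910329, nat_lit 23914624, nat_lit 23918909, nat_lit 23923232, nat_lit 23927659,
  nat_lit 23932319, nat_lit 23937557, nat_lit 23969452, nat_lit 23990271, nat_lit 23995099,
  nat_lit 23999323, nat_lit 24003266, nat_lit 24007043, nat_lit 24010710, nat_lit 24014297,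
  nat_lit 24017823, nat_lit 24021302, nat_lit 24024742, nat_lit 24028151, nat_lit 24031534,
  nat_lit 24034894, nat_lit 24038234, nat_lit 24041558, nat_lit 24044866, nat_lit 24048161,
  nat_lit 24051445, nat_lit 24054718, nat_lit 24057981, nat_lit 24061236, nat_lit 24064482,
  nat_lit 24067722, nat_lit 24070955, nat_lit 24074182, nat_lit 24077403, nat_lit 24080619,
  nat_lit 24083830, nat_lit 24087037, nat_lit 24090241, nat_lit 24093440, nat_lit 24096636,
  nat_lit 24099829, nat_lit 24103019, nat_lit 24106206, nat_lit 24109391, nat_lit 24112574,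
  nat_lit 24115755, nat_lit 24118934, nat_lit 24122111, nat_lit 24125287, nat_lit 24128462,
  nat_lit 24131636, nat_lit 24134810, nat_lit 24137982, nat_lit 24141155, nat_lit 24144327,
  nat_lit 24147499, nat_lit 24150672, nat_lit 24153845, nat_lit 24157019, nat_lit 24160194,
  nat_lit 24163371, nat_lit 24166550, nat_lit 24169733, nat_lit 24172918, nat_lit 24176109,
  nat_lit 24179306, nat_lit 24182513, nat_lit 24185732, nat_lit 24188972, nat_lit 24192247,
  nat_lit 24195591, nat_lit 24199118, nat_lit 24212445, nat_lit 24216290, nat_lit 24219700,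
  nat_lit 24223015, nat_lit 24226288, nat_lit 24229541, nat_lit 24232782, nat_lit 24236018,
  nat_lit 24239249, nat_lit 24242480, nat_lit 24245711, nat_lit 24248942, nat_lit 24252176,
  nat_lit 24255412, nat_lit 24258651, nat_lit 24261894, nat_lit 24265141, nat_lit 24268391,
  nat_lit 24271647, nat_lit 24274907, nat_lit 24278173, nat_lit 24281444, nat_lit 24284721,
  nat_lit 24288004, nat_lit 24291294, nat_lit 24294590, nat_lit 24297894, nat_lit 24301205,
  nat_lit 24304525, nat_lit 24307852, nat_lit 24311188, nat_lit 24314533, nat_lit 24317887,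
  nat_lit 24321252, nat_lit 24324626, nat_lit 24328011, nat_lit 24331408, nat_lit 24334816,
  nat_lit 24338237, nat_lit 24341671, nat_lit 24345118, nat_lit 24348579, nat_lit 24352055,
  nat_lit 24355547, nat_lit 24359055, nat_lit 24362580, nat_lit 24366123, nat_lit 24369685,
  nat_lit 24373268, nat_lit 24376871, nat_lit 24380497, nat_lit 24384147, nat_lit 24387821,
  nat_lit 24391522, nat_lit 24395251, nat_lit 24399011, nat_lit 24402802, nat_lit 24406627,
  nat_lit 24410489, nat_lit 24414390, nat_lit 24418333, nat_lit 24422322, nat_lit 24426361,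
  nat_lit 24430453, nat_lit 24434604, nat_lit 24438820, nat_lit 24443107, nat_lit 24447472,
  nat_lit 24451927, nat_lit 24456481, nat_lit 24461149, nat_lit 24465948, nat_lit 24470901,
  nat_lit 24476037, nat_lit 24481396, nat_lit 24487038, nat_lit 24493050, nat_lit 24499584,
  nat_lit 24506941, nat_lit 24515935]

/-- Numerator of the bound. -/
def upC16 : ℕ := Nat.mul (nat_lit 2103804163674223005) (Nat.pow (nat_lit 2) (nat_lit 220729))

/-- Test points. -/
def upS16_0 : List (ℕ × ℕ × ℕ × ℕ) := [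
  (nat_lit 9852252, nat_lit 9852252, nat_lit 2, nat_lit 1),
  (nat_lit 9910938, nat_lit 58686, nat_lit 2, nat_lit 1),
  (nat_lit 9953514, nat_lit 42576, nat_lit 2, nat_lit 1),
  (nat_lit 9989829, nat_lit 36315, nat_lit 2, nat_lit 1),
  (nat_lit 10022478, nat_lit 32649, nat_lit 2, nat_lit 1),
  (nat_lit 10052619, nat_lit 30141, nat_lit 2, nat_lit 1),
  (nat_lit 10080893, nat_lit 28274, nat_lit 2, nat_lit 1),
  (nat_lit 10107701, nat_lit 26808, nat_lit 2, nat_lit 1),
  (nat_lit 10133315, nat_lit 25614, nat_lit 2, nat_lit 1),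
  (nat_lit 10157930, nat_lit 24615, nat_lit 2, nat_lit 1),
  (nat_lit 10181692, nat_lit 23762, nat_lit 2, nat_lit 1),
  (nat_lit 10204712, nat_lit 23020, nat_lit 2, nat_lit 1),
  (nat_lit 10227080, nat_lit 22368, nat_lit 2, nat_lit 1),
  (nat_lit 10248867, nat_lit 21787, nat_lit 2, nat_lit 1),
  (nat_lit 10270133, nat_lit 21266, nat_lit 2, nat_lit 1),
  (nat_lit 10290927, nat_lit 20794, nat_lit 2, nat_lit 1),
  (nat_lit 10311292, nat_lit 20365, nat_lit 2, nat_lit 1),
  (nat_lit 10331263, nat_lit 19971, nat_lit 2, nat_lit 1),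
  (nat_lit 10350871, nat_lit 19608, nat_lit 2, nat_lit 1),
  (nat_lit 10370144, nat_lit 19273, nat_lit 2, nat_lit 1),
  (nat_lit 10389104, nat_lit 18960, nat_lit 2, nat_lit 1),
  (nat_lit 10407773, nat_lit 18669, nat_lit 2, nat_lit 1),
  (nat_lit 10426170, nat_lit 18397, nat_lit 2, nat_lit 1),
  (nat_lit 10444312, nat_lit 18142, nat_lit 2, nat_lit 1),
  (nat_lit 10462212, nat_lit 17900, nat_lit 2, nat_lit 1)]

/-- Test points. -/
def upS16_1 : List (ℕ × ℕ × ℕ × ℕ) := [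
  (nat_lit 10479886, nat_lit 17674, nat_lit 2, nat_lit 1),
  (nat_lit 10497346, nat_lit 17460, nat_lit 2, nat_lit 1),
  (nat_lit 10514602, nat_lit 17256, nat_lit 2, nat_lit 1),
  (nat_lit 10531665, nat_lit 17063, nat_lit 2, nat_lit 1),
  (nat_lit 10548544, nat_lit 16879, nat_lit 2, nat_lit 1),
  (nat_lit 10565249, nat_lit 16705, nat_lit 2, nat_lit 1),
  (nat_lit 10581786, nat_lit 16537, nat_lit 2, nat_lit 1),
  (nat_lit 10598164, nat_lit 16378, nat_lit 2, nat_lit 1),
  (nat_lit 10614389, nat_lit 16225, nat_lit 2, nat_lit 1),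
  (nat_lit 10630469, nat_lit 16080, nat_lit 2, nat_lit 1),
  (nat_lit 10646407, nat_lit 15938, nat_lit 2, nat_lit 1),
  (nat_lit 10662212, nat_lit 15805, nat_lit 2, nat_lit 1),
  (nat_lit 10677887, nat_lit 15675, nat_lit 2, nat_lit 1),
  (nat_lit 10693437, nat_lit 15550, nat_lit 2, nat_lit 1),
  (nat_lit 10708867, nat_lit 15430, nat_lit 2, nat_lit 1),
  (nat_lit 10724182, nat_lit 15315, nat_lit 2, nat_lit 1),
  (nat_lit 10739385, nat_lit 15203, nat_lit 2, nat_lit 1),
  (nat_lit 10754481, nat_lit 15096, nat_lit 2, nat_lit 1),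
  (nat_lit 10769473, nat_lit 14992, nat_lit 2, nat_lit 1),
  (nat_lit 10784365, nat_lit 14892, nat_lit 2, nat_lit 1),
  (nat_lit 10799159, nat_lit 14794, nat_lit 2, nat_lit 1),
  (nat_lit 10813859, nat_lit 14700, nat_lit 2, nat_lit 1),
  (nat_lit 10828469, nat_lit 14610, nat_lit 2, nat_lit 1),
  (nat_lit 10842990, nat_lit 14521, nat_lit 2, nat_lit 1),
  (nat_lit 10857425, nat_lit 14435, nat_lit 2, nat_lit 1)]

/-- Test points. -/
def upS16_2 : List (ℕ × ℕ × ℕ × ℕ) := [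
  (nat_lit 10871779, nat_lit 14354, nat_lit 2, nat_lit 1),
  (nat_lit 10886051, nat_lit 14272, nat_lit 2, nat_lit 1),
  (nat_lit 10900246, nat_lit 14195, nat_lit 2, nat_lit 1),
  (nat_lit 10914365, nat_lit 14119, nat_lit 2, nat_lit 1),
  (nat_lit 10928411, nat_lit 14046, nat_lit 2, nat_lit 1),
  (nat_lit 10942385, nat_lit 13974, nat_lit 2, nat_lit 1),
  (nat_lit 10956290, nat_lit 13905, nat_lit 2, nat_lit 1),
  (nat_lit 10970129, nat_lit 13839, nat_lit 2, nat_lit 1),
  (nat_lit 10983901, nat_lit 13772, nat_lit 2, nat_lit 1),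
  (nat_lit 10997611, nat_lit 13710, nat_lit 2, nat_lit 1),
  (nat_lit 11011259, nat_lit 13648, nat_lit 2, nat_lit 1),
  (nat_lit 11024847, nat_lit 13588, nat_lit 2, nat_lit 1),
  (nat_lit 11038377, nat_lit 13530, nat_lit 2, nat_lit 1),
  (nat_lit 11051851, nat_lit 13474, nat_lit 2, nat_lit 1),
  (nat_lit 11065270, nat_lit 13419, nat_lit 2, nat_lit 1),
  (nat_lit 11078635, nat_lit 13365, nat_lit 2, nat_lit 1),
  (nat_lit 11091949, nat_lit 13314, nat_lit 2, nat_lit 1),
  (nat_lit 11105213, nat_lit 13264, nat_lit 2, nat_lit 1),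
  (nat_lit 11118429, nat_lit 13216, nat_lit 2, nat_lit 1),
  (nat_lit 11131598, nat_lit 13169, nat_lit 2, nat_lit 1),
  (nat_lit 11144721, nat_lit 13123, nat_lit 2, nat_lit 1),
  (nat_lit 11157800, nat_lit 13079, nat_lit 2, nat_lit 1),
  (nat_lit 11170838, nat_lit 13038, nat_lit 2, nat_lit 1),
  (nat_lit 11183834, nat_lit 12996, nat_lit 2, nat_lit 1),
  (nat_lit 11196791, nat_lit 12957, nat_lit 2, nat_lit 1)]

/-- Test points. -/
def upS16_3 : List (ℕ × ℕ × ℕ × ℕ) := [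
  (nat_lit 11209710, nat_lit 12919, nat_lit 2, nat_lit 1),
  (nat_lit 11222592, nat_lit 12882, nat_lit 2, nat_lit 1),
  (nat_lit 11235441, nat_lit 12849, nat_lit 2, nat_lit 1),
  (nat_lit 11248255, nat_lit 12814, nat_lit 2, nat_lit 1),
  (nat_lit 11261039, nat_lit 12784, nat_lit 2, nat_lit 1),
  (nat_lit 11273794, nat_lit 12755, nat_lit 2, nat_lit 1),
  (nat_lit 11286520, nat_lit 12726, nat_lit 2, nat_lit 1),
  (nat_lit 11299221, nat_lit 12701, nat_lit 2, nat_lit 1),
  (nat_lit 11311897, nat_lit 12676, nat_lit 2, nat_lit 1),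
  (nat_lit 11324552, nat_lit 12655, nat_lit 2, nat_lit 1),
  (nat_lit 11337187, nat_lit 12635, nat_lit 2, nat_lit 1),
  (nat_lit 11349805, nat_lit 12618, nat_lit 2, nat_lit 1),
  (nat_lit 11362409, nat_lit 12604, nat_lit 2, nat_lit 1),
  (nat_lit 11375001, nat_lit 12592, nat_lit 2, nat_lit 1),
  (nat_lit 11387586, nat_lit 12585, nat_lit 2, nat_lit 1),
  (nat_lit 11400165, nat_lit 12580, nat_lit 2, nat_lit 1),
  (nat_lit 11412745, nat_lit 12585, nat_lit 2, nat_lit 1),
  (nat_lit 11425330, nat_lit 12596, nat_lit 2, nat_lit 1),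
  (nat_lit 11437926, nat_lit 12614, nat_lit 2, nat_lit 1),
  (nat_lit 11450540, nat_lit 12642, nat_lit 2, nat_lit 1),
  (nat_lit 11463182, nat_lit 12683, nat_lit 2, nat_lit 1),
  (nat_lit 11475865, nat_lit 12742, nat_lit 2, nat_lit 1),
  (nat_lit 11488607, nat_lit 12826, nat_lit 2, nat_lit 1),
  (nat_lit 11501433, nat_lit 12955, nat_lit 2, nat_lit 1),
  (nat_lit 11514388, nat_lit 13162, nat_lit 2, nat_lit 1)]

/-- Test points. -/
def upS16_4 : List (ℕ × ℕ × ℕ × ℕ) := [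
  (nat_lit 11527550, nat_lit 13552, nat_lit 2, nat_lit 1),
  (nat_lit 11541102, nat_lit 14570, nat_lit 2, nat_lit 1),
  (nat_lit 11555672, nat_lit 15768, nat_lit 2, nat_lit 1),
  (nat_lit 11571440, nat_lit 21912, nat_lit 2, nat_lit 1),
  (nat_lit 11593352, nat_lit 25772, nat_lit 202, nat_lit 0),
  (nat_lit 11619124, nat_lit 25772, nat_lit 3, nat_lit 1),
  (nat_lit 11635820, nat_lit 16696, nat_lit 3, nat_lit 1),
  (nat_lit 11650873, nat_lit 15053, nat_lit 3, nat_lit 1),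
  (nat_lit 11665724, nat_lit 15070, nat_lit 3, nat_lit 1),
  (nat_lit 11680794, nat_lit 15606, nat_lit 3, nat_lit 1),
  (nat_lit 11696400, nat_lit 16573, nat_lit 3, nat_lit 1),
  (nat_lit 11712973, nat_lit 18440, nat_lit 3, nat_lit 1),
  (nat_lit 11731413, nat_lit 23731, nat_lit 3, nat_lit 1),
  (nat_lit 11755144, nat_lit 300288, nat_lit 3, nat_lit 0),
  (nat_lit 12055432, nat_lit 300288, nat_lit 2, nat_lit 1),
  (nat_lit 12088552, nat_lit 33120, nat_lit 2, nat_lit 1),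
  (nat_lit 12109431, nat_lit 20879, nat_lit 2, nat_lit 1),
  (nat_lit 12125972, nat_lit 16541, nat_lit 2, nat_lit 1),
  (nat_lit 12140859, nat_lit 14887, nat_lit 2, nat_lit 1),
  (nat_lit 12154805, nat_lit 13946, nat_lit 2, nat_lit 1),
  (nat_lit 12168129, nat_lit 13324, nat_lit 2, nat_lit 1),
  (nat_lit 12181002, nat_lit 12873, nat_lit 2, nat_lit 1),
  (nat_lit 12193534, nat_lit 12532, nat_lit 2, nat_lit 1),
  (nat_lit 12205798, nat_lit 12264, nat_lit 2, nat_lit 1),
  (nat_lit 12217843, nat_lit 12045, nat_lit 2, nat_lit 1)]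

/-- Test points. -/
def upS16_5 : List (ℕ × ℕ × ℕ × ℕ) := [
  (nat_lit 12229710, nat_lit 11867, nat_lit 2, nat_lit 1),
  (nat_lit 12241426, nat_lit 11716, nat_lit 2, nat_lit 1),
  (nat_lit 12253017, nat_lit 11591, nat_lit 2, nat_lit 1),
  (nat_lit 12264500, nat_lit 11483, nat_lit 2, nat_lit 1),
  (nat_lit 12275891, nat_lit 11391, nat_lit 2, nat_lit 1),
  (nat_lit 12287205, nat_lit 11314, nat_lit 2, nat_lit 1),
  (nat_lit 12298454, nat_lit 11249, nat_lit 2, nat_lit 1),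
  (nat_lit 12309648, nat_lit 11194, nat_lit 2, nat_lit 1),
  (nat_lit 12320799, nat_lit 11151, nat_lit 2, nat_lit 1),
  (nat_lit 12331916, nat_lit 11117, nat_lit 2, nat_lit 1),
  (nat_lit 12343009, nat_lit 11093, nat_lit 2, nat_lit 1),
  (nat_lit 12354090, nat_lit 11081, nat_lit 2, nat_lit 1),
  (nat_lit 12365169, nat_lit 11092, nat_lit 2, nat_lit 1),
  (nat_lit 12376261, nat_lit 11121, nat_lit 2, nat_lit 1),
  (nat_lit 12387382, nat_lit 11168, nat_lit 2, nat_lit 1),
  (nat_lit 12398550, nat_lit 11241, nat_lit 2, nat_lit 1),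
  (nat_lit 12409791, nat_lit 11348, nat_lit 2, nat_lit 1),
  (nat_lit 12421139, nat_lit 11505, nat_lit 2, nat_lit 1),
  (nat_lit 12432644, nat_lit 11734, nat_lit 2, nat_lit 1),
  (nat_lit 12444378, nat_lit 12089, nat_lit 2, nat_lit 1),
  (nat_lit 12456467, nat_lit 12678, nat_lit 2, nat_lit 1),
  (nat_lit 12469145, nat_lit 13817, nat_lit 2, nat_lit 1),
  (nat_lit 12482962, nat_lit 17167, nat_lit 2, nat_lit 1),
  (nat_lit 12500129, nat_lit 69817, nat_lit 2, nat_lit 0),
  (nat_lit 12569946, nat_lit 69817, nat_lit 1565, nat_lit 1)]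

/-- Test points. -/
def upS16_6 : List (ℕ × ℕ × ℕ × ℕ) := [
  (nat_lit 12636119, nat_lit 66173, nat_lit 3, nat_lit 1),
  (nat_lit 12652775, nat_lit 16656, nat_lit 3, nat_lit 1),
  (nat_lit 12666175, nat_lit 13400, nat_lit 3, nat_lit 1),
  (nat_lit 12678352, nat_lit 12177, nat_lit 3, nat_lit 1),
  (nat_lit 12689889, nat_lit 11537, nat_lit 3, nat_lit 1),
  (nat_lit 12701024, nat_lit 11135, nat_lit 3, nat_lit 1),
  (nat_lit 12711881, nat_lit 10857, nat_lit 3, nat_lit 1),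
  (nat_lit 12722533, nat_lit 10652, nat_lit 3, nat_lit 1),
  (nat_lit 12733028, nat_lit 10495, nat_lit 3, nat_lit 1),
  (nat_lit 12743396, nat_lit 10368, nat_lit 3, nat_lit 1),
  (nat_lit 12753662, nat_lit 10266, nat_lit 3, nat_lit 1),
  (nat_lit 12763843, nat_lit 10181, nat_lit 3, nat_lit 1),
  (nat_lit 12773951, nat_lit 10108, nat_lit 3, nat_lit 1),
  (nat_lit 12783996, nat_lit 10045, nat_lit 3, nat_lit 1),
  (nat_lit 12793988, nat_lit 9992, nat_lit 3, nat_lit 1),
  (nat_lit 12803931, nat_lit 9943, nat_lit 3, nat_lit 1),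
  (nat_lit 12813831, nat_lit 9900, nat_lit 3, nat_lit 1),
  (nat_lit 12823693, nat_lit 9862, nat_lit 3, nat_lit 1),
  (nat_lit 12833521, nat_lit 9828, nat_lit 3, nat_lit 1),
  (nat_lit 12843317, nat_lit 9796, nat_lit 3, nat_lit 1),
  (nat_lit 12853084, nat_lit 9767, nat_lit 3, nat_lit 1),
  (nat_lit 12862825, nat_lit 9741, nat_lit 3, nat_lit 1),
  (nat_lit 12872541, nat_lit 9716, nat_lit 3, nat_lit 1),
  (nat_lit 12882234, nat_lit 9693, nat_lit 3, nat_lit 1),
  (nat_lit 12891906, nat_lit 9672, nat_lit 3, nat_lit 1)]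

/-- Test points. -/
def upS16_7 : List (ℕ × ℕ × ℕ × ℕ) := [
  (nat_lit 12901559, nat_lit 9653, nat_lit 3, nat_lit 1),
  (nat_lit 12911193, nat_lit 9634, nat_lit 3, nat_lit 1),
  (nat_lit 12920809, nat_lit 9616, nat_lit 3, nat_lit 1),
  (nat_lit 12930409, nat_lit 9600, nat_lit 3, nat_lit 1),
  (nat_lit 12939994, nat_lit 9585, nat_lit 3, nat_lit 1),
  (nat_lit 12949564, nat_lit 9570, nat_lit 3, nat_lit 1),
  (nat_lit 12959121, nat_lit 9557, nat_lit 3, nat_lit 1),
  (nat_lit 12968664, nat_lit 9543, nat_lit 3, nat_lit 1),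
  (nat_lit 12978195, nat_lit 9531, nat_lit 3, nat_lit 1),
  (nat_lit 12987714, nat_lit 9519, nat_lit 3, nat_lit 1),
  (nat_lit 12997223, nat_lit 9509, nat_lit 3, nat_lit 1),
  (nat_lit 13006721, nat_lit 9498, nat_lit 3, nat_lit 1),
  (nat_lit 13016209, nat_lit 9488, nat_lit 3, nat_lit 1),
  (nat_lit 13025688, nat_lit 9479, nat_lit 3, nat_lit 1),
  (nat_lit 13035158, nat_lit 9470, nat_lit 3, nat_lit 1),
  (nat_lit 13044619, nat_lit 9461, nat_lit 3, nat_lit 1),
  (nat_lit 13054073, nat_lit 9454, nat_lit 3, nat_lit 1),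
  (nat_lit 13063519, nat_lit 9446, nat_lit 3, nat_lit 1),
  (nat_lit 13072958, nat_lit 9439, nat_lit 3, nat_lit 1),
  (nat_lit 13082391, nat_lit 9433, nat_lit 3, nat_lit 1),
  (nat_lit 13091818, nat_lit 9427, nat_lit 3, nat_lit 1),
  (nat_lit 13101239, nat_lit 9421, nat_lit 3, nat_lit 1),
  (nat_lit 13110655, nat_lit 9416, nat_lit 3, nat_lit 1),
  (nat_lit 13120067, nat_lit 9412, nat_lit 3, nat_lit 1),
  (nat_lit 13129474, nat_lit 9407, nat_lit 3, nat_lit 1)]

/-- Test points. -/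
def upS16_8 : List (ℕ × ℕ × ℕ × ℕ) := [
  (nat_lit 13138877, nat_lit 9403, nat_lit 3, nat_lit 1),
  (nat_lit 13148278, nat_lit 9401, nat_lit 3, nat_lit 1),
  (nat_lit 13157676, nat_lit 9398, nat_lit 3, nat_lit 1),
  (nat_lit 13167071, nat_lit 9395, nat_lit 3, nat_lit 1),
  (nat_lit 13176465, nat_lit 9394, nat_lit 3, nat_lit 1),
  (nat_lit 13185857, nat_lit 9392, nat_lit 3, nat_lit 1),
  (nat_lit 13195249, nat_lit 9392, nat_lit 3, nat_lit 1),
  (nat_lit 13204641, nat_lit 9392, nat_lit 3, nat_lit 1),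
  (nat_lit 13214033, nat_lit 9393, nat_lit 3, nat_lit 1),
  (nat_lit 13223426, nat_lit 9395, nat_lit 3, nat_lit 1),
  (nat_lit 13232821, nat_lit 9397, nat_lit 3, nat_lit 1),
  (nat_lit 13242218, nat_lit 9401, nat_lit 3, nat_lit 1),
  (nat_lit 13251619, nat_lit 9404, nat_lit 3, nat_lit 1),
  (nat_lit 13261023, nat_lit 9409, nat_lit 3, nat_lit 1),
  (nat_lit 13270432, nat_lit 9415, nat_lit 3, nat_lit 1),
  (nat_lit 13279847, nat_lit 9421, nat_lit 3, nat_lit 1),
  (nat_lit 13289268, nat_lit 9428, nat_lit 3, nat_lit 1),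
  (nat_lit 13298696, nat_lit 9436, nat_lit 3, nat_lit 1),
  (nat_lit 13308132, nat_lit 9447, nat_lit 3, nat_lit 1),
  (nat_lit 13317579, nat_lit 9457, nat_lit 3, nat_lit 1),
  (nat_lit 13327036, nat_lit 9469, nat_lit 3, nat_lit 1),
  (nat_lit 13336505, nat_lit 9483, nat_lit 3, nat_lit 1),
  (nat_lit 13345988, nat_lit 9498, nat_lit 3, nat_lit 1),
  (nat_lit 13355486, nat_lit 9515, nat_lit 3, nat_lit 1),
  (nat_lit 13365001, nat_lit 9533, nat_lit 3, nat_lit 1)]

/-- Test points. -/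
def upS16_9 : List (ℕ × ℕ × ℕ × ℕ) := [
  (nat_lit 13374534, nat_lit 9554, nat_lit 3, nat_lit 1),
  (nat_lit 13384088, nat_lit 9578, nat_lit 3, nat_lit 1),
  (nat_lit 13393666, nat_lit 9603, nat_lit 3, nat_lit 1),
  (nat_lit 13403269, nat_lit 9632, nat_lit 3, nat_lit 1),
  (nat_lit 13412901, nat_lit 9663, nat_lit 3, nat_lit 1),
  (nat_lit 13422564, nat_lit 9700, nat_lit 3, nat_lit 1),
  (nat_lit 13432264, nat_lit 9739, nat_lit 3, nat_lit 1),
  (nat_lit 13442003, nat_lit 9784, nat_lit 3, nat_lit 1),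
  (nat_lit 13451787, nat_lit 9834, nat_lit 3, nat_lit 1),
  (nat_lit 13461621, nat_lit 9891, nat_lit 3, nat_lit 1),
  (nat_lit 13471512, nat_lit 9956, nat_lit 3, nat_lit 1),
  (nat_lit 13481468, nat_lit 10029, nat_lit 3, nat_lit 1),
  (nat_lit 13491497, nat_lit 10115, nat_lit 3, nat_lit 1),
  (nat_lit 13501612, nat_lit 10212, nat_lit 3, nat_lit 1),
  (nat_lit 13511824, nat_lit 10327, nat_lit 3, nat_lit 1),
  (nat_lit 13522151, nat_lit 10463, nat_lit 3, nat_lit 1),
  (nat_lit 13532614, nat_lit 10625, nat_lit 3, nat_lit 1),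
  (nat_lit 13543239, nat_lit 10823, nat_lit 3, nat_lit 1),
  (nat_lit 13554062, nat_lit 11069, nat_lit 3, nat_lit 1),
  (nat_lit 13565131, nat_lit 11384, nat_lit 3, nat_lit 1),
  (nat_lit 13576515, nat_lit 11802, nat_lit 3, nat_lit 1),
  (nat_lit 13588317, nat_lit 12392, nat_lit 3, nat_lit 1),
  (nat_lit 13600709, nat_lit 13294, nat_lit 3, nat_lit 1),
  (nat_lit 13614003, nat_lit 14916, nat_lit 3, nat_lit 1),
  (nat_lit 13628919, nat_lit 19340, nat_lit 3, nat_lit 1)]

/-- Test points. -/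
def upS16_10 : List (ℕ × ℕ × ℕ × ℕ) := [
  (nat_lit 13648259, nat_lit 61363, nat_lit 3, nat_lit 1),
  (nat_lit 13709622, nat_lit 235900, nat_lit 3, nat_lit 0),
  (nat_lit 13945522, nat_lit 235900, nat_lit 2, nat_lit 1),
  (nat_lit 13965240, nat_lit 19718, nat_lit 2, nat_lit 1),
  (nat_lit 13980425, nat_lit 15185, nat_lit 2, nat_lit 1),
  (nat_lit 13993957, nat_lit 13532, nat_lit 2, nat_lit 1),
  (nat_lit 14006576, nat_lit 12619, nat_lit 2, nat_lit 1),
  (nat_lit 14018604, nat_lit 12028, nat_lit 2, nat_lit 1),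
  (nat_lit 14030215, nat_lit 11611, nat_lit 2, nat_lit 1),
  (nat_lit 14041517, nat_lit 11302, nat_lit 2, nat_lit 1),
  (nat_lit 14052580, nat_lit 11063, nat_lit 2, nat_lit 1),
  (nat_lit 14063454, nat_lit 10874, nat_lit 2, nat_lit 1),
  (nat_lit 14074177, nat_lit 10723, nat_lit 2, nat_lit 1),
  (nat_lit 14084777, nat_lit 10600, nat_lit 2, nat_lit 1),
  (nat_lit 14095276, nat_lit 10499, nat_lit 2, nat_lit 1),
  (nat_lit 14105692, nat_lit 10416, nat_lit 2, nat_lit 1),
  (nat_lit 14116038, nat_lit 10346, nat_lit 2, nat_lit 1),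
  (nat_lit 14126328, nat_lit 10290, nat_lit 2, nat_lit 1),
  (nat_lit 14136572, nat_lit 10244, nat_lit 2, nat_lit 1),
  (nat_lit 14146778, nat_lit 10206, nat_lit 2, nat_lit 1),
  (nat_lit 14156955, nat_lit 10177, nat_lit 2, nat_lit 1),
  (nat_lit 14167110, nat_lit 10155, nat_lit 2, nat_lit 1),
  (nat_lit 14177249, nat_lit 10139, nat_lit 2, nat_lit 1),
  (nat_lit 14187377, nat_lit 10128, nat_lit 2, nat_lit 1),
  (nat_lit 14197501, nat_lit 10124, nat_lit 2, nat_lit 1)]

/-- Test points. -/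
def upS16_11 : List (ℕ × ℕ × ℕ × ℕ) := [
  (nat_lit 14207625, nat_lit 10130, nat_lit 2, nat_lit 1),
  (nat_lit 14217755, nat_lit 10140, nat_lit 2, nat_lit 1),
  (nat_lit 14227895, nat_lit 10154, nat_lit 2, nat_lit 1),
  (nat_lit 14238049, nat_lit 10174, nat_lit 2, nat_lit 1),
  (nat_lit 14248223, nat_lit 10197, nat_lit 2, nat_lit 1),
  (nat_lit 14258420, nat_lit 10226, nat_lit 2, nat_lit 1),
  (nat_lit 14268646, nat_lit 10259, nat_lit 2, nat_lit 1),
  (nat_lit 14278905, nat_lit 10297, nat_lit 2, nat_lit 1),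
  (nat_lit 14289202, nat_lit 10341, nat_lit 2, nat_lit 1),
  (nat_lit 14299543, nat_lit 10391, nat_lit 2, nat_lit 1),
  (nat_lit 14309934, nat_lit 10445, nat_lit 2, nat_lit 1),
  (nat_lit 14320379, nat_lit 10506, nat_lit 2, nat_lit 1),
  (nat_lit 14330885, nat_lit 10576, nat_lit 2, nat_lit 1),
  (nat_lit 14341461, nat_lit 10651, nat_lit 2, nat_lit 1),
  (nat_lit 14352112, nat_lit 10736, nat_lit 2, nat_lit 1),
  (nat_lit 14362848, nat_lit 10831, nat_lit 2, nat_lit 1),
  (nat_lit 14373679, nat_lit 10935, nat_lit 2, nat_lit 1),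
  (nat_lit 14384614, nat_lit 11053, nat_lit 2, nat_lit 1),
  (nat_lit 14395667, nat_lit 11184, nat_lit 2, nat_lit 1),
  (nat_lit 14406851, nat_lit 11332, nat_lit 2, nat_lit 1),
  (nat_lit 14418183, nat_lit 11499, nat_lit 2, nat_lit 1),
  (nat_lit 14429682, nat_lit 11691, nat_lit 2, nat_lit 1),
  (nat_lit 14441373, nat_lit 11909, nat_lit 2, nat_lit 1),
  (nat_lit 14453282, nat_lit 12164, nat_lit 2, nat_lit 1),
  (nat_lit 14465446, nat_lit 12463, nat_lit 2, nat_lit 1)]

/-- Test points. -/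
def upS16_12 : List (ℕ × ℕ × ℕ × ℕ) := [
  (nat_lit 14477909, nat_lit 12820, nat_lit 2, nat_lit 1),
  (nat_lit 14490729, nat_lit 13256, nat_lit 2, nat_lit 1),
  (nat_lit 14503985, nat_lit 13800, nat_lit 2, nat_lit 1),
  (nat_lit 14517785, nat_lit 14509, nat_lit 2, nat_lit 1),
  (nat_lit 14532294, nat_lit 15478, nat_lit 2, nat_lit 1),
  (nat_lit 14547772, nat_lit 16926, nat_lit 2, nat_lit 1),
  (nat_lit 14564698, nat_lit 19451, nat_lit 2, nat_lit 1),
  (nat_lit 14584149, nat_lit 26111, nat_lit 2, nat_lit 1),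
  (nat_lit 14610260, nat_lit 137757, nat_lit 2, nat_lit 1),
  (nat_lit 14748017, nat_lit 840057, nat_lit 6, nat_lit 0),
  (nat_lit 15588074, nat_lit 840057, nat_lit 3, nat_lit 1),
  (nat_lit 15612557, nat_lit 24483, nat_lit 3, nat_lit 1),
  (nat_lit 15630708, nat_lit 18151, nat_lit 3, nat_lit 1),
  (nat_lit 15646448, nat_lit 15740, nat_lit 3, nat_lit 1),
  (nat_lit 15660798, nat_lit 14350, nat_lit 3, nat_lit 1),
  (nat_lit 15674213, nat_lit 13415, nat_lit 3, nat_lit 1),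
  (nat_lit 15686942, nat_lit 12729, nat_lit 3, nat_lit 1),
  (nat_lit 15699141, nat_lit 12199, nat_lit 3, nat_lit 1),
  (nat_lit 15710913, nat_lit 11772, nat_lit 3, nat_lit 1),
  (nat_lit 15722333, nat_lit 11420, nat_lit 3, nat_lit 1),
  (nat_lit 15733458, nat_lit 11125, nat_lit 3, nat_lit 1),
  (nat_lit 15744329, nat_lit 10871, nat_lit 3, nat_lit 1),
  (nat_lit 15754980, nat_lit 10651, nat_lit 3, nat_lit 1),
  (nat_lit 15765439, nat_lit 10459, nat_lit 3, nat_lit 1),
  (nat_lit 15775727, nat_lit 10288, nat_lit 3, nat_lit 1)]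

/-- Test points. -/
def upS16_13 : List (ℕ × ℕ × ℕ × ℕ) := [
  (nat_lit 15785865, nat_lit 10138, nat_lit 3, nat_lit 1),
  (nat_lit 15795867, nat_lit 10002, nat_lit 3, nat_lit 1),
  (nat_lit 15805748, nat_lit 9881, nat_lit 3, nat_lit 1),
  (nat_lit 15815521, nat_lit 9773, nat_lit 3, nat_lit 1),
  (nat_lit 15825195, nat_lit 9674, nat_lit 3, nat_lit 1),
  (nat_lit 15834782, nat_lit 9587, nat_lit 3, nat_lit 1),
  (nat_lit 15844290, nat_lit 9508, nat_lit 3, nat_lit 1),
  (nat_lit 15853728, nat_lit 9438, nat_lit 3, nat_lit 1),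
  (nat_lit 15863106, nat_lit 9378, nat_lit 3, nat_lit 1),
  (nat_lit 15872431, nat_lit 9325, nat_lit 3, nat_lit 1),
  (nat_lit 15881714, nat_lit 9283, nat_lit 3, nat_lit 1),
  (nat_lit 15890966, nat_lit 9252, nat_lit 3, nat_lit 1),
  (nat_lit 15900202, nat_lit 9239, nat_lit 3, nat_lit 1),
  (nat_lit 15909441, nat_lit 9277, nat_lit 3, nat_lit 1),
  (nat_lit 15918718, nat_lit 9380, nat_lit 3, nat_lit 1),
  (nat_lit 15928098, nat_lit 9652, nat_lit 3, nat_lit 1),
  (nat_lit 15937750, nat_lit 10701, nat_lit 3, nat_lit 1),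
  (nat_lit 15948451, nat_lit 28102, nat_lit 3, nat_lit 0),
  (nat_lit 15976553, nat_lit 28102, nat_lit 2, nat_lit 1),
  (nat_lit 15987381, nat_lit 10828, nat_lit 2, nat_lit 1),
  (nat_lit 15997365, nat_lit 9984, nat_lit 2, nat_lit 1),
  (nat_lit 16007194, nat_lit 9963, nat_lit 2, nat_lit 1),
  (nat_lit 16017157, nat_lit 10345, nat_lit 2, nat_lit 1),
  (nat_lit 16027502, nat_lit 11193, nat_lit 2, nat_lit 1),
  (nat_lit 16038695, nat_lit 13808, nat_lit 2, nat_lit 1)]

/-- Test points. -/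
def upS16_14 : List (ℕ × ℕ × ℕ × ℕ) := [
  (nat_lit 16052503, nat_lit 103327, nat_lit 2, nat_lit 0),
  (nat_lit 16155830, nat_lit 103327, nat_lit 3, nat_lit 1),
  (nat_lit 16169199, nat_lit 13369, nat_lit 3, nat_lit 1),
  (nat_lit 16180250, nat_lit 11051, nat_lit 3, nat_lit 1),
  (nat_lit 16190075, nat_lit 9825, nat_lit 3, nat_lit 1),
  (nat_lit 16199330, nat_lit 9255, nat_lit 3, nat_lit 1),
  (nat_lit 16208241, nat_lit 8911, nat_lit 3, nat_lit 1),
  (nat_lit 16216920, nat_lit 8679, nat_lit 3, nat_lit 1),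
  (nat_lit 16225428, nat_lit 8508, nat_lit 3, nat_lit 1),
  (nat_lit 16233806, nat_lit 8378, nat_lit 3, nat_lit 1),
  (nat_lit 16242081, nat_lit 8275, nat_lit 3, nat_lit 1),
  (nat_lit 16250272, nat_lit 8191, nat_lit 3, nat_lit 1),
  (nat_lit 16258393, nat_lit 8121, nat_lit 3, nat_lit 1),
  (nat_lit 16266455, nat_lit 8062, nat_lit 3, nat_lit 1),
  (nat_lit 16274467, nat_lit 8012, nat_lit 3, nat_lit 1),
  (nat_lit 16282433, nat_lit 7966, nat_lit 3, nat_lit 1),
  (nat_lit 16290361, nat_lit 7928, nat_lit 3, nat_lit 1),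
  (nat_lit 16298254, nat_lit 7893, nat_lit 3, nat_lit 1),
  (nat_lit 16306116, nat_lit 7862, nat_lit 3, nat_lit 1),
  (nat_lit 16313949, nat_lit 7833, nat_lit 3, nat_lit 1),
  (nat_lit 16321757, nat_lit 7808, nat_lit 3, nat_lit 1),
  (nat_lit 16329542, nat_lit 7785, nat_lit 3, nat_lit 1),
  (nat_lit 16337305, nat_lit 7763, nat_lit 3, nat_lit 1),
  (nat_lit 16345049, nat_lit 7744, nat_lit 3, nat_lit 1),
  (nat_lit 16352775, nat_lit 7726, nat_lit 3, nat_lit 1)]

/-- Test points. -/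
def upS16_15 : List (ℕ × ℕ × ℕ × ℕ) := [
  (nat_lit 16360483, nat_lit 7708, nat_lit 3, nat_lit 1),
  (nat_lit 16368177, nat_lit 7694, nat_lit 3, nat_lit 1),
  (nat_lit 16375856, nat_lit 7679, nat_lit 3, nat_lit 1),
  (nat_lit 16383521, nat_lit 7665, nat_lit 3, nat_lit 1),
  (nat_lit 16391174, nat_lit 7653, nat_lit 3, nat_lit 1),
  (nat_lit 16398817, nat_lit 7643, nat_lit 3, nat_lit 1),
  (nat_lit 16406448, nat_lit 7631, nat_lit 3, nat_lit 1),
  (nat_lit 16414070, nat_lit 7622, nat_lit 3, nat_lit 1),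
  (nat_lit 16421683, nat_lit 7613, nat_lit 3, nat_lit 1),
  (nat_lit 16429288, nat_lit 7605, nat_lit 3, nat_lit 1),
  (nat_lit 16436886, nat_lit 7598, nat_lit 3, nat_lit 1),
  (nat_lit 16444478, nat_lit 7592, nat_lit 3, nat_lit 1),
  (nat_lit 16452064, nat_lit 7586, nat_lit 3, nat_lit 1),
  (nat_lit 16459645, nat_lit 7581, nat_lit 3, nat_lit 1),
  (nat_lit 16467223, nat_lit 7578, nat_lit 3, nat_lit 1),
  (nat_lit 16474798, nat_lit 7575, nat_lit 3, nat_lit 1),
  (nat_lit 16482372, nat_lit 7574, nat_lit 3, nat_lit 1),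
  (nat_lit 16489944, nat_lit 7574, nat_lit 3, nat_lit 1),
  (nat_lit 16497518, nat_lit 7577, nat_lit 3, nat_lit 1),
  (nat_lit 16505095, nat_lit 7580, nat_lit 3, nat_lit 1),
  (nat_lit 16512675, nat_lit 7587, nat_lit 3, nat_lit 1),
  (nat_lit 16520262, nat_lit 7596, nat_lit 3, nat_lit 1),
  (nat_lit 16527858, nat_lit 7607, nat_lit 3, nat_lit 1),
  (nat_lit 16535465, nat_lit 7623, nat_lit 3, nat_lit 1),
  (nat_lit 16543088, nat_lit 7643, nat_lit 3, nat_lit 1)]

/-- Test points. -/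
def upS16_16 : List (ℕ × ℕ × ℕ × ℕ) := [
  (nat_lit 16550731, nat_lit 7669, nat_lit 3, nat_lit 1),
  (nat_lit 16558400, nat_lit 7704, nat_lit 3, nat_lit 1),
  (nat_lit 16566104, nat_lit 7749, nat_lit 3, nat_lit 1),
  (nat_lit 16573853, nat_lit 7810, nat_lit 3, nat_lit 1),
  (nat_lit 16581663, nat_lit 7895, nat_lit 3, nat_lit 1),
  (nat_lit 16589558, nat_lit 8018, nat_lit 3, nat_lit 1),
  (nat_lit 16597576, nat_lit 8204, nat_lit 3, nat_lit 1),
  (nat_lit 16605780, nat_lit 8515, nat_lit 3, nat_lit 1),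
  (nat_lit 16614295, nat_lit 9133, nat_lit 3, nat_lit 1),
  (nat_lit 16623428, nat_lit 11013, nat_lit 3, nat_lit 1),
  (nat_lit 16634441, nat_lit 23861, nat_lit 3, nat_lit 1),
  (nat_lit 16658302, nat_lit 39016, nat_lit 7, nat_lit 0),
  (nat_lit 16697318, nat_lit 39016, nat_lit 2, nat_lit 1),
  (nat_lit 16708354, nat_lit 11036, nat_lit 2, nat_lit 1),
  (nat_lit 16717501, nat_lit 9147, nat_lit 2, nat_lit 1),
  (nat_lit 16726030, nat_lit 8529, nat_lit 2, nat_lit 1),
  (nat_lit 16734248, nat_lit 8218, nat_lit 2, nat_lit 1),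
  (nat_lit 16742281, nat_lit 8033, nat_lit 2, nat_lit 1),
  (nat_lit 16750195, nat_lit 7914, nat_lit 2, nat_lit 1),
  (nat_lit 16758027, nat_lit 7832, nat_lit 2, nat_lit 1),
  (nat_lit 16765802, nat_lit 7775, nat_lit 2, nat_lit 1),
  (nat_lit 16773536, nat_lit 7734, nat_lit 2, nat_lit 1),
  (nat_lit 16781241, nat_lit 7705, nat_lit 2, nat_lit 1),
  (nat_lit 16788927, nat_lit 7686, nat_lit 2, nat_lit 1),
  (nat_lit 16796600, nat_lit 7673, nat_lit 2, nat_lit 1)]

/-- Test points. -/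
def upS16_17 : List (ℕ × ℕ × ℕ × ℕ) := [
  (nat_lit 16804265, nat_lit 7665, nat_lit 2, nat_lit 1),
  (nat_lit 16811929, nat_lit 7666, nat_lit 2, nat_lit 1),
  (nat_lit 16819595, nat_lit 7672, nat_lit 2, nat_lit 1),
  (nat_lit 16827267, nat_lit 7683, nat_lit 2, nat_lit 1),
  (nat_lit 16834950, nat_lit 7697, nat_lit 2, nat_lit 1),
  (nat_lit 16842647, nat_lit 7715, nat_lit 2, nat_lit 1),
  (nat_lit 16850362, nat_lit 7738, nat_lit 2, nat_lit 1),
  (nat_lit 16858100, nat_lit 7764, nat_lit 2, nat_lit 1),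
  (nat_lit 16865864, nat_lit 7795, nat_lit 2, nat_lit 1),
  (nat_lit 16873659, nat_lit 7832, nat_lit 2, nat_lit 1),
  (nat_lit 16881491, nat_lit 7876, nat_lit 2, nat_lit 1),
  (nat_lit 16889367, nat_lit 7927, nat_lit 2, nat_lit 1),
  (nat_lit 16897294, nat_lit 7986, nat_lit 2, nat_lit 1),
  (nat_lit 16905280, nat_lit 8055, nat_lit 2, nat_lit 1),
  (nat_lit 16913335, nat_lit 8138, nat_lit 2, nat_lit 1),
  (nat_lit 16921473, nat_lit 8237, nat_lit 2, nat_lit 1),
  (nat_lit 16929710, nat_lit 8355, nat_lit 2, nat_lit 1),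
  (nat_lit 16938065, nat_lit 8503, nat_lit 2, nat_lit 1),
  (nat_lit 16946568, nat_lit 8685, nat_lit 2, nat_lit 1),
  (nat_lit 16955253, nat_lit 8922, nat_lit 2, nat_lit 1),
  (nat_lit 16964175, nat_lit 9237, nat_lit 2, nat_lit 1),
  (nat_lit 16973412, nat_lit 9684, nat_lit 2, nat_lit 1),
  (nat_lit 16983096, nat_lit 10372, nat_lit 2, nat_lit 1),
  (nat_lit 16993468, nat_lit 11614, nat_lit 2, nat_lit 1),
  (nat_lit 17005082, nat_lit 15023, nat_lit 2, nat_lit 1)]

/-- Test points. -/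
def upS16_18 : List (ℕ × ℕ × ℕ × ℕ) := [
  (nat_lit 17020105, nat_lit 52718, nat_lit 2, nat_lit 1),
  (nat_lit 17072823, nat_lit 162902, nat_lit 2, nat_lit 0),
  (nat_lit 17235725, nat_lit 162902, nat_lit 3, nat_lit 1),
  (nat_lit 17250720, nat_lit 14995, nat_lit 3, nat_lit 1),
  (nat_lit 17262282, nat_lit 11562, nat_lit 3, nat_lit 1),
  (nat_lit 17272590, nat_lit 10308, nat_lit 3, nat_lit 1),
  (nat_lit 17282202, nat_lit 9612, nat_lit 3, nat_lit 1),
  (nat_lit 17291362, nat_lit 9160, nat_lit 3, nat_lit 1),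
  (nat_lit 17300201, nat_lit 8839, nat_lit 3, nat_lit 1),
  (nat_lit 17308798, nat_lit 8597, nat_lit 3, nat_lit 1),
  (nat_lit 17317207, nat_lit 8409, nat_lit 3, nat_lit 1),
  (nat_lit 17325465, nat_lit 8258, nat_lit 3, nat_lit 1),
  (nat_lit 17333599, nat_lit 8134, nat_lit 3, nat_lit 1),
  (nat_lit 17341629, nat_lit 8030, nat_lit 3, nat_lit 1),
  (nat_lit 17349572, nat_lit 7943, nat_lit 3, nat_lit 1),
  (nat_lit 17357441, nat_lit 7869, nat_lit 3, nat_lit 1),
  (nat_lit 17365244, nat_lit 7803, nat_lit 3, nat_lit 1),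
  (nat_lit 17372991, nat_lit 7747, nat_lit 3, nat_lit 1),
  (nat_lit 17380689, nat_lit 7698, nat_lit 3, nat_lit 1),
  (nat_lit 17388343, nat_lit 7654, nat_lit 3, nat_lit 1),
  (nat_lit 17395958, nat_lit 7615, nat_lit 3, nat_lit 1),
  (nat_lit 17403540, nat_lit 7582, nat_lit 3, nat_lit 1),
  (nat_lit 17411091, nat_lit 7551, nat_lit 3, nat_lit 1),
  (nat_lit 17418615, nat_lit 7524, nat_lit 3, nat_lit 1),
  (nat_lit 17426115, nat_lit 7500, nat_lit 3, nat_lit 1)]

/-- Test points. -/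
def upS16_19 : List (ℕ × ℕ × ℕ × ℕ) := [
  (nat_lit 17433592, nat_lit 7477, nat_lit 3, nat_lit 1),
  (nat_lit 17441051, nat_lit 7459, nat_lit 3, nat_lit 1),
  (nat_lit 17448491, nat_lit 7440, nat_lit 3, nat_lit 1),
  (nat_lit 17455917, nat_lit 7426, nat_lit 3, nat_lit 1),
  (nat_lit 17463328, nat_lit 7411, nat_lit 3, nat_lit 1),
  (nat_lit 17470727, nat_lit 7399, nat_lit 3, nat_lit 1),
  (nat_lit 17478115, nat_lit 7388, nat_lit 3, nat_lit 1),
  (nat_lit 17485493, nat_lit 7378, nat_lit 3, nat_lit 1),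
  (nat_lit 17492862, nat_lit 7369, nat_lit 3, nat_lit 1),
  (nat_lit 17500224, nat_lit 7362, nat_lit 3, nat_lit 1),
  (nat_lit 17507581, nat_lit 7357, nat_lit 3, nat_lit 1),
  (nat_lit 17514932, nat_lit 7351, nat_lit 3, nat_lit 1),
  (nat_lit 17522279, nat_lit 7347, nat_lit 3, nat_lit 1),
  (nat_lit 17529622, nat_lit 7343, nat_lit 3, nat_lit 1),
  (nat_lit 17536964, nat_lit 7342, nat_lit 3, nat_lit 1),
  (nat_lit 17544304, nat_lit 7340, nat_lit 3, nat_lit 1),
  (nat_lit 17551643, nat_lit 7340, nat_lit 3, nat_lit 1),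
  (nat_lit 17558983, nat_lit 7341, nat_lit 3, nat_lit 1),
  (nat_lit 17566324, nat_lit 7343, nat_lit 3, nat_lit 1),
  (nat_lit 17573667, nat_lit 7347, nat_lit 3, nat_lit 1),
  (nat_lit 17581014, nat_lit 7350, nat_lit 3, nat_lit 1),
  (nat_lit 17588364, nat_lit 7355, nat_lit 3, nat_lit 1),
  (nat_lit 17595719, nat_lit 7362, nat_lit 3, nat_lit 1),
  (nat_lit 17603081, nat_lit 7368, nat_lit 3, nat_lit 1),
  (nat_lit 17610449, nat_lit 7375, nat_lit 3, nat_lit 1)]

/-- Test points. -/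
def upS16_20 : List (ℕ × ℕ × ℕ × ℕ) := [
  (nat_lit 17617824, nat_lit 7385, nat_lit 3, nat_lit 1),
  (nat_lit 17625209, nat_lit 7395, nat_lit 3, nat_lit 1),
  (nat_lit 17632604, nat_lit 7406, nat_lit 3, nat_lit 1),
  (nat_lit 17640010, nat_lit 7419, nat_lit 3, nat_lit 1),
  (nat_lit 17647429, nat_lit 7434, nat_lit 3, nat_lit 1),
  (nat_lit 17654863, nat_lit 7448, nat_lit 3, nat_lit 1),
  (nat_lit 17662311, nat_lit 7466, nat_lit 3, nat_lit 1),
  (nat_lit 17669777, nat_lit 7485, nat_lit 3, nat_lit 1),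
  (nat_lit 17677262, nat_lit 7506, nat_lit 3, nat_lit 1),
  (nat_lit 17684768, nat_lit 7528, nat_lit 3, nat_lit 1),
  (nat_lit 17692296, nat_lit 7555, nat_lit 3, nat_lit 1),
  (nat_lit 17699851, nat_lit 7582, nat_lit 3, nat_lit 1),
  (nat_lit 17707433, nat_lit 7615, nat_lit 3, nat_lit 1),
  (nat_lit 17715048, nat_lit 7649, nat_lit 3, nat_lit 1),
  (nat_lit 17722697, nat_lit 7687, nat_lit 3, nat_lit 1),
  (nat_lit 17730384, nat_lit 7731, nat_lit 3, nat_lit 1),
  (nat_lit 17738115, nat_lit 7781, nat_lit 3, nat_lit 1),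
  (nat_lit 17745896, nat_lit 7835, nat_lit 3, nat_lit 1),
  (nat_lit 17753731, nat_lit 7897, nat_lit 3, nat_lit 1),
  (nat_lit 17761628, nat_lit 7969, nat_lit 3, nat_lit 1),
  (nat_lit 17769597, nat_lit 8051, nat_lit 3, nat_lit 1),
  (nat_lit 17777648, nat_lit 8147, nat_lit 3, nat_lit 1),
  (nat_lit 17785795, nat_lit 8259, nat_lit 3, nat_lit 1),
  (nat_lit 17794054, nat_lit 8393, nat_lit 3, nat_lit 1),
  (nat_lit 17802447, nat_lit 8556, nat_lit 3, nat_lit 1)]

/-- Test points. -/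
def upS16_21 : List (ℕ × ℕ × ℕ × ℕ) := [
  (nat_lit 17811003, nat_lit 8758, nat_lit 3, nat_lit 1),
  (nat_lit 17819761, nat_lit 9016, nat_lit 3, nat_lit 1),
  (nat_lit 17828777, nat_lit 9357, nat_lit 3, nat_lit 1),
  (nat_lit 17838134, nat_lit 9837, nat_lit 3, nat_lit 1),
  (nat_lit 17847971, nat_lit 10569, nat_lit 3, nat_lit 1),
  (nat_lit 17858540, nat_lit 11885, nat_lit 3, nat_lit 1),
  (nat_lit 17870425, nat_lit 15470, nat_lit 3, nat_lit 1),
  (nat_lit 17885895, nat_lit 215137, nat_lit 3, nat_lit 0),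
  (nat_lit 18101032, nat_lit 215137, nat_lit 2, nat_lit 1),
  (nat_lit 18127069, nat_lit 26037, nat_lit 2, nat_lit 1),
  (nat_lit 18142349, nat_lit 15280, nat_lit 2, nat_lit 1),
  (nat_lit 18154467, nat_lit 12118, nat_lit 2, nat_lit 1),
  (nat_lit 18165470, nat_lit 11003, nat_lit 2, nat_lit 1),
  (nat_lit 18175953, nat_lit 10483, nat_lit 2, nat_lit 1),
  (nat_lit 18186336, nat_lit 11266, nat_lit 2, nat_lit 1),
  (nat_lit 18197602, nat_lit 22075, nat_lit 2, nat_lit 0),
  (nat_lit 18219677, nat_lit 22075, nat_lit 3, nat_lit 1),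
  (nat_lit 18231684, nat_lit 12007, nat_lit 3, nat_lit 1),
  (nat_lit 18241985, nat_lit 10301, nat_lit 3, nat_lit 1),
  (nat_lit 18251116, nat_lit 9131, nat_lit 3, nat_lit 1),
  (nat_lit 18259871, nat_lit 8755, nat_lit 3, nat_lit 1),
  (nat_lit 18268433, nat_lit 8562, nat_lit 3, nat_lit 1),
  (nat_lit 18276876, nat_lit 8443, nat_lit 3, nat_lit 1),
  (nat_lit 18285237, nat_lit 8361, nat_lit 3, nat_lit 1),
  (nat_lit 18293538, nat_lit 8301, nat_lit 3, nat_lit 1)]

/-- Test points. -/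
def upS16_22 : List (ℕ × ℕ × ℕ × ℕ) := [
  (nat_lit 18301793, nat_lit 8255, nat_lit 3, nat_lit 1),
  (nat_lit 18310014, nat_lit 8221, nat_lit 3, nat_lit 1),
  (nat_lit 18318208, nat_lit 8194, nat_lit 3, nat_lit 1),
  (nat_lit 18326381, nat_lit 8173, nat_lit 3, nat_lit 1),
  (nat_lit 18334539, nat_lit 8158, nat_lit 3, nat_lit 1),
  (nat_lit 18342686, nat_lit 8147, nat_lit 3, nat_lit 1),
  (nat_lit 18350826, nat_lit 8140, nat_lit 3, nat_lit 1),
  (nat_lit 18358962, nat_lit 8136, nat_lit 3, nat_lit 1),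
  (nat_lit 18367096, nat_lit 8136, nat_lit 3, nat_lit 1),
  (nat_lit 18375232, nat_lit 8140, nat_lit 3, nat_lit 1),
  (nat_lit 18383372, nat_lit 8146, nat_lit 3, nat_lit 1),
  (nat_lit 18391518, nat_lit 8153, nat_lit 3, nat_lit 1),
  (nat_lit 18399671, nat_lit 8164, nat_lit 3, nat_lit 1),
  (nat_lit 18407835, nat_lit 8177, nat_lit 3, nat_lit 1),
  (nat_lit 18416012, nat_lit 8190, nat_lit 3, nat_lit 1),
  (nat_lit 18424202, nat_lit 8205, nat_lit 3, nat_lit 1),
  (nat_lit 18432407, nat_lit 8224, nat_lit 3, nat_lit 1),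
  (nat_lit 18440631, nat_lit 8242, nat_lit 3, nat_lit 1),
  (nat_lit 18448873, nat_lit 8264, nat_lit 3, nat_lit 1),
  (nat_lit 18457137, nat_lit 8286, nat_lit 3, nat_lit 1),
  (nat_lit 18465423, nat_lit 8311, nat_lit 3, nat_lit 1),
  (nat_lit 18473734, nat_lit 8337, nat_lit 3, nat_lit 1),
  (nat_lit 18482071, nat_lit 8366, nat_lit 3, nat_lit 1),
  (nat_lit 18490437, nat_lit 8396, nat_lit 3, nat_lit 1),
  (nat_lit 18498833, nat_lit 8428, nat_lit 3, nat_lit 1)]

/-- Test points. -/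
def upS16_23 : List (ℕ × ℕ × ℕ × ℕ) := [
  (nat_lit 18507261, nat_lit 8462, nat_lit 3, nat_lit 1),
  (nat_lit 18515723, nat_lit 8498, nat_lit 3, nat_lit 1),
  (nat_lit 18524221, nat_lit 8536, nat_lit 3, nat_lit 1),
  (nat_lit 18532757, nat_lit 8578, nat_lit 3, nat_lit 1),
  (nat_lit 18541335, nat_lit 8620, nat_lit 3, nat_lit 1),
  (nat_lit 18549955, nat_lit 8666, nat_lit 3, nat_lit 1),
  (nat_lit 18558621, nat_lit 8714, nat_lit 3, nat_lit 1),
  (nat_lit 18567335, nat_lit 8765, nat_lit 3, nat_lit 1),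
  (nat_lit 18576100, nat_lit 8820, nat_lit 3, nat_lit 1),
  (nat_lit 18584920, nat_lit 8877, nat_lit 3, nat_lit 1),
  (nat_lit 18593797, nat_lit 8938, nat_lit 3, nat_lit 1),
  (nat_lit 18602735, nat_lit 9003, nat_lit 3, nat_lit 1),
  (nat_lit 18611738, nat_lit 9072, nat_lit 3, nat_lit 1),
  (nat_lit 18620810, nat_lit 9145, nat_lit 3, nat_lit 1),
  (nat_lit 18629955, nat_lit 9224, nat_lit 3, nat_lit 1),
  (nat_lit 18639179, nat_lit 9306, nat_lit 3, nat_lit 1),
  (nat_lit 18648485, nat_lit 9397, nat_lit 3, nat_lit 1),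
  (nat_lit 18657882, nat_lit 9492, nat_lit 3, nat_lit 1),
  (nat_lit 18667374, nat_lit 9595, nat_lit 3, nat_lit 1),
  (nat_lit 18676969, nat_lit 9707, nat_lit 3, nat_lit 1),
  (nat_lit 18686676, nat_lit 9827, nat_lit 3, nat_lit 1),
  (nat_lit 18696503, nat_lit 9957, nat_lit 3, nat_lit 1),
  (nat_lit 18706460, nat_lit 10099, nat_lit 3, nat_lit 1),
  (nat_lit 18716559, nat_lit 10255, nat_lit 3, nat_lit 1),
  (nat_lit 18726814, nat_lit 10425, nat_lit 3, nat_lit 1)]

/-- Test points. -/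
def upS16_24 : List (ℕ × ℕ × ℕ × ℕ) := [
  (nat_lit 18737239, nat_lit 10615, nat_lit 3, nat_lit 1),
  (nat_lit 18747854, nat_lit 10826, nat_lit 3, nat_lit 1),
  (nat_lit 18758680, nat_lit 11062, nat_lit 3, nat_lit 1),
  (nat_lit 18769742, nat_lit 11329, nat_lit 3, nat_lit 1),
  (nat_lit 18781071, nat_lit 11636, nat_lit 3, nat_lit 1),
  (nat_lit 18792707, nat_lit 11992, nat_lit 3, nat_lit 1),
  (nat_lit 18804699, nat_lit 12412, nat_lit 3, nat_lit 1),
  (nat_lit 18817111, nat_lit 12916, nat_lit 3, nat_lit 1),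
  (nat_lit 18830027, nat_lit 13541, nat_lit 3, nat_lit 1),
  (nat_lit 18843568, nat_lit 14344, nat_lit 3, nat_lit 1),
  (nat_lit 18857912, nat_lit 15430, nat_lit 3, nat_lit 1),
  (nat_lit 18873342, nat_lit 17033, nat_lit 3, nat_lit 1),
  (nat_lit 18890375, nat_lit 19794, nat_lit 3, nat_lit 1),
  (nat_lit 18910169, nat_lit 26976, nat_lit 3, nat_lit 1),
  (nat_lit 18937145, nat_lit 1852042, nat_lit 3, nat_lit 0),
  (nat_lit 20789187, nat_lit 1852042, nat_lit 16, nat_lit 1),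
  (nat_lit 20976075, nat_lit 186888, nat_lit 2, nat_lit 1),
  (nat_lit 20998462, nat_lit 22387, nat_lit 2, nat_lit 1),
  (nat_lit 21014839, nat_lit 16377, nat_lit 2, nat_lit 1),
  (nat_lit 21028895, nat_lit 14056, nat_lit 2, nat_lit 1),
  (nat_lit 21041600, nat_lit 12705, nat_lit 2, nat_lit 1),
  (nat_lit 21053385, nat_lit 11785, nat_lit 2, nat_lit 1),
  (nat_lit 21064489, nat_lit 11104, nat_lit 2, nat_lit 1),
  (nat_lit 21075060, nat_lit 10571, nat_lit 2, nat_lit 1),
  (nat_lit 21085200, nat_lit 10140, nat_lit 2, nat_lit 1)]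

/-- Test points. -/
def upS16_25 : List (ℕ × ℕ × ℕ × ℕ) := [
  (nat_lit 21094980, nat_lit 9780, nat_lit 2, nat_lit 1),
  (nat_lit 21104453, nat_lit 9473, nat_lit 2, nat_lit 1),
  (nat_lit 21113661, nat_lit 9208, nat_lit 2, nat_lit 1),
  (nat_lit 21122638, nat_lit 8977, nat_lit 2, nat_lit 1),
  (nat_lit 21131408, nat_lit 8770, nat_lit 2, nat_lit 1),
  (nat_lit 21139996, nat_lit 8588, nat_lit 2, nat_lit 1),
  (nat_lit 21148417, nat_lit 8421, nat_lit 2, nat_lit 1),
  (nat_lit 21156689, nat_lit 8272, nat_lit 2, nat_lit 1),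
  (nat_lit 21164824, nat_lit 8135, nat_lit 2, nat_lit 1),
  (nat_lit 21172834, nat_lit 8010, nat_lit 2, nat_lit 1),
  (nat_lit 21180728, nat_lit 7894, nat_lit 2, nat_lit 1),
  (nat_lit 21188516, nat_lit 7788, nat_lit 2, nat_lit 1),
  (nat_lit 21196205, nat_lit 7689, nat_lit 2, nat_lit 1),
  (nat_lit 21203803, nat_lit 7598, nat_lit 2, nat_lit 1),
  (nat_lit 21211315, nat_lit 7512, nat_lit 2, nat_lit 1),
  (nat_lit 21218748, nat_lit 7433, nat_lit 2, nat_lit 1),
  (nat_lit 21226107, nat_lit 7359, nat_lit 2, nat_lit 1),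
  (nat_lit 21233396, nat_lit 7289, nat_lit 2, nat_lit 1),
  (nat_lit 21240621, nat_lit 7225, nat_lit 2, nat_lit 1),
  (nat_lit 21247785, nat_lit 7164, nat_lit 2, nat_lit 1),
  (nat_lit 21254893, nat_lit 7108, nat_lit 2, nat_lit 1),
  (nat_lit 21261949, nat_lit 7056, nat_lit 2, nat_lit 1),
  (nat_lit 21268956, nat_lit 7007, nat_lit 2, nat_lit 1),
  (nat_lit 21275917, nat_lit 6961, nat_lit 2, nat_lit 1),
  (nat_lit 21282837, nat_lit 6920, nat_lit 2, nat_lit 1)]

/-- Test points. -/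
def upS16_26 : List (ℕ × ℕ × ℕ × ℕ) := [
  (nat_lit 21289720, nat_lit 6883, nat_lit 2, nat_lit 1),
  (nat_lit 21296568, nat_lit 6848, nat_lit 2, nat_lit 1),
  (nat_lit 21303387, nat_lit 6819, nat_lit 2, nat_lit 1),
  (nat_lit 21310180, nat_lit 6793, nat_lit 2, nat_lit 1),
  (nat_lit 21316952, nat_lit 6772, nat_lit 2, nat_lit 1),
  (nat_lit 21323708, nat_lit 6756, nat_lit 2, nat_lit 1),
  (nat_lit 21330454, nat_lit 6746, nat_lit 2, nat_lit 1),
  (nat_lit 21337198, nat_lit 6749, nat_lit 2, nat_lit 1),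
  (nat_lit 21343947, nat_lit 6767, nat_lit 2, nat_lit 1),
  (nat_lit 21350714, nat_lit 6799, nat_lit 2, nat_lit 1),
  (nat_lit 21357513, nat_lit 6850, nat_lit 2, nat_lit 1),
  (nat_lit 21364363, nat_lit 6930, nat_lit 2, nat_lit 1),
  (nat_lit 21371293, nat_lit 7054, nat_lit 2, nat_lit 1),
  (nat_lit 21378347, nat_lit 7250, nat_lit 2, nat_lit 1),
  (nat_lit 21385597, nat_lit 7583, nat_lit 2, nat_lit 1),
  (nat_lit 21393180, nat_lit 8241, nat_lit 2, nat_lit 1),
  (nat_lit 21401421, nat_lit 10201, nat_lit 2, nat_lit 1),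
  (nat_lit 21411622, nat_lit 63436, nat_lit 2, nat_lit 0),
  (nat_lit 21475058, nat_lit 63436, nat_lit 5, nat_lit 1),
  (nat_lit 21493002, nat_lit 17944, nat_lit 3, nat_lit 1),
  (nat_lit 21502497, nat_lit 9495, nat_lit 3, nat_lit 1),
  (nat_lit 21510147, nat_lit 7650, nat_lit 3, nat_lit 1),
  (nat_lit 21517143, nat_lit 6996, nat_lit 3, nat_lit 1),
  (nat_lit 21523784, nat_lit 6641, nat_lit 3, nat_lit 1),
  (nat_lit 21530196, nat_lit 6412, nat_lit 3, nat_lit 1)]

/-- Test points. -/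
def upS16_27 : List (ℕ × ℕ × ℕ × ℕ) := [
  (nat_lit 21536447, nat_lit 6251, nat_lit 3, nat_lit 1),
  (nat_lit 21542577, nat_lit 6130, nat_lit 3, nat_lit 1),
  (nat_lit 21548612, nat_lit 6035, nat_lit 3, nat_lit 1),
  (nat_lit 21554571, nat_lit 5959, nat_lit 3, nat_lit 1),
  (nat_lit 21560466, nat_lit 5895, nat_lit 3, nat_lit 1),
  (nat_lit 21566308, nat_lit 5842, nat_lit 3, nat_lit 1),
  (nat_lit 21572103, nat_lit 5795, nat_lit 3, nat_lit 1),
  (nat_lit 21577857, nat_lit 5754, nat_lit 3, nat_lit 1),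
  (nat_lit 21583574, nat_lit 5717, nat_lit 3, nat_lit 1),
  (nat_lit 21589260, nat_lit 5686, nat_lit 3, nat_lit 1),
  (nat_lit 21594916, nat_lit 5656, nat_lit 3, nat_lit 1),
  (nat_lit 21600545, nat_lit 5629, nat_lit 3, nat_lit 1),
  (nat_lit 21606150, nat_lit 5605, nat_lit 3, nat_lit 1),
  (nat_lit 21611733, nat_lit 5583, nat_lit 3, nat_lit 1),
  (nat_lit 21617295, nat_lit 5562, nat_lit 3, nat_lit 1),
  (nat_lit 21622837, nat_lit 5542, nat_lit 3, nat_lit 1),
  (nat_lit 21628362, nat_lit 5525, nat_lit 3, nat_lit 1),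
  (nat_lit 21633869, nat_lit 5507, nat_lit 3, nat_lit 1),
  (nat_lit 21639361, nat_lit 5492, nat_lit 3, nat_lit 1),
  (nat_lit 21644838, nat_lit 5477, nat_lit 3, nat_lit 1),
  (nat_lit 21650301, nat_lit 5463, nat_lit 3, nat_lit 1),
  (nat_lit 21655751, nat_lit 5450, nat_lit 3, nat_lit 1),
  (nat_lit 21661188, nat_lit 5437, nat_lit 3, nat_lit 1),
  (nat_lit 21666614, nat_lit 5426, nat_lit 3, nat_lit 1),
  (nat_lit 21672029, nat_lit 5415, nat_lit 3, nat_lit 1)]

/-- Test points. -/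
def upS16_28 : List (ℕ × ℕ × ℕ × ℕ) := [
  (nat_lit 21677433, nat_lit 5404, nat_lit 3, nat_lit 1),
  (nat_lit 21682827, nat_lit 5394, nat_lit 3, nat_lit 1),
  (nat_lit 21688213, nat_lit 5386, nat_lit 3, nat_lit 1),
  (nat_lit 21693590, nat_lit 5377, nat_lit 3, nat_lit 1),
  (nat_lit 21698958, nat_lit 5368, nat_lit 3, nat_lit 1),
  (nat_lit 21704320, nat_lit 5362, nat_lit 3, nat_lit 1),
  (nat_lit 21709675, nat_lit 5355, nat_lit 3, nat_lit 1),
  (nat_lit 21715023, nat_lit 5348, nat_lit 3, nat_lit 1),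
  (nat_lit 21720366, nat_lit 5343, nat_lit 3, nat_lit 1),
  (nat_lit 21725704, nat_lit 5338, nat_lit 3, nat_lit 1),
  (nat_lit 21731037, nat_lit 5333, nat_lit 3, nat_lit 1),
  (nat_lit 21736366, nat_lit 5329, nat_lit 3, nat_lit 1),
  (nat_lit 21741692, nat_lit 5326, nat_lit 3, nat_lit 1),
  (nat_lit 21747016, nat_lit 5324, nat_lit 3, nat_lit 1),
  (nat_lit 21752338, nat_lit 5322, nat_lit 3, nat_lit 1),
  (nat_lit 21757659, nat_lit 5321, nat_lit 3, nat_lit 1),
  (nat_lit 21762979, nat_lit 5321, nat_lit 3, nat_lit 1),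
  (nat_lit 21768300, nat_lit 5322, nat_lit 3, nat_lit 1),
  (nat_lit 21773622, nat_lit 5325, nat_lit 3, nat_lit 1),
  (nat_lit 21778947, nat_lit 5328, nat_lit 3, nat_lit 1),
  (nat_lit 21784275, nat_lit 5333, nat_lit 3, nat_lit 1),
  (nat_lit 21789608, nat_lit 5339, nat_lit 3, nat_lit 1),
  (nat_lit 21794947, nat_lit 5346, nat_lit 3, nat_lit 1),
  (nat_lit 21800293, nat_lit 5355, nat_lit 3, nat_lit 1),
  (nat_lit 21805648, nat_lit 5365, nat_lit 3, nat_lit 1)]

/-- Test points. -/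
def upS16_29 : List (ℕ × ℕ × ℕ × ℕ) := [
  (nat_lit 21811013, nat_lit 5379, nat_lit 3, nat_lit 1),
  (nat_lit 21816392, nat_lit 5393, nat_lit 3, nat_lit 1),
  (nat_lit 21821785, nat_lit 5410, nat_lit 3, nat_lit 1),
  (nat_lit 21827195, nat_lit 5431, nat_lit 3, nat_lit 1),
  (nat_lit 21832626, nat_lit 5455, nat_lit 3, nat_lit 1),
  (nat_lit 21838081, nat_lit 5482, nat_lit 3, nat_lit 1),
  (nat_lit 21843563, nat_lit 5515, nat_lit 3, nat_lit 1),
  (nat_lit 21849078, nat_lit 5553, nat_lit 3, nat_lit 1),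
  (nat_lit 21854631, nat_lit 5598, nat_lit 3, nat_lit 1),
  (nat_lit 21860229, nat_lit 5652, nat_lit 3, nat_lit 1),
  (nat_lit 21865881, nat_lit 5718, nat_lit 3, nat_lit 1),
  (nat_lit 21871599, nat_lit 5796, nat_lit 3, nat_lit 1),
  (nat_lit 21877395, nat_lit 5894, nat_lit 3, nat_lit 1),
  (nat_lit 21883289, nat_lit 6017, nat_lit 3, nat_lit 1),
  (nat_lit 21889306, nat_lit 6176, nat_lit 3, nat_lit 1),
  (nat_lit 21895482, nat_lit 6390, nat_lit 3, nat_lit 1),
  (nat_lit 21901872, nat_lit 6695, nat_lit 3, nat_lit 1),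
  (nat_lit 21908567, nat_lit 7167, nat_lit 3, nat_lit 1),
  (nat_lit 21915734, nat_lit 8022, nat_lit 3, nat_lit 1),
  (nat_lit 21923756, nat_lit 10378, nat_lit 3, nat_lit 1),
  (nat_lit 21934134, nat_lit 143406, nat_lit 3, nat_lit 0),
  (nat_lit 22077540, nat_lit 143406, nat_lit 2, nat_lit 1),
  (nat_lit 22087747, nat_lit 10207, nat_lit 2, nat_lit 1),
  (nat_lit 22095741, nat_lit 7994, nat_lit 2, nat_lit 1),
  (nat_lit 22102775, nat_lit 7034, nat_lit 2, nat_lit 1)]

/-- Test points. -/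
def upS16_30 : List (ℕ × ℕ × ℕ × ℕ) := [
  (nat_lit 22109309, nat_lit 6534, nat_lit 2, nat_lit 1),
  (nat_lit 22115524, nat_lit 6215, nat_lit 2, nat_lit 1),
  (nat_lit 22121515, nat_lit 5991, nat_lit 2, nat_lit 1),
  (nat_lit 22127338, nat_lit 5823, nat_lit 2, nat_lit 1),
  (nat_lit 22133031, nat_lit 5693, nat_lit 2, nat_lit 1),
  (nat_lit 22138620, nat_lit 5589, nat_lit 2, nat_lit 1),
  (nat_lit 22144124, nat_lit 5504, nat_lit 2, nat_lit 1),
  (nat_lit 22149556, nat_lit 5432, nat_lit 2, nat_lit 1),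
  (nat_lit 22154929, nat_lit 5373, nat_lit 2, nat_lit 1),
  (nat_lit 22160251, nat_lit 5322, nat_lit 2, nat_lit 1),
  (nat_lit 22165529, nat_lit 5278, nat_lit 2, nat_lit 1),
  (nat_lit 22170769, nat_lit 5240, nat_lit 2, nat_lit 1),
  (nat_lit 22175976, nat_lit 5207, nat_lit 2, nat_lit 1),
  (nat_lit 22181154, nat_lit 5178, nat_lit 2, nat_lit 1),
  (nat_lit 22186307, nat_lit 5153, nat_lit 2, nat_lit 1),
  (nat_lit 22191438, nat_lit 5131, nat_lit 2, nat_lit 1),
  (nat_lit 22196550, nat_lit 5112, nat_lit 2, nat_lit 1),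
  (nat_lit 22201645, nat_lit 5095, nat_lit 2, nat_lit 1),
  (nat_lit 22206727, nat_lit 5082, nat_lit 2, nat_lit 1),
  (nat_lit 22211797, nat_lit 5070, nat_lit 2, nat_lit 1),
  (nat_lit 22216858, nat_lit 5061, nat_lit 2, nat_lit 1),
  (nat_lit 22221913, nat_lit 5055, nat_lit 2, nat_lit 1),
  (nat_lit 22226963, nat_lit 5050, nat_lit 2, nat_lit 1),
  (nat_lit 22232013, nat_lit 5054, nat_lit 2, nat_lit 1),
  (nat_lit 22237067, nat_lit 5063, nat_lit 2, nat_lit 1)]

/-- Test points. -/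
def upS16_31 : List (ℕ × ℕ × ℕ × ℕ) := [
  (nat_lit 22242130, nat_lit 5082, nat_lit 2, nat_lit 1),
  (nat_lit 22247212, nat_lit 5117, nat_lit 2, nat_lit 1),
  (nat_lit 22252329, nat_lit 5182, nat_lit 2, nat_lit 1),
  (nat_lit 22257511, nat_lit 5329, nat_lit 2, nat_lit 1),
  (nat_lit 22262840, nat_lit 5815, nat_lit 2, nat_lit 1),
  (nat_lit 22268655, nat_lit 6085, nat_lit 2, nat_lit 1),
  (nat_lit 22274740, nat_lit 13904, nat_lit 2, nat_lit 0),
  (nat_lit 22288644, nat_lit 13904, nat_lit 3, nat_lit 1),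
  (nat_lit 22294662, nat_lit 6018, nat_lit 3, nat_lit 1),
  (nat_lit 22300047, nat_lit 5385, nat_lit 3, nat_lit 1),
  (nat_lit 22305258, nat_lit 5211, nat_lit 3, nat_lit 1),
  (nat_lit 22310393, nat_lit 5135, nat_lit 3, nat_lit 1),
  (nat_lit 22315490, nat_lit 5097, nat_lit 3, nat_lit 1),
  (nat_lit 22320566, nat_lit 5076, nat_lit 3, nat_lit 1),
  (nat_lit 22325632, nat_lit 5066, nat_lit 3, nat_lit 1),
  (nat_lit 22330694, nat_lit 5062, nat_lit 3, nat_lit 1),
  (nat_lit 22335756, nat_lit 5064, nat_lit 3, nat_lit 1),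
  (nat_lit 22340820, nat_lit 5071, nat_lit 3, nat_lit 1),
  (nat_lit 22345891, nat_lit 5078, nat_lit 3, nat_lit 1),
  (nat_lit 22350969, nat_lit 5087, nat_lit 3, nat_lit 1),
  (nat_lit 22356056, nat_lit 5099, nat_lit 3, nat_lit 1),
  (nat_lit 22361155, nat_lit 5112, nat_lit 3, nat_lit 1),
  (nat_lit 22366267, nat_lit 5126, nat_lit 3, nat_lit 1),
  (nat_lit 22371393, nat_lit 5143, nat_lit 3, nat_lit 1),
  (nat_lit 22376536, nat_lit 5161, nat_lit 3, nat_lit 1)]

/-- Test points. -/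
def upS16_32 : List (ℕ × ℕ × ℕ × ℕ) := [
  (nat_lit 22381697, nat_lit 5180, nat_lit 3, nat_lit 1),
  (nat_lit 22386877, nat_lit 5202, nat_lit 3, nat_lit 1),
  (nat_lit 22392079, nat_lit 5224, nat_lit 3, nat_lit 1),
  (nat_lit 22397303, nat_lit 5251, nat_lit 3, nat_lit 1),
  (nat_lit 22402554, nat_lit 5278, nat_lit 3, nat_lit 1),
  (nat_lit 22407832, nat_lit 5308, nat_lit 3, nat_lit 1),
  (nat_lit 22413140, nat_lit 5341, nat_lit 3, nat_lit 1),
  (nat_lit 22418481, nat_lit 5376, nat_lit 3, nat_lit 1),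
  (nat_lit 22423857, nat_lit 5416, nat_lit 3, nat_lit 1),
  (nat_lit 22429273, nat_lit 5459, nat_lit 3, nat_lit 1),
  (nat_lit 22434732, nat_lit 5506, nat_lit 3, nat_lit 1),
  (nat_lit 22440238, nat_lit 5557, nat_lit 3, nat_lit 1),
  (nat_lit 22445795, nat_lit 5615, nat_lit 3, nat_lit 1),
  (nat_lit 22451410, nat_lit 5677, nat_lit 3, nat_lit 1),
  (nat_lit 22457087, nat_lit 5748, nat_lit 3, nat_lit 1),
  (nat_lit 22462835, nat_lit 5826, nat_lit 3, nat_lit 1),
  (nat_lit 22468661, nat_lit 5915, nat_lit 3, nat_lit 1),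
  (nat_lit 22474576, nat_lit 6015, nat_lit 3, nat_lit 1),
  (nat_lit 22480591, nat_lit 6130, nat_lit 3, nat_lit 1),
  (nat_lit 22486721, nat_lit 6264, nat_lit 3, nat_lit 1),
  (nat_lit 22492985, nat_lit 6420, nat_lit 3, nat_lit 1),
  (nat_lit 22499405, nat_lit 6606, nat_lit 3, nat_lit 1),
  (nat_lit 22506011, nat_lit 6833, nat_lit 3, nat_lit 1),
  (nat_lit 22512844, nat_lit 7116, nat_lit 3, nat_lit 1),
  (nat_lit 22519960, nat_lit 7484, nat_lit 3, nat_lit 1)]

/-- Test points. -/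
def upS16_33 : List (ℕ × ℕ × ℕ × ℕ) := [
  (nat_lit 22527444, nat_lit 7989, nat_lit 3, nat_lit 1),
  (nat_lit 22535433, nat_lit 8740, nat_lit 3, nat_lit 1),
  (nat_lit 22544173, nat_lit 10053, nat_lit 3, nat_lit 1),
  (nat_lit 22554226, nat_lit 13512, nat_lit 3, nat_lit 1),
  (nat_lit 22567738, nat_lit 304837, nat_lit 3, nat_lit 0),
  (nat_lit 22872575, nat_lit 304837, nat_lit 342, nat_lit 1),
  (nat_lit 23061825, nat_lit 189250, nat_lit 2, nat_lit 1),
  (nat_lit 23073987, nat_lit 12162, nat_lit 2, nat_lit 1),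
  (nat_lit 23082992, nat_lit 9005, nat_lit 2, nat_lit 1),
  (nat_lit 23090792, nat_lit 7800, nat_lit 2, nat_lit 1),
  (nat_lit 23097897, nat_lit 7105, nat_lit 2, nat_lit 1),
  (nat_lit 23104532, nat_lit 6635, nat_lit 2, nat_lit 1),
  (nat_lit 23110823, nat_lit 6291, nat_lit 2, nat_lit 1),
  (nat_lit 23116846, nat_lit 6023, nat_lit 2, nat_lit 1),
  (nat_lit 23122653, nat_lit 5807, nat_lit 2, nat_lit 1),
  (nat_lit 23128280, nat_lit 5627, nat_lit 2, nat_lit 1),
  (nat_lit 23133757, nat_lit 5477, nat_lit 2, nat_lit 1),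
  (nat_lit 23139104, nat_lit 5347, nat_lit 2, nat_lit 1),
  (nat_lit 23144337, nat_lit 5233, nat_lit 2, nat_lit 1),
  (nat_lit 23149470, nat_lit 5133, nat_lit 2, nat_lit 1),
  (nat_lit 23154513, nat_lit 5043, nat_lit 2, nat_lit 1),
  (nat_lit 23159476, nat_lit 4963, nat_lit 2, nat_lit 1),
  (nat_lit 23164367, nat_lit 4891, nat_lit 2, nat_lit 1),
  (nat_lit 23169192, nat_lit 4825, nat_lit 2, nat_lit 1),
  (nat_lit 23173957, nat_lit 4765, nat_lit 2, nat_lit 1)]

/-- Test points. -/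
def upS16_34 : List (ℕ × ℕ × ℕ × ℕ) := [
  (nat_lit 23178666, nat_lit 4709, nat_lit 2, nat_lit 1),
  (nat_lit 23183324, nat_lit 4658, nat_lit 2, nat_lit 1),
  (nat_lit 23187935, nat_lit 4611, nat_lit 2, nat_lit 1),
  (nat_lit 23192501, nat_lit 4566, nat_lit 2, nat_lit 1),
  (nat_lit 23197026, nat_lit 4525, nat_lit 2, nat_lit 1),
  (nat_lit 23201513, nat_lit 4487, nat_lit 2, nat_lit 1),
  (nat_lit 23205964, nat_lit 4451, nat_lit 2, nat_lit 1),
  (nat_lit 23210381, nat_lit 4417, nat_lit 2, nat_lit 1),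
  (nat_lit 23214766, nat_lit 4385, nat_lit 2, nat_lit 1),
  (nat_lit 23219120, nat_lit 4354, nat_lit 2, nat_lit 1),
  (nat_lit 23223446, nat_lit 4326, nat_lit 2, nat_lit 1),
  (nat_lit 23227745, nat_lit 4299, nat_lit 2, nat_lit 1),
  (nat_lit 23232018, nat_lit 4273, nat_lit 2, nat_lit 1),
  (nat_lit 23236266, nat_lit 4248, nat_lit 2, nat_lit 1),
  (nat_lit 23240492, nat_lit 4226, nat_lit 2, nat_lit 1),
  (nat_lit 23244695, nat_lit 4203, nat_lit 2, nat_lit 1),
  (nat_lit 23248877, nat_lit 4182, nat_lit 2, nat_lit 1),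
  (nat_lit 23253038, nat_lit 4161, nat_lit 2, nat_lit 1),
  (nat_lit 23257180, nat_lit 4142, nat_lit 2, nat_lit 1),
  (nat_lit 23261304, nat_lit 4124, nat_lit 2, nat_lit 1),
  (nat_lit 23265410, nat_lit 4106, nat_lit 2, nat_lit 1),
  (nat_lit 23269498, nat_lit 4088, nat_lit 2, nat_lit 1),
  (nat_lit 23273570, nat_lit 4072, nat_lit 2, nat_lit 1),
  (nat_lit 23277626, nat_lit 4056, nat_lit 2, nat_lit 1),
  (nat_lit 23281667, nat_lit 4041, nat_lit 2, nat_lit 1)]

/-- Test points. -/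
def upS16_35 : List (ℕ × ℕ × ℕ × ℕ) := [
  (nat_lit 23285693, nat_lit 4026, nat_lit 2, nat_lit 1),
  (nat_lit 23289706, nat_lit 4013, nat_lit 2, nat_lit 1),
  (nat_lit 23293705, nat_lit 3999, nat_lit 2, nat_lit 1),
  (nat_lit 23297690, nat_lit 3985, nat_lit 2, nat_lit 1),
  (nat_lit 23301663, nat_lit 3973, nat_lit 2, nat_lit 1),
  (nat_lit 23305623, nat_lit 3960, nat_lit 2, nat_lit 1),
  (nat_lit 23309572, nat_lit 3949, nat_lit 2, nat_lit 1),
  (nat_lit 23313509, nat_lit 3937, nat_lit 2, nat_lit 1),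
  (nat_lit 23317436, nat_lit 3927, nat_lit 2, nat_lit 1),
  (nat_lit 23321351, nat_lit 3915, nat_lit 2, nat_lit 1),
  (nat_lit 23325257, nat_lit 3906, nat_lit 2, nat_lit 1),
  (nat_lit 23329152, nat_lit 3895, nat_lit 2, nat_lit 1),
  (nat_lit 23333038, nat_lit 3886, nat_lit 2, nat_lit 1),
  (nat_lit 23336914, nat_lit 3876, nat_lit 2, nat_lit 1),
  (nat_lit 23340782, nat_lit 3868, nat_lit 2, nat_lit 1),
  (nat_lit 23344641, nat_lit 3859, nat_lit 2, nat_lit 1),
  (nat_lit 23348491, nat_lit 3850, nat_lit 2, nat_lit 1),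
  (nat_lit 23352334, nat_lit 3843, nat_lit 2, nat_lit 1),
  (nat_lit 23356168, nat_lit 3834, nat_lit 2, nat_lit 1),
  (nat_lit 23359995, nat_lit 3827, nat_lit 2, nat_lit 1),
  (nat_lit 23363814, nat_lit 3819, nat_lit 2, nat_lit 1),
  (nat_lit 23367626, nat_lit 3812, nat_lit 2, nat_lit 1),
  (nat_lit 23371432, nat_lit 3806, nat_lit 2, nat_lit 1),
  (nat_lit 23375231, nat_lit 3799, nat_lit 2, nat_lit 1),
  (nat_lit 23379024, nat_lit 3793, nat_lit 2, nat_lit 1)]

/-- Test points. -/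
def upS16_36 : List (ℕ × ℕ × ℕ × ℕ) := [
  (nat_lit 23382811, nat_lit 3787, nat_lit 2, nat_lit 1),
  (nat_lit 23386592, nat_lit 3781, nat_lit 2, nat_lit 1),
  (nat_lit 23390367, nat_lit 3775, nat_lit 2, nat_lit 1),
  (nat_lit 23394136, nat_lit 3769, nat_lit 2, nat_lit 1),
  (nat_lit 23397901, nat_lit 3765, nat_lit 2, nat_lit 1),
  (nat_lit 23401660, nat_lit 3759, nat_lit 2, nat_lit 1),
  (nat_lit 23405415, nat_lit 3755, nat_lit 2, nat_lit 1),
  (nat_lit 23409166, nat_lit 3751, nat_lit 2, nat_lit 1),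
  (nat_lit 23412912, nat_lit 3746, nat_lit 2, nat_lit 1),
  (nat_lit 23416655, nat_lit 3743, nat_lit 2, nat_lit 1),
  (nat_lit 23420394, nat_lit 3739, nat_lit 2, nat_lit 1),
  (nat_lit 23424129, nat_lit 3735, nat_lit 2, nat_lit 1),
  (nat_lit 23427861, nat_lit 3732, nat_lit 2, nat_lit 1),
  (nat_lit 23431590, nat_lit 3729, nat_lit 2, nat_lit 1),
  (nat_lit 23435317, nat_lit 3727, nat_lit 2, nat_lit 1),
  (nat_lit 23439042, nat_lit 3725, nat_lit 2, nat_lit 1),
  (nat_lit 23442764, nat_lit 3722, nat_lit 2, nat_lit 1),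
  (nat_lit 23446485, nat_lit 3721, nat_lit 2, nat_lit 1),
  (nat_lit 23450204, nat_lit 3719, nat_lit 2, nat_lit 1),
  (nat_lit 23453922, nat_lit 3718, nat_lit 2, nat_lit 1),
  (nat_lit 23457640, nat_lit 3718, nat_lit 2, nat_lit 1),
  (nat_lit 23461357, nat_lit 3717, nat_lit 2, nat_lit 1),
  (nat_lit 23465074, nat_lit 3718, nat_lit 2, nat_lit 1),
  (nat_lit 23468792, nat_lit 3718, nat_lit 2, nat_lit 1),
  (nat_lit 23472510, nat_lit 3720, nat_lit 2, nat_lit 1)]

/-- Test points. -/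
def upS16_37 : List (ℕ × ℕ × ℕ × ℕ) := [
  (nat_lit 23476230, nat_lit 3723, nat_lit 2, nat_lit 1),
  (nat_lit 23479953, nat_lit 3725, nat_lit 2, nat_lit 1),
  (nat_lit 23483678, nat_lit 3727, nat_lit 2, nat_lit 1),
  (nat_lit 23487405, nat_lit 3731, nat_lit 2, nat_lit 1),
  (nat_lit 23491136, nat_lit 3737, nat_lit 2, nat_lit 1),
  (nat_lit 23494873, nat_lit 3741, nat_lit 2, nat_lit 1),
  (nat_lit 23498614, nat_lit 3748, nat_lit 2, nat_lit 1),
  (nat_lit 23502362, nat_lit 3755, nat_lit 2, nat_lit 1),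
  (nat_lit 23506117, nat_lit 3764, nat_lit 2, nat_lit 1),
  (nat_lit 23509881, nat_lit 3773, nat_lit 2, nat_lit 1),
  (nat_lit 23513654, nat_lit 3783, nat_lit 2, nat_lit 1),
  (nat_lit 23517437, nat_lit 3797, nat_lit 2, nat_lit 1),
  (nat_lit 23521234, nat_lit 3811, nat_lit 2, nat_lit 1),
  (nat_lit 23525045, nat_lit 3828, nat_lit 2, nat_lit 1),
  (nat_lit 23528873, nat_lit 3847, nat_lit 2, nat_lit 1),
  (nat_lit 23532720, nat_lit 3868, nat_lit 2, nat_lit 1),
  (nat_lit 23536588, nat_lit 3895, nat_lit 2, nat_lit 1),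
  (nat_lit 23540483, nat_lit 3924, nat_lit 2, nat_lit 1),
  (nat_lit 23544407, nat_lit 3958, nat_lit 2, nat_lit 1),
  (nat_lit 23548365, nat_lit 3999, nat_lit 2, nat_lit 1),
  (nat_lit 23552364, nat_lit 4049, nat_lit 2, nat_lit 1),
  (nat_lit 23556413, nat_lit 4107, nat_lit 2, nat_lit 1),
  (nat_lit 23560520, nat_lit 4180, nat_lit 2, nat_lit 1),
  (nat_lit 23564700, nat_lit 4270, nat_lit 2, nat_lit 1),
  (nat_lit 23568970, nat_lit 4389, nat_lit 2, nat_lit 1)]

/-- Test points. -/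
def upS16_38 : List (ℕ × ℕ × ℕ × ℕ) := [
  (nat_lit 23573359, nat_lit 4545, nat_lit 2, nat_lit 1),
  (nat_lit 23577904, nat_lit 4767, nat_lit 2, nat_lit 1),
  (nat_lit 23582671, nat_lit 5113, nat_lit 2, nat_lit 1),
  (nat_lit 23587784, nat_lit 5742, nat_lit 2, nat_lit 1),
  (nat_lit 23593526, nat_lit 7419, nat_lit 2, nat_lit 1),
  (nat_lit 23600945, nat_lit 105807, nat_lit 2, nat_lit 0),
  (nat_lit 23706752, nat_lit 105807, nat_lit 3, nat_lit 1),
  (nat_lit 23714760, nat_lit 8008, nat_lit 3, nat_lit 1),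
  (nat_lit 23721074, nat_lit 6314, nat_lit 3, nat_lit 1),
  (nat_lit 23726841, nat_lit 5767, nat_lit 3, nat_lit 1),
  (nat_lit 23732377, nat_lit 5536, nat_lit 3, nat_lit 1),
  (nat_lit 23737847, nat_lit 5541, nat_lit 3, nat_lit 1),
  (nat_lit 23743388, nat_lit 5779, nat_lit 3, nat_lit 1),
  (nat_lit 23749167, nat_lit 6334, nat_lit 3, nat_lit 1),
  (nat_lit 23755501, nat_lit 8052, nat_lit 3, nat_lit 1),
  (nat_lit 23763553, nat_lit 85285, nat_lit 3, nat_lit 0),
  (nat_lit 23848838, nat_lit 85285, nat_lit 18, nat_lit 1),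
  (nat_lit 23876635, nat_lit 27797, nat_lit 2, nat_lit 1),
  (nat_lit 23883911, nat_lit 7276, nat_lit 2, nat_lit 1),
  (nat_lit 23889532, nat_lit 5621, nat_lit 2, nat_lit 1),
  (nat_lit 23894557, nat_lit 5025, nat_lit 2, nat_lit 1),
  (nat_lit 23899264, nat_lit 4707, nat_lit 2, nat_lit 1),
  (nat_lit 23903776, nat_lit 4512, nat_lit 2, nat_lit 1),
  (nat_lit 23908165, nat_lit 4389, nat_lit 2, nat_lit 1),
  (nat_lit 23912480, nat_lit 4315, nat_lit 2, nat_lit 1)]

/-- Test points. -/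
def upS16_39 : List (ℕ × ℕ × ℕ × ℕ) := [
  (nat_lit 23916765, nat_lit 4297, nat_lit 2, nat_lit 1),
  (nat_lit 23921062, nat_lit 4364, nat_lit 2, nat_lit 1),
  (nat_lit 23925426, nat_lit 4521, nat_lit 2, nat_lit 1),
  (nat_lit 23929947, nat_lit 4875, nat_lit 2, nat_lit 1),
  (nat_lit 23934822, nat_lit 5994, nat_lit 2, nat_lit 1),
  (nat_lit 23940816, nat_lit 28362, nat_lit 2, nat_lit 0),
  (nat_lit 23969178, nat_lit 28362, nat_lit 19, nat_lit 1),
  (nat_lit 23987226, nat_lit 18048, nat_lit 3, nat_lit 1),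
  (nat_lit 23992802, nat_lit 5576, nat_lit 3, nat_lit 1),
  (nat_lit 23997258, nat_lit 4456, nat_lit 3, nat_lit 1),
  (nat_lit 24001320, nat_lit 4062, nat_lit 3, nat_lit 1),
  (nat_lit 24005171, nat_lit 3851, nat_lit 3, nat_lit 1),
  (nat_lit 24008888, nat_lit 3717, nat_lit 3, nat_lit 1),
  (nat_lit 24012512, nat_lit 3624, nat_lit 3, nat_lit 1),
  (nat_lit 24016067, nat_lit 3555, nat_lit 3, nat_lit 1),
  (nat_lit 24019568, nat_lit 3501, nat_lit 3, nat_lit 1),
  (nat_lit 24023026, nat_lit 3458, nat_lit 3, nat_lit 1),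
  (nat_lit 24026450, nat_lit 3424, nat_lit 3, nat_lit 1),
  (nat_lit 24029846, nat_lit 3396, nat_lit 3, nat_lit 1),
  (nat_lit 24033217, nat_lit 3371, nat_lit 3, nat_lit 1),
  (nat_lit 24036566, nat_lit 3349, nat_lit 3, nat_lit 1),
  (nat_lit 24039898, nat_lit 3332, nat_lit 3, nat_lit 1),
  (nat_lit 24043214, nat_lit 3316, nat_lit 3, nat_lit 1),
  (nat_lit 24046515, nat_lit 3301, nat_lit 3, nat_lit 1),
  (nat_lit 24049804, nat_lit 3289, nat_lit 3, nat_lit 1)]

/-- Test points. -/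
def upS16_40 : List (ℕ × ℕ × ℕ × ℕ) := [
  (nat_lit 24053083, nat_lit 3279, nat_lit 3, nat_lit 1),
  (nat_lit 24056351, nat_lit 3268, nat_lit 3, nat_lit 1),
  (nat_lit 24059610, nat_lit 3259, nat_lit 3, nat_lit 1),
  (nat_lit 24062860, nat_lit 3250, nat_lit 3, nat_lit 1),
  (nat_lit 24066103, nat_lit 3243, nat_lit 3, nat_lit 1),
  (nat_lit 24069339, nat_lit 3236, nat_lit 3, nat_lit 1),
  (nat_lit 24072569, nat_lit 3230, nat_lit 3, nat_lit 1),
  (nat_lit 24075793, nat_lit 3224, nat_lit 3, nat_lit 1),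
  (nat_lit 24079012, nat_lit 3219, nat_lit 3, nat_lit 1),
  (nat_lit 24082225, nat_lit 3213, nat_lit 3, nat_lit 1),
  (nat_lit 24085434, nat_lit 3209, nat_lit 3, nat_lit 1),
  (nat_lit 24088639, nat_lit 3205, nat_lit 3, nat_lit 1),
  (nat_lit 24091841, nat_lit 3202, nat_lit 3, nat_lit 1),
  (nat_lit 24095038, nat_lit 3197, nat_lit 3, nat_lit 1),
  (nat_lit 24098233, nat_lit 3195, nat_lit 3, nat_lit 1),
  (nat_lit 24101424, nat_lit 3191, nat_lit 3, nat_lit 1),
  (nat_lit 24104613, nat_lit 3189, nat_lit 3, nat_lit 1),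
  (nat_lit 24107799, nat_lit 3186, nat_lit 3, nat_lit 1),
  (nat_lit 24110983, nat_lit 3184, nat_lit 3, nat_lit 1),
  (nat_lit 24114165, nat_lit 3182, nat_lit 3, nat_lit 1),
  (nat_lit 24117345, nat_lit 3180, nat_lit 3, nat_lit 1),
  (nat_lit 24120523, nat_lit 3178, nat_lit 3, nat_lit 1),
  (nat_lit 24123699, nat_lit 3176, nat_lit 3, nat_lit 1),
  (nat_lit 24126875, nat_lit 3176, nat_lit 3, nat_lit 1),
  (nat_lit 24130049, nat_lit 3174, nat_lit 3, nat_lit 1)]

/-- Test points. -/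
def upS16_41 : List (ℕ × ℕ × ℕ × ℕ) := [
  (nat_lit 24133223, nat_lit 3174, nat_lit 3, nat_lit 1),
  (nat_lit 24136396, nat_lit 3173, nat_lit 3, nat_lit 1),
  (nat_lit 24139569, nat_lit 3173, nat_lit 3, nat_lit 1),
  (nat_lit 24142741, nat_lit 3172, nat_lit 3, nat_lit 1),
  (nat_lit 24145913, nat_lit 3172, nat_lit 3, nat_lit 1),
  (nat_lit 24149085, nat_lit 3173, nat_lit 3, nat_lit 1),
  (nat_lit 24152258, nat_lit 3174, nat_lit 3, nat_lit 1),
  (nat_lit 24155432, nat_lit 3174, nat_lit 3, nat_lit 1),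
  (nat_lit 24158606, nat_lit 3176, nat_lit 3, nat_lit 1),
  (nat_lit 24161782, nat_lit 3178, nat_lit 3, nat_lit 1),
  (nat_lit 24164960, nat_lit 3181, nat_lit 3, nat_lit 1),
  (nat_lit 24168141, nat_lit 3184, nat_lit 3, nat_lit 1),
  (nat_lit 24171325, nat_lit 3188, nat_lit 3, nat_lit 1),
  (nat_lit 24174513, nat_lit 3194, nat_lit 3, nat_lit 1),
  (nat_lit 24177707, nat_lit 3201, nat_lit 3, nat_lit 1),
  (nat_lit 24180908, nat_lit 3212, nat_lit 3, nat_lit 1),
  (nat_lit 24184120, nat_lit 3229, nat_lit 3, nat_lit 1),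
  (nat_lit 24187349, nat_lit 3255, nat_lit 3, nat_lit 1),
  (nat_lit 24190604, nat_lit 3303, nat_lit 3, nat_lit 1),
  (nat_lit 24193907, nat_lit 3409, nat_lit 3, nat_lit 1),
  (nat_lit 24197316, nat_lit 3793, nat_lit 3, nat_lit 1),
  (nat_lit 24201109, nat_lit 9637, nat_lit 3, nat_lit 0),
  (nat_lit 24210746, nat_lit 9637, nat_lit 2, nat_lit 1),
  (nat_lit 24214490, nat_lit 3744, nat_lit 2, nat_lit 1),
  (nat_lit 24218014, nat_lit 3524, nat_lit 2, nat_lit 1)]

/-- Test points. -/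
def upS16_42 : List (ℕ × ℕ × ℕ × ℕ) := [
  (nat_lit 24221365, nat_lit 3351, nat_lit 2, nat_lit 1),
  (nat_lit 24224655, nat_lit 3290, nat_lit 2, nat_lit 1),
  (nat_lit 24227916, nat_lit 3261, nat_lit 2, nat_lit 1),
  (nat_lit 24231163, nat_lit 3247, nat_lit 2, nat_lit 1),
  (nat_lit 24234401, nat_lit 3238, nat_lit 2, nat_lit 1),
  (nat_lit 24237634, nat_lit 3233, nat_lit 2, nat_lit 1),
  (nat_lit 24240865, nat_lit 3231, nat_lit 2, nat_lit 1),
  (nat_lit 24244095, nat_lit 3231, nat_lit 2, nat_lit 1),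
  (nat_lit 24247326, nat_lit 3233, nat_lit 2, nat_lit 1),
  (nat_lit 24250559, nat_lit 3235, nat_lit 2, nat_lit 1),
  (nat_lit 24253794, nat_lit 3237, nat_lit 2, nat_lit 1),
  (nat_lit 24257031, nat_lit 3241, nat_lit 2, nat_lit 1),
  (nat_lit 24260272, nat_lit 3245, nat_lit 2, nat_lit 1),
  (nat_lit 24263517, nat_lit 3248, nat_lit 2, nat_lit 1),
  (nat_lit 24266765, nat_lit 3253, nat_lit 2, nat_lit 1),
  (nat_lit 24270018, nat_lit 3258, nat_lit 2, nat_lit 1),
  (nat_lit 24273276, nat_lit 3263, nat_lit 2, nat_lit 1),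
  (nat_lit 24276539, nat_lit 3269, nat_lit 2, nat_lit 1),
  (nat_lit 24279808, nat_lit 3274, nat_lit 2, nat_lit 1),
  (nat_lit 24283082, nat_lit 3280, nat_lit 2, nat_lit 1),
  (nat_lit 24286362, nat_lit 3286, nat_lit 2, nat_lit 1),
  (nat_lit 24289648, nat_lit 3293, nat_lit 2, nat_lit 1),
  (nat_lit 24292941, nat_lit 3300, nat_lit 2, nat_lit 1),
  (nat_lit 24296241, nat_lit 3308, nat_lit 2, nat_lit 1),
  (nat_lit 24299549, nat_lit 3315, nat_lit 2, nat_lit 1)]

/-- Test points. -/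
def upS16_43 : List (ℕ × ℕ × ℕ × ℕ) := [
  (nat_lit 24302864, nat_lit 3323, nat_lit 2, nat_lit 1),
  (nat_lit 24306187, nat_lit 3332, nat_lit 2, nat_lit 1),
  (nat_lit 24309519, nat_lit 3340, nat_lit 2, nat_lit 1),
  (nat_lit 24312859, nat_lit 3350, nat_lit 2, nat_lit 1),
  (nat_lit 24316209, nat_lit 3359, nat_lit 2, nat_lit 1),
  (nat_lit 24319568, nat_lit 3370, nat_lit 2, nat_lit 1),
  (nat_lit 24322938, nat_lit 3379, nat_lit 2, nat_lit 1),
  (nat_lit 24326317, nat_lit 3391, nat_lit 2, nat_lit 1),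
  (nat_lit 24329708, nat_lit 3403, nat_lit 2, nat_lit 1),
  (nat_lit 24333111, nat_lit 3414, nat_lit 2, nat_lit 1),
  (nat_lit 24336525, nat_lit 3427, nat_lit 2, nat_lit 1),
  (nat_lit 24339952, nat_lit 3441, nat_lit 2, nat_lit 1),
  (nat_lit 24343393, nat_lit 3454, nat_lit 2, nat_lit 1),
  (nat_lit 24346847, nat_lit 3468, nat_lit 2, nat_lit 1),
  (nat_lit 24350315, nat_lit 3484, nat_lit 2, nat_lit 1),
  (nat_lit 24353799, nat_lit 3500, nat_lit 2, nat_lit 1),
  (nat_lit 24357299, nat_lit 3516, nat_lit 2, nat_lit 1),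
  (nat_lit 24360815, nat_lit 3534, nat_lit 2, nat_lit 1),
  (nat_lit 24364349, nat_lit 3553, nat_lit 2, nat_lit 1),
  (nat_lit 24367902, nat_lit 3572, nat_lit 2, nat_lit 1),
  (nat_lit 24371474, nat_lit 3593, nat_lit 2, nat_lit 1),
  (nat_lit 24375067, nat_lit 3614, nat_lit 2, nat_lit 1),
  (nat_lit 24378681, nat_lit 3638, nat_lit 2, nat_lit 1),
  (nat_lit 24382319, nat_lit 3662, nat_lit 2, nat_lit 1),
  (nat_lit 24385981, nat_lit 3687, nat_lit 2, nat_lit 1)]

/-- Test points. -/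
def upS16_44 : List (ℕ × ℕ × ℕ × ℕ) := [
  (nat_lit 24389668, nat_lit 3715, nat_lit 2, nat_lit 1),
  (nat_lit 24393383, nat_lit 3744, nat_lit 2, nat_lit 1),
  (nat_lit 24397127, nat_lit 3775, nat_lit 2, nat_lit 1),
  (nat_lit 24400902, nat_lit 3808, nat_lit 2, nat_lit 1),
  (nat_lit 24404710, nat_lit 3843, nat_lit 2, nat_lit 1),
  (nat_lit 24408553, nat_lit 3881, nat_lit 2, nat_lit 1),
  (nat_lit 24412434, nat_lit 3922, nat_lit 2, nat_lit 1),
  (nat_lit 24416356, nat_lit 3966, nat_lit 2, nat_lit 1),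
  (nat_lit 24420322, nat_lit 4013, nat_lit 2, nat_lit 1),
  (nat_lit 24424335, nat_lit 4065, nat_lit 2, nat_lit 1),
  (nat_lit 24428400, nat_lit 4121, nat_lit 2, nat_lit 1),
  (nat_lit 24432521, nat_lit 4183, nat_lit 2, nat_lit 1),
  (nat_lit 24436704, nat_lit 4250, nat_lit 2, nat_lit 1),
  (nat_lit 24440954, nat_lit 4325, nat_lit 2, nat_lit 1),
  (nat_lit 24445279, nat_lit 4409, nat_lit 2, nat_lit 1),
  (nat_lit 24449688, nat_lit 4503, nat_lit 2, nat_lit 1),
  (nat_lit 24454191, nat_lit 4609, nat_lit 2, nat_lit 1),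
  (nat_lit 24458800, nat_lit 4731, nat_lit 2, nat_lit 1),
  (nat_lit 24463531, nat_lit 4873, nat_lit 2, nat_lit 1),
  (nat_lit 24468404, nat_lit 5040, nat_lit 2, nat_lit 1),
  (nat_lit 24473444, nat_lit 5241, nat_lit 2, nat_lit 1),
  (nat_lit 24478685, nat_lit 5492, nat_lit 2, nat_lit 1),
  (nat_lit 24484177, nat_lit 5813, nat_lit 2, nat_lit 1),
  (nat_lit 24489990, nat_lit 6248, nat_lit 2, nat_lit 1),
  (nat_lit 24496238, nat_lit 6892, nat_lit 2, nat_lit 1)]

/-- Test points. -/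
def upS16_45 : List (ℕ × ℕ × ℕ × ℕ) := [
  (nat_lit 24503130, nat_lit 8001, nat_lit 2, nat_lit 1),
  (nat_lit 24511131, nat_lit 10891, nat_lit 2, nat_lit 1),
  (nat_lit 24522022, nat_lit 477978, nat_lit 4, nat_lit 0)]

end Up

end IntCheb
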